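import Pool.Agent.Lib.MP_39df77_nt.U6.Defs
import Pool.Agent.Lib.MP_39df77_nt.F4.A

/-! A06: fourth moment (helper16). Helper lemmas in namespaces `S6UZ` and `U6.FM`. -/

section

namespace S6UZ
open Filter Topology Complex Set

/-- Euler–Maclaurin term. -/
noncomputable def vt (n : ℕ) (s : ℂ) : ℂ :=
  (s - 1) * ((n : ℂ) + 1) ^ (-s) + (((n : ℂ) + 2) ^ (1 - s) - ((n : ℂ) + 1) ^ (1 - s))

lemma cast_add_ne (n : ℕ) (a : ℝ) (ha : 0 < a) : ((n : ℂ) + a) ≠ 0 := by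
  have : ((n : ℂ) + a) = ((n + a : ℝ) : ℂ) := by push_cast; ring
  rw [this]
  exact_mod_cast (by positivity : (n:ℝ) + a ≠ 0)

lemma vt_differentiable (n : ℕ) : Differentiable ℂ (vt n) := by
  unfold vt
  have h1 : ((n : ℂ) + 1) ≠ 0 := by simpa using cast_add_ne n 1 one_pos
  have h2 : ((n : ℂ) + 2) ≠ 0 := by simpa using cast_add_ne n 2 two_pos
  refine Differentiable.add (Differentiable.mul (by fun_prop) ?_) (Differentiable.sub ?_ ?_)
  · exact fun s => (DifferentiableAt.const_cpow (by fun_prop) (Or.inl h1))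
  · exact fun s => (DifferentiableAt.const_cpow (by fun_prop) (Or.inl h2))
  · exact fun s => (DifferentiableAt.const_cpow (by fun_prop) (Or.inl h1))

lemma hasDerivAt_cpow_line (n : ℕ) (x : ℝ) (hx : 0 ≤ x) (c : ℂ) :
    HasDerivAt (fun x : ℝ => ((n : ℂ) + 1 + x) ^ c) (c * ((n : ℂ) + 1 + x) ^ (c - 1)) x := by
  have h1 : HasDerivAt (fun x : ℝ => ((n : ℂ) + 1 + x)) 1 x := by
    simpa using (Complex.ofRealCLM.hasDerivAt (x := x)).const_add ((n : ℂ) + 1)
  have h2 : ((n : ℂ) + 1 + x) ∈ slitPlane := by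
    left
    have : ((n : ℂ) + 1 + x).re = (n : ℝ) + 1 + x := by simp
    rw [this]; positivity
  have h3 : HasDerivAt (fun z : ℂ => z ^ c) (c * ((n : ℂ) + 1 + x) ^ (c - 1) * 1) ((n : ℂ) + 1 + x) :=
    (hasDerivAt_id _).cpow_const h2
  have h4 := h3.comp_of_eq x h1 rfl
  rw [mul_one, mul_one] at h4
  exact h4

lemma norm_cpow_line (n : ℕ) (x : ℝ) (hx : 0 ≤ x) (c : ℂ) :
    ‖((n : ℂ) + 1 + x) ^ c‖ = ((n : ℝ) + 1 + x) ^ c.re := by
  have : ((n : ℂ) + 1 + x) = (((n : ℝ) + 1 + x : ℝ) : ℂ) := by push_cast; ring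
  rw [this, Complex.norm_cpow_eq_rpow_re_of_pos (by positivity)]

lemma vt_bound (n : ℕ) (s : ℂ) (hs : -1 ≤ s.re) :
    ‖vt n s‖ ≤ ‖s - 1‖ * ‖s‖ * ((n : ℝ) + 1) ^ (-s.re - 1) := by
  -- inner difference
  have h1 : ∀ x : ℝ, x ∈ Icc (0:ℝ) 1 →
      ‖((n : ℂ) + 1 + x) ^ (-s) - ((n : ℂ) + 1) ^ (-s)‖ ≤ ‖s‖ * ((n : ℝ) + 1) ^ (-s.re - 1) := by
    intro x hx
    have h2 := Convex.norm_image_sub_le_of_norm_hasDerivWithin_le (𝕜 := ℝ)
      (f := fun x : ℝ => ((n : ℂ) + 1 + x) ^ (-s)) (f' := fun x : ℝ => -s * ((n : ℂ) + 1 + x) ^ (-s - 1))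
      (s := Icc (0:ℝ) 1) (x := 0) (y := x) (C := ‖s‖ * ((n : ℝ) + 1) ^ (-s.re - 1))
      (fun y hy => (hasDerivAt_cpow_line n y hy.1 (-s)).hasDerivWithinAt)
      (fun y hy => by
        rw [norm_mul, norm_neg, norm_cpow_line n y hy.1]
        apply mul_le_mul_of_nonneg_left _ (norm_nonneg _)
        have h3 : (-s - 1).re = -s.re - 1 := by simp
        rw [h3]
        apply Real.rpow_le_rpow_of_nonpos (by positivity) (by linarith [hy.1]) (by linarith))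
      (convex_Icc 0 1) (by simp) hx
    simp only [ofReal_zero, add_zero] at h2
    refine h2.trans ?_
    have h4 : ‖x - 0‖ ≤ 1 := by
      rw [sub_zero, Real.norm_eq_abs, abs_of_nonneg hx.1]; exact hx.2
    calc ‖s‖ * ((n : ℝ) + 1) ^ (-s.re - 1) * ‖x - 0‖
        ≤ ‖s‖ * ((n : ℝ) + 1) ^ (-s.re - 1) * 1 := by gcongr
      _ = _ := mul_one _
  have h5 : vt n s = (fun x : ℝ => (s - 1) * ((n : ℂ) + 1) ^ (-s) * x + ((n : ℂ) + 1 + x) ^ (1 - s)) 1 -
      (fun x : ℝ => (s - 1) * ((n : ℂ) + 1) ^ (-s) * x + ((n : ℂ) + 1 + x) ^ (1 - s)) 0 := by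
    simp only [vt, ofReal_one, ofReal_zero, mul_one, mul_zero, add_zero, zero_add]
    rw [show (n : ℂ) + 1 + 1 = n + 2 by ring]
    ring
  rw [h5]
  have hmain := Convex.norm_image_sub_le_of_norm_hasDerivWithin_le (𝕜 := ℝ)
    (f := fun x : ℝ => (s - 1) * ((n : ℂ) + 1) ^ (-s) * x + ((n : ℂ) + 1 + x) ^ (1 - s))
    (f' := fun x : ℝ => (s - 1) * ((n : ℂ) + 1) ^ (-s) + (1 - s) * ((n : ℂ) + 1 + x) ^ (1 - s - 1))
    (s := Icc (0:ℝ) 1) (x := 0) (y := 1) (C := ‖s - 1‖ * ‖s‖ * ((n : ℝ) + 1) ^ (-s.re - 1))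
    ?_ ?_ (convex_Icc 0 1) (by simp) (by simp)
  · simpa using hmain
  · intro x hx
    have h6 := hasDerivAt_cpow_line n x hx.1 (1 - s)
    have h7 : HasDerivAt (fun x : ℝ => (s - 1) * ((n : ℂ) + 1) ^ (-s) * (x : ℂ))
        ((s - 1) * ((n : ℂ) + 1) ^ (-s)) x := by
      simpa using (Complex.ofRealCLM.hasDerivAt (x := x)).const_mul ((s - 1) * ((n : ℂ) + 1) ^ (-s))
    exact (h7.add h6).hasDerivWithinAt
  · intro x hx
    have h8 : (s - 1) * ((n : ℂ) + 1) ^ (-s) + (1 - s) * ((n : ℂ) + 1 + x) ^ (1 - s - 1) =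
        -((s - 1) * (((n : ℂ) + 1 + x) ^ (-s) - ((n : ℂ) + 1) ^ (-s))) := by
      rw [show (1 - s - 1) = -s by ring]; ring
    rw [h8, norm_neg, norm_mul, mul_assoc]
    exact mul_le_mul_of_nonneg_left (h1 x hx) (norm_nonneg _)

lemma rpow_summable {σ : ℝ} (hσ : 0 < σ) : Summable fun n : ℕ => ((n : ℝ) + 1) ^ (-σ - 1) := by
  have h := (summable_nat_add_iff 1).2 (Real.summable_nat_rpow.2 (show -σ - 1 < -1 by linarith))
  refine h.congr ?_
  intro n; push_cast; rfl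

lemma vt_summable {s : ℂ} (hs : 0 < s.re) : Summable fun n => vt n s :=
  Summable.of_norm_bounded ((rpow_summable hs).mul_left (‖s - 1‖ * ‖s‖))
    (fun n => vt_bound n s (by linarith))

lemma vt_tsum_differentiableAt {s₀ : ℂ} (hs : 0 < s₀.re) :
    DifferentiableAt ℂ (fun s => ∑' n, vt n s) s₀ := by
  set V : Set ℂ := {s : ℂ | s₀.re / 2 < s.re} ∩ Metric.ball 0 (‖s₀‖ + 1) with hV
  have hVo : IsOpen V := (isOpen_lt continuous_const continuous_re).inter Metric.isOpen_ball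
  have hmem : s₀ ∈ V := by
    refine ⟨?_, ?_⟩
    · show s₀.re / 2 < s₀.re
      linarith
    · rw [mem_ball_zero_iff]; linarith
  have h1 : DifferentiableOn ℂ (fun s => ∑' n, vt n s) V := by
    refine Complex.differentiableOn_tsum_of_summable_norm
      (u := fun n : ℕ => (‖s₀‖ + 2) * (‖s₀‖ + 1) * ((n : ℝ) + 1) ^ (-(s₀.re / 2) - 1))
      ((rpow_summable (by linarith)).mul_left _) (fun n => (vt_differentiable n).differentiableOn) hVo ?_
    intro n w hw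
    have hw1 : s₀.re / 2 < w.re := hw.1
    have hw2 : ‖w‖ < ‖s₀‖ + 1 := by simpa using hw.2
    refine (vt_bound n w (by linarith)).trans ?_
    have h2 : ‖w - 1‖ ≤ ‖s₀‖ + 2 := by
      calc ‖w - 1‖ ≤ ‖w‖ + ‖(1:ℂ)‖ := norm_sub_le _ _
        _ ≤ _ := by rw [norm_one]; linarith
    have h3 : ((n : ℝ) + 1) ^ (-w.re - 1) ≤ ((n : ℝ) + 1) ^ (-(s₀.re / 2) - 1) :=
      Real.rpow_le_rpow_of_exponent_le (by linarith [Nat.cast_nonneg (α := ℝ) n]) (by linarith)
    gcongr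
  exact (h1 s₀ hmem).differentiableAt (hVo.mem_nhds hmem)

lemma vt_tsum_of_one_lt {s : ℂ} (hs : 1 < s.re) :
    ∑' n, vt n s = (s - 1) * riemannZeta s - 1 := by
  have hs0 : 0 < s.re := by linarith
  have h1 : HasSum (fun n : ℕ => (s - 1) * ((n : ℂ) + 1) ^ (-s)) ((s - 1) * riemannZeta s) := by
    rw [zeta_eq_tsum_one_div_nat_add_one_cpow hs]
    have h2 : Summable fun n : ℕ => 1 / ((n : ℂ) + 1) ^ s := by
      have := (summable_nat_add_iff 1).2 (Complex.summable_one_div_nat_cpow.2 hs)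
      refine this.congr ?_
      intro n; push_cast; rfl
    refine (h2.hasSum.mul_left (s - 1)).congr_fun ?_
    intro n
    rw [cpow_neg, one_div]
  have h3 : Summable fun n : ℕ => (((n : ℂ) + 2) ^ (1 - s) - ((n : ℂ) + 1) ^ (1 - s)) := by
    refine ((vt_summable hs0).sub h1.summable).congr ?_
    intro n; unfold vt; ring
  have h4 : HasSum (fun n : ℕ => (((n : ℂ) + 2) ^ (1 - s) - ((n : ℂ) + 1) ^ (1 - s))) (0 - 1) := by
    rw [h3.hasSum_iff_tendsto_nat]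
    have h5 : ∀ N : ℕ, ∑ n ∈ Finset.range N, (((n : ℂ) + 2) ^ (1 - s) - ((n : ℂ) + 1) ^ (1 - s)) =
        ((N : ℂ) + 1) ^ (1 - s) - 1 := by
      intro N
      have := Finset.sum_range_sub (fun n : ℕ => ((n : ℂ) + 1) ^ (1 - s)) N
      simp only [Nat.cast_zero, zero_add, one_cpow] at this
      rw [← this]
      refine Finset.sum_congr rfl fun n _ => ?_
      push_cast
      rw [show (n : ℂ) + 1 + 1 = n + 2 by ring]
    simp only [h5]
    refine Tendsto.sub_const ?_ 1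
    rw [tendsto_zero_iff_norm_tendsto_zero]
    have h6 : ∀ N : ℕ, ‖((N : ℂ) + 1) ^ (1 - s)‖ = ((N : ℝ) + 1) ^ (-(s.re - 1)) := by
      intro N
      have := norm_cpow_line N 0 le_rfl (1 - s)
      simp only [ofReal_zero, add_zero] at this
      rw [this]; congr 1; simp
    simp only [h6]
    have h7 : Tendsto (fun N : ℕ => (N : ℝ) + 1) atTop atTop :=
      tendsto_atTop_add_const_right _ _ tendsto_natCast_atTop_atTop
    exact (tendsto_rpow_neg_atTop (by linarith : 0 < s.re - 1)).comp h7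
  have h8 := h1.add h4
  rw [show (s - 1) * riemannZeta s - 1 = (s - 1) * riemannZeta s + (0 - 1) by ring]
  exact h8.tsum_eq

lemma zeta_formula {s : ℂ} (hs : 0 < s.re) (h1 : s ≠ 1) :
    (s - 1) * riemannZeta s = 1 + ∑' n, vt n s := by
  have hU : IsOpen {s : ℂ | 0 < s.re} := isOpen_lt continuous_const continuous_re
  have hA : AnalyticOnNhd ℂ riemannZeta₁ {s : ℂ | 0 < s.re} :=
    (differentiable_riemannZeta₁.differentiableOn).analyticOnNhd hU
  have hB : AnalyticOnNhd ℂ (fun s => 1 + ∑' n, vt n s) {s : ℂ | 0 < s.re} := by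
    refine DifferentiableOn.analyticOnNhd ?_ hU
    intro z hz
    exact ((vt_tsum_differentiableAt hz).const_add 1).differentiableWithinAt
  have hpre : IsPreconnected {s : ℂ | 0 < s.re} := (convex_halfSpace_re_gt 0).isPreconnected
  have hmem : (2 : ℂ) ∈ {s : ℂ | 0 < s.re} := by simp
  have heq : riemannZeta₁ =ᶠ[𝓝 2] fun s => 1 + ∑' n, vt n s := by
    have : {s : ℂ | 1 < s.re} ∈ 𝓝 (2 : ℂ) :=
      (isOpen_lt continuous_const continuous_re).mem_nhds (by simp)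
    filter_upwards [this] with z hz
    have hz1 : z ≠ 1 := by rintro rfl; simp at hz
    rw [vt_tsum_of_one_lt hz]
    rw [riemannZeta_eq_inv_sub_mul hz1]
    have : z - 1 ≠ 0 := sub_ne_zero.2 hz1
    field_simp
    ring
  have h2 := hA.eqOn_of_preconnected_of_eventuallyEq hB hpre hmem heq hs
  simp only at h2
  rw [← h2, riemannZeta_eq_inv_sub_mul h1]
  have : s - 1 ≠ 0 := sub_ne_zero.2 h1
  field_simp


lemma zeta1_formula {s : ℂ} (hs : 0 < s.re) : riemannZeta₁ s = 1 + ∑' n, vt n s := by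
  by_cases h1 : s = 1
  · subst h1
    rw [riemannZeta₁_one]
    have : ∀ n : ℕ, vt n 1 = 0 := by
      intro n
      unfold vt
      simp
    simp [this]
  · rw [← zeta_formula hs h1, riemannZeta_eq_inv_sub_mul h1]
    have : s - 1 ≠ 0 := sub_ne_zero.2 h1
    field_simp

/-- growth of `(s-1) zeta(s)` -/
theorem zeta1_growth : ∃ C : ℝ, 1 ≤ C ∧ ∀ s : ℂ, 1/2 ≤ s.re → ‖riemannZeta₁ s‖ ≤ C * (1 + ‖s‖) ^ 2 := by
  set C := ∑' n : ℕ, ((n : ℝ) + 1) ^ (-(1/2 : ℝ) - 1) with hC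
  have hsum := rpow_summable (show (0:ℝ) < 1/2 by norm_num)
  have hC1 : 1 ≤ C := by
    have := hsum.le_tsum 0 (fun n _ => by positivity)
    simpa [hC] using this
  refine ⟨C, hC1, fun s hs => ?_⟩
  have h2 : ‖riemannZeta₁ s‖ ≤ 1 + ‖s - 1‖ * ‖s‖ * C := by
    rw [zeta1_formula (by linarith)]
    refine (norm_add_le _ _).trans ?_
    rw [norm_one]
    gcongr
    rw [hC, ← tsum_mul_left]
    refine tsum_of_norm_bounded (hsum.mul_left _).hasSum ?_
    intro n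
    refine (vt_bound n s (by linarith)).trans ?_
    have : ((n : ℝ) + 1) ^ (-s.re - 1) ≤ ((n : ℝ) + 1) ^ (-(1/2:ℝ) - 1) :=
      Real.rpow_le_rpow_of_exponent_le (by linarith [Nat.cast_nonneg (α := ℝ) n]) (by linarith)
    gcongr
  have h3 : ‖s - 1‖ ≤ 1 + ‖s‖ := by
    have := norm_sub_le s 1
    rw [norm_one] at this
    linarith
  have hn := norm_nonneg s
  have h4 : ‖s - 1‖ * ‖s‖ * C ≤ (1 + ‖s‖) * ‖s‖ * C := by gcongr
  nlinarith

/-- Polynomial growth of `ζ` in the half plane `Re s ≥ 1/2`. -/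
lemma zeta_growth : ∃ C : ℝ, 1 ≤ C ∧ ∀ s : ℂ, 1/2 ≤ s.re → s ≠ 1 →
    ‖riemannZeta s‖ ≤ 1 / ‖s - 1‖ + C * ‖s‖ := by
  set C := ∑' n : ℕ, ((n : ℝ) + 1) ^ (-(1/2 : ℝ) - 1) with hC
  have hsum := rpow_summable (show (0:ℝ) < 1/2 by norm_num)
  refine ⟨C, ?_, ?_⟩
  · have := hsum.le_tsum 0 (fun n _ => by positivity)
    simpa [hC] using this
  · intro s hs h1
    have hs0 : 0 < s.re := by linarith
    have hne : 0 < ‖s - 1‖ := norm_pos_iff.2 (sub_ne_zero.2 h1)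
    have h2 : ‖(s - 1) * riemannZeta s‖ ≤ 1 + ‖s - 1‖ * ‖s‖ * C := by
      rw [zeta_formula hs0 h1]
      refine (norm_add_le _ _).trans ?_
      rw [norm_one]
      gcongr
      rw [hC, ← tsum_mul_left]
      refine tsum_of_norm_bounded (hsum.mul_left _).hasSum ?_
      intro n
      refine (vt_bound n s (by linarith)).trans ?_
      have : ((n : ℝ) + 1) ^ (-s.re - 1) ≤ ((n : ℝ) + 1) ^ (-(1/2:ℝ) - 1) :=
        Real.rpow_le_rpow_of_exponent_le (by linarith [Nat.cast_nonneg (α := ℝ) n]) (by linarith)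
      gcongr
    rw [norm_mul] at h2
    have h3 : ‖riemannZeta s‖ ≤ (1 + ‖s - 1‖ * ‖s‖ * C) / ‖s - 1‖ := by
      rw [le_div_iff₀ hne, mul_comm]; exact h2
    refine h3.trans (le_of_eq ?_)
    field_simp

/-- `‖ζ(s)‖ ≤ C‖s‖` for `Re s ≥ 1/2`, away from `1`. -/
lemma zeta_growth' : ∃ C : ℝ, 1 ≤ C ∧ ∀ s : ℂ, 1/2 ≤ s.re → 1/2 ≤ ‖s - 1‖ →
    ‖riemannZeta s‖ ≤ C * ‖s‖ := by
  obtain ⟨C, hC1, hC⟩ := zeta_growth
  refine ⟨C + 4, by linarith, ?_⟩
  intro s hs h1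
  have hne : s ≠ 1 := by rintro rfl; norm_num at h1
  refine (hC s hs hne).trans ?_
  have h2 : 1 / ‖s - 1‖ ≤ 2 := by
    rw [div_le_iff₀ (by linarith)]; linarith
  have h3 : 1/2 ≤ ‖s‖ := hs.trans ((le_abs_self _).trans (abs_re_le_norm s))
  nlinarith

end S6UZ

end

section

/-! Fourth moment, part 1: exact size of `χ` on `Re s = 1/2` and `Re s = 3/2`, crude bounds. -/

open Complex MeasureTheory Set Filter Topology
open scoped ComplexConjugate

namespace U6.FM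

/-- `ζ(1-s) = chiT s * ζ(s)` -/
noncomputable def chiT (s : ℂ) : ℂ :=
  2 * (2 * (Real.pi : ℂ)) ^ (-s) * Complex.Gamma s * Complex.cos (Real.pi * s / 2)

/-- `psiT s = (s - 1) * chiT (1 - s)` -/
noncomputable def psiT (s : ℂ) : ℂ :=
  -(2 * (2 * (Real.pi : ℂ)) ^ (-(1 - s)) * Complex.Gamma (2 - s) *
    Complex.cos (Real.pi * (1 - s) / 2))

lemma zeta_one_sub {s : ℂ} (hs : 0 < s.re) (h1 : s ≠ 1) :
    riemannZeta (1 - s) = chiT s * riemannZeta s := by
  rw [riemannZeta_one_sub ?_ h1]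
  · unfold chiT
    ring
  · intro n h
    rw [h] at hs
    simp at hs
    have : (0 : ℝ) ≤ n := Nat.cast_nonneg n
    linarith

lemma psiT_eq {s : ℂ} (h : s ≠ 1) : psiT s = (s - 1) * chiT (1 - s) := by
  unfold psiT chiT
  have h1 : (1 : ℂ) - s ≠ 0 := sub_ne_zero.2 (Ne.symm h)
  have h2 : Complex.Gamma (2 - s) = (1 - s) * Complex.Gamma (1 - s) := by
    rw [← Complex.Gamma_add_one _ h1]
    congr 1
    ring
  rw [h2]
  ring

lemma two_pi_cast : (2 * (Real.pi : ℂ)) = ((2 * Real.pi : ℝ) : ℂ) := by push_cast; rfl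

lemma chiT_conj (s : ℂ) : chiT (conj s) = conj (chiT s) := by
  unfold chiT
  rw [map_mul, map_mul, map_mul, ← Complex.Gamma_conj, ← Complex.cos_conj, two_pi_cast]
  have h1 : conj ((((2 * Real.pi : ℝ)) : ℂ) ^ (-s)) = (((2 * Real.pi : ℝ)) : ℂ) ^ (-(conj s)) := by
    rw [Complex.cpow_def_of_ne_zero (by exact_mod_cast (by positivity : (2 * Real.pi) ≠ 0)),
      Complex.cpow_def_of_ne_zero (by exact_mod_cast (by positivity : (2 * Real.pi) ≠ 0)),
      ← Complex.exp_conj, map_mul, map_neg, ← Complex.ofReal_log (by positivity), Complex.conj_ofReal]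
  rw [h1]
  congr 2
  · congr 1
    exact (Complex.conj_ofReal 2).symm
  · rw [map_div₀, map_mul, Complex.conj_ofReal]
    congr 1
    exact (Complex.conj_ofReal 2).symm

lemma norm_two_pi_cpow (s : ℂ) : ‖(2 * (Real.pi : ℂ)) ^ s‖ = (2 * Real.pi) ^ s.re := by
  rw [two_pi_cast, Complex.norm_cpow_eq_rpow_re_of_pos (by positivity)]

/-- `|Γ(1/2+it)|² = π / cosh πt` -/
lemma gamma_half_sq (t : ℝ) : ‖Complex.Gamma (1 / 2 + t * I)‖ ^ 2 = Real.pi / Real.cosh (Real.pi * t) := by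
  have h1 := Complex.Gamma_mul_Gamma_one_sub (1 / 2 + t * I)
  have h2 : (1 : ℂ) - (1 / 2 + t * I) = conj (1 / 2 + t * I) := by
    rw [map_add, map_mul, Complex.conj_I, Complex.conj_ofReal, map_div₀, map_one]
    have : conj (2 : ℂ) = 2 := Complex.conj_ofReal 2
    rw [this]
    ring
  rw [h2, Complex.Gamma_conj, Complex.mul_conj, Complex.normSq_eq_norm_sq] at h1
  have h3 : Complex.sin (Real.pi * (1 / 2 + t * I)) = ((Real.cosh (Real.pi * t) : ℝ) : ℂ) := by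
    have : (Real.pi : ℂ) * (1 / 2 + t * I) = (Real.pi * t : ℝ) * I + Real.pi / 2 := by push_cast; ring
    rw [this, Complex.sin_add_pi_div_two, Complex.cos_mul_I, Complex.ofReal_cosh]
  rw [h3] at h1
  exact_mod_cast h1

/-- `|cos (π/4 + iy)|² = cosh (2y) / 2`, and the same for `3π/4` -/
lemma cos_quarter_sq (y : ℝ) (c : ℝ) (hc : Real.cos c ^ 2 = 1 / 2) :
    ‖Complex.cos (c + y * I)‖ ^ 2 = Real.cosh (2 * y) / 2 := by
  rw [← Complex.normSq_eq_norm_sq, Complex.normSq_apply]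
  have hs : Real.sin c ^ 2 = 1 / 2 := by
    have := Real.sin_sq_add_cos_sq c
    linarith
  have h1 : Complex.cos (c + y * I) = ((Real.cos c * Real.cosh y : ℝ) : ℂ) +
      ((-(Real.sin c * Real.sinh y) : ℝ) : ℂ) * I := by
    rw [Complex.cos_add, Complex.cos_mul_I, Complex.sin_mul_I]
    push_cast
    ring
  rw [h1, Complex.add_re, Complex.add_im, Complex.ofReal_re, Complex.ofReal_im, Complex.re_ofReal_mul,
    Complex.im_ofReal_mul, Complex.I_re, Complex.I_im]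
  rw [Real.cosh_two_mul]
  nlinarith [Real.cosh_sq y]

lemma chiT_half (t : ℝ) : ‖chiT (1 / 2 + t * I)‖ = 1 := by
  have h : ‖chiT (1 / 2 + t * I)‖ ^ 2 = 1 := by
    unfold chiT
    rw [norm_mul, norm_mul, norm_mul, mul_pow, mul_pow, mul_pow, gamma_half_sq, norm_two_pi_cpow]
    have h1 : (Real.pi : ℂ) * (1 / 2 + t * I) / 2 = ((Real.pi / 4 : ℝ) : ℂ) + ((Real.pi * t / 2 : ℝ) : ℂ) * I := by
      push_cast; ring
    rw [h1, cos_quarter_sq _ _ (by
      rw [Real.cos_pi_div_four, div_pow, Real.sq_sqrt (by norm_num)]; norm_num)]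
    have h2 : (-(1 / 2 + t * I : ℂ)).re = -(1 / 2) := by simp
    rw [h2]
    have h3 : ((2 * Real.pi) ^ (-(1 / 2) : ℝ)) ^ 2 = (2 * Real.pi)⁻¹ := by
      rw [← Real.rpow_natCast, ← Real.rpow_mul (by positivity)]
      norm_num
      rw [Real.rpow_neg_one]
      ring
    rw [h3]
    have h4 : 2 * (Real.pi * t / 2) = Real.pi * t := by ring
    rw [h4]
    have h5 := Real.cosh_pos (Real.pi * t)
    have h6 := Real.pi_pos
    simp only [Complex.norm_ofNat]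
    field_simp
  have h0 := norm_nonneg (chiT (1 / 2 + t * I))
  nlinarith

/-- `|Γ(3/2+it)| = |1/2+it| |Γ(1/2+it)|` -/
lemma chiT_three_half (t : ℝ) : ‖chiT (3 / 2 + t * I)‖ = ‖(1 / 2 + t * I : ℂ)‖ / (2 * Real.pi) := by
  have h0 : (1 / 2 + t * I : ℂ) ≠ 0 := by
    intro h
    have := congrArg Complex.re h
    simp at this
  have hg : Complex.Gamma (3 / 2 + t * I) = (1 / 2 + t * I) * Complex.Gamma (1 / 2 + t * I) := by
    rw [← Complex.Gamma_add_one _ h0]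
    congr 1
    ring
  have h2 := chiT_half t
  unfold chiT at h2 ⊢
  rw [norm_mul, norm_mul, norm_mul, norm_two_pi_cpow] at h2 ⊢
  rw [hg, norm_mul]
  have e1 : (Real.pi : ℂ) * (1 / 2 + t * I) / 2 = ((Real.pi / 4 : ℝ) : ℂ) + ((Real.pi * t / 2 : ℝ) : ℂ) * I := by
    push_cast; ring
  have e2 : (Real.pi : ℂ) * (3 / 2 + t * I) / 2 = ((3 * Real.pi / 4 : ℝ) : ℂ) + ((Real.pi * t / 2 : ℝ) : ℂ) * I := by
    push_cast; ring
  have hc1 : Real.cos (Real.pi / 4) ^ 2 = 1 / 2 := by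
    rw [Real.cos_pi_div_four, div_pow, Real.sq_sqrt (by norm_num)]; norm_num
  have hc2 : Real.cos (3 * Real.pi / 4) ^ 2 = 1 / 2 := by
    have : 3 * Real.pi / 4 = Real.pi - Real.pi / 4 := by ring
    rw [this, Real.cos_pi_sub, neg_sq, hc1]
  have h3 : ‖Complex.cos (Real.pi * (3 / 2 + t * I) / 2)‖ = ‖Complex.cos (Real.pi * (1 / 2 + t * I) / 2)‖ := by
    have : ‖Complex.cos (Real.pi * (3 / 2 + t * I) / 2)‖ ^ 2 = ‖Complex.cos (Real.pi * (1 / 2 + t * I) / 2)‖ ^ 2 := by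
      rw [e1, e2, cos_quarter_sq _ _ hc1, cos_quarter_sq _ _ hc2]
    exact (pow_left_inj₀ (norm_nonneg _) (norm_nonneg _) two_ne_zero).1 this
  rw [h3]
  have r1 : (-(3 / 2 + t * I : ℂ)).re = -(1 / 2) - 1 := by
    simp; norm_num
  have r2 : (-(1 / 2 + t * I : ℂ)).re = -(1 / 2) := by simp
  rw [r1]
  rw [r2] at h2
  rw [Real.rpow_sub (by positivity), Real.rpow_one]
  have hpi := Real.pi_pos
  calc ‖(2 : ℂ)‖ * ((2 * Real.pi) ^ (-(1 / 2) : ℝ) / (2 * Real.pi)) *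
        (‖(1 / 2 + t * I : ℂ)‖ * ‖Complex.Gamma (1 / 2 + t * I)‖) *
        ‖Complex.cos (Real.pi * (1 / 2 + t * I) / 2)‖
      = (‖(2 : ℂ)‖ * (2 * Real.pi) ^ (-(1 / 2) : ℝ) * ‖Complex.Gamma (1 / 2 + t * I)‖ *
        ‖Complex.cos (Real.pi * (1 / 2 + t * I) / 2)‖) * (‖(1 / 2 + t * I : ℂ)‖ / (2 * Real.pi)) := by ring
    _ = _ := by rw [h2, one_mul]

lemma psiT_three_half (t : ℝ) : ‖psiT (3 / 2 + t * I)‖ = 2 * Real.pi := by
  have h2 := chiT_half (-t)
  unfold chiT at h2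
  unfold psiT
  rw [norm_neg, norm_mul, norm_mul, norm_mul, norm_two_pi_cpow]
  rw [norm_mul, norm_mul, norm_mul, norm_two_pi_cpow] at h2
  have e0 : (2 : ℂ) - (3 / 2 + t * I) = 1 / 2 + ((-t : ℝ) : ℂ) * I := by push_cast; ring
  have e1 : Complex.cos ((Real.pi : ℂ) * (1 - (3 / 2 + t * I)) / 2) =
      Complex.cos (((Real.pi / 4 : ℝ) : ℂ) + ((Real.pi * t / 2 : ℝ) : ℂ) * I) := by
    rw [← Complex.cos_neg]
    congr 1
    push_cast; ring
  have e2 : (Real.pi : ℂ) * (1 / 2 + ((-t : ℝ) : ℂ) * I) / 2 =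
      ((Real.pi / 4 : ℝ) : ℂ) + ((-(Real.pi * t / 2) : ℝ) : ℂ) * I := by
    push_cast; ring
  have hc1 : Real.cos (Real.pi / 4) ^ 2 = 1 / 2 := by
    rw [Real.cos_pi_div_four, div_pow, Real.sq_sqrt (by norm_num)]; norm_num
  rw [e0, e1]
  rw [e2] at h2
  have h3 : ‖Complex.cos (((Real.pi / 4 : ℝ) : ℂ) + ((Real.pi * t / 2 : ℝ) : ℂ) * I)‖ =
      ‖Complex.cos (((Real.pi / 4 : ℝ) : ℂ) + ((-(Real.pi * t / 2) : ℝ) : ℂ) * I)‖ := by
    have : ‖Complex.cos (((Real.pi / 4 : ℝ) : ℂ) + ((Real.pi * t / 2 : ℝ) : ℂ) * I)‖ ^ 2 =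
      ‖Complex.cos (((Real.pi / 4 : ℝ) : ℂ) + ((-(Real.pi * t / 2) : ℝ) : ℂ) * I)‖ ^ 2 := by
      rw [cos_quarter_sq _ _ hc1, cos_quarter_sq _ _ hc1, mul_neg, Real.cosh_neg]
    exact (pow_left_inj₀ (norm_nonneg _) (norm_nonneg _) two_ne_zero).1 this
  rw [h3]
  have r1 : (-(1 - (3 / 2 + t * I) : ℂ)).re = -(1 / 2) + 1 := by
    simp; norm_num
  have r2 : (-(1 / 2 + ((-t : ℝ) : ℂ) * I : ℂ)).re = -(1 / 2) := by simp
  rw [r1]
  rw [r2] at h2
  rw [Real.rpow_add (by positivity), Real.rpow_one]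
  have hpi := Real.pi_pos
  calc ‖(2 : ℂ)‖ * ((2 * Real.pi) ^ (-(1 / 2) : ℝ) * (2 * Real.pi)) *
        ‖Complex.Gamma (1 / 2 + ((-t : ℝ) : ℂ) * I)‖ *
        ‖Complex.cos (((Real.pi / 4 : ℝ) : ℂ) + ((-(Real.pi * t / 2) : ℝ) : ℂ) * I)‖
      = (‖(2 : ℂ)‖ * (2 * Real.pi) ^ (-(1 / 2) : ℝ) * ‖Complex.Gamma (1 / 2 + ((-t : ℝ) : ℂ) * I)‖ *
        ‖Complex.cos (((Real.pi / 4 : ℝ) : ℂ) + ((-(Real.pi * t / 2) : ℝ) : ℂ) * I)‖) * (2 * Real.pi) := by ring
    _ = _ := by rw [h2, one_mul]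

/-- `‖Γ(s)‖ ≤ Γ(Re s)` -/
lemma fm_norm_Gamma_le {s : ℂ} (hs : 0 < s.re) : ‖Complex.Gamma s‖ ≤ Real.Gamma s.re := by
  rw [Complex.Gamma_eq_integral hs, Real.Gamma_eq_integral hs, Complex.GammaIntegral]
  refine (norm_integral_le_integral_norm _).trans (le_of_eq ?_)
  refine setIntegral_congr_fun measurableSet_Ioi ?_
  intro x hx
  have hx' : (0 : ℝ) < x := hx
  simp only [norm_mul]
  rw [Complex.norm_real, Real.norm_eq_abs, abs_of_pos (Real.exp_pos _),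
    Complex.norm_cpow_eq_rpow_re_of_pos hx']
  simp

lemma fm_Gamma_bdd : ∃ C : ℝ, 0 ≤ C ∧ ∀ s : ℂ, 1 / 2 ≤ s.re → s.re ≤ 2 → ‖Complex.Gamma s‖ ≤ C := by
  have hc : ContinuousOn Real.Gamma (Icc (1 / 2 : ℝ) 2) := by
    intro x hx
    have hx0 : (0 : ℝ) < x := by linarith [hx.1]
    exact (Real.differentiableAt_Gamma (fun m h => by
      have : (0 : ℝ) ≤ m := Nat.cast_nonneg m
      linarith)).continuousAt.continuousWithinAt
  obtain ⟨C, hC⟩ := isCompact_Icc.exists_bound_of_continuousOn hc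
  refine ⟨C, (norm_nonneg _).trans (hC 1 (by constructor <;> norm_num)), ?_⟩
  intro s h1 h2
  exact (fm_norm_Gamma_le (by linarith)).trans ((le_abs_self _).trans (hC s.re ⟨h1, h2⟩))

lemma norm_cos_le (z : ℂ) : ‖Complex.cos z‖ ≤ Real.exp |z.im| := by
  unfold Complex.cos
  rw [norm_div, Complex.norm_ofNat, div_le_iff₀ (by norm_num)]
  refine (norm_add_le _ _).trans ?_
  rw [Complex.norm_exp, Complex.norm_exp]
  have h1 : (z * I).re ≤ |z.im| := by
    simp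
    exact neg_le_abs _
  have h2 : (-z * I).re ≤ |z.im| := by
    simp
    exact le_abs_self _
  have h3 := Real.exp_le_exp.2 h1
  have h4 := Real.exp_le_exp.2 h2
  linarith

lemma chiT_le : ∃ C : ℝ, 0 ≤ C ∧ ∀ s : ℂ, 1 / 2 ≤ s.re → s.re ≤ 2 →
    ‖chiT s‖ ≤ C * Real.exp (2 * |s.im|) := by
  obtain ⟨C, hC0, hC⟩ := fm_Gamma_bdd
  refine ⟨2 * C, by positivity, ?_⟩
  intro s h1 h2
  unfold chiT
  rw [norm_mul, norm_mul, norm_mul, norm_two_pi_cpow, Complex.norm_ofNat]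
  have h3 : (2 * Real.pi) ^ (-s).re ≤ (1 : ℝ) := by
    apply Real.rpow_le_one_of_one_le_of_nonpos
    · linarith [Real.pi_gt_three]
    · simp; linarith
  have h4 : ‖Complex.cos (Real.pi * s / 2)‖ ≤ Real.exp (2 * |s.im|) := by
    refine (norm_cos_le _).trans (Real.exp_le_exp.2 ?_)
    have : ((Real.pi : ℂ) * s / 2).im = Real.pi / 2 * s.im := by
      have : (Real.pi : ℂ) * s / 2 = ((Real.pi / 2 : ℝ) : ℂ) * s := by push_cast; ring
      rw [this, Complex.im_ofReal_mul]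
    rw [this, abs_mul, abs_of_pos (by positivity : (0 : ℝ) < Real.pi / 2)]
    have h6 := abs_nonneg s.im
    have h7 := Real.pi_lt_four
    nlinarith
  calc 2 * (2 * Real.pi) ^ (-s).re * ‖Complex.Gamma s‖ * ‖Complex.cos (Real.pi * s / 2)‖
      ≤ 2 * 1 * C * Real.exp (2 * |s.im|) := by
        gcongr
        exact hC s h1 h2
    _ = _ := by ring

lemma psiT_le : ∃ C : ℝ, 0 ≤ C ∧ ∀ s : ℂ, 1 / 2 ≤ s.re → s.re ≤ 3 / 2 →
    ‖psiT s‖ ≤ C * Real.exp (2 * |s.im|) := by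
  obtain ⟨C, hC0, hC⟩ := fm_Gamma_bdd
  refine ⟨2 * (2 * Real.pi) * C, by positivity, ?_⟩
  intro s h1 h2
  unfold psiT
  rw [norm_neg, norm_mul, norm_mul, norm_mul, norm_two_pi_cpow, Complex.norm_ofNat]
  have h3 : (2 * Real.pi) ^ (-(1 - s)).re ≤ (2 * Real.pi) := by
    calc (2 * Real.pi) ^ (-(1 - s)).re ≤ (2 * Real.pi) ^ (1 : ℝ) := by
          apply Real.rpow_le_rpow_of_exponent_le
          · linarith [Real.pi_gt_three]
          · simp; linarith
      _ = _ := Real.rpow_one _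
  have h4 : ‖Complex.cos (Real.pi * (1 - s) / 2)‖ ≤ Real.exp (2 * |s.im|) := by
    refine (norm_cos_le _).trans (Real.exp_le_exp.2 ?_)
    have : ((Real.pi : ℂ) * (1 - s) / 2).im = -(Real.pi / 2 * s.im) := by
      have : (Real.pi : ℂ) * (1 - s) / 2 = ((Real.pi / 2 : ℝ) : ℂ) * (1 - s) := by push_cast; ring
      rw [this, Complex.im_ofReal_mul]
      simp
    rw [this, abs_neg, abs_mul, abs_of_pos (by positivity : (0 : ℝ) < Real.pi / 2)]
    have h6 := abs_nonneg s.im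
    have h7 := Real.pi_lt_four
    nlinarith
  calc 2 * (2 * Real.pi) ^ (-(1 - s)).re * ‖Complex.Gamma (2 - s)‖ * ‖Complex.cos (Real.pi * (1 - s) / 2)‖
      ≤ 2 * (2 * Real.pi) * C * Real.exp (2 * |s.im|) := by
        gcongr
        exact hC _ (by simp; linarith) (by simp; linarith)

lemma two_pi_ne : (2 * (Real.pi : ℂ)) ≠ 0 := by
  rw [two_pi_cast]
  exact_mod_cast (by positivity : (2 * Real.pi) ≠ 0)

lemma chiT_diff {s : ℂ} (hs : 0 < s.re) : DifferentiableAt ℂ chiT s := by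
  have h1 : DifferentiableAt ℂ Complex.Gamma s := by
    apply Complex.differentiableAt_Gamma
    intro m h
    rw [h] at hs
    simp at hs
    have : (0 : ℝ) ≤ m := Nat.cast_nonneg m
    linarith
  have h3 : DifferentiableAt ℂ (fun s : ℂ => (2 * (Real.pi : ℂ)) ^ (-s)) s :=
    (differentiableAt_id.neg).const_cpow (Or.inl two_pi_ne)
  have h4 : DifferentiableAt ℂ (fun s : ℂ => Complex.cos (Real.pi * s / 2)) s := by fun_prop
  exact ((h3.const_mul 2).mul h1).mul h4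

lemma psiT_diff {s : ℂ} (hs : s.re < 2) : DifferentiableAt ℂ psiT s := by
  have h1 : DifferentiableAt ℂ (fun s : ℂ => Complex.Gamma (2 - s)) s := by
    have : DifferentiableAt ℂ Complex.Gamma (2 - s) := by
      apply Complex.differentiableAt_Gamma
      intro m h
      have h' := congrArg Complex.re h
      simp at h'
      have : (0 : ℝ) ≤ m := Nat.cast_nonneg m
      linarith
    exact this.comp s (by fun_prop)
  have h3 : DifferentiableAt ℂ (fun s : ℂ => (2 * (Real.pi : ℂ)) ^ (-(1 - s))) s :=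
    (((differentiableAt_const 1).sub differentiableAt_id).neg).const_cpow (Or.inl two_pi_ne)
  have h4 : DifferentiableAt ℂ (fun s : ℂ => Complex.cos (Real.pi * (1 - s) / 2)) s := by fun_prop
  exact (((h3.const_mul 2).mul h1).mul h4).neg

end U6.FM

end

section

/-! Fourth moment, part 2: the divisor series. -/

open Complex MeasureTheory Set Filter Topology
open scoped ComplexConjugate

namespace U6.FM

/-- the divisor bound -/
theorem fm_div (σ : ℝ) (hσ : 0 < σ) : ∃ C : ℝ, 1 ≤ C ∧ ∀ n : ℕ, n ≠ 0 →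
    ((n.divisors.card : ℕ) : ℝ) ≤ C * (n : ℝ) ^ σ := by
  have hl2 : 0 < Real.log 2 := Real.log_pos (by norm_num)
  set A : ℝ := max 1 (1 / (σ * Real.log 2)) with hA
  have hA1 : 1 ≤ A := le_max_left _ _
  have hA2 : 1 ≤ A * (σ * Real.log 2) := by
    have h : 1 / (σ * Real.log 2) ≤ A := le_max_right _ _
    rwa [div_le_iff₀ (by positivity)] at h
  set P0 : ℕ := ⌈(2 : ℝ) ^ (1 / σ)⌉₊ with hP0
  -- small primes
  have hsmall : ∀ p : ℕ, p.Prime → ∀ k : ℕ, ((k + 1 : ℕ) : ℝ) ≤ A * ((p : ℝ) ^ k) ^ σ := by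
    intro p hp k
    have hp2 : (2 : ℝ) ≤ p := by exact_mod_cast hp.two_le
    have h1 : ((2 : ℝ) ^ k) ^ σ ≤ ((p : ℝ) ^ k) ^ σ :=
      Real.rpow_le_rpow (by positivity) (pow_le_pow_left₀ (by norm_num) hp2 k) hσ.le
    have h2 : 1 + k * (σ * Real.log 2) ≤ ((2 : ℝ) ^ k) ^ σ := by
      rw [Real.rpow_def_of_pos (by positivity), Real.log_pow]
      have := Real.add_one_le_exp (k * Real.log 2 * σ)
      linarith
    have h3 : ((k + 1 : ℕ) : ℝ) ≤ A * (1 + k * (σ * Real.log 2)) := by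
      push_cast
      have hk : (0 : ℝ) ≤ k := Nat.cast_nonneg _
      nlinarith
    exact h3.trans (mul_le_mul_of_nonneg_left (h2.trans h1) (by positivity))
  -- large primes
  have hlarge : ∀ p : ℕ, P0 ≤ p → ∀ k : ℕ, ((k + 1 : ℕ) : ℝ) ≤ ((p : ℝ) ^ k) ^ σ := by
    intro p hp k
    have h1 : (2 : ℝ) ^ (1 / σ) ≤ p := (Nat.le_ceil _).trans (by exact_mod_cast hp)
    have h2 : (2 : ℝ) ≤ (p : ℝ) ^ σ := by
      calc (2 : ℝ) = ((2 : ℝ) ^ (1 / σ)) ^ σ := by
            rw [← Real.rpow_mul (by norm_num), one_div_mul_cancel hσ.ne', Real.rpow_one]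
        _ ≤ (p : ℝ) ^ σ := Real.rpow_le_rpow (by positivity) h1 hσ.le
    have h3 : ((p : ℝ) ^ k) ^ σ = ((p : ℝ) ^ σ) ^ k := by
      rw [← Real.rpow_natCast, ← Real.rpow_mul (by positivity), mul_comm,
        Real.rpow_mul (by positivity), Real.rpow_natCast]
    have h4 : k + 1 ≤ 2 ^ k := Nat.lt_two_pow_self
    calc ((k + 1 : ℕ) : ℝ) ≤ (2 : ℝ) ^ k := by exact_mod_cast h4
      _ ≤ ((p : ℝ) ^ σ) ^ k := pow_le_pow_left₀ (by norm_num) h2 k
      _ = _ := h3.symm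
  refine ⟨A ^ P0, one_le_pow₀ hA1, fun n hn => ?_⟩
  rw [Nat.card_divisors hn]
  have hn' : (n : ℝ) = ∏ p ∈ n.primeFactors, (p : ℝ) ^ (n.factorization p) := by
    conv_lhs => rw [← Nat.prod_factorization_pow_eq_self hn]
    rw [Finsupp.prod, Nat.support_factorization]
    push_cast
    rfl
  have hpw : (n : ℝ) ^ σ = ∏ p ∈ n.primeFactors, ((p : ℝ) ^ (n.factorization p)) ^ σ := by
    conv_lhs => rw [hn']
    rw [Real.finsetProd_rpow _ _ (fun i _ => by positivity)]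
  rw [hpw, Nat.cast_prod]
  have hterm : ∀ p ∈ n.primeFactors, ((n.factorization p + 1 : ℕ) : ℝ) ≤
      (if p < P0 then A else 1) * ((p : ℝ) ^ (n.factorization p)) ^ σ := by
    intro p hp
    split_ifs with h
    · exact hsmall p (Nat.prime_of_mem_primeFactors hp) _
    · rw [one_mul]
      exact hlarge p (not_lt.1 h) _
  refine (Finset.prod_le_prod (fun _ _ => Nat.cast_nonneg _) hterm).trans ?_
  rw [Finset.prod_mul_distrib]
  apply mul_le_mul_of_nonneg_right _ (Finset.prod_nonneg fun _ _ => by positivity)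
  rw [Finset.prod_ite, Finset.prod_const, Finset.prod_const_one, mul_one]
  apply pow_le_pow_right₀ hA1
  calc (n.primeFactors.filter (fun p => p < P0)).card ≤ (Finset.range P0).card := by
        apply Finset.card_le_card
        intro p hp
        rw [Finset.mem_filter] at hp
        exact Finset.mem_range.2 hp.2
    _ = P0 := Finset.card_range _

/-- coefficient `d(n) n^{-a}` restricted to `p n` -/
noncomputable def co (p : ℕ → Prop) [DecidablePred p] (a : ℝ) (n : ℕ) : ℂ :=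
  if n = 0 then 0 else if p n then (((n.divisors.card : ℝ) * (n : ℝ) ^ (-a) : ℝ) : ℂ) else 0

lemma co_zero (p : ℕ → Prop) [DecidablePred p] (a : ℝ) : co p a 0 = 0 := by simp [co]

lemma co_norm (p : ℕ → Prop) [DecidablePred p] (a : ℝ) (n : ℕ) :
    ‖co p a n‖ = if n = 0 then 0 else if p n then (n.divisors.card : ℝ) * (n : ℝ) ^ (-a) else 0 := by
  unfold co
  split_ifs with h1 h2
  · simp
  · rw [Complex.norm_real, Real.norm_of_nonneg (by positivity)]
  · simp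

/-- Dirichlet polynomial `∑_{n ≤ N} d(n) n^{-s}` -/
noncomputable def PP (N : ℕ) (s : ℂ) : ℂ := ∑ n ∈ Finset.Icc 1 N, (n.divisors.card : ℂ) * (n : ℂ) ^ (-s)

lemma cpow_split {n : ℕ} (hn : n ≠ 0) (a t : ℝ) :
    (n : ℂ) ^ (-((a : ℂ) + t * I)) = (((n : ℝ) ^ (-a) : ℝ) : ℂ) * (n : ℂ) ^ (-(t * I)) := by
  rw [neg_add, Complex.cpow_add _ _ (by exact_mod_cast hn)]
  congr 1
  rw [Complex.ofReal_cpow (by positivity)]
  push_cast
  rfl

/-- the polynomial as a series -/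
lemma PP_eq (N : ℕ) (a t : ℝ) : PP N ((a : ℂ) + t * I) =
    ∑' n : ℕ, co (fun n => n ≤ N) a n * (n : ℂ) ^ (-(t * I)) := by
  rw [tsum_eq_sum (s := Finset.Icc 1 N)]
  · unfold PP
    refine Finset.sum_congr rfl fun n hn => ?_
    have h := Finset.mem_Icc.1 hn
    have h0 : n ≠ 0 := by omega
    rw [cpow_split h0]
    simp only [co, if_neg h0, if_pos h.2]
    push_cast
    ring
  · intro n hn
    rw [Finset.mem_Icc, not_and_or] at hn
    unfold co
    split_ifs with h1 h2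
    · simp
    · rcases hn with h | h <;> omega
    · simp

lemma PP_conj (N : ℕ) (s : ℂ) : PP N (conj s) = conj (PP N s) := by
  unfold PP
  rw [map_sum]
  refine Finset.sum_congr rfl fun n hn => ?_
  have h0 : n ≠ 0 := by
    have := (Finset.mem_Icc.1 hn).1
    omega
  rw [map_mul]
  congr 1
  · exact (Complex.conj_natCast _).symm
  · have hn' : (n : ℂ) ≠ 0 := by exact_mod_cast h0
    rw [Complex.cpow_def_of_ne_zero hn', Complex.cpow_def_of_ne_zero hn', ← Complex.exp_conj, map_mul,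
      map_neg, ← Complex.natCast_log, Complex.conj_ofReal]

lemma PP_diff (N : ℕ) : Differentiable ℂ (PP N) := by
  unfold PP
  intro s
  refine DifferentiableAt.fun_sum fun n hn => ?_
  have h0 : n ≠ 0 := by
    have := (Finset.mem_Icc.1 hn).1
    omega
  exact ((differentiableAt_id.neg).const_cpow (Or.inl (by exact_mod_cast h0))).const_mul _

/-- crude bound of the polynomial -/
lemma PP_bdd (N : ℕ) (R : ℝ) : ∃ C : ℝ, 0 ≤ C ∧ ∀ s : ℂ, -R ≤ s.re → ‖PP N s‖ ≤ C := by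
  refine ⟨∑ n ∈ Finset.Icc 1 N, (n.divisors.card : ℝ) * (n : ℝ) ^ R,
    Finset.sum_nonneg fun n _ => by positivity, ?_⟩
  intro s hs
  unfold PP
  refine (norm_sum_le _ _).trans (Finset.sum_le_sum fun n hn => ?_)
  have h1 := (Finset.mem_Icc.1 hn).1
  rw [norm_mul, Complex.norm_natCast]
  apply mul_le_mul_of_nonneg_left _ (by positivity)
  rw [Complex.norm_natCast_cpow_of_pos (by omega)]
  apply Real.rpow_le_rpow_of_exponent_le (by exact_mod_cast h1)
  simp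
  linarith

/-- `ζ² = ∑ d(n) n^{-s}` on `Re s = 3/2`, tail form -/
lemma zeta_sq_sub (N : ℕ) (t : ℝ) :
    riemannZeta ((3 / 2 : ℝ) + t * I) ^ 2 - PP N ((3 / 2 : ℝ) + t * I) =
      ∑' n : ℕ, co (fun n => N < n) (3 / 2) n * (n : ℂ) ^ (-(t * I)) := by
  set s : ℂ := ((3 / 2 : ℝ) : ℂ) + t * I with hs
  have hre : 1 < s.re := by
    rw [hs]
    simp
    norm_num
  have hz := ArithmeticFunction.LSeriesSummable_zeta_iff.2 hre
  have h1 : LSeriesHasSum (LSeries.convolution (fun n => ((ArithmeticFunction.zeta n : ℕ) : ℂ))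
      (fun n => ((ArithmeticFunction.zeta n : ℕ) : ℂ))) s (riemannZeta s ^ 2) := by
    have h2 := (hz.convolution hz).LSeriesHasSum
    rw [LSeries_convolution' hz hz, ArithmeticFunction.LSeries_zeta_eq_riemannZeta hre, ← sq] at h2
    exact h2
  have hterm : ∀ n : ℕ, LSeries.term (LSeries.convolution (fun n => ((ArithmeticFunction.zeta n : ℕ) : ℂ))
      (fun n => ((ArithmeticFunction.zeta n : ℕ) : ℂ))) s n =
      co (fun _ => True) (3 / 2) n * (n : ℂ) ^ (-(t * I)) := by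
    intro n
    rcases eq_or_ne n 0 with rfl | hn
    · simp [co_zero]
    · rw [LSeries.term_of_ne_zero hn]
      have h3 : LSeries.convolution (fun n => ((ArithmeticFunction.zeta n : ℕ) : ℂ))
          (fun n => ((ArithmeticFunction.zeta n : ℕ) : ℂ)) n = (n.divisors.card : ℂ) := by
        rw [LSeries.convolution_def]
        simp only
        have h4 : ∀ p ∈ n.divisorsAntidiagonal, ((ArithmeticFunction.zeta p.1 : ℕ) : ℂ) *
            ((ArithmeticFunction.zeta p.2 : ℕ) : ℂ) = 1 := by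
          intro p hp
          have h5 := Nat.mem_divisorsAntidiagonal.1 hp
          have h6 : p.1 ≠ 0 := fun h => h5.2 (by rw [← h5.1, h, zero_mul])
          have h7 : p.2 ≠ 0 := fun h => h5.2 (by rw [← h5.1, h, mul_zero])
          rw [ArithmeticFunction.zeta_apply_ne h6, ArithmeticFunction.zeta_apply_ne h7]
          simp
        rw [Finset.sum_congr rfl h4, Finset.sum_const, nsmul_eq_mul, mul_one]
        congr 1
        rw [← Nat.map_div_right_divisors, Finset.card_map]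
      rw [h3, div_eq_mul_inv, ← Complex.cpow_neg, hs, cpow_split hn]
      simp only [co, if_neg hn, if_true]
      push_cast
      ring
  have h8 : HasSum (fun n : ℕ => co (fun _ => True) (3 / 2) n * (n : ℂ) ^ (-(t * I))) (riemannZeta s ^ 2) := by
    have := h1
    unfold LSeriesHasSum at this
    exact (funext hterm) ▸ this
  have h9 : HasSum (fun n : ℕ => co (fun n => n ≤ N) (3 / 2) n * (n : ℂ) ^ (-(t * I))) (PP N s) := by
    rw [hs, PP_eq]
    apply Summable.hasSum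
    apply summable_of_ne_finset_zero (s := Finset.Icc 1 N)
    intro n hn
    rw [Finset.mem_Icc, not_and_or] at hn
    unfold co
    split_ifs with h1 h2
    · simp
    · rcases hn with h | h <;> omega
    · simp
  have h10 := h8.sub h9
  rw [← h10.tsum_eq]
  refine tsum_congr fun n => ?_
  rw [← sub_mul]
  congr 1
  unfold co
  by_cases h0 : n = 0
  · simp [h0]
  · by_cases hn : n ≤ N
    · simp [h0, hn, not_lt.2 hn]
    · simp [h0, hn, not_le.1 hn]

end U6.FM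

end

section

/-! Fourth moment, part 3: mean values. -/

open Complex MeasureTheory Set Filter Topology
open scoped ComplexConjugate

namespace U6.FM

/-- Cauchy weight -/
noncomputable def ck (T t : ℝ) : ℝ := T ^ 2 / (T ^ 2 + t ^ 2)

lemma mv_gen {σ C : ℝ} (hσ : 0 < σ) (hC : ∀ n : ℕ, n ≠ 0 → ((n.divisors.card : ℕ) : ℝ) ≤ C * (n : ℝ) ^ σ)
    {T : ℝ} (hT : 2 ≤ T) (p : ℕ → Prop) [DecidablePred p] (a K : ℝ) (hK : 0 ≤ K)
    (hp : ∀ n : ℕ, n ≠ 0 → p n → C ^ 2 * (n : ℝ) ^ (2 * σ - 2 * a) * (T + n) ≤ K * (n : ℝ) ^ (-1 - σ))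
    (hs : Summable fun n => ‖co p a n‖) :
    ∫ t : ℝ, ‖∑' n, co p a n * (n : ℂ) ^ (-(t * I))‖ ^ 2 * ck T t ≤
      K * (10 * ∑' n : ℕ, (n : ℝ) ^ (-1 - σ)) := by
  have hsum : Summable fun n : ℕ => (n : ℝ) ^ (-1 - σ) := Real.summable_nat_rpow.2 (by linarith)
  have hT0 : 0 < T := by linarith
  have hterm : ∀ n : ℕ, ‖co p a n‖ ^ 2 * (T + n) ≤ K * (n : ℝ) ^ (-1 - σ) := by
    intro n
    rw [co_norm]
    split_ifs with h1 h2
    · have : 0 ≤ K * (n : ℝ) ^ (-1 - σ) := by positivity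
      simpa using this
    · refine le_trans ?_ (hp n h1 h2)
      apply mul_le_mul_of_nonneg_right _ (by positivity)
      have hn : (0 : ℝ) < n := by exact_mod_cast Nat.pos_of_ne_zero h1
      have h3 := hC n h1
      have h4 : (n.divisors.card : ℝ) * (n : ℝ) ^ (-a) ≤ C * (n : ℝ) ^ σ * (n : ℝ) ^ (-a) :=
        mul_le_mul_of_nonneg_right h3 (by positivity)
      calc ((n.divisors.card : ℝ) * (n : ℝ) ^ (-a)) ^ 2 ≤ (C * (n : ℝ) ^ σ * (n : ℝ) ^ (-a)) ^ 2 :=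
            pow_le_pow_left₀ (by positivity) h4 2
        _ = C ^ 2 * ((n : ℝ) ^ σ * (n : ℝ) ^ (-a)) ^ 2 := by ring
        _ = C ^ 2 * (n : ℝ) ^ (2 * σ - 2 * a) := by
            have e : ((n : ℝ) ^ (σ + -a)) ^ 2 = (n : ℝ) ^ (2 * σ - 2 * a) := by
              rw [← Real.rpow_natCast ((n : ℝ) ^ (σ + -a)), ← Real.rpow_mul hn.le]
              congr 1
              push_cast
              ring
            rw [← Real.rpow_add hn, e]
    · have : 0 ≤ K * (n : ℝ) ^ (-1 - σ) := by positivity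
      simpa using this
  have h2 : Summable fun n => ‖co p a n‖ ^ 2 * (n : ℝ) := by
    refine Summable.of_nonneg_of_le (fun n => by positivity) (fun n => ?_) (hsum.mul_left K)
    refine le_trans ?_ (hterm n)
    apply mul_le_mul_of_nonneg_left _ (by positivity)
    linarith
  have h3 : Summable fun n => ‖co p a n‖ ^ 2 * (T + n) :=
    Summable.of_nonneg_of_le (fun n => by positivity) hterm (hsum.mul_left K)
  have h4 := F4.mvt (co_zero p a) hs h2 hT
  have h5 : ∑' n, ‖co p a n‖ ^ 2 * (T + n) ≤ K * ∑' n : ℕ, (n : ℝ) ^ (-1 - σ) := by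
    rw [← tsum_mul_left]
    exact h3.tsum_le_tsum hterm (hsum.mul_left K)
  unfold ck
  linarith

lemma co_summable_fin (N : ℕ) (a : ℝ) : Summable fun n => ‖co (fun n => n ≤ N) a n‖ := by
  apply summable_of_ne_finset_zero (s := Finset.Icc 1 N)
  intro n hn
  rw [Finset.mem_Icc, not_and_or] at hn
  rw [co_norm]
  split_ifs with h1 h2
  · rfl
  · rcases hn with h | h <;> omega
  · rfl

lemma co_summable_inf {σ C : ℝ} (hσ1 : σ < 1 / 2)
    (hC : ∀ n : ℕ, n ≠ 0 → ((n.divisors.card : ℕ) : ℝ) ≤ C * (n : ℝ) ^ σ) (N : ℕ) :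
    Summable fun n => ‖co (fun n => N < n) (3 / 2) n‖ := by
  have hC0 : 0 ≤ C := by
    have := hC 1 one_ne_zero
    simp at this
    linarith
  have hsum : Summable fun n : ℕ => C * (n : ℝ) ^ (σ - 3 / 2) :=
    (Real.summable_nat_rpow.2 (by linarith)).mul_left C
  refine Summable.of_nonneg_of_le (fun n => norm_nonneg _) (fun n => ?_) hsum
  rw [co_norm]
  split_ifs with h1 h2
  · positivity
  · have hn : (0 : ℝ) < n := by exact_mod_cast Nat.pos_of_ne_zero h1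
    rw [sub_eq_add_neg, Real.rpow_add hn, ← mul_assoc]
    exact mul_le_mul_of_nonneg_right (hC n h1) (by positivity)
  · positivity

/-- the three mean values -/
theorem mv_three {σ : ℝ} (hσ : 0 < σ) (hσ1 : σ ≤ 1 / 4) : ∃ C : ℝ, 0 ≤ C ∧ ∀ T : ℝ, 2 ≤ T →
    (∫ t : ℝ, ‖∑' n, co (fun n => ⌊T⌋₊ < n) (3 / 2) n * (n : ℂ) ^ (-(t * I))‖ ^ 2 * ck T t ≤
      C * T ^ (-1 + 3 * σ)) ∧
    (∫ t : ℝ, ‖∑' n, co (fun n => n ≤ ⌊T⌋₊) (-(1 / 2)) n * (n : ℂ) ^ (-(t * I))‖ ^ 2 * ck T t ≤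
      C * T ^ (3 + 3 * σ)) ∧
    (∫ t : ℝ, ‖∑' n, co (fun n => n ≤ ⌊T⌋₊) (1 / 2) n * (n : ℂ) ^ (-(t * I))‖ ^ 2 * ck T t ≤
      C * T ^ (1 + 3 * σ)) := by
  obtain ⟨C, hC1, hC⟩ := fm_div σ hσ
  set S : ℝ := 10 * ∑' n : ℕ, (n : ℝ) ^ (-1 - σ) with hS
  have hS0 : 0 ≤ S := by
    have : 0 ≤ ∑' n : ℕ, (n : ℝ) ^ (-1 - σ) := tsum_nonneg fun n => by positivity
    positivity
  refine ⟨2 * C ^ 2 * S, by positivity, ?_⟩
  intro T hT
  have hT0 : 0 < T := by linarith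
  refine ⟨?_, ?_, ?_⟩
  · refine (mv_gen hσ hC hT _ _ (2 * C ^ 2 * T ^ (-1 + 3 * σ)) (by positivity) ?_
      (co_summable_inf (by linarith) hC _)).trans (le_of_eq (by ring))
    intro n h0 hn
    have hn0 : (0 : ℝ) < n := by exact_mod_cast Nat.pos_of_ne_zero h0
    have hn1 : T < n := (Nat.floor_lt hT0.le).1 hn
    have e1 : (n : ℝ) ^ (2 * σ - 2 * (3 / 2)) * n = (n : ℝ) ^ (-1 + 3 * σ) * (n : ℝ) ^ (-1 - σ) := by
      rw [← Real.rpow_add hn0]
      nth_rewrite 2 [← Real.rpow_one (n : ℝ)]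
      rw [← Real.rpow_add hn0]
      congr 1
      ring
    have e2 : (n : ℝ) ^ (-1 + 3 * σ) ≤ T ^ (-1 + 3 * σ) :=
      Real.rpow_le_rpow_of_nonpos hT0 hn1.le (by linarith)
    calc C ^ 2 * (n : ℝ) ^ (2 * σ - 2 * (3 / 2)) * (T + n)
        ≤ C ^ 2 * (n : ℝ) ^ (2 * σ - 2 * (3 / 2)) * (2 * n) := by
          apply mul_le_mul_of_nonneg_left _ (by positivity)
          linarith
      _ = 2 * C ^ 2 * ((n : ℝ) ^ (2 * σ - 2 * (3 / 2)) * n) := by ring
      _ = 2 * C ^ 2 * ((n : ℝ) ^ (-1 + 3 * σ) * (n : ℝ) ^ (-1 - σ)) := by rw [e1]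
      _ ≤ 2 * C ^ 2 * (T ^ (-1 + 3 * σ) * (n : ℝ) ^ (-1 - σ)) := by gcongr
      _ = _ := by ring
  · refine (mv_gen hσ hC hT _ _ (2 * C ^ 2 * T ^ (3 + 3 * σ)) (by positivity) ?_
      (co_summable_fin _ _)).trans (le_of_eq (by ring))
    intro n h0 hn
    have hn0 : (0 : ℝ) < n := by exact_mod_cast Nat.pos_of_ne_zero h0
    have hn1 : (n : ℝ) ≤ T := (Nat.le_floor_iff hT0.le).1 hn
    have e1 : (n : ℝ) ^ (2 * σ - 2 * (-(1 / 2))) = (n : ℝ) ^ (2 + 3 * σ) * (n : ℝ) ^ (-1 - σ) := by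
      rw [← Real.rpow_add hn0]
      congr 1
      ring
    have e2 : (n : ℝ) ^ (2 + 3 * σ) ≤ T ^ (2 + 3 * σ) :=
      Real.rpow_le_rpow hn0.le hn1 (by linarith)
    have e3 : T ^ (3 + 3 * σ) = T ^ (2 + 3 * σ) * T := by
      nth_rewrite 3 [← Real.rpow_one T]
      rw [← Real.rpow_add hT0]
      congr 1
      ring
    calc C ^ 2 * (n : ℝ) ^ (2 * σ - 2 * (-(1 / 2))) * (T + n)
        ≤ C ^ 2 * (n : ℝ) ^ (2 * σ - 2 * (-(1 / 2))) * (2 * T) := by
          apply mul_le_mul_of_nonneg_left _ (by positivity)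
          linarith
      _ = 2 * C ^ 2 * ((n : ℝ) ^ (2 + 3 * σ) * (n : ℝ) ^ (-1 - σ)) * T := by rw [e1]; ring
      _ ≤ 2 * C ^ 2 * (T ^ (2 + 3 * σ) * (n : ℝ) ^ (-1 - σ)) * T := by gcongr
      _ = _ := by rw [e3]; ring
  · refine (mv_gen hσ hC hT _ _ (2 * C ^ 2 * T ^ (1 + 3 * σ)) (by positivity) ?_
      (co_summable_fin _ _)).trans (le_of_eq (by ring))
    intro n h0 hn
    have hn0 : (0 : ℝ) < n := by exact_mod_cast Nat.pos_of_ne_zero h0
    have hn1 : (n : ℝ) ≤ T := (Nat.le_floor_iff hT0.le).1 hn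
    have e1 : (n : ℝ) ^ (2 * σ - 2 * (1 / 2)) = (n : ℝ) ^ (3 * σ) * (n : ℝ) ^ (-1 - σ) := by
      rw [← Real.rpow_add hn0]
      congr 1
      ring
    have e2 : (n : ℝ) ^ (3 * σ) ≤ T ^ (3 * σ) :=
      Real.rpow_le_rpow hn0.le hn1 (by linarith)
    have e3 : T ^ (1 + 3 * σ) = T ^ (3 * σ) * T := by
      rw [add_comm, Real.rpow_add hT0, Real.rpow_one]
    calc C ^ 2 * (n : ℝ) ^ (2 * σ - 2 * (1 / 2)) * (T + n)
        ≤ C ^ 2 * (n : ℝ) ^ (2 * σ - 2 * (1 / 2)) * (2 * T) := by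
          apply mul_le_mul_of_nonneg_left _ (by positivity)
          linarith
      _ = 2 * C ^ 2 * ((n : ℝ) ^ (3 * σ) * (n : ℝ) ^ (-1 - σ)) * T := by rw [e1]; ring
      _ ≤ 2 * C ^ 2 * (T ^ (3 * σ) * (n : ℝ) ^ (-1 - σ)) * T := by gcongr
      _ = _ := by rw [e3]; ring

end U6.FM

end

section

/-! Fourth moment, part 4: the contour shift. -/

open Complex MeasureTheory Set Filter Topology
open scoped ComplexConjugate

namespace U6.FM

lemma fm_integrable_of_decay {F : ℝ → ℂ} (hm : AEStronglyMeasurable F volume) {D : ℝ}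
    (h : ∀ y, ‖F y‖ * (1 + |y|) ^ 2 ≤ D) : Integrable F := by
  refine Integrable.mono' (g := fun y => D * (1 + y ^ 2)⁻¹)
    (integrable_inv_one_add_sq.const_mul D) hm ?_
  refine Eventually.of_forall fun y => ?_
  rw [← div_eq_mul_inv, le_div_iff₀ (by positivity)]
  refine le_trans ?_ (h y)
  apply mul_le_mul_of_nonneg_left _ (norm_nonneg _)
  nlinarith [abs_nonneg y, sq_abs y]

/-- Cauchy's theorem in a strip -/
lemma fm_line_shift {f : ℂ → ℂ} {a b C : ℝ} (hab : a ≤ b)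
    (hd : ∀ z : ℂ, a ≤ z.re → z.re ≤ b → DifferentiableAt ℂ f z)
    (hb : ∀ z : ℂ, a ≤ z.re → z.re ≤ b → ‖f z‖ * (1 + |z.im|) ^ 2 ≤ C) :
    Integrable (fun y : ℝ => f (a + y * I)) ∧ Integrable (fun y : ℝ => f (b + y * I)) ∧
    ∫ y : ℝ, f (a + y * I) = ∫ y : ℝ, f (b + y * I) := by
  have hC : 0 ≤ C := le_trans (by positivity) (hb (a : ℂ) (by simp) (by simpa using hab))
  have hcl : ∀ x : ℝ, a ≤ x → x ≤ b → Continuous fun y : ℝ => f (x + y * I) := by
    intro x h1 h2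
    rw [continuous_iff_continuousAt]
    intro y
    exact ContinuousAt.comp (f := fun y : ℝ => (x + y * I : ℂ)) (g := f)
      (hd _ (by simpa using h1) (by simpa using h2)).continuousAt (by fun_prop)
  have hint : ∀ x : ℝ, a ≤ x → x ≤ b → Integrable fun y : ℝ => f (x + y * I) := by
    intro x h1 h2
    refine fm_integrable_of_decay (hcl x h1 h2).aestronglyMeasurable (D := C) fun y => ?_
    simpa using hb (x + y * I) (by simpa using h1) (by simpa using h2)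
  refine ⟨hint a le_rfl hab, hint b hab le_rfl, ?_⟩
  have hlim : ∀ x : ℝ, a ≤ x → x ≤ b → Tendsto (fun n : ℕ => ∫ y in (-(n:ℝ))..n, f (x + y * I)) atTop
      (𝓝 (∫ y : ℝ, f (x + y * I))) := by
    intro x h1 h2
    exact intervalIntegral_tendsto_integral (hint x h1 h2)
      (tendsto_neg_atTop_atBot.comp tendsto_natCast_atTop_atTop) tendsto_natCast_atTop_atTop
  have hdiff : Tendsto (fun n : ℕ => (∫ y in (-(n:ℝ))..n, f (a + y * I)) -
      ∫ y in (-(n:ℝ))..n, f (b + y * I)) atTop (𝓝 0) := by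
    have hb0 : Tendsto (fun n : ℕ => (C * (b - a) * 2) * (1 / ((n:ℝ) + 1))) atTop (𝓝 0) := by
      have := (tendsto_one_div_add_atTop_nhds_zero_nat (𝕜 := ℝ)).const_mul (C * (b - a) * 2)
      simpa using this
    refine squeeze_zero_norm (fun n => ?_) hb0
    have hn0 : (0:ℝ) ≤ n := Nat.cast_nonneg n
    have hrect := Complex.integral_boundary_rect_eq_zero_of_differentiable_on_off_countable f
      (⟨a, -n⟩ : ℂ) (⟨b, n⟩ : ℂ) ∅ countable_empty ?_ ?_
    · simp only at hrect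
      have hbd : ∀ v : ℝ, |v| = n → ‖∫ x in a..b, f (x + (v : ℂ) * I)‖ ≤
          C * (1 / ((n:ℝ) + 1)) * |b - a| := by
        intro v hv
        refine intervalIntegral.norm_integral_le_of_norm_le_const ?_
        intro x hx
        rw [uIoc_of_le hab] at hx
        have h3 := hb (x + v * I) (by simpa using hx.1.le) (by simpa using hx.2)
        have him : ((x : ℂ) + v * I).im = v := by simp
        rw [him, hv] at h3
        rw [mul_one_div, le_div_iff₀ (by positivity)]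
        refine le_trans ?_ h3
        apply mul_le_mul_of_nonneg_left _ (norm_nonneg _)
        nlinarith only [hn0]
      have b1 := hbd (-n) (by rw [abs_neg, abs_of_nonneg hn0])
      have b2 := hbd n (abs_of_nonneg hn0)
      rw [abs_of_nonneg (by linarith only [hab] : 0 ≤ b - a)] at b1 b2
      have e1 : (∫ y in (-(n:ℝ))..n, f (a + y * I)) - ∫ y in (-(n:ℝ))..n, f (b + y * I) =
          -I * ((∫ x in a..b, f (x + ((-(n:ℝ) : ℝ) : ℂ) * I)) -
            ∫ x in a..b, f (x + ((n:ℝ) : ℂ) * I)) := by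
        simp only [smul_eq_mul] at hrect
        linear_combination I * hrect + ((∫ y in (-(n:ℝ))..n, f (a + y * I)) -
          (∫ y in (-(n:ℝ))..n, f (b + y * I))) * I_mul_I
      rw [e1, norm_mul, norm_neg, norm_I, one_mul]
      refine (norm_sub_le _ _).trans ?_
      linarith only [b1, b2]
    · intro z hz
      rw [mem_reProdIm] at hz
      simp only at hz
      rw [uIcc_of_le hab] at hz
      exact (hd z hz.1.1 hz.1.2).continuousAt.continuousWithinAt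
    · intro z hz
      have h1 := hz.1
      rw [mem_reProdIm] at h1
      simp only at h1
      rw [min_eq_left hab, max_eq_right hab] at h1
      exact hd z h1.1.1.le h1.1.2.le
  have h2 := (hlim a le_rfl hab).sub (hlim b hab le_rfl)
  have h3 := tendsto_nhds_unique h2 hdiff
  exact sub_eq_zero.1 h3

/-- `(s-1)² Φ(s)` -/
noncomputable def fmPsi (N : ℕ) (s : ℂ) : ℂ :=
  chiT s * (riemannZeta₁ s ^ 2 - (s - 1) ^ 2 * PP N s) - (s - 1) * psiT s * PP N (1 - s)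

noncomputable def fmF (N : ℕ) (T : ℝ) (s : ℂ) : ℂ :=
  s ^ 4 * fmPsi N s ^ 2 * cexp (2 * ((s - 1 / 2) / (T : ℂ)) ^ 2)

lemma fmF_diff (N : ℕ) (T : ℝ) {s : ℂ} (h1 : 0 < s.re) (h2 : s.re < 2) :
    DifferentiableAt ℂ (fmF N T) s := by
  have hP := PP_diff N
  have a1 : DifferentiableAt ℂ (fun s => chiT s) s := chiT_diff h1
  have a2 : DifferentiableAt ℂ (fun s => psiT s) s := psiT_diff h2
  have a3 : DifferentiableAt ℂ (fun s => riemannZeta₁ s) s := differentiable_riemannZeta₁ s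
  have a4 : DifferentiableAt ℂ (fun s => PP N s) s := hP s
  have a5 : DifferentiableAt ℂ (fun s => PP N (1 - s)) s :=
    (hP (1 - s)).comp s (by fun_prop)
  have a6 : DifferentiableAt ℂ (fun s : ℂ => s - 1) s := by fun_prop
  have a7 : DifferentiableAt ℂ (fun s => fmPsi N s) s :=
    (a1.mul ((a3.pow 2).sub ((a6.pow 2).mul a4))).sub ((a6.mul a2).mul a5)
  have a8 : DifferentiableAt ℂ (fun s : ℂ => cexp (2 * ((s - 1 / 2) / (T : ℂ)) ^ 2)) s := by fun_prop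
  have a9 : DifferentiableAt ℂ (fun s : ℂ => s ^ 4) s := by fun_prop
  exact (a9.mul (a7.pow 2)).mul a8

lemma fm_norm_le_exp {s : ℂ} (h1 : 1 / 2 ≤ s.re) (h2 : s.re ≤ 3 / 2) :
    1 + ‖s‖ ≤ 5 / 2 * Real.exp |s.im| := by
  have h3 : ‖s‖ ≤ 3 / 2 + |s.im| := by
    refine (Complex.norm_le_abs_re_add_abs_im s).trans ?_
    rw [abs_of_nonneg (by linarith : (0 : ℝ) ≤ s.re)]
    linarith
  have h4 := Real.add_one_le_exp |s.im|
  have h5 := abs_nonneg s.im
  linarith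

lemma fm_norm_gauss (T : ℝ) (s : ℂ) : ‖cexp (2 * ((s - 1 / 2) / (T : ℂ)) ^ 2)‖ =
    Real.exp (2 * ((s.re - 1 / 2) ^ 2 - s.im ^ 2) / T ^ 2) := by
  rw [Complex.norm_exp]
  congr 1
  have h : (2 : ℂ) * ((s - 1 / 2) / (T : ℂ)) ^ 2 =
      ((2 * ((s.re - 1 / 2) ^ 2 - s.im ^ 2) / T ^ 2 : ℝ) : ℂ) +
      ((4 * (s.re - 1 / 2) * s.im / T ^ 2 : ℝ) : ℂ) * I := by
    have : s - 1 / 2 = ((s.re - 1 / 2 : ℝ) : ℂ) + (s.im : ℂ) * I := by
      conv_lhs => rw [← Complex.re_add_im s]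
      push_cast
      ring
    rw [this, div_pow]
    have hI : (I : ℂ) ^ 2 = -1 := Complex.I_sq
    push_cast
    ring_nf
    rw [hI]
    ring
  rw [h, Complex.add_re, Complex.ofReal_re, Complex.re_ofReal_mul, Complex.I_re]
  ring

lemma fmF_bound (N : ℕ) {T : ℝ} (hT : 2 ≤ T) : ∃ C : ℝ, ∀ z : ℂ, 1 / 2 ≤ z.re → z.re ≤ 3 / 2 →
    ‖fmF N T z‖ * (1 + |z.im|) ^ 2 ≤ C := by
  obtain ⟨C1, hC10, hC1⟩ := chiT_le
  obtain ⟨C2, hC20, hC2⟩ := psiT_le
  obtain ⟨C3, hC31, hC3⟩ := S6UZ.zeta1_growth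
  obtain ⟨C4, hC40, hC4⟩ := PP_bdd N 1
  set B : ℝ := C1 * ((C3 * (5 / 2) ^ 2) ^ 2 + (5 / 2) ^ 2 * C4) + (5 / 2) * C2 * C4 with hB
  have hB0 : 0 ≤ B := by positivity
  refine ⟨(5 / 2) ^ 4 * B ^ 2 * Real.exp (81 / 2 * T ^ 2 + 2), ?_⟩
  intro z h1 h2
  set y : ℝ := |z.im| with hy
  have hy0 : 0 ≤ y := abs_nonneg _
  set E : ℝ := Real.exp y with hE
  have hE1 : 1 ≤ E := Real.one_le_exp hy0
  have e0 := fm_norm_le_exp h1 h2
  rw [← hy, ← hE] at e0
  have hz : ‖z‖ ≤ 5 / 2 * E := by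
    have := norm_nonneg z
    linarith
  have hz1 : ‖z - 1‖ ≤ 5 / 2 * E := by
    refine le_trans (norm_sub_le _ _) ?_
    rw [norm_one]
    linarith
  have hc : ‖chiT z‖ ≤ C1 * E ^ 2 := by
    have := hC1 z h1 (by linarith)
    rwa [← hy, two_mul, Real.exp_add, ← sq] at this
  have hp : ‖psiT z‖ ≤ C2 * E ^ 2 := by
    have := hC2 z h1 h2
    rwa [← hy, two_mul, Real.exp_add, ← sq] at this
  have hzeta : ‖riemannZeta₁ z‖ ≤ C3 * (5 / 2) ^ 2 * E ^ 2 := by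
    refine (hC3 z h1).trans ?_
    calc C3 * (1 + ‖z‖) ^ 2 ≤ C3 * (5 / 2 * E) ^ 2 := by gcongr
      _ = _ := by ring
  have hP1 : ‖PP N z‖ ≤ C4 := hC4 z (by linarith)
  have hP2 : ‖PP N (1 - z)‖ ≤ C4 := hC4 (1 - z) (by simp; linarith)
  have hPsi : ‖fmPsi N z‖ ≤ B * E ^ 6 := by
    unfold fmPsi
    have t1 : ‖riemannZeta₁ z ^ 2 - (z - 1) ^ 2 * PP N z‖ ≤
        ((C3 * (5 / 2) ^ 2) ^ 2 + (5 / 2) ^ 2 * C4) * E ^ 4 := by
      refine (norm_sub_le _ _).trans ?_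
      rw [norm_pow, norm_mul, norm_pow]
      have t2 : ‖riemannZeta₁ z‖ ^ 2 ≤ (C3 * (5 / 2) ^ 2 * E ^ 2) ^ 2 :=
        pow_le_pow_left₀ (norm_nonneg _) hzeta 2
      have t3 : ‖z - 1‖ ^ 2 * ‖PP N z‖ ≤ (5 / 2 * E) ^ 2 * C4 := by
        apply mul_le_mul (pow_le_pow_left₀ (norm_nonneg _) hz1 2) hP1 (norm_nonneg _) (by positivity)
      have t4 : (5 / 2 * E) ^ 2 * C4 ≤ (5 / 2) ^ 2 * C4 * E ^ 4 := by
        have : E ^ 2 ≤ E ^ 4 := pow_le_pow_right₀ hE1 (by norm_num)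
        calc (5 / 2 * E) ^ 2 * C4 = (5 / 2) ^ 2 * C4 * E ^ 2 := by ring
          _ ≤ _ := by gcongr
      calc ‖riemannZeta₁ z‖ ^ 2 + ‖z - 1‖ ^ 2 * ‖PP N z‖
          ≤ (C3 * (5 / 2) ^ 2 * E ^ 2) ^ 2 + (5 / 2) ^ 2 * C4 * E ^ 4 := by linarith
        _ = _ := by ring
    refine (norm_sub_le _ _).trans ?_
    rw [norm_mul, norm_mul, norm_mul]
    have t5 : ‖chiT z‖ * ‖riemannZeta₁ z ^ 2 - (z - 1) ^ 2 * PP N z‖ ≤
        (C1 * E ^ 2) * (((C3 * (5 / 2) ^ 2) ^ 2 + (5 / 2) ^ 2 * C4) * E ^ 4) :=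
      mul_le_mul hc t1 (norm_nonneg _) (by positivity)
    have t6 : ‖z - 1‖ * ‖psiT z‖ * ‖PP N (1 - z)‖ ≤ (5 / 2 * E) * (C2 * E ^ 2) * C4 :=
      mul_le_mul (mul_le_mul hz1 hp (norm_nonneg _) (by positivity)) hP2 (norm_nonneg _) (by positivity)
    have t7 : (5 / 2 * E) * (C2 * E ^ 2) * C4 ≤ (5 / 2) * C2 * C4 * E ^ 6 := by
      have : E ^ 3 ≤ E ^ 6 := pow_le_pow_right₀ hE1 (by norm_num)
      calc (5 / 2 * E) * (C2 * E ^ 2) * C4 = (5 / 2) * C2 * C4 * E ^ 3 := by ring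
        _ ≤ _ := by gcongr
    calc _ ≤ (C1 * E ^ 2) * (((C3 * (5 / 2) ^ 2) ^ 2 + (5 / 2) ^ 2 * C4) * E ^ 4) +
          (5 / 2) * C2 * C4 * E ^ 6 := by linarith
      _ = _ := by rw [hB]; ring
  have hG : ‖cexp (2 * ((z - 1 / 2) / (T : ℂ)) ^ 2)‖ ≤ Real.exp (2 - 2 * y ^ 2 / T ^ 2) := by
    rw [fm_norm_gauss]
    apply Real.exp_le_exp.2
    have hT2 : 1 ≤ T ^ 2 := by nlinarith
    have h3 : (z.re - 1 / 2) ^ 2 ≤ 1 := by nlinarith
    have h4 : 2 * ((z.re - 1 / 2) ^ 2 - z.im ^ 2) / T ^ 2 =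
        2 * (z.re - 1 / 2) ^ 2 / T ^ 2 - 2 * y ^ 2 / T ^ 2 := by
      rw [hy, sq_abs]
      ring
    rw [h4]
    have h5 : 2 * (z.re - 1 / 2) ^ 2 / T ^ 2 ≤ 2 := by
      rw [div_le_iff₀ (by positivity)]
      nlinarith
    linarith
  have hq : (1 + |z.im|) ^ 2 ≤ E ^ 2 := by
    rw [← hy]
    apply pow_le_pow_left₀ (by positivity)
    have := Real.add_one_le_exp y
    linarith
  unfold fmF
  rw [norm_mul, norm_mul, norm_pow, norm_pow]
  have hTpos : 0 < T := by linarith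
  calc ‖z‖ ^ 4 * ‖fmPsi N z‖ ^ 2 * ‖cexp (2 * ((z - 1 / 2) / (T : ℂ)) ^ 2)‖ * (1 + |z.im|) ^ 2
      ≤ (5 / 2 * E) ^ 4 * (B * E ^ 6) ^ 2 * Real.exp (2 - 2 * y ^ 2 / T ^ 2) * E ^ 2 := by
        gcongr
    _ = (5 / 2) ^ 4 * B ^ 2 * (E ^ 18 * Real.exp (2 - 2 * y ^ 2 / T ^ 2)) := by ring
    _ ≤ (5 / 2) ^ 4 * B ^ 2 * Real.exp (81 / 2 * T ^ 2 + 2) := by
        apply mul_le_mul_of_nonneg_left _ (by positivity)
        rw [hE, ← Real.exp_nat_mul, ← Real.exp_add]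
        apply Real.exp_le_exp.2
        push_cast
        have h6 : 81 / 2 * T ^ 2 + 2 * y ^ 2 / T ^ 2 - 18 * y = 2 * (y / T - 9 / 2 * T) ^ 2 := by
          field_simp
          ring
        have h7 := sq_nonneg (y / T - 9 / 2 * T)
        linarith

/-- the shift -/
theorem fm_shift (N : ℕ) {T : ℝ} (hT : 2 ≤ T) :
    Integrable (fun y : ℝ => fmF N T ((1 / 2 : ℝ) + y * I)) ∧
    Integrable (fun y : ℝ => fmF N T ((3 / 2 : ℝ) + y * I)) ∧
    ∫ y : ℝ, fmF N T ((1 / 2 : ℝ) + y * I) = ∫ y : ℝ, fmF N T ((3 / 2 : ℝ) + y * I) := by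
  obtain ⟨C, hC⟩ := fmF_bound N hT
  refine fm_line_shift (C := C) (by norm_num) (fun z h1 h2 => fmF_diff N T (by linarith) (by linarith)) ?_
  intro z h1 h2
  exact hC z h1 h2

/-- real part on the critical line -/
noncomputable def fmPhi (N : ℕ) (t : ℝ) : ℝ :=
  ‖riemannZeta (1 / 2 + t * I)‖ ^ 2 - 2 * (chiT (1 / 2 + t * I) * PP N (1 / 2 + t * I)).re

lemma half_ne_one (t : ℝ) : (1 / 2 + t * I : ℂ) ≠ 1 := by
  intro h
  have := congrArg Complex.re h
  simp at this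

lemma zeta1_eq {s : ℂ} (h : s ≠ 1) : riemannZeta₁ s = (s - 1) * riemannZeta s := by
  have hne : s - 1 ≠ 0 := sub_ne_zero.2 h
  rw [riemannZeta_eq_inv_sub_mul h]
  field_simp

lemma conj_half (t : ℝ) : conj (1 / 2 + t * I : ℂ) = 1 - (1 / 2 + t * I) := by
  rw [map_add, map_mul, Complex.conj_I, Complex.conj_ofReal, map_div₀, map_one]
  have : conj (2 : ℂ) = 2 := Complex.conj_ofReal 2
  rw [this]
  ring

lemma fmPsi_half (N : ℕ) (t : ℝ) : fmPsi N (1 / 2 + t * I) =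
    ((1 / 2 + t * I) - 1) ^ 2 * (fmPhi N t : ℂ) := by
  set s : ℂ := 1 / 2 + t * I with hs
  have hne : s ≠ 1 := half_ne_one t
  have h1 : riemannZeta (1 - s) = chiT s * riemannZeta s := zeta_one_sub (by rw [hs]; simp) hne
  have hcs : conj s = 1 - s := conj_half t
  have h2 : riemannZeta (1 - s) = conj (riemannZeta s) := by
    rw [← hcs, riemannZeta_conj]
  have h3 : chiT (1 - s) = conj (chiT s) := by rw [← hcs, chiT_conj]
  have h4 : PP N (1 - s) = conj (PP N s) := by rw [← hcs, PP_conj]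
  unfold fmPsi fmPhi
  rw [← hs, zeta1_eq hne, psiT_eq hne, h3, h4]
  have h5 : chiT s * riemannZeta s * riemannZeta s = ((‖riemannZeta s‖ ^ 2 : ℝ) : ℂ) := by
    rw [← h1, h2, ← Complex.normSq_eq_norm_sq, mul_comm, Complex.mul_conj]
  have h6 : chiT s * PP N s + conj (chiT s) * conj (PP N s) = ((2 * (chiT s * PP N s).re : ℝ) : ℂ) := by
    rw [← map_mul, Complex.add_conj]
  push_cast at h5 h6 ⊢
  linear_combination (s - 1) ^ 2 * h5 - (s - 1) ^ 2 * h6

lemma fmF_half (N : ℕ) (T t : ℝ) : fmF N T ((1 / 2 : ℝ) + t * I) =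
    (((1 / 4 + t ^ 2) ^ 4 * fmPhi N t ^ 2 * Real.exp (-(2 * t ^ 2 / T ^ 2)) : ℝ) : ℂ) := by
  have h0 : (((1 / 2 : ℝ) : ℂ) + t * I) = 1 / 2 + t * I := by push_cast; rfl
  rw [h0]
  unfold fmF
  rw [fmPsi_half]
  have h1 : (2 : ℂ) * ((1 / 2 + t * I - 1 / 2) / (T : ℂ)) ^ 2 = ((-(2 * t ^ 2 / T ^ 2) : ℝ) : ℂ) := by
    have : (1 / 2 + t * I - 1 / 2 : ℂ) = t * I := by ring
    rw [this, div_pow, mul_pow, Complex.I_sq]
    push_cast
    ring
  rw [h1]
  have h2 : (1 / 2 + t * I : ℂ) ^ 4 * (((1 / 2 + t * I) - 1) ^ 2 * (fmPhi N t : ℂ)) ^ 2 =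
      (((1 / 2 + t * I : ℂ) * ((1 / 2 + t * I) - 1)) ^ 4) * (fmPhi N t : ℂ) ^ 2 := by ring
  have h3 : (1 / 2 + t * I : ℂ) * ((1 / 2 + t * I) - 1) = ((-(1 / 4 + t ^ 2) : ℝ) : ℂ) := by
    have hI : (I : ℂ) ^ 2 = -1 := Complex.I_sq
    push_cast
    linear_combination (t : ℂ) ^ 2 * hI
  rw [h2, h3]
  push_cast
  ring

/-- upper bound on `Re s = 3/2` -/
lemma fmF_right (N : ℕ) {T : ℝ} (hT : 2 ≤ T) (t : ℝ) :
    ‖fmF N T ((3 / 2 : ℝ) + t * I)‖ ≤
      Real.exp 2 * 162 * ((1 / 4 + t ^ 2) ^ 5 * Real.exp (-(2 * t ^ 2 / T ^ 2)) *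
        ‖riemannZeta ((3 / 2 : ℝ) + t * I) ^ 2 - PP N ((3 / 2 : ℝ) + t * I)‖ ^ 2 +
        64 * ((1 / 4 + t ^ 2) ^ 3 * Real.exp (-(2 * t ^ 2 / T ^ 2)) *
        ‖PP N ((-(1 / 2) : ℝ) + t * I)‖ ^ 2)) := by
  set s : ℂ := ((3 / 2 : ℝ) : ℂ) + t * I with hs
  have hs' : s = 3 / 2 + t * I := by rw [hs]; push_cast; rfl
  have hne : s ≠ 1 := by
    intro h
    have := congrArg Complex.re h
    rw [hs'] at this
    simp at this
    norm_num at this
  set r : ℝ := ‖(1 / 2 + t * I : ℂ)‖ with hr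
  have hr2 : r ^ 2 = 1 / 4 + t ^ 2 := by
    rw [hr, ← Complex.normSq_eq_norm_sq, Complex.normSq_apply]
    simp
    ring
  have hr0 : 0 ≤ r := norm_nonneg _
  have h1 : ‖chiT s‖ = r / (2 * Real.pi) := by rw [hs', chiT_three_half]
  have h2 : ‖psiT s‖ = 2 * Real.pi := by rw [hs', psiT_three_half]
  have h3 : ‖s - 1‖ = r := by
    rw [hs', hr]
    congr 1
    ring
  have h4 : ‖s‖ ≤ 3 * r := by
    have : s = 1 + (1 / 2 + t * I) := by rw [hs']; ring
    rw [this]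
    refine (norm_add_le _ _).trans ?_
    rw [norm_one, ← hr]
    have : (1 / 2) ^ 2 ≤ r ^ 2 := by rw [hr2]; nlinarith [sq_nonneg t]
    have : 1 / 2 ≤ r := by
      exact (pow_le_pow_iff_left₀ (by norm_num) hr0 two_ne_zero).1 this
    linarith
  set A : ℝ := ‖riemannZeta s ^ 2 - PP N s‖ with hA
  set Q : ℝ := ‖PP N ((-(1 / 2) : ℝ) + t * I)‖ with hQ
  have h5 : ‖PP N (1 - s)‖ = Q := by
    have : (1 - s) = conj (((-(1 / 2) : ℝ) : ℂ) + t * I) := by
      rw [map_add, map_mul, Complex.conj_I, Complex.conj_ofReal, Complex.conj_ofReal, hs]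
      push_cast
      ring
    rw [this, PP_conj, RCLike.norm_conj]
  have hpi := Real.pi_pos
  have hPsi : ‖fmPsi N s‖ ≤ r ^ 3 * A + 8 * r * Q := by
    have e1 : fmPsi N s = (s - 1) ^ 2 * chiT s * (riemannZeta s ^ 2 - PP N s) -
        (s - 1) * psiT s * PP N (1 - s) := by
      unfold fmPsi
      rw [zeta1_eq hne]
      ring
    rw [e1]
    refine (norm_sub_le _ _).trans ?_
    rw [norm_mul, norm_mul, norm_mul, norm_mul, norm_pow, h1, h2, h3, h5, ← hA]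
    have e2 : r ^ 2 * (r / (2 * Real.pi)) * A ≤ r ^ 3 * A := by
      have : r / (2 * Real.pi) ≤ r := by
        rw [div_le_iff₀ (by positivity)]
        nlinarith [Real.pi_gt_three]
      calc r ^ 2 * (r / (2 * Real.pi)) * A ≤ r ^ 2 * r * A := by gcongr
        _ = _ := by ring
    have e3 : r * (2 * Real.pi) * Q ≤ 8 * r * Q := by
      have : 2 * Real.pi ≤ 8 := by linarith [Real.pi_lt_four]
      calc r * (2 * Real.pi) * Q ≤ r * 8 * Q := by gcongr
        _ = _ := by ring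
    linarith
  have hG : ‖cexp (2 * ((s - 1 / 2) / (T : ℂ)) ^ 2)‖ ≤ Real.exp 2 * Real.exp (-(2 * t ^ 2 / T ^ 2)) := by
    rw [fm_norm_gauss, ← Real.exp_add]
    apply Real.exp_le_exp.2
    have hre : s.re = 3 / 2 := by rw [hs]; simp
    have him : s.im = t := by rw [hs]; simp
    rw [hre, him]
    have hT2 : 1 ≤ T ^ 2 := by nlinarith
    have e4 : 2 * ((3 / 2 - 1 / 2 : ℝ) ^ 2 - t ^ 2) / T ^ 2 = 2 / T ^ 2 - 2 * t ^ 2 / T ^ 2 := by ring
    rw [e4]
    have e5 : 2 / T ^ 2 ≤ 2 := by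
      rw [div_le_iff₀ (by positivity)]
      nlinarith
    linarith
  unfold fmF
  rw [norm_mul, norm_mul, norm_pow, norm_pow]
  set g : ℝ := Real.exp (-(2 * t ^ 2 / T ^ 2)) with hg
  have hQ0 : 0 ≤ Q := norm_nonneg _
  have hA0 : 0 ≤ A := norm_nonneg _
  have hsq : (r ^ 3 * A + 8 * r * Q) ^ 2 ≤ 2 * (r ^ 6 * A ^ 2 + 64 * (r ^ 2 * Q ^ 2)) := by
    nlinarith [sq_nonneg (r ^ 3 * A - 8 * r * Q)]
  calc ‖s‖ ^ 4 * ‖fmPsi N s‖ ^ 2 * ‖cexp (2 * ((s - 1 / 2) / (T : ℂ)) ^ 2)‖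
      ≤ (3 * r) ^ 4 * (r ^ 3 * A + 8 * r * Q) ^ 2 * (Real.exp 2 * g) := by gcongr
    _ ≤ (3 * r) ^ 4 * (2 * (r ^ 6 * A ^ 2 + 64 * (r ^ 2 * Q ^ 2))) * (Real.exp 2 * g) := by gcongr
    _ = Real.exp 2 * 162 * ((r ^ 2) ^ 5 * g * A ^ 2 + 64 * ((r ^ 2) ^ 3 * g * Q ^ 2)) := by ring
    _ = _ := by rw [hr2]

end U6.FM

end

section

/-! A06: fourth moment. -/
open Complex MeasureTheory Set Filter Topology
open scoped ComplexConjugate
namespace U6.FM

/-- `(1+u)^6 e^{-2u} ≤ 720 e` -/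
lemma fm_poly_exp {u : ℝ} (hu : 0 ≤ u) : (1 + u) ^ 6 * Real.exp (-(2 * u)) ≤ 720 * Real.exp 1 := by
  have h1 : (1 + u) ^ 6 / (Nat.factorial 6 : ℝ) ≤ Real.exp (1 + u) :=
    Real.pow_div_factorial_le_exp (1 + u) (by linarith) 6
  have h2 : (Nat.factorial 6 : ℝ) = 720 := by norm_num [Nat.factorial]
  rw [h2, div_le_iff₀ (by norm_num)] at h1
  calc (1 + u) ^ 6 * Real.exp (-(2 * u)) ≤ (Real.exp (1 + u) * 720) * Real.exp (-(2 * u)) := by gcongr
    _ = 720 * (Real.exp (1 + u) * Real.exp (-(2 * u))) := by ring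
    _ = 720 * (Real.exp 1 * Real.exp (-u)) := by
        rw [← Real.exp_add, ← Real.exp_add]
        congr 2
        ring
    _ ≤ 720 * (Real.exp 1 * 1) := by
        gcongr
        exact Real.exp_le_one_iff.2 (by linarith)
    _ = _ := by ring

lemma fm_weight {T : ℝ} (hT : 2 ≤ T) (t : ℝ) {k : ℕ} (hk : k ≤ 5) :
    (1 / 4 + t ^ 2) ^ k * Real.exp (-(2 * t ^ 2 / T ^ 2)) ≤ 720 * Real.exp 1 * T ^ (2 * k) * ck T t := by
  have hT0 : 0 < T := by linarith
  set u : ℝ := t ^ 2 / T ^ 2 with hu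
  have hu0 : 0 ≤ u := by positivity
  have h1 : 1 / 4 + t ^ 2 ≤ T ^ 2 * (1 + u) := by
    have : T ^ 2 * (1 + u) = T ^ 2 + t ^ 2 := by
      rw [hu]
      field_simp
    rw [this]
    nlinarith
  have h2 : ck T t = (1 + u)⁻¹ := by
    unfold ck
    rw [hu]
    field_simp
  have h3 : 2 * t ^ 2 / T ^ 2 = 2 * u := by rw [hu]; ring
  rw [h2, h3]
  have h4 := fm_poly_exp hu0
  have h5 : (1 + u) ^ k * (1 + u) ≤ (1 + u) ^ 6 := by
    rw [← pow_succ]
    exact pow_le_pow_right₀ (by linarith) (by omega)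
  have h6 : (1 + u) ^ k * Real.exp (-(2 * u)) ≤ 720 * Real.exp 1 * (1 + u)⁻¹ := by
    rw [← div_eq_mul_inv, le_div_iff₀ (by positivity)]
    calc (1 + u) ^ k * Real.exp (-(2 * u)) * (1 + u) = ((1 + u) ^ k * (1 + u)) * Real.exp (-(2 * u)) := by ring
      _ ≤ (1 + u) ^ 6 * Real.exp (-(2 * u)) := by gcongr
      _ ≤ _ := h4
  calc (1 / 4 + t ^ 2) ^ k * Real.exp (-(2 * u)) ≤ (T ^ 2 * (1 + u)) ^ k * Real.exp (-(2 * u)) := by
        gcongr
    _ = T ^ (2 * k) * ((1 + u) ^ k * Real.exp (-(2 * u))) := by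
        rw [mul_pow, ← pow_mul]
        ring
    _ ≤ T ^ (2 * k) * (720 * Real.exp 1 * (1 + u)⁻¹) := by gcongr
    _ = _ := by ring

lemma fmPhi_cont (N : ℕ) : Continuous (fmPhi N) := by
  unfold fmPhi
  have h1 : Continuous fun t : ℝ => riemannZeta (1 / 2 + t * I) := by
    rw [continuous_iff_continuousAt]
    intro t
    exact ContinuousAt.comp (f := fun t : ℝ => (1 / 2 + t * I : ℂ)) (g := riemannZeta)
      (differentiableAt_riemannZeta (half_ne_one t)).continuousAt (by fun_prop)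
  have h2 : Continuous fun t : ℝ => chiT (1 / 2 + t * I) := by
    rw [continuous_iff_continuousAt]
    intro t
    exact ContinuousAt.comp (f := fun t : ℝ => (1 / 2 + t * I : ℂ)) (g := chiT)
      (chiT_diff (by simp)).continuousAt (by fun_prop)
  have h3 : Continuous fun t : ℝ => PP N (1 / 2 + t * I) :=
    (PP_diff N).continuous.comp (by fun_prop)
  exact (h1.norm.pow 2).sub (continuous_const.mul (Complex.continuous_re.comp (h2.mul h3)))

lemma fm_zeta_cont : Continuous fun t : ℝ => riemannZeta (1 / 2 + t * I) := by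
  rw [continuous_iff_continuousAt]
  intro t
  exact ContinuousAt.comp (f := fun t : ℝ => (1 / 2 + t * I : ℂ)) (g := riemannZeta)
    (differentiableAt_riemannZeta (half_ne_one t)).continuousAt (by fun_prop)

/-- mean square of `Φ` -/
theorem fm_phi {σ : ℝ} (hσ : 0 < σ) (hσ1 : σ ≤ 1 / 4) : ∃ C : ℝ, 0 ≤ C ∧ ∀ T : ℝ, 2 ≤ T →
    ∫ t in T..(2 * T), fmPhi ⌊T⌋₊ t ^ 2 ≤ C * T ^ (1 + 3 * σ) := by
  obtain ⟨C, hC0, hC⟩ := mv_three hσ hσ1
  set M : ℝ := Real.exp 2 * 162 * (720 * Real.exp 1) * 65 * C with hM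
  refine ⟨Real.exp 8 * M, by positivity, ?_⟩
  intro T hT
  have hT0 : 0 < T := by linarith
  obtain ⟨h1, h2, -⟩ := hC T hT
  set N : ℕ := ⌊T⌋₊ with hN
  obtain ⟨i1, i2, hsh⟩ := fm_shift N hT
  -- left side
  set L : ℝ → ℝ := fun t => (1 / 4 + t ^ 2) ^ 4 * fmPhi N t ^ 2 * Real.exp (-(2 * t ^ 2 / T ^ 2)) with hL
  have hLi : Integrable L := by
    have : Integrable (fun t : ℝ => ((L t : ℝ) : ℂ)) := by
      refine i1.congr (Eventually.of_forall fun t => ?_)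
      exact fmF_half N T t
    simpa using this.re
  have hLint : ((∫ t, L t : ℝ) : ℂ) = ∫ y : ℝ, fmF N T ((1 / 2 : ℝ) + y * I) := by
    rw [← integral_complex_ofReal]
    exact integral_congr_ae (Eventually.of_forall fun t => (fmF_half N T t).symm)
  have hLnn : ∀ t, 0 ≤ L t := fun t => by
    simp only [hL]
    positivity
  -- right side
  set R1 : ℝ → ℝ := fun t => ‖∑' n, co (fun n => N < n) (3 / 2) n * (n : ℂ) ^ (-(t * I))‖ ^ 2 * ck T t with hR1
  set R2 : ℝ → ℝ := fun t => ‖∑' n, co (fun n => n ≤ N) (-(1 / 2)) n * (n : ℂ) ^ (-(t * I))‖ ^ 2 * ck T t with hR2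
  obtain ⟨C', hC1', hC'⟩ := fm_div (1 / 4) (by norm_num)
  have iR1 : Integrable R1 := F4.integrable_series (co_zero _ _) (co_summable_inf (by norm_num) hC' N) hT0
  have iR2 : Integrable R2 := F4.integrable_series (co_zero _ _) (co_summable_fin N _) hT0
  have hpt : ∀ t : ℝ, ‖fmF N T ((3 / 2 : ℝ) + t * I)‖ ≤
      Real.exp 2 * 162 * (720 * Real.exp 1) * (T ^ 10 * R1 t + 64 * (T ^ 6 * R2 t)) := by
    intro t
    refine (fmF_right N hT t).trans ?_
    rw [zeta_sq_sub, PP_eq]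
    have w1 := fm_weight hT t (k := 5) le_rfl
    have w2 := fm_weight hT t (k := 3) (by norm_num)
    norm_num at w1 w2
    have s1 := sq_nonneg ‖∑' n, co (fun n => N < n) (3 / 2) n * (n : ℂ) ^ (-(t * I))‖
    have s2 := sq_nonneg ‖∑' n, co (fun n => n ≤ N) (-(1 / 2)) n * (n : ℂ) ^ (-(t * I))‖
    have v1 := mul_le_mul_of_nonneg_right w1 s1
    have v2 := mul_le_mul_of_nonneg_right w2 s2
    have he : 0 ≤ Real.exp 2 * 162 := by positivity
    simp only [hR1, hR2]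
    norm_num at v1 v2 ⊢
    calc _ ≤ Real.exp 2 * 162 * (720 * Real.exp 1 * T ^ 10 * ck T t *
          ‖∑' n, co (fun n => N < n) (3 / 2) n * (n : ℂ) ^ (-(t * I))‖ ^ 2 +
          64 * (720 * Real.exp 1 * T ^ 6 * ck T t *
          ‖∑' n, co (fun n => n ≤ N) (-(1 / 2)) n * (n : ℂ) ^ (-(t * I))‖ ^ 2)) := by
          apply mul_le_mul_of_nonneg_left _ he
          exact add_le_add v1 (mul_le_mul_of_nonneg_left v2 (by norm_num))
      _ = _ := by ring
  have hmain : ∫ t, L t ≤ M * T ^ (9 + 3 * σ) := by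
    have e1 : ∫ t, L t = ‖((∫ t, L t : ℝ) : ℂ)‖ := by
      rw [Complex.norm_real, Real.norm_of_nonneg (integral_nonneg hLnn)]
    rw [e1, hLint, hsh]
    refine (norm_integral_le_integral_norm _).trans ?_
    have iR : Integrable (fun t => Real.exp 2 * 162 * (720 * Real.exp 1) *
        (T ^ 10 * R1 t + 64 * (T ^ 6 * R2 t))) :=
      ((iR1.const_mul _).add ((iR2.const_mul _).const_mul _)).const_mul _
    refine (integral_mono i2.norm iR hpt).trans ?_
    rw [integral_const_mul, integral_add (iR1.const_mul _) ((iR2.const_mul _).const_mul _),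
      integral_const_mul, integral_const_mul, integral_const_mul]
    have p1 : T ^ 10 * T ^ (-1 + 3 * σ) = T ^ (9 + 3 * σ) := by
      rw [← Real.rpow_natCast T 10, ← Real.rpow_add hT0]
      congr 1
      push_cast
      ring
    have p2 : T ^ 6 * T ^ (3 + 3 * σ) = T ^ (9 + 3 * σ) := by
      rw [← Real.rpow_natCast T 6, ← Real.rpow_add hT0]
      congr 1
      push_cast
      ring
    calc Real.exp 2 * 162 * (720 * Real.exp 1) * (T ^ 10 * (∫ t, R1 t) + 64 * (T ^ 6 * (∫ t, R2 t)))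
        ≤ Real.exp 2 * 162 * (720 * Real.exp 1) * (T ^ 10 * (C * T ^ (-1 + 3 * σ)) +
          64 * (T ^ 6 * (C * T ^ (3 + 3 * σ)))) := by gcongr
      _ = Real.exp 2 * 162 * (720 * Real.exp 1) * C * (T ^ 10 * T ^ (-1 + 3 * σ) +
          64 * (T ^ 6 * T ^ (3 + 3 * σ))) := by ring
      _ = M * T ^ (9 + 3 * σ) := by rw [p1, p2, hM]; ring
  have hlow : T ^ 8 * Real.exp (-8) * ∫ t in T..(2 * T), fmPhi N t ^ 2 ≤ ∫ t, L t := by
    rw [← intervalIntegral.integral_const_mul]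
    have h2T : T ≤ 2 * T := by linarith
    rw [intervalIntegral.integral_of_le h2T]
    calc ∫ t in Ioc T (2 * T), T ^ 8 * Real.exp (-8) * fmPhi N t ^ 2
        ≤ ∫ t in Ioc T (2 * T), L t := by
          refine setIntegral_mono_on ?_ hLi.integrableOn measurableSet_Ioc ?_
          · exact ((continuous_const.mul ((fmPhi_cont N).pow 2)).integrableOn_Icc).mono_set Ioc_subset_Icc_self
          · intro t ht
            have ht1 : T ≤ t := ht.1.le
            have ht2 : t ≤ 2 * T := ht.2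
            simp only [hL]
            have q1 : T ^ 8 ≤ (1 / 4 + t ^ 2) ^ 4 := by
              calc T ^ 8 = (T ^ 2) ^ 4 := by ring
                _ ≤ (1 / 4 + t ^ 2) ^ 4 := by
                  apply pow_le_pow_left₀ (by positivity)
                  nlinarith
            have q2 : Real.exp (-8) ≤ Real.exp (-(2 * t ^ 2 / T ^ 2)) := by
              apply Real.exp_le_exp.2
              have : 2 * t ^ 2 / T ^ 2 ≤ 8 := by
                rw [div_le_iff₀ (by positivity)]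
                nlinarith
              linarith
            calc T ^ 8 * Real.exp (-8) * fmPhi N t ^ 2
                ≤ (1 / 4 + t ^ 2) ^ 4 * Real.exp (-(2 * t ^ 2 / T ^ 2)) * fmPhi N t ^ 2 := by gcongr
              _ = _ := by ring
      _ ≤ ∫ t, L t := setIntegral_le_integral hLi (Eventually.of_forall hLnn)
  have hfin : T ^ 8 * Real.exp (-8) * ∫ t in T..(2 * T), fmPhi N t ^ 2 ≤ M * T ^ (9 + 3 * σ) :=
    hlow.trans hmain
  have p3 : T ^ (9 + 3 * σ) = T ^ 8 * T ^ (1 + 3 * σ) := by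
    rw [← Real.rpow_natCast T 8, ← Real.rpow_add hT0]
    congr 1
    push_cast
    ring
  rw [p3] at hfin
  have hT8 : 0 < T ^ 8 := by positivity
  have h9 : Real.exp (-8) * ∫ t in T..(2 * T), fmPhi N t ^ 2 ≤ M * T ^ (1 + 3 * σ) := by
    have : T ^ 8 * (Real.exp (-8) * ∫ t in T..(2 * T), fmPhi N t ^ 2) ≤ T ^ 8 * (M * T ^ (1 + 3 * σ)) := by
      linarith
    exact le_of_mul_le_mul_left this hT8
  have h10 := mul_le_mul_of_nonneg_left h9 (Real.exp_pos 8).le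
  have h11 : Real.exp 8 * (Real.exp (-8) * ∫ t in T..(2 * T), fmPhi N t ^ 2) =
      ∫ t in T..(2 * T), fmPhi N t ^ 2 := by
    rw [← mul_assoc, ← Real.exp_add]
    norm_num
  linarith

/-- mean square of `P` -/
theorem fm_PP {σ : ℝ} (hσ : 0 < σ) (hσ1 : σ ≤ 1 / 4) : ∃ C : ℝ, 0 ≤ C ∧ ∀ T : ℝ, 2 ≤ T →
    ∫ t in T..(2 * T), ‖PP ⌊T⌋₊ (1 / 2 + t * I)‖ ^ 2 ≤ C * T ^ (1 + 3 * σ) := by
  obtain ⟨C, hC0, hC⟩ := mv_three hσ hσ1
  refine ⟨5 * C, by positivity, ?_⟩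
  intro T hT
  have hT0 : 0 < T := by linarith
  obtain ⟨-, -, h3⟩ := hC T hT
  set N : ℕ := ⌊T⌋₊ with hN
  have iR : Integrable (fun t : ℝ => ‖∑' n, co (fun n => n ≤ N) (1 / 2) n * (n : ℂ) ^ (-(t * I))‖ ^ 2 * ck T t) :=
    F4.integrable_series (co_zero _ _) (co_summable_fin N _) hT0
  have h2T : T ≤ 2 * T := by linarith
  rw [intervalIntegral.integral_of_le h2T]
  have hcont : Continuous fun t : ℝ => ‖PP N (1 / 2 + t * I)‖ ^ 2 :=
    ((PP_diff N).continuous.comp (by fun_prop : Continuous fun t : ℝ => (1 / 2 + t * I : ℂ))).norm.pow 2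
  calc ∫ t in Ioc T (2 * T), ‖PP N (1 / 2 + t * I)‖ ^ 2
      ≤ ∫ t in Ioc T (2 * T), 5 * (‖∑' n, co (fun n => n ≤ N) (1 / 2) n * (n : ℂ) ^ (-(t * I))‖ ^ 2 * ck T t) := by
        refine setIntegral_mono_on ?_ (iR.const_mul 5).integrableOn measurableSet_Ioc ?_
        · exact hcont.integrableOn_Icc.mono_set Ioc_subset_Icc_self
        · intro t ht
          have ht1 : T ≤ t := ht.1.le
          have ht2 : t ≤ 2 * T := ht.2
          have e1 : (1 / 2 + t * I : ℂ) = (((1 / 2 : ℝ) : ℂ) + t * I) := by push_cast; rfl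
          rw [e1, PP_eq]
          have hck : 1 ≤ 5 * ck T t := by
            unfold ck
            rw [← mul_div_assoc, le_div_iff₀ (by positivity)]
            nlinarith
          have s1 := sq_nonneg ‖∑' n, co (fun n => n ≤ N) (1 / 2) n * (n : ℂ) ^ (-(t * I))‖
          nlinarith
    _ ≤ ∫ t : ℝ, 5 * (‖∑' n, co (fun n => n ≤ N) (1 / 2) n * (n : ℂ) ^ (-(t * I))‖ ^ 2 * ck T t) := by
        refine setIntegral_le_integral (iR.const_mul 5) (Eventually.of_forall fun t => ?_)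
        have : 0 ≤ ck T t := by unfold ck; positivity
        simp only [Pi.zero_apply]
        positivity
    _ ≤ 5 * (C * T ^ (1 + 3 * σ)) := by
        rw [integral_const_mul]
        linarith
    _ = _ := by ring

end U6.FM

namespace U6
open U6.FM

theorem fourth_moment (e : ℝ) (he : 0 < e) : ∃ C : ℝ, ∀ T : ℝ, 1 ≤ T →
    ∫ t in T..(2 * T), ‖riemannZeta (1 / 2 + t * I)‖ ^ 4 ≤ C * T ^ (1 + e) := by
  set σ : ℝ := min (e / 3) (1 / 4) with hσd
  have hσ : 0 < σ := lt_min (by positivity) (by norm_num)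
  have hσ1 : σ ≤ 1 / 4 := min_le_right _ _
  have hσe : 3 * σ ≤ e := by
    have := min_le_left (e / 3) (1 / 4)
    rw [← hσd] at this
    linarith
  obtain ⟨C1, hC10, hC1⟩ := fm_phi hσ hσ1
  obtain ⟨C2, hC20, hC2⟩ := fm_PP hσ hσ1
  set Z : ℝ → ℝ := fun t => ‖riemannZeta (1 / 2 + t * I)‖ ^ 4 with hZ
  have hZc : Continuous Z := fm_zeta_cont.norm.pow 4
  have hZ0 : ∀ t, 0 ≤ Z t := fun t => by simp only [hZ]; positivity
  have hZi : ∀ a b : ℝ, IntervalIntegrable Z volume a b := fun a b => hZc.intervalIntegrable a b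
  set J : ℝ := ∫ t in (1 : ℝ)..4, Z t with hJ
  have hJ0 : 0 ≤ J := intervalIntegral.integral_nonneg (by norm_num) fun t _ => hZ0 t
  refine ⟨2 * C1 + 8 * C2 + J, ?_⟩
  intro T hT
  have hT0 : 0 < T := by linarith
  have hpow1 : (1 : ℝ) ≤ T ^ (1 + e) := Real.one_le_rpow hT (by linarith)
  rcases le_or_gt 2 T with hT2 | hT2
  · have h1 := hC1 T hT2
    have h2 := hC2 T hT2
    set N : ℕ := ⌊T⌋₊ with hN
    have hpt : ∀ t : ℝ, Z t ≤ 2 * fmPhi N t ^ 2 + 8 * ‖PP N (1 / 2 + t * I)‖ ^ 2 := by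
      intro t
      set z : ℝ := ‖riemannZeta (1 / 2 + t * I)‖ with hz
      set w : ℝ := (chiT (1 / 2 + t * I) * PP N (1 / 2 + t * I)).re with hw
      have e1 : z ^ 2 = fmPhi N t + 2 * w := by
        unfold fmPhi
        rw [← hz, ← hw]
        ring
      have e2 : |w| ≤ ‖PP N (1 / 2 + t * I)‖ := by
        refine (Complex.abs_re_le_norm _).trans ?_
        rw [norm_mul, chiT_half, one_mul]
      have e3 : w ^ 2 ≤ ‖PP N (1 / 2 + t * I)‖ ^ 2 := by
        rw [← sq_abs]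
        exact pow_le_pow_left₀ (abs_nonneg _) e2 2
      have e4 : Z t = (fmPhi N t + 2 * w) ^ 2 := by
        simp only [hZ]
        rw [← hz, ← e1]
        ring
      rw [e4]
      nlinarith [sq_nonneg (fmPhi N t - 2 * w)]
    have hPc : Continuous fun t : ℝ => ‖PP N (1 / 2 + t * I)‖ ^ 2 :=
      ((PP_diff N).continuous.comp (by fun_prop : Continuous fun t : ℝ => (1 / 2 + t * I : ℂ))).norm.pow 2
    have hFc := (fmPhi_cont N).pow 2
    have h2T : T ≤ 2 * T := by linarith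
    have e5 : T ^ (1 + 3 * σ) ≤ T ^ (1 + e) := Real.rpow_le_rpow_of_exponent_le hT (by linarith)
    have k1 : IntervalIntegrable (fun t => 2 * fmPhi N t ^ 2) volume T (2 * T) :=
      (continuous_const.mul hFc).intervalIntegrable _ _
    have k2 : IntervalIntegrable (fun t : ℝ => 8 * ‖PP N (1 / 2 + t * I)‖ ^ 2) volume T (2 * T) :=
      (continuous_const.mul hPc).intervalIntegrable _ _
    calc ∫ t in T..(2 * T), Z t
        ≤ ∫ t in T..(2 * T), (2 * fmPhi N t ^ 2 + 8 * ‖PP N (1 / 2 + t * I)‖ ^ 2) :=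
          intervalIntegral.integral_mono_on h2T (hZi _ _) (k1.add k2) (fun t _ => hpt t)
      _ = 2 * (∫ t in T..(2 * T), fmPhi N t ^ 2) + 8 * ∫ t in T..(2 * T), ‖PP N (1 / 2 + t * I)‖ ^ 2 := by
          rw [intervalIntegral.integral_add k1 k2, intervalIntegral.integral_const_mul,
            intervalIntegral.integral_const_mul]
      _ ≤ (2 * C1 + 8 * C2) * T ^ (1 + 3 * σ) := by linarith
      _ ≤ (2 * C1 + 8 * C2) * T ^ (1 + e) := by gcongr
      _ ≤ (2 * C1 + 8 * C2 + J) * T ^ (1 + e) := by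
          apply mul_le_mul_of_nonneg_right _ (by positivity)
          linarith
  · have h3 : ∫ t in T..(2 * T), Z t ≤ J := by
      rw [hJ]
      exact intervalIntegral.integral_mono_interval hT (by linarith) (by linarith)
        (Eventually.of_forall hZ0) (hZi _ _)
    calc ∫ t in T..(2 * T), Z t ≤ J := h3
      _ ≤ J * T ^ (1 + e) := le_mul_of_one_le_right hJ0 hpow1
      _ ≤ _ := by
          apply mul_le_mul_of_nonneg_right _ (by positivity)
          linarith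

end U6

end

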