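import Pool.Agent.Lib.MP_39df77_nt.U6.Defs
/-! A09: divisor bound and counting of `(k₁,k₂,k₃)` with `|q| ≤ Q`: for given `m = k₃-k₁-k₂` and `q`,
`4 k₁ k₂ = m² - q` has at most `d((m²-q)/4)` solutions; `|m| ≤ 2√(AB) + √Q`. -/
open Complex MeasureTheory Set
namespace U6

/-- `a + 1 ≤ C ^ 1 * t ^ a` for real `t ≥ t₀ > 1` -/
theorem A09_succ_le_mul_pow (t₀ : ℝ) (ht₀ : 1 < t₀) : ∃ C : ℝ, 1 ≤ C ∧ ∀ t : ℝ, t₀ ≤ t → ∀ a : ℕ,
    ((a : ℝ) + 1) ≤ C * t ^ a := by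
  refine ⟨max 1 (1 / (t₀ - 1)), le_max_left _ _, ?_⟩
  intro t ht a
  set C := max 1 (1 / (t₀ - 1)) with hC
  have hC1 : 1 ≤ C := le_max_left _ _
  have hC2 : 1 ≤ C * (t₀ - 1) := by
    have h1 : 1 / (t₀ - 1) ≤ C := le_max_right _ _
    have h2 : 0 < t₀ - 1 := by linarith
    rwa [div_le_iff₀ h2] at h1
  have ht1 : 1 ≤ t := by linarith
  have hC3 : 1 ≤ C * (t - 1) := by
    have : C * (t₀ - 1) ≤ C * (t - 1) := mul_le_mul_of_nonneg_left (by linarith) (by linarith)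
    linarith
  induction a with
  | zero => simpa using hC1
  | succ a ih =>
    have hp : 1 ≤ t ^ a := one_le_pow₀ ht1
    have h1 : C * t ^ (a + 1) = C * t ^ a + (C * (t - 1)) * t ^ a := by ring
    have h2 : 1 ≤ (C * (t - 1)) * t ^ a := by
      calc (1 : ℝ) = 1 * 1 := by ring
        _ ≤ (C * (t - 1)) * t ^ a := mul_le_mul hC3 hp zero_le_one (by linarith)
    push_cast
    linarith

theorem A09_card_divisors (ε : ℝ) (hε : 0 < ε) : ∃ C : ℝ, 1 ≤ C ∧ ∀ n : ℕ, 0 < n →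
    (n.divisors.card : ℝ) ≤ C * (n : ℝ) ^ ε := by
  obtain ⟨C, hC1, hC⟩ := A09_succ_le_mul_pow ((2 : ℝ) ^ ε) (Real.one_lt_rpow (by norm_num) hε)
  -- primes at least `B` satisfy `p ^ ε ≥ 2`
  obtain ⟨B, hB⟩ : ∃ B : ℕ, ∀ p : ℕ, B ≤ p → (2 : ℝ) ≤ (p : ℝ) ^ ε := by
    obtain ⟨B, hB⟩ := exists_nat_ge ((2 : ℝ) ^ (1 / ε))
    refine ⟨B, fun p hp => ?_⟩
    have h1 : (2 : ℝ) ^ (1 / ε) ≤ p := hB.trans (by exact_mod_cast hp)
    calc (2 : ℝ) = ((2 : ℝ) ^ (1 / ε)) ^ ε := by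
          rw [← Real.rpow_mul (by norm_num), one_div, inv_mul_cancel₀ hε.ne', Real.rpow_one]
      _ ≤ (p : ℝ) ^ ε := Real.rpow_le_rpow (Real.rpow_nonneg (by norm_num) _) h1 hε.le
  refine ⟨C ^ B, one_le_pow₀ hC1, ?_⟩
  intro n hn
  have hn0 : n ≠ 0 := hn.ne'
  rw [Nat.card_divisors hn0]
  push_cast
  have hnprod : (n : ℝ) ^ ε = ∏ p ∈ n.primeFactors, ((p : ℝ) ^ ε) ^ (n.factorization p) := by
    conv_lhs => rw [← Nat.prod_factorization_pow_eq_self hn0]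
    rw [Nat.prod_factorization_eq_prod_primeFactors]
    push_cast
    rw [← Real.finsetProd_rpow _ _ (fun i _ => by positivity)]
    refine Finset.prod_congr rfl fun p _ => ?_
    rw [← Real.rpow_natCast, ← Real.rpow_natCast, ← Real.rpow_mul (Nat.cast_nonneg _),
      ← Real.rpow_mul (Nat.cast_nonneg _), mul_comm]
  have h1 : ∀ p ∈ n.primeFactors, ((n.factorization p : ℝ) + 1) ≤
      (if p < B then C else 1) * ((p : ℝ) ^ ε) ^ (n.factorization p) := by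
    intro p hp
    have hpp : p.Prime := Nat.prime_of_mem_primeFactors hp
    split_ifs with h
    · refine hC _ ?_ _
      exact Real.rpow_le_rpow (by norm_num) (by exact_mod_cast hpp.two_le) hε.le
    · push Not at h
      rw [one_mul]
      have h2 : (2 : ℝ) ≤ (p : ℝ) ^ ε := hB p h
      calc ((n.factorization p : ℝ) + 1) ≤ (2 : ℝ) ^ (n.factorization p) := by
            have := Nat.lt_two_pow_self (n := n.factorization p)
            exact_mod_cast this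
        _ ≤ _ := pow_le_pow_left₀ (by norm_num) h2 _
  calc ∏ p ∈ n.primeFactors, ((n.factorization p : ℝ) + 1)
      ≤ ∏ p ∈ n.primeFactors, ((if p < B then C else 1) *
          ((p : ℝ) ^ ε) ^ (n.factorization p)) :=
        Finset.prod_le_prod (fun p _ => by positivity) h1
    _ = (∏ p ∈ n.primeFactors, (if p < B then C else 1)) * (n : ℝ) ^ ε := by
        rw [Finset.prod_mul_distrib, hnprod]
    _ ≤ C ^ B * (n : ℝ) ^ ε := by
        refine mul_le_mul_of_nonneg_right ?_ (by positivity)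
        rw [Finset.prod_ite]
        simp only [Finset.prod_const, one_pow, mul_one]
        refine pow_le_pow_right₀ hC1 ?_
        calc (Finset.filter (fun x => x < B) n.primeFactors).card
            ≤ (Finset.range B).card := Finset.card_le_card (by
              intro x hx
              rw [Finset.mem_filter] at hx
              exact Finset.mem_range.2 hx.2)
          _ = B := Finset.card_range B


theorem dv_le (e : ℝ) (he : 0 < e) : ∃ C : ℝ, 0 < C ∧ ∀ k : ℕ, 1 ≤ k → (dv k : ℝ) ≤ C * (k : ℝ) ^ e := by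
  obtain ⟨C, hC, h⟩ := A09_card_divisors e he
  exact ⟨C, by linarith, fun k hk => h k hk⟩

/-- the fibres of `k ↦ (k₃-k₁-k₂, q)` -/
theorem A09_fibre {e C : ℝ} (hC : 0 < C) (he : 0 < e)
    (h : ∀ k : ℕ, 1 ≤ k → (dv k : ℝ) ≤ C * (k : ℝ) ^ e) (A B K : ℕ) (Q : ℝ) (a : ℤ × ℤ) :
    (((((Finset.Icc 1 A ×ˢ Finset.Icc 1 B ×ˢ Finset.Icc 1 K).filter
      (fun k => |(q k : ℝ)| ≤ Q)).filter
        (fun k => (((k.2.2 : ℤ) - k.1 - k.2.1, q k) : ℤ × ℤ) = a)).card : ℕ) : ℝ) ≤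
      C * (A * B : ℝ) ^ e := by
  set S := ((Finset.Icc 1 A ×ˢ Finset.Icc 1 B ×ˢ Finset.Icc 1 K).filter
      (fun k => |(q k : ℝ)| ≤ Q)).filter
        (fun k => (((k.2.2 : ℤ) - k.1 - k.2.1, q k) : ℤ × ℤ) = a) with hS
  have hmem : ∀ k ∈ S, 1 ≤ k.1 ∧ k.1 ≤ A ∧ 1 ≤ k.2.1 ∧ k.2.1 ≤ B ∧
      (k.2.2 : ℤ) - k.1 - k.2.1 = a.1 ∧ a.1 ^ 2 - 4 * k.1 * k.2.1 = a.2 := by
    intro k hk
    rw [hS, Finset.mem_filter, Finset.mem_filter, Finset.mem_product, Finset.mem_product,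
      Finset.mem_Icc, Finset.mem_Icc] at hk
    obtain ⟨⟨⟨⟨h1, h2⟩, ⟨h3, h4⟩, _⟩, _⟩, h5⟩ := hk
    have e1 : (k.2.2 : ℤ) - k.1 - k.2.1 = a.1 := by rw [← h5]
    have e2 : q k = a.2 := by rw [← h5]
    refine ⟨h1, h2, h3, h4, e1, ?_⟩
    rw [← e2, ← e1, q]
  rcases S.eq_empty_or_nonempty with h0 | ⟨k0, hk0⟩
  · rw [h0, Finset.card_empty]
    have : 0 ≤ C * (A * B : ℝ) ^ e := by positivity
    simpa using this
  · obtain ⟨b1, b2, b3, b4, b5, b6⟩ := hmem k0 hk0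
    have hn : 1 ≤ k0.1 * k0.2.1 := Nat.one_le_iff_ne_zero.mpr (by positivity)
    have hle : S.card ≤ (Nat.divisors (k0.1 * k0.2.1)).card := by
      refine Finset.card_le_card_of_injOn (fun k => k.1) ?_ ?_
      · intro k hk
        obtain ⟨c1, c2, c3, c4, c5, c6⟩ := hmem k hk
        have e1 : k.1 * k.2.1 = k0.1 * k0.2.1 := by
          have : (k.1 : ℤ) * k.2.1 = k0.1 * k0.2.1 := by linarith
          exact_mod_cast this
        simp only [Finset.mem_coe, Nat.mem_divisors]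
        exact ⟨Dvd.intro _ e1, by omega⟩
      · intro k hk k' hk' hkk
        obtain ⟨c1, c2, c3, c4, c5, c6⟩ := hmem k hk
        obtain ⟨d1, d2, d3, d4, d5, d6⟩ := hmem k' hk'
        have hkk' : k.1 = k'.1 := hkk
        have e2 : k.2.1 = k'.2.1 := by
          have h1 : (k.1 : ℤ) * k.2.1 = k.1 * k'.2.1 := by
            rw [← hkk'] at d6
            linarith
          have h2 : (k.1 : ℤ) ≠ 0 := by omega
          have := mul_left_cancel₀ h2 h1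
          exact_mod_cast this
        have e3 : k.2.2 = k'.2.2 := by
          rw [← hkk', ← e2] at d5
          omega
        exact Prod.ext hkk' (Prod.ext e2 e3)
    calc ((S.card : ℕ) : ℝ) ≤ (dv (k0.1 * k0.2.1) : ℝ) := by exact_mod_cast hle
      _ ≤ C * ((k0.1 * k0.2.1 : ℕ) : ℝ) ^ e := h _ hn
      _ ≤ C * (A * B : ℝ) ^ e := by
          refine mul_le_mul_of_nonneg_left ?_ hC.le
          refine Real.rpow_le_rpow (by positivity) ?_ he.le
          have : k0.1 * k0.2.1 ≤ A * B := Nat.mul_le_mul b2 b4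
          exact_mod_cast this

theorem count_q (e : ℝ) (he : 0 < e) : ∃ C : ℝ, 0 < C ∧ ∀ (A B K : ℕ) (Q : ℝ), 1 ≤ A → 1 ≤ B → 1 ≤ K → 1 ≤ Q →
    ((((Finset.Icc 1 A ×ˢ Finset.Icc 1 B ×ˢ Finset.Icc 1 K).filter
      (fun k => |(q k : ℝ)| ≤ Q)).card : ℕ) : ℝ) ≤
      C * ((A * B : ℝ) * Q) ^ e * (Real.sqrt (A * B) + Real.sqrt Q) * Q := by
  obtain ⟨C, hC, h⟩ := dv_le e he
  refine ⟨15 * C, by positivity, ?_⟩
  intro A B K Q hA hB hK hQ
  have hA' : (1 : ℝ) ≤ A := by exact_mod_cast hA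
  have hB' : (1 : ℝ) ≤ B := by exact_mod_cast hB
  set S := (Finset.Icc 1 A ×ˢ Finset.Icc 1 B ×ˢ Finset.Icc 1 K).filter
      (fun k => |(q k : ℝ)| ≤ Q) with hS
  set g : ℕ × ℕ × ℕ → ℤ × ℤ := fun k => ((k.2.2 : ℤ) - k.1 - k.2.1, q k) with hg
  set sAB := Real.sqrt (A * B) with hsAB
  set sQ := Real.sqrt Q with hsQ
  have hAB1 : (1 : ℝ) ≤ A * B := one_le_mul_of_one_le_of_one_le hA' hB'
  have hsAB1 : 1 ≤ sAB := by
    rw [hsAB, ← Real.sqrt_one]
    exact Real.sqrt_le_sqrt hAB1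
  have hsQ1 : 1 ≤ sQ := by
    rw [hsQ, ← Real.sqrt_one]
    exact Real.sqrt_le_sqrt hQ
  have hsq1 : sAB * sAB = A * B := Real.mul_self_sqrt (by positivity)
  have hsq2 : sQ * sQ = Q := Real.mul_self_sqrt (by linarith)
  have h1 := Finset.card_le_mul_card_image (f := g) S ⌊C * (A * B : ℝ) ^ e⌋₊ (by
    intro a _
    refine Nat.le_floor ?_
    exact A09_fibre hC he h A B K Q a)
  have h2 : S.image g ⊆ Finset.Icc (-⌊2 * sAB + sQ⌋) ⌊2 * sAB + sQ⌋ ×ˢ Finset.Icc (-⌊Q⌋) ⌊Q⌋ := by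
    intro a ha
    rw [Finset.mem_image] at ha
    obtain ⟨k, hk, rfl⟩ := ha
    rw [hS, Finset.mem_filter, Finset.mem_product, Finset.mem_product,
      Finset.mem_Icc, Finset.mem_Icc] at hk
    obtain ⟨⟨⟨a1, a2⟩, ⟨a3, a4⟩, _⟩, a5⟩ := hk
    have hq := abs_le.mp a5
    have hm : |(((k.2.2 : ℤ) - k.1 - k.2.1 : ℤ) : ℝ)| ≤ 2 * sAB + sQ := by
      refine abs_le_of_sq_le_sq ?_ (by positivity)
      have e1 : ((((k.2.2 : ℤ) - k.1 - k.2.1 : ℤ) : ℝ)) ^ 2 = (q k : ℝ) + 4 * k.1 * k.2.1 := by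
        unfold q
        push_cast
        ring
      have e2 : (k.1 : ℝ) * k.2.1 ≤ A * B := by
        have : k.1 * k.2.1 ≤ A * B := Nat.mul_le_mul a2 a4
        exact_mod_cast this
      rw [e1]
      have e3 : (2 * sAB + sQ) ^ 2 = 4 * (sAB * sAB) + 4 * (sAB * sQ) + sQ * sQ := by ring
      rw [e3, hsq1, hsq2]
      have e4 : 0 ≤ sAB * sQ := by positivity
      linarith [hq.2]
    have hm' := abs_le.mp hm
    rw [Finset.mem_product, Finset.mem_Icc, Finset.mem_Icc]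
    refine ⟨⟨?_, ?_⟩, ?_, ?_⟩
    · rw [neg_le]
      refine Int.le_floor.mpr ?_
      show ((-(((k.2.2 : ℤ) - k.1 - k.2.1 : ℤ)) : ℤ) : ℝ) ≤ 2 * sAB + sQ
      rw [Int.cast_neg]
      linarith [hm'.1]
    · exact Int.le_floor.mpr hm'.2
    · rw [neg_le]
      refine Int.le_floor.mpr ?_
      show ((-(q k) : ℤ) : ℝ) ≤ Q
      rw [Int.cast_neg]
      linarith [hq.1]
    · exact Int.le_floor.mpr hq.2
  have hcard : ∀ x : ℝ, 0 ≤ x → (((Finset.Icc (-⌊x⌋) ⌊x⌋).card : ℕ) : ℝ) ≤ 2 * x + 1 := by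
    intro x hx
    rw [Int.card_Icc]
    have h0 : 0 ≤ ⌊x⌋ := Int.floor_nonneg.mpr hx
    have h3 : ((⌊x⌋ + 1 - -⌊x⌋).toNat : ℤ) = 2 * ⌊x⌋ + 1 := by
      rw [Int.toNat_of_nonneg (by omega)]
      ring
    have h4 : (((⌊x⌋ + 1 - -⌊x⌋).toNat : ℕ) : ℝ) = 2 * (⌊x⌋ : ℝ) + 1 := by
      exact_mod_cast h3
    rw [h4]
    linarith [Int.floor_le x]
  have h3 : (((S.image g).card : ℕ) : ℝ) ≤ (2 * (2 * sAB + sQ) + 1) * (2 * Q + 1) := by
    have := Finset.card_le_card h2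
    rw [Finset.card_product] at this
    calc (((S.image g).card : ℕ) : ℝ) ≤
          (((Finset.Icc (-⌊2 * sAB + sQ⌋) ⌊2 * sAB + sQ⌋).card *
            (Finset.Icc (-⌊Q⌋) ⌊Q⌋).card : ℕ) : ℝ) := by exact_mod_cast this
      _ ≤ _ := by
          push_cast
          refine mul_le_mul (hcard _ (by positivity)) (hcard _ (by linarith)) (by positivity)
            (by positivity)
  have h4 : ((S.card : ℕ) : ℝ) ≤ (C * (A * B : ℝ) ^ e) * ((2 * (2 * sAB + sQ) + 1) * (2 * Q + 1)) := by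
    calc ((S.card : ℕ) : ℝ) ≤ ((⌊C * (A * B : ℝ) ^ e⌋₊ * (S.image g).card : ℕ) : ℝ) := by
          exact_mod_cast h1
      _ = (⌊C * (A * B : ℝ) ^ e⌋₊ : ℝ) * (((S.image g).card : ℕ) : ℝ) := by push_cast; rfl
      _ ≤ _ := mul_le_mul (Nat.floor_le (by positivity)) h3 (by positivity) (by positivity)
  refine h4.trans ?_
  have h5 : (A * B : ℝ) ^ e ≤ ((A * B : ℝ) * Q) ^ e :=
    Real.rpow_le_rpow (by positivity) (le_mul_of_one_le_right (by positivity) hQ) he.le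
  calc (C * (A * B : ℝ) ^ e) * ((2 * (2 * sAB + sQ) + 1) * (2 * Q + 1)) ≤
        (C * ((A * B : ℝ) * Q) ^ e) * ((5 * (sAB + sQ)) * (3 * Q)) := by
        gcongr
        · linarith
        · linarith
    _ = _ := by ring

end U6
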