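import Mathlib

/-!
# Upper bound for the sixth moment of zeta: definitions for steps (1), (2)

`D` is the smoothed Dirichlet series, `B` its local mean square over windows of width `G`,
`II` the integrals obtained by Poisson summation, `J0` their main term, `Y` the dual sum.
-/

open Complex MeasureTheory Set

namespace U6

/-- smoothed Dirichlet series `∑_{n ≥ 1} n^{-1/2-it} e^{-n/N}` -/
noncomputable def D (N t : ℝ) : ℂ :=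
  ∑' n : ℕ, ((n + 1 : ℝ) : ℂ) ^ (-(1 / 2 + t * I)) * (Real.exp (-((n + 1 : ℝ) / N)) : ℂ)

/-- Cauchy kernel -/
noncomputable def P (G u : ℝ) : ℝ := G / (Real.pi * (G ^ 2 + u ^ 2))

/-- local mean square -/
noncomputable def B (N G t : ℝ) : ℝ := ∫ u : ℝ, ‖D N (t + u)‖ ^ 2 * P G u

/-- diagonal -/
noncomputable def mN (N : ℝ) : ℝ := ∑' n : ℕ, Real.exp (-(2 * (n + 1 : ℝ) / N)) / (n + 1 : ℝ)

/-- off-diagonal term `(n(n+h))^{-1/2} e^{-(2n+h)/N} ((n+h)/n)^{it-G}` -/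
noncomputable def f (N G t h x : ℝ) : ℂ :=
  (((Real.sqrt (x * (x + h)))⁻¹ * Real.exp (-((2 * x + h) / N)) : ℝ) : ℂ) *
    cexp ((t * I - G) * (Real.log ((x + h) / x) : ℝ))

/-- `exp (-α w + β coth (w/2)) / (2 sinh (w/2))` -/
noncomputable def ker (α β w : ℂ) : ℂ :=
  cexp (-(α * w) + β * (Complex.cosh (w / 2) / Complex.sinh (w / 2))) / (2 * Complex.sinh (w / 2))

/-- `I(k, ρ, t)` -/
noncomputable def II (G t : ℝ) (k : ℤ) (ρ : ℝ) : ℂ :=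
  ∫ w in Ioi (0 : ℝ), ker (G - t * I) (Real.pi * I * k - ρ) w

/-- the frequencies `m = 0` -/
noncomputable def M0 (N G t : ℝ) : ℝ := 2 * (∑' h : ℕ, II G t 0 ((h + 1 : ℝ) / N)).re

/-- fluctuation of the local mean square -/
noncomputable def Z (N G t : ℝ) : ℝ := B N G t - mN N - M0 N G t

/-- number of divisors -/
def dv (k : ℕ) : ℕ := (Nat.divisors k).card

/-- phase `2 √(2πkt) + (√2/6) (πk)^{3/2} t^{-1/2}` -/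
noncomputable def ph (k t : ℝ) : ℝ :=
  2 * Real.sqrt (2 * Real.pi * k * t) +
    Real.sqrt 2 / 6 * (Real.pi * k * Real.sqrt (Real.pi * k)) / Real.sqrt t

/-- main term of `II G t k ρ` for `k ≥ 1` -/
noncomputable def J0 (G t : ℝ) (k : ℕ) : ℂ :=
  (((Real.pi / 2) ^ (1 / 4 : ℝ) * ((k : ℝ) * t) ^ (-(1 / 4) : ℝ) *
    Real.exp (-(G * Real.sqrt (2 * Real.pi * k / t))) : ℝ) : ℂ) *
    cexp (I * ((ph k t + Real.pi / 4 : ℝ) : ℂ))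

/-- dual sum -/
noncomputable def Y (G t : ℝ) (K : ℕ) : ℂ :=
  ∑ k ∈ Finset.Ico 1 K, ((-1) ^ k * (dv k : ℂ)) * J0 G t k

/-- weight -/
noncomputable def W (T t : ℝ) : ℝ := Real.exp (-(Real.sqrt (t / T)) - Real.sqrt (T / t))

/-- window width, length, truncation -/
noncomputable def GG (η T : ℝ) : ℝ := T ^ (1 / 4 - η)
noncomputable def NN (T : ℝ) : ℝ := T ^ (3 / 2 : ℝ)
noncomputable def KK (η ε T : ℝ) : ℕ := ⌈T ^ (1 / 2 + 2 * η + 4 * ε)⌉₊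

/-- `q(k) = (k₃-k₁-k₂)² - 4 k₁ k₂` -/
def q (k : ℕ × ℕ × ℕ) : ℤ := ((k.2.2 : ℤ) - k.1 - k.2.1) ^ 2 - 4 * k.1 * k.2.1

/-- stationary point `2 π k₁ k₂ k₃ / q` -/
noncomputable def t0 (k : ℕ × ℕ × ℕ) : ℝ := 2 * Real.pi * (k.1 * k.2.1 * k.2.2 : ℝ) / (q k : ℝ)

/-- `√k₁ + √k₂ + σ √k₃` and `k₁^{3/2} + k₂^{3/2} + σ k₃^{3/2}` with their constants -/
noncomputable def e1 (σ : ℝ) (k : ℕ × ℕ × ℕ) : ℝ :=
  2 * Real.sqrt (2 * Real.pi) * (Real.sqrt k.1 + Real.sqrt k.2.1 + σ * Real.sqrt k.2.2)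
noncomputable def e3 (σ : ℝ) (k : ℕ × ℕ × ℕ) : ℝ :=
  Real.sqrt 2 / 6 * (Real.pi * Real.sqrt Real.pi) *
    (k.1 * Real.sqrt k.1 + k.2.1 * Real.sqrt k.2.1 + σ * (k.2.2 * Real.sqrt k.2.2))
noncomputable def ga (G : ℝ) (k : ℕ × ℕ × ℕ) : ℝ :=
  G * Real.sqrt (2 * Real.pi) * (Real.sqrt k.1 + Real.sqrt k.2.1 + Real.sqrt k.2.2)

/-- value of `∫_0^∞ x^{-1/2} exp(-(1/X - i e₁) x - (X + γ - i e₃)/x) dx`, `X = √T` -/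
noncomputable def E3 (T G σ : ℝ) (k : ℕ × ℕ × ℕ) : ℂ :=
  let a : ℂ := ((1 / Real.sqrt T : ℝ) : ℂ) - I * (e1 σ k : ℝ)
  let b : ℂ := ((Real.sqrt T + ga G k : ℝ) : ℂ) - I * (e3 σ k : ℝ)
  Real.sqrt Real.pi / a ^ (1 / 2 : ℂ) * cexp (-(2 * (a ^ (1 / 2 : ℂ) * b ^ (1 / 2 : ℂ))))

/-- main term of `E3` for `σ = -1` near the resonance -/
noncomputable def E3main (T G : ℝ) (k : ℕ × ℕ × ℕ) : ℂ :=
  ((Real.sqrt 2 * (2 * Real.pi) ^ (-(1 / 4) : ℝ) *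
    ((k.1 * k.2.1 * k.2.2 : ℝ)) ^ (-(1 / 4) : ℝ) * Real.sqrt (t0 k) *
    Real.exp (-(Real.sqrt (t0 k / T)) - Real.sqrt (T / t0 k) - ga G k / Real.sqrt (t0 k)) : ℝ) : ℂ) *
    cexp (-(I * ((Real.pi / 4 + Real.pi * Real.sqrt (q k : ℝ) : ℝ) : ℂ)))

/-- the box `[1,K)³` -/
def box (K : ℕ) : Finset (ℕ × ℕ × ℕ) := Finset.Ico 1 K ×ˢ Finset.Ico 1 K ×ˢ Finset.Ico 1 K

/-- resonant triples -/
def Res (T ε : ℝ) (k : ℕ × ℕ × ℕ) : Prop :=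
  0 < q k ∧ k.1 + k.2.1 < k.2.2 ∧ T ^ (1 - 20 * ε) ≤ t0 k ∧ t0 k ≤ T ^ (1 + 20 * ε)

/-- coefficient `(-1)^{k₁+k₂+k₃} d(k₁) d(k₂) d(k₃) (k₁k₂k₃)^{-1/4}` -/
noncomputable def cf (k : ℕ × ℕ × ℕ) : ℂ :=
  (-1) ^ (k.1 + k.2.1 + k.2.2) * ((dv k.1 * dv k.2.1 * dv k.2.2 : ℕ) : ℂ) *
    (((k.1 * k.2.1 * k.2.2 : ℝ) ^ (-(1 / 4) : ℝ) : ℝ) : ℂ)

/-- Step (3), owner helper11: power saving in the cone sum with arbitrary coefficients. -/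
def ConeSum : Prop :=
  ∃ C : ℝ, 0 ≤ C ∧ ∀ K κ X L : ℝ, 1 ≤ K → 1 ≤ κ → 0 ≤ L → K ^ 2 / κ ≤ X → X ≤ κ * K ^ 2 →
    ∀ a b c : ℕ → ℂ, (∀ n, ‖a n‖ ≤ 1) → (∀ n, ‖b n‖ ≤ 1) → (∀ n, ‖c n‖ ≤ 1) →
    (∀ n : ℕ, ((n : ℝ) < K / κ ∨ κ * K < n) → a n = 0 ∧ b n = 0 ∧ c n = 0) →
    ∀ w : ℝ → ℂ, (∀ x, ‖w x‖ ≤ 1) → (∀ x, (x < X ∨ κ * X < x) → w x = 0) →
    (∀ x y, ‖w x - w y‖ ≤ L / X * |x - y|) →
    ‖∑ k ∈ (box (⌊κ * K⌋₊ + 1)).filter (fun k => 0 < q k ∧ k.1 + k.2.1 < k.2.2),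
        a k.1 * b k.2.1 * c k.2.2 * w ((k.1 * k.2.1 * k.2.2 : ℝ) / (q k : ℝ)) *
          cexp (Real.pi * I * Real.sqrt (q k : ℝ))‖ ≤ C * (1 + L) * κ ^ C * K ^ (2 - 1 / 36 : ℝ)

end U6
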