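import Pool.Agent.Lib.MP_39df77_nt.U6.Defs
import Pool.Agent.Lib.MP_0f5a55_nt.V.V16

/-! A07: `D` approximates zeta: trapezoid rule (second order) for `x^(-s) (1 - e^(-x/N))` with an
approximate primitive, and the partial sums of the first order formula for zeta. -/

open Complex MeasureTheory Set Filter Topology

namespace U6

/-- trapezoid rule with an approximate primitive -/
theorem A07_trap {g g1 g2 P P1 : ℝ → ℂ} {a B E : ℝ}
    (hg : ∀ x ∈ Icc a (a + 1), HasDerivAt g (g1 x) x)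
    (hg1 : ∀ x ∈ Icc a (a + 1), HasDerivAt g1 (g2 x) x)
    (hP : ∀ x ∈ Icc a (a + 1), HasDerivAt P (P1 x) x)
    (hB : ∀ x ∈ Icc a (a + 1), ‖g2 x‖ ≤ B) (hE : ∀ x ∈ Icc a (a + 1), ‖P1 x - g x‖ ≤ E) :
    ‖P (a + 1) - P a - (g a + g (a + 1)) / 2‖ ≤ E + B / 2 := by
  have ha : a ∈ Icc a (a + 1) := ⟨le_rfl, by linarith⟩
  have ha1 : a + 1 ∈ Icc a (a + 1) := ⟨by linarith, le_rfl⟩
  have hB0 : 0 ≤ B := (norm_nonneg _).trans (hB a ha)
  -- first order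
  have h1 : ∀ x ∈ Icc a (a + 1), ∀ y ∈ Icc a (a + 1), ‖g1 y - g1 x‖ ≤ B := by
    intro x hx y hy
    have h := Convex.norm_image_sub_le_of_norm_hasDerivWithin_le (𝕜 := ℝ) (f := g1) (f' := g2)
      (s := Icc a (a + 1)) (x := x) (y := y) (C := B) (fun z hz => (hg1 z hz).hasDerivWithinAt) hB
      (convex_Icc _ _) hx hy
    refine h.trans ?_
    have h2 : ‖y - x‖ ≤ 1 := by
      rw [Real.norm_eq_abs, abs_le]
      constructor <;> linarith [hx.1, hx.2, hy.1, hy.2]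
    calc B * ‖y - x‖ ≤ B * 1 := by gcongr
      _ = B := mul_one B
  -- second order
  have h2 : ∀ x ∈ Icc a (a + 1), ‖(g x - x * g1 x) - (g a - a * g1 x)‖ ≤ B := by
    intro x hx
    have h := Convex.norm_image_sub_le_of_norm_hasDerivWithin_le (𝕜 := ℝ) (f := fun y : ℝ => g y - y * g1 x)
      (f' := fun y => g1 y - g1 x)
      (s := Icc a (a + 1)) (x := a) (y := x) (C := B) (fun z hz => by
        have h3 : HasDerivAt (fun y : ℝ => (y : ℂ) * g1 x) (g1 x) z := by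
          simpa using (Complex.ofRealCLM.hasDerivAt (x := z)).mul_const (g1 x)
        exact ((hg z hz).sub h3).hasDerivWithinAt) (fun z hz => h1 x hx z hz)
      (convex_Icc _ _) ha hx
    refine h.trans ?_
    have h2 : ‖x - a‖ ≤ 1 := by
      rw [Real.norm_eq_abs, abs_le]
      constructor <;> linarith [hx.1, hx.2]
    calc B * ‖x - a‖ ≤ B * 1 := by gcongr
      _ = B := mul_one B
  have h3 := Convex.norm_image_sub_le_of_norm_hasDerivWithin_le (𝕜 := ℝ)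
    (f := fun x : ℝ => P x - ((x : ℂ) - a) * (g a + g x) / 2)
    (f' := fun x => P1 x - ((g a + g x) + ((x : ℂ) - a) * g1 x) / 2)
    (s := Icc a (a + 1)) (x := a) (y := a + 1) (C := E + B / 2) (fun z hz => by
      have h4 : HasDerivAt (fun x : ℝ => ((x : ℂ) - a)) 1 z := by
        simpa using (Complex.ofRealCLM.hasDerivAt (x := z)).sub_const (a : ℂ)
      have h5 : HasDerivAt (fun x : ℝ => g a + g x) (g1 z) z := (hg z hz).const_add (g a)
      have h6 := (h4.mul h5).div_const 2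
      have h7 := (hP z hz).sub h6
      have h8 : HasDerivAt (fun x : ℝ => P x - ((x : ℂ) - a) * (g a + g x) / 2)
          (P1 z - (1 * (g a + g z) + ((z : ℂ) - a) * g1 z) / 2) z := h7
      rw [one_mul] at h8
      exact h8.hasDerivWithinAt) (fun z hz => by
      have h4 : P1 z - ((g a + g z) + ((z : ℂ) - a) * g1 z) / 2 =
          (P1 z - g z) + ((g z - z * g1 z) - (g a - a * g1 z)) / 2 := by ring
      rw [h4]
      refine (norm_add_le _ _).trans (add_le_add (hE z hz) ?_)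
      rw [norm_div]
      have h5 := h2 z hz
      have h6 : ‖(2 : ℂ)‖ = 2 := by norm_num
      rw [h6]
      linarith) (convex_Icc _ _) ha ha1
  have h4 : P (a + 1) - P a - (g a + g (a + 1)) / 2 =
      (fun x : ℝ => P x - ((x : ℂ) - a) * (g a + g x) / 2) (a + 1) -
      (fun x : ℝ => P x - ((x : ℂ) - a) * (g a + g x) / 2) a := by
    simp only
    push_cast
    ring
  rw [h4]
  refine h3.trans ?_
  have h5 : ‖a + 1 - a‖ = 1 := by
    rw [show a + 1 - a = 1 by ring, norm_one]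
  rw [h5, mul_one]

/-- the weight -/
noncomputable def A07_ee (N x : ℝ) : ℂ := exp (-(x : ℂ) / N)

theorem A07_ee_norm (N x : ℝ) : ‖A07_ee N x‖ = Real.exp (-x / N) := by
  unfold A07_ee
  rw [norm_exp]
  congr 1
  have : (-(x : ℂ) / N) = ((-x / N : ℝ) : ℂ) := by push_cast; ring
  rw [this, ofReal_re]

theorem A07_ee_eq (N x : ℝ) : A07_ee N x = (Real.exp (-x / N) : ℂ) := by
  unfold A07_ee
  push_cast
  rfl

theorem A07_one_sub_norm {N x : ℝ} (hN : 0 < N) (hx : 0 ≤ x) : ‖1 - A07_ee N x‖ ≤ x / N := by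
  rw [A07_ee_eq]
  have h1 : (1 - (Real.exp (-x / N) : ℂ)) = ((1 - Real.exp (-x / N) : ℝ) : ℂ) := by push_cast; rfl
  rw [h1, norm_real, Real.norm_eq_abs]
  have h2 : Real.exp (-x / N) ≤ 1 := by
    rw [Real.exp_le_one_iff]
    exact div_nonpos_of_nonpos_of_nonneg (by linarith) hN.le
  rw [abs_of_nonneg (by linarith)]
  have h3 := Real.add_one_le_exp (-x / N)
  have h4 : -x / N = -(x / N) := by ring
  rw [h4] at h3 ⊢
  linarith

theorem A07_one_sub_norm1 {N x : ℝ} (hN : 0 < N) (hx : 0 ≤ x) : ‖1 - A07_ee N x‖ ≤ 1 := by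
  rw [A07_ee_eq]
  have h1 : (1 - (Real.exp (-x / N) : ℂ)) = ((1 - Real.exp (-x / N) : ℝ) : ℂ) := by push_cast; rfl
  rw [h1, norm_real, Real.norm_eq_abs]
  have h2 : Real.exp (-x / N) ≤ 1 := by
    rw [Real.exp_le_one_iff]
    exact div_nonpos_of_nonpos_of_nonneg (by linarith) hN.le
  rw [abs_of_nonneg (by linarith)]
  have h3 := Real.exp_pos (-x / N)
  linarith

theorem A07_ee_le {N x : ℝ} (hN : 0 < N) (hx : 0 < x) : ‖A07_ee N x‖ ≤ N / x := by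
  rw [A07_ee_norm]
  have h1 : -x / N = -(x / N) := by ring
  rw [h1, Real.exp_neg]
  have h2 : x / N ≤ Real.exp (x / N) := by
    have := Real.add_one_le_exp (x / N)
    linarith
  have h3 : 0 < x / N := by positivity
  calc (Real.exp (x / N))⁻¹ ≤ (x / N)⁻¹ := inv_anti₀ h3 h2
    _ = N / x := by rw [inv_div]

theorem A07_ee_le_one {N x : ℝ} (hN : 0 < N) (hx : 0 ≤ x) : ‖A07_ee N x‖ ≤ 1 := by
  rw [A07_ee_norm, Real.exp_le_one_iff]
  exact div_nonpos_of_nonpos_of_nonneg (by linarith) hN.le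

theorem A07_ee_deriv (N x : ℝ) : HasDerivAt (A07_ee N) (-(A07_ee N x / N)) x := by
  unfold A07_ee
  have h1 : HasDerivAt (fun z : ℂ => exp (-z / N)) (exp (-(x : ℂ) / N) * (-1 / N)) x := by
    have h2 : HasDerivAt (fun z : ℂ => -z / N) (-1 / N) (x : ℂ) := ((hasDerivAt_id (x : ℂ)).neg).div_const _
    exact h2.cexp
  have h3 := h1.comp_ofReal
  refine h3.congr_deriv ?_
  ring

theorem A07_cpow_deriv {x : ℝ} (hx : 0 < x) (c : ℂ) : HasDerivAt (fun x : ℝ => (x : ℂ) ^ c) (c * (x : ℂ) ^ (c - 1)) x := by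
  have h2 : (x : ℂ) ∈ slitPlane := ofReal_mem_slitPlane.2 hx
  have h3 : HasDerivAt (fun z : ℂ => z ^ c) (c * (x : ℂ) ^ (c - 1) * 1) (x : ℂ) := (hasDerivAt_id _).cpow_const h2
  rw [mul_one] at h3
  exact h3.comp_ofReal

theorem A07_cpow_norm {x : ℝ} (hx : 0 < x) (c : ℂ) : ‖(x : ℂ) ^ c‖ = x ^ c.re :=
  norm_cpow_eq_rpow_re_of_pos hx c

/-- the term of zeta minus D -/
noncomputable def A07_gg (s : ℂ) (N x : ℝ) : ℂ := (x : ℂ) ^ (-s) * (1 - A07_ee N x)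

noncomputable def A07_gg1 (s : ℂ) (N x : ℝ) : ℂ := -s * (x : ℂ) ^ (-s - 1) * (1 - A07_ee N x) + (x : ℂ) ^ (-s) * (A07_ee N x / N)

noncomputable def A07_gg2 (s : ℂ) (N x : ℝ) : ℂ := s * (s + 1) * (x : ℂ) ^ (-s - 2) * (1 - A07_ee N x) -
  2 * s * (x : ℂ) ^ (-s - 1) * (A07_ee N x / N) - (x : ℂ) ^ (-s) * (A07_ee N x / N / N)

noncomputable def A07_PP (s : ℂ) (N x : ℝ) : ℂ := (x : ℂ) ^ (1 - s) / (1 - s) * (1 - A07_ee N x)

noncomputable def A07_PP1 (s : ℂ) (N x : ℝ) : ℂ := A07_gg s N x + (x : ℂ) ^ (1 - s) / (1 - s) * (A07_ee N x / N)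

theorem A07_gg_deriv (s : ℂ) (N : ℝ) {x : ℝ} (hx : 0 < x) : HasDerivAt (A07_gg s N) (A07_gg1 s N x) x := by
  have h1 := A07_cpow_deriv hx (-s)
  have h2 : HasDerivAt (fun x : ℝ => 1 - A07_ee N x) (A07_ee N x / N) x := by
    refine ((A07_ee_deriv N x).const_sub 1).congr_deriv ?_
    ring
  exact h1.mul h2

theorem A07_gg1_deriv (s : ℂ) (N : ℝ) {x : ℝ} (hx : 0 < x) : HasDerivAt (A07_gg1 s N) (A07_gg2 s N x) x := by
  have h1 := (A07_cpow_deriv hx (-s - 1)).const_mul (-s)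
  have h2 : HasDerivAt (fun x : ℝ => 1 - A07_ee N x) (A07_ee N x / N) x := by
    refine ((A07_ee_deriv N x).const_sub 1).congr_deriv ?_
    ring
  have h3 := A07_cpow_deriv hx (-s)
  have h4 : HasDerivAt (fun x : ℝ => A07_ee N x / N) (-(A07_ee N x / N) / N) x := (A07_ee_deriv N x).div_const _
  have h5 := (h1.mul h2).add (h3.mul h4)
  have h6 : HasDerivAt (A07_gg1 s N) _ x := h5
  refine h6.congr_deriv ?_
  unfold A07_gg2
  have e1 : (-s - 1 - 1 : ℂ) = -s - 2 := by ring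
  rw [e1]
  ring

theorem A07_PP_deriv {s : ℂ} (hs : s ≠ 1) (N : ℝ) {x : ℝ} (hx : 0 < x) : HasDerivAt (A07_PP s N) (A07_PP1 s N x) x := by
  have h1 := (A07_cpow_deriv hx (1 - s)).div_const (1 - s)
  have h2 : HasDerivAt (fun x : ℝ => 1 - A07_ee N x) (A07_ee N x / N) x := by
    refine ((A07_ee_deriv N x).const_sub 1).congr_deriv ?_
    ring
  have h3 : HasDerivAt (A07_PP s N) _ x := h1.mul h2
  refine h3.congr_deriv ?_
  unfold A07_PP1 A07_gg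
  have e1 : (1 - s - 1 : ℂ) = -s := by ring
  have e2 : (1 - s : ℂ) ≠ 0 := sub_ne_zero.2 (Ne.symm hs)
  rw [e1]
  field_simp

theorem A07_half_re (t : ℝ) : (1/2 + t * I : ℂ).re = 1/2 := by
  simp

theorem A07_gg2_bound (t : ℝ) {N x : ℝ} (hN : 0 < N) (hx : 0 < x) :
    ‖A07_gg2 (1/2 + t * I) N x‖ ≤
      (‖(1/2 + t * I : ℂ)‖ * ‖(1/2 + t * I : ℂ) + 1‖ + 2 * ‖(1/2 + t * I : ℂ)‖ + 1) * (x ^ (-(3/2) : ℝ) / N) := by
  set s : ℂ := 1/2 + t * I with hs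
  have hre : s.re = 1/2 := A07_half_re t
  have n1 : ‖(x : ℂ) ^ (-s - 2)‖ = x ^ (-(5/2) : ℝ) := by
    rw [A07_cpow_norm hx]
    congr 1
    rw [sub_re, neg_re, hre]
    norm_num
  have n2 : ‖(x : ℂ) ^ (-s - 1)‖ = x ^ (-(3/2) : ℝ) := by
    rw [A07_cpow_norm hx]
    congr 1
    rw [sub_re, neg_re, hre]
    norm_num
  have n3 : ‖(x : ℂ) ^ (-s)‖ = x ^ (-(1/2) : ℝ) := by
    rw [A07_cpow_norm hx]
    congr 1
    rw [neg_re, hre]
  have hNn : ‖(N : ℂ)‖ = N := by rw [norm_real, Real.norm_eq_abs, abs_of_pos hN]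
  have e1 : x ^ (-(5/2) : ℝ) * x = x ^ (-(3/2) : ℝ) := by
    have h := Real.rpow_add hx (-(5/2)) 1
    rw [Real.rpow_one] at h
    rw [← h]
    norm_num
  have e3 : x ^ (-(1/2) : ℝ) / x = x ^ (-(3/2) : ℝ) := by
    have h := Real.rpow_sub hx (-(1/2)) 1
    rw [Real.rpow_one] at h
    rw [← h]
    norm_num
  have b1 : ‖s * (s + 1) * (x : ℂ) ^ (-s - 2) * (1 - A07_ee N x)‖ ≤ ‖s‖ * ‖s + 1‖ * (x ^ (-(3/2) : ℝ) / N) := by
    rw [norm_mul, norm_mul, norm_mul, n1]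
    have h := A07_one_sub_norm hN hx.le
    calc ‖s‖ * ‖s + 1‖ * x ^ (-(5/2) : ℝ) * ‖1 - A07_ee N x‖ ≤ ‖s‖ * ‖s + 1‖ * x ^ (-(5/2) : ℝ) * (x / N) := by gcongr
      _ = ‖s‖ * ‖s + 1‖ * ((x ^ (-(5/2) : ℝ) * x) / N) := by ring
      _ = _ := by rw [e1]
  have b2 : ‖2 * s * (x : ℂ) ^ (-s - 1) * (A07_ee N x / N)‖ ≤ 2 * ‖s‖ * (x ^ (-(3/2) : ℝ) / N) := by
    rw [norm_mul, norm_mul, norm_mul, n2, norm_div, hNn]
    have h := A07_ee_le_one hN hx.le
    have h2 : ‖(2 : ℂ)‖ = 2 := by norm_num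
    rw [h2]
    calc 2 * ‖s‖ * x ^ (-(3/2) : ℝ) * (‖A07_ee N x‖ / N) ≤ 2 * ‖s‖ * x ^ (-(3/2) : ℝ) * (1 / N) := by gcongr
      _ = _ := by ring
  have b3 : ‖(x : ℂ) ^ (-s) * (A07_ee N x / N / N)‖ ≤ x ^ (-(3/2) : ℝ) / N := by
    rw [norm_mul, n3, norm_div, norm_div, hNn]
    have h := A07_ee_le hN hx
    calc x ^ (-(1/2) : ℝ) * (‖A07_ee N x‖ / N / N) ≤ x ^ (-(1/2) : ℝ) * (N / x / N / N) := by gcongr
      _ = (x ^ (-(1/2) : ℝ) / x) / N := by field_simp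
      _ = _ := by rw [e3]
  unfold A07_gg2
  refine (norm_sub_le _ _).trans ((add_le_add (norm_sub_le _ _) le_rfl).trans ?_)
  have e : (‖s‖ * ‖s + 1‖ + 2 * ‖s‖ + 1) * (x ^ (-(3/2) : ℝ) / N) =
      ‖s‖ * ‖s + 1‖ * (x ^ (-(3/2) : ℝ) / N) + 2 * ‖s‖ * (x ^ (-(3/2) : ℝ) / N) + x ^ (-(3/2) : ℝ) / N := by ring
  rw [e]
  exact add_le_add (add_le_add b1 b2) b3

theorem A07_one_sub_s_norm (t : ℝ) : |t| ≤ ‖(1 - (1/2 + t * I) : ℂ)‖ := by
  have h := abs_im_le_norm (1 - (1/2 + t * I) : ℂ)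
  have e : (1 - (1/2 + t * I) : ℂ).im = -t := by simp
  rwa [e, abs_neg] at h

theorem A07_PP_norm (t : ℝ) {x : ℝ} (hx : 0 < x) (ht : 0 < |t|) :
    ‖(x : ℂ) ^ (1 - (1/2 + t * I : ℂ)) / (1 - (1/2 + t * I : ℂ))‖ ≤ √x / |t| := by
  rw [norm_div, A07_cpow_norm hx]
  have e : (1 - (1/2 + t * I : ℂ)).re = 1/2 := by
    rw [sub_re, A07_half_re]
    norm_num
  rw [e, ← Real.sqrt_eq_rpow]
  exact div_le_div_of_nonneg_left (Real.sqrt_nonneg _) ht (A07_one_sub_s_norm t)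

/-- telescoping majorant -/
theorem A07_tel (n : ℕ) : ((n : ℝ) + 1) ^ (-(3/2) : ℝ) ≤ 4 * (1 / √((n : ℝ) + 1) - 1 / √((n : ℝ) + 2)) := by
  set a := √((n : ℝ) + 1) with ha
  set b := √((n : ℝ) + 2) with hb
  have hn : (0 : ℝ) ≤ n := Nat.cast_nonneg n
  have ha2 : a ^ 2 = n + 1 := Real.sq_sqrt (by linarith)
  have hb2 : b ^ 2 = n + 2 := Real.sq_sqrt (by linarith)
  have ha0 : 0 < a := Real.sqrt_pos.2 (by linarith)
  have hb0 : 0 < b := Real.sqrt_pos.2 (by linarith)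
  have e1 : ((n : ℝ) + 1) ^ (-(3/2) : ℝ) = 1 / a ^ 3 := by
    rw [Real.rpow_neg (by linarith), ha, Real.sqrt_eq_rpow, ← Real.rpow_natCast, ← Real.rpow_mul (by linarith),
      one_div]
    norm_num
  rw [e1]
  have hab : a ≤ b := Real.sqrt_le_sqrt (by linarith)
  have e2 : 1 / a - 1 / b = (b - a) / (a * b) := by field_simp
  have h3 : (b - a) * (b + a) = 1 := by nlinarith
  have h4 : b - a = 1 / (b + a) := by
    rw [eq_div_iff (by linarith)]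
    exact h3
  rw [e2, h4, div_div]
  have e4 : 4 * (1 / ((b + a) * (a * b))) = 4 / ((b + a) * (a * b)) := by ring
  rw [e4, div_le_div_iff₀ (by positivity) (by positivity)]
  have h5 : b ≤ 2 * a := by nlinarith
  have h6 : b ^ 2 ≤ 2 * a ^ 2 := by nlinarith
  have h7 : (b + a) * b ≤ 4 * a ^ 2 := by nlinarith
  have h8 : (b + a) * (a * b) = a * ((b + a) * b) := by ring
  have h9 : 4 * a ^ 3 = a * (4 * a ^ 2) := by ring
  rw [one_mul, h8, h9]
  exact mul_le_mul_of_nonneg_left h7 ha0.le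

theorem A07_tel_sum (a b : ℕ) (hab : a ≤ b) : ∑ n ∈ Finset.Ico a b, ((n : ℝ) + 1) ^ (-(3/2) : ℝ) ≤ 4 / √((a : ℝ) + 1) := by
  have h1 : ∑ n ∈ Finset.Ico a b, ((n : ℝ) + 1) ^ (-(3/2) : ℝ) ≤
      ∑ n ∈ Finset.Ico a b, 4 * (1 / √((n : ℝ) + 1) - 1 / √((n : ℝ) + 2)) := Finset.sum_le_sum fun n _ => A07_tel n
  have h2 : ∑ n ∈ Finset.Ico a b, 4 * (1 / √((n : ℝ) + 1) - 1 / √((n : ℝ) + 2)) =
      4 * (1 / √((a : ℝ) + 1) - 1 / √((b : ℝ) + 1)) := by
    rw [← Finset.mul_sum]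
    congr 1
    have h3 := Finset.sum_Ico_sub (fun n : ℕ => -(1 / √((n : ℝ) + 1))) hab
    have h4 : ∀ n ∈ Finset.Ico a b, (1 / √((n : ℝ) + 1) - 1 / √((n : ℝ) + 2)) =
        (fun n : ℕ => -(1 / √((n : ℝ) + 1))) (n + 1) - (fun n : ℕ => -(1 / √((n : ℝ) + 1))) n := by
      intro n _
      simp only
      push_cast
      rw [show (n : ℝ) + 1 + 1 = n + 2 by ring]
      ring
    rw [Finset.sum_congr rfl h4, h3]
    ring
  rw [h2] at h1
  refine h1.trans ?_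
  have h5 : 0 ≤ 1 / √((b : ℝ) + 1) := by positivity
  have h6 : 4 / √((a : ℝ) + 1) = 4 * (1 / √((a : ℝ) + 1)) := by ring
  rw [h6]
  linarith

theorem A07_geo (N : ℝ) (hN : 1 ≤ N) : Real.exp (-1 / N) < 1 ∧ 1 / (1 - Real.exp (-1 / N)) ≤ 2 * N := by
  have hN0 : 0 < N := by linarith
  have h1 : -1 / N = -(1 / N) := by ring
  have h0 : 0 < 1 / N := by positivity
  have h2 : Real.exp (-1 / N) < 1 := by
    rw [h1, Real.exp_lt_one_iff]
    linarith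
  refine ⟨h2, ?_⟩
  have h3 : Real.exp (1 / N) ≥ 1 / N + 1 := Real.add_one_le_exp _
  have h4 : Real.exp (-1 / N) ≤ (1 / N + 1)⁻¹ := by
    rw [h1, Real.exp_neg]
    exact inv_anti₀ (by positivity) h3
  have h5 : (1 / N + 1)⁻¹ = N / (N + 1) := by
    field_simp
    ring
  have h6 : 1 / (2 * N) ≤ 1 - Real.exp (-1 / N) := by
    have h7 : 1 / (2 * N) ≤ 1 - N / (N + 1) := by
      have e : 1 - N / (N + 1) = 1 / (N + 1) := by field_simp; ring
      rw [e]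
      exact one_div_le_one_div_of_le (by linarith) (by linarith)
    rw [h5] at h4
    linarith
  rw [div_le_iff₀ (by linarith)]
  have h8 : (2 * N) * (1 / (2 * N)) = 1 := by field_simp
  calc 1 = (2 * N) * (1 / (2 * N)) := h8.symm
    _ ≤ 2 * N * (1 - Real.exp (-1 / N)) := by gcongr

/-- sum of sqrt(n+1) exp(-n/N) -/
theorem A07_sqrt_exp_sum (N : ℝ) (hN : 1 ≤ N) (A : Finset ℕ) :
    ∑ n ∈ A, √((n : ℝ) + 1) * Real.exp (-(n : ℝ) / N) ≤ 3 * (N * √N) := by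
  have hN0 : 0 < N := by linarith
  obtain ⟨hq1, hq2⟩ := A07_geo N hN
  set q := Real.exp (-1 / N) with hq
  have hq0 : 0 < q := Real.exp_pos _
  have hqn : ‖q‖ < 1 := by rwa [Real.norm_eq_abs, abs_of_pos hq0]
  have hpow : ∀ n : ℕ, Real.exp (-(n : ℝ) / N) = q ^ n := by
    intro n
    rw [hq, ← Real.exp_nat_mul]
    congr 1
    ring
  set r := √N with hr
  have hr0 : 0 < r := Real.sqrt_pos.2 hN0
  have hr2 : r ^ 2 = N := Real.sq_sqrt hN0.le
  have hs : ∀ n : ℕ, √((n : ℝ) + 1) ≤ ((n : ℝ) + 1) * (1 / (2 * r)) + r / 2 := by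
    intro n
    set y := √((n : ℝ) + 1) with hy
    have hy2 : y ^ 2 = n + 1 := Real.sq_sqrt (by positivity)
    rw [← hy2]
    have h1 : y ^ 2 * (1 / (2 * r)) + r / 2 - y = (y - r) ^ 2 / (2 * r) := by field_simp; ring
    have h2 : 0 ≤ (y - r) ^ 2 / (2 * r) := by positivity
    linarith
  have g1 : HasSum (fun n : ℕ => q ^ n) (1 / (1 - q)) := by
    rw [one_div]
    exact hasSum_geometric_of_norm_lt_one hqn
  have g2 : HasSum (fun n : ℕ => (n : ℝ) * q ^ n) (q / (1 - q) ^ 2) := hasSum_coe_mul_geometric_of_norm_lt_one hqn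
  have hq3 : 1 - q ≠ 0 := by linarith
  have g3 : HasSum (fun n : ℕ => ((n : ℝ) + 1) * q ^ n) ((1 / (1 - q)) ^ 2) := by
    have h := g2.add g1
    have e : q / (1 - q) ^ 2 + 1 / (1 - q) = (1 / (1 - q)) ^ 2 := by field_simp; ring
    rw [e] at h
    refine h.congr_fun ?_
    intro n
    ring
  have g4 : HasSum (fun n : ℕ => (((n : ℝ) + 1) * (1 / (2 * r)) + r / 2) * q ^ n)
      ((1 / (1 - q)) ^ 2 * (1 / (2 * r)) + (1 / (1 - q)) * (r / 2)) := by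
    refine ((g3.mul_right (1 / (2 * r))).add (g1.mul_right (r / 2))).congr_fun ?_
    intro n
    ring
  have h1 : ∑ n ∈ A, √((n : ℝ) + 1) * Real.exp (-(n : ℝ) / N) ≤
      ∑ n ∈ A, (((n : ℝ) + 1) * (1 / (2 * r)) + r / 2) * q ^ n := by
    refine Finset.sum_le_sum fun n _ => ?_
    rw [hpow]
    exact mul_le_mul_of_nonneg_right (hs n) (by positivity)
  have h2 := sum_le_hasSum A (fun n _ => by positivity) g4
  refine h1.trans (h2.trans ?_)
  have h3 : 0 ≤ 1 / (1 - q) := by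
    have : 0 < 1 - q := by linarith
    positivity
  have h4 : (1 / (1 - q)) ^ 2 ≤ (2 * N) ^ 2 := by gcongr
  calc (1 / (1 - q)) ^ 2 * (1 / (2 * r)) + (1 / (1 - q)) * (r / 2)
      ≤ (2 * N) ^ 2 * (1 / (2 * r)) + (2 * N) * (r / 2) := by gcongr
    _ = 3 * (N * r) := by
        rw [← hr2]
        field_simp
        ring

/-- the trapezoid rule for the terms -/
theorem A07_step (t : ℝ) (ht : 0 < |t|) {N : ℝ} (hN : 0 < N) (n : ℕ) :
    ‖A07_PP (1/2 + t * I) N ((n : ℝ) + 1 + 1) - A07_PP (1/2 + t * I) N ((n : ℝ) + 1) -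
      (A07_gg (1/2 + t * I) N ((n : ℝ) + 1) + A07_gg (1/2 + t * I) N ((n : ℝ) + 1 + 1)) / 2‖ ≤
    2 * (√((n : ℝ) + 1) * Real.exp (-(n : ℝ) / N)) / (|t| * N) +
      (‖(1/2 + t * I : ℂ)‖ * ‖(1/2 + t * I : ℂ) + 1‖ + 2 * ‖(1/2 + t * I : ℂ)‖ + 1) *
        (((n : ℝ) + 1) ^ (-(3/2) : ℝ) / N) / 2 := by
  have hn : (0 : ℝ) ≤ n := Nat.cast_nonneg n
  have hne : (1/2 + t * I : ℂ) ≠ 1 := by
    intro h
    have h1 := A07_one_sub_s_norm t
    rw [h, sub_self, norm_zero] at h1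
    linarith
  refine A07_trap (g := A07_gg (1/2 + t * I) N) (g1 := A07_gg1 (1/2 + t * I) N) (g2 := A07_gg2 (1/2 + t * I) N)
    (P := A07_PP (1/2 + t * I) N) (P1 := A07_PP1 (1/2 + t * I) N) (a := (n : ℝ) + 1) ?_ ?_ ?_ ?_ ?_
  · intro x hx
    exact A07_gg_deriv _ _ (by linarith [hx.1])
  · intro x hx
    exact A07_gg1_deriv _ _ (by linarith [hx.1])
  · intro x hx
    exact A07_PP_deriv hne _ (by linarith [hx.1])
  · intro x hx
    refine (A07_gg2_bound t hN (by linarith [hx.1])).trans ?_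
    have h1 : x ^ (-(3/2) : ℝ) ≤ ((n : ℝ) + 1) ^ (-(3/2) : ℝ) :=
      Real.rpow_le_rpow_of_nonpos (by linarith) hx.1 (by norm_num)
    gcongr
  · intro x hx
    have hx0 : 0 < x := by linarith [hx.1]
    have e1 : A07_PP1 (1/2 + t * I) N x - A07_gg (1/2 + t * I) N x =
        (x : ℂ) ^ (1 - (1/2 + t * I : ℂ)) / (1 - (1/2 + t * I : ℂ)) * (A07_ee N x / N) := by
      unfold A07_PP1
      ring
    rw [e1, norm_mul, norm_div (A07_ee N x), A07_ee_norm]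
    have hNn : ‖(N : ℂ)‖ = N := by rw [norm_real, Real.norm_eq_abs, abs_of_pos hN]
    rw [hNn]
    have h1 := A07_PP_norm t hx0 ht
    have h2 : √x ≤ 2 * √((n : ℝ) + 1) := by
      have h3 : x ≤ 2 ^ 2 * ((n : ℝ) + 1) := by linarith [hx.2]
      calc √x ≤ √(2 ^ 2 * ((n : ℝ) + 1)) := Real.sqrt_le_sqrt h3
        _ = 2 * √((n : ℝ) + 1) := by
          rw [Real.sqrt_mul (by norm_num), Real.sqrt_sq (by norm_num)]
    have h3 : Real.exp (-x / N) ≤ Real.exp (-(n : ℝ) / N) := by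
      apply Real.exp_le_exp.2
      apply div_le_div_of_nonneg_right _ hN.le
      linarith [hx.1]
    calc ‖(x : ℂ) ^ (1 - (1/2 + t * I : ℂ)) / (1 - (1/2 + t * I : ℂ))‖ * (Real.exp (-x / N) / N)
        ≤ (√x / |t|) * (Real.exp (-x / N) / N) := by gcongr
      _ ≤ (2 * √((n : ℝ) + 1) / |t|) * (Real.exp (-(n : ℝ) / N) / N) := by gcongr
      _ = _ := by
        field_simp

theorem A07_gg_norm (t : ℝ) {N x : ℝ} (hN : 0 < N) (hx : 0 < x) :
    ‖A07_gg (1/2 + t * I) N x‖ ≤ √x / N := by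
  unfold A07_gg
  rw [norm_mul, A07_cpow_norm hx]
  have e : (-(1/2 + t * I : ℂ)).re = -(1/2) := by rw [neg_re, A07_half_re]
  rw [e]
  have h := A07_one_sub_norm hN hx.le
  have e2 : x ^ (-(1/2) : ℝ) * x = √x := by
    have h1 := Real.rpow_add hx (-(1/2)) 1
    rw [Real.rpow_one] at h1
    rw [← h1, Real.sqrt_eq_rpow]
    norm_num
  calc x ^ (-(1/2) : ℝ) * ‖1 - A07_ee N x‖ ≤ x ^ (-(1/2) : ℝ) * (x / N) := by gcongr
    _ = (x ^ (-(1/2) : ℝ) * x) / N := by ring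
    _ = _ := by rw [e2]

theorem A07_gg_norm1 (t : ℝ) {N x : ℝ} (hN : 0 < N) (hx : 1 ≤ x) :
    ‖A07_gg (1/2 + t * I) N x‖ ≤ 1 := by
  unfold A07_gg
  rw [norm_mul, A07_cpow_norm (by linarith)]
  have e : (-(1/2 + t * I : ℂ)).re = -(1/2) := by rw [neg_re, A07_half_re]
  rw [e]
  have h := A07_one_sub_norm1 hN (by linarith : 0 ≤ x)
  have h2 : x ^ (-(1/2) : ℝ) ≤ 1 := Real.rpow_le_one_of_one_le_of_nonpos hx (by norm_num)
  calc x ^ (-(1/2) : ℝ) * ‖1 - A07_ee N x‖ ≤ 1 * 1 := by gcongr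
    _ = 1 := one_mul 1

/-- the bound for partial sums -/
theorem A07_part (t : ℝ) (ht : 0 < |t|) {N : ℝ} (hN : 1 ≤ N) (m K : ℕ) (hmK : m ≤ K) :
    ‖∑ n ∈ Finset.range K, A07_gg (1/2 + t * I) N ((n : ℝ) + 1) +
      (((K : ℝ) + 1 : ℝ) : ℂ) ^ (1 - (1/2 + t * I : ℂ)) / ((1/2 + t * I : ℂ) - 1)‖ ≤
    m * √(m : ℝ) / N + √N / |t| + √((m : ℝ) + 1) / |t| * (((m : ℝ) + 1) / N) + 6 * √N / |t| +
      (‖(1/2 + t * I : ℂ)‖ * ‖(1/2 + t * I : ℂ) + 1‖ + 2 * ‖(1/2 + t * I : ℂ)‖ + 1) *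
        (4 / √((m : ℝ) + 1) / N) / 2 + 1 := by
  have hN0 : 0 < N := by linarith
  set s : ℂ := 1/2 + t * I with hs
  set a : ℕ → ℂ := fun n => A07_gg s N ((n : ℝ) + 1) with ha
  set p : ℕ → ℂ := fun n => A07_PP s N ((n : ℝ) + 1) with hp
  set Δ : ℕ → ℂ := fun n => p (n + 1) - p n - (a n + a (n + 1)) / 2 with hΔ
  have hne : (1 - s : ℂ) ≠ 0 := by
    intro h
    have h1 := A07_one_sub_s_norm t
    rw [← hs, h, norm_zero] at h1
    linarith
  have hsum : ∑ n ∈ Finset.Ico m K, a n = (p K - p m) - ∑ n ∈ Finset.Ico m K, Δ n - (a K - a m) / 2 := by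
    have h1 := Finset.sum_Ico_sub p hmK
    have h2 := Finset.sum_Ico_sub a hmK
    rw [← h1, ← h2, Finset.sum_div, ← Finset.sum_sub_distrib, ← Finset.sum_sub_distrib]
    refine Finset.sum_congr rfl fun n _ => ?_
    simp only [hΔ]
    ring
  have hsplit : ∑ n ∈ Finset.range K, a n = ∑ n ∈ Finset.range m, a n + ∑ n ∈ Finset.Ico m K, a n :=
    (Finset.sum_range_add_sum_Ico _ hmK).symm
  have hpK : p K + (((K : ℝ) + 1 : ℝ) : ℂ) ^ (1 - s) / (s - 1) =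
      -((((K : ℝ) + 1 : ℝ) : ℂ) ^ (1 - s) / (1 - s) * A07_ee N ((K : ℝ) + 1)) := by
    simp only [hp, A07_PP]
    have h1 : (s - 1 : ℂ) = -(1 - s) := by ring
    rw [h1, div_neg]
    ring
  have hK1 : (0 : ℝ) < (K : ℝ) + 1 := by positivity
  have hm1 : (0 : ℝ) < (m : ℝ) + 1 := by positivity
  -- pieces
  have b1 : ‖∑ n ∈ Finset.range m, a n‖ ≤ m * √(m : ℝ) / N := by
    refine (norm_sum_le _ _).trans ?_
    have h1 : ∀ n ∈ Finset.range m, ‖a n‖ ≤ √(m : ℝ) / N := by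
      intro n hn
      refine (A07_gg_norm t hN0 (by positivity)).trans ?_
      apply div_le_div_of_nonneg_right _ hN0.le
      apply Real.sqrt_le_sqrt
      have := Finset.mem_range.1 hn
      exact_mod_cast this
    refine (Finset.sum_le_sum h1).trans ?_
    rw [Finset.sum_const, Finset.card_range, nsmul_eq_mul]
    apply le_of_eq
    ring
  have b2 : ‖p K + (((K : ℝ) + 1 : ℝ) : ℂ) ^ (1 - s) / (s - 1)‖ ≤ √N / |t| := by
    rw [hpK, norm_neg, norm_mul]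
    have h1 := A07_PP_norm t hK1 ht
    rw [← hs] at h1
    have h2 : √((K : ℝ) + 1) * ‖A07_ee N ((K : ℝ) + 1)‖ ≤ √N := by
      apply Real.le_sqrt_of_sq_le
      rw [mul_pow, Real.sq_sqrt hK1.le]
      have h3 := A07_ee_le hN0 hK1
      have h4 := A07_ee_le_one hN0 hK1.le
      have h5 := norm_nonneg (A07_ee N ((K : ℝ) + 1))
      rw [le_div_iff₀ hK1] at h3
      nlinarith
    calc _ ≤ √((K : ℝ) + 1) / |t| * ‖A07_ee N ((K : ℝ) + 1)‖ := by gcongr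
      _ = (√((K : ℝ) + 1) * ‖A07_ee N ((K : ℝ) + 1)‖) / |t| := by ring
      _ ≤ _ := by gcongr
  have b3 : ‖p m‖ ≤ √((m : ℝ) + 1) / |t| * (((m : ℝ) + 1) / N) := by
    simp only [hp, A07_PP]
    rw [norm_mul]
    have h1 := A07_PP_norm t hm1 ht
    rw [← hs] at h1
    have h2 := A07_one_sub_norm hN0 hm1.le
    gcongr
  have b4 : ‖∑ n ∈ Finset.Ico m K, Δ n‖ ≤ 6 * √N / |t| +
      (‖s‖ * ‖s + 1‖ + 2 * ‖s‖ + 1) * (4 / √((m : ℝ) + 1) / N) / 2 := by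
    refine (norm_sum_le _ _).trans ?_
    have h1 : ∀ n ∈ Finset.Ico m K, ‖Δ n‖ ≤ 2 * (√((n : ℝ) + 1) * Real.exp (-(n : ℝ) / N)) / (|t| * N) +
      (‖s‖ * ‖s + 1‖ + 2 * ‖s‖ + 1) * (((n : ℝ) + 1) ^ (-(3/2) : ℝ) / N) / 2 := by
      intro n _
      have h2 := A07_step t ht hN0 n
      simp only [hΔ, hp, ha]
      push_cast
      exact h2
    refine (Finset.sum_le_sum h1).trans ?_
    rw [Finset.sum_add_distrib]
    refine add_le_add ?_ ?_
    · rw [← Finset.sum_div, ← Finset.mul_sum]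
      have h3 := A07_sqrt_exp_sum N hN (Finset.Ico m K)
      rw [div_le_div_iff₀ (by positivity) ht]
      calc (2 * ∑ n ∈ Finset.Ico m K, √((n : ℝ) + 1) * Real.exp (-(n : ℝ) / N)) * |t|
          ≤ (2 * (3 * (N * √N))) * |t| := by gcongr
        _ = 6 * √N * (|t| * N) := by ring
    · rw [← Finset.sum_div, ← Finset.mul_sum, ← Finset.sum_div]
      have h3 := A07_tel_sum m K hmK
      gcongr
  have b5 : ‖(a K - a m) / 2‖ ≤ 1 := by
    rw [norm_div]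
    have h1 : ‖a K‖ ≤ 1 := A07_gg_norm1 t hN0 (by linarith [Nat.cast_nonneg (α := ℝ) K])
    have h2 : ‖a m‖ ≤ 1 := A07_gg_norm1 t hN0 (by linarith [Nat.cast_nonneg (α := ℝ) m])
    have h3 := norm_sub_le (a K) (a m)
    have h4 : ‖(2 : ℂ)‖ = 2 := by norm_num
    rw [h4, div_le_iff₀ (by norm_num)]
    linarith
  have e : ∑ n ∈ Finset.range K, a n + (((K : ℝ) + 1 : ℝ) : ℂ) ^ (1 - s) / (s - 1) =
      ∑ n ∈ Finset.range m, a n + (p K + (((K : ℝ) + 1 : ℝ) : ℂ) ^ (1 - s) / (s - 1)) - p m -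
        ∑ n ∈ Finset.Ico m K, Δ n - (a K - a m) / 2 := by
    rw [hsplit, hsum]
    ring
  rw [e]
  refine (norm_sub_le _ _).trans ?_
  refine (add_le_add ((norm_sub_le _ _).trans (add_le_add ((norm_sub_le _ _).trans
    (add_le_add ((norm_add_le _ _).trans (add_le_add b1 b2)) b3)) b4)) b5).trans (le_of_eq ?_)
  ring

/-- partial sums of the formula for zeta -/
theorem A07_zlim {s : ℂ} (hs : 0 < s.re) (h1 : s ≠ 1) :
    Tendsto (fun K : ℕ => ∑ n ∈ Finset.range K, ((n : ℂ) + 1) ^ (-s) + ((K : ℂ) + 1) ^ (1 - s) / (s - 1)) atTop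
      (𝓝 (riemannZeta s)) := by
  have hne : (s - 1 : ℂ) ≠ 0 := sub_ne_zero.2 h1
  have h2 := (LZX.vt_summable hs).hasSum.tendsto_sum_nat
  have h3 : ∀ K : ℕ, ∑ n ∈ Finset.range K, LZX.vt n s =
      (s - 1) * ∑ n ∈ Finset.range K, ((n : ℂ) + 1) ^ (-s) + (((K : ℂ) + 1) ^ (1 - s) - 1) := by
    intro K
    unfold LZX.vt
    rw [Finset.sum_add_distrib, ← Finset.mul_sum]
    congr 1
    have := Finset.sum_range_sub (fun n : ℕ => ((n : ℂ) + 1) ^ (1 - s)) K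
    simp only [Nat.cast_zero, zero_add, one_cpow] at this
    rw [← this]
    refine Finset.sum_congr rfl fun n _ => ?_
    push_cast
    rw [show (n : ℂ) + 1 + 1 = n + 2 by ring]
  have h4 := (h2.const_add 1).div_const (s - 1)
  rw [← LZX.zeta_formula hs h1, mul_div_cancel_left₀ _ hne] at h4
  refine h4.congr fun K => ?_
  rw [h3]
  field_simp
  ring

/-- the smoothed Dirichlet polynomial -/
theorem A07_dsum (t : ℝ) {N : ℝ} (hN : 1 ≤ N) :
    Summable fun n : ℕ => ((n : ℂ) + 1) ^ (-(1/2 + t * I : ℂ)) * A07_ee N ((n : ℝ) + 1) := by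
  have hN0 : 0 < N := by linarith
  obtain ⟨hq1, _⟩ := A07_geo N hN
  have hq0 : 0 < Real.exp (-1 / N) := Real.exp_pos _
  refine Summable.of_norm_bounded (g := fun n : ℕ => Real.exp (-1 / N) ^ n)
    (summable_geometric_of_lt_one hq0.le hq1) fun n => ?_
  have hn : (0 : ℝ) ≤ n := Nat.cast_nonneg n
  have e1 : ((n : ℂ) + 1) = (((n : ℝ) + 1 : ℝ) : ℂ) := by push_cast; ring
  rw [norm_mul, e1, A07_cpow_norm (by linarith), A07_ee_norm]
  have e : (-(1/2 + t * I : ℂ)).re = -(1/2) := by rw [neg_re, A07_half_re]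
  rw [e]
  have h2 : ((n : ℝ) + 1) ^ (-(1/2) : ℝ) ≤ 1 := Real.rpow_le_one_of_one_le_of_nonpos (by linarith) (by norm_num)
  have h3 : Real.exp (-((n : ℝ) + 1) / N) ≤ Real.exp (-1 / N) ^ n := by
    rw [← Real.exp_nat_mul]
    apply Real.exp_le_exp.2
    have h4 : (n : ℝ) * (-1 / N) = -(n : ℝ) / N := by ring
    rw [h4]
    apply div_le_div_of_nonneg_right _ hN0.le
    linarith
  calc ((n : ℝ) + 1) ^ (-(1/2) : ℝ) * Real.exp (-((n : ℝ) + 1) / N) ≤ 1 * Real.exp (-1 / N) ^ n := by gcongr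
    _ = _ := one_mul _

/-- **A7**. For 1 <= |t| <= 2T and N >= T^(3/2) the smoothed sum of n^(-1/2-it) exp(-n/N) approximates zeta. -/
theorem A07_zeta_sub_D {T t N : ℝ} (hT : 1 ≤ T) (ht1 : 1 ≤ |t|) (ht2 : |t| ≤ 2 * T) (hN : T ^ (3/2 : ℝ) ≤ N) :
    ‖riemannZeta (1/2 + t * I) - ∑' n : ℕ, ((n : ℂ) + 1) ^ (-(1/2 + t * I : ℂ)) *
      (Real.exp (-((n : ℝ) + 1) / N) : ℂ)‖ ≤ 60 + 7 * √N / |t| := by
  have hT0 : 0 < T := by linarith
  have ht : 0 < |t| := by linarith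
  have hT32 : T ^ (3/2 : ℝ) = T * √T := by
    have h := Real.rpow_add hT0 1 (1/2)
    rw [Real.rpow_one, ← Real.sqrt_eq_rpow] at h
    rw [← h]
    norm_num
  have hr1 : 1 ≤ √T := by rw [Real.one_le_sqrt]; exact hT
  have hN1 : 1 ≤ N := by
    refine le_trans ?_ hN
    rw [hT32]
    nlinarith
  have hN0 : 0 < N := by linarith
  set s : ℂ := 1/2 + t * I with hs
  have hre : s.re = 1/2 := A07_half_re t
  have hne : s ≠ 1 := by
    intro h
    have h1 := A07_one_sub_s_norm t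
    rw [← hs, h, sub_self, norm_zero] at h1
    linarith
  have hz := A07_zlim (s := s) (by rw [hre]; norm_num) hne
  have hd := (A07_dsum t hN1).hasSum.tendsto_sum_nat
  rw [← hs] at hd
  have hl := (hz.sub hd).norm
  have e0 : ∑' n : ℕ, ((n : ℂ) + 1) ^ (-s) * (Real.exp (-((n : ℝ) + 1) / N) : ℂ) =
      ∑' n : ℕ, ((n : ℂ) + 1) ^ (-s) * A07_ee N ((n : ℝ) + 1) := by
    refine tsum_congr fun n => ?_
    rw [A07_ee_eq]
  rw [e0]
  refine le_of_tendsto hl ?_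
  set m : ℕ := ⌊T⌋₊ with hm
  have hm1 : (m : ℝ) ≤ T := Nat.floor_le hT0.le
  have hm2 : T < (m : ℝ) + 1 := Nat.lt_floor_add_one T
  filter_upwards [eventually_ge_atTop m] with K hK
  have hp := A07_part t ht hN1 m K hK
  rw [← hs] at hp
  have e1 : ∑ n ∈ Finset.range K, ((n : ℂ) + 1) ^ (-s) + ((K : ℂ) + 1) ^ (1 - s) / (s - 1) -
      ∑ n ∈ Finset.range K, ((n : ℂ) + 1) ^ (-s) * A07_ee N ((n : ℝ) + 1) =
      ∑ n ∈ Finset.range K, A07_gg s N ((n : ℝ) + 1) + (((K : ℝ) + 1 : ℝ) : ℂ) ^ (1 - s) / (s - 1) := by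
    have h1 : ∑ n ∈ Finset.range K, A07_gg s N ((n : ℝ) + 1) = ∑ n ∈ Finset.range K, ((n : ℂ) + 1) ^ (-s) -
        ∑ n ∈ Finset.range K, ((n : ℂ) + 1) ^ (-s) * A07_ee N ((n : ℝ) + 1) := by
      rw [← Finset.sum_sub_distrib]
      refine Finset.sum_congr rfl fun n _ => ?_
      unfold A07_gg
      push_cast
      ring
    rw [h1]
    push_cast
    ring
  rw [e1]
  refine hp.trans ?_
  -- numerical bounds
  set r := √T with hr
  have hr2 : r ^ 2 = T := Real.sq_sqrt hT0.le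
  rw [hT32] at hN
  have c1 : (m : ℝ) * √(m : ℝ) / N ≤ 1 := by
    rw [div_le_one hN0]
    refine le_trans ?_ hN
    have : √(m : ℝ) ≤ r := Real.sqrt_le_sqrt hm1
    gcongr
  have c0 : √((m : ℝ) + 1) ≤ 2 * r := by
    have h3 : (m : ℝ) + 1 ≤ 2 ^ 2 * T := by linarith
    calc √((m : ℝ) + 1) ≤ √(2 ^ 2 * T) := Real.sqrt_le_sqrt h3
      _ = 2 * r := by
        rw [Real.sqrt_mul (by norm_num), Real.sqrt_sq (by norm_num)]
  have c3 : √((m : ℝ) + 1) / |t| * (((m : ℝ) + 1) / N) ≤ 4 := by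
    have h1 : √((m : ℝ) + 1) / |t| ≤ 2 * r := by
      rw [div_le_iff₀ ht]
      have : 2 * r * 1 ≤ 2 * r * |t| := by gcongr
      linarith
    have h2 : ((m : ℝ) + 1) / N ≤ 2 * T / (T * r) := by
      have h3 : (m : ℝ) + 1 ≤ 2 * T := by linarith
      gcongr
    calc √((m : ℝ) + 1) / |t| * (((m : ℝ) + 1) / N) ≤ 2 * r * (2 * T / (T * r)) := by gcongr
      _ = 4 := by
        field_simp
        norm_num
  have c5 : (‖s‖ * ‖s + 1‖ + 2 * ‖s‖ + 1) * (4 / √((m : ℝ) + 1) / N) / 2 ≤ 54 := by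
    have h1 : ‖s‖ ≤ 3 * T := by
      have h2 : ‖s‖ ≤ ‖(1/2 : ℂ)‖ + ‖(t : ℂ) * I‖ := norm_add_le _ _
      have h3 : ‖(1/2 : ℂ)‖ = 1/2 := by norm_num
      have h4 : ‖(t : ℂ) * I‖ = |t| := by rw [norm_mul, norm_I, mul_one, norm_real, Real.norm_eq_abs]
      rw [h3, h4] at h2
      linarith
    have h2 : ‖s + 1‖ ≤ 4 * T := by
      have := norm_add_le s 1
      rw [norm_one] at this
      linarith
    have h3 : ‖s‖ * ‖s + 1‖ + 2 * ‖s‖ + 1 ≤ 19 * T ^ 2 := by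
      have h4 : ‖s‖ * ‖s + 1‖ ≤ 3 * T * (4 * T) := by gcongr
      nlinarith
    have h4 : r ≤ √((m : ℝ) + 1) := Real.sqrt_le_sqrt hm2.le
    calc (‖s‖ * ‖s + 1‖ + 2 * ‖s‖ + 1) * (4 / √((m : ℝ) + 1) / N) / 2
        ≤ (19 * T ^ 2) * (4 / r / (T * r)) / 2 := by gcongr
      _ = 38 := by
        rw [← hr2]
        field_simp
        norm_num
      _ ≤ 54 := by norm_num
  have c6 : √N / |t| + 6 * √N / |t| = 7 * √N / |t| := by ring
  linarith

theorem zeta_le_D : ∃ C : ℝ, 0 < C ∧ ∀ T t : ℝ, 2 ≤ T → T ≤ t → t ≤ 2 * T →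
    ‖riemannZeta (1 / 2 + t * I) - D (NN T) t‖ ≤ C := by
  refine ⟨67, by norm_num, fun T t hT h1 h2 => ?_⟩
  have ht0 : 0 < t := by linarith
  have habs : |t| = t := abs_of_pos ht0
  have h := A07_zeta_sub_D (T := T) (t := t) (N := NN T) (by linarith) (by rw [habs]; linarith)
    (by rw [habs]; exact h2) (le_refl _)
  have e : D (NN T) t = ∑' n : ℕ, ((n : ℂ) + 1) ^ (-(1/2 + t * I : ℂ)) *
      (Real.exp (-((n : ℝ) + 1) / NN T) : ℂ) := by
    unfold D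
    refine tsum_congr fun n => ?_
    have e1 : ((n + 1 : ℝ) : ℂ) = (n : ℂ) + 1 := by push_cast; ring
    have e2 : -((n + 1 : ℝ) / NN T) = -((n : ℝ) + 1) / NN T := by ring
    rw [e1, e2]
  rw [e]
  refine h.trans ?_
  rw [habs]
  have h3 : √(NN T) ≤ t := by
    apply Real.sqrt_le_iff.2
    refine ⟨ht0.le, ?_⟩
    have h4 : NN T ≤ T ^ 2 := by
      unfold NN
      have h5 := Real.rpow_le_rpow_of_exponent_le (x := T) (by linarith) (show (3/2 : ℝ) ≤ 2 by norm_num)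
      rwa [Real.rpow_two] at h5
    have h6 : T ^ 2 ≤ t ^ 2 := by gcongr
    linarith
  have h4 : 7 * √(NN T) / t ≤ 7 := by
    rw [div_le_iff₀ ht0]
    linarith
  linarith

end U6
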