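import Pool.Agent.Lib.MP_39df77_nt.U6.Defs

open Complex MeasureTheory Set
namespace U6

noncomputable def A03_g (u : ℝ) : ℝ := (1 - Real.cos u) / u ^ 2

theorem A03_g_nonneg (u : ℝ) : 0 ≤ A03_g u :=
  div_nonneg (by linarith [Real.cos_le_one u]) (sq_nonneg u)

theorem A03_g_le (u : ℝ) : A03_g u ≤ 5 / 2 * (1 + u ^ 2)⁻¹ := by
  unfold A03_g
  rcases eq_or_ne u 0 with rfl | hu
  · norm_num
  · have h2 : 0 < u ^ 2 := by positivity
    have h3 : 1 - u ^ 2 / 2 ≤ Real.cos u := Real.one_sub_sq_div_two_le_cos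
    have h4 : -1 ≤ Real.cos u := Real.neg_one_le_cos u
    rw [← div_eq_mul_inv, div_le_div_iff₀ h2 (by positivity)]
    nlinarith

theorem A03_g_meas : Measurable A03_g := by
  unfold A03_g
  fun_prop

theorem A03_g_int : Integrable A03_g := by
  refine (integrable_inv_one_add_sq.const_mul (5 / 2)).mono' A03_g_meas.aestronglyMeasurable
    (Filter.Eventually.of_forall (fun u => ?_))
  rw [Real.norm_of_nonneg (A03_g_nonneg u)]
  exact A03_g_le u

noncomputable def A03_J : ℝ := ∫ u : ℝ, A03_g u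

theorem A03_J_pos : 0 < A03_J := by
  unfold A03_J
  rw [integral_pos_iff_support_of_nonneg A03_g_nonneg A03_g_int]
  have hsub : Ioo (0 : ℝ) 1 ⊆ Function.support A03_g := by
    intro u hu
    rw [Function.mem_support]
    unfold A03_g
    have h1 : Real.cos u < 1 := by
      have := Real.cos_lt_cos_of_nonneg_of_le_pi (x := 0) (y := u) le_rfl
        (by linarith [hu.2, Real.pi_gt_three]) hu.1
      rwa [Real.cos_zero] at this
    have h2 : 0 < u ^ 2 := by have := hu.1; positivity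
    exact (div_pos (by linarith) h2).ne'
  refine lt_of_lt_of_le ?_ (measure_mono hsub)
  simp

theorem A03_gb (b : ℝ) : Integrable (fun u : ℝ => (1 - Real.cos (b * u)) / u ^ 2) ∧
    ∫ u : ℝ, (1 - Real.cos (b * u)) / u ^ 2 = |b| * A03_J := by
  rcases eq_or_ne b 0 with rfl | hb
  · simp
  · have h : (fun u : ℝ => (1 - Real.cos (b * u)) / u ^ 2) = fun u => b ^ 2 * A03_g (b * u) := by
      funext u
      unfold A03_g
      rcases eq_or_ne u 0 with rfl | hu
      · simp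
      · field_simp
    rw [h]
    refine ⟨((integrable_comp_mul_left_iff A03_g hb).2 A03_g_int).const_mul _, ?_⟩
    rw [integral_const_mul, Measure.integral_comp_mul_left]
    unfold A03_J
    rw [smul_eq_mul, ← mul_assoc, abs_inv, ← sq_abs b]
    congr 1
    field_simp

noncomputable def A03_V (A u : ℝ) : ℝ := (Real.cos (A * u) - Real.cos (2 * A * u)) / u ^ 2

theorem A03_V_abs {A : ℝ} (hA : 0 < A) (u : ℝ) : |A03_V A u| ≤ 4 * A ^ 2 * (1 + (A * u) ^ 2)⁻¹ := by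
  unfold A03_V
  rcases eq_or_ne u 0 with rfl | hu
  · simp
    positivity
  · have h2 : 0 < u ^ 2 := by positivity
    have hA2 : 0 < A ^ 2 := by positivity
    rw [abs_div, abs_of_pos h2, ← div_eq_mul_inv, div_le_div_iff₀ h2 (by positivity), abs_sub_comm]
    have e1 : |Real.cos (2 * A * u) - Real.cos (A * u)| ≤ 2 := by
      have a1 := Real.abs_cos_le_one (2 * A * u)
      have a2 := Real.abs_cos_le_one (A * u)
      calc |Real.cos (2 * A * u) - Real.cos (A * u)| ≤ |Real.cos (2 * A * u)| + |Real.cos (A * u)| := abs_sub _ _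
        _ ≤ 2 := by linarith
    have e2 : |Real.cos (2 * A * u) - Real.cos (A * u)| ≤ 2 * (A * u) ^ 2 := by
      have b1 : 1 - (2 * A * u) ^ 2 / 2 ≤ Real.cos (2 * A * u) := Real.one_sub_sq_div_two_le_cos
      have b2 : 1 - (A * u) ^ 2 / 2 ≤ Real.cos (A * u) := Real.one_sub_sq_div_two_le_cos
      have b3 := Real.cos_le_one (2 * A * u)
      have b4 := Real.cos_le_one (A * u)
      have b5 : 0 ≤ (A * u) ^ 2 := sq_nonneg _
      rw [abs_le]
      constructor <;> nlinarith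
    have hy : 0 ≤ (A * u) ^ 2 := sq_nonneg _
    have hy2 : (A * u) ^ 2 = A ^ 2 * u ^ 2 := by ring
    nlinarith

theorem A03_V_meas (A : ℝ) : Measurable (A03_V A) := by
  unfold A03_V
  fun_prop

theorem A03_w_int {A : ℝ} (hA : 0 < A) : Integrable (fun u : ℝ => 4 * A ^ 2 * (1 + (A * u) ^ 2)⁻¹) :=
  (integrable_inv_one_add_sq.comp_mul_left' hA.ne').const_mul _

theorem A03_w_val {A : ℝ} (hA : 0 < A) : ∫ u : ℝ, 4 * A ^ 2 * (1 + (A * u) ^ 2)⁻¹ = 4 * Real.pi * A := by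
  rw [integral_const_mul, Measure.integral_comp_mul_left (fun x : ℝ => (1 + x ^ 2)⁻¹),
    integral_univ_inv_one_add_sq, smul_eq_mul, abs_of_pos (inv_pos.2 hA)]
  field_simp

theorem A03_V_int {A : ℝ} (hA : 0 < A) : Integrable (A03_V A) := by
  refine (A03_w_int hA).mono' (A03_V_meas A).aestronglyMeasurable (Filter.Eventually.of_forall (fun u => ?_))
  rw [Real.norm_eq_abs]
  exact A03_V_abs hA u

theorem A03_V_mul_int {A : ℝ} (hA : 0 < A) {h : ℝ → ℝ} (hm : Measurable h) (hb : ∀ u, |h u| ≤ 1) :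
    Integrable (fun u => A03_V A u * h u) := by
  refine (A03_w_int hA).mono' ((A03_V_meas A).mul hm).aestronglyMeasurable
    (Filter.Eventually.of_forall (fun u => ?_))
  rw [Real.norm_eq_abs, abs_mul]
  calc |A03_V A u| * |h u| ≤ |A03_V A u| * 1 := mul_le_mul_of_nonneg_left (hb u) (abs_nonneg _)
    _ ≤ _ := by rw [mul_one]; exact A03_V_abs hA u

theorem A03_V_cos {A ξ : ℝ} (hA : 0 < A) (h0 : 0 ≤ ξ) (h1 : ξ ≤ A) :
    ∫ u : ℝ, A03_V A u * Real.cos (ξ * u) = A03_J * A := by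
  obtain ⟨i1, v1⟩ := A03_gb (2 * A + ξ)
  obtain ⟨i2, v2⟩ := A03_gb (2 * A - ξ)
  obtain ⟨i3, v3⟩ := A03_gb (A + ξ)
  obtain ⟨i4, v4⟩ := A03_gb (A - ξ)
  have h : (fun u : ℝ => A03_V A u * Real.cos (ξ * u)) = fun u =>
      1 / 2 * (((1 - Real.cos ((2 * A + ξ) * u)) / u ^ 2 + (1 - Real.cos ((2 * A - ξ) * u)) / u ^ 2) -
        ((1 - Real.cos ((A + ξ) * u)) / u ^ 2 + (1 - Real.cos ((A - ξ) * u)) / u ^ 2)) := by
    funext u
    unfold A03_V
    have c1 : Real.cos ((2 * A + ξ) * u) + Real.cos ((2 * A - ξ) * u) =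
        2 * (Real.cos (2 * A * u) * Real.cos (ξ * u)) := by
      rw [add_mul, sub_mul, Real.cos_add, Real.cos_sub]
      ring
    have c2 : Real.cos ((A + ξ) * u) + Real.cos ((A - ξ) * u) =
        2 * (Real.cos (A * u) * Real.cos (ξ * u)) := by
      rw [add_mul, sub_mul, Real.cos_add, Real.cos_sub]
      ring
    rw [← add_div, ← add_div, ← sub_div, ← mul_div_assoc, div_mul_eq_mul_div]
    congr 1
    linear_combination (-(1 : ℝ) / 2) * c2 + (1 : ℝ) / 2 * c1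
  have i12 : Integrable (fun u : ℝ => (1 - Real.cos ((2 * A + ξ) * u)) / u ^ 2 +
      (1 - Real.cos ((2 * A - ξ) * u)) / u ^ 2) := i1.add i2
  have i34 : Integrable (fun u : ℝ => (1 - Real.cos ((A + ξ) * u)) / u ^ 2 +
      (1 - Real.cos ((A - ξ) * u)) / u ^ 2) := i3.add i4
  rw [h, integral_const_mul, integral_sub i12 i34, integral_add i1 i2, integral_add i3 i4,
    v1, v2, v3, v4, abs_of_pos (by linarith), abs_of_nonneg (by linarith), abs_of_pos (by linarith),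
    abs_of_nonneg (by linarith)]
  ring

theorem A03_V_sin {A ξ : ℝ} : ∫ u : ℝ, A03_V A u * Real.sin (ξ * u) = 0 := by
  have h := integral_neg_eq_self (fun u : ℝ => A03_V A u * Real.sin (ξ * u)) volume
  have h2 : (fun u : ℝ => A03_V A (-u) * Real.sin (ξ * -u)) = fun u => -(A03_V A u * Real.sin (ξ * u)) := by
    funext u
    unfold A03_V
    rw [mul_neg, mul_neg, mul_neg, Real.cos_neg, Real.cos_neg, Real.sin_neg, neg_sq]
    ring
  rw [h2, integral_neg] at h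
  linarith

theorem A03_V_exp {A ξ : ℝ} (hA : 0 < A) (h0 : 0 ≤ ξ) (h1 : ξ ≤ A) :
    Integrable (fun u : ℝ => cexp (-((ξ * u : ℝ) : ℂ) * I) * ((A03_V A u : ℝ) : ℂ)) ∧
    ∫ u : ℝ, cexp (-((ξ * u : ℝ) : ℂ) * I) * ((A03_V A u : ℝ) : ℂ) = ((A03_J * A : ℝ) : ℂ) := by
  have h : (fun u : ℝ => cexp (-((ξ * u : ℝ) : ℂ) * I) * ((A03_V A u : ℝ) : ℂ)) = fun u =>
      ((A03_V A u * Real.cos (ξ * u) : ℝ) : ℂ) - ((A03_V A u * Real.sin (ξ * u) : ℝ) : ℂ) * I := by
    funext u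
    rw [← ofReal_neg, exp_mul_I, ← ofReal_cos, ← ofReal_sin, Real.cos_neg, Real.sin_neg]
    push_cast
    ring
  have i1 : Integrable (fun u : ℝ => A03_V A u * Real.cos (ξ * u)) :=
    A03_V_mul_int hA (by fun_prop) (fun u => Real.abs_cos_le_one _)
  have i2 : Integrable (fun u : ℝ => A03_V A u * Real.sin (ξ * u)) :=
    A03_V_mul_int hA (by fun_prop) (fun u => Real.abs_sin_le_one _)
  rw [h]
  have j1 : Integrable (fun u : ℝ => ((A03_V A u * Real.cos (ξ * u) : ℝ) : ℂ)) := i1.ofReal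
  have j2 : Integrable (fun u : ℝ => ((A03_V A u * Real.sin (ξ * u) : ℝ) : ℂ) * I) := i2.ofReal.mul_const I
  refine ⟨j1.sub j2, ?_⟩
  have o1 : ∫ u : ℝ, ((A03_V A u * Real.cos (ξ * u) : ℝ) : ℂ) = ((A03_J * A : ℝ) : ℂ) := by
    rw [← A03_V_cos hA h0 h1]
    exact integral_ofReal (𝕜 := ℂ) (f := fun u : ℝ => A03_V A u * Real.cos (ξ * u))
  have o2 : ∫ u : ℝ, ((A03_V A u * Real.sin (ξ * u) : ℝ) : ℂ) = ((0 : ℝ) : ℂ) := by
    rw [← A03_V_sin (A := A) (ξ := ξ)]
    exact integral_ofReal (𝕜 := ℂ) (f := fun u : ℝ => A03_V A u * Real.sin (ξ * u))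
  rw [integral_sub j1 j2, integral_mul_const, o1, o2, ofReal_zero, zero_mul, sub_zero]

noncomputable def A03_a (N t : ℝ) (n : ℕ) : ℂ :=
  ((n + 1 : ℝ) : ℂ) ^ (-(1 / 2 + t * I)) * (Real.exp (-((n + 1 : ℝ) / N)) : ℂ)

theorem A03_a_norm (N t : ℝ) (n : ℕ) : ‖A03_a N t n‖ ≤ Real.exp (-((n + 1 : ℝ) / N)) := by
  unfold A03_a
  have hn : (0 : ℝ) < n + 1 := by positivity
  have h : (-(1 / 2 + t * I) : ℂ).re = -(1 / 2) := by simp
  rw [norm_mul, norm_cpow_eq_rpow_re_of_pos hn, h, norm_real, Real.norm_of_nonneg (Real.exp_pos _).le]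
  have h1 : (n + 1 : ℝ) ^ (-(1 / 2 : ℝ)) ≤ 1 :=
    Real.rpow_le_one_of_one_le_of_nonpos (by linarith [(Nat.cast_nonneg n : (0 : ℝ) ≤ n)]) (by norm_num)
  exact mul_le_of_le_one_left (Real.exp_pos _).le h1

theorem A03_exp_eq (N : ℝ) (n : ℕ) : Real.exp (-((n + 1 : ℝ) / N)) = Real.exp (-(1 / N)) ^ (n + 1) := by
  rw [← Real.exp_nat_mul]
  congr 1
  push_cast
  ring

theorem A03_q_lt {N : ℝ} (hN : 0 < N) : Real.exp (-(1 / N)) < 1 := by
  rw [Real.exp_lt_one_iff]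
  have : 0 < 1 / N := by positivity
  linarith

theorem A03_summable {N : ℝ} (hN : 0 < N) : Summable (fun n : ℕ => Real.exp (-((n + 1 : ℝ) / N))) := by
  have h := (summable_geometric_of_lt_one (Real.exp_pos _).le (A03_q_lt hN))
  have h2 := (summable_nat_add_iff 1).2 h
  refine h2.congr (fun n => ?_)
  rw [A03_exp_eq]

theorem A03_a_summable {N : ℝ} (hN : 0 < N) (t : ℝ) : Summable (A03_a N t) :=
  Summable.of_norm_bounded (A03_summable hN) (A03_a_norm N t)

theorem A03_a_shift (N t u : ℝ) (n : ℕ) :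
    A03_a N (t + u) n = A03_a N t n * cexp (-((Real.log (n + 1) * u : ℝ) : ℂ) * I) := by
  unfold A03_a
  have hn : ((n + 1 : ℝ) : ℂ) ≠ 0 := by
    have : (0 : ℝ) < n + 1 := by positivity
    exact_mod_cast this.ne'
  rw [cpow_def_of_ne_zero hn, cpow_def_of_ne_zero hn, mul_right_comm, ← Complex.exp_add]
  congr 2
  rw [← ofReal_log (by positivity)]
  push_cast
  ring

theorem A03_a_cont (N : ℝ) (n : ℕ) : Continuous (fun t => A03_a N t n) := by
  have h : (fun t => A03_a N t n) = fun t => A03_a N 0 n * cexp (-((Real.log (n + 1) * t : ℝ) : ℂ) * I) := by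
    funext t
    have := A03_a_shift N 0 t n
    rwa [zero_add] at this
  rw [h]
  fun_prop

theorem A03_D_cont {N : ℝ} (hN : 0 < N) : Continuous (D N) :=
  continuous_tsum (fun n => A03_a_cont N n) (A03_summable hN) (fun n t => A03_a_norm N t n)

theorem A03_D_bdd {N : ℝ} (hN : 0 < N) (t : ℝ) : ‖D N t‖ ≤ ∑' n : ℕ, Real.exp (-((n + 1 : ℝ) / N)) :=
  tsum_of_norm_bounded (A03_summable hN).hasSum (A03_a_norm N t)

/-- truncated sum -/
noncomputable def A03_S (N t : ℝ) (X : ℕ) : ℂ := ∑ n ∈ Finset.range X, A03_a N t n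

theorem A03_S_cont (N : ℝ) (X : ℕ) : Continuous (fun t => A03_S N t X) :=
  continuous_finsetSum _ (fun n _ => A03_a_cont N n)

theorem A03_S_bdd {N : ℝ} (hN : 0 < N) (t : ℝ) (X : ℕ) :
    ‖A03_S N t X‖ ≤ ∑' n : ℕ, Real.exp (-((n + 1 : ℝ) / N)) := by
  unfold A03_S
  refine (norm_sum_le _ _).trans ((Finset.sum_le_sum (fun n _ => A03_a_norm N t n)).trans ?_)
  exact (A03_summable hN).sum_le_tsum _ (fun n _ => (Real.exp_pos _).le)

theorem A03_tail {N : ℝ} (hN : 2 ≤ N) (t : ℝ) :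
    ‖D N t - A03_S N t ⌊N ^ 2⌋₊‖ ≤ (N + 1) * Real.exp (-N) := by
  have hN0 : 0 < N := by linarith
  set X := ⌊N ^ 2⌋₊ with hX
  have hq := A03_q_lt hN0
  have hqp : 0 < Real.exp (-(1 / N)) := Real.exp_pos _
  have h1 : D N t - A03_S N t X = ∑' n : ℕ, A03_a N t (n + X) := by
    have := (A03_a_summable hN0 t).sum_add_tsum_nat_add X
    unfold D A03_S
    rw [sub_eq_iff_eq_add']
    exact this.symm
  have h2 : HasSum (fun n : ℕ => Real.exp (-(1 / N)) ^ (X + 1) * Real.exp (-(1 / N)) ^ n)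
      (Real.exp (-(1 / N)) ^ (X + 1) * (1 - Real.exp (-(1 / N)))⁻¹) :=
    (hasSum_geometric_of_lt_one hqp.le hq).mul_left _
  have h3 : ‖∑' n : ℕ, A03_a N t (n + X)‖ ≤ Real.exp (-(1 / N)) ^ (X + 1) * (1 - Real.exp (-(1 / N)))⁻¹ := by
    refine tsum_of_norm_bounded h2 (fun n => (A03_a_norm N t (n + X)).trans (le_of_eq ?_))
    rw [A03_exp_eq, ← pow_add]
    congr 1
    ring
  rw [h1]
  refine h3.trans ?_
  have h4 : Real.exp (-(1 / N)) ^ (X + 1) ≤ Real.exp (-N) := by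
    rw [← Real.exp_nat_mul, Real.exp_le_exp]
    have : N ^ 2 < (X : ℝ) + 1 := Nat.lt_floor_add_one _
    push_cast
    rw [mul_neg, neg_le_neg_iff, mul_one_div, le_div_iff₀ hN0]
    nlinarith
  have h5 : (1 - Real.exp (-(1 / N)))⁻¹ ≤ N + 1 := by
    rw [inv_le_comm₀ (by linarith) (by linarith)]
    have h6 : 1 + 1 / N ≤ Real.exp (1 / N) := by
      have := Real.add_one_le_exp (1 / N)
      linarith
    have h7 : Real.exp (-(1 / N)) ≤ (1 + 1 / N)⁻¹ := by
      rw [Real.exp_neg]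
      exact inv_anti₀ (by positivity) h6
    have h8 : (1 + 1 / N)⁻¹ = 1 - (N + 1)⁻¹ := by
      field_simp
      ring
    linarith
  have h9 : 0 ≤ (1 - Real.exp (-(1 / N)))⁻¹ := inv_nonneg.2 (by linarith)
  calc Real.exp (-(1 / N)) ^ (X + 1) * (1 - Real.exp (-(1 / N)))⁻¹ ≤ Real.exp (-N) * (N + 1) :=
        mul_le_mul h4 h5 h9 (Real.exp_pos _).le
    _ = _ := mul_comm _ _

theorem A03_tau {N : ℝ} (hN : 2 ≤ N) : (N + 1) * Real.exp (-N) ≤ 1 := by
  rw [Real.exp_neg, ← div_eq_mul_inv, div_le_one (Real.exp_pos _)]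
  linarith [Real.add_one_le_exp N]

theorem A03_recon {N A : ℝ} (hA : 0 < A) (X : ℕ) (hX : ∀ n ∈ Finset.range X, Real.log ((n : ℝ) + 1) ≤ A)
    (t : ℝ) :
    ∫ u : ℝ, A03_S N (t + u) X * ((A03_V A u : ℝ) : ℂ) = A03_S N t X * ((A03_J * A : ℝ) : ℂ) := by
  have h : (fun u : ℝ => A03_S N (t + u) X * ((A03_V A u : ℝ) : ℂ)) = fun u =>
      ∑ n ∈ Finset.range X, A03_a N t n * (cexp (-((Real.log ((n : ℝ) + 1) * u : ℝ) : ℂ) * I) *
        ((A03_V A u : ℝ) : ℂ)) := by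
    funext u
    unfold A03_S
    rw [Finset.sum_mul]
    refine Finset.sum_congr rfl (fun n _ => ?_)
    rw [A03_a_shift, mul_assoc]
  rw [h, integral_finsetSum]
  · unfold A03_S
    rw [Finset.sum_mul]
    refine Finset.sum_congr rfl (fun n hn => ?_)
    rw [integral_const_mul, (A03_V_exp hA (Real.log_nonneg (by linarith [(Nat.cast_nonneg n : (0 : ℝ) ≤ n)]))
      (hX n hn)).2]
  · intro n hn
    exact ((A03_V_exp hA (Real.log_nonneg (by linarith [(Nat.cast_nonneg n : (0 : ℝ) ≤ n)]))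
      (hX n hn)).1).const_mul _

theorem A03_bdd_int {w h : ℝ → ℝ} (hw : Integrable w) (hc : Continuous h) {M : ℝ} (hM : ∀ u, |h u| ≤ M) :
    Integrable (fun u => h u * w u) :=
  hw.bdd_mul hc.aestronglyMeasurable (Filter.Eventually.of_forall (fun u => by
    rw [Real.norm_eq_abs]; exact hM u))

theorem A03_star {N A : ℝ} (hN : 0 < N) (hA : 0 < A) (X : ℕ)
    (hX : ∀ n ∈ Finset.range X, Real.log ((n : ℝ) + 1) ≤ A) (t : ℝ) :
    ‖A03_S N t X‖ ^ 2 ≤ 4 * Real.pi / (A03_J ^ 2 * A) *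
      ∫ u : ℝ, ‖A03_S N (t + u) X‖ ^ 2 * (4 * A ^ 2 * (1 + (A * u) ^ 2)⁻¹) := by
  have hJ := A03_J_pos
  obtain ⟨M, hM⟩ : ∃ M, M = ∑' n : ℕ, Real.exp (-((n + 1 : ℝ) / N)) := ⟨_, rfl⟩
  have hM0 : 0 ≤ M := hM ▸ tsum_nonneg (fun n => (Real.exp_pos _).le)
  have hf : ∀ u, ‖A03_S N (t + u) X‖ ≤ M := fun u => hM ▸ A03_S_bdd hN _ X
  have hfc : Continuous (fun u => ‖A03_S N (t + u) X‖) :=
    ((A03_S_cont N X).comp (continuous_const.add continuous_id)).norm
  have hw := A03_w_int hA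
  have hwv := A03_w_val hA
  set w : ℝ → ℝ := fun u => 4 * A ^ 2 * (1 + (A * u) ^ 2)⁻¹ with hwdef
  have hw0 : ∀ u, 0 ≤ w u := fun u => by rw [hwdef]; positivity
  set f : ℝ → ℝ := fun u => ‖A03_S N (t + u) X‖ with hfdef
  have i1 : Integrable (fun u => f u * w u) :=
    A03_bdd_int hw hfc (M := M) (fun u => by rw [abs_of_nonneg (norm_nonneg _)]; exact hf u)
  have i2 : Integrable (fun u => f u ^ 2 * w u) :=
    A03_bdd_int hw (hfc.pow 2) (M := M ^ 2) (fun u => by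
      rw [abs_of_nonneg (by positivity)]
      exact pow_le_pow_left₀ (norm_nonneg _) (hf u) 2)
  have hW : 0 < 4 * Real.pi * A := by positivity
  set m := ∫ u, f u * w u with hm
  set S2 := ∫ u, f u ^ 2 * w u with hS2
  have hm0 : 0 ≤ m := integral_nonneg (fun u => mul_nonneg (norm_nonneg _) (hw0 u))
  have key : m ^ 2 ≤ S2 * (4 * Real.pi * A) := by
    set k := m / (4 * Real.pi * A) with hk
    have h0 : 0 ≤ ∫ u, (f u - k) ^ 2 * w u := integral_nonneg (fun u => mul_nonneg (sq_nonneg _) (hw0 u))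
    have h1 : (fun u => (f u - k) ^ 2 * w u) = fun u => f u ^ 2 * w u - 2 * k * (f u * w u) + k ^ 2 * w u := by
      funext u; ring
    have j1 : Integrable (fun u => 2 * k * (f u * w u)) := i1.const_mul _
    have j2 : Integrable (fun u => f u ^ 2 * w u - 2 * k * (f u * w u)) := i2.sub j1
    have j3 : Integrable (fun u => k ^ 2 * w u) := hw.const_mul _
    rw [h1, integral_add j2 j3, integral_sub i2 j1,
      integral_const_mul, integral_const_mul, hwv, ← hm, ← hS2] at h0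
    have h2 : m = k * (4 * Real.pi * A) := by
      rw [hk]; field_simp
    rw [h2] at h0 ⊢
    have h3 : 0 ≤ (S2 - k ^ 2 * (4 * Real.pi * A)) * (4 * Real.pi * A) :=
      mul_nonneg (by nlinarith) hW.le
    nlinarith
  have h4 : ‖A03_S N t X‖ * (A03_J * A) ≤ m := by
    have h5 := A03_recon (N := N) hA X hX t
    have h6 : ‖A03_S N t X‖ * (A03_J * A) = ‖∫ u : ℝ, A03_S N (t + u) X * ((A03_V A u : ℝ) : ℂ)‖ := by
      rw [h5, norm_mul, norm_real, Real.norm_of_nonneg (by positivity)]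
    rw [h6, hm]
    refine norm_integral_le_of_norm_le i1 (Filter.Eventually.of_forall (fun u => ?_))
    rw [norm_mul, norm_real, Real.norm_eq_abs]
    exact mul_le_mul_of_nonneg_left (A03_V_abs hA u) (norm_nonneg _)
  have h7 : (‖A03_S N t X‖ * (A03_J * A)) ^ 2 ≤ S2 * (4 * Real.pi * A) :=
    (pow_le_pow_left₀ (by positivity) h4 2).trans key
  rw [div_mul_eq_mul_div, le_div_iff₀ (by positivity)]
  have h8 : ‖A03_S N t X‖ ^ 2 * (A03_J ^ 2 * A) * A ≤ (4 * Real.pi * S2) * A := by nlinarith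
  exact le_of_mul_le_mul_right h8 hA

theorem A03_P_eq {G : ℝ} (hG : 0 < G) (u : ℝ) : P G u = (Real.pi * G)⁻¹ * (1 + (G⁻¹ * u) ^ 2)⁻¹ := by
  unfold P
  have := Real.pi_pos
  field_simp

theorem A03_P_int {G : ℝ} (hG : 0 < G) : Integrable (P G) := by
  have h := (integrable_inv_one_add_sq.comp_mul_left' (inv_pos.2 hG).ne').const_mul (Real.pi * G)⁻¹
  refine h.congr (Filter.Eventually.of_forall (fun u => ?_))
  exact (A03_P_eq hG u).symm

theorem A03_P_nonneg {G : ℝ} (hG : 0 < G) (u : ℝ) : 0 ≤ P G u := by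
  unfold P
  have := Real.pi_pos
  positivity

theorem A03_B_int {N G : ℝ} (hN : 0 < N) (hG : 0 < G) (t : ℝ) :
    Integrable (fun u => ‖D N (t + u)‖ ^ 2 * P G u) := by
  refine A03_bdd_int (A03_P_int hG)
    ((((A03_D_cont hN).comp (continuous_const.add continuous_id)).norm).pow 2)
    (M := (∑' n : ℕ, Real.exp (-((n + 1 : ℝ) / N))) ^ 2) (fun u => ?_)
  rw [abs_of_nonneg (by positivity)]
  exact pow_le_pow_left₀ (norm_nonneg _) (A03_D_bdd hN _) 2

theorem A03_B_nonneg {N G : ℝ} (hG : 0 < G) (t : ℝ) : 0 ≤ B N G t :=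
  integral_nonneg (fun u => mul_nonneg (by positivity) (A03_P_nonneg hG u))

theorem A03_kernel {A G s u : ℝ} (hA : 1 ≤ A) (hG : 1 ≤ G) (hs : |s| ≤ G) :
    4 * A ^ 2 * (1 + (A * u) ^ 2)⁻¹ ≤ 12 * Real.pi * A ^ 2 * G * P G (u + s) := by
  unfold P
  have hpi := Real.pi_pos
  have hG0 : 0 < G := by linarith
  have h1 : (u + s) ^ 2 ≤ 2 * u ^ 2 + 2 * G ^ 2 := by
    have : s ^ 2 ≤ G ^ 2 := by
      rw [← sq_abs s]
      exact pow_le_pow_left₀ (abs_nonneg _) hs 2
    nlinarith [sq_nonneg (u - s)]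
  have h2 : 12 * Real.pi * A ^ 2 * G * (G / (Real.pi * (G ^ 2 + (u + s) ^ 2))) =
      12 * A ^ 2 * G ^ 2 / (G ^ 2 + (u + s) ^ 2) := by
    field_simp
  rw [h2, ← div_eq_mul_inv, div_le_div_iff₀ (by positivity) (by positivity)]
  have hA2 : 1 ≤ A ^ 2 := one_le_pow₀ hA
  have hG2 : 1 ≤ G ^ 2 := one_le_pow₀ hG
  have h3 : u ^ 2 ≤ A ^ 2 * u ^ 2 * G ^ 2 := by
    have : 0 ≤ u ^ 2 := sq_nonneg u
    have h4 : u ^ 2 ≤ A ^ 2 * u ^ 2 := by nlinarith
    nlinarith
  have h5 : G ^ 2 + (u + s) ^ 2 ≤ 3 * G ^ 2 * (1 + (A * u) ^ 2) := by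
    nlinarith
  have h6 : 0 ≤ 4 * A ^ 2 := by positivity
  nlinarith [mul_le_mul_of_nonneg_left h5 h6]

theorem local_sup_strong : ∃ C : ℝ, 0 < C ∧ ∀ N G t t' : ℝ, 2 ≤ N → 1 ≤ G → |t - t'| ≤ G →
    ‖D N t‖ ^ 2 ≤ C * Real.log N * (G * B N G t' + 1) := by
  have hJ := A03_J_pos
  have hpi := Real.pi_pos
  refine ⟨384 * Real.pi ^ 2 / A03_J ^ 2 + 2 * (64 * Real.pi ^ 2 / A03_J ^ 2 + 2), by positivity,
    fun N G t t' hN hG ht => ?_⟩
  have hN0 : 0 < N := by linarith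
  have hG0 : 0 < G := by linarith
  have hlog2 : Real.log 2 ≤ Real.log N := Real.log_le_log (by norm_num) hN
  have hlog : 1 / 2 ≤ Real.log N := by linarith [Real.log_two_gt_d9]
  set A := 2 * Real.log N with hAdef
  have hA1 : 1 ≤ A := by linarith
  have hA0 : 0 < A := by linarith
  set X := ⌊N ^ 2⌋₊ with hXdef
  have hX : ∀ n ∈ Finset.range X, Real.log ((n : ℝ) + 1) ≤ A := by
    intro n hn
    rw [Finset.mem_range] at hn
    have h1 : ((n : ℝ) + 1) ≤ N ^ 2 := by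
      have h2 : (n + 1 : ℕ) ≤ X := hn
      have h3 : ((n + 1 : ℕ) : ℝ) ≤ X := by exact_mod_cast h2
      have h4 : (X : ℝ) ≤ N ^ 2 := Nat.floor_le (by positivity)
      push_cast at h3
      linarith
    calc Real.log ((n : ℝ) + 1) ≤ Real.log (N ^ 2) := Real.log_le_log (by positivity) h1
      _ = A := by rw [Real.log_pow, hAdef]; norm_num
  have hstar := A03_star hN0 hA0 X hX t
  set τ := (N + 1) * Real.exp (-N) with hτ
  have hτ1 : τ ≤ 1 := A03_tau hN
  have hτ0 : 0 ≤ τ := by positivity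
  have htail : ∀ v, ‖D N v - A03_S N v X‖ ≤ τ := fun v => A03_tail hN v
  have d1 : ‖D N t‖ ^ 2 ≤ 2 * ‖A03_S N t X‖ ^ 2 + 2 := by
    have h1 : ‖D N t‖ ≤ ‖A03_S N t X‖ + 1 := by
      calc ‖D N t‖ = ‖A03_S N t X + (D N t - A03_S N t X)‖ := by rw [add_sub_cancel]
        _ ≤ ‖A03_S N t X‖ + ‖D N t - A03_S N t X‖ := norm_add_le _ _
        _ ≤ _ := by linarith [htail t]
    nlinarith [norm_nonneg (D N t), norm_nonneg (A03_S N t X), sq_nonneg (‖A03_S N t X‖ - 1)]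
  have d2 : ∀ v, ‖A03_S N v X‖ ^ 2 ≤ 2 * ‖D N v‖ ^ 2 + 2 := by
    intro v
    have h1 : ‖A03_S N v X‖ ≤ ‖D N v‖ + 1 := by
      calc ‖A03_S N v X‖ = ‖D N v - (D N v - A03_S N v X)‖ := by rw [sub_sub_cancel]
        _ ≤ ‖D N v‖ + ‖D N v - A03_S N v X‖ := norm_sub_le _ _
        _ ≤ _ := by linarith [htail v]
    nlinarith [norm_nonneg (D N v), norm_nonneg (A03_S N v X), sq_nonneg (‖D N v‖ - 1)]
  have hDb : Integrable (fun u => ‖D N (t + u)‖ ^ 2 * P G (u + (t - t'))) := by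
    have h1 := (A03_B_int hN0 hG0 t').comp_add_right (t - t')
    refine h1.congr (Filter.Eventually.of_forall (fun u => ?_))
    simp only
    rw [show t' + (u + (t - t')) = t + u by ring]
  have hBv : ∫ u, ‖D N (t + u)‖ ^ 2 * P G (u + (t - t')) = B N G t' := by
    unfold B
    rw [← integral_add_right_eq_self (fun u => ‖D N (t' + u)‖ ^ 2 * P G u) (t - t')]
    refine integral_congr_ae (Filter.Eventually.of_forall (fun u => ?_))
    simp only
    rw [show t' + (u + (t - t')) = t + u by ring]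
  have hint : ∫ u : ℝ, ‖A03_S N (t + u) X‖ ^ 2 * (4 * A ^ 2 * (1 + (A * u) ^ 2)⁻¹) ≤
      24 * Real.pi * A ^ 2 * G * B N G t' + 8 * Real.pi * A := by
    have hmono : ∫ u : ℝ, ‖A03_S N (t + u) X‖ ^ 2 * (4 * A ^ 2 * (1 + (A * u) ^ 2)⁻¹) ≤
        ∫ u : ℝ, (24 * Real.pi * A ^ 2 * G * (‖D N (t + u)‖ ^ 2 * P G (u + (t - t'))) +
          2 * (4 * A ^ 2 * (1 + (A * u) ^ 2)⁻¹)) := by
      refine integral_mono_of_nonneg (Filter.Eventually.of_forall (fun u => ?_))
        ((hDb.const_mul _).add ((A03_w_int hA0).const_mul 2)) (Filter.Eventually.of_forall (fun u => ?_))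
      · simp only [Pi.zero_apply]
        positivity
      · simp only
        have h1 := A03_kernel (A := A) (G := G) (s := t - t') (u := u) hA1 hG ht
        have h2 := d2 (t + u)
        have h3 : 0 ≤ 4 * A ^ 2 * (1 + (A * u) ^ 2)⁻¹ := by positivity
        have h4 : 0 ≤ ‖D N (t + u)‖ ^ 2 := by positivity
        nlinarith [mul_le_mul_of_nonneg_right h2 h3, mul_le_mul_of_nonneg_left h1 h4]
    refine hmono.trans (le_of_eq ?_)
    rw [integral_add (hDb.const_mul _) ((A03_w_int hA0).const_mul 2), integral_const_mul, integral_const_mul,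
      hBv, A03_w_val hA0]
    ring
  have hB0 := A03_B_nonneg (N := N) hG0 t'
  have hGB : 0 ≤ G * B N G t' := by positivity
  have c1 : ‖A03_S N t X‖ ^ 2 ≤ 96 * Real.pi ^ 2 / A03_J ^ 2 * A * (G * B N G t') + 32 * Real.pi ^ 2 / A03_J ^ 2 := by
    refine hstar.trans ((mul_le_mul_of_nonneg_left hint (by positivity)).trans (le_of_eq ?_))
    field_simp
    ring
  have c2 : ‖D N t‖ ^ 2 ≤ 384 * Real.pi ^ 2 / A03_J ^ 2 * Real.log N * (G * B N G t') +
      (64 * Real.pi ^ 2 / A03_J ^ 2 + 2) := by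
    refine d1.trans ?_
    have : 2 * (96 * Real.pi ^ 2 / A03_J ^ 2 * A * (G * B N G t') + 32 * Real.pi ^ 2 / A03_J ^ 2) + 2 =
        384 * Real.pi ^ 2 / A03_J ^ 2 * Real.log N * (G * B N G t') + (64 * Real.pi ^ 2 / A03_J ^ 2 + 2) := by
      rw [hAdef]
      ring
    linarith
  refine c2.trans ?_
  set K1 := 384 * Real.pi ^ 2 / A03_J ^ 2 with hK1
  set K2 := 64 * Real.pi ^ 2 / A03_J ^ 2 + 2 with hK2
  have hK1' : 0 ≤ K1 := by positivity
  have hK2' : 0 ≤ K2 := by positivity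
  have e1 : 0 ≤ K1 * Real.log N := by positivity
  have e2 : K2 ≤ 2 * K2 * Real.log N := by nlinarith
  have e3 : 0 ≤ 2 * K2 * Real.log N * (G * B N G t') := by positivity
  nlinarith

/-- row A03 -/
theorem local_sup : ∃ C : ℝ, 0 < C ∧ ∀ N G t t' : ℝ, 2 ≤ N → 1 ≤ G → G ≤ N → |t - t'| ≤ G →
    ‖D N t‖ ^ 2 ≤ C * Real.log N * (G * B N G t' + 1) := by
  obtain ⟨C, hC, h⟩ := local_sup_strong
  exact ⟨C, hC, fun N G t t' h1 h2 _ h4 => h N G t t' h1 h2 h4⟩

/-- mean square over a window of length `G` -/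
theorem local_mean : ∃ C : ℝ, 0 < C ∧ ∀ N G t t' : ℝ, 2 ≤ N → 1 ≤ G → |t - t'| ≤ G →
    ∫ u in t..(t + G), ‖D N u‖ ^ 2 ≤ C * (G * B N G t') := by
  refine ⟨5 * Real.pi, by positivity, fun N G t t' hN hG ht => ?_⟩
  have hN0 : 0 < N := by linarith
  have hG0 : 0 < G := by linarith
  have hpi := Real.pi_pos
  have hI := (A03_B_int hN0 hG0 t').comp_add_right (-t')
  have hI' : Integrable (fun u => ‖D N u‖ ^ 2 * P G (u + -t')) := by
    refine hI.congr (Filter.Eventually.of_forall (fun u => ?_))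
    simp only
    rw [show t' + (u + -t') = u by ring]
  have hBv : ∫ u, ‖D N u‖ ^ 2 * P G (u + -t') = B N G t' := by
    unfold B
    rw [← integral_add_right_eq_self (fun u => ‖D N (t' + u)‖ ^ 2 * P G u) (-t')]
    refine integral_congr_ae (Filter.Eventually.of_forall (fun u => ?_))
    simp only
    rw [show t' + (u + -t') = u by ring]
  rw [intervalIntegral.integral_of_le (by linarith)]
  have h1 : ∫ u in Ioc t (t + G), ‖D N u‖ ^ 2 ≤
      ∫ u in Ioc t (t + G), 5 * Real.pi * G * (‖D N u‖ ^ 2 * P G (u + -t')) := by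
    refine setIntegral_mono_on ?_ (hI'.const_mul _).integrableOn measurableSet_Ioc (fun u hu => ?_)
    · exact ((((A03_D_cont hN0).norm).pow 2).integrableOn_Icc (a := t) (b := t + G)).mono_set Ioc_subset_Icc_self
    · have h2 : 1 ≤ 5 * Real.pi * G * P G (u + -t') := by
        unfold P
        rw [show 5 * Real.pi * G * (G / (Real.pi * (G ^ 2 + (u + -t') ^ 2))) =
          5 * G ^ 2 / (G ^ 2 + (u + -t') ^ 2) by field_simp, one_le_div (by positivity)]
        have h3 : |u + -t'| ≤ 2 * G := by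
          have h4 := abs_le.1 ht
          rw [abs_le]
          constructor <;> linarith [hu.1, hu.2, h4.1, h4.2]
        have h5 : (u + -t') ^ 2 ≤ (2 * G) ^ 2 := by
          rw [← sq_abs (u + -t')]
          exact pow_le_pow_left₀ (abs_nonneg _) h3 2
        nlinarith
      have h6 : 0 ≤ ‖D N u‖ ^ 2 := by positivity
      nlinarith [mul_le_mul_of_nonneg_left h2 h6]
  refine h1.trans ?_
  have h7 : ∫ u in Ioc t (t + G), 5 * Real.pi * G * (‖D N u‖ ^ 2 * P G (u + -t')) ≤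
      ∫ u, 5 * Real.pi * G * (‖D N u‖ ^ 2 * P G (u + -t')) :=
    setIntegral_le_integral (hI'.const_mul _) (Filter.Eventually.of_forall (fun u => by
      have := A03_P_nonneg hG0 (u + -t')
      simp only [Pi.zero_apply]
      positivity))
  refine h7.trans (le_of_eq ?_)
  rw [integral_const_mul, hBv]
  ring

end U6
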