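import Pool.Agent.Lib.MP_39df77_nt.U6.A02
/-! A12: `B = mN + 2 Re ∑_h ∑_n f` (expand the square, Fubini, `P_ft`). -/
open Complex MeasureTheory Set
namespace U6

private noncomputable def a12c (N : ℝ) (n : ℕ) : ℝ :=
  (Real.sqrt (n + 1))⁻¹ * Real.exp (-((n + 1 : ℝ) / N))

private theorem a12c_nonneg (N : ℝ) (n : ℕ) : 0 ≤ a12c N n := by
  unfold a12c
  positivity

private theorem exp_geo (N : ℝ) (n : ℕ) :
    Real.exp (-((n + 1 : ℝ) / N)) = Real.exp (-(1 / N)) * Real.exp (-(1 / N)) ^ n := by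
  rw [← Real.exp_nat_mul, ← Real.exp_add]
  congr 1
  ring

private theorem geo_lt {N : ℝ} (hN : 0 < N) : Real.exp (-(1 / N)) < 1 := by
  rw [Real.exp_lt_one_iff]
  have : 0 < 1 / N := by positivity
  linarith

private theorem summable_geo {N : ℝ} (hN : 0 < N) :
    Summable (fun n : ℕ => Real.exp (-((n + 1 : ℝ) / N))) := by
  simp_rw [exp_geo]
  exact (summable_geometric_of_lt_one (Real.exp_pos _).le (geo_lt hN)).mul_left _

private theorem inv_sqrt_le_one {x : ℝ} (hx : 1 ≤ x) : (Real.sqrt x)⁻¹ ≤ 1 :=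
  inv_le_one_of_one_le₀ (Real.one_le_sqrt.mpr hx)

private theorem a12c_le (N : ℝ) (n : ℕ) : a12c N n ≤ Real.exp (-((n + 1 : ℝ) / N)) := by
  unfold a12c
  have h1 : (Real.sqrt ((n : ℝ) + 1))⁻¹ ≤ 1 := inv_sqrt_le_one (by
    have : (0 : ℝ) ≤ n := Nat.cast_nonneg n
    linarith)
  have h2 := (Real.exp_pos (-((n + 1 : ℝ) / N))).le
  nlinarith

private theorem summable_a12c {N : ℝ} (hN : 0 < N) : Summable (a12c N) :=
  Summable.of_nonneg_of_le (a12c_nonneg N) (a12c_le N) (summable_geo hN)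

private theorem term_eq (N t : ℝ) (n : ℕ) :
    ((n + 1 : ℝ) : ℂ) ^ (-(1 / 2 + t * I)) * (Real.exp (-((n + 1 : ℝ) / N)) : ℂ) =
      (a12c N n : ℂ) * cexp (-(I * t * (Real.log (n + 1) : ℝ))) := by
  have h0 : (0 : ℝ) < (n : ℝ) + 1 := by positivity
  have h1 : (((n : ℝ) + 1 : ℝ) : ℂ) ≠ 0 := by exact_mod_cast h0.ne'
  have h2 : (((n : ℝ) + 1 : ℝ) : ℂ) ^ (-(1 / 2 + t * I)) =
      (((Real.sqrt ((n : ℝ) + 1))⁻¹ : ℝ) : ℂ) * cexp (-(I * t * (Real.log ((n : ℝ) + 1) : ℝ))) := by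
    have e1 : (-(1 / 2 + t * I) : ℂ) = ((-(1 / 2) : ℝ) : ℂ) + (-(t * I)) := by
      push_cast
      ring
    rw [e1, Complex.cpow_add _ _ h1, ← Complex.ofReal_cpow h0.le, Complex.cpow_def_of_ne_zero h1,
      ← Complex.ofReal_log h0.le]
    congr 1
    · rw [Real.sqrt_eq_rpow, Real.rpow_neg h0.le]
    · congr 1
      ring
  rw [h2, a12c, Complex.ofReal_mul]
  ring

private theorem f_norm (N G t h x : ℝ) :
    ‖f N G t h x‖ = |(Real.sqrt (x * (x + h)))⁻¹ * Real.exp (-((2 * x + h) / N))| *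
      Real.exp (-(G * Real.log ((x + h) / x))) := by
  unfold f
  rw [norm_mul, Complex.norm_real, Complex.norm_exp, Real.norm_eq_abs]
  congr 2
  simp [Complex.mul_re]

private theorem f_le {N G t : ℝ} (hG : 0 ≤ G) (p : ℕ × ℕ) :
    ‖f N G t (p.1 + 1) (p.2 + 1)‖ ≤
      Real.exp (-((p.1 + 1 : ℝ) / N)) * (Real.exp (-((p.2 + 1 : ℝ) / N)) * Real.exp (-((p.2 + 1 : ℝ) / N))) := by
  have h1 : (0 : ℝ) ≤ p.1 := Nat.cast_nonneg _
  have h2 : (0 : ℝ) ≤ p.2 := Nat.cast_nonneg _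
  rw [f_norm, abs_of_nonneg (by positivity)]
  have e1 : (Real.sqrt (((p.2 : ℝ) + 1) * ((p.2 : ℝ) + 1 + ((p.1 : ℝ) + 1))))⁻¹ ≤ 1 :=
    inv_sqrt_le_one (by nlinarith)
  have e2 : Real.exp (-(G * Real.log (((p.2 : ℝ) + 1 + ((p.1 : ℝ) + 1)) / ((p.2 : ℝ) + 1)))) ≤ 1 := by
    rw [Real.exp_le_one_iff]
    have : 0 ≤ Real.log (((p.2 : ℝ) + 1 + ((p.1 : ℝ) + 1)) / ((p.2 : ℝ) + 1)) :=
      Real.log_nonneg (by rw [le_div_iff₀ (by positivity)]; linarith)
    have := mul_nonneg hG this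
    linarith
  have e3 : Real.exp (-((2 * ((p.2 : ℝ) + 1) + ((p.1 : ℝ) + 1)) / N)) =
      Real.exp (-((p.1 + 1 : ℝ) / N)) * (Real.exp (-((p.2 + 1 : ℝ) / N)) * Real.exp (-((p.2 + 1 : ℝ) / N))) := by
    rw [← Real.exp_add, ← Real.exp_add]
    congr 1
    ring
  rw [e3]
  set A := Real.exp (-((p.1 + 1 : ℝ) / N)) * (Real.exp (-((p.2 + 1 : ℝ) / N)) * Real.exp (-((p.2 + 1 : ℝ) / N)))
  have hA : 0 ≤ A := by positivity
  calc _ ≤ (1 * A) * 1 := by
        refine mul_le_mul (mul_le_mul_of_nonneg_right e1 hA) e2 (Real.exp_pos _).le (by positivity)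
    _ = A := by ring

theorem f_summable {N G t : ℝ} (hN : 1 ≤ N) (hG : 0 ≤ G) :
    Summable (fun p : ℕ × ℕ => ‖f N G t (p.1 + 1) (p.2 + 1)‖) := by
  have h0 : 0 < N := by linarith
  have h1 := summable_geo h0
  have h2 : Summable (fun n : ℕ => Real.exp (-((n + 1 : ℝ) / N)) * Real.exp (-((n + 1 : ℝ) / N))) := by
    refine Summable.of_nonneg_of_le (fun n => by positivity) (fun n => ?_) h1
    have : Real.exp (-((n + 1 : ℝ) / N)) ≤ 1 := by
      rw [Real.exp_le_one_iff]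
      have : 0 ≤ (n + 1 : ℝ) / N := by positivity
      linarith
    have h3 := (Real.exp_pos (-((n + 1 : ℝ) / N))).le
    nlinarith
  refine Summable.of_nonneg_of_le (fun p => norm_nonneg _) (fun p => f_le hG p) ?_
  exact h1.mul_of_nonneg h2 (fun n => (Real.exp_pos _).le) (fun n => by positivity)

/-- the three parts of `ℕ × ℕ` -/
private def part : ℕ ⊕ ((ℕ × ℕ) ⊕ (ℕ × ℕ)) → ℕ × ℕ
  | .inl n => (n, n)
  | .inr (.inl p) => (p.2, p.2 + (p.1 + 1))
  | .inr (.inr p) => (p.2 + (p.1 + 1), p.2)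

private theorem part_bij : Function.Bijective part := by
  constructor
  · rintro (n | ⟨a, b⟩ | ⟨a, b⟩) (m | ⟨c, d⟩ | ⟨c, d⟩) h <;> simp only [part, Prod.mk.injEq] at h <;>
      obtain ⟨h1, h2⟩ := h
    · subst h1; rfl
    · exfalso; omega
    · exfalso; omega
    · exfalso; omega
    · subst h1
      have : a = c := by omega
      subst this; rfl
    · exfalso; omega
    · exfalso; omega
    · exfalso; omega
    · subst h2
      have : a = c := by omega
      subst this; rfl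
  · rintro ⟨a, b⟩
    rcases lt_trichotomy a b with h | h | h
    · refine ⟨.inr (.inl (b - a - 1, a)), ?_⟩
      simp only [part, Prod.mk.injEq, true_and]
      omega
    · exact ⟨.inl a, by simp [part, h]⟩
    · refine ⟨.inr (.inr (a - b - 1, b)), ?_⟩
      simp only [part, Prod.mk.injEq, and_true]
      omega

private theorem tsum_split {g : ℕ × ℕ → ℂ} (hg : Summable g) :
    ∑' z, g z = (∑' n : ℕ, g (n, n)) + ((∑' p : ℕ × ℕ, g (p.2, p.2 + (p.1 + 1))) +
      ∑' p : ℕ × ℕ, g (p.2 + (p.1 + 1), p.2)) := by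
  have e := (Equiv.ofBijective part part_bij).tsum_eq g
  have hs : Summable (g ∘ part) := (Equiv.ofBijective part part_bij).summable_iff.mpr hg
  have h1 : Summable ((g ∘ part) ∘ Sum.inl) := hs.comp_injective Sum.inl_injective
  have h2 : Summable ((g ∘ part) ∘ Sum.inr) := hs.comp_injective Sum.inr_injective
  have h3 : Summable (((g ∘ part) ∘ Sum.inr) ∘ Sum.inl) := h2.comp_injective Sum.inl_injective
  have h4 : Summable (((g ∘ part) ∘ Sum.inr) ∘ Sum.inr) := h2.comp_injective Sum.inr_injective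
  rw [← e]
  have s1 := Summable.tsum_sum h1 h2
  have s2 := Summable.tsum_sum h3 h4
  calc ∑' c, g ((Equiv.ofBijective part part_bij) c) = ∑' c, (g ∘ part) c := rfl
    _ = (∑' i, (g ∘ part) (.inl i)) + ∑' i, (g ∘ part) (.inr i) := s1
    _ = _ := by
      congr 1

private theorem B_double {N G t : ℝ} (hN : 1 ≤ N) (hG : 0 < G) :
    ((B N G t : ℝ) : ℂ) = ∑' z : ℕ × ℕ, (((a12c N z.1 * a12c N z.2 : ℝ) : ℂ) *
      cexp (I * t * (Real.log (z.2 + 1) - Real.log (z.1 + 1) : ℝ)) *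
      (Real.exp (-(G * |Real.log (z.2 + 1) - Real.log (z.1 + 1)|)) : ℂ)) := by
  have h0 : 0 < N := by linarith
  have hc := summable_a12c h0
  have hcc : Summable (fun z : ℕ × ℕ => a12c N z.1 * a12c N z.2) :=
    hc.mul_of_nonneg hc (a12c_nonneg N) (a12c_nonneg N)
  set F : ℕ × ℕ → ℝ → ℂ := fun z u => ((a12c N z.1 * a12c N z.2 : ℝ) : ℂ) *
      cexp (I * t * (Real.log (z.2 + 1) - Real.log (z.1 + 1) : ℝ)) *
      (((P G u : ℝ) : ℂ) * cexp (I * u * (Real.log (z.2 + 1) - Real.log (z.1 + 1) : ℝ))) with hF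
  have hn : ∀ (x y : ℝ), ‖cexp (I * x * (y : ℝ))‖ = 1 := by
    intro x y
    rw [Complex.norm_exp]
    simp
  have hFn : ∀ z u, ‖F z u‖ = a12c N z.1 * a12c N z.2 * ‖((P G u : ℝ) : ℂ)‖ := by
    intro z u
    rw [hF]
    simp only
    rw [norm_mul, norm_mul, norm_mul, hn, hn, Complex.norm_real, Real.norm_eq_abs,
      abs_of_nonneg (mul_nonneg (a12c_nonneg N _) (a12c_nonneg N _)), mul_one, mul_one]
  have hPi := P_integrable hG
  have hFi : ∀ z, Integrable (F z) := by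
    intro z
    refine Integrable.const_mul ?_ _
    refine (hPi.ofReal (𝕜 := ℂ)).mono ?_ ?_
    · refine (hPi.ofReal (𝕜 := ℂ)).aestronglyMeasurable.mul ?_
      exact (Continuous.aestronglyMeasurable (by fun_prop))
    · refine Filter.Eventually.of_forall fun u => ?_
      rw [norm_mul, hn, mul_one]
      rfl
  have hsum : Summable (fun z => ∫ u, ‖F z u‖) := by
    have : (fun z => ∫ u, ‖F z u‖) = fun z : ℕ × ℕ => a12c N z.1 * a12c N z.2 * ∫ u, ‖((P G u : ℝ) : ℂ)‖ := by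
      funext z
      simp_rw [hFn]
      rw [integral_const_mul]
    rw [this]
    exact hcc.mul_right _
  have key := integral_tsum_of_summable_integral_norm hFi hsum
  have hint : ∀ z : ℕ × ℕ, ∫ u, F z u = ((a12c N z.1 * a12c N z.2 : ℝ) : ℂ) *
      cexp (I * t * (Real.log (z.2 + 1) - Real.log (z.1 + 1) : ℝ)) *
      (Real.exp (-(G * |Real.log (z.2 + 1) - Real.log (z.1 + 1)|)) : ℂ) := by
    intro z
    rw [hF]
    simp only
    rw [integral_const_mul]
    congr 1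
    exact P_ft hG _
  simp_rw [hint] at key
  rw [key]
  unfold B
  rw [← integral_complex_ofReal]
  refine integral_congr_ae (Filter.Eventually.of_forall fun u => ?_)
  simp only
  have hD : D N (t + u) = ∑' n : ℕ, (a12c N n : ℂ) * cexp (-(I * ((t + u : ℝ) : ℂ) * (Real.log (n + 1) : ℝ))) := by
    unfold D
    exact tsum_congr fun n => term_eq N (t + u) n
  have hDn : Summable (fun n : ℕ => ‖(a12c N n : ℂ) * cexp (-(I * ((t + u : ℝ) : ℂ) * (Real.log (n + 1) : ℝ)))‖) := by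
    refine hc.congr fun n => ?_
    rw [norm_mul, Complex.norm_real, Real.norm_eq_abs, abs_of_nonneg (a12c_nonneg N n), Complex.norm_exp]
    simp
  have hDc : (starRingEnd ℂ) (D N (t + u)) =
      ∑' n : ℕ, (a12c N n : ℂ) * cexp (I * ((t + u : ℝ) : ℂ) * (Real.log (n + 1) : ℝ)) := by
    rw [hD, Complex.conj_tsum]
    refine tsum_congr fun n => ?_
    rw [map_mul, Complex.conj_ofReal, ← Complex.exp_conj]
    congr 2
    simp
  have hDcn : Summable (fun n : ℕ => ‖(a12c N n : ℂ) * cexp (I * ((t + u : ℝ) : ℂ) * (Real.log (n + 1) : ℝ))‖) := by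
    refine hc.congr fun n => ?_
    rw [norm_mul, Complex.norm_real, Real.norm_eq_abs, abs_of_nonneg (a12c_nonneg N n), Complex.norm_exp]
    simp
  have hsq : ((‖D N (t + u)‖ ^ 2 : ℝ) : ℂ) = D N (t + u) * (starRingEnd ℂ) (D N (t + u)) := by
    rw [Complex.mul_conj, Complex.normSq_eq_norm_sq]
  rw [Complex.ofReal_mul, hsq, hDc, hD, tsum_mul_tsum_of_summable_norm hDn hDcn, ← tsum_mul_right]
  refine tsum_congr fun z => ?_
  rw [hF]
  simp only
  have : cexp (I * t * (Real.log (z.2 + 1) - Real.log (z.1 + 1) : ℝ)) *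
      cexp (I * u * (Real.log (z.2 + 1) - Real.log (z.1 + 1) : ℝ)) =
      cexp (-(I * ((t + u : ℝ) : ℂ) * (Real.log (z.1 + 1) : ℝ))) *
        cexp (I * ((t + u : ℝ) : ℂ) * (Real.log (z.2 + 1) : ℝ)) := by
    rw [← Complex.exp_add, ← Complex.exp_add]
    congr 1
    push_cast
    ring
  calc _ = ((a12c N z.1 : ℝ) : ℂ) * ((a12c N z.2 : ℝ) : ℂ) * ((P G u : ℝ) : ℂ) *
        (cexp (-(I * ((t + u : ℝ) : ℂ) * (Real.log (z.1 + 1) : ℝ))) *
        cexp (I * ((t + u : ℝ) : ℂ) * (Real.log (z.2 + 1) : ℝ))) := by ring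
    _ = _ := by
      rw [← this, Complex.ofReal_mul]
      ring

private theorem pair_eq {N G t : ℝ} (h n : ℕ) :
    ((a12c N n * a12c N (n + (h + 1)) : ℝ) : ℂ) *
      cexp (I * t * (Real.log (((n + (h + 1) : ℕ) : ℝ) + 1) - Real.log (n + 1) : ℝ)) *
      (Real.exp (-(G * |Real.log (((n + (h + 1) : ℕ) : ℝ) + 1) - Real.log (n + 1)|)) : ℂ) =
      f N G t (h + 1) (n + 1) := by
  have h1 : (0 : ℝ) ≤ n := Nat.cast_nonneg _
  have h2 : (0 : ℝ) ≤ h := Nat.cast_nonneg _
  have e0 : ((n + (h + 1) : ℕ) : ℝ) + 1 = (n : ℝ) + 1 + (h + 1) := by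
    push_cast
    ring
  have e1 : Real.log ((n : ℝ) + 1 + (h + 1)) - Real.log (n + 1) =
      Real.log (((n : ℝ) + 1 + (h + 1)) / (n + 1)) :=
    (Real.log_div (by positivity) (by positivity)).symm
  have e2 : 0 ≤ Real.log (((n : ℝ) + 1 + (h + 1)) / (n + 1)) :=
    Real.log_nonneg (by rw [le_div_iff₀ (by positivity)]; linarith)
  have e3 : a12c N n * a12c N (n + (h + 1)) = (Real.sqrt (((n : ℝ) + 1) * ((n : ℝ) + 1 + (h + 1))))⁻¹ *
      Real.exp (-((2 * ((n : ℝ) + 1) + (h + 1)) / N)) := by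
    unfold a12c
    rw [e0, Real.sqrt_mul (by positivity), mul_inv]
    have : Real.exp (-((2 * ((n : ℝ) + 1) + (h + 1)) / N)) =
        Real.exp (-(((n : ℝ) + 1) / N)) * Real.exp (-(((n : ℝ) + 1 + (h + 1)) / N)) := by
      rw [← Real.exp_add]
      congr 1
      ring
    rw [this]
    ring
  rw [e3, e0, e1, abs_of_nonneg e2, f, mul_assoc]
  congr 1
  rw [Complex.ofReal_exp, ← Complex.exp_add]
  congr 1
  push_cast
  ring

theorem B_series {N G t : ℝ} (hN : 1 ≤ N) (hG : 0 < G) :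
    B N G t = mN N + 2 * (∑' h : ℕ, ∑' n : ℕ, f N G t (h + 1) (n + 1)).re := by
  have h0 : 0 < N := by linarith
  have hc := summable_a12c h0
  have hcc : Summable (fun z : ℕ × ℕ => a12c N z.1 * a12c N z.2) :=
    hc.mul_of_nonneg hc (a12c_nonneg N) (a12c_nonneg N)
  set g : ℕ × ℕ → ℂ := fun z => ((a12c N z.1 * a12c N z.2 : ℝ) : ℂ) *
      cexp (I * t * (Real.log (z.2 + 1) - Real.log (z.1 + 1) : ℝ)) *
      (Real.exp (-(G * |Real.log (z.2 + 1) - Real.log (z.1 + 1)|)) : ℂ) with hg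
  have hgs : Summable g := by
    refine Summable.of_norm_bounded hcc fun z => ?_
    rw [hg]
    simp only
    rw [norm_mul, norm_mul, Complex.norm_real, Complex.norm_real, Real.norm_eq_abs, Real.norm_eq_abs,
      abs_of_nonneg (mul_nonneg (a12c_nonneg N _) (a12c_nonneg N _)), abs_of_pos (Real.exp_pos _)]
    have e1 : ‖cexp (I * t * (Real.log (z.2 + 1) - Real.log (z.1 + 1) : ℝ))‖ = 1 := by
      rw [Complex.norm_exp]
      simp
    have e2 : Real.exp (-(G * |Real.log ((z.2 : ℝ) + 1) - Real.log (z.1 + 1)|)) ≤ 1 := by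
      rw [Real.exp_le_one_iff]
      have := mul_nonneg hG.le (abs_nonneg (Real.log ((z.2 : ℝ) + 1) - Real.log (z.1 + 1)))
      linarith
    rw [e1, mul_one]
    exact mul_le_of_le_one_right (mul_nonneg (a12c_nonneg N _) (a12c_nonneg N _)) e2
  have hfs : Summable (fun p : ℕ × ℕ => f N G t (p.1 + 1) (p.2 + 1)) :=
    (f_summable hN hG.le).of_norm
  have key : ((B N G t : ℝ) : ℂ) = ∑' z, g z := B_double hN hG
  rw [tsum_split hgs] at key
  have d1 : ∑' n : ℕ, g (n, n) = ((mN N : ℝ) : ℂ) := by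
    unfold mN
    rw [Complex.ofReal_tsum]
    refine tsum_congr fun n => ?_
    rw [hg]
    simp only [sub_self, abs_zero, mul_zero, neg_zero, Real.exp_zero, Complex.ofReal_zero,
      Complex.exp_zero, Complex.ofReal_one, mul_one]
    congr 1
    unfold a12c
    have h1 : (0 : ℝ) < (n : ℝ) + 1 := by positivity
    have h2 : Real.sqrt ((n : ℝ) + 1) * Real.sqrt ((n : ℝ) + 1) = (n : ℝ) + 1 :=
      Real.mul_self_sqrt h1.le
    have h3 : Real.exp (-(2 * ((n : ℝ) + 1) / N)) =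
        Real.exp (-(((n : ℝ) + 1) / N)) * Real.exp (-(((n : ℝ) + 1) / N)) := by
      rw [← Real.exp_add]
      congr 1
      ring
    have h4 : ((n : ℝ) + 1)⁻¹ = (Real.sqrt ((n : ℝ) + 1))⁻¹ * (Real.sqrt ((n : ℝ) + 1))⁻¹ := by
      rw [← mul_inv, h2]
    rw [h3, div_eq_mul_inv _ ((n : ℝ) + 1), h4]
    ring
  have d2 : ∑' p : ℕ × ℕ, g (p.2, p.2 + (p.1 + 1)) = ∑' p : ℕ × ℕ, f N G t (p.1 + 1) (p.2 + 1) := by
    refine tsum_congr fun p => ?_
    rw [hg]
    exact pair_eq p.1 p.2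
  have d3 : ∑' p : ℕ × ℕ, g (p.2 + (p.1 + 1), p.2) =
      (starRingEnd ℂ) (∑' p : ℕ × ℕ, f N G t (p.1 + 1) (p.2 + 1)) := by
    rw [Complex.conj_tsum]
    refine tsum_congr fun p => ?_
    rw [← pair_eq p.1 p.2, hg]
    simp only
    rw [map_mul, map_mul, Complex.conj_ofReal, Complex.conj_ofReal, ← Complex.exp_conj,
      mul_comm (a12c N (p.2 + (p.1 + 1))), abs_sub_comm]
    congr 3
    simp only [map_mul, Complex.conj_I, Complex.conj_ofReal]
    push_cast
    ring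
  rw [d1, d2, d3, Complex.add_conj, hfs.tsum_prod] at key
  have := congrArg Complex.re key
  simp only [Complex.ofReal_re, Complex.add_re] at this
  exact this

theorem B_nonneg {N G t : ℝ} (hG : 0 < G) : 0 ≤ B N G t := by
  unfold B
  refine integral_nonneg fun u => ?_
  simp only [Pi.zero_apply]
  unfold P
  have := Real.pi_pos
  positivity

theorem mN_le : ∃ C : ℝ, 0 < C ∧ ∀ N : ℝ, 2 ≤ N → mN N ≤ C * Real.log N := by
  refine ⟨1, one_pos, fun N hN => ?_⟩
  have h0 : 0 < N := by linarith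
  set x : ℝ := Real.exp (-(2 / N)) with hx
  have hx0 : 0 < x := Real.exp_pos _
  have hx1 : x < 1 := by
    rw [hx, Real.exp_lt_one_iff]
    have : 0 < 2 / N := by positivity
    linarith
  have hs := Real.hasSum_pow_div_log_of_abs_lt_one (x := x) (by rw [abs_of_pos hx0]; exact hx1)
  have e1 : mN N = -Real.log (1 - x) := by
    rw [← hs.tsum_eq]
    unfold mN
    refine tsum_congr fun n => ?_
    congr 1
    rw [hx, ← Real.exp_nat_mul]
    congr 1
    push_cast
    ring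
  have hy : (2 / N : ℝ) ≤ 1 := by
    rw [div_le_one h0]
    exact hN
  have hy0 : 0 < 2 / N := by positivity
  have e2 : 1 / N ≤ 1 - x := by
    have h1 : 1 + 2 / N ≤ Real.exp (2 / N) := by
      have := Real.add_one_le_exp (2 / N)
      linarith
    have h2 : x ≤ (1 + 2 / N)⁻¹ := by
      rw [hx, Real.exp_neg]
      exact inv_anti₀ (by positivity) h1
    have h3 : (1 + 2 / N)⁻¹ ≤ 1 - 1 / N := by
      rw [inv_le_comm₀ (by positivity) (by
        have : 1 / N ≤ 1 / 2 := one_div_le_one_div_of_le (by norm_num) hN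
        linarith)]
      rw [← one_div, div_le_iff₀ (by
        have : 1 / N ≤ 1 / 2 := one_div_le_one_div_of_le (by norm_num) hN
        linarith)]
      have e : (2 / N : ℝ) = 2 * (1 / N) := by ring
      rw [e]
      have h4 : 1 / N ≤ 1 / 2 := one_div_le_one_div_of_le (by norm_num) hN
      have h5 : 0 < 1 / N := by positivity
      nlinarith
    linarith
  rw [e1, one_mul]
  have h3 : Real.log (1 / N) ≤ Real.log (1 - x) := Real.log_le_log (by positivity) e2
  rw [one_div, Real.log_inv] at h3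
  linarith
end U6
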