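import Pool.Agent.Lib.MP_39df77_nt.U6.Defs
/-! A13: the frequencies `m = 0`. `∑_{h ≥ 1} e^{-h c/N} = 1/(e^{c/N}-1)`, `c = coth(w/2)`, `1/(e^y-1) = 1/y - ρ(y)`,
`0 ≤ ρ(y) ≤ min(1/2... , 1/y)`. First part `N ∫ 2cos(tw) e^{-Gw}/(2cosh(w/2)) dw = O(N G/t²)` (two integrations by parts),
second part `≤ ∫_0^∞ e^{-Gw} min(1, N tanh(w/2)) dw/sinh(w/2) ≤ C log N`. -/
open Complex MeasureTheory Set
namespace U6

namespace A13

/-- real factor -/
noncomputable def R (ρ w : ℝ) : ℝ :=
  Real.exp (-(ρ * (Real.cosh (w / 2) / Real.sinh (w / 2)))) / (2 * Real.sinh (w / 2))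

theorem ker_eq (G t ρ w : ℝ) :
    ker (G - t * I) (Real.pi * I * (0 : ℤ) - ρ) w =
      cexp (-((G - t * I) * w)) * (R ρ w : ℂ) := by
  unfold ker R
  push_cast
  rw [mul_zero, zero_sub, Complex.exp_add]
  have h : (-(ρ : ℂ)) * (Complex.cosh (w / 2) / Complex.sinh (w / 2)) =
      -((ρ : ℂ) * (Complex.cosh (w / 2) / Complex.sinh (w / 2))) := by ring
  rw [h]
  ring

theorem sinh_pos {w : ℝ} (hw : 0 < w) : 0 < Real.sinh (w / 2) := Real.sinh_pos_iff.mpr (by linarith)

theorem norm_exp (G t w : ℝ) : ‖cexp (-((G - t * I) * w))‖ = Real.exp (-(G * w)) := by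
  rw [Complex.norm_exp]
  congr 1
  simp

theorem R_nonneg (ρ : ℝ) {w : ℝ} (hw : 0 < w) : 0 ≤ R ρ w :=
  div_nonneg (Real.exp_pos _).le (by have := sinh_pos hw; linarith)

theorem norm_ker (G t ρ : ℝ) {w : ℝ} (hw : 0 < w) :
    ‖ker (G - t * I) (Real.pi * I * (0 : ℤ) - ρ) w‖ = Real.exp (-(G * w)) * R ρ w := by
  rw [ker_eq, norm_mul, norm_exp, Complex.norm_real, Real.norm_of_nonneg (R_nonneg ρ hw)]

/-- `e^{-y} ≤ 1/y` -/
theorem exp_neg_le {y : ℝ} (hy : 0 < y) : Real.exp (-y) ≤ 1 / y := by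
  rw [Real.exp_neg, one_div]
  refine inv_anti₀ hy ?_
  have := Real.add_one_le_exp y
  linarith

theorem R_le {ρ w : ℝ} (hρ : 0 < ρ) (hw : 0 < w) : R ρ w ≤ 1 / (2 * ρ) := by
  have hs := sinh_pos hw
  have hc : 1 ≤ Real.cosh (w / 2) := Real.one_le_cosh _
  have hy : 0 < ρ * (Real.cosh (w / 2) / Real.sinh (w / 2)) := by positivity
  unfold R
  calc Real.exp (-(ρ * (Real.cosh (w / 2) / Real.sinh (w / 2)))) / (2 * Real.sinh (w / 2))
      ≤ (1 / (ρ * (Real.cosh (w / 2) / Real.sinh (w / 2)))) / (2 * Real.sinh (w / 2)) := by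
        gcongr
        exact exp_neg_le hy
    _ = 1 / (2 * ρ * Real.cosh (w / 2)) := by
        field_simp
    _ ≤ 1 / (2 * ρ) := by
        apply one_div_le_one_div_of_le (by linarith)
        nlinarith

theorem meas_ker (G t ρ : ℝ) :
    AEStronglyMeasurable (fun w : ℝ => ker (G - t * I) (Real.pi * I * (0 : ℤ) - ρ) w)
      (volume.restrict (Ioi 0)) := by
  refine ContinuousOn.aestronglyMeasurable ?_ measurableSet_Ioi
  have h : ContinuousOn (fun w : ℝ => cexp (-((G - t * I) * w)) * (R ρ w : ℂ)) (Ioi 0) := by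
    refine ContinuousOn.mul (by fun_prop) (Complex.continuous_ofReal.comp_continuousOn ?_)
    unfold R
    intro w hw
    have hs := (sinh_pos (mem_Ioi.mp hw)).ne'
    refine ContinuousAt.continuousWithinAt ?_
    refine ContinuousAt.div ?_ (by fun_prop) (by simpa using hs)
    refine Real.continuous_exp.continuousAt.comp ?_
    refine ContinuousAt.neg (ContinuousAt.mul continuousAt_const ?_)
    exact ContinuousAt.div (by fun_prop) (by fun_prop) hs
  refine h.congr fun w _ => ker_eq G t ρ w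

theorem intG {G : ℝ} (hG : 0 < G) : IntegrableOn (fun w : ℝ => Real.exp (-(G * w))) (Ioi 0) := by
  have := integrableOn_exp_mul_Ioi (a := -G) (by linarith) 0
  refine this.congr_fun (fun w _ => by simp) measurableSet_Ioi

theorem integral_G {G : ℝ} (hG : 0 < G) : ∫ w in Ioi (0 : ℝ), Real.exp (-(G * w)) = 1 / G := by
  have := integral_exp_mul_Ioi (a := -G) (by linarith) 0
  have h2 : ∫ w in Ioi (0 : ℝ), Real.exp (-(G * w)) = ∫ w in Ioi (0 : ℝ), Real.exp (-G * w) := by
    refine setIntegral_congr_fun measurableSet_Ioi fun w _ => by simp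
  rw [h2, this]
  simp

theorem integrable_ker {G t ρ : ℝ} (hG : 0 < G) (hρ : 0 < ρ) :
    IntegrableOn (fun w : ℝ => ker (G - t * I) (Real.pi * I * (0 : ℤ) - ρ) w) (Ioi 0) := by
  refine Integrable.mono' ((intG hG).mul_const (1 / (2 * ρ))) (meas_ker G t ρ) ?_
  refine (ae_restrict_iff' measurableSet_Ioi).mpr (Filter.Eventually.of_forall fun w hw => ?_)
  rw [norm_ker G t ρ hw]
  exact mul_le_mul_of_nonneg_left (R_le hρ hw) (Real.exp_pos _).le

/-- the geometric sum -/
theorem geom {y : ℝ} (hy : 0 < y) :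
    HasSum (fun h : ℕ => Real.exp (-((h + 1 : ℝ) * y))) (1 / (Real.exp y - 1)) := by
  have h1 : Real.exp (-y) < 1 := by
    rw [Real.exp_lt_one_iff]
    linarith
  have h2 := (hasSum_geometric_of_lt_one (Real.exp_pos (-y)).le h1).mul_left (Real.exp (-y))
  have h3 : Real.exp (-y) * (1 - Real.exp (-y))⁻¹ = 1 / (Real.exp y - 1) := by
    have h4 : Real.exp y * Real.exp (-y) = 1 := by rw [← Real.exp_add]; simp
    have h5 : (1 - Real.exp (-y)) ≠ 0 := by linarith
    have h6 : Real.exp y - 1 ≠ 0 := by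
      have := Real.add_one_lt_exp hy.ne'
      linarith
    rw [← div_eq_mul_inv, div_eq_div_iff h5 h6]
    linear_combination h4
  rw [h3] at h2
  refine h2.congr_fun ?_
  intro h
  rw [← Real.exp_nat_mul, ← Real.exp_add]
  congr 1
  ring

theorem geom_le {y : ℝ} (hy : 0 < y) : 1 / (Real.exp y - 1) ≤ 1 / y := by
  refine one_div_le_one_div_of_le hy ?_
  have := Real.add_one_le_exp y
  linarith

/-- the sum of the real factors -/
noncomputable def S (N w : ℝ) : ℝ :=
  (1 / (Real.exp (Real.cosh (w / 2) / Real.sinh (w / 2) / N) - 1)) / (2 * Real.sinh (w / 2))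

theorem y_pos {N w : ℝ} (hN : 0 < N) (hw : 0 < w) :
    0 < Real.cosh (w / 2) / Real.sinh (w / 2) / N := by
  have := sinh_pos hw
  have := Real.cosh_pos (w / 2)
  positivity

theorem hasSum_R {N w : ℝ} (hN : 0 < N) (hw : 0 < w) :
    HasSum (fun h : ℕ => R ((h + 1 : ℝ) / N) w) (S N w) := by
  unfold S
  refine ((geom (y_pos hN hw)).div_const _).congr_fun ?_
  intro h
  unfold R
  congr 3
  field_simp

theorem S_le {N w : ℝ} (hN : 0 < N) (hw : 0 < w) : S N w ≤ N / 2 := by
  have hs := sinh_pos hw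
  have hc : 1 ≤ Real.cosh (w / 2) := Real.one_le_cosh _
  unfold S
  calc (1 / (Real.exp (Real.cosh (w / 2) / Real.sinh (w / 2) / N) - 1)) / (2 * Real.sinh (w / 2))
      ≤ (1 / (Real.cosh (w / 2) / Real.sinh (w / 2) / N)) / (2 * Real.sinh (w / 2)) := by
        exact div_le_div_of_nonneg_right (geom_le (y_pos hN hw)) (by linarith)
    _ = N / (2 * Real.cosh (w / 2)) := by
        field_simp
    _ ≤ N / 2 := by
        apply div_le_div_of_nonneg_left hN.le (by norm_num)
        linarith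


theorem sum_norm {N G t : ℝ} (hN : 0 < N) (hG : 0 < G) (n : ℕ) :
    ∑ h ∈ Finset.range n, ∫ w in Ioi (0 : ℝ),
      ‖ker (G - t * I) (Real.pi * I * (0 : ℤ) - (((h + 1 : ℝ) / N : ℝ) : ℂ)) w‖ ≤
      N / 2 * (1 / G) := by
  have hint : ∀ h : ℕ, IntegrableOn (fun w : ℝ =>
      ker (G - t * I) (Real.pi * I * (0 : ℤ) - (((h + 1 : ℝ) / N : ℝ) : ℂ)) w) (Ioi 0) :=
    fun h => integrable_ker hG (by positivity)
  rw [← integral_finsetSum _ (fun h _ => (hint h).norm), ← integral_G hG, ← integral_const_mul]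
  refine setIntegral_mono_on (integrable_finsetSum _ fun h _ => (hint h).norm)
    ((intG hG).const_mul _) measurableSet_Ioi fun w hw => ?_
  have hw' : 0 < w := hw
  simp_rw [norm_ker G t _ hw']
  rw [← Finset.mul_sum, mul_comm]
  refine mul_le_mul_of_nonneg_right ?_ (Real.exp_pos _).le
  exact (sum_le_hasSum _ (fun h _ => R_nonneg _ hw') (hasSum_R hN hw')).trans (S_le hN hw')

theorem summable_norm {N G t : ℝ} (hN : 0 < N) (hG : 0 < G) :
    Summable fun h : ℕ => ∫ w in Ioi (0 : ℝ),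
      ‖ker (G - t * I) (Real.pi * I * (0 : ℤ) - (((h + 1 : ℝ) / N : ℝ) : ℂ)) w‖ :=
  summable_of_sum_range_le (fun h => integral_nonneg fun w => norm_nonneg _)
    (fun n => sum_norm hN hG n)

theorem tsum_II {N G t : ℝ} (hN : 0 < N) (hG : 0 < G) :
    ∑' h : ℕ, II G t 0 ((h + 1 : ℝ) / N) =
      ∫ w in Ioi (0 : ℝ), cexp (-((G - t * I) * w)) * (S N w : ℂ) := by
  have h1 := hasSum_integral_of_summable_integral_norm (μ := volume.restrict (Ioi (0 : ℝ)))
    (F := fun (h : ℕ) (w : ℝ) =>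
      ker (G - t * I) (Real.pi * I * (0 : ℤ) - (((h + 1 : ℝ) / N : ℝ) : ℂ)) w)
    (fun h => integrable_ker hG (by positivity)) (summable_norm hN hG)
  have h2 : ∑' h : ℕ, II G t 0 ((h + 1 : ℝ) / N) = _ := h1.tsum_eq
  rw [h2]
  refine setIntegral_congr_fun measurableSet_Ioi fun w hw => ?_
  have hw' : 0 < w := hw
  simp only [ker_eq]
  rw [tsum_mul_left]
  congr 1
  rw [← Complex.ofReal_tsum, (hasSum_R hN hw').tsum_eq]

/-- the remainder -/
noncomputable def Q (N w : ℝ) : ℝ := N / (2 * Real.cosh (w / 2)) - S N w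

theorem Q_nonneg {N w : ℝ} (hN : 0 < N) (hw : 0 < w) : 0 ≤ Q N w := by
  have hs := sinh_pos hw
  have hc := Real.cosh_pos (w / 2)
  unfold Q S
  have h1 : (1 / (Real.exp (Real.cosh (w / 2) / Real.sinh (w / 2) / N) - 1)) /
      (2 * Real.sinh (w / 2)) ≤
      (1 / (Real.cosh (w / 2) / Real.sinh (w / 2) / N)) / (2 * Real.sinh (w / 2)) :=
    div_le_div_of_nonneg_right (geom_le (y_pos hN hw)) (by linarith)
  have h2 : (1 / (Real.cosh (w / 2) / Real.sinh (w / 2) / N)) / (2 * Real.sinh (w / 2)) =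
      N / (2 * Real.cosh (w / 2)) := by
    field_simp
  linarith

theorem S_nonneg {N w : ℝ} (hN : 0 < N) (hw : 0 < w) : 0 ≤ S N w := by
  have hs := sinh_pos hw
  unfold S
  have h1 := Real.add_one_le_exp (Real.cosh (w / 2) / Real.sinh (w / 2) / N)
  have h2 := y_pos hN hw
  refine div_nonneg (div_nonneg zero_le_one ?_) (by linarith)
  linarith

theorem Q_le1 {N w : ℝ} (hN : 0 < N) (hw : 0 < w) : Q N w ≤ N / 2 := by
  have hc : 1 ≤ Real.cosh (w / 2) := Real.one_le_cosh _
  have h1 := S_nonneg hN hw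
  have h2 : N / (2 * Real.cosh (w / 2)) ≤ N / 2 := by
    apply div_le_div_of_nonneg_left hN.le (by norm_num)
    linarith
  unfold Q
  linarith

/-- `1/y - 1/(e^y - 1) ≤ 1` -/
theorem rho_le {y : ℝ} (hy : 0 < y) : 1 / y - 1 / (Real.exp y - 1) ≤ 1 := by
  have h1 : Real.exp y - 1 ≤ y * Real.exp y := by
    have h2 := Real.add_one_le_exp (-y)
    have h3 : Real.exp y * Real.exp (-y) = 1 := by rw [← Real.exp_add]; simp
    have h4 := Real.exp_pos y
    nlinarith
  have h0 : 0 < Real.exp y - 1 := by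
    have := Real.add_one_lt_exp hy.ne'
    linarith
  rw [div_sub_div _ _ hy.ne' h0.ne', div_le_one (by positivity)]
  linarith

theorem Q_le2 {N w : ℝ} (hN : 0 < N) (hw : 0 < w) : Q N w ≤ 1 / w := by
  have hs := sinh_pos hw
  have hc := Real.cosh_pos (w / 2)
  have hws : w ≤ 2 * Real.sinh (w / 2) := by
    have := Real.self_le_sinh_iff.mpr (by linarith : (0 : ℝ) ≤ w / 2)
    linarith
  have h2 : (1 / (Real.cosh (w / 2) / Real.sinh (w / 2) / N)) / (2 * Real.sinh (w / 2)) =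
      N / (2 * Real.cosh (w / 2)) := by
    field_simp
  unfold Q S
  rw [← h2, ← sub_div]
  calc _ ≤ 1 / (2 * Real.sinh (w / 2)) :=
        div_le_div_of_nonneg_right (rho_le (y_pos hN hw)) (by linarith)
    _ ≤ 1 / w := one_div_le_one_div_of_le hw hws

theorem Q_le {N w : ℝ} (hN : 0 < N) (hw : 0 < w) : Q N w ≤ 2 * (1 / (w + 1 / N)) := by
  have hN' : 0 < 1 / N := by positivity
  rcases le_total w (1 / N) with h | h
  · refine (Q_le1 hN hw).trans ?_
    have h1 : w + 1 / N ≤ 2 * (1 / N) := by linarith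
    have h2 : 1 / (2 * (1 / N)) ≤ 1 / (w + 1 / N) :=
      one_div_le_one_div_of_le (by positivity) h1
    have h3 : 1 / (2 * (1 / N)) = N / 2 := by field_simp
    rw [h3] at h2
    linarith
  · refine (Q_le2 hN hw).trans ?_
    have h1 : w + 1 / N ≤ 2 * w := by linarith
    have h2 : 1 / (2 * w) ≤ 1 / (w + 1 / N) := one_div_le_one_div_of_le (by positivity) h1
    have h3 : 1 / (2 * w) = 1 / w / 2 := by field_simp
    rw [h3] at h2
    linarith

/-- `H(w) = -e^{-w} log(1 + 1/(w+δ))` -/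
noncomputable def H (δ w : ℝ) : ℝ := -(Real.exp (-w) * Real.log (1 + 1 / (w + δ)))

noncomputable def H' (δ w : ℝ) : ℝ :=
  Real.exp (-w) * (Real.log (1 + 1 / (w + δ)) + 1 / ((w + δ) * (w + δ + 1)))

theorem hasDerivAt_H {δ w : ℝ} (hδ : 0 < δ) (hw : 0 ≤ w) : HasDerivAt (H δ) (H' δ w) w := by
  have h0 : 0 < w + δ := by linarith
  have h1 : HasDerivAt (fun w : ℝ => 1 + 1 / (w + δ)) (-1 / (w + δ) ^ 2) w := by
    have := ((hasDerivAt_id w).add_const δ).inv h0.ne'
    simpa [one_div] using this.const_add 1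
  have h2 := h1.log (by positivity)
  have h3 : HasDerivAt (fun w : ℝ => Real.exp (-w)) (-Real.exp (-w)) w := by
    simpa using ((hasDerivAt_id w).neg).exp
  have h4 := (h3.mul h2).neg
  refine h4.congr_deriv ?_
  unfold H'
  field_simp
  ring

theorem H'_ge {δ w : ℝ} (hδ : 0 < δ) (hw : 0 ≤ w) :
    Real.exp (-w) * (1 / (w + δ)) ≤ H' δ w := by
  have h0 : 0 < w + δ := by linarith
  refine mul_le_mul_of_nonneg_left ?_ (Real.exp_pos _).le
  have h1 : 1 / (w + δ + 1) ≤ Real.log (1 + 1 / (w + δ)) := by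
    have h2 := Real.one_sub_inv_le_log_of_pos (x := 1 + 1 / (w + δ)) (by positivity)
    refine le_trans (le_of_eq ?_) h2
    field_simp
    ring
  have h3 : 1 / (w + δ) = 1 / (w + δ + 1) + 1 / ((w + δ) * (w + δ + 1)) := by
    field_simp
  linarith

theorem H'_nonneg {δ w : ℝ} (hδ : 0 < δ) (hw : 0 ≤ w) : 0 ≤ H' δ w :=
  le_trans (by have : 0 < w + δ := by linarith
               positivity) (H'_ge hδ hw)

theorem H_tendsto {δ : ℝ} (hδ : 0 < δ) : Filter.Tendsto (H δ) Filter.atTop (nhds 0) := by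
  have h1 : Filter.Tendsto (fun w : ℝ => Real.exp (-w)) Filter.atTop (nhds 0) :=
    Real.tendsto_exp_neg_atTop_nhds_zero
  have h2 : Filter.Tendsto (fun w : ℝ => Real.log (1 + 1 / (w + δ))) Filter.atTop (nhds 0) := by
    have h3 : Filter.Tendsto (fun w : ℝ => 1 + 1 / (w + δ)) Filter.atTop (nhds (1 + 0)) := by
      refine Filter.Tendsto.const_add 1 ?_
      simp_rw [one_div]
      exact (Filter.tendsto_atTop_add_const_right _ δ Filter.tendsto_id).inv_tendsto_atTop
    rw [add_zero] at h3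
    have h4 := (Real.continuousAt_log (x := 1) one_ne_zero).tendsto.comp h3
    rw [Real.log_one] at h4
    exact h4
  have h5 := (h1.mul h2).neg
  rw [mul_zero, neg_zero] at h5
  exact h5

theorem integral_H' {δ : ℝ} (hδ : 0 < δ) :
    IntegrableOn (H' δ) (Ioi 0) ∧ ∫ w in Ioi (0 : ℝ), H' δ w = Real.log (1 + 1 / δ) := by
  have hc : ContinuousWithinAt (H δ) (Ici 0) 0 :=
    (hasDerivAt_H hδ le_rfl).continuousAt.continuousWithinAt
  have hd : ∀ w ∈ Ioi (0 : ℝ), HasDerivAt (H δ) (H' δ w) w :=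
    fun w hw => hasDerivAt_H hδ (le_of_lt hw)
  have hn : ∀ w ∈ Ioi (0 : ℝ), 0 ≤ H' δ w := fun w hw => H'_nonneg hδ (le_of_lt hw)
  refine ⟨integrableOn_Ioi_deriv_of_nonneg hc hd hn (H_tendsto hδ), ?_⟩
  rw [integral_Ioi_of_hasDerivAt_of_nonneg hc hd hn (H_tendsto hδ)]
  simp [H]

theorem aes {f : ℝ → ℝ} (G t : ℝ) (hf : ContinuousOn f (Ioi 0)) :
    AEStronglyMeasurable (fun w : ℝ => cexp (-((G - t * I) * w)) * (f w : ℂ))
      (volume.restrict (Ioi 0)) := by
  refine ContinuousOn.aestronglyMeasurable ?_ measurableSet_Ioi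
  exact ContinuousOn.mul (by fun_prop) (Complex.continuous_ofReal.comp_continuousOn hf)

theorem integrable_of_bdd {f : ℝ → ℝ} {G t C : ℝ} (hG : 0 < G) (hf : ContinuousOn f (Ioi 0))
    (hC : ∀ w, 0 < w → |f w| ≤ C) :
    IntegrableOn (fun w : ℝ => cexp (-((G - t * I) * w)) * (f w : ℂ)) (Ioi 0) := by
  refine Integrable.mono' ((intG hG).mul_const C) (aes G t hf) ?_
  refine (ae_restrict_iff' measurableSet_Ioi).mpr (Filter.Eventually.of_forall fun w hw => ?_)
  rw [norm_mul, norm_exp, Complex.norm_real, Real.norm_eq_abs]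
  exact mul_le_mul_of_nonneg_left (hC w hw) (Real.exp_pos _).le

theorem norm_integral_le {f : ℝ → ℝ} {G t C : ℝ} (hG : 0 < G)
    (hC : ∀ w, 0 < w → |f w| ≤ C) :
    ‖∫ w in Ioi (0 : ℝ), cexp (-((G - t * I) * w)) * (f w : ℂ)‖ ≤ C * (1 / G) := by
  rw [← integral_G hG, ← integral_const_mul]
  refine norm_integral_le_of_norm_le ((intG hG).const_mul C) ?_
  refine (ae_restrict_iff' measurableSet_Ioi).mpr (Filter.Eventually.of_forall fun w hw => ?_)
  rw [norm_mul, norm_exp, Complex.norm_real, Real.norm_eq_abs, mul_comm]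
  exact mul_le_mul_of_nonneg_right (hC w hw) (Real.exp_pos _).le

/-! ### the first part -/

noncomputable def g (w : ℝ) : ℝ := 1 / Real.cosh (w / 2)
noncomputable def g1 (w : ℝ) : ℝ := -(Real.sinh (w / 2) / (2 * Real.cosh (w / 2) ^ 2))
noncomputable def g2 (w : ℝ) : ℝ :=
  -(1 / (4 * Real.cosh (w / 2))) + Real.sinh (w / 2) ^ 2 / (2 * Real.cosh (w / 2) ^ 3)

theorem hasDerivAt_c (w : ℝ) :
    HasDerivAt (fun w : ℝ => Real.cosh (w / 2)) (Real.sinh (w / 2) * (1 / 2)) w := by
  have h := ((hasDerivAt_id w).div_const 2).cosh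
  simpa using h

theorem hasDerivAt_s (w : ℝ) :
    HasDerivAt (fun w : ℝ => Real.sinh (w / 2)) (Real.cosh (w / 2) * (1 / 2)) w := by
  have h := ((hasDerivAt_id w).div_const 2).sinh
  simpa using h

theorem hasDerivAt_g (w : ℝ) : HasDerivAt g (g1 w) w := by
  have hc := (Real.cosh_pos (w / 2)).ne'
  have h := (hasDerivAt_c w).inv hc
  have h2 : HasDerivAt g (-(Real.sinh (w / 2) * (1 / 2)) / Real.cosh (w / 2) ^ 2) w := by
    refine h.congr_of_eventuallyEq (Filter.Eventually.of_forall fun x => ?_)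
    simp [g]
  refine h2.congr_deriv ?_
  unfold g1
  field_simp

theorem hasDerivAt_g1 (w : ℝ) : HasDerivAt g1 (g2 w) w := by
  have hc := (Real.cosh_pos (w / 2)).ne'
  have hp : HasDerivAt (fun w : ℝ => 2 * Real.cosh (w / 2) ^ 2)
      (2 * (2 * Real.cosh (w / 2) * (Real.sinh (w / 2) * (1 / 2)))) w := by
    have := ((hasDerivAt_c w).fun_pow 2).const_mul 2
    simpa using this
  have h := ((hasDerivAt_s w).fun_div hp (mul_ne_zero two_ne_zero (pow_ne_zero 2 hc))).fun_neg
  refine h.congr_deriv ?_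
  unfold g2
  field_simp
  ring

theorem g_bd (w : ℝ) : |g w| ≤ 1 := by
  have hc : 1 ≤ Real.cosh (w / 2) := Real.one_le_cosh _
  unfold g
  rw [abs_of_nonneg (by positivity), div_le_one (by linarith)]
  exact hc

theorem sinh_le (w : ℝ) : |Real.sinh w| ≤ Real.cosh w := by
  have h := Real.cosh_sq w
  have hc := Real.cosh_pos w
  refine abs_le_of_sq_le_sq ?_ hc.le
  linarith

theorem g1_bd (w : ℝ) : |g1 w| ≤ 1 := by
  have hc : 1 ≤ Real.cosh (w / 2) := Real.one_le_cosh _
  have hs := sinh_le (w / 2)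
  unfold g1
  rw [abs_neg, abs_div, abs_of_pos (by positivity : 0 < 2 * Real.cosh (w / 2) ^ 2),
    div_le_one (by positivity)]
  nlinarith

theorem g2_bd (w : ℝ) : |g2 w| ≤ 1 := by
  have hc : 1 ≤ Real.cosh (w / 2) := Real.one_le_cosh _
  have hs := Real.cosh_sq (w / 2)
  unfold g2
  have h1 : 0 ≤ 1 / (4 * Real.cosh (w / 2)) := by positivity
  have h2 : 1 / (4 * Real.cosh (w / 2)) ≤ 1 := by
    rw [div_le_one (by positivity)]
    linarith
  have h3 : 0 ≤ Real.sinh (w / 2) ^ 2 / (2 * Real.cosh (w / 2) ^ 3) := by positivity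
  have h4 : Real.sinh (w / 2) ^ 2 / (2 * Real.cosh (w / 2) ^ 3) ≤ 1 := by
    rw [div_le_one (by positivity)]
    nlinarith [pow_pos (Real.cosh_pos (w / 2)) 2]
  rw [abs_le]
  constructor <;> linarith

theorem cont_g : Continuous g := by
  unfold g
  exact Continuous.div (by fun_prop) (by fun_prop) fun w => (Real.cosh_pos _).ne'

theorem cont_g2 : Continuous g2 := by
  unfold g2
  refine Continuous.add (Continuous.neg (Continuous.div (by fun_prop) (by fun_prop) fun w => ?_))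
    (Continuous.div (by fun_prop) (by fun_prop) fun w => ?_)
  · have := Real.cosh_pos (w / 2)
    positivity
  · have := Real.cosh_pos (w / 2)
    positivity

theorem first_eq {G t : ℝ} (hG : 0 < G) :
    ∫ w in Ioi (0 : ℝ), cexp (-((G - t * I) * w)) * (g w : ℂ) =
      1 / (G - t * I) + 1 / (G - t * I) ^ 2 *
        ∫ w in Ioi (0 : ℝ), cexp (-((G - t * I) * w)) * (g2 w : ℂ) := by
  set a : ℂ := G - t * I with ha
  have ha0 : a ≠ 0 := by
    intro h
    have := congrArg Complex.re h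
    simp [ha] at this
    linarith
  have hi1 : IntegrableOn (fun w : ℝ => cexp (-(a * w)) * (g w : ℂ)) (Ioi 0) :=
    integrable_of_bdd hG cont_g.continuousOn fun w _ => g_bd w
  have hi2 : IntegrableOn (fun w : ℝ => cexp (-(a * w)) * (g2 w : ℂ)) (Ioi 0) :=
    integrable_of_bdd hG cont_g2.continuousOn fun w _ => g2_bd w
  have hd : ∀ w : ℝ, HasDerivAt
      (fun w : ℝ => -(cexp (-(a * w)) * ((g w : ℂ) / a + (g1 w : ℂ) / a ^ 2)))
      (cexp (-(a * w)) * (g w : ℂ) - 1 / a ^ 2 * (cexp (-(a * w)) * (g2 w : ℂ))) w := by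
    intro w
    have h1 : HasDerivAt (fun w : ℝ => cexp (-(a * w))) (cexp (-(a * w)) * (-a)) w := by
      have h2 : HasDerivAt (fun w : ℝ => -(a * (w : ℂ))) (-a) w := by
        have h3 := ((Complex.ofRealCLM.hasDerivAt (x := w)).const_mul a).fun_neg
        simpa using h3
      exact h2.cexp
    have h3 := (hasDerivAt_g w).ofReal_comp.div_const a
    have h4 := (hasDerivAt_g1 w).ofReal_comp.div_const (a ^ 2)
    refine ((h1.fun_mul (h3.fun_add h4)).fun_neg).congr_deriv ?_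
    field_simp
    ring
  have hlim : Filter.Tendsto
      (fun w : ℝ => -(cexp (-(a * w)) * ((g w : ℂ) / a + (g1 w : ℂ) / a ^ 2)))
      Filter.atTop (nhds 0) := by
    refine squeeze_zero_norm (a := fun w => Real.exp (-(G * w)) * (1 / ‖a‖ + 1 / ‖a‖ ^ 2))
      (fun w => ?_) ?_
    · rw [norm_neg, norm_mul, ha, norm_exp, ← ha]
      refine mul_le_mul_of_nonneg_left ?_ (Real.exp_pos _).le
      refine (norm_add_le _ _).trans (add_le_add ?_ ?_)
      · rw [norm_div, Complex.norm_real, Real.norm_eq_abs]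
        exact div_le_div_of_nonneg_right (g_bd w) (norm_nonneg _)
      · rw [norm_div, norm_pow, Complex.norm_real, Real.norm_eq_abs]
        exact div_le_div_of_nonneg_right (g1_bd w) (by positivity)
    · have h1 : Filter.Tendsto (fun w : ℝ => Real.exp (-(G * w))) Filter.atTop (nhds 0) := by
        refine Real.tendsto_exp_neg_atTop_nhds_zero.comp ?_
        exact Filter.Tendsto.const_mul_atTop hG Filter.tendsto_id
      have h2 := h1.mul_const (1 / ‖a‖ + 1 / ‖a‖ ^ 2)
      rw [zero_mul] at h2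
      exact h2
  have key := integral_Ioi_of_hasDerivAt_of_tendsto (a := 0)
    (hd 0).continuousAt.continuousWithinAt (fun w _ => hd w)
    (hi1.sub (hi2.const_mul (1 / a ^ 2))) hlim
  rw [integral_sub hi1 (hi2.const_mul (1 / a ^ 2)), integral_const_mul] at key
  have h0 : g 0 = 1 := by simp [g]
  have h1 : g1 0 = 0 := by simp [g1]
  rw [h0, h1] at key
  simp at key
  have key' := sub_eq_iff_eq_add.mp key
  rw [key']
  simp

theorem first {G t : ℝ} (hG : 1 ≤ G) (ht : 1 ≤ t) :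
    |(∫ w in Ioi (0 : ℝ), cexp (-((G - t * I) * w)) * (g w : ℂ)).re| ≤ 2 * (G / t ^ 2) := by
  have hG0 : 0 < G := by linarith
  rw [first_eq hG0, Complex.add_re]
  have hn : Complex.normSq (G - t * I) = G ^ 2 + t ^ 2 := by
    rw [Complex.normSq_apply]
    simp
    ring
  have h1 : |(1 / ((G : ℂ) - t * I)).re| ≤ G / t ^ 2 := by
    rw [one_div, Complex.inv_re, hn]
    have h2 : ((G : ℂ) - t * I).re = G := by simp
    rw [h2, abs_of_nonneg (by positivity)]
    apply div_le_div_of_nonneg_left hG0.le (by positivity)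
    nlinarith
  have h2 : |(1 / ((G : ℂ) - t * I) ^ 2 *
      ∫ w in Ioi (0 : ℝ), cexp (-((G - t * I) * w)) * (g2 w : ℂ)).re| ≤ G / t ^ 2 := by
    refine (Complex.abs_re_le_norm _).trans ?_
    rw [norm_mul, norm_div, norm_pow, norm_one, ← Complex.normSq_eq_norm_sq, hn]
    have h3 := norm_integral_le (f := g2) (t := t) hG0 (fun w _ => g2_bd w)
    have h4 : (1 : ℝ) * (1 / G) ≤ G := by
      rw [one_mul, div_le_iff₀ hG0]
      nlinarith
    have h5 : 1 / (G ^ 2 + t ^ 2) ≤ 1 / t ^ 2 :=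
      one_div_le_one_div_of_le (by positivity) (by nlinarith)
    calc _ ≤ 1 / t ^ 2 * G := by
          refine mul_le_mul h5 (h3.trans h4) (norm_nonneg _) (by positivity)
      _ = G / t ^ 2 := by ring
  have h3 := abs_add_le (1 / ((G : ℂ) - t * I)).re (1 / ((G : ℂ) - t * I) ^ 2 *
      ∫ w in Ioi (0 : ℝ), cexp (-((G - t * I) * w)) * (g2 w : ℂ)).re
  linarith

theorem cont_S {N : ℝ} (hN : 0 < N) : ContinuousOn (S N) (Ioi 0) := by
  intro w hw
  have hw' : 0 < w := hw
  have hs := (sinh_pos hw').ne'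
  have hy := y_pos hN hw'
  have h0 : Real.exp (Real.cosh (w / 2) / Real.sinh (w / 2) / N) - 1 ≠ 0 := by
    have := Real.add_one_lt_exp hy.ne'
    linarith
  unfold S
  refine ContinuousAt.continuousWithinAt ?_
  refine ContinuousAt.div (ContinuousAt.div continuousAt_const ?_ h0) (by fun_prop)
    (by simpa using hs)
  refine ContinuousAt.sub (Real.continuous_exp.continuousAt.comp ?_) continuousAt_const
  refine ContinuousAt.div_const ?_ N
  exact ContinuousAt.div (by fun_prop) (by fun_prop) hs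

theorem cont_Q {N : ℝ} (hN : 0 < N) : ContinuousOn (Q N) (Ioi 0) := by
  unfold Q
  refine ContinuousOn.sub ?_ (cont_S hN)
  refine Continuous.continuousOn (Continuous.div (by fun_prop) (by fun_prop) fun w => ?_)
  have := Real.cosh_pos (w / 2)
  positivity

theorem second {N G t : ℝ} (hN : 0 < N) (hG : 1 ≤ G) :
    ‖∫ w in Ioi (0 : ℝ), cexp (-((G - t * I) * w)) * (Q N w : ℂ)‖ ≤ 2 * Real.log (1 + N) := by
  have hδ : 0 < 1 / N := by positivity
  obtain ⟨hi, he⟩ := integral_H' hδ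
  have h1 : Real.log (1 + 1 / (1 / N)) = Real.log (1 + N) := by
    congr 2
    field_simp
  rw [← h1, ← he, ← integral_const_mul]
  refine norm_integral_le_of_norm_le (hi.const_mul 2) ?_
  refine (ae_restrict_iff' measurableSet_Ioi).mpr (Filter.Eventually.of_forall fun w hw => ?_)
  have hw' : 0 < w := hw
  have hQ := Q_le hN hw'
  have hQ0 := Q_nonneg hN hw'
  rw [norm_mul, norm_exp, Complex.norm_real, Real.norm_of_nonneg hQ0]
  have h2 : Real.exp (-(G * w)) ≤ Real.exp (-w) := by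
    rw [Real.exp_le_exp]
    nlinarith
  have h3 := H'_ge hδ hw'.le
  calc Real.exp (-(G * w)) * Q N w ≤ Real.exp (-w) * (2 * (1 / (w + 1 / N))) :=
        mul_le_mul h2 hQ hQ0 (Real.exp_pos _).le
    _ = 2 * (Real.exp (-w) * (1 / (w + 1 / N))) := by ring
    _ ≤ 2 * H' (1 / N) w := by linarith

end A13

open A13

theorem II_zero_summable {N G t : ℝ} (hN : 1 ≤ N) (hG : 1 ≤ G) :
    Summable (fun h : ℕ => ‖II G t 0 ((h + 1 : ℝ) / N)‖) := by
  have hN0 : 0 < N := by linarith
  have hG0 : 0 < G := by linarith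
  refine Summable.of_nonneg_of_le (fun h => norm_nonneg _) (fun h => ?_)
    (summable_norm (t := t) hN0 hG0)
  unfold II
  exact norm_integral_le_integral_norm _

theorem M0_le : ∃ C : ℝ, 0 < C ∧ ∀ N G t : ℝ, 2 ≤ N → 1 ≤ G → 1 ≤ t →
    |M0 N G t| ≤ C * (Real.log N + N * G / t ^ 2) := by
  refine ⟨8, by norm_num, fun N G t hN hG ht => ?_⟩
  have hN0 : 0 < N := by linarith
  have hG0 : 0 < G := by linarith
  unfold M0
  rw [tsum_II hN0 hG0]
  have hi1 : IntegrableOn (fun w : ℝ => cexp (-((G - t * I) * w)) * (g w : ℂ)) (Ioi 0) :=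
    integrable_of_bdd hG0 cont_g.continuousOn fun w _ => g_bd w
  have hi2 : IntegrableOn (fun w : ℝ => cexp (-((G - t * I) * w)) * (Q N w : ℂ)) (Ioi 0) := by
    refine integrable_of_bdd (C := N / 2) hG0 (cont_Q hN0) fun w hw => ?_
    rw [abs_of_nonneg (Q_nonneg hN0 hw)]
    exact Q_le1 hN0 hw
  have he : ∫ w in Ioi (0 : ℝ), cexp (-((G - t * I) * w)) * (S N w : ℂ) =
      (N / 2 : ℝ) * (∫ w in Ioi (0 : ℝ), cexp (-((G - t * I) * w)) * (g w : ℂ)) -
        ∫ w in Ioi (0 : ℝ), cexp (-((G - t * I) * w)) * (Q N w : ℂ) := by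
    rw [← integral_const_mul, ← integral_sub (hi1.const_mul _) hi2]
    refine setIntegral_congr_fun measurableSet_Ioi fun w hw => ?_
    have h1 : S N w = N / 2 * g w - Q N w := by
      unfold Q g
      have := (Real.cosh_pos (w / 2)).ne'
      field_simp
      ring
    simp only [h1]
    push_cast
    ring
  rw [he, Complex.sub_re, Complex.re_ofReal_mul]
  have h1 := first hG ht
  have h2 := (Complex.abs_re_le_norm _).trans (second (t := t) hN0 hG)
  set A := (∫ w in Ioi (0 : ℝ), cexp (-((G - t * I) * w)) * (g w : ℂ)).re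
  set B := (∫ w in Ioi (0 : ℝ), cexp (-((G - t * I) * w)) * (Q N w : ℂ)).re
  have h3 : Real.log (1 + N) ≤ 2 * Real.log N := by
    rw [← Real.log_rpow hN0]
    apply Real.log_le_log (by linarith)
    norm_num
    nlinarith
  have h4 : |2 * (N / 2 * A - B)| ≤ N * |A| + 2 * |B| := by
    have h5 : 2 * (N / 2 * A - B) = N * A + -(2 * B) := by ring
    rw [h5]
    refine (abs_add_le _ _).trans ?_
    rw [abs_neg, abs_mul, abs_mul, abs_of_pos hN0, abs_of_pos (by norm_num : (0 : ℝ) < 2)]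
  have h5 : N * |A| ≤ 2 * (N * G / t ^ 2) := by
    calc N * |A| ≤ N * (2 * (G / t ^ 2)) := mul_le_mul_of_nonneg_left h1 hN0.le
      _ = 2 * (N * G / t ^ 2) := by ring
  have h6 : 0 ≤ N * G / t ^ 2 := by positivity
  have h7 : 0 ≤ Real.log N := Real.log_nonneg (by linarith)
  linarith

end U6
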