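import Pool.Agent.Lib.MP_39df77_nt.U6.A09
/-! B10: counting, from `count_q` on dyadic boxes of the two SMALLEST variables (`q` is symmetric in `k₁,k₂,k₃`).
* `cnt_small`: sorted sizes `K₁ ≤ K₂ ≤ K₃`; `|q| ≤ Q = T^{3/10}` forces `K₃ ≤ C(K₂+√Q)`; count `≤ T^ε (√(K₁K₂)+√Q) Q`, weight
 `(K₁K₂K₃)^{-1/4}`: total `≤ T^ε (K^{1/4} Q + Q^{3/2})`.
* resonant: `q = 2πk₁k₂k₃/t0`, `k₃ ≤ 6 max(k₁,k₂)`: count in a dyadic box `≤ T^{Cε} √(K₁K₂) (K₁K₂K₃/T)`, weight `(K₁K₂K₃)^{-1/2}`. -/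
open Complex MeasureTheory Set
namespace U6

theorem B10_pow (C u v : ℝ) (huv : u < v) : ∃ T₀ : ℝ, ∀ T : ℝ, T₀ ≤ T → C * T ^ u ≤ T ^ v := by
  have h : Filter.Tendsto (fun T : ℝ => T ^ (v - u)) Filter.atTop Filter.atTop :=
    tendsto_rpow_atTop (by linarith)
  obtain ⟨T₀, hT₀⟩ := Filter.eventually_atTop.1 (h.eventually_ge_atTop C)
  refine ⟨max T₀ 1, fun T hT => ?_⟩
  have hT1 : 1 ≤ T := (le_max_right _ _).trans hT
  have h1 := hT₀ T ((le_max_left _ _).trans hT)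
  have h2 : T ^ v = T ^ (v - u) * T ^ u := by
    rw [← Real.rpow_add (by linarith)]
    congr 1
    ring
  rw [h2]
  exact mul_le_mul_of_nonneg_right h1 (Real.rpow_nonneg (by linarith) _)

theorem B10_dyadic (S : Finset (ℕ × ℕ × ℕ)) (K : ℕ)
    (hS : ∀ k ∈ S, k.1 ≤ K ∧ k.2.1 ≤ K ∧ k.2.2 ≤ K) (f : ℕ × ℕ × ℕ → ℝ) (X : ℝ)
    (h : ∀ a b c : ℕ, ∑ k ∈ S.filter (fun k => Nat.log 2 k.1 = a ∧
      Nat.log 2 k.2.1 = b ∧ Nat.log 2 k.2.2 = c), f k ≤ X) :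
    ∑ k ∈ S, f k ≤ ((Nat.log 2 K : ℝ) + 1) ^ 3 * X := by
  classical
  let L := Nat.log 2 K + 1
  let g : ℕ × ℕ × ℕ → ℕ × ℕ × ℕ := fun k => (Nat.log 2 k.1, Nat.log 2 k.2.1, Nat.log 2 k.2.2)
  have hg : ∀ k ∈ S, g k ∈ Finset.range L ×ˢ Finset.range L ×ˢ Finset.range L := by
    intro k hk
    obtain ⟨h1, h2, h3⟩ := hS k hk
    simp only [g, Finset.mem_product, Finset.mem_range, L]
    exact ⟨Nat.lt_succ_of_le (Nat.log_mono_right h1), Nat.lt_succ_of_le (Nat.log_mono_right h2),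
      Nat.lt_succ_of_le (Nat.log_mono_right h3)⟩
  rw [← Finset.sum_fiberwise_of_maps_to hg]
  have h1 : ∀ j ∈ Finset.range L ×ˢ Finset.range L ×ˢ Finset.range L,
      ∑ k ∈ S.filter (fun k => g k = j), f k ≤ X := by
    rintro ⟨a, b, c⟩ -
    have h2 : S.filter (fun k => g k = (a, b, c)) = S.filter (fun k => Nat.log 2 k.1 = a ∧
        Nat.log 2 k.2.1 = b ∧ Nat.log 2 k.2.2 = c) := by
      apply Finset.filter_congr
      intro k _
      simp only [g, Prod.mk.injEq]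
    rw [h2]
    exact h a b c
  refine (Finset.sum_le_card_nsmul _ _ X h1).trans (le_of_eq ?_)
  rw [Finset.card_product, Finset.card_product, Finset.card_range, nsmul_eq_mul]
  simp only [L]
  push_cast
  ring

theorem B10_log (θ : ℝ) (hθ : 0 < θ) (hθ1 : θ ≤ 1) : ∃ C : ℝ, 0 < C ∧ ∀ (K : ℕ) (T : ℝ),
    1 ≤ T → (K : ℝ) ≤ T → ((Nat.log 2 K : ℝ) + 1) ^ 3 ≤ C * T ^ θ := by
  have hl : 0 < Real.log 2 := Real.log_pos (by norm_num)
  have hl1 : Real.log 2 ≤ 1 := by linarith [Real.log_two_lt_d9]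
  obtain ⟨c, hc⟩ : ∃ c : ℝ, c = θ * Real.log 2 / 3 := ⟨_, rfl⟩
  have hc0 : 0 < c := by rw [hc]; positivity
  have hc1 : c ≤ 1 := by
    rw [hc]
    have : θ * Real.log 2 ≤ 1 * 1 := mul_le_mul hθ1 hl1 hl.le zero_le_one
    linarith
  refine ⟨(c⁻¹) ^ 3, by positivity, fun K T hT hK => ?_⟩
  obtain ⟨n, hn⟩ : ∃ n, n = Nat.log 2 K := ⟨_, rfl⟩
  rw [← hn]
  have h2n : ((2 : ℝ) ^ n) ≤ T := by
    by_cases hK0 : K = 0
    · rw [hn, hK0, Nat.log_zero_right, pow_zero]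
      exact hT
    · have h3 : 2 ^ n ≤ K := by
        rw [hn]
        exact Nat.pow_log_le_self 2 hK0
      have h4 : ((2 : ℝ) ^ n) ≤ K := by exact_mod_cast h3
      exact h4.trans hK
  have h3 : (n : ℝ) + 1 ≤ c⁻¹ * Real.exp (c * n) := by
    have h4 := Real.add_one_le_exp (c * n)
    have h5 : c * ((n : ℝ) + 1) ≤ Real.exp (c * n) := by
      refine le_trans ?_ h4
      rw [mul_add, mul_one]
      linarith
    rw [← div_eq_inv_mul, le_div_iff₀ hc0]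
    linarith
  have h6 : ((n : ℝ) + 1) ^ 3 ≤ (c⁻¹ * Real.exp (c * n)) ^ 3 :=
    pow_le_pow_left₀ (by positivity) h3 3
  have h7 : Real.exp (c * n) ^ 3 ≤ T ^ θ := by
    rw [← Real.exp_nat_mul, Real.rpow_def_of_pos (by linarith)]
    apply Real.exp_le_exp.2
    have h8 : (n : ℝ) * Real.log 2 ≤ Real.log T := by
      have h9 := Real.log_le_log (by positivity) h2n
      rwa [Real.log_pow] at h9
    rw [hc]
    push_cast
    nlinarith
  calc ((n : ℝ) + 1) ^ 3 ≤ (c⁻¹ * Real.exp (c * n)) ^ 3 := h6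
    _ = (c⁻¹) ^ 3 * Real.exp (c * n) ^ 3 := by ring
    _ ≤ (c⁻¹) ^ 3 * T ^ θ := mul_le_mul_of_nonneg_left h7 (by positivity)

/-- dyadic box -/
noncomputable def N10 (A B D : ℕ) (Q : ℝ) : ℕ :=
  ((Finset.Icc 1 A ×ˢ Finset.Icc 1 B ×ˢ Finset.Icc 1 D).filter (fun k => |(q k : ℝ)| ≤ Q)).card

theorem N10_rot (A B D : ℕ) (Q : ℝ) : N10 A B D Q ≤ N10 B D A Q := by
  unfold N10
  apply Finset.card_le_card_of_injOn (fun k => (k.2.1, k.2.2, k.1))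
  · rintro ⟨x, y, z⟩ hk
    simp only [Finset.coe_filter, Finset.mem_product, Finset.mem_Icc, Set.mem_ofPred_eq] at hk ⊢
    obtain ⟨⟨h1, h2, h3⟩, h4⟩ := hk
    refine ⟨⟨h2, h3, h1⟩, ?_⟩
    have h5 : q (y, z, x) = q (x, y, z) := by
      unfold q
      ring
    rw [h5]
    exact h4
  · rintro ⟨x, y, z⟩ - ⟨x', y', z'⟩ - h
    simp only [Prod.mk.injEq] at h ⊢
    exact ⟨h.2.2, h.1, h.2.1⟩

theorem B10_fiber (S : Finset (ℕ × ℕ × ℕ)) (hS : ∀ k ∈ S, 1 ≤ k.1 ∧ 1 ≤ k.2.1 ∧ 1 ≤ k.2.2)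
    (s : ℝ) (hs : 0 ≤ s) (a b c : ℕ) (Q : ℝ)
    (hQ : ∀ k ∈ S, Nat.log 2 k.1 = a → Nat.log 2 k.2.1 = b → Nat.log 2 k.2.2 = c →
      |(q k : ℝ)| ≤ Q) :
    ∑ k ∈ S.filter (fun k => Nat.log 2 k.1 = a ∧ Nat.log 2 k.2.1 = b ∧ Nat.log 2 k.2.2 = c),
      (k.1 * k.2.1 * k.2.2 : ℝ) ^ (-s) ≤
    (N10 (2 ^ (a + 1)) (2 ^ (b + 1)) (2 ^ (c + 1)) Q : ℝ) *
      ((2 : ℝ) ^ a * 2 ^ b * 2 ^ c) ^ (-s) := by
  classical
  have hlow : ∀ (n a : ℕ), 1 ≤ n → Nat.log 2 n = a → ((2 : ℝ) ^ a) ≤ n := by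
    intro n a hn ha
    have h1 := Nat.pow_log_le_self 2 (x := n) (by omega)
    rw [ha] at h1
    exact_mod_cast h1
  have hup : ∀ (n a : ℕ), Nat.log 2 n = a → n ≤ 2 ^ (a + 1) := by
    intro n a ha
    have h1 := Nat.lt_pow_succ_log_self (b := 2) (by norm_num) n
    rw [ha] at h1
    exact h1.le
  have h1 : ∀ k ∈ S.filter (fun k => Nat.log 2 k.1 = a ∧ Nat.log 2 k.2.1 = b ∧
      Nat.log 2 k.2.2 = c), (k.1 * k.2.1 * k.2.2 : ℝ) ^ (-s) ≤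
        ((2 : ℝ) ^ a * 2 ^ b * 2 ^ c) ^ (-s) := by
    intro k hk
    rw [Finset.mem_filter] at hk
    obtain ⟨hkS, ha, hb, hc⟩ := hk
    obtain ⟨h1, h2, h3⟩ := hS k hkS
    apply Real.rpow_le_rpow_of_nonpos (by positivity) _ (by linarith)
    have e1 := hlow k.1 a h1 ha
    have e2 := hlow k.2.1 b h2 hb
    have e3 := hlow k.2.2 c h3 hc
    exact mul_le_mul (mul_le_mul e1 e2 (by positivity) (by positivity)) e3 (by positivity)
      (by positivity)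
  refine (Finset.sum_le_card_nsmul _ _ _ h1).trans ?_
  rw [nsmul_eq_mul]
  refine mul_le_mul_of_nonneg_right ?_ (Real.rpow_nonneg (by positivity) _)
  have h2 : (S.filter (fun k => Nat.log 2 k.1 = a ∧ Nat.log 2 k.2.1 = b ∧
      Nat.log 2 k.2.2 = c)).card ≤ N10 (2 ^ (a + 1)) (2 ^ (b + 1)) (2 ^ (c + 1)) Q := by
    unfold N10
    apply Finset.card_le_card
    intro k hk
    rw [Finset.mem_filter] at hk
    obtain ⟨hkS, ha, hb, hc⟩ := hk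
    obtain ⟨h1, h2, h3⟩ := hS k hkS
    rw [Finset.mem_filter, Finset.mem_product, Finset.mem_product, Finset.mem_Icc, Finset.mem_Icc,
      Finset.mem_Icc]
    exact ⟨⟨⟨h1, hup _ _ ha⟩, ⟨h2, hup _ _ hb⟩, ⟨h3, hup _ _ hc⟩⟩, hQ k hkS ha hb hc⟩
  exact_mod_cast h2

theorem KK_lt (η ε T : ℝ) (n : ℕ) (h : n < KK η ε T) : (n : ℝ) < T ^ (1 / 2 + 2 * η + 4 * ε) := by
  unfold KK at h
  exact Nat.lt_ceil.1 h

theorem B10_low (n a : ℕ) (hn : 1 ≤ n) (ha : Nat.log 2 n = a) : ((2 : ℝ) ^ a) ≤ n := by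
  have h1 := Nat.pow_log_le_self 2 (x := n) (by omega)
  rw [ha] at h1
  exact_mod_cast h1

theorem B10_up (n a : ℕ) (ha : Nat.log 2 n = a) : (n : ℝ) ≤ 2 * 2 ^ a := by
  have h1 := Nat.lt_pow_succ_log_self (b := 2) (by norm_num) n
  rw [ha] at h1
  have h2 : (n : ℝ) ≤ 2 ^ (a + 1) := by exact_mod_cast h1.le
  rw [pow_succ] at h2
  linarith

theorem B10_count (e : ℝ) (he : 0 < e) : ∃ C : ℝ, 0 < C ∧ ∀ (a b c : ℕ) (Q : ℝ), 1 ≤ Q →
    (N10 (2 ^ (a + 1)) (2 ^ (b + 1)) (2 ^ (c + 1)) Q : ℝ) ≤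
      C * (4 * ((2 : ℝ) ^ a * 2 ^ b) * Q) ^ e *
        (2 * Real.sqrt ((2 : ℝ) ^ a * 2 ^ b) + Real.sqrt Q) * Q := by
  obtain ⟨C, hC, h⟩ := count_q e he
  refine ⟨C, hC, fun a b c Q hQ => ?_⟩
  have h1 := h (2 ^ (a + 1)) (2 ^ (b + 1)) (2 ^ (c + 1)) Q Nat.one_le_two_pow Nat.one_le_two_pow
    Nat.one_le_two_pow hQ
  have h2 : (((2 ^ (a + 1) : ℕ) : ℝ) * ((2 ^ (b + 1) : ℕ) : ℝ)) = 4 * ((2 : ℝ) ^ a * 2 ^ b) := by
    push_cast
    ring
  rw [h2] at h1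
  have h3 : Real.sqrt (4 * ((2 : ℝ) ^ a * 2 ^ b)) = 2 * Real.sqrt ((2 : ℝ) ^ a * 2 ^ b) := by
    rw [Real.sqrt_mul (by norm_num), show (4 : ℝ) = 2 ^ 2 by norm_num, Real.sqrt_sq (by norm_num)]
  rw [h3] at h1
  exact h1

theorem B10_sorted (u v w κ : ℝ) (hu : 1 ≤ u) (hv : 1 ≤ v) (huw : u ≤ w) (hvw : v ≤ w)
    (hw : w ≤ κ) : Real.sqrt (u * v) * (u * v * w) ^ (-(1 / 4) : ℝ) ≤ κ ^ (1 / 4 : ℝ) := by
  have hw1 : 1 ≤ w := hu.trans huw
  have huv : 0 < u * v := by positivity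
  have hw0 : 0 < w := by linarith
  rw [Real.sqrt_eq_rpow, Real.mul_rpow huv.le hw0.le, ← mul_assoc, ← Real.rpow_add huv]
  have h1 : (u * v) ^ (1 / 2 + -(1 / 4) : ℝ) ≤ w ^ (1 / 2 : ℝ) := by
    have h2 : (w ^ 2) ^ (1 / 4 : ℝ) = w ^ (1 / 2 : ℝ) := by
      rw [← Real.rpow_natCast, ← Real.rpow_mul hw0.le]
      norm_num
    rw [← h2, show (1 / 2 + -(1 / 4) : ℝ) = 1 / 4 by norm_num]
    apply Real.rpow_le_rpow huv.le _ (by norm_num)
    nlinarith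
  refine (mul_le_mul_of_nonneg_right h1 (Real.rpow_nonneg hw0.le _)).trans ?_
  rw [← Real.rpow_add hw0, show (1 / 2 + -(1 / 4) : ℝ) = 1 / 4 by norm_num]
  exact Real.rpow_le_rpow hw0.le hw (by norm_num)

theorem B10_sorted_fib (e : ℝ) (he : 0 < e) : ∃ C : ℝ, 0 < C ∧ ∀ (a b c : ℕ) (κ Q : ℝ), 1 ≤ Q →
    (2 : ℝ) ^ a ≤ 2 ^ c → (2 : ℝ) ^ b ≤ 2 ^ c → (2 : ℝ) ^ c ≤ κ →
    (N10 (2 ^ (a + 1)) (2 ^ (b + 1)) (2 ^ (c + 1)) Q : ℝ) *
      ((2 : ℝ) ^ a * 2 ^ b * 2 ^ c) ^ (-(1 / 4) : ℝ) ≤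
      C * (4 * κ ^ 2 * Q) ^ e * (2 * κ ^ (1 / 4 : ℝ) + Real.sqrt Q) * Q := by
  obtain ⟨C, hC, h⟩ := B10_count e he
  refine ⟨C, hC, fun a b c κ Q hQ hac hbc hc => ?_⟩
  have h1 := h a b c Q hQ
  have hx1 : 1 ≤ (2 : ℝ) ^ a := one_le_pow₀ (by norm_num)
  have hy1 : 1 ≤ (2 : ℝ) ^ b := one_le_pow₀ (by norm_num)
  have hz1 : 1 ≤ (2 : ℝ) ^ c := one_le_pow₀ (by norm_num)
  obtain ⟨x, hx⟩ : ∃ x : ℝ, x = 2 ^ a := ⟨_, rfl⟩
  obtain ⟨y, hy⟩ : ∃ y : ℝ, y = 2 ^ b := ⟨_, rfl⟩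
  obtain ⟨z, hz⟩ : ∃ z : ℝ, z = 2 ^ c := ⟨_, rfl⟩
  rw [← hx, ← hy] at h1
  rw [← hx] at hac hx1
  rw [← hy] at hbc hy1
  rw [← hz] at hac hbc hc hz1
  rw [← hx, ← hy, ← hz]
  have hs := B10_sorted x y z κ hx1 hy1 hac hbc hc
  have hxyz : 1 ≤ x * y * z := by
    have h5 : 1 ≤ x * y := one_le_mul_of_one_le_of_one_le hx1 hy1
    exact one_le_mul_of_one_le_of_one_le h5 hz1
  have hw1 : (x * y * z) ^ (-(1 / 4) : ℝ) ≤ 1 :=
    Real.rpow_le_one_of_one_le_of_nonpos hxyz (by norm_num)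
  have hw0 : 0 ≤ (x * y * z) ^ (-(1 / 4) : ℝ) := Real.rpow_nonneg (by linarith) _
  have h5 : (2 * Real.sqrt (x * y) + Real.sqrt Q) * (x * y * z) ^ (-(1 / 4) : ℝ) ≤
      2 * κ ^ (1 / 4 : ℝ) + Real.sqrt Q := by
    have h6 := mul_le_of_le_one_right (Real.sqrt_nonneg Q) hw1
    rw [add_mul, mul_assoc]
    linarith
  have hxk : x ≤ κ := hac.trans hc
  have hyk : y ≤ κ := hbc.trans hc
  have h6 : (4 * (x * y) * Q) ^ e ≤ (4 * κ ^ 2 * Q) ^ e := by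
    apply Real.rpow_le_rpow (by positivity) _ he.le
    have h7 : x * y ≤ κ ^ 2 := by
      rw [sq]
      exact mul_le_mul hxk hyk (by linarith) (by linarith)
    exact mul_le_mul_of_nonneg_right (by linarith) (by linarith)
  calc (N10 (2 ^ (a + 1)) (2 ^ (b + 1)) (2 ^ (c + 1)) Q : ℝ) * (x * y * z) ^ (-(1 / 4) : ℝ)
      ≤ (C * (4 * (x * y) * Q) ^ e * (2 * Real.sqrt (x * y) + Real.sqrt Q) * Q) *
        (x * y * z) ^ (-(1 / 4) : ℝ) := mul_le_mul_of_nonneg_right h1 hw0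
    _ = C * (4 * (x * y) * Q) ^ e * ((2 * Real.sqrt (x * y) + Real.sqrt Q) *
        (x * y * z) ^ (-(1 / 4) : ℝ)) * Q := by ring
    _ ≤ C * (4 * κ ^ 2 * Q) ^ e * (2 * κ ^ (1 / 4 : ℝ) + Real.sqrt Q) * Q := by
        have h8 : 0 ≤ (4 * (x * y) * Q) ^ e := Real.rpow_nonneg (by positivity) _
        have h9 : 0 ≤ (2 * Real.sqrt (x * y) + Real.sqrt Q) * (x * y * z) ^ (-(1 / 4) : ℝ) := by
          positivity
        apply mul_le_mul_of_nonneg_right _ (by linarith)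
        apply mul_le_mul _ h5 h9 (mul_nonneg hC.le (h8.trans h6))
        exact mul_le_mul_of_nonneg_left h6 hC.le

theorem B10_small_fib (e : ℝ) (he : 0 < e) : ∃ C : ℝ, 0 < C ∧ ∀ (a b c : ℕ) (κ Q : ℝ), 1 ≤ Q →
    (2 : ℝ) ^ a ≤ κ → (2 : ℝ) ^ b ≤ κ → (2 : ℝ) ^ c ≤ κ →
    (N10 (2 ^ (a + 1)) (2 ^ (b + 1)) (2 ^ (c + 1)) Q : ℝ) *
      ((2 : ℝ) ^ a * 2 ^ b * 2 ^ c) ^ (-(1 / 4) : ℝ) ≤
      C * (4 * κ ^ 2 * Q) ^ e * (2 * κ ^ (1 / 4 : ℝ) + Real.sqrt Q) * Q := by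
  obtain ⟨C, hC, h⟩ := B10_sorted_fib e he
  refine ⟨C, hC, fun a b c κ Q hQ ha hb hc => ?_⟩
  have hw0 : 0 ≤ ((2 : ℝ) ^ a * 2 ^ b * 2 ^ c) ^ (-(1 / 4) : ℝ) :=
    Real.rpow_nonneg (by positivity) _
  have r1 : (N10 (2 ^ (a + 1)) (2 ^ (b + 1)) (2 ^ (c + 1)) Q : ℝ) ≤
      (N10 (2 ^ (b + 1)) (2 ^ (c + 1)) (2 ^ (a + 1)) Q : ℝ) := by
    exact_mod_cast N10_rot _ _ _ Q
  have r2 : (N10 (2 ^ (b + 1)) (2 ^ (c + 1)) (2 ^ (a + 1)) Q : ℝ) ≤
      (N10 (2 ^ (c + 1)) (2 ^ (a + 1)) (2 ^ (b + 1)) Q : ℝ) := by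
    exact_mod_cast N10_rot _ _ _ Q
  rcases le_total ((2 : ℝ) ^ a) (2 ^ c) with hac | hca
  · rcases le_total ((2 : ℝ) ^ b) (2 ^ c) with hbc | hcb
    · exact h a b c κ Q hQ hac hbc hc
    · have h1 := h c a b κ Q hQ hcb (hac.trans hcb) hb
      refine le_trans ?_ h1
      rw [show (2 : ℝ) ^ c * 2 ^ a * 2 ^ b = 2 ^ a * 2 ^ b * 2 ^ c by ring]
      exact mul_le_mul_of_nonneg_right (r1.trans r2) hw0
  · rcases le_total ((2 : ℝ) ^ b) (2 ^ a) with hba | hab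
    · have h1 := h b c a κ Q hQ hba hca ha
      refine le_trans ?_ h1
      rw [show (2 : ℝ) ^ b * 2 ^ c * 2 ^ a = 2 ^ a * 2 ^ b * 2 ^ c by ring]
      exact mul_le_mul_of_nonneg_right r1 hw0
    · have h1 := h c a b κ Q hQ (hca.trans hab) hab hb
      refine le_trans ?_ h1
      rw [show (2 : ℝ) ^ c * 2 ^ a * 2 ^ b = 2 ^ a * 2 ^ b * 2 ^ c by ring]
      exact mul_le_mul_of_nonneg_right (r1.trans r2) hw0

/-- facts on the box -/
theorem B10_box (η ε T : ℝ) (hT : 1 ≤ T) (_hη : 0 < η) (hη1 : η ≤ 1 / 80) (hε : 0 < ε)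
    (hε1 : ε ≤ η / 100) :
    (((KK η ε T - 1 : ℕ) : ℝ) ≤ T) ∧ ∀ k ∈ box (KK η ε T),
      (1 ≤ k.1 ∧ 1 ≤ k.2.1 ∧ 1 ≤ k.2.2) ∧
      (k.1 ≤ KK η ε T - 1 ∧ k.2.1 ≤ KK η ε T - 1 ∧ k.2.2 ≤ KK η ε T - 1) ∧
      ((k.1 : ℝ) ≤ T ^ (1 / 2 + 2 * η + 4 * ε) ∧ (k.2.1 : ℝ) ≤ T ^ (1 / 2 + 2 * η + 4 * ε) ∧
        (k.2.2 : ℝ) ≤ T ^ (1 / 2 + 2 * η + 4 * ε)) := by
  constructor
  · by_cases h0 : KK η ε T = 0
    · rw [h0]
      simp only [zero_le, Nat.sub_eq_zero_of_le, CharP.cast_eq_zero]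
      linarith
    · have h1 := KK_lt η ε T (KK η ε T - 1) (by omega)
      refine h1.le.trans ?_
      calc T ^ (1 / 2 + 2 * η + 4 * ε) ≤ T ^ (1 : ℝ) :=
            Real.rpow_le_rpow_of_exponent_le hT (by linarith)
        _ = T := Real.rpow_one T
  · intro k hk
    unfold box at hk
    rw [Finset.mem_product, Finset.mem_product, Finset.mem_Ico, Finset.mem_Ico,
      Finset.mem_Ico] at hk
    obtain ⟨⟨h1, h2⟩, ⟨h3, h4⟩, h5, h6⟩ := hk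
    exact ⟨⟨h1, h3, h5⟩, ⟨by omega, by omega, by omega⟩,
      ⟨(KK_lt η ε T _ h2).le, (KK_lt η ε T _ h4).le, (KK_lt η ε T _ h6).le⟩⟩

theorem cnt_small (η ε : ℝ) (hη : 0 < η) (hη1 : η ≤ 1 / 80) (hε : 0 < ε) (hε1 : ε ≤ η / 100) :
    ∃ T₀ : ℝ, ∀ T : ℝ, T₀ ≤ T →
      ∑ k ∈ (box (KK η ε T)).filter (fun k => |(q k : ℝ)| ≤ T ^ (3 / 10 : ℝ)),
        (k.1 * k.2.1 * k.2.2 : ℝ) ^ (-(1 / 4) : ℝ) ≤ T ^ (46 / 100 : ℝ) := by
  obtain ⟨C, hC, hfib⟩ := B10_small_fib (1 / 1000) (by norm_num)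
  obtain ⟨C', hC', hlog⟩ := B10_log (1 / 1000) (by norm_num) (by norm_num)
  obtain ⟨T₁, hT₁⟩ := B10_pow (C' * (C * 3)) (454 / 1000) (46 / 100) (by norm_num)
  refine ⟨max T₁ 4, fun T hT => ?_⟩
  have hT4 : 4 ≤ T := (le_max_right _ _).trans hT
  have hT0 : 0 < T := by linarith
  have hT1 : 1 ≤ T := by linarith
  obtain ⟨hK, hbox⟩ := B10_box η ε T hT1 hη hη1 hε hε1
  obtain ⟨κ, hκ⟩ : ∃ κ, κ = T ^ (1 / 2 + 2 * η + 4 * ε) := ⟨_, rfl⟩
  obtain ⟨Q, hQ⟩ : ∃ Q, Q = T ^ (3 / 10 : ℝ) := ⟨_, rfl⟩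
  have hQ1 : 1 ≤ Q := by
    rw [hQ]
    exact Real.one_le_rpow hT1 (by norm_num)
  have hκ1 : 1 ≤ κ := by
    rw [hκ]
    exact Real.one_le_rpow hT1 (by linarith)
  obtain ⟨X, hX⟩ : ∃ X, X = C * (4 * κ ^ 2 * Q) ^ (1 / 1000 : ℝ) *
    (2 * κ ^ (1 / 4 : ℝ) + Real.sqrt Q) * Q := ⟨_, rfl⟩
  have hX0 : 0 ≤ X := by
    rw [hX]
    positivity
  have hX1 : X ≤ (C * 3) * T ^ (453 / 1000 : ℝ) := by
    have h1 : (4 * κ ^ 2 * Q) ^ (1 / 1000 : ℝ) ≤ T ^ (3 / 1000 : ℝ) := by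
      have h2 : 4 * κ ^ 2 * Q ≤ T ^ (3 : ℝ) := by
        have h3 : κ ^ 2 = T ^ (1 + 4 * η + 8 * ε) := by
          rw [hκ, ← Real.rpow_natCast, ← Real.rpow_mul hT0.le]
          congr 1
          push_cast
          ring
        calc 4 * κ ^ 2 * Q ≤ T ^ (1 : ℝ) * κ ^ 2 * Q := by
              rw [Real.rpow_one]
              gcongr
          _ = T ^ (1 + (1 + 4 * η + 8 * ε) + 3 / 10) := by
              rw [h3, hQ, ← Real.rpow_add hT0, ← Real.rpow_add hT0]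
          _ ≤ T ^ (3 : ℝ) := Real.rpow_le_rpow_of_exponent_le hT1 (by linarith)
      refine (Real.rpow_le_rpow (by positivity) h2 (by norm_num)).trans (le_of_eq ?_)
      rw [← Real.rpow_mul hT0.le]
      norm_num
    have h4 : 2 * κ ^ (1 / 4 : ℝ) + Real.sqrt Q ≤ 3 * T ^ (15 / 100 : ℝ) := by
      have h5 : κ ^ (1 / 4 : ℝ) ≤ T ^ (15 / 100 : ℝ) := by
        rw [hκ, ← Real.rpow_mul hT0.le]
        exact Real.rpow_le_rpow_of_exponent_le hT1 (by linarith)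
      have h6 : Real.sqrt Q = T ^ (15 / 100 : ℝ) := by
        rw [hQ, Real.sqrt_eq_rpow, ← Real.rpow_mul hT0.le]
        norm_num
      rw [h6]
      linarith
    calc X = C * (4 * κ ^ 2 * Q) ^ (1 / 1000 : ℝ) *
          (2 * κ ^ (1 / 4 : ℝ) + Real.sqrt Q) * Q := hX
      _ ≤ C * T ^ (3 / 1000 : ℝ) * (3 * T ^ (15 / 100 : ℝ)) * T ^ (3 / 10 : ℝ) := by
          rw [← hQ]
          gcongr
      _ = (C * 3) * (T ^ (3 / 1000 : ℝ) * T ^ (15 / 100 : ℝ) * T ^ (3 / 10 : ℝ)) := by ring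
      _ = (C * 3) * T ^ (453 / 1000 : ℝ) := by
          rw [← Real.rpow_add hT0, ← Real.rpow_add hT0]
          norm_num
  have key := B10_dyadic ((box (KK η ε T)).filter (fun k => |(q k : ℝ)| ≤ T ^ (3 / 10 : ℝ)))
    (KK η ε T - 1) (fun k hk => (hbox k (Finset.mem_filter.1 hk).1).2.1)
    (fun k => (k.1 * k.2.1 * k.2.2 : ℝ) ^ (-(1 / 4) : ℝ)) X (by
      intro a b c
      rcases (Finset.filter (fun k => Nat.log 2 k.1 = a ∧ Nat.log 2 k.2.1 = b ∧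
        Nat.log 2 k.2.2 = c) ((box (KK η ε T)).filter
          (fun k => |(q k : ℝ)| ≤ T ^ (3 / 10 : ℝ)))).eq_empty_or_nonempty with h0 | ⟨k, hk⟩
      · rw [h0, Finset.sum_empty]
        exact hX0
      · rw [Finset.mem_filter, Finset.mem_filter] at hk
        obtain ⟨⟨hkb, hkq⟩, ha, hb, hc⟩ := hk
        obtain ⟨⟨k1, k2, k3⟩, -, l1, l2, l3⟩ := hbox k hkb
        rw [← hκ] at l1 l2 l3
        refine (B10_fiber _ (fun k hk => (hbox k (Finset.mem_filter.1 hk).1).1) (1 / 4)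
          (by norm_num) a b c Q (fun k hk _ _ _ => ?_)).trans ?_
        · rw [hQ]
          exact (Finset.mem_filter.1 hk).2
        · rw [hX]
          exact hfib a b c κ Q hQ1 ((B10_low _ _ k1 ha).trans l1) ((B10_low _ _ k2 hb).trans l2)
            ((B10_low _ _ k3 hc).trans l3))
  refine key.trans ?_
  calc ((Nat.log 2 (KK η ε T - 1) : ℝ) + 1) ^ 3 * X
      ≤ (C' * T ^ (1 / 1000 : ℝ)) * ((C * 3) * T ^ (453 / 1000 : ℝ)) :=
        mul_le_mul (hlog _ T hT1 hK) hX1 hX0 (by positivity)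
    _ = (C' * (C * 3)) * (T ^ (1 / 1000 : ℝ) * T ^ (453 / 1000 : ℝ)) := by ring
    _ = (C' * (C * 3)) * T ^ (454 / 1000 : ℝ) := by
        rw [← Real.rpow_add hT0]
        norm_num
    _ ≤ T ^ (46 / 100 : ℝ) := hT₁ T ((le_max_left _ _).trans hT)

theorem B10_res_alg (x y z κ M r : ℝ) (hx : 1 ≤ x) (hy : 1 ≤ y) (hz : 1 ≤ z) (hxk : x ≤ κ)
    (hyk : y ≤ κ) (hzk : z ≤ κ) (hM : x * y ≤ M) (hr : 0 ≤ r) :
    (2 * Real.sqrt (x * y) + Real.sqrt (r * (x * y * z))) * (r * (x * y * z)) *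
      (x * y * z) ^ (-(1 / 2) : ℝ) ≤ 2 * r * M * Real.sqrt κ + r * Real.sqrt r * κ ^ 3 := by
  have hxy : 0 < x * y := by positivity
  have hz0 : 0 < z := by linarith
  have hP : 0 < x * y * z := mul_pos hxy hz0
  have h1 : (x * y * z) ^ (-(1 / 2) : ℝ) = (Real.sqrt (x * y * z))⁻¹ := by
    rw [Real.rpow_neg hP.le, Real.sqrt_eq_rpow]
  have h2 : Real.sqrt (r * (x * y * z)) = Real.sqrt r * Real.sqrt (x * y * z) :=
    Real.sqrt_mul hr _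
  have h3 : Real.sqrt (x * y * z) = Real.sqrt (x * y) * Real.sqrt z := Real.sqrt_mul hxy.le _
  have h4 : Real.sqrt (x * y * z) * Real.sqrt (x * y * z) = x * y * z := Real.mul_self_sqrt hP.le
  have h5 : Real.sqrt (x * y) * Real.sqrt (x * y) = x * y := Real.mul_self_sqrt hxy.le
  have h6 : (r * (x * y * z)) * (Real.sqrt (x * y * z))⁻¹ = r * Real.sqrt (x * y * z) := by
    have h7 : Real.sqrt (x * y * z) ≠ 0 := (Real.sqrt_pos.2 hP).ne'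
    rw [← div_eq_mul_inv, div_eq_iff h7, mul_assoc r (Real.sqrt (x * y * z)), h4]
  have h8 : (2 * Real.sqrt (x * y) + Real.sqrt (r * (x * y * z))) * (r * (x * y * z)) *
      (x * y * z) ^ (-(1 / 2) : ℝ) =
      2 * r * (x * y) * Real.sqrt z + r * Real.sqrt r * (x * y * z) := by
    rw [h1, mul_assoc, h6, h2]
    calc (2 * Real.sqrt (x * y) + Real.sqrt r * Real.sqrt (x * y * z)) *
        (r * Real.sqrt (x * y * z))
        = 2 * r * (Real.sqrt (x * y) * Real.sqrt (x * y * z)) +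
          r * Real.sqrt r * (Real.sqrt (x * y * z) * Real.sqrt (x * y * z)) := by ring
      _ = 2 * r * (Real.sqrt (x * y) * Real.sqrt (x * y) * Real.sqrt z) +
          r * Real.sqrt r * (x * y * z) := by rw [h4, h3]; ring
      _ = 2 * r * (x * y) * Real.sqrt z + r * Real.sqrt r * (x * y * z) := by rw [h5]; ring
  rw [h8]
  have h9 : x * y * z ≤ κ ^ 3 := by
    have : x * y ≤ κ * κ := mul_le_mul hxk hyk (by linarith) (by linarith)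
    calc x * y * z ≤ κ * κ * κ := mul_le_mul this hzk hz0.le (by nlinarith)
      _ = κ ^ 3 := by ring
  have h10 : (x * y) * Real.sqrt z ≤ M * Real.sqrt κ :=
    mul_le_mul hM (Real.sqrt_le_sqrt hzk) (Real.sqrt_nonneg _) (hxy.le.trans hM)
  have h11 : 2 * r * (x * y) * Real.sqrt z ≤ 2 * r * M * Real.sqrt κ := by
    calc 2 * r * (x * y) * Real.sqrt z = 2 * r * ((x * y) * Real.sqrt z) := by ring
      _ ≤ 2 * r * (M * Real.sqrt κ) := mul_le_mul_of_nonneg_left h10 (by positivity)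
      _ = 2 * r * M * Real.sqrt κ := by ring
  have h12 : r * Real.sqrt r * (x * y * z) ≤ r * Real.sqrt r * κ ^ 3 :=
    mul_le_mul_of_nonneg_left h9 (by positivity)
  linarith

theorem B10_res_q (T ε : ℝ) (hT : 1 ≤ T) (k : ℕ × ℕ × ℕ) (x y z : ℝ) (hx : (k.1 : ℝ) ≤ 2 * x)
    (hy : (k.2.1 : ℝ) ≤ 2 * y) (hz : (k.2.2 : ℝ) ≤ 2 * z) (h : Res T ε k) :
    1 ≤ (q k : ℝ) ∧ |(q k : ℝ)| ≤ 16 * Real.pi * T ^ (-(1 - 20 * ε)) * (x * y * z) := by
  obtain ⟨h1, -, h3, -⟩ := h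
  have hq1 : (1 : ℝ) ≤ (q k : ℝ) := by exact_mod_cast h1
  have hT0 : 0 < T := by linarith
  refine ⟨hq1, ?_⟩
  rw [abs_of_pos (by linarith)]
  unfold t0 at h3
  rw [le_div_iff₀ (by linarith)] at h3
  have hp := Real.pi_pos
  have hR : 0 < T ^ (1 - 20 * ε) := Real.rpow_pos_of_pos hT0 _
  have h4 : (k.1 * k.2.1 * k.2.2 : ℝ) ≤ (2 * x) * (2 * y) * (2 * z) := by
    have e1 : (0 : ℝ) ≤ k.1 := Nat.cast_nonneg _
    have e2 : (0 : ℝ) ≤ k.2.1 := Nat.cast_nonneg _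
    have e3 : (0 : ℝ) ≤ k.2.2 := Nat.cast_nonneg _
    have e4 : (k.1 * k.2.1 : ℝ) ≤ (2 * x) * (2 * y) := mul_le_mul hx hy e2 (e1.trans hx)
    exact mul_le_mul e4 hz e3 (mul_nonneg (e1.trans hx) (e2.trans hy))
  have h5 : T ^ (1 - 20 * ε) * (q k : ℝ) ≤ 16 * Real.pi * (x * y * z) := by
    refine h3.trans ?_
    nlinarith
  rw [Real.rpow_neg hT0.le]
  have h6 : (q k : ℝ) = (T ^ (1 - 20 * ε))⁻¹ * (T ^ (1 - 20 * ε) * (q k : ℝ)) := by
    rw [← mul_assoc, inv_mul_cancel₀ hR.ne', one_mul]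
  rw [h6]
  calc (T ^ (1 - 20 * ε))⁻¹ * (T ^ (1 - 20 * ε) * (q k : ℝ))
      ≤ (T ^ (1 - 20 * ε))⁻¹ * (16 * Real.pi * (x * y * z)) :=
        mul_le_mul_of_nonneg_left h5 (by positivity)
    _ = 16 * Real.pi * (T ^ (1 - 20 * ε))⁻¹ * (x * y * z) := by ring

theorem B10_res (η ε μ ν ρ e : ℝ) (hη : 0 < η) (hη1 : η ≤ 1 / 80) (hε : 0 < ε)
    (hε1 : ε ≤ η / 100) (he : 0 < e) (he1 : e ≤ 1) (h1 : μ - 3 / 4 + η + 22 * ε ≤ ν)
    (h2 : 6 * η + 42 * ε ≤ ν) (h3 : ν + 4 * e < ρ) :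
    ∃ T₀ : ℝ, ∀ T : ℝ, T₀ ≤ T → ∀ S : Finset (ℕ × ℕ × ℕ), S ⊆ box (KK η ε T) →
      (∀ k ∈ S, Res T ε k) → (∀ k ∈ S, (k.1 * k.2.1 : ℝ) ≤ T ^ μ) →
      ∑ k ∈ S, (k.1 * k.2.1 * k.2.2 : ℝ) ^ (-(1 / 2) : ℝ) ≤ T ^ ρ := by
  obtain ⟨C, hC, hcount⟩ := B10_count e he
  obtain ⟨C', hC', hlog⟩ := B10_log e he he1
  obtain ⟨c0, hc0⟩ : ∃ c0, c0 = 32 * Real.pi + 16 * Real.pi * Real.sqrt (16 * Real.pi) :=
    ⟨_, rfl⟩
  have hp := Real.pi_pos
  have hp4 := Real.pi_le_four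
  obtain ⟨T₁, hT₁⟩ := B10_pow (C' * (C * c0)) (ν + 4 * e) ρ h3
  refine ⟨max T₁ 256, fun T hT S hS hRes hmu => ?_⟩
  have hT4 : 256 ≤ T := (le_max_right _ _).trans hT
  have hT0 : 0 < T := by linarith
  have hT1 : 1 ≤ T := by linarith
  obtain ⟨hK, hbox⟩ := B10_box η ε T hT1 hη hη1 hε hε1
  obtain ⟨κ, hκ⟩ : ∃ κ, κ = T ^ (1 / 2 + 2 * η + 4 * ε) := ⟨_, rfl⟩
  obtain ⟨r, hr⟩ : ∃ r, r = 16 * Real.pi * T ^ (-(1 - 20 * ε)) := ⟨_, rfl⟩
  have hκ1 : 1 ≤ κ := by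
    rw [hκ]
    exact Real.one_le_rpow hT1 (by linarith)
  have hr0 : 0 < r := by
    rw [hr]
    positivity
  have hκ0 : 0 < κ := by linarith
  -- the bound for a fibre
  have hmain : 2 * r * T ^ μ * Real.sqrt κ + r * Real.sqrt r * κ ^ 3 ≤ c0 * T ^ ν := by
    have e1 : 2 * r * T ^ μ * Real.sqrt κ = 32 * Real.pi * T ^ (μ - 3 / 4 + η + 22 * ε) := by
      have e2 : Real.sqrt κ = T ^ (1 / 4 + η + 2 * ε) := by
        rw [hκ, Real.sqrt_eq_rpow, ← Real.rpow_mul hT0.le]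
        congr 1
        ring
      calc 2 * r * T ^ μ * Real.sqrt κ
          = 32 * Real.pi * (T ^ (-(1 - 20 * ε)) * T ^ μ * T ^ (1 / 4 + η + 2 * ε)) := by
            rw [e2, hr]
            ring
        _ = 32 * Real.pi * T ^ (μ - 3 / 4 + η + 22 * ε) := by
            rw [← Real.rpow_add hT0, ← Real.rpow_add hT0]
            congr 2
            ring
    have e3 : r * Real.sqrt r * κ ^ 3 =
        16 * Real.pi * Real.sqrt (16 * Real.pi) * T ^ (6 * η + 42 * ε) := by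
      have e4 : Real.sqrt r = Real.sqrt (16 * Real.pi) * T ^ (-(1 - 20 * ε) / 2) := by
        rw [hr, Real.sqrt_mul (by positivity)]
        congr 1
        rw [Real.sqrt_eq_rpow, ← Real.rpow_mul hT0.le]
        congr 1
        ring
      have e5 : κ ^ 3 = T ^ (3 / 2 + 6 * η + 12 * ε) := by
        rw [hκ, ← Real.rpow_natCast, ← Real.rpow_mul hT0.le]
        congr 1
        push_cast
        ring
      calc r * Real.sqrt r * κ ^ 3
          = 16 * Real.pi * Real.sqrt (16 * Real.pi) * (T ^ (-(1 - 20 * ε)) *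
            T ^ (-(1 - 20 * ε) / 2) * T ^ (3 / 2 + 6 * η + 12 * ε)) := by
            rw [e4, e5, hr]
            ring
        _ = 16 * Real.pi * Real.sqrt (16 * Real.pi) * T ^ (6 * η + 42 * ε) := by
            rw [← Real.rpow_add hT0, ← Real.rpow_add hT0]
            congr 2
            ring
    rw [e1, e3, hc0, add_mul]
    have e6 : T ^ (μ - 3 / 4 + η + 22 * ε) ≤ T ^ ν := Real.rpow_le_rpow_of_exponent_le hT1 h1
    have e7 : T ^ (6 * η + 42 * ε) ≤ T ^ ν := Real.rpow_le_rpow_of_exponent_le hT1 h2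
    have e8 : 0 ≤ 16 * Real.pi * Real.sqrt (16 * Real.pi) := by positivity
    exact add_le_add (mul_le_mul_of_nonneg_left e6 (by positivity))
      (mul_le_mul_of_nonneg_left e7 e8)
  have hc00 : 0 < c0 := by
    rw [hc0]
    positivity
  obtain ⟨X, hX⟩ : ∃ X, X = C * T ^ (3 * e) * (c0 * T ^ ν) := ⟨_, rfl⟩
  have hX0 : 0 ≤ X := by
    rw [hX]
    positivity
  have key := B10_dyadic S (KK η ε T - 1) (fun k hk => (hbox k (hS hk)).2.1)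
    (fun k => (k.1 * k.2.1 * k.2.2 : ℝ) ^ (-(1 / 2) : ℝ)) X (by
      intro a b c
      rcases (Finset.filter (fun k => Nat.log 2 k.1 = a ∧ Nat.log 2 k.2.1 = b ∧
        Nat.log 2 k.2.2 = c) S).eq_empty_or_nonempty with h0 | ⟨k, hk⟩
      · rw [h0, Finset.sum_empty]
        exact hX0
      · rw [Finset.mem_filter] at hk
        obtain ⟨hkS, ha, hb, hc⟩ := hk
        obtain ⟨⟨k1, k2, k3⟩, -, l1, l2, l3⟩ := hbox k (hS hkS)
        rw [← hκ] at l1 l2 l3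
        obtain ⟨x, hx⟩ : ∃ x : ℝ, x = 2 ^ a := ⟨_, rfl⟩
        obtain ⟨y, hy⟩ : ∃ y : ℝ, y = 2 ^ b := ⟨_, rfl⟩
        obtain ⟨z, hz⟩ : ∃ z : ℝ, z = 2 ^ c := ⟨_, rfl⟩
        have hx1 : 1 ≤ x := by
          rw [hx]
          exact one_le_pow₀ (by norm_num)
        have hy1 : 1 ≤ y := by
          rw [hy]
          exact one_le_pow₀ (by norm_num)
        have hz1 : 1 ≤ z := by
          rw [hz]
          exact one_le_pow₀ (by norm_num)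
        have x1 : x ≤ k.1 := by
          rw [hx]
          exact B10_low _ _ k1 ha
        have y1 : y ≤ k.2.1 := by
          rw [hy]
          exact B10_low _ _ k2 hb
        have z1 : z ≤ k.2.2 := by
          rw [hz]
          exact B10_low _ _ k3 hc
        have hqQ : ∀ k' ∈ S, Nat.log 2 k'.1 = a → Nat.log 2 k'.2.1 = b → Nat.log 2 k'.2.2 = c →
            1 ≤ (q k' : ℝ) ∧ |(q k' : ℝ)| ≤ r * (x * y * z) := by
          intro k' hk' ha' hb' hc'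
          rw [hr]
          apply B10_res_q T ε hT1 k' x y z _ _ _ (hRes k' hk')
          · rw [hx]
            exact B10_up _ _ ha'
          · rw [hy]
            exact B10_up _ _ hb'
          · rw [hz]
            exact B10_up _ _ hc'
        obtain ⟨Q, hQ⟩ : ∃ Q, Q = r * (x * y * z) := ⟨_, rfl⟩
        have hQ1 : 1 ≤ Q := by
          obtain ⟨q1, q2⟩ := hqQ k hkS ha hb hc
          rw [hQ]
          exact q1.trans ((le_abs_self _).trans q2)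
        have hxy : x * y ≤ T ^ μ := by
          refine le_trans ?_ (hmu k hkS)
          exact mul_le_mul x1 y1 (by linarith) (by linarith)
        refine (B10_fiber _ (fun k hk => (hbox k (hS hk)).1) (1 / 2)
          (by norm_num) a b c Q (fun k' hk' u v w => ?_)).trans ?_
        · rw [hQ]
          exact (hqQ k' hk' u v w).2
        · have f1 := hcount a b c Q hQ1
          rw [← hx, ← hy] at f1
          rw [← hx, ← hy, ← hz]
          have hP0 : 0 < x * y * z := by positivity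
          have hw0 : 0 ≤ (x * y * z) ^ (-(1 / 2) : ℝ) := Real.rpow_nonneg hP0.le _
          have hxk : x ≤ κ := x1.trans l1
          have hyk : y ≤ κ := y1.trans l2
          have hzk : z ≤ κ := z1.trans l3
          have f2 := B10_res_alg x y z κ (T ^ μ) r hx1 hy1 hz1 hxk hyk hzk hxy hr0.le
          rw [← hQ] at f2
          have f3 : (4 * (x * y) * Q) ^ e ≤ T ^ (3 * e) := by
            rw [Real.rpow_mul hT0.le]
            apply Real.rpow_le_rpow (by positivity) _ he.le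
            have g1 : x * y ≤ κ * κ := mul_le_mul hxk hyk (by linarith) hκ0.le
            have g2 : x * y * z ≤ κ * κ * κ := mul_le_mul g1 hzk (by linarith) (by positivity)
            have g5 : κ ^ 5 = T ^ (5 / 2 + 10 * η + 20 * ε) := by
              rw [hκ, ← Real.rpow_natCast, ← Real.rpow_mul hT0.le]
              congr 1
              push_cast
              ring
            calc 4 * (x * y) * Q = 4 * (x * y) * (r * (x * y * z)) := by rw [hQ]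
              _ ≤ 4 * (κ * κ) * (r * (κ * κ * κ)) := by gcongr
              _ = (64 * Real.pi) * (T ^ (-(1 - 20 * ε)) * κ ^ 5) := by
                  rw [hr]
                  ring
              _ ≤ T ^ (1 : ℝ) * (T ^ (-(1 - 20 * ε)) * κ ^ 5) := by
                  rw [Real.rpow_one]
                  apply mul_le_mul_of_nonneg_right _ (by positivity)
                  linarith
              _ = T ^ (1 + (-(1 - 20 * ε) + (5 / 2 + 10 * η + 20 * ε))) := by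
                  rw [g5, ← Real.rpow_add hT0, ← Real.rpow_add hT0]
              _ ≤ T ^ (3 : ℝ) := Real.rpow_le_rpow_of_exponent_le hT1 (by linarith)
          calc (N10 (2 ^ (a + 1)) (2 ^ (b + 1)) (2 ^ (c + 1)) Q : ℝ) *
                (x * y * z) ^ (-(1 / 2) : ℝ)
              ≤ (C * (4 * (x * y) * Q) ^ e * (2 * Real.sqrt (x * y) + Real.sqrt Q) * Q) *
                (x * y * z) ^ (-(1 / 2) : ℝ) := mul_le_mul_of_nonneg_right f1 hw0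
            _ = C * (4 * (x * y) * Q) ^ e * ((2 * Real.sqrt (x * y) + Real.sqrt Q) * Q *
                (x * y * z) ^ (-(1 / 2) : ℝ)) := by ring
            _ ≤ C * T ^ (3 * e) * (c0 * T ^ ν) := by
                apply mul_le_mul _ (f2.trans hmain) _ (by positivity)
                · exact mul_le_mul_of_nonneg_left f3 hC.le
                · have : 0 ≤ Q := by linarith
                  positivity
            _ = X := hX.symm)
  refine key.trans ?_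
  calc ((Nat.log 2 (KK η ε T - 1) : ℝ) + 1) ^ 3 * X
      ≤ (C' * T ^ e) * (C * T ^ (3 * e) * (c0 * T ^ ν)) := by
        rw [← hX]
        exact mul_le_mul_of_nonneg_right (hlog _ T hT1 hK) hX0
    _ = (C' * (C * c0)) * (T ^ e * T ^ (3 * e) * T ^ ν) := by ring
    _ = (C' * (C * c0)) * T ^ (ν + 4 * e) := by
        rw [← Real.rpow_add hT0, ← Real.rpow_add hT0]
        congr 2
        ring
    _ ≤ T ^ ρ := hT₁ T ((le_max_left _ _).trans hT)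

open Classical in
theorem cnt_res (η ε : ℝ) (hη : 0 < η) (hη1 : η ≤ 1 / 80) (hε : 0 < ε) (hε1 : ε ≤ η / 100) :
    ∃ T₀ : ℝ, ∀ T : ℝ, T₀ ≤ T →
      ∑ k ∈ (box (KK η ε T)).filter (fun k => Res T ε k),
        (k.1 * k.2.1 * k.2.2 : ℝ) ^ (-(1 / 2) : ℝ) ≤ T ^ (1 / 4 + 6 * η) := by
  obtain ⟨T₀, h⟩ := B10_res η ε (1 + 4 * η + 8 * ε) (1 / 4 + 5 * η + 30 * ε) (1 / 4 + 6 * η)
    (η / 100) hη hη1 hε hε1 (by linarith) (by linarith) (by linarith) (by linarith) (by linarith)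
  refine ⟨max T₀ 1, fun T hT => h T ((le_max_left _ _).trans hT) _ (Finset.filter_subset _ _)
    (fun k hk => (Finset.mem_filter.1 hk).2) (fun k hk => ?_)⟩
  have hT1 : 1 ≤ T := (le_max_right _ _).trans hT
  obtain ⟨-, -, l1, l2, -⟩ := (B10_box η ε T hT1 hη hη1 hε hε1).2 k (Finset.mem_filter.1 hk).1
  calc (k.1 * k.2.1 : ℝ) ≤ T ^ (1 / 2 + 2 * η + 4 * ε) * T ^ (1 / 2 + 2 * η + 4 * ε) :=
        mul_le_mul l1 l2 (Nat.cast_nonneg _) (Real.rpow_nonneg (by linarith) _)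
    _ = T ^ (1 + 4 * η + 8 * ε) := by
        rw [← Real.rpow_add (by linarith)]
        congr 1
        ring

open Classical in
theorem cnt_res_small (η ε : ℝ) (hη : 0 < η) (hη1 : η ≤ 1 / 80) (hε : 0 < ε) (hε1 : ε ≤ η / 100) :
    ∃ T₀ : ℝ, ∀ T : ℝ, T₀ ≤ T →
      ∑ k ∈ (box (KK η ε T)).filter (fun k => Res T ε k ∧
          ((k.1 : ℝ) < T ^ (1 / 2 - 4 * η) ∨ (k.2.1 : ℝ) < T ^ (1 / 2 - 4 * η))),
        (k.1 * k.2.1 * k.2.2 : ℝ) ^ (-(1 / 2) : ℝ) ≤ T ^ (1 / 4 - η / 4) := by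
  obtain ⟨T₀, h⟩ := B10_res η ε (1 - 2 * η + 4 * ε) (1 / 4 - η + 26 * ε) (1 / 4 - η / 4)
    (η / 100) hη hη1 hε hε1 (by linarith) (by linarith) (by linarith) (by linarith) (by linarith)
  refine ⟨max T₀ 1, fun T hT => h T ((le_max_left _ _).trans hT) _ (Finset.filter_subset _ _)
    (fun k hk => (Finset.mem_filter.1 hk).2.1) (fun k hk => ?_)⟩
  have hT1 : 1 ≤ T := (le_max_right _ _).trans hT
  obtain ⟨-, -, l1, l2, -⟩ := (B10_box η ε T hT1 hη hη1 hε hε1).2 k (Finset.mem_filter.1 hk).1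
  have hfin : T ^ (1 / 2 - 4 * η) * T ^ (1 / 2 + 2 * η + 4 * ε) = T ^ (1 - 2 * η + 4 * ε) := by
    rw [← Real.rpow_add (by linarith)]
    congr 1
    ring
  rw [← hfin]
  rcases (Finset.mem_filter.1 hk).2.2 with h1 | h1
  · exact mul_le_mul h1.le l2 (Nat.cast_nonneg _) (Real.rpow_nonneg (by linarith) _)
  · rw [mul_comm]
    exact mul_le_mul h1.le l1 (Nat.cast_nonneg _) (Real.rpow_nonneg (by linarith) _)

end U6
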