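import Pool.Agent.Lib.MP_39df77_nt.U6.Defs
/-! A01: exact integral. Proof: for real a, b > 0 substitute, then analytic
continuation in a, then in b (both sides holomorphic in Re > 0). `a^(1/2)` principal. -/
open Complex MeasureTheory Set Filter Topology
open scoped Real
namespace U6

/-- identity theorem in the right half plane -/
theorem A01_ident {F G : ℂ → ℂ} (hF : DifferentiableOn ℂ F {z | 0 < z.re})
    (hG : DifferentiableOn ℂ G {z | 0 < z.re}) (h : ∀ x : ℝ, 0 < x → F x = G x) :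
    ∀ z : ℂ, 0 < z.re → F z = G z := by
  have ho : IsOpen {z : ℂ | 0 < z.re} := isOpen_lt continuous_const continuous_re
  have hc : IsPreconnected {z : ℂ | 0 < z.re} := (convex_halfSpace_re_gt 0).isPreconnected
  have hf : ∃ᶠ z in 𝓝[≠] (1 : ℂ), F z = G z := by
    have h1 : Tendsto (fun x : ℝ => (x : ℂ)) (𝓝[≠] 1) (𝓝[≠] 1) := by
      refine tendsto_nhdsWithin_iff.mpr ⟨?_, ?_⟩
      · exact (continuous_ofReal.tendsto' 1 1 (by simp)).mono_left nhdsWithin_le_nhds
      · filter_upwards [self_mem_nhdsWithin] with x hx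
        simpa using hx
    refine h1.frequently (Eventually.frequently ?_)
    have h2 : ∀ᶠ x in 𝓝 (1 : ℝ), 0 < x := lt_mem_nhds one_pos
    exact (h2.filter_mono nhdsWithin_le_nhds).mono h
  exact fun z hz => (hF.analyticOnNhd ho).eqOn_of_preconnected_of_frequently_eq
    (hG.analyticOnNhd ho) hc (by simp) hf hz

/-- the integrand -/
noncomputable def A01_g (a b : ℂ) (x : ℝ) : ℂ :=
  ((x ^ (-(1 / 2) : ℝ) : ℝ) : ℂ) * cexp (-(a * x) - b / x)

theorem A01_norm (a b : ℂ) {x : ℝ} (hx : 0 < x) :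
    ‖A01_g a b x‖ = x ^ (-(1 / 2) : ℝ) * Real.exp (-(a.re * x) - b.re / x) := by
  unfold A01_g
  rw [norm_mul, Complex.norm_real, Real.norm_of_nonneg (by positivity), Complex.norm_exp]
  congr 2
  rw [sub_re, neg_re, re_mul_ofReal, div_ofReal_re]

theorem A01_norm_le (a : ℂ) {b : ℂ} (hb : 0 ≤ b.re) {x : ℝ} (hx : 0 < x) :
    ‖A01_g a b x‖ ≤ x ^ (-(1 / 2) : ℝ) * Real.exp (-(a.re * x)) := by
  rw [A01_norm a b hx]
  have : 0 ≤ b.re / x := by positivity
  refine mul_le_mul_of_nonneg_left (Real.exp_le_exp.mpr (by linarith)) (by positivity)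

theorem A01_cont (a b : ℂ) : ContinuousOn (A01_g a b) (Ioi 0) := by
  unfold A01_g
  intro x hx
  have hx0 : (0 : ℝ) < x := hx
  refine ContinuousAt.continuousWithinAt ?_
  refine ContinuousAt.mul ?_ ?_
  · exact (continuous_ofReal.continuousAt).comp
      (Real.continuousAt_rpow_const x _ (Or.inl hx0.ne'))
  · refine ContinuousAt.cexp ?_
    refine ContinuousAt.sub (by fun_prop) ?_
    refine ContinuousAt.div (by fun_prop) (by fun_prop) ?_
    exact_mod_cast hx0.ne'

theorem A01_real_int {s a : ℝ} (hs : -1 < s) (ha : 0 < a) :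
    IntegrableOn (fun x : ℝ => x ^ s * Real.exp (-(a * x))) (Ioi 0) := by
  have h := integrableOn_rpow_mul_exp_neg_mul_rpow (p := 1) (s := s) hs one_pos ha
  refine h.congr_fun (fun x _ => ?_) measurableSet_Ioi
  simp only [Real.rpow_one, neg_mul]

theorem A01_integrable {a b : ℂ} (ha : 0 < a.re) (hb : 0 ≤ b.re) :
    IntegrableOn (A01_g a b) (Ioi 0) := by
  refine Integrable.mono' (A01_real_int (s := -(1 / 2)) (by norm_num) ha)
    ((A01_cont a b).aestronglyMeasurable measurableSet_Ioi) ?_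
  refine (ae_restrict_iff' measurableSet_Ioi).mpr (Eventually.of_forall fun x hx => ?_)
  exact A01_norm_le a hb hx

theorem A01_diff_a {b : ℂ} (hb : 0 ≤ b.re) :
    DifferentiableOn ℂ (fun a => ∫ x in Ioi (0 : ℝ), A01_g a b x) {z | 0 < z.re} := by
  intro a0 ha0
  have ha0' : 0 < a0.re := ha0
  refine DifferentiableAt.differentiableWithinAt ?_
  have hs : {a : ℂ | a0.re / 2 < a.re} ∈ 𝓝 a0 :=
    (isOpen_lt continuous_const continuous_re).mem_nhds (by show a0.re / 2 < a0.re; linarith)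
  refine (hasDerivAt_integral_of_dominated_loc_of_deriv_le (μ := volume.restrict (Ioi (0 : ℝ)))
    (F := fun a x => A01_g a b x) (F' := fun a x => -(x : ℂ) * A01_g a b x)
    (bound := fun x => x ^ (1 / 2 : ℝ) * Real.exp (-(a0.re / 2 * x))) hs ?_ ?_ ?_ ?_ ?_ ?_).2.differentiableAt
  · exact Eventually.of_forall fun a => (A01_cont a b).aestronglyMeasurable measurableSet_Ioi
  · exact A01_integrable ha0' hb
  · refine ContinuousOn.aestronglyMeasurable ?_ measurableSet_Ioi
    exact ContinuousOn.mul (by fun_prop) (A01_cont a0 b)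
  · refine (ae_restrict_iff' measurableSet_Ioi).mpr (Eventually.of_forall fun x hx a ha => ?_)
    have hx0 : (0 : ℝ) < x := hx
    have ha' : a0.re / 2 < a.re := ha
    rw [norm_mul, norm_neg, Complex.norm_real, Real.norm_of_nonneg hx0.le]
    have e1 : x * x ^ (-(1 / 2) : ℝ) = x ^ (1 / 2 : ℝ) := by
      nth_rw 1 [← Real.rpow_one x]
      rw [← Real.rpow_add hx0]
      norm_num
    calc x * ‖A01_g a b x‖ ≤ x * (x ^ (-(1 / 2) : ℝ) * Real.exp (-(a.re * x))) :=
          mul_le_mul_of_nonneg_left (A01_norm_le a hb hx0) hx0.le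
      _ = x ^ (1 / 2 : ℝ) * Real.exp (-(a.re * x)) := by rw [← mul_assoc, e1]
      _ ≤ _ := by
          refine mul_le_mul_of_nonneg_left (Real.exp_le_exp.mpr ?_) (by positivity)
          have := mul_le_mul_of_nonneg_right ha'.le hx0.le
          linarith
  · exact A01_real_int (by norm_num) (by linarith)
  · refine Eventually.of_forall fun x a _ => ?_
    unfold A01_g
    have h1 : HasDerivAt (fun a : ℂ => -(a * x) - b / x) (-(1 * (x : ℂ))) a :=
      (((hasDerivAt_id a).mul_const (x : ℂ)).neg).sub_const _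
    have h2 := (h1.cexp).const_mul (((x ^ (-(1 / 2) : ℝ) : ℝ) : ℂ))
    refine h2.congr_deriv ?_
    ring

theorem A01_te {t c : ℝ} (hc : 0 < c) : t * Real.exp (-(c * t)) ≤ 1 / c := by
  rw [Real.exp_neg, ← div_eq_mul_inv, div_le_div_iff₀ (Real.exp_pos _) hc, one_mul]
  have := Real.add_one_le_exp (c * t)
  linarith

theorem A01_diff_b {a : ℂ} (ha : 0 < a.re) :
    DifferentiableOn ℂ (fun b => ∫ x in Ioi (0 : ℝ), A01_g a b x) {z | 0 < z.re} := by
  intro b0 hb0
  have hb0' : 0 < b0.re := hb0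
  refine DifferentiableAt.differentiableWithinAt ?_
  have hs : {b : ℂ | b0.re / 2 < b.re} ∈ 𝓝 b0 :=
    (isOpen_lt continuous_const continuous_re).mem_nhds (by show b0.re / 2 < b0.re; linarith)
  refine (hasDerivAt_integral_of_dominated_loc_of_deriv_le (μ := volume.restrict (Ioi (0 : ℝ)))
    (F := fun b x => A01_g a b x) (F' := fun b x => -(x : ℂ)⁻¹ * A01_g a b x)
    (bound := fun x => 2 / b0.re * (x ^ (-(1 / 2) : ℝ) * Real.exp (-(a.re * x)))) hs
    ?_ ?_ ?_ ?_ ?_ ?_).2.differentiableAt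
  · exact Eventually.of_forall fun b => (A01_cont a b).aestronglyMeasurable measurableSet_Ioi
  · exact A01_integrable ha hb0'.le
  · refine ContinuousOn.aestronglyMeasurable ?_ measurableSet_Ioi
    refine ContinuousOn.mul ?_ (A01_cont a b0)
    intro x hx
    have hx0 : (0 : ℝ) < x := hx
    refine ContinuousAt.continuousWithinAt (ContinuousAt.neg (ContinuousAt.inv₀ (by fun_prop) ?_))
    exact_mod_cast hx0.ne'
  · refine (ae_restrict_iff' measurableSet_Ioi).mpr (Eventually.of_forall fun x hx b hb => ?_)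
    have hx0 : (0 : ℝ) < x := hx
    have hb' : b0.re / 2 < b.re := hb
    rw [norm_mul, norm_neg, norm_inv, Complex.norm_real, Real.norm_of_nonneg hx0.le, A01_norm a b hx0]
    have e1 : x⁻¹ * Real.exp (-(b0.re / 2 * x⁻¹)) ≤ 2 / b0.re := by
      refine (A01_te (t := x⁻¹) (c := b0.re / 2) (by linarith)).trans (le_of_eq ?_)
      rw [one_div_div]
    have e2 : Real.exp (-(a.re * x) - b.re / x) ≤
        Real.exp (-(a.re * x)) * Real.exp (-(b0.re / 2 * x⁻¹)) := by
      rw [← Real.exp_add]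
      refine Real.exp_le_exp.mpr ?_
      have : b0.re / 2 * x⁻¹ ≤ b.re / x := by
        rw [div_eq_mul_inv b.re]
        exact mul_le_mul_of_nonneg_right hb'.le (by positivity)
      linarith
    calc x⁻¹ * (x ^ (-(1 / 2) : ℝ) * Real.exp (-(a.re * x) - b.re / x)) ≤
          x⁻¹ * (x ^ (-(1 / 2) : ℝ) * (Real.exp (-(a.re * x)) * Real.exp (-(b0.re / 2 * x⁻¹)))) := by
          gcongr
      _ = (x⁻¹ * Real.exp (-(b0.re / 2 * x⁻¹))) * (x ^ (-(1 / 2) : ℝ) * Real.exp (-(a.re * x))) := by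
          ring
      _ ≤ _ := mul_le_mul_of_nonneg_right e1 (by positivity)
  · exact (A01_real_int (by norm_num) ha).const_mul _
  · refine Eventually.of_forall fun x b _ => ?_
    unfold A01_g
    have h1 : HasDerivAt (fun b : ℂ => -(a * x) - b / x) (-(1 / (x : ℂ))) b :=
      ((hasDerivAt_id b).div_const (x : ℂ)).const_sub _
    have h2 := (h1.cexp).const_mul (((x ^ (-(1 / 2) : ℝ) : ℝ) : ℂ))
    refine h2.congr_deriv ?_
    ring


theorem A01_rpow_neg_half {x : ℝ} (hx : 0 < x) : x ^ (-(1 / 2) : ℝ) = 1 / √x := by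
  rw [Real.rpow_neg hx.le, ← Real.sqrt_eq_rpow, one_div]

/-- for `α, β > 0` : the two integrals -/
theorem A01_real {α β : ℝ} (hα : 0 < α) (hβ : 0 < β) :
    ∫ x in Ioi (0 : ℝ), x ^ (-(1 / 2) : ℝ) * Real.exp (-(α ^ 2 * x) - β ^ 2 / x) =
      √π / α * Real.exp (-(2 * α * β)) := by
  set K : ℝ → ℝ := fun x => x ^ (-(1 / 2) : ℝ) * Real.exp (-(α ^ 2 * x) - β ^ 2 / x) with hK
  set K' : ℝ → ℝ := fun x => x⁻¹ * K x with hK'
  -- first substitution
  have hsq : ∀ x : ℝ, 0 < x → √x * √x = x := fun x hx => Real.mul_self_sqrt hx.le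
  have hd : ∀ x ∈ Ioi (0 : ℝ), HasDerivWithinAt (fun x : ℝ => α * √x - β / √x)
      (α * (1 / (2 * √x)) + β * (1 / (2 * √x)) / (√x) ^ 2) (Ioi 0) x := by
    intro x hx
    have hx0 : (0 : ℝ) < x := hx
    have hs0 : √x ≠ 0 := (Real.sqrt_pos.mpr hx0).ne'
    have h1 := Real.hasDerivAt_sqrt hx0.ne'
    have h2 := (h1.const_mul α).sub ((h1.fun_inv hs0).const_mul β)
    refine (h2.congr_deriv ?_).hasDerivWithinAt.congr_of_eventuallyEq ?_ ?_
    · ring
    · refine Eventually.of_forall fun y => ?_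
      simp [div_eq_mul_inv]
    · simp [div_eq_mul_inv]
  have hmono : StrictMonoOn (fun x : ℝ => α * √x - β / √x) (Ioi 0) := by
    intro x hx y hy hxy
    have hx0 : (0 : ℝ) < x := hx
    have h1 : √x < √y := Real.sqrt_lt_sqrt hx0.le hxy
    have h2 : 0 < √x := Real.sqrt_pos.mpr hx0
    have h3 : β / √y < β / √x := div_lt_div_of_pos_left hβ h2 h1
    have h4 := mul_lt_mul_of_pos_left h1 hα
    show α * √x - β / √x < α * √y - β / √y
    linarith
  have himg : (fun x : ℝ => α * √x - β / √x) '' Ioi 0 = univ := by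
    refine eq_univ_of_forall fun u => ?_
    set D := √(u ^ 2 + 4 * α * β) with hD
    have hD1 : D * D = u ^ 2 + 4 * α * β := Real.mul_self_sqrt (by positivity)
    have hD2 : |u| < D := by
      rw [hD, ← Real.sqrt_sq_eq_abs]
      exact Real.sqrt_lt_sqrt (sq_nonneg u) (by
        have := mul_pos hα hβ
        nlinarith)
    have hs : 0 < (u + D) / (2 * α) := by
      have := neg_abs_le u
      apply div_pos <;> linarith
    refine ⟨((u + D) / (2 * α)) ^ 2, by show 0 < ((u + D) / (2 * α)) ^ 2; positivity, ?_⟩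
    show α * √(((u + D) / (2 * α)) ^ 2) - β / √(((u + D) / (2 * α)) ^ 2) = u
    rw [Real.sqrt_sq hs.le]
    have hne : u + D ≠ 0 := by
      have := neg_abs_le u
      linarith
    field_simp
    nlinarith
  have hexp : ∀ x ∈ Ioi (0 : ℝ), |α * (1 / (2 * √x)) + β * (1 / (2 * √x)) / (√x) ^ 2| •
      Real.exp (-1 * (α * √x - β / √x) ^ 2) =
      1 / 2 * Real.exp (2 * α * β) * (α * K x + β * K' x) := by
    intro x hx
    have hx0 : (0 : ℝ) < x := hx
    have hs0 : 0 < √x := Real.sqrt_pos.mpr hx0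
    have e1 : Real.exp (-1 * (α * √x - β / √x) ^ 2) =
        Real.exp (2 * α * β) * Real.exp (-(α ^ 2 * x) - β ^ 2 / x) := by
      rw [← Real.exp_add]
      congr 1
      have : (α * √x - β / √x) ^ 2 = α ^ 2 * (√x * √x) - 2 * α * β + β ^ 2 / (√x * √x) := by
        field_simp
        ring
      rw [this, hsq x hx0]
      ring
    rw [abs_of_nonneg (by positivity), smul_eq_mul, e1]
    simp only [hK', hK]
    rw [A01_rpow_neg_half hx0, Real.sq_sqrt hx0.le]
    ring
  have hgauss : Integrable (fun u : ℝ => Real.exp (-1 * u ^ 2)) := integrable_exp_neg_mul_sq one_pos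
  have hint : IntegrableOn (fun x => 1 / 2 * Real.exp (2 * α * β) * (α * K x + β * K' x)) (Ioi 0) := by
    have h1 := (integrableOn_image_iff_integrableOn_abs_deriv_smul measurableSet_Ioi hd
      hmono.injOn (fun u : ℝ => Real.exp (-1 * u ^ 2))).mp (by rw [himg]; exact hgauss.integrableOn)
    exact h1.congr_fun hexp measurableSet_Ioi
  have hI1 : ∫ x in Ioi (0 : ℝ), 1 / 2 * Real.exp (2 * α * β) * (α * K x + β * K' x) = √π := by
    have h1 := integral_image_eq_integral_abs_deriv_smul measurableSet_Ioi hd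
      hmono.injOn (fun u : ℝ => Real.exp (-1 * u ^ 2))
    rw [himg, setIntegral_univ, integral_gaussian, div_one] at h1
    rw [h1]
    exact (setIntegral_congr_fun measurableSet_Ioi hexp).symm
  have hKint : IntegrableOn K (Ioi 0) := by
    have hr := A01_real_int (s := -(1 / 2)) (a := α ^ 2) (by norm_num) (by positivity)
    refine Integrable.mono' hr ?_ ?_
    · refine ContinuousOn.aestronglyMeasurable ?_ measurableSet_Ioi
      intro x hx
      have hx0 : (0 : ℝ) < x := hx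
      refine ContinuousAt.continuousWithinAt ?_
      refine (Real.continuousAt_rpow_const x _ (Or.inl hx0.ne')).mul ?_
      refine ContinuousAt.rexp ?_
      exact ContinuousAt.sub (by fun_prop) (ContinuousAt.div (by fun_prop) (by fun_prop) hx0.ne')
    · refine (ae_restrict_iff' measurableSet_Ioi).mpr (Eventually.of_forall fun x hx => ?_)
      have hx0 : (0 : ℝ) < x := hx
      rw [Real.norm_of_nonneg (by simp only [hK]; positivity)]
      simp only [hK]
      refine mul_le_mul_of_nonneg_left (Real.exp_le_exp.mpr ?_) (by positivity)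
      have : 0 ≤ β ^ 2 / x := by positivity
      linarith
  have hK'int : IntegrableOn K' (Ioi 0) := by
    have h1 : IntegrableOn ((fun x => 2 * Real.exp (-(2 * α * β)) / β *
        (1 / 2 * Real.exp (2 * α * β) * (α * K x + β * K' x))) - fun x => α / β * K x) (Ioi 0) :=
      (hint.const_mul (2 * Real.exp (-(2 * α * β)) / β)).sub (hKint.const_mul (α / β))
    refine h1.congr_fun (fun x _ => ?_) measurableSet_Ioi
    have : Real.exp (-(2 * α * β)) * Real.exp (2 * α * β) = 1 := by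
      rw [← Real.exp_add]; simp
    show 2 * Real.exp (-(2 * α * β)) / β * (1 / 2 * Real.exp (2 * α * β) * (α * K x + β * K' x)) -
      α / β * K x = K' x
    have h2 : 2 * Real.exp (-(2 * α * β)) / β * (1 / 2 * Real.exp (2 * α * β) * (α * K x + β * K' x)) =
        (Real.exp (-(2 * α * β)) * Real.exp (2 * α * β)) * ((α * K x + β * K' x) / β) := by ring
    rw [h2, this]
    field_simp
    ring
  -- second substitution
  have hd2 : ∀ x ∈ Ioi (0 : ℝ), HasDerivWithinAt (fun x : ℝ => β ^ 2 / α ^ 2 / x)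
      (-(β ^ 2 / α ^ 2) / x ^ 2) (Ioi 0) x := by
    intro x hx
    have hx0 : (0 : ℝ) < x := hx
    have h1 := (hasDerivAt_inv hx0.ne').const_mul (β ^ 2 / α ^ 2)
    refine (h1.congr_deriv ?_).hasDerivWithinAt.congr_of_eventuallyEq ?_ ?_
    · ring
    · exact Eventually.of_forall fun y => by simp [div_eq_mul_inv]
    · simp [div_eq_mul_inv]
  have hinj2 : InjOn (fun x : ℝ => β ^ 2 / α ^ 2 / x) (Ioi 0) := by
    intro x hx y hy hxy
    have hx0 : (0 : ℝ) < x := hx
    have hy0 : (0 : ℝ) < y := hy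
    have hne : β ^ 2 / α ^ 2 ≠ 0 := by positivity
    have h1 : β ^ 2 / α ^ 2 / x = β ^ 2 / α ^ 2 / y := hxy
    rw [div_eq_div_iff hx0.ne' hy0.ne'] at h1
    exact (mul_left_cancel₀ hne h1).symm
  have himg2 : (fun x : ℝ => β ^ 2 / α ^ 2 / x) '' Ioi 0 = Ioi 0 := by
    ext y
    constructor
    · rintro ⟨x, hx, rfl⟩
      have hx0 : (0 : ℝ) < x := hx
      show 0 < β ^ 2 / α ^ 2 / x
      positivity
    · intro hy
      have hy0 : (0 : ℝ) < y := hy
      refine ⟨β ^ 2 / α ^ 2 / y, by show 0 < β ^ 2 / α ^ 2 / y; positivity, ?_⟩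
      show β ^ 2 / α ^ 2 / (β ^ 2 / α ^ 2 / y) = y
      field_simp
  have hexp2 : ∀ x ∈ Ioi (0 : ℝ), |-(β ^ 2 / α ^ 2) / x ^ 2| • K (β ^ 2 / α ^ 2 / x) =
      β / α * K' x := by
    intro x hx
    have hx0 : (0 : ℝ) < x := hx
    have hs0 : 0 < √x := Real.sqrt_pos.mpr hx0
    rw [neg_div, abs_neg, abs_of_nonneg (by positivity), smul_eq_mul]
    simp only [hK', hK]
    rw [A01_rpow_neg_half hx0, A01_rpow_neg_half (by positivity), Real.sqrt_div (by positivity),
      Real.sqrt_div (by positivity), Real.sqrt_sq hβ.le, Real.sqrt_sq hα.le]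
    have e1 : -(α ^ 2 * (β ^ 2 / α ^ 2 / x)) - β ^ 2 / (β ^ 2 / α ^ 2 / x) =
        -(α ^ 2 * x) - β ^ 2 / x := by
      field_simp
      ring
    rw [e1]
    have e2 : √x * √x = x := hsq x hx0
    have e3 : β ^ 2 / α ^ 2 / x ^ 2 * (1 / (β / α / √x)) = β / α * (x⁻¹ * (1 / √x)) := by
      have : x ^ 2 = x * (√x * √x) := by rw [e2]; ring
      rw [this]
      field_simp
    rw [← mul_assoc, e3]
    ring
  have hI2 : ∫ x in Ioi (0 : ℝ), K x = β / α * ∫ x in Ioi (0 : ℝ), K' x := by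
    have h1 := integral_image_eq_integral_abs_deriv_smul measurableSet_Ioi hd2 hinj2 K
    rw [himg2] at h1
    rw [h1, ← integral_const_mul]
    exact setIntegral_congr_fun measurableSet_Ioi hexp2
  rw [integral_const_mul, integral_add (hKint.const_mul α) (hK'int.const_mul β), integral_const_mul,
    integral_const_mul] at hI1
  have h3 : β * ∫ x in Ioi (0 : ℝ), K' x = α * ∫ x in Ioi (0 : ℝ), K x := by
    rw [hI2]
    field_simp
  rw [h3] at hI1
  have h4 : Real.exp (-(2 * α * β)) * Real.exp (2 * α * β) = 1 := by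
    rw [← Real.exp_add]; simp
  have h5 : Real.exp (-(2 * α * β)) * √π = α * ∫ x in Ioi (0 : ℝ), K x := by
    rw [← hI1]
    linear_combination (α * ∫ x in Ioi (0 : ℝ), K x) * h4
  rw [div_mul_eq_mul_div, eq_div_iff hα.ne']
  linarith


/-- `∫₀^∞ x^{-1/2} e^{-ax-b/x} dx = √π a^{-1/2} e^{-2 a^{1/2} b^{1/2}}` -/
theorem A01_exact {a b : ℂ} (ha : 0 < a.re) (hb : 0 < b.re) :
    ∫ x in Ioi (0 : ℝ), ((x ^ (-(1 / 2) : ℝ) : ℝ) : ℂ) * cexp (-(a * x) - b / x) =
      (√π : ℂ) * a ^ (-(1 / 2) : ℂ) * cexp (-(2 * (a ^ (1 / 2 : ℂ) * b ^ (1 / 2 : ℂ)))) := by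
  have hslit : ∀ z ∈ {z : ℂ | 0 < z.re}, z ∈ slitPlane := fun z hz => Or.inl hz
  have hreal : ∀ x y : ℝ, 0 < x → 0 < y → ∫ t in Ioi (0 : ℝ), A01_g x y t =
      (√π : ℂ) * (x : ℂ) ^ (-(1 / 2) : ℂ) * cexp (-(2 * ((x : ℂ) ^ (1 / 2 : ℂ) *
        (y : ℂ) ^ (1 / 2 : ℂ)))) := by
    intro x y hx hy
    have h := A01_real (Real.sqrt_pos.mpr hx) (Real.sqrt_pos.mpr hy)
    rw [Real.sq_sqrt hx.le, Real.sq_sqrt hy.le] at h
    have e1 : ∀ t : ℝ, A01_g x y t =
        ((t ^ (-(1 / 2) : ℝ) * Real.exp (-(x * t) - y / t) : ℝ) : ℂ) := by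
      intro t
      unfold A01_g
      push_cast
      rfl
    simp_rw [e1]
    have e4 : ∫ t in Ioi (0 : ℝ), ((t ^ (-(1 / 2) : ℝ) * Real.exp (-(x * t) - y / t) : ℝ) : ℂ) =
        ((∫ t in Ioi (0 : ℝ), t ^ (-(1 / 2) : ℝ) * Real.exp (-(x * t) - y / t) : ℝ) : ℂ) :=
      integral_ofReal
    rw [e4, h]
    have e2 : (x : ℂ) ^ (1 / 2 : ℂ) = ((√x : ℝ) : ℂ) := by
      rw [Real.sqrt_eq_rpow, ofReal_cpow hx.le]
      norm_num
    have e3 : (y : ℂ) ^ (1 / 2 : ℂ) = ((√y : ℝ) : ℂ) := by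
      rw [Real.sqrt_eq_rpow, ofReal_cpow hy.le]
      norm_num
    rw [e2, e3, cpow_neg, e2]
    push_cast
    rw [div_eq_mul_inv]
    congr 2
    ring
  have h1 : ∀ y : ℝ, 0 < y → ∀ a : ℂ, 0 < a.re → ∫ t in Ioi (0 : ℝ), A01_g a y t =
      (√π : ℂ) * a ^ (-(1 / 2) : ℂ) * cexp (-(2 * (a ^ (1 / 2 : ℂ) * (y : ℂ) ^ (1 / 2 : ℂ)))) := by
    intro y hy
    refine A01_ident (A01_diff_a (b := (y : ℂ)) (by simpa using hy.le)) ?_ fun x hx => hreal x y hx hy
    intro z hz
    have hz' := hslit z hz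
    refine DifferentiableAt.differentiableWithinAt ?_
    refine DifferentiableAt.mul ?_ ?_
    · exact (differentiableAt_id.cpow_const hz').const_mul _
    · exact (((differentiableAt_id.cpow_const hz').mul_const _).const_mul _).neg.cexp
  have h2 : ∀ b : ℂ, 0 < b.re → ∫ t in Ioi (0 : ℝ), A01_g a b t =
      (√π : ℂ) * a ^ (-(1 / 2) : ℂ) * cexp (-(2 * (a ^ (1 / 2 : ℂ) * b ^ (1 / 2 : ℂ)))) := by
    refine A01_ident (A01_diff_b ha) ?_ fun y hy => h1 y hy a ha
    intro z hz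
    have hz' := hslit z hz
    refine DifferentiableAt.differentiableWithinAt ?_
    exact ((((differentiableAt_id.cpow_const hz').const_mul _).const_mul _).neg.cexp).const_mul _
  exact h2 b hb


theorem int_exp_half_integrable {a b : ℂ} (ha : 0 < a.re) (hb : 0 < b.re) :
    IntegrableOn (fun x : ℝ => ((Real.sqrt x)⁻¹ : ℂ) * cexp (-(a * x) - b / x)) (Ioi 0) := by
  refine (A01_integrable ha hb.le).congr_fun (fun x hx => ?_) measurableSet_Ioi
  have hx0 : (0 : ℝ) < x := hx
  unfold A01_g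
  rw [A01_rpow_neg_half hx0, one_div, ofReal_inv]

theorem int_exp_half {a b : ℂ} (ha : 0 < a.re) (hb : 0 < b.re) :
    ∫ x in Ioi (0 : ℝ), ((Real.sqrt x)⁻¹ : ℂ) * cexp (-(a * x) - b / x) =
      Real.sqrt Real.pi / a ^ (1 / 2 : ℂ) * cexp (-(2 * (a ^ (1 / 2 : ℂ) * b ^ (1 / 2 : ℂ)))) := by
  have h := A01_exact ha hb
  rw [cpow_neg, ← div_eq_mul_inv] at h
  rw [← h]
  refine setIntegral_congr_fun measurableSet_Ioi fun x hx => ?_
  have hx0 : (0 : ℝ) < x := hx
  rw [A01_rpow_neg_half hx0, one_div, ofReal_inv]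

end U6
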