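import Pool.Agent.Lib.MP_39df77_nt.U6.Defs
import Pool.Agent.Lib.MP_39df77_nt.F4.A
/-! A02: the Cauchy kernel: integral and Fourier transform (Fourier inversion from `e^{-G|x|}`). -/
open Complex MeasureTheory Set
namespace U6

private theorem P_eq {G : ℝ} (hG : 0 < G) (u : ℝ) : P G u = (Real.pi * G)⁻¹ * (G ^ 2 / (G ^ 2 + u ^ 2)) := by
  unfold P
  have h1 := Real.pi_pos
  have h2 : 0 < G ^ 2 + u ^ 2 := by positivity
  field_simp

theorem P_integrable {G : ℝ} (hG : 0 < G) : Integrable (fun u => P G u) := by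
  simp_rw [P_eq hG]
  exact (F4.integrable_cauchy hG).const_mul _

theorem P_ft {G : ℝ} (hG : 0 < G) (ξ : ℝ) :
    ∫ u : ℝ, ((P G u : ℝ) : ℂ) * cexp (I * u * ξ) = (Real.exp (-(G * |ξ|)) : ℂ) := by
  have h := F4.cauchy_ft hG (-ξ)
  have e : ∀ u : ℝ, ((P G u : ℝ) : ℂ) * cexp (I * u * ξ) =
      (((Real.pi * G)⁻¹ : ℝ) : ℂ) * (cexp (-(((-ξ : ℝ) : ℂ) * u * I)) * ((G ^ 2 / (G ^ 2 + u ^ 2) : ℝ) : ℂ)) := by
    intro u
    rw [P_eq hG, Complex.ofReal_mul]
    have : cexp (I * u * ξ) = cexp (-(((-ξ : ℝ) : ℂ) * u * I)) := by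
      congr 1
      push_cast
      ring
    rw [this]
    ring
  simp_rw [e]
  rw [integral_const_mul, h, ← Complex.ofReal_mul]
  congr 1
  rw [abs_neg]
  have h1 := Real.pi_pos
  rw [← mul_assoc, inv_mul_cancel₀ (by positivity), one_mul]
  congr 1
  ring
end U6
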