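import Pool.Agent.Lib.MP_39df77_nt.U6.Defs

/-!
Row A4: first and second derivative tests for oscillatory integrals with amplitude.
-/

open MeasureTheory Set Filter Topology intervalIntegral
open scoped Real

namespace U6.A04

/-- integration by parts against exp(i Phi) -/
theorem ibp_bound {a b : ℝ} (hab : a ≤ b) {Φ Φ' : ℝ → ℝ} {g g' : ℝ → ℂ}
    (h1 : ∀ x ∈ Icc a b, HasDerivAt Φ (Φ' x) x) (hc : ContinuousOn Φ' (Icc a b))
    (hg : ∀ x ∈ Icc a b, HasDerivAt g (g' x) x) (hgi : IntervalIntegrable g' volume a b) :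
    ‖∫ x in a..b, g x * ((Φ' x : ℝ) : ℂ) * Complex.exp (Complex.I * (Φ x : ℝ))‖ ≤
      ‖g a‖ + ‖g b‖ + ∫ x in a..b, ‖g' x‖ := by
  have hu : uIcc a b = Icc a b := uIcc_of_le hab
  set v : ℝ → ℂ := fun x => -Complex.I * Complex.exp (Complex.I * (Φ x : ℝ)) with hv
  have hvd : ∀ x ∈ uIcc a b, HasDerivAt v (((Φ' x : ℝ) : ℂ) * Complex.exp (Complex.I * (Φ x : ℝ))) x := by
    intro x hx
    rw [hu] at hx
    have e1 : HasDerivAt (fun x => Complex.I * ((Φ x : ℝ) : ℂ)) (Complex.I * ((Φ' x : ℝ) : ℂ)) x :=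
      ((h1 x hx).ofReal_comp).const_mul Complex.I
    have e2 := (e1.cexp).const_mul (-Complex.I)
    have e5 : -Complex.I * (Complex.exp (Complex.I * ((Φ x : ℝ) : ℂ)) * (Complex.I * ((Φ' x : ℝ) : ℂ))) =
        ((Φ' x : ℝ) : ℂ) * Complex.exp (Complex.I * (Φ x : ℝ)) := by
      linear_combination (-(Complex.exp (Complex.I * (Φ x : ℝ)) * ((Φ' x : ℝ) : ℂ))) * Complex.I_mul_I
    rw [e5] at e2
    exact e2
  have hΦc : ContinuousOn Φ (Icc a b) := fun x hx => (h1 x hx).continuousAt.continuousWithinAt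
  have hvi : IntervalIntegrable (fun x => ((Φ' x : ℝ) : ℂ) * Complex.exp (Complex.I * (Φ x : ℝ))) volume a b := by
    refine ContinuousOn.intervalIntegrable ?_
    rw [hu]
    exact (Complex.continuous_ofReal.comp_continuousOn hc).mul
      (Complex.continuous_exp.comp_continuousOn
        (continuousOn_const.mul (Complex.continuous_ofReal.comp_continuousOn hΦc)))
  have hgd : ∀ x ∈ uIcc a b, HasDerivAt g (g' x) x := fun x hx => hg x (hu ▸ hx)
  have key := integral_mul_deriv_eq_deriv_mul hgd hvd hgi hvi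
  have e3 : ∫ x in a..b, g x * ((Φ' x : ℝ) : ℂ) * Complex.exp (Complex.I * (Φ x : ℝ)) =
      ∫ x in a..b, g x * (((Φ' x : ℝ) : ℂ) * Complex.exp (Complex.I * (Φ x : ℝ))) :=
    integral_congr (fun x _ => by ring)
  rw [e3, key]
  have hvn : ∀ x, ‖v x‖ = 1 := by
    intro x
    simp only [hv]
    rw [norm_mul, norm_neg, Complex.norm_I, one_mul, mul_comm, Complex.norm_exp_ofReal_mul_I]
  have e4 : ‖∫ x in a..b, g' x * v x‖ ≤ ∫ x in a..b, ‖g' x‖ := by
    refine (intervalIntegral.norm_integral_le_integral_norm hab).trans (le_of_eq ?_)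
    refine integral_congr (fun x _ => ?_)
    rw [norm_mul, hvn, mul_one]
  calc ‖g b * v b - g a * v a - ∫ x in a..b, g' x * v x‖
      ≤ ‖g b * v b‖ + ‖g a * v a‖ + ‖∫ x in a..b, g' x * v x‖ :=
        (norm_sub_le _ _).trans (add_le_add_left (norm_sub_le _ _) _)
    _ ≤ ‖g a‖ + ‖g b‖ + ∫ x in a..b, ‖g' x‖ := by
        rw [norm_mul (g b), norm_mul (g a), hvn, hvn, mul_one, mul_one]
        linarith

/-- amplitude removal by partial integration -/
theorem amp_bound {a b : ℝ} (hab : a ≤ b) {f : ℝ → ℂ} {A A' : ℝ → ℂ} {M : ℝ}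
    (hf : ContinuousOn f (Icc a b)) (hM : ∀ x ∈ Icc a b, ‖∫ y in a..x, f y‖ ≤ M)
    (hA : ∀ x ∈ Icc a b, HasDerivAt A (A' x) x) (hAi : IntervalIntegrable A' volume a b) :
    ‖∫ x in a..b, A x * f x‖ ≤ M * (‖A b‖ + ∫ x in a..b, ‖A' x‖) := by
  rcases eq_or_lt_of_le hab with rfl | hlt
  · have := hM a ⟨le_refl _, le_refl _⟩
    rw [integral_same, norm_zero] at this ⊢
    rw [integral_same]
    positivity
  have hu : uIcc a b = Icc a b := uIcc_of_le hab
  have hfi : IntervalIntegrable f volume a b := by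
    refine ContinuousOn.intervalIntegrable ?_
    rwa [hu]
  have hFc : ContinuousOn (fun x => ∫ y in a..x, f y) (uIcc a b) :=
    continuousOn_primitive_interval (by rw [← hu] at hf; exact (hf.integrableOn_compact isCompact_uIcc))
  have hAc : ContinuousOn A (uIcc a b) := fun x hx => (hA x (hu ▸ hx)).continuousAt.continuousWithinAt
  have hFd : ∀ x ∈ Ioo (min a b) (max a b), HasDerivWithinAt (fun x => ∫ y in a..x, f y) (f x) (Ioi x) x := by
    intro x hx
    rw [min_eq_left hab, max_eq_right hab] at hx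
    have hxI : x ∈ Icc a b := Ioo_subset_Icc_self hx
    have h1 : IntervalIntegrable f volume a x := hfi.mono_set (by
      rw [uIcc_of_le hxI.1, hu]
      exact Icc_subset_Icc_right hxI.2)
    have hcx : ContinuousAt f x := hf.continuousAt (Icc_mem_nhds hx.1 hx.2)
    have hsm : StronglyMeasurableAtFilter f (𝓝 x) volume :=
      (hf.mono Ioo_subset_Icc_self).stronglyMeasurableAtFilter isOpen_Ioo x hx
    exact (integral_hasDerivAt_right h1 hsm hcx).hasDerivWithinAt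
  have hAd : ∀ x ∈ Ioo (min a b) (max a b), HasDerivWithinAt A (A' x) (Ioi x) x := by
    intro x hx
    rw [min_eq_left hab, max_eq_right hab] at hx
    exact (hA x (Ioo_subset_Icc_self hx)).hasDerivWithinAt
  have key := integral_mul_deriv_eq_deriv_mul_of_hasDeriv_right (u := A) (v := fun x => ∫ y in a..x, f y)
    (u' := A') (v' := f) hAc hFc hAd hFd hAi hfi
  rw [key, integral_same, mul_zero, sub_zero]
  have hMb := hM b ⟨hab, le_refl _⟩
  have e4 : ‖∫ x in a..b, A' x * ∫ y in a..x, f y‖ ≤ ∫ x in a..b, M * ‖A' x‖ := by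
    refine norm_integral_le_of_norm_le hab ?_ ((hAi.norm).const_mul M)
    refine Eventually.of_forall (fun x hx => ?_)
    rw [norm_mul, mul_comm]
    exact mul_le_mul_of_nonneg_right (hM x ⟨hx.1.le, hx.2⟩) (norm_nonneg _)
  rw [intervalIntegral.integral_const_mul] at e4
  calc ‖A b * (∫ y in a..b, f y) - ∫ x in a..b, A' x * ∫ y in a..x, f y‖
      ≤ ‖A b * (∫ y in a..b, f y)‖ + ‖∫ x in a..b, A' x * ∫ y in a..x, f y‖ := norm_sub_le _ _
    _ ≤ ‖A b‖ * M + M * ∫ x in a..b, ‖A' x‖ := by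
        rw [norm_mul]
        exact add_le_add (mul_le_mul_of_nonneg_left hMb (norm_nonneg _)) e4
    _ = M * (‖A b‖ + ∫ x in a..b, ‖A' x‖) := by ring

/-- the integral of |g'| for g' of constant sign -/
theorem int_abs_of_sign {a b : ℝ} (hab : a ≤ b) {g g' : ℝ → ℝ}
    (hg : ∀ x ∈ Icc a b, HasDerivAt g (g' x) x) (hgi : IntervalIntegrable g' volume a b)
    (hs : (∀ x ∈ Icc a b, 0 ≤ g' x) ∨ (∀ x ∈ Icc a b, g' x ≤ 0)) :
    ∫ x in a..b, |g' x| = |g b - g a| := by
  have hu : uIcc a b = Icc a b := uIcc_of_le hab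
  have hftc : ∫ x in a..b, g' x = g b - g a :=
    integral_eq_sub_of_hasDerivAt (fun x hx => hg x (hu ▸ hx)) hgi
  rcases hs with h | h
  · have e : ∫ x in a..b, |g' x| = ∫ x in a..b, g' x :=
      integral_congr (fun x hx => abs_of_nonneg (h x (hu ▸ hx)))
    rw [e, hftc, abs_of_nonneg]
    rw [← hftc]
    exact integral_nonneg hab h
  · have e : ∫ x in a..b, |g' x| = ∫ x in a..b, -g' x :=
      integral_congr (fun x hx => abs_of_nonpos (h x (hu ▸ hx)))
    rw [e, intervalIntegral.integral_neg, hftc, abs_of_nonpos]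
    rw [← hftc]
    have := integral_nonneg (μ := volume) (f := fun x => -g' x) hab (fun x hx => neg_nonneg.2 (h x hx))
    rw [intervalIntegral.integral_neg] at this
    linarith

/-- first derivative test: phase with monotone derivative of size at least m -/
theorem first_test {a b : ℝ} (hab : a ≤ b) {Φ Φ' Φ'' : ℝ → ℝ} {m : ℝ} (hm : 0 < m)
    (h1 : ∀ x ∈ Icc a b, HasDerivAt Φ (Φ' x) x) (h2 : ∀ x ∈ Icc a b, HasDerivAt Φ' (Φ'' x) x)
    (hc : ContinuousOn Φ'' (Icc a b))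
    (hs : (∀ x ∈ Icc a b, m ≤ Φ' x) ∨ (∀ x ∈ Icc a b, Φ' x ≤ -m))
    (ht : (∀ x ∈ Icc a b, 0 ≤ Φ'' x) ∨ (∀ x ∈ Icc a b, Φ'' x ≤ 0)) :
    ‖∫ x in a..b, Complex.exp (Complex.I * (Φ x : ℝ))‖ ≤ 3 / m := by
  have hu : uIcc a b = Icc a b := uIcc_of_le hab
  have hne : ∀ x ∈ Icc a b, Φ' x ≠ 0 := by
    intro x hx
    rcases hs with h | h
    · exact (lt_of_lt_of_le hm (h x hx)).ne'
    · have := h x hx
      intro h0
      linarith
  have hΦ'c : ContinuousOn Φ' (Icc a b) := fun x hx => (h2 x hx).continuousAt.continuousWithinAt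
  set g : ℝ → ℝ := fun x => (Φ' x)⁻¹ with hg
  set g' : ℝ → ℝ := fun x => -Φ'' x / (Φ' x) ^ 2 with hg'
  have hgd : ∀ x ∈ Icc a b, HasDerivAt g (g' x) x := fun x hx => (h2 x hx).inv (hne x hx)
  have hg'c : ContinuousOn g' (Icc a b) := (hc.neg).div (hΦ'c.pow 2) (fun x hx => pow_ne_zero 2 (hne x hx))
  have hgi : IntervalIntegrable g' volume a b := ContinuousOn.intervalIntegrable (by rw [hu]; exact hg'c)
  have hsg : (∀ x ∈ Icc a b, 0 ≤ g' x) ∨ (∀ x ∈ Icc a b, g' x ≤ 0) := by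
    rcases ht with h | h
    · right
      intro x hx
      simp only [hg']
      exact div_nonpos_of_nonpos_of_nonneg (neg_nonpos.2 (h x hx)) (by positivity)
    · left
      intro x hx
      simp only [hg']
      exact div_nonneg (neg_nonneg.2 (h x hx)) (by positivity)
  have key := ibp_bound (g := fun x => ((g x : ℝ) : ℂ)) (g' := fun x => ((g' x : ℝ) : ℂ)) hab h1 hΦ'c
    (fun x hx => (hgd x hx).ofReal_comp) (ContinuousOn.intervalIntegrable (by
      rw [hu]; exact Complex.continuous_ofReal.comp_continuousOn hg'c))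
  have e1 : ∫ x in a..b, ((g x : ℝ) : ℂ) * ((Φ' x : ℝ) : ℂ) * Complex.exp (Complex.I * (Φ x : ℝ)) =
      ∫ x in a..b, Complex.exp (Complex.I * (Φ x : ℝ)) := by
    refine integral_congr (fun x hx => ?_)
    rw [hu] at hx
    simp only [hg]
    rw [← Complex.ofReal_mul, inv_mul_cancel₀ (hne x hx), Complex.ofReal_one, one_mul]
  rw [e1] at key
  simp only [Complex.norm_real, Real.norm_eq_abs] at key
  rw [int_abs_of_sign hab hgd hgi hsg] at key
  have ha : a ∈ Icc a b := ⟨le_refl _, hab⟩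
  have hb : b ∈ Icc a b := ⟨hab, le_refl _⟩
  have hm1 : ∀ x ∈ Icc a b, |g x| ≤ 1 / m := by
    intro x hx
    simp only [hg]
    rw [abs_inv, ← one_div]
    refine one_div_le_one_div_of_le hm ?_
    rcases hs with h | h
    · exact (h x hx).trans (le_abs_self _)
    · have := h x hx
      have := neg_le_abs (Φ' x)
      linarith
  have hdiff : |g b - g a| ≤ 1 / m := by
    have x1 := hm1 a ha
    have x2 := hm1 b hb
    rw [abs_le] at x1 x2
    rcases hs with h | h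
    · have y1 : 0 ≤ g a := by simp only [hg]; exact inv_nonneg.2 (hm.le.trans (h a ha))
      have y2 : 0 ≤ g b := by simp only [hg]; exact inv_nonneg.2 (hm.le.trans (h b hb))
      rw [abs_le]
      constructor <;> linarith [x1.2, x2.2]
    · have y1 : g a ≤ 0 := by simp only [hg]; exact inv_nonpos.2 (by linarith [h a ha])
      have y2 : g b ≤ 0 := by simp only [hg]; exact inv_nonpos.2 (by linarith [h b hb])
      rw [abs_le]
      constructor <;> linarith [x1.1, x2.1]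
  have x1 := hm1 a ha
  have x2 := hm1 b hb
  have : 3 / m = 1 / m + 1 / m + 1 / m := by ring
  linarith

theorem norm_int_exp_le {a b : ℝ} (hab : a ≤ b) (Φ : ℝ → ℝ) :
    ‖∫ x in a..b, Complex.exp (Complex.I * (Φ x : ℝ))‖ ≤ b - a := by
  have := norm_integral_le_of_norm_le_const (a := a) (b := b) (C := 1)
    (f := fun x => Complex.exp (Complex.I * (Φ x : ℝ))) (fun x _ => by
      rw [mul_comm, Complex.norm_exp_ofReal_mul_I])
  rwa [one_mul, abs_of_nonneg (sub_nonneg.2 hab)] at this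

/-- second derivative test, positive second derivative -/
theorem second_test_pos {a b : ℝ} (hab : a ≤ b) {Φ Φ' Φ'' : ℝ → ℝ} {lam : ℝ} (hl : 0 < lam)
    (h1 : ∀ x ∈ Icc a b, HasDerivAt Φ (Φ' x) x) (h2 : ∀ x ∈ Icc a b, HasDerivAt Φ' (Φ'' x) x)
    (hc : ContinuousOn Φ'' (Icc a b)) (ht : ∀ x ∈ Icc a b, lam ≤ Φ'' x) :
    ‖∫ x in a..b, Complex.exp (Complex.I * (Φ x : ℝ))‖ ≤ 8 / √lam := by
  have hu : uIcc a b = Icc a b := uIcc_of_le hab
  have hΦ'c : ContinuousOn Φ' (Icc a b) := fun x hx => (h2 x hx).continuousAt.continuousWithinAt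
  have hΦc : ContinuousOn Φ (Icc a b) := fun x hx => (h1 x hx).continuousAt.continuousWithinAt
  have hec : ContinuousOn (fun x => Complex.exp (Complex.I * (Φ x : ℝ))) (Icc a b) :=
    Complex.continuous_exp.comp_continuousOn
        (continuousOn_const.mul (Complex.continuous_ofReal.comp_continuousOn hΦc))
  have hii : ∀ c d, c ∈ Icc a b → d ∈ Icc a b →
      IntervalIntegrable (fun x => Complex.exp (Complex.I * (Φ x : ℝ))) volume c d := by
    intro c d hc' hd'
    refine ContinuousOn.intervalIntegrable (hec.mono ?_)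
    exact uIcc_subset_Icc hc' hd'
  have hsl : 0 < √lam := Real.sqrt_pos.2 hl
  -- growth of the derivative
  have hgrow : ∀ x ∈ Icc a b, ∀ y ∈ Icc a b, x ≤ y → lam * (y - x) ≤ Φ' y - Φ' x := by
    intro x hx y hy hxy
    have hsub : Icc x y ⊆ Icc a b := Icc_subset_Icc hx.1 hy.2
    have hftc : ∫ z in x..y, Φ'' z = Φ' y - Φ' x :=
      integral_eq_sub_of_hasDerivAt (fun z hz => h2 z (hsub (uIcc_of_le hxy ▸ hz)))
        (ContinuousOn.intervalIntegrable (by rw [uIcc_of_le hxy]; exact hc.mono hsub))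
    rw [← hftc]
    have h5 : ∫ z in x..y, lam ≤ ∫ z in x..y, Φ'' z :=
      integral_mono_on hxy (intervalIntegrable_const)
        (ContinuousOn.intervalIntegrable (by rw [uIcc_of_le hxy]; exact hc.mono hsub))
        (fun z hz => ht z (hsub hz))
    rw [intervalIntegral.integral_const, smul_eq_mul] at h5
    linarith
  have ha : a ∈ Icc a b := ⟨le_refl _, hab⟩
  have hb : b ∈ Icc a b := ⟨hab, le_refl _⟩
  obtain ⟨c, hcI, hc1, hc2⟩ : ∃ c ∈ Icc a b, (c = a ∨ Φ' c ≤ 0) ∧ (c = b ∨ 0 ≤ Φ' c) := by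
    by_cases h0 : 0 ≤ Φ' a
    · exact ⟨a, ha, Or.inl rfl, Or.inr h0⟩
    by_cases h3 : Φ' b ≤ 0
    · exact ⟨b, hb, Or.inr h3, Or.inl rfl⟩
    · rw [not_le] at h0 h3
      obtain ⟨c, hc', hc''⟩ := intermediate_value_Icc hab hΦ'c (⟨h0.le, h3.le⟩ : (0 : ℝ) ∈ Icc (Φ' a) (Φ' b))
      exact ⟨c, hc', Or.inr hc''.le, Or.inr hc''.ge⟩
  set δ : ℝ := 1 / √lam with hδ
  have hδ0 : 0 < δ := by positivity
  have hlδ : lam * δ = √lam := by
    rw [hδ, mul_one_div]
    nth_rewrite 1 [← Real.mul_self_sqrt hl.le]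
    field_simp
  set x0 : ℝ := max a (c - δ) with hx0
  set x1 : ℝ := min b (c + δ) with hx1
  have hx0I : x0 ∈ Icc a b := ⟨le_max_left _ _, max_le hab (by linarith [hcI.2])⟩
  have hx1I : x1 ∈ Icc a b := ⟨le_min hab (by linarith [hcI.1]), min_le_left _ _⟩
  have hx01 : x0 ≤ x1 := max_le (le_min hab (by linarith [hcI.1])) (le_min (by linarith [hcI.2]) (by linarith))
  have hx0c : x0 ≤ c := max_le hcI.1 (by linarith)
  have hx1c : c ≤ x1 := le_min hcI.2 (by linarith)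
  have s1 : ‖∫ x in a..x0, Complex.exp (Complex.I * (Φ x : ℝ))‖ ≤ 3 / √lam := by
    by_cases hca : a < c - δ
    · have hx0e : x0 = c - δ := max_eq_right hca.le
      have hsub : Icc a x0 ⊆ Icc a b := Icc_subset_Icc_right hx0I.2
      refine first_test hx0I.1 hsl (fun x hx => h1 x (hsub hx)) (fun x hx => h2 x (hsub hx)) (hc.mono hsub)
        (Or.inr (fun x hx => ?_)) (Or.inl (fun x hx => hl.le.trans (ht x (hsub hx))))
      have hcle : Φ' c ≤ 0 := by
        rcases hc1 with h | h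
        · rw [h] at hca
          linarith
        · exact h
      have h6 := hgrow x (hsub hx) c hcI (hx.2.trans hx0c)
      have h7 : δ ≤ c - x := by
        have := hx.2
        rw [hx0e] at this
        linarith
      have h8 : lam * δ ≤ lam * (c - x) := mul_le_mul_of_nonneg_left h7 hl.le
      rw [hlδ] at h8
      linarith
    · have hx0e : x0 = a := max_eq_left (not_lt.1 hca)
      rw [hx0e, integral_same, norm_zero]
      positivity
  have s3 : ‖∫ x in x1..b, Complex.exp (Complex.I * (Φ x : ℝ))‖ ≤ 3 / √lam := by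
    by_cases hcb : c + δ < b
    · have hx1e : x1 = c + δ := min_eq_right hcb.le
      have hsub : Icc x1 b ⊆ Icc a b := Icc_subset_Icc_left hx1I.1
      refine first_test hx1I.2 hsl (fun x hx => h1 x (hsub hx)) (fun x hx => h2 x (hsub hx)) (hc.mono hsub)
        (Or.inl (fun x hx => ?_)) (Or.inl (fun x hx => hl.le.trans (ht x (hsub hx))))
      have hcge : 0 ≤ Φ' c := by
        rcases hc2 with h | h
        · rw [h] at hcb
          linarith
        · exact h
      have h6 := hgrow c hcI x (hsub hx) (hx1c.trans hx.1)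
      have h7 : δ ≤ x - c := by
        have := hx.1
        rw [hx1e] at this
        linarith
      have h8 : lam * δ ≤ lam * (x - c) := mul_le_mul_of_nonneg_left h7 hl.le
      rw [hlδ] at h8
      linarith
    · have hx1e : x1 = b := min_eq_left (not_lt.1 hcb)
      rw [hx1e, integral_same, norm_zero]
      positivity
  have s2 : ‖∫ x in x0..x1, Complex.exp (Complex.I * (Φ x : ℝ))‖ ≤ 2 / √lam := by
    refine (norm_int_exp_le hx01 Φ).trans ?_
    have y1 : x1 ≤ c + δ := min_le_right _ _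
    have y2 : c - δ ≤ x0 := le_max_right _ _
    have : 2 / √lam = 2 * δ := by rw [hδ]; ring
    linarith
  have hsplit : ∫ x in a..b, Complex.exp (Complex.I * (Φ x : ℝ)) =
      (∫ x in a..x0, Complex.exp (Complex.I * (Φ x : ℝ))) + (∫ x in x0..x1, Complex.exp (Complex.I * (Φ x : ℝ))) +
        ∫ x in x1..b, Complex.exp (Complex.I * (Φ x : ℝ)) := by
    rw [integral_add_adjacent_intervals (hii _ _ ha hx0I) (hii _ _ hx0I hx1I),
      integral_add_adjacent_intervals (hii _ _ ha hx1I) (hii _ _ hx1I hb)]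
  rw [hsplit]
  have : 8 / √lam = 3 / √lam + 2 / √lam + 3 / √lam := by ring
  rw [this]
  exact (norm_add_le _ _).trans (add_le_add ((norm_add_le _ _).trans (add_le_add s1 s2)) s3)

theorem norm_int_neg {a b : ℝ} (Φ : ℝ → ℝ) :
    ‖∫ x in a..b, Complex.exp (Complex.I * (((fun y => -Φ y) x : ℝ) : ℂ))‖ =
      ‖∫ x in a..b, Complex.exp (Complex.I * (Φ x : ℝ))‖ := by
  have e : ∀ x, Complex.exp (Complex.I * (((fun y => -Φ y) x : ℝ) : ℂ)) =
      (starRingEnd ℂ) (Complex.exp (Complex.I * (Φ x : ℝ))) := by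
    intro x
    rw [← Complex.exp_conj, map_mul, Complex.conj_I, Complex.conj_ofReal]
    push_cast
    congr 1
    ring
  have e2 : ∫ x in a..b, Complex.exp (Complex.I * (((fun y => -Φ y) x : ℝ) : ℂ)) =
      (starRingEnd ℂ) (∫ x in a..b, Complex.exp (Complex.I * (Φ x : ℝ))) := by
    simp only [e]
    unfold intervalIntegral
    rw [map_sub, integral_conj, integral_conj]
  rw [e2, RCLike.norm_conj]

/-- second derivative test -/
theorem second_test {a b : ℝ} (hab : a ≤ b) {Φ Φ' Φ'' : ℝ → ℝ} {lam : ℝ} (hl : 0 < lam)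
    (h1 : ∀ x ∈ Icc a b, HasDerivAt Φ (Φ' x) x) (h2 : ∀ x ∈ Icc a b, HasDerivAt Φ' (Φ'' x) x)
    (hc : ContinuousOn Φ'' (Icc a b))
    (ht : (∀ x ∈ Icc a b, lam ≤ Φ'' x) ∨ (∀ x ∈ Icc a b, Φ'' x ≤ -lam)) :
    ‖∫ x in a..b, Complex.exp (Complex.I * (Φ x : ℝ))‖ ≤ 8 / √lam := by
  rcases ht with h | h
  · exact second_test_pos hab hl h1 h2 hc h
  · rw [← norm_int_neg]
    exact second_test_pos (Φ := fun x => -Φ x) (Φ' := fun x => -Φ' x) (Φ'' := fun x => -Φ'' x) hab hl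
      (fun x hx => (h1 x hx).neg) (fun x hx => (h2 x hx).neg) hc.neg (fun x hx => by linarith [h x hx])

theorem cont_exp {a b : ℝ} {Φ Φ' : ℝ → ℝ} (h1 : ∀ x ∈ Icc a b, HasDerivAt Φ (Φ' x) x) :
    ContinuousOn (fun x => Complex.exp (Complex.I * (Φ x : ℝ))) (Icc a b) :=
  Complex.continuous_exp.comp_continuousOn
    (continuousOn_const.mul (Complex.continuous_ofReal.comp_continuousOn
      (fun x hx => (h1 x hx).continuousAt.continuousWithinAt)))

/-- first derivative test with amplitude -/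
theorem first_test_amp {a b : ℝ} (hab : a ≤ b) {Φ Φ' Φ'' : ℝ → ℝ} {A A' : ℝ → ℂ} {m : ℝ} (hm : 0 < m)
    (h1 : ∀ x ∈ Icc a b, HasDerivAt Φ (Φ' x) x) (h2 : ∀ x ∈ Icc a b, HasDerivAt Φ' (Φ'' x) x)
    (hc : ContinuousOn Φ'' (Icc a b))
    (hs : (∀ x ∈ Icc a b, m ≤ Φ' x) ∨ (∀ x ∈ Icc a b, Φ' x ≤ -m))
    (ht : (∀ x ∈ Icc a b, 0 ≤ Φ'' x) ∨ (∀ x ∈ Icc a b, Φ'' x ≤ 0))
    (hA : ∀ x ∈ Icc a b, HasDerivAt A (A' x) x) (hAi : IntervalIntegrable A' volume a b) :
    ‖∫ x in a..b, A x * Complex.exp (Complex.I * (Φ x : ℝ))‖ ≤ 3 / m * (‖A b‖ + ∫ x in a..b, ‖A' x‖) := by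
  refine amp_bound hab (cont_exp h1) (fun x hx => ?_) hA hAi
  have hsub : Icc a x ⊆ Icc a b := Icc_subset_Icc_right hx.2
  exact first_test hx.1 hm (fun y hy => h1 y (hsub hy)) (fun y hy => h2 y (hsub hy)) (hc.mono hsub)
    (hs.imp (fun h y hy => h y (hsub hy)) (fun h y hy => h y (hsub hy)))
    (ht.imp (fun h y hy => h y (hsub hy)) (fun h y hy => h y (hsub hy)))

/-- second derivative test with amplitude -/
theorem second_test_amp {a b : ℝ} (hab : a ≤ b) {Φ Φ' Φ'' : ℝ → ℝ} {A A' : ℝ → ℂ} {lam : ℝ} (hl : 0 < lam)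
    (h1 : ∀ x ∈ Icc a b, HasDerivAt Φ (Φ' x) x) (h2 : ∀ x ∈ Icc a b, HasDerivAt Φ' (Φ'' x) x)
    (hc : ContinuousOn Φ'' (Icc a b))
    (ht : (∀ x ∈ Icc a b, lam ≤ Φ'' x) ∨ (∀ x ∈ Icc a b, Φ'' x ≤ -lam))
    (hA : ∀ x ∈ Icc a b, HasDerivAt A (A' x) x) (hAi : IntervalIntegrable A' volume a b) :
    ‖∫ x in a..b, A x * Complex.exp (Complex.I * (Φ x : ℝ))‖ ≤ 8 / √lam * (‖A b‖ + ∫ x in a..b, ‖A' x‖) := by
  refine amp_bound hab (cont_exp h1) (fun x hx => ?_) hA hAi
  have hsub : Icc a x ⊆ Icc a b := Icc_subset_Icc_right hx.2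
  exact second_test hx.1 hl (fun y hy => h1 y (hsub hy)) (fun y hy => h2 y (hsub hy)) (hc.mono hsub)
    (ht.imp (fun h y hy => h y (hsub hy)) (fun h y hy => h y (hsub hy)))

/-- one integration by parts when A/Phi' = g has a derivative of constant sign -/
theorem mono_quot {a b : ℝ} (hab : a ≤ b) {Φ Φ' A g g' : ℝ → ℝ}
    (h1 : ∀ x ∈ Icc a b, HasDerivAt Φ (Φ' x) x) (hc : ContinuousOn Φ' (Icc a b))
    (hgA : ∀ x ∈ Icc a b, A x = g x * Φ' x)
    (hg : ∀ x ∈ Icc a b, HasDerivAt g (g' x) x) (hg'c : ContinuousOn g' (Icc a b))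
    (hs : (∀ x ∈ Icc a b, 0 ≤ g' x) ∨ (∀ x ∈ Icc a b, g' x ≤ 0)) :
    ‖∫ x in a..b, ((A x : ℝ) : ℂ) * Complex.exp (Complex.I * (Φ x : ℝ))‖ ≤ 2 * (|g a| + |g b|) := by
  have hu : uIcc a b = Icc a b := uIcc_of_le hab
  have key := ibp_bound (g := fun x => ((g x : ℝ) : ℂ)) (g' := fun x => ((g' x : ℝ) : ℂ)) hab h1 hc
    (fun x hx => (hg x hx).ofReal_comp) (ContinuousOn.intervalIntegrable (by
      rw [hu]; exact Complex.continuous_ofReal.comp_continuousOn hg'c))
  have e1 : ∫ x in a..b, ((g x : ℝ) : ℂ) * ((Φ' x : ℝ) : ℂ) * Complex.exp (Complex.I * (Φ x : ℝ)) =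
      ∫ x in a..b, ((A x : ℝ) : ℂ) * Complex.exp (Complex.I * (Φ x : ℝ)) := by
    refine integral_congr (fun x hx => ?_)
    rw [hu] at hx
    rw [hgA x hx, Complex.ofReal_mul]
  rw [e1] at key
  simp only [Complex.norm_real, Real.norm_eq_abs] at key
  have hgi : IntervalIntegrable g' volume a b := ContinuousOn.intervalIntegrable (by rw [hu]; exact hg'c)
  rw [int_abs_of_sign hab hg hgi hs] at key
  have := abs_sub (g b) (g a)
  linarith

end U6.A04

open Complex MeasureTheory Set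
namespace U6
theorem vdc2 {a b lam : ℝ} (hab : a ≤ b) (hlam : 0 < lam) {Φ Φ' Φ'' : ℝ → ℝ}
    (h1 : ∀ x ∈ Icc a b, HasDerivAt Φ (Φ' x) x) (h2 : ∀ x ∈ Icc a b, HasDerivAt Φ' (Φ'' x) x)
    (hc : ContinuousOn Φ'' (Icc a b)) (h3 : ∀ x ∈ Icc a b, lam ≤ Φ'' x) {A A' : ℝ → ℂ}
    (hA : ∀ x ∈ Icc a b, HasDerivAt A (A' x) x) (hA' : ContinuousOn A' (Icc a b)) :
    ‖∫ x in a..b, A x * cexp (I * (Φ x : ℝ))‖ ≤
      8 / Real.sqrt lam * (‖A b‖ + ∫ x in a..b, ‖A' x‖) :=
  A04.second_test_amp hab hlam h1 h2 hc (Or.inl h3) hA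
    (ContinuousOn.intervalIntegrable (by rw [uIcc_of_le hab]; exact hA'))
end U6
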