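import Pool.Agent.Lib.MP_39df77_nt.U6.Defs
/-! A05: bounds for `II` by horizontal contour shifts. -/
open Complex MeasureTheory Set
namespace U6

theorem A05_id (r y : ℝ) :
    ((Real.cosh r - Real.cos y : ℝ) : ℂ) =
      2 * (Complex.sinh (((r : ℂ) + y * I) / 2) * Complex.sinh (((r : ℂ) - y * I) / 2)) := by
  have h1 : ((Real.cosh r : ℝ) : ℂ) =
      Complex.cosh (((r : ℂ) + y * I) / 2 + ((r : ℂ) - y * I) / 2) := by
    rw [Complex.ofReal_cosh]; congr 1; ring
  have h2 : ((Real.cos y : ℝ) : ℂ) =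
      Complex.cosh (((r : ℂ) + y * I) / 2 - ((r : ℂ) - y * I) / 2) := by
    rw [Complex.ofReal_cos, ← Complex.cosh_mul_I]; congr 1; ring
  rw [ofReal_sub, h1, h2, Complex.cosh_add, Complex.cosh_sub]; ring

theorem A05_id2 (r y : ℝ) :
    ((Real.sinh r : ℝ) : ℂ) - ((Real.sin y : ℝ) : ℂ) * I =
      2 * (Complex.cosh (((r : ℂ) + y * I) / 2) * Complex.sinh (((r : ℂ) - y * I) / 2)) := by
  have h1 : ((Real.sinh r : ℝ) : ℂ) =
      Complex.sinh (((r : ℂ) + y * I) / 2 + ((r : ℂ) - y * I) / 2) := by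
    rw [Complex.ofReal_sinh]; congr 1; ring
  have h2 : ((Real.sin y : ℝ) : ℂ) * I =
      Complex.sinh (((r : ℂ) + y * I) / 2 - ((r : ℂ) - y * I) / 2) := by
    rw [Complex.ofReal_sin, ← Complex.sinh_mul_I]; congr 1; ring
  rw [h1, h2, Complex.sinh_add, Complex.sinh_sub]; ring

theorem A05_conj (r y : ℝ) :
    (starRingEnd ℂ) (((r : ℂ) + y * I) / 2) = ((r : ℂ) - y * I) / 2 := by
  rw [map_div₀, map_add, map_mul, Complex.conj_ofReal, Complex.conj_ofReal, Complex.conj_I,
    map_ofNat]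
  ring

theorem A05_normsq (r y : ℝ) :
    ‖2 * Complex.sinh (((r : ℂ) + y * I) / 2)‖ ^ 2 = 2 * (Real.cosh r - Real.cos y) := by
  have h : (2 * (Complex.sinh (((r : ℂ) + y * I) / 2) * Complex.sinh (((r : ℂ) - y * I) / 2))) =
      ((2 * ‖Complex.sinh (((r : ℂ) + y * I) / 2)‖ ^ 2 : ℝ) : ℂ) := by
    rw [← A05_conj, Complex.sinh_conj, Complex.mul_conj, Complex.normSq_eq_norm_sq]
    push_cast
    ring
  have h2 := (A05_id r y).trans h
  have h3 : Real.cosh r - Real.cos y = 2 * ‖Complex.sinh (((r : ℂ) + y * I) / 2)‖ ^ 2 := by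
    exact_mod_cast h2
  rw [norm_mul, mul_pow, Complex.norm_ofNat, h3]
  ring

theorem A05_norm (r y : ℝ) :
    ‖2 * Complex.sinh (((r : ℂ) + y * I) / 2)‖ = Real.sqrt (2 * (Real.cosh r - Real.cos y)) := by
  rw [← A05_normsq, Real.sqrt_sq (norm_nonneg _)]

theorem A05_sinh_ne {r y : ℝ} (hX : 0 < Real.cosh r - Real.cos y) :
    Complex.sinh (((r : ℂ) + y * I) / 2) ≠ 0 := by
  intro h
  have h2 := A05_id r y
  rw [h, zero_mul, mul_zero] at h2
  have : Real.cosh r - Real.cos y = 0 := by exact_mod_cast h2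
  linarith

theorem A05_coth {r y : ℝ} (hX : 0 < Real.cosh r - Real.cos y) :
    Complex.cosh (((r : ℂ) + y * I) / 2) / Complex.sinh (((r : ℂ) + y * I) / 2) =
      (((Real.sinh r : ℝ) : ℂ) - ((Real.sin y : ℝ) : ℂ) * I) /
        ((Real.cosh r - Real.cos y : ℝ) : ℂ) := by
  have h1 := A05_sinh_ne hX
  have h2 : ((Real.cosh r - Real.cos y : ℝ) : ℂ) ≠ 0 := by
    exact_mod_cast hX.ne'
  rw [div_eq_div_iff h1 h2, A05_id, A05_id2]
  ring

theorem A05_ker {G t ρ r y : ℝ} {k : ℤ} (hX : 0 < Real.cosh r - Real.cos y) :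
    ‖ker (G - t * I) (Real.pi * I * k - ρ) ((r : ℂ) + y * I)‖ =
      Real.exp (-(G * r) - t * y +
        (Real.pi * k * Real.sin y - ρ * Real.sinh r) / (Real.cosh r - Real.cos y)) /
        Real.sqrt (2 * (Real.cosh r - Real.cos y)) := by
  unfold ker
  rw [norm_div, A05_norm, Complex.norm_exp, A05_coth hX]
  congr 2
  have hX2 : ((Real.cosh r - Real.cos y : ℝ) : ℂ) ≠ 0 := by exact_mod_cast hX.ne'
  have key : -(((G : ℂ) - t * I) * ((r : ℂ) + y * I)) + (Real.pi * I * k - ρ) *
      ((((Real.sinh r : ℝ) : ℂ) - ((Real.sin y : ℝ) : ℂ) * I) /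
        ((Real.cosh r - Real.cos y : ℝ) : ℂ)) =
      ((-(G * r) - t * y +
        (Real.pi * k * Real.sin y - ρ * Real.sinh r) / (Real.cosh r - Real.cos y) : ℝ) : ℂ) +
      ((t * r - G * y + (Real.pi * k * Real.sinh r + ρ * Real.sin y) /
        (Real.cosh r - Real.cos y) : ℝ) : ℂ) * I := by
    have hI : I ^ 2 = -1 := Complex.I_sq
    have e1 : ((-(G * r) - t * y +
        (Real.pi * k * Real.sin y - ρ * Real.sinh r) / (Real.cosh r - Real.cos y) : ℝ) : ℂ) =
        -(G * r) - t * y + (Real.pi * k * (Real.sin y : ℝ) - ρ * (Real.sinh r : ℝ)) /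
          ((Real.cosh r - Real.cos y : ℝ) : ℂ) := by
      rw [ofReal_add, ofReal_div]
      push_cast
      ring
    have e2 : ((t * r - G * y + (Real.pi * k * Real.sinh r + ρ * Real.sin y) /
        (Real.cosh r - Real.cos y) : ℝ) : ℂ) =
        t * r - G * y + (Real.pi * k * (Real.sinh r : ℝ) + ρ * (Real.sin y : ℝ)) /
          ((Real.cosh r - Real.cos y : ℝ) : ℂ) := by
      rw [ofReal_add, ofReal_div]
      push_cast
      ring
    rw [e1, e2]
    field_simp
    ring_nf
    rw [hI]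
    ring
  rw [key, Complex.add_re, Complex.ofReal_re, Complex.re_ofReal_mul, Complex.I_re, mul_zero,
    add_zero]

/-- elementary bounds -/
theorem A05_sin {y : ℝ} (h0 : 0 ≤ y) (h1 : y ≤ 1) : 0.78 * y ≤ Real.sin y := by
  have h := Real.sin_bound (x := y) (by rw [abs_of_nonneg h0]; exact h1)
  rw [abs_of_nonneg h0] at h
  have h2 := (abs_le.1 h).1
  have y2 : y ^ 2 ≤ 1 := by nlinarith
  have y3 : y ^ 3 ≤ y := by nlinarith
  have y5 : y ^ 5 ≤ y := by
    have : y ^ 5 = y ^ 3 * y ^ 2 := by ring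
    nlinarith [mul_nonneg h0 (sq_nonneg y), pow_nonneg h0 3]
  linarith

theorem A05_cos1 (y : ℝ) : 1 - Real.cos y ≤ y ^ 2 / 2 := by
  have := Real.one_sub_sq_div_two_le_cos (x := y)
  linarith

theorem A05_cos2 {y : ℝ} (h1 : |y| ≤ 1) : 0.44 * y ^ 2 ≤ 1 - Real.cos y := by
  have h := (abs_le.1 (Real.cos_bound h1)).2
  have h2 : |y| ^ 2 = y ^ 2 := sq_abs y
  have h4 : |y| ^ 4 ≤ y ^ 2 := by
    have : |y| ^ 4 = |y| ^ 2 * |y| ^ 2 := by ring
    rw [this, h2]
    have : y ^ 2 ≤ 1 := by rw [← h2]; nlinarith [abs_nonneg y]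
    nlinarith [sq_nonneg y]
  linarith [sq_nonneg y]

theorem A05_cosh1 {r : ℝ} (h0 : 0 ≤ r) : r ^ 2 / 2 ≤ Real.cosh r - 1 := by
  have h1 : Real.cosh r = 2 * Real.sinh (r / 2) ^ 2 + 1 := by
    have e : r = 2 * (r / 2) := by ring
    conv_lhs => rw [e]
    rw [Real.cosh_two_mul, Real.cosh_sq]
    ring
  have h2 : r / 2 ≤ Real.sinh (r / 2) := Real.self_le_sinh_iff.2 (by linarith)
  nlinarith

theorem A05_cosh2 {r : ℝ} (h0 : 0 ≤ r) (h1 : r ≤ 1) : Real.cosh r - 1 ≤ 0.75 * r ^ 2 := by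
  have h2 := Real.cosh_le_exp_half_sq r
  have r2 : r ^ 2 ≤ 1 := by nlinarith
  have h3 := Real.abs_exp_sub_one_sub_id_le (x := r ^ 2 / 2) (by
    rw [abs_of_nonneg (by positivity)]; linarith)
  have h4 := (abs_le.1 h3).2
  nlinarith [sq_nonneg r]

theorem A05_cosh3 {r : ℝ} (h0 : 0 ≤ r) : Real.cosh r ≤ Real.exp r := by
  rw [Real.cosh_eq]
  have : Real.exp (-r) ≤ Real.exp r := Real.exp_le_exp.2 (by linarith)
  linarith

/-- `e^{-x} ≤ 2/x²` -/
theorem A05_exp2 {x : ℝ} (hx : 0 < x) : Real.exp (-x) ≤ 2 / x ^ 2 := by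
  have h := Real.quadratic_le_exp_of_nonneg hx.le
  rw [Real.exp_neg, inv_eq_one_div, div_le_div_iff₀ (Real.exp_pos _) (by positivity)]
  nlinarith

theorem A05_real (G t ρ r : ℝ) (k : ℤ) :
    ker (G - t * I) (Real.pi * I * k - ρ) (r : ℂ) =
      ker (G - t * I) (Real.pi * I * k - ρ) ((r : ℂ) + ((0 : ℝ) : ℂ) * I) := by
  simp

theorem A05_Xpos {r y : ℝ} (h0 : 0 ≤ r) (h1 : |y| ≤ 1) (h : 0 < r ∨ y ≠ 0) :
    0 < Real.cosh r - Real.cos y := by
  have a := A05_cosh1 h0
  have b := A05_cos2 h1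
  rcases h with h | h
  · have : 0 < r ^ 2 := by positivity
    nlinarith [sq_nonneg y]
  · have : 0 < y ^ 2 := by positivity
    nlinarith [sq_nonneg r]

theorem A05_axis {G t ρ : ℝ} (hρ : 0 < ρ) (k : ℤ) {r : ℝ} (hr : 0 < r) :
    ‖ker (G - t * I) (Real.pi * I * k - ρ) (r : ℂ)‖ ≤ Real.exp (-(G * r)) / ρ := by
  have hX := A05_Xpos hr.le (y := 0) (by simp) (Or.inl hr)
  rw [A05_real, A05_ker hX]
  have s0 : r ≤ Real.sinh r := Real.self_le_sinh_iff.2 hr.le
  rw [Real.cos_zero] at hX ⊢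
  rw [Real.sin_zero]
  set X := Real.cosh r - 1 with hXd
  have hc := A05_cosh1 hr.le
  have hsq : Real.sinh r ^ 2 = X * (X + 2) := by
    have := Real.cosh_sq r
    have h : Real.cosh r = X + 1 := by rw [hXd]; ring
    rw [h] at this
    linarith
  have hs : r ≤ Real.sqrt (2 * X) := by
    apply Real.le_sqrt_of_sq_le
    linarith
  have hs0 : 0 < Real.sqrt (2 * X) := lt_of_lt_of_le hr hs
  have hs2 : Real.sqrt (2 * X) ≤ Real.sinh r := by
    apply Real.sqrt_le_iff.2
    refine ⟨by linarith, ?_⟩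
    rw [hsq]
    nlinarith
  have hsinh : 0 < Real.sinh r := by linarith
  have hmul : Real.sqrt (2 * X) * Real.sqrt (2 * X) = 2 * X := Real.mul_self_sqrt (by linarith)
  have hx : 0 < ρ * Real.sinh r / X := by positivity
  have he : Real.exp (-(ρ * Real.sinh r / X)) ≤ 1 / (ρ * Real.sinh r / X) := by
    rw [Real.exp_neg, inv_eq_one_div]
    apply one_div_le_one_div_of_le hx
    have := Real.add_one_le_exp (ρ * Real.sinh r / X)
    linarith
  have e1 : Real.exp (-(G * r) - t * 0 + (Real.pi * k * 0 - ρ * Real.sinh r) / X) =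
      Real.exp (-(G * r)) * Real.exp (-(ρ * Real.sinh r / X)) := by
    rw [← Real.exp_add]
    congr 1
    ring
  rw [e1, mul_div_assoc, div_eq_mul_one_div (Real.exp (-(G * r))) ρ]
  apply mul_le_mul_of_nonneg_left _ (Real.exp_pos _).le
  calc Real.exp (-(ρ * Real.sinh r / X)) / Real.sqrt (2 * X)
      ≤ 1 / (ρ * Real.sinh r / X) / Real.sqrt (2 * X) := by gcongr
    _ = X / (ρ * (Real.sinh r * Real.sqrt (2 * X))) := by field_simp
    _ ≤ 1 / ρ := by
        rw [div_le_div_iff₀ (by positivity) hρ]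
        have : X ≤ Real.sinh r * Real.sqrt (2 * X) := by nlinarith
        nlinarith

theorem A05_an {α β w : ℂ} (hw : Complex.sinh (w / 2) ≠ 0) : DifferentiableAt ℂ (ker α β) w := by
  unfold ker
  have h1 : DifferentiableAt ℂ (fun w : ℂ => Complex.sinh (w / 2)) w := by fun_prop
  have h2 : DifferentiableAt ℂ (fun w : ℂ => Complex.cosh (w / 2)) w := by fun_prop
  refine DifferentiableAt.div ?_ (h1.const_mul 2) (mul_ne_zero two_ne_zero hw)
  refine DifferentiableAt.cexp ?_
  exact ((differentiableAt_id.const_mul α).neg).add ((h2.div h1 hw).const_mul β)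

theorem II_integrable {G t ρ : ℝ} (hG : 0 < G) (hρ : 0 < ρ) (k : ℤ) :
    IntegrableOn (fun w : ℝ => ker (G - t * I) (Real.pi * I * k - ρ) w) (Ioi 0) := by
  have hb : IntegrableOn (fun r : ℝ => Real.exp (-(G * r)) / ρ) (Ioi 0) := by
    have := (exp_neg_integrableOn_Ioi 0 hG).div_const ρ
    unfold IntegrableOn
    simpa [neg_mul] using this
  refine Integrable.mono' hb ?_ ?_
  · apply ContinuousOn.aestronglyMeasurable _ measurableSet_Ioi
    intro r hr
    have hX := A05_Xpos (le_of_lt hr) (y := 0) (by simp) (Or.inl hr)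
    have h1 := A05_sinh_ne hX
    rw [ofReal_zero, zero_mul, add_zero] at h1
    have h2 := (A05_an (α := G - t * I) (β := Real.pi * I * k - ρ) h1).continuousAt
    exact (h2.comp (continuous_ofReal.continuousAt)).continuousWithinAt
  · filter_upwards [self_mem_ae_restrict measurableSet_Ioi] with r hr
    exact A05_axis hρ k hr

theorem A05_sgn {k y : ℝ} (h1 : |y| ≤ 1) (hk : k * y ≤ -|y|) :
    k * Real.sin y ≤ -(0.78 * |y|) := by
  rcases lt_trichotomy y 0 with h | h | h
  · rw [abs_of_neg h] at h1 hk ⊢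
    have hk1 : 1 ≤ k := by nlinarith
    have hs := A05_sin (y := -y) (by linarith) h1
    rw [Real.sin_neg] at hs
    nlinarith
  · subst h
    simp
  · rw [abs_of_pos h] at h1 hk ⊢
    have hk1 : k ≤ -1 := by nlinarith
    have hs := A05_sin (y := y) h.le h1
    nlinarith

theorem A05_near {G t ρ r y : ℝ} {k : ℤ} (hG : 0 < G) (hρ : 0 < ρ) (h0 : 0 ≤ r) (hr : r ≤ 1)
    (h1 : |y| ≤ 1) (hk : (k : ℝ) * y ≤ -|y|) (h : 0 < r ∨ y ≠ 0) :
    ‖ker (G - t * I) (Real.pi * I * k - ρ) ((r : ℂ) + y * I)‖ ≤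
      Real.exp |t| * (4 / (min 1 ρ) ^ 2) * (r + |y|) := by
  have hX := A05_Xpos h0 h1 h
  rw [A05_ker hX]
  have hc : 0 < min 1 ρ := lt_min one_pos hρ
  set c := min 1 ρ with hcd
  have hc1 : c ≤ 1 := min_le_left _ _
  have hc2 : c ≤ ρ := min_le_right _ _
  have hm : 0 < r + |y| := by
    rcases h with h | h
    · have := abs_nonneg y; linarith
    · have := abs_pos.2 h; linarith
  set m := r + |y| with hmd
  have hy2 : |y| ^ 2 = y ^ 2 := sq_abs y
  have hy0 := abs_nonneg y
  have hX1 : Real.cosh r - Real.cos y ≤ 0.75 * m ^ 2 := by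
    have a := A05_cosh2 h0 hr
    have b := A05_cos1 y
    rw [hmd]
    nlinarith [mul_nonneg h0 hy0]
  have hX2 : m ^ 2 / 4 ≤ 2 * (Real.cosh r - Real.cos y) := by
    have a := A05_cosh1 h0
    have b := A05_cos2 h1
    rw [hmd]
    nlinarith [sq_nonneg (r - |y|), mul_nonneg h0 hy0]
  set X := Real.cosh r - Real.cos y with hXd
  have hs := A05_sgn h1 hk
  have hnum : Real.pi * k * Real.sin y - ρ * Real.sinh r ≤ -(c * m) := by
    have s0 : r ≤ Real.sinh r := Real.self_le_sinh_iff.2 h0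
    have p3 := Real.pi_gt_three
    have e1 : Real.pi * k * Real.sin y ≤ -|y| := by
      have : Real.pi * k * Real.sin y = Real.pi * (k * Real.sin y) := by ring
      rw [this]
      nlinarith
    have e2 : c * r ≤ ρ * Real.sinh r := mul_le_mul hc2 s0 h0 hρ.le
    have e3 : c * |y| ≤ |y| := by nlinarith
    rw [hmd]
    nlinarith
  have hq : (Real.pi * k * Real.sin y - ρ * Real.sinh r) / X ≤ -(c / m) := by
    rw [div_le_iff₀ hX]
    have : -(c / m) * X ≥ -(c / m) * (0.75 * m ^ 2) := by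
      have : 0 ≤ c / m := by positivity
      nlinarith
    have e : -(c / m) * (0.75 * m ^ 2) = -(0.75 * c * m) := by field_simp
    nlinarith [mul_pos hc hm]
  have hexp : Real.exp (-(G * r) - t * y + (Real.pi * k * Real.sin y - ρ * Real.sinh r) / X) ≤
      Real.exp |t| * (2 / (c / m) ^ 2) := by
    calc _ ≤ Real.exp (|t| + -(c / m)) := by
          apply Real.exp_le_exp.2
          have : -(t * y) ≤ |t| := by
            calc -(t * y) ≤ |t * y| := neg_le_abs _
              _ = |t| * |y| := abs_mul _ _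
              _ ≤ |t| := by nlinarith [abs_nonneg t]
          have : 0 ≤ G * r := by positivity
          linarith
      _ = Real.exp |t| * Real.exp (-(c / m)) := Real.exp_add _ _
      _ ≤ _ := by
          apply mul_le_mul_of_nonneg_left (A05_exp2 (by positivity)) (Real.exp_pos _).le
  have hsq : m / 2 ≤ Real.sqrt (2 * X) := by
    apply Real.le_sqrt_of_sq_le
    rw [div_pow]
    linarith
  calc _ ≤ Real.exp |t| * (2 / (c / m) ^ 2) / (m / 2) := by
        apply div_le_div₀ (by positivity) hexp (by positivity) hsq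
    _ = Real.exp |t| * (4 / c ^ 2) * m := by
        field_simp
        ring

theorem A05_far {G t ρ r y : ℝ} {k : ℤ} (hρ : 0 < ρ) (hr : 1 ≤ r)
    (h1 : |y| ≤ 1) (hk : (k : ℝ) * y ≤ -|y|) :
    ‖ker (G - t * I) (Real.pi * I * k - ρ) ((r : ℂ) + y * I)‖ ≤
      Real.exp |t| * Real.exp (-(G * r)) := by
  have h0 : 0 < r := by linarith
  have hX := A05_Xpos h0.le h1 (Or.inl h0)
  rw [A05_ker hX]
  have hs := A05_sgn h1 hk
  have s0 : r ≤ Real.sinh r := Real.self_le_sinh_iff.2 h0.le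
  have hy0 := abs_nonneg y
  have hnum : (Real.pi * k * Real.sin y - ρ * Real.sinh r) / (Real.cosh r - Real.cos y) ≤ 0 := by
    apply div_nonpos_of_nonpos_of_nonneg _ hX.le
    have : Real.pi * k * Real.sin y = Real.pi * (k * Real.sin y) := by ring
    rw [this]
    have := Real.pi_pos
    nlinarith
  have hsq : 1 ≤ Real.sqrt (2 * (Real.cosh r - Real.cos y)) := by
    apply Real.le_sqrt_of_sq_le
    have a := A05_cosh1 h0.le
    have b := A05_cos2 h1
    nlinarith [sq_nonneg y]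
  have ht : -(t * y) ≤ |t| := by
    calc -(t * y) ≤ |t * y| := neg_le_abs _
      _ = |t| * |y| := abs_mul _ _
      _ ≤ |t| := by nlinarith [abs_nonneg t]
  rw [← Real.exp_add]
  calc _ ≤ Real.exp (|t| + -(G * r)) / 1 := by
        apply div_le_div₀ (Real.exp_pos _).le _ one_pos hsq
        apply Real.exp_le_exp.2
        linarith
    _ = _ := div_one _

theorem A05_between {k : ℤ} {δ y : ℝ} (hk : (k : ℝ) * δ < 0) (hy : y ∈ uIcc 0 δ) :
    (k : ℝ) * y ≤ -|y| ∧ |y| ≤ |δ| := by
  rcases lt_trichotomy δ 0 with h | h | h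
  · rw [uIcc_of_ge h.le] at hy
    have hk1 : (1 : ℝ) ≤ k := by
      have : (0 : ℝ) < k := by nlinarith
      have : (0 : ℤ) < k := by exact_mod_cast this
      exact_mod_cast this
    rw [abs_of_nonpos hy.2, abs_of_neg h]
    exact ⟨by nlinarith [hy.2], by linarith [hy.1]⟩
  · subst h
    simp at hk
  · rw [uIcc_of_le h.le] at hy
    have hk1 : (k : ℝ) ≤ -1 := by
      have : (k : ℝ) < 0 := by nlinarith
      have : (k : ℤ) < 0 := by exact_mod_cast this
      have : (k : ℤ) ≤ -1 := by omega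
      exact_mod_cast this
    rw [abs_of_nonneg hy.1, abs_of_pos h]
    exact ⟨by nlinarith [hy.1], hy.2⟩

theorem A05_eq (w : ℂ) : w = ((w.re : ℝ) : ℂ) + ((w.im : ℝ) : ℂ) * I := (Complex.re_add_im w).symm

theorem A05_cont {G t ρ δ A : ℝ} {k : ℤ} (hG : 0 < G) (hρ : 0 < ρ) (hδ : |δ| ≤ 1)
    (hk : (k : ℝ) * δ < 0) (hA : 0 < A) :
    ContinuousOn (ker (G - t * I) (Real.pi * I * k - ρ)) (uIcc 0 A ×ℂ uIcc 0 δ) := by
  intro w hw
  rw [Complex.mem_reProdIm] at hw
  have hre : 0 ≤ w.re := by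
    have := hw.1
    rw [uIcc_of_le hA.le] at this
    exact this.1
  obtain ⟨h1, h2⟩ := A05_between hk hw.2
  by_cases h0 : w = 0
  · subst h0
    have hz : ker (G - t * I) (Real.pi * I * k - ρ) 0 = 0 := by
      unfold ker
      simp
    rw [ContinuousWithinAt, hz]
    have hlim : Filter.Tendsto (fun w : ℂ => Real.exp |t| * (4 / (min 1 ρ) ^ 2) * (|w.re| + |w.im|))
        (nhdsWithin 0 (uIcc 0 A ×ℂ uIcc 0 δ)) (nhds 0) := by
      have hcc : Continuous (fun w : ℂ => Real.exp |t| * (4 / (min 1 ρ) ^ 2) * (|w.re| + |w.im|)) := by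
        have := Complex.continuous_re
        have := Complex.continuous_im
        fun_prop
      have := hcc.tendsto 0
      simp only [Complex.zero_re, Complex.zero_im, abs_zero, add_zero, mul_zero] at this
      exact this.mono_left nhdsWithin_le_nhds
    refine squeeze_zero_norm' ?_ hlim
    have hball : ∀ᶠ z : ℂ in nhdsWithin 0 (uIcc 0 A ×ℂ uIcc 0 δ), ‖z‖ ≤ 1 := by
      apply Filter.Eventually.filter_mono nhdsWithin_le_nhds
      filter_upwards [Metric.closedBall_mem_nhds (0 : ℂ) one_pos] with z hz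
      simpa using hz
    filter_upwards [hball, self_mem_nhdsWithin] with z hz1 hz2
    rw [Complex.mem_reProdIm] at hz2
    have zre : 0 ≤ z.re := by
      have := hz2.1
      rw [uIcc_of_le hA.le] at this
      exact this.1
    obtain ⟨z1, z2⟩ := A05_between hk hz2.2
    by_cases hz0 : z = 0
    · subst hz0
      rw [hz]
      simp
    · have hor : 0 < z.re ∨ z.im ≠ 0 := by
        by_contra hcon
        push Not at hcon
        apply hz0
        apply Complex.ext
        · simpa using le_antisymm hcon.1 zre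
        · simpa using hcon.2
      have := A05_near (t := t) hG hρ zre ((Complex.re_le_norm z).trans hz1) (z2.trans hδ) z1 hor
      rw [← A05_eq] at this
      rwa [abs_of_nonneg zre]
  · have hor : 0 < w.re ∨ w.im ≠ 0 := by
      by_contra hcon
      push Not at hcon
      apply h0
      apply Complex.ext
      · simpa using le_antisymm hcon.1 hre
      · simpa using hcon.2
    have hX := A05_Xpos hre (h2.trans hδ) hor
    have h3 := A05_sinh_ne hX
    rw [← A05_eq] at h3
    exact (A05_an h3).continuousAt.continuousWithinAt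

theorem A05_shift {G t ρ δ b1 b2 : ℝ} {k : ℤ} (hG : 0 < G) (hρ : 0 < ρ) (hδ : |δ| ≤ 1)
    (hk : (k : ℝ) * δ < 0)
    (h1 : ∀ A : ℝ, 0 < A →
      ‖∫ x : ℝ in (0 : ℝ)..A, ker (G - t * I) (Real.pi * I * k - ρ) ((x : ℂ) + δ * I)‖ ≤ b1)
    (h2 : ‖∫ y : ℝ in (0 : ℝ)..δ, ker (G - t * I) (Real.pi * I * k - ρ)
      (((0 : ℝ) : ℂ) + y * I)‖ ≤ b2) :
    ‖II G t k ρ‖ ≤ b1 + b2 := by
  set F := ker (G - t * I) (Real.pi * I * k - ρ) with hF
  have hrect : ∀ A : ℝ, 1 ≤ A → ‖∫ x : ℝ in (0 : ℝ)..A, F x‖ ≤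
      b1 + b2 + Real.exp |t| * Real.exp (-(G * A)) := by
    intro A hA
    have hA0 : 0 < A := by linarith
    have hR := Complex.integral_boundary_rect_eq_zero_of_continuousOn_of_differentiableOn F 0
      ((A : ℂ) + δ * I) (by
        have := A05_cont (A := A) (t := t) hG hρ hδ hk hA0
        simpa using this) (by
        intro w hw
        rw [Complex.mem_reProdIm] at hw
        have hre : 0 < w.re := by
          have := hw.1.1
          simp only [Complex.zero_re, Complex.add_re, Complex.ofReal_re, Complex.re_ofReal_mul,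
            Complex.I_re, mul_zero, add_zero] at this
          rwa [min_eq_left hA0.le] at this
        have him : w.im ∈ uIcc 0 δ := by
          have h3 := hw.2
          simp only [Complex.zero_im, Complex.add_im, Complex.ofReal_im, Complex.im_ofReal_mul,
            Complex.I_im, mul_one, zero_add] at h3
          exact ⟨h3.1.le, h3.2.le⟩
        obtain ⟨z1, z2⟩ := A05_between hk him
        have hX := A05_Xpos hre.le (z2.trans hδ) (Or.inl hre)
        have h3 := A05_sinh_ne hX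
        rw [← A05_eq] at h3
        exact (A05_an h3).differentiableWithinAt)
    simp only [Complex.zero_re, Complex.add_re, Complex.ofReal_re, Complex.re_ofReal_mul,
      Complex.I_re, mul_zero, add_zero, Complex.zero_im, Complex.add_im, Complex.ofReal_im,
      Complex.im_ofReal_mul, Complex.I_im, mul_one, zero_add, Complex.ofReal_zero, zero_mul] at hR
    have hside : ‖∫ y : ℝ in (0 : ℝ)..δ, F ((A : ℂ) + y * I)‖ ≤
        Real.exp |t| * Real.exp (-(G * A)) := by
      have := intervalIntegral.norm_integral_le_of_norm_le_const (a := (0 : ℝ)) (b := δ)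
        (C := Real.exp |t| * Real.exp (-(G * A))) (f := fun y : ℝ => F ((A : ℂ) + y * I)) (by
          intro y hy
          obtain ⟨z1, z2⟩ := A05_between hk (uIoc_subset_uIcc hy)
          exact A05_far hρ hA (z2.trans hδ) z1)
      refine this.trans ?_
      rw [sub_zero]
      have hp : 0 ≤ Real.exp |t| * Real.exp (-(G * A)) := by positivity
      nlinarith
    have hsol : (∫ x : ℝ in (0 : ℝ)..A, F x) = (∫ x : ℝ in (0 : ℝ)..A, F ((x : ℂ) + δ * I)) -
        I • (∫ y : ℝ in (0 : ℝ)..δ, F ((A : ℂ) + y * I)) +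
        I • (∫ y : ℝ in (0 : ℝ)..δ, F (((0 : ℝ) : ℂ) + y * I)) := by
      simp only [Complex.ofReal_zero, zero_add]
      linear_combination hR
    rw [hsol]
    have n1 : ‖I • (∫ y : ℝ in (0 : ℝ)..δ, F ((A : ℂ) + y * I))‖ =
        ‖∫ y : ℝ in (0 : ℝ)..δ, F ((A : ℂ) + y * I)‖ := by
      rw [norm_smul, Complex.norm_I, one_mul]
    have n2 : ‖I • (∫ y : ℝ in (0 : ℝ)..δ, F (((0 : ℝ) : ℂ) + y * I))‖ =
        ‖∫ y : ℝ in (0 : ℝ)..δ, F (((0 : ℝ) : ℂ) + y * I)‖ := by
      rw [norm_smul, Complex.norm_I, one_mul]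
    refine (norm_add_le _ _).trans ?_
    rw [n2]
    have n3 := norm_sub_le (∫ x : ℝ in (0 : ℝ)..A, F ((x : ℂ) + δ * I))
      (I • (∫ y : ℝ in (0 : ℝ)..δ, F ((A : ℂ) + y * I)))
    rw [n1] at n3
    have := h1 A hA0
    linarith
  have hlim1 : Filter.Tendsto (fun A : ℝ => ‖∫ x : ℝ in (0 : ℝ)..A, F x‖) Filter.atTop
      (nhds ‖II G t k ρ‖) := by
    have := (intervalIntegral_tendsto_integral_Ioi 0 (II_integrable (t := t) hG hρ k)
      Filter.tendsto_id).norm
    exact this
  have hlim2 : Filter.Tendsto (fun A : ℝ => b1 + b2 + Real.exp |t| * Real.exp (-(G * A)))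
      Filter.atTop (nhds (b1 + b2)) := by
    have h3 : Filter.Tendsto (fun A : ℝ => Real.exp (-(G * A))) Filter.atTop (nhds 0) := by
      apply Real.tendsto_exp_neg_atTop_nhds_zero.comp
      exact Filter.tendsto_id.const_mul_atTop hG
    have := (h3.const_mul (Real.exp |t|)).const_add (b1 + b2)
    simpa using this
  refine le_of_tendsto_of_tendsto hlim1 hlim2 ?_
  filter_upwards [Filter.eventually_ge_atTop (1 : ℝ)] with A hA
  exact hrect A hA

theorem A05_intexp {c A : ℝ} (hc : 0 ≤ c) : ∫ x : ℝ in (0 : ℝ)..A, c * Real.exp (-x) ≤ c := by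
  rw [intervalIntegral.integral_const_mul]
  have h : ∫ x : ℝ in (0 : ℝ)..A, Real.exp (-x) = 1 - Real.exp (-A) := by
    rw [intervalIntegral.integral_comp_neg (fun x => Real.exp x), integral_exp]
    simp
  rw [h]
  have := Real.exp_pos (-A)
  nlinarith

theorem A05_line {F : ℝ → ℂ} {c A : ℝ} (hc : 0 ≤ c) (hA : 0 < A)
    (h : ∀ r : ℝ, 0 < r → ‖F r‖ ≤ c * Real.exp (-r)) : ‖∫ x : ℝ in (0 : ℝ)..A, F x‖ ≤ c := by
  have h1 := intervalIntegral.norm_integral_le_of_norm_le (μ := volume) (f := F)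
    (g := fun r => c * Real.exp (-r)) hA.le
    (Filter.Eventually.of_forall (fun r hr => h r hr.1)) (by
      apply Continuous.intervalIntegrable
      fun_prop)
  exact h1.trans (A05_intexp hc)

theorem A05_seg {G t ρ y : ℝ} {k : ℤ} {K : ℕ} (hy : y ≠ 0) (h1 : |y| ≤ 1)
    (hk : (k : ℝ) * y = -(K * |y|)) :
    ‖ker (G - t * I) (Real.pi * I * k - ρ) (((0 : ℝ) : ℂ) + y * I)‖ ≤
      Real.exp (-(t * y) - 4.6 * K / |y|) / (0.9 * |y|) := by
  have hX := A05_Xpos (r := 0) le_rfl h1 (Or.inr hy)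
  rw [A05_ker hX]
  rw [Real.cosh_zero] at hX ⊢
  have hy0 : 0 < |y| := abs_pos.2 hy
  have hK : (0 : ℝ) ≤ K := Nat.cast_nonneg K
  have hs : (k : ℝ) * Real.sin y ≤ -(K * (0.78 * |y|)) := by
    rcases lt_or_gt_of_ne hy with h | h
    · rw [abs_of_neg h] at h1 hk hy0 ⊢
      have hkK : (k : ℝ) = K := by
        have : (k : ℝ) * y = K * y := by rw [hk]; ring
        exact mul_right_cancel₀ hy this
      have hs := A05_sin (y := -y) (by linarith) h1
      rw [Real.sin_neg] at hs
      rw [hkK]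
      nlinarith
    · rw [abs_of_pos h] at h1 hk hy0 ⊢
      have hkK : (k : ℝ) = -K := by
        have : (k : ℝ) * y = -K * y := by rw [hk]; ring
        exact mul_right_cancel₀ hy this
      have hs := A05_sin (y := y) h.le h1
      rw [hkK]
      nlinarith
  have hc1 := A05_cos1 y
  have hc2 := A05_cos2 h1
  have hy2 : |y| ^ 2 = y ^ 2 := sq_abs y
  have hexp : (Real.pi * k * Real.sin y - ρ * Real.sinh 0) / (1 - Real.cos y) ≤
      -(4.6 * K / |y|) := by
    rw [Real.sinh_zero, mul_zero, sub_zero, div_le_iff₀ hX]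
    have e1 : Real.pi * k * Real.sin y = Real.pi * (k * Real.sin y) := by ring
    have e2 : Real.pi * (k * Real.sin y) ≤ -(2.3 * K * |y|) := by
      have p3 := Real.pi_gt_three
      have : Real.pi * (k * Real.sin y) ≤ Real.pi * -(K * (0.78 * |y|)) :=
        mul_le_mul_of_nonneg_left hs Real.pi_pos.le
      have h5 : 0 ≤ K * |y| := by positivity
      nlinarith
    rw [e1]
    refine e2.trans ?_
    have h6 : -(4.6 * K / |y|) * (1 - Real.cos y) ≥ -(4.6 * K / |y|) * (|y| ^ 2 / 2) := by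
      have : 0 ≤ 4.6 * K / |y| := by positivity
      rw [hy2]
      nlinarith
    have h7 : -(4.6 * K / |y|) * (|y| ^ 2 / 2) = -(2.3 * K * |y|) := by
      field_simp
      norm_num
      ring
    linarith
  have hsq : 0.9 * |y| ≤ Real.sqrt (2 * (1 - Real.cos y)) := by
    apply Real.le_sqrt_of_sq_le
    rw [mul_pow, hy2]
    nlinarith [sq_nonneg y]
  apply div_le_div₀ (Real.exp_pos _).le _ (by positivity) hsq
  apply Real.exp_le_exp.2
  linarith

theorem II_neg : ∃ C : ℝ, 0 < C ∧ ∀ (G t ρ : ℝ) (k : ℕ), 3 ≤ G → 1 ≤ t → 0 < ρ → 1 ≤ k →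
    ‖II G t (-(k : ℤ)) ρ‖ ≤ C * Real.exp (-Real.sqrt t) / (k : ℝ) ^ 2 := by
  refine ⟨2, two_pos, ?_⟩
  intro G t ρ k hG ht hρ hk
  have hk1 : (1 : ℝ) ≤ k := by exact_mod_cast hk
  have hk0 : (0 : ℝ) < k := by linarith
  set s := Real.sqrt t with hs
  have hs0 : 0 ≤ s := Real.sqrt_nonneg t
  have hss : s ^ 2 = t := Real.sq_sqrt (by linarith)
  have hs1 : 1 ≤ s := by
    rw [hs]; exact Real.one_le_sqrt.2 ht
  have hst : s ≤ t := by nlinarith
  have hneg : (((-(k : ℤ) : ℤ)) : ℝ) * 1 < 0 := by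
    push_cast
    linarith
  have hc : (0 : ℝ) ≤ Real.exp (-s) / (k : ℝ) ^ 2 := by positivity
  have hcos : 0 < Real.cos 1 := Real.cos_one_pos
  have h := A05_shift (G := G) (t := t) (ρ := ρ) (δ := 1) (k := -(k : ℤ))
    (b1 := Real.exp (-s) / (k : ℝ) ^ 2) (b2 := Real.exp (-s) / (k : ℝ) ^ 2) (by linarith) hρ
    (by norm_num) hneg ?_ ?_
  · refine h.trans (le_of_eq ?_)
    ring
  · intro A hA
    apply A05_line hc hA
    intro r hr
    have hX := A05_Xpos hr.le (y := 1) (by norm_num) (Or.inl hr)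
    rw [A05_ker hX]
    have hX1 : Real.cosh r - Real.cos 1 ≤ Real.exp r := by
      have := A05_cosh3 hr.le
      linarith
    have hX2 : 0.44 ≤ Real.cosh r - Real.cos 1 := by
      have a := A05_cosh1 hr.le
      have b := A05_cos2 (y := 1) (by norm_num)
      nlinarith [sq_nonneg r]
    set X := Real.cosh r - Real.cos 1 with hXd
    have hsin := A05_sin (y := 1) zero_le_one le_rfl
    have hsinh : 0 ≤ Real.sinh r := Real.sinh_nonneg_iff.2 hr.le
    have hnum : (Real.pi * ((-(k : ℤ) : ℤ) : ℝ) * Real.sin 1 - ρ * Real.sinh r) / X ≤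
        -(2.3 * k / X) := by
      rw [← neg_div]
      apply div_le_div_of_nonneg_right _ hX.le
      push_cast
      have p3 := Real.pi_gt_three
      have e1 : 2.3 * (k : ℝ) ≤ Real.pi * k * Real.sin 1 := by
        have : 3 * (k : ℝ) * 0.78 ≤ Real.pi * k * Real.sin 1 := by gcongr; linarith
        nlinarith
      have e2 : 0 ≤ ρ * Real.sinh r := by positivity
      linarith
    have hex : Real.exp (-(G * r) - t * 1 + (Real.pi * ((-(k : ℤ) : ℤ) : ℝ) * Real.sin 1 -
        ρ * Real.sinh r) / X) ≤ Real.exp (-(3 * r) - s) * (2 / (2.3 * k / X) ^ 2) := by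
      calc _ ≤ Real.exp ((-(3 * r) - s) + -(2.3 * k / X)) := by
            apply Real.exp_le_exp.2
            nlinarith
        _ = Real.exp (-(3 * r) - s) * Real.exp (-(2.3 * k / X)) := Real.exp_add _ _
        _ ≤ _ := mul_le_mul_of_nonneg_left (A05_exp2 (by positivity)) (Real.exp_pos _).le
    have hsq : 0.9 ≤ Real.sqrt (2 * X) := by
      apply Real.le_sqrt_of_sq_le
      linarith
    have hXX : X ^ 2 ≤ Real.exp (2 * r) := by
      have : Real.exp (2 * r) = Real.exp r ^ 2 := by rw [← Real.exp_nat_mul]; norm_num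
      rw [this]
      exact pow_le_pow_left₀ hX.le hX1 2
    calc _ ≤ Real.exp (-(3 * r) - s) * (2 / (2.3 * k / X) ^ 2) / 0.9 :=
          div_le_div₀ (by positivity) hex (by norm_num) hsq
      _ = Real.exp (-(3 * r) - s) * X ^ 2 * (2 / (2.3 ^ 2 * 0.9)) / (k : ℝ) ^ 2 := by
          field_simp
      _ ≤ Real.exp (-(3 * r) - s) * Real.exp (2 * r) * 1 / (k : ℝ) ^ 2 := by
          gcongr
          norm_num
      _ = Real.exp (-s) / (k : ℝ) ^ 2 * Real.exp (-r) := by
          rw [mul_one, ← Real.exp_add, div_mul_eq_mul_div, ← Real.exp_add]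
          congr 2
          ring
  · have hb := intervalIntegral.norm_integral_le_of_norm_le_const (a := (0 : ℝ)) (b := 1)
      (C := Real.exp (-s) / (k : ℝ) ^ 2) (f := fun y : ℝ => ker (G - t * I)
        (Real.pi * I * ((-(k : ℤ) : ℤ) : ℂ) - ρ) (((0 : ℝ) : ℂ) + y * I)) (by
        intro y hy
        rw [uIoc_of_le zero_le_one] at hy
        have hy0 : 0 < y := hy.1
        have ha : |y| = y := abs_of_pos hy0
        have h1 := A05_seg (G := G) (t := t) (ρ := ρ) (k := -(k : ℤ)) (K := k) hy0.ne'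
          (by rw [ha]; exact hy.2) (by rw [ha]; push_cast; ring)
        rw [ha] at h1
        refine h1.trans ?_
        have h2 : Real.exp (-(t * y) - 4.6 * k / y) ≤ Real.exp (-s) * (2 / (4.3 * k / y) ^ 2) := by
          calc _ ≤ Real.exp (-s + -(4.3 * k / y)) := by
                apply Real.exp_le_exp.2
                have h3 : s ≤ t * y + 0.3 * k / y := by
                  have h4 : s * y ≤ t * y ^ 2 + 0.3 * k := by
                    rw [← hss]
                    nlinarith [sq_nonneg (s * y - 1 / 2)]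
                  have h5 : t * y + 0.3 * k / y = (t * y ^ 2 + 0.3 * k) / y := by field_simp
                  rw [h5, le_div_iff₀ hy0]
                  exact h4
                have h6 : 4.6 * k / y = 0.3 * k / y + 4.3 * k / y := by ring
                linarith
            _ = Real.exp (-s) * Real.exp (-(4.3 * k / y)) := Real.exp_add _ _
            _ ≤ _ := mul_le_mul_of_nonneg_left (A05_exp2 (by positivity)) (Real.exp_pos _).le
        calc _ ≤ Real.exp (-s) * (2 / (4.3 * k / y) ^ 2) / (0.9 * y) := by gcongr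
          _ = Real.exp (-s) / (k : ℝ) ^ 2 * (2 / (4.3 ^ 2 * 0.9) * y) := by field_simp
          _ ≤ Real.exp (-s) / (k : ℝ) ^ 2 * 1 := by
              apply mul_le_mul_of_nonneg_left _ hc
              have := hy.2
              nlinarith
          _ = _ := mul_one _)
    simpa using hb

/-- the key exponent inequality of `II_inf` -/
theorem A05_key {G t R δ r X kk : ℝ} (hR : 8 ≤ R) (hRt : R ≤ t) (hGt : G ≤ t)
    (hRG : 4 * R + 2 ≤ G) (hk1 : 1 ≤ kk) (hk : R ^ 3 * t ≤ kk * G ^ 2) (hδ : δ = R / t)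
    (hr : 0 < r) (hX : 0 < X) (hX2 : r ≤ 1 → X ≤ 0.75 * r ^ 2 + δ ^ 2 / 2) :
    2 * R + 3 * r ≤ G * r + 1.15 * kk * δ / X := by
  have ht : 0 < t := by linarith
  have hδ0 : 0 < δ := by rw [hδ]; positivity
  have hG0 : 0 < G := by linarith
  have hkd : R ^ 4 ≤ kk * δ * G ^ 2 := by
    have : kk * δ * G ^ 2 = kk * G ^ 2 * R / t := by rw [hδ]; ring
    rw [this, le_div_iff₀ ht]
    nlinarith
  have hkr : R ^ 2 ≤ kk / δ := by
    have h1 : kk / δ = kk * t / R := by rw [hδ]; field_simp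
    rw [h1, le_div_iff₀ (by linarith)]
    have h2 : R ^ 3 * t ≤ kk * t ^ 2 := by
      refine hk.trans ?_
      have : G ^ 2 ≤ t ^ 2 := pow_le_pow_left₀ hG0.le hGt 2
      nlinarith
    have h3 : R ^ 3 ≤ kk * t := by
      have : R ^ 3 * t ≤ kk * t * t := by linarith
      exact le_of_mul_le_mul_right this ht
    calc R ^ 2 * R = R ^ 3 := by ring
      _ ≤ kk * t := h3
  rcases le_or_gt 1 r with h1 | h1
  · have : 0 ≤ 1.15 * kk * δ / X := by positivity
    nlinarith
  · have hX3 := hX2 h1.le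
    rcases le_or_gt r δ with h2 | h2
    · have hX4 : X ≤ 1.25 * δ ^ 2 := by nlinarith
      have h3 : 0.92 * (kk / δ) ≤ 1.15 * kk * δ / X := by
        rw [le_div_iff₀ hX]
        calc 0.92 * (kk / δ) * X ≤ 0.92 * (kk / δ) * (1.25 * δ ^ 2) := by gcongr
          _ = 1.15 * kk * δ := by field_simp; norm_num
      have h4 : 0 ≤ G * r := by positivity
      nlinarith
    · have hX4 : X ≤ 1.25 * r ^ 2 := by nlinarith
      have h3 : 0.92 * R ^ 4 / (G * r) ^ 2 ≤ 1.15 * kk * δ / X := by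
        rw [div_le_div_iff₀ (by positivity) hX]
        calc 0.92 * R ^ 4 * X ≤ 0.92 * (kk * δ * G ^ 2) * (1.25 * r ^ 2) := by gcongr
          _ = 1.15 * kk * δ * (G * r) ^ 2 := by ring
      set z := G * r with hz
      have hz0 : 0 < z := by positivity
      have h5 : 3 * r ≤ 0.09 * z := by
        rw [hz]
        nlinarith
      have h6 : 2 * R - 0.91 * z ≤ 0.92 * R ^ 4 / z ^ 2 := by
        rw [le_div_iff₀ (by positivity)]
        have h7 : 7.36 * R ^ 3 ≤ 0.92 * R ^ 4 := by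
          have : R ^ 4 = R ^ 3 * R := by ring
          have h8 : 0 ≤ R ^ 3 := by positivity
          nlinarith
        have h8 : 0 ≤ (z + 0.75 * R) * (z - 1.5 * R) ^ 2 := by positivity
        have h9 : 0 ≤ R * z ^ 2 := by positivity
        have h10 : 0 ≤ R ^ 3 := by positivity
        nlinarith
      linarith

theorem II_inf : ∃ C : ℝ, 0 < C ∧ ∀ (G t ρ R : ℝ) (k : ℕ), 0 < ρ → 1 ≤ k → 8 ≤ R → R ≤ t → G ≤ t →
    4 * R + 2 ≤ G → R ^ 3 * t ≤ k * G ^ 2 →
    ‖II G t (k : ℤ) ρ‖ ≤ C * t ^ 3 * Real.exp (-R) / (k : ℝ) ^ 2 := by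
  refine ⟨2, two_pos, ?_⟩
  intro G t ρ R k hρ hk hR hRt hGt hRG hkG
  have hk1 : (1 : ℝ) ≤ k := by exact_mod_cast hk
  have hk0 : (0 : ℝ) < k := by linarith
  have ht : 0 < t := by linarith
  have ht1 : 1 ≤ t := by linarith
  obtain ⟨δ, hδ⟩ : ∃ δ : ℝ, δ = R / t := ⟨_, rfl⟩
  have hδ0 : 0 < δ := by rw [hδ]; positivity
  have hδ1 : δ ≤ 1 := by rw [hδ, div_le_one ht]; exact hRt
  have htd : t * δ = R := by rw [hδ]; field_simp
  have hneg : (((k : ℤ)) : ℝ) * (-δ) < 0 := by
    push_cast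
    have := mul_pos hk0 hδ0
    linarith
  have hc : (0 : ℝ) ≤ t ^ 3 * Real.exp (-R) / (k : ℝ) ^ 2 := by positivity
  have habs : |(-δ)| ≤ 1 := by rw [abs_neg, abs_of_pos hδ0]; exact hδ1
  have hkr : R ^ 2 ≤ k / δ := by
    have h1 : (k : ℝ) / δ = k * t / R := by rw [hδ]; field_simp
    rw [h1, le_div_iff₀ (by linarith)]
    have h2 : R ^ 3 * t ≤ k * t ^ 2 := by
      refine hkG.trans ?_
      have : G ^ 2 ≤ t ^ 2 := pow_le_pow_left₀ (by linarith) hGt 2
      nlinarith
    have h3 : R ^ 3 ≤ k * t := by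
      have : R ^ 3 * t ≤ k * t * t := by linarith
      exact le_of_mul_le_mul_right this ht
    calc R ^ 2 * R = R ^ 3 := by ring
      _ ≤ k * t := h3
  have h := A05_shift (G := G) (t := t) (ρ := ρ) (δ := -δ) (k := (k : ℤ))
    (b1 := t ^ 3 * Real.exp (-R) / (k : ℝ) ^ 2) (b2 := t ^ 3 * Real.exp (-R) / (k : ℝ) ^ 2)
    (by linarith) hρ habs hneg ?_ ?_
  · refine h.trans (le_of_eq ?_)
    ring
  · intro A hA
    apply A05_line hc hA
    intro r hr
    have hX := A05_Xpos hr.le (y := -δ) habs (Or.inl hr)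
    rw [A05_ker hX]
    rw [Real.cos_neg] at hX ⊢
    rw [Real.sin_neg]
    have hcos : 0 < Real.cos δ := Real.cos_pos_of_le_one (by rw [abs_of_pos hδ0]; exact hδ1)
    have hX1 : Real.cosh r - Real.cos δ ≤ Real.exp r := by
      have := A05_cosh3 hr.le
      linarith
    have hX2 : 0.44 * δ ^ 2 ≤ Real.cosh r - Real.cos δ := by
      have a := A05_cosh1 hr.le
      have b := A05_cos2 (y := δ) (by rw [abs_of_pos hδ0]; exact hδ1)
      nlinarith [sq_nonneg r]
    have hX3 : r ≤ 1 → Real.cosh r - Real.cos δ ≤ 0.75 * r ^ 2 + δ ^ 2 / 2 := by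
      intro h1
      have a := A05_cosh2 hr.le h1
      have b := A05_cos1 δ
      linarith
    set X := Real.cosh r - Real.cos δ with hXd
    have hkey := A05_key hR hRt hGt hRG hk1 hkG hδ hr hX hX3
    have hsin := A05_sin hδ0.le hδ1
    have hsinh : 0 ≤ Real.sinh r := Real.sinh_nonneg_iff.2 hr.le
    have hnum : (Real.pi * ((k : ℤ) : ℝ) * -Real.sin δ - ρ * Real.sinh r) / X ≤
        -(2.3 * k * δ / X) := by
      rw [← neg_div]
      apply div_le_div_of_nonneg_right _ hX.le
      push_cast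
      have p3 := Real.pi_gt_three
      have e1 : 2.3 * (k : ℝ) * δ ≤ Real.pi * k * Real.sin δ := by
        have : 3 * (k : ℝ) * (0.78 * δ) ≤ Real.pi * k * Real.sin δ := by gcongr
        have h5 : 0 ≤ (k : ℝ) * δ := by positivity
        nlinarith
      have e2 : 0 ≤ ρ * Real.sinh r := by positivity
      linarith
    have hex : Real.exp (-(G * r) - t * -δ + (Real.pi * ((k : ℤ) : ℝ) * -Real.sin δ -
        ρ * Real.sinh r) / X) ≤ Real.exp (-R - 3 * r) * (2 / (1.15 * k * δ / X) ^ 2) := by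
      calc _ ≤ Real.exp ((-R - 3 * r) + -(1.15 * k * δ / X)) := by
            apply Real.exp_le_exp.2
            have e3 : 2.3 * (k : ℝ) * δ / X = 1.15 * k * δ / X + 1.15 * k * δ / X := by ring
            have e4 : t * -δ = -R := by rw [mul_neg, htd]
            linarith
        _ = Real.exp (-R - 3 * r) * Real.exp (-(1.15 * k * δ / X)) := Real.exp_add _ _
        _ ≤ _ := mul_le_mul_of_nonneg_left (A05_exp2 (by positivity)) (Real.exp_pos _).le
    have hsq : 0.9 * δ ≤ Real.sqrt (2 * X) := by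
      apply Real.le_sqrt_of_sq_le
      nlinarith [sq_nonneg δ]
    have hXX : X ^ 2 ≤ Real.exp (2 * r) := by
      have : Real.exp (2 * r) = Real.exp r ^ 2 := by rw [← Real.exp_nat_mul]; norm_num
      rw [this]
      exact pow_le_pow_left₀ hX.le hX1 2
    have hd3 : (2 / (1.15 ^ 2 * 0.9)) * (1 / δ ^ 3) ≤ t ^ 3 := by
      have h1 : 1 / δ ^ 3 = t ^ 3 / R ^ 3 := by rw [hδ]; field_simp
      have h2 : (8 : ℝ) ^ 3 ≤ R ^ 3 := pow_le_pow_left₀ (by norm_num) hR 3
      have h3 : t ^ 3 / R ^ 3 ≤ t ^ 3 / 8 ^ 3 := by gcongr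
      rw [h1]
      have h4 : 0 ≤ t ^ 3 := by positivity
      have h5 : 0 ≤ t ^ 3 / R ^ 3 := by positivity
      nlinarith
    calc _ ≤ Real.exp (-R - 3 * r) * (2 / (1.15 * k * δ / X) ^ 2) / (0.9 * δ) :=
          div_le_div₀ (by positivity) hex (by positivity) hsq
      _ = Real.exp (-R - 3 * r) * X ^ 2 * ((2 / (1.15 ^ 2 * 0.9)) * (1 / δ ^ 3)) / (k : ℝ) ^ 2 := by
          field_simp
      _ ≤ Real.exp (-R - 3 * r) * Real.exp (2 * r) * t ^ 3 / (k : ℝ) ^ 2 := by gcongr
      _ = t ^ 3 * Real.exp (-R) / (k : ℝ) ^ 2 * Real.exp (-r) := by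
          have e5 : Real.exp (-R - 3 * r) * Real.exp (2 * r) = Real.exp (-R) * Real.exp (-r) := by
            rw [← Real.exp_add, ← Real.exp_add]
            congr 1
            ring
          rw [e5]
          ring
  · have hb := intervalIntegral.norm_integral_le_of_norm_le_const (a := (0 : ℝ)) (b := -δ)
      (C := t ^ 3 * Real.exp (-R) / (k : ℝ) ^ 2) (f := fun y : ℝ => ker (G - t * I)
        (Real.pi * I * (((k : ℤ)) : ℂ) - ρ) (((0 : ℝ) : ℂ) + y * I)) (by
        intro y hy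
        rw [uIoc_of_ge (by linarith)] at hy
        rcases eq_or_lt_of_le hy.2 with h0 | h0
        · subst h0
          have hz : ker (G - t * I) (Real.pi * I * (((k : ℤ)) : ℂ) - ρ)
              (((0 : ℝ) : ℂ) + ((0 : ℝ) : ℂ) * I) = 0 := by
            unfold ker
            simp
          rw [hz, norm_zero]
          exact hc
        · have ha : |y| = -y := abs_of_neg h0
          obtain ⟨y', hy'⟩ : ∃ y' : ℝ, y' = -y := ⟨_, rfl⟩
          have hy0 : 0 < y' := by linarith
          have hyd : y' < δ := by linarith [hy.1]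
          have h1 := A05_seg (G := G) (t := t) (ρ := ρ) (k := (k : ℤ)) (K := k) h0.ne
            (by rw [ha]; linarith) (by rw [ha]; push_cast; ring)
          rw [ha, ← hy'] at h1
          refine h1.trans ?_
          have h2 : Real.exp (-(t * y) - 4.6 * k / y') ≤
              Real.exp (-R) * (2 / (2.3 * k / y') ^ 2) := by
            calc _ ≤ Real.exp (-R + -(2.3 * k / y')) := by
                  apply Real.exp_le_exp.2
                  have h3 : -(t * y) ≤ R := by
                    have : -(t * y) = t * y' := by rw [hy']; ring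
                    rw [this, ← htd]
                    gcongr
                  have h4 : (k : ℝ) / δ ≤ k / y' := by gcongr
                  have h5 : 2.3 * k / y' = 2.3 * (k / y') := by ring
                  have h6 : 4.6 * k / y' = 4.6 * (k / y') := by ring
                  rw [h5, h6]
                  nlinarith
              _ = Real.exp (-R) * Real.exp (-(2.3 * k / y')) := Real.exp_add _ _
              _ ≤ _ := mul_le_mul_of_nonneg_left (A05_exp2 (by positivity)) (Real.exp_pos _).le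
          calc _ ≤ Real.exp (-R) * (2 / (2.3 * k / y') ^ 2) / (0.9 * y') := by gcongr
            _ = Real.exp (-R) / (k : ℝ) ^ 2 * (2 / (2.3 ^ 2 * 0.9) * y') := by field_simp
            _ ≤ Real.exp (-R) / (k : ℝ) ^ 2 * t ^ 3 := by
                apply mul_le_mul_of_nonneg_left _ (by positivity)
                have h7 : 1 ≤ t ^ 3 := one_le_pow₀ ht1
                nlinarith
            _ = _ := by ring)
    refine hb.trans ?_
    rw [sub_zero, abs_neg, abs_of_pos hδ0]
    calc _ ≤ t ^ 3 * Real.exp (-R) / (k : ℝ) ^ 2 * 1 := mul_le_mul_of_nonneg_left hδ1 hc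
      _ = _ := mul_one _

end U6
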