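import Pool.Agent.Lib.MP_39df77_nt.U6.Defs
/-! A08: lower bounds for `Re √(1+iu) √(g+iv)`: `(Re z)² = (|z²|+Re z²)/2`. -/
open Complex MeasureTheory Set
namespace U6

lemma a08_sq (z : ℂ) : (z ^ (1 / 2 : ℂ)) ^ 2 = z := by
  have h : (1 / 2 : ℂ) = ((2 : ℕ) : ℂ)⁻¹ := by norm_num
  rw [h, Complex.cpow_nat_inv_pow z (by norm_num)]

lemma a08_pos {z w : ℂ} (hz : 0 < z.re) (hw : 0 < w.re) :
    0 < (z ^ (1 / 2 : ℂ) * w ^ (1 / 2 : ℂ)).re := by
  have hz0 : z ≠ 0 := by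
    rintro rfl
    simp at hz
  have hw0 : w ≠ 0 := by
    rintro rfl
    simp at hw
  rw [Complex.cpow_def_of_ne_zero hz0, Complex.cpow_def_of_ne_zero hw0, ← Complex.exp_add,
    Complex.exp_re]
  refine mul_pos (Real.exp_pos _) ?_
  have h2 : Complex.log z * (1 / 2) + Complex.log w * (1 / 2) =
      ((1 / 2 : ℝ) : ℂ) * (Complex.log z + Complex.log w) := by push_cast; ring
  have him : (Complex.log z * (1 / 2) + Complex.log w * (1 / 2)).im = (z.arg + w.arg) / 2 := by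
    rw [h2, Complex.im_ofReal_mul, Complex.add_im, Complex.log_im, Complex.log_im]
    ring
  rw [him]
  have h3 := abs_lt.mp (Complex.abs_arg_lt_pi_div_two_iff.mpr (Or.inl hz))
  have h4 := abs_lt.mp (Complex.abs_arg_lt_pi_div_two_iff.mpr (Or.inl hw))
  apply Real.cos_pos_of_mem_Ioo
  constructor <;> linarith [h3.1, h3.2, h4.1, h4.2]

lemma a08_id {z w : ℂ} :
    (z ^ (1 / 2 : ℂ) * w ^ (1 / 2 : ℂ)).re ^ 2 = (‖z‖ * ‖w‖ + (z * w).re) / 2 := by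
  set c := z ^ (1 / 2 : ℂ) * w ^ (1 / 2 : ℂ) with hc
  have h1 : c ^ 2 = z * w := by rw [hc, mul_pow, a08_sq, a08_sq]
  have h2 : ‖c‖ ^ 2 = ‖z‖ * ‖w‖ := by rw [← norm_pow, h1, norm_mul]
  have h3 : ‖c‖ ^ 2 = c.re ^ 2 + c.im ^ 2 := by
    rw [← Complex.normSq_eq_norm_sq, Complex.normSq_apply]; ring
  have h4 : (z * w).re = c.re ^ 2 - c.im ^ 2 := by
    rw [← h1, pow_two, Complex.mul_re]; ring
  rw [h4, ← h2, h3]; ring

lemma a08_norm (g v : ℝ) : ‖(g : ℂ) + I * v‖ = Real.sqrt (g ^ 2 + v ^ 2) := by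
  rw [Complex.norm_def, Complex.normSq_apply]
  congr 1
  simp
  ring

lemma a08_re (u v g : ℝ) : (((1 : ℂ) + I * u) * ((g : ℂ) + I * v)).re = g - u * v := by
  simp [Complex.mul_re]

theorem re_sqrt_mul {u v g : ℝ} (hg : 1 ≤ g) :
    (Real.sqrt (Real.sqrt (1 + u ^ 2) / Real.sqrt (g ^ 2 + v ^ 2)) +
      Real.sqrt (Real.sqrt (g ^ 2 + v ^ 2) / Real.sqrt (1 + u ^ 2))) / 4 ≤
      (((1 : ℂ) + I * u) ^ (1 / 2 : ℂ) * ((g : ℂ) + I * v) ^ (1 / 2 : ℂ)).re := by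
  have hp := a08_pos (z := (1 : ℂ) + I * u) (w := (g : ℂ) + I * v) (by simp) (by simp; linarith)
  have hi := a08_id (z := (1 : ℂ) + I * u) (w := (g : ℂ) + I * v)
  have hn1 : ‖(1 : ℂ) + I * u‖ = Real.sqrt (1 + u ^ 2) := by
    have := a08_norm 1 u
    simpa using this
  rw [hn1, a08_norm g v, a08_re u v g] at hi
  set a := Real.sqrt (1 + u ^ 2) with ha
  set b := Real.sqrt (g ^ 2 + v ^ 2) with hb
  set R := (((1 : ℂ) + I * u) ^ (1 / 2 : ℂ) * ((g : ℂ) + I * v) ^ (1 / 2 : ℂ)).re with hR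
  have ha2 : a ^ 2 = 1 + u ^ 2 := Real.sq_sqrt (by positivity)
  have hb2 : b ^ 2 = g ^ 2 + v ^ 2 := Real.sq_sqrt (by positivity)
  have ha0 : 0 < a := Real.sqrt_pos.mpr (by positivity)
  have hb0 : 0 < b := Real.sqrt_pos.mpr (by positivity)
  have hab0 : 0 < a * b := mul_pos ha0 hb0
  have habs : |u * v| ≤ a * b := by
    apply abs_le_of_sq_le_sq _ hab0.le
    have : (a * b) ^ 2 = (1 + u ^ 2) * (g ^ 2 + v ^ 2) := by rw [mul_pow, ha2, hb2]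
    rw [this]
    nlinarith [sq_nonneg u, sq_nonneg v, sq_nonneg (u * g), sq_nonneg g]
  have huv := abs_le.mp habs
  -- (ab - uv)(ab + uv) = g² + v² + u² g²
  have hprod : (a * b - u * v) * (a * b + u * v) = g ^ 2 + v ^ 2 + u ^ 2 * g ^ 2 := by
    have : (a * b) ^ 2 = (1 + u ^ 2) * (g ^ 2 + v ^ 2) := by rw [mul_pow, ha2, hb2]
    nlinarith [this]
  have hkey1 : g ^ 2 + v ^ 2 + u ^ 2 * g ^ 2 ≤ (a * b - u * v) * (2 * (a * b)) := by
    rw [← hprod]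
    apply mul_le_mul_of_nonneg_left _ (by linarith [huv.2])
    linarith [huv.2]
  have hg2 : 1 ≤ g ^ 2 := by nlinarith
  have hkey2 : (a + b) ^ 2 ≤ 8 * (a * b) * (a * b + g - u * v) := by
    have h1 : (a + b) ^ 2 ≤ 2 * (a ^ 2 + b ^ 2) := by nlinarith [sq_nonneg (a - b)]
    have h2 : a ^ 2 + b ^ 2 ≤ 2 * (g ^ 2 + v ^ 2 + u ^ 2 * g ^ 2) := by
      rw [ha2, hb2]
      nlinarith [sq_nonneg u, sq_nonneg v, mul_nonneg (sq_nonneg u) (by linarith : (0:ℝ) ≤ g ^ 2 - 1)]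
    have h3 : 0 ≤ 8 * (a * b) * g := by positivity
    nlinarith [hkey1, h1, h2, h3]
  have hx : Real.sqrt (a / b) * Real.sqrt (b / a) = 1 := by
    rw [← Real.sqrt_mul (by positivity)]
    have : a / b * (b / a) = 1 := by field_simp
    rw [this, Real.sqrt_one]
  have hs1 : Real.sqrt (a / b) ^ 2 = a / b := Real.sq_sqrt (by positivity)
  have hs2 : Real.sqrt (b / a) ^ 2 = b / a := Real.sq_sqrt (by positivity)
  have hsq : ((Real.sqrt (a / b) + Real.sqrt (b / a)) / 4) ^ 2 = (a + b) ^ 2 / (16 * (a * b)) := by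
    have : ((Real.sqrt (a / b) + Real.sqrt (b / a)) / 4) ^ 2 =
        (Real.sqrt (a / b) ^ 2 + Real.sqrt (b / a) ^ 2 +
          2 * (Real.sqrt (a / b) * Real.sqrt (b / a))) / 16 := by ring
    rw [this, hs1, hs2, hx]
    field_simp
    ring
  apply le_of_sq_le_sq _ hp.le |>.trans le_rfl
  rw [hsq, hi, div_le_div_iff₀ (by positivity) (by norm_num)]
  nlinarith [hkey2]

/-- opposite signs -/
theorem re_sqrt_mul_opp {u v g : ℝ} (hg : 1 ≤ g) (h : u * v ≤ 0) :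
    Real.sqrt (Real.sqrt (1 + u ^ 2) * Real.sqrt (g ^ 2 + v ^ 2)) / 2 ≤
      (((1 : ℂ) + I * u) ^ (1 / 2 : ℂ) * ((g : ℂ) + I * v) ^ (1 / 2 : ℂ)).re := by
  have hp := a08_pos (z := (1 : ℂ) + I * u) (w := (g : ℂ) + I * v) (by simp) (by simp; linarith)
  have hi := a08_id (z := (1 : ℂ) + I * u) (w := (g : ℂ) + I * v)
  have hn1 : ‖(1 : ℂ) + I * u‖ = Real.sqrt (1 + u ^ 2) := by
    have := a08_norm 1 u
    simpa using this
  rw [hn1, a08_norm g v, a08_re u v g] at hi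
  set a := Real.sqrt (1 + u ^ 2) with ha
  set b := Real.sqrt (g ^ 2 + v ^ 2) with hb
  have ha0 : 0 ≤ a := Real.sqrt_nonneg _
  have hb0 : 0 ≤ b := Real.sqrt_nonneg _
  have hab0 : 0 ≤ a * b := mul_nonneg ha0 hb0
  refine abs_le_of_sq_le_sq' ?_ hp.le |>.2
  rw [div_pow, Real.sq_sqrt hab0, hi]
  linarith

/-- `a^{1/2} b^{1/2}` for `a = (1 + iu)/X`, `b = X (g + iv)` -/
theorem cpow_half_scale {X : ℝ} (hX : 0 < X) {z w : ℂ} (hz : 0 < z.re) (hw : 0 < w.re) :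
    (z / X) ^ (1 / 2 : ℂ) * ((X : ℂ) * w) ^ (1 / 2 : ℂ) = z ^ (1 / 2 : ℂ) * w ^ (1 / 2 : ℂ) := by
  have hz0 : z ≠ 0 := by
    rintro rfl
    simp at hz
  have hw0 : w ≠ 0 := by
    rintro rfl
    simp at hw
  have hX0 : (X : ℂ) ≠ 0 := by exact_mod_cast hX.ne'
  have h1 : z / X = ((X⁻¹ : ℝ) : ℂ) * z := by push_cast; field_simp
  have h2 : (z / X) ≠ 0 := div_ne_zero hz0 hX0
  rw [Complex.cpow_def_of_ne_zero h2, Complex.cpow_def_of_ne_zero (mul_ne_zero hX0 hw0),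
    Complex.cpow_def_of_ne_zero hz0, Complex.cpow_def_of_ne_zero hw0, h1,
    Complex.log_ofReal_mul (inv_pos.mpr hX) hz0, Complex.log_ofReal_mul hX hw0,
    ← Complex.exp_add, ← Complex.exp_add, Real.log_inv]
  congr 1
  push_cast
  ring
end U6
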