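import Pool.Agent.Lib.MP_39df77_nt.U6.Defs
/-! A10: Mellin inversion of `e^{-u}` on `Re s = 1/2` (`mellin_inversion`), with `|Γ(1/2+iy)|² = π/cosh πy`. -/
open Complex MeasureTheory Set
namespace U6
theorem gamma_half_norm (y : ℝ) : ‖Complex.Gamma (1 / 2 + y * I)‖ ^ 2 = Real.pi / Real.cosh (Real.pi * y) := by
  have h1 : (starRingEnd ℂ) (1 / 2 + y * I) = 1 - (1 / 2 + y * I) := by
    rw [map_add, map_mul, conj_I, conj_ofReal, map_div₀, map_one, map_ofNat]
    ring
  have h2 := Complex.Gamma_mul_Gamma_one_sub (1 / 2 + y * I)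
  rw [← h1, Complex.Gamma_conj, Complex.mul_conj, Complex.normSq_eq_norm_sq] at h2
  have h3 : Complex.sin (Real.pi * (1 / 2 + y * I)) = ((Real.cosh (Real.pi * y) : ℝ) : ℂ) := by
    rw [show (Real.pi : ℂ) * (1 / 2 + y * I) = ((Real.pi * y : ℝ) : ℂ) * I + Real.pi / 2 by push_cast; ring,
      Complex.sin_add_pi_div_two, Complex.cos_mul_I, ofReal_cosh]
  rw [h3] at h2
  exact_mod_cast h2

theorem A10_norm_le (y : ℝ) : ‖Complex.Gamma (1 / 2 + y * I)‖ ≤
    Real.sqrt (2 * Real.pi) * Real.exp (-(Real.pi / 2) * |y|) := by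
  have h := gamma_half_norm y
  have hc : Real.exp (Real.pi * |y|) / 2 ≤ Real.cosh (Real.pi * y) := by
    rw [← Real.cosh_abs, abs_mul, abs_of_pos Real.pi_pos, Real.cosh_eq]
    have := Real.exp_pos (-(Real.pi * |y|))
    linarith
  have hpos : 0 < Real.exp (Real.pi * |y|) / 2 := by positivity
  have h2 : ‖Complex.Gamma (1 / 2 + y * I)‖ ^ 2 ≤ 2 * Real.pi * Real.exp (-(Real.pi * |y|)) := by
    rw [h]
    calc Real.pi / Real.cosh (Real.pi * y) ≤ Real.pi / (Real.exp (Real.pi * |y|) / 2) :=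
          div_le_div_of_nonneg_left Real.pi_pos.le hpos hc
      _ = 2 * Real.pi * Real.exp (-(Real.pi * |y|)) := by
          rw [Real.exp_neg]
          field_simp
  have h3 : (Real.sqrt (2 * Real.pi) * Real.exp (-(Real.pi / 2) * |y|)) ^ 2 =
      2 * Real.pi * Real.exp (-(Real.pi * |y|)) := by
    rw [mul_pow, Real.sq_sqrt (by positivity), ← Real.exp_nat_mul]
    congr 2
    push_cast
    ring
  rw [← h3] at h2
  exact le_of_sq_le_sq h2 (by positivity)

theorem A10_cont : Continuous (fun y : ℝ => Complex.Gamma (1 / 2 + y * I)) := by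
  rw [continuous_iff_continuousAt]
  intro y
  have hd : DifferentiableAt ℂ Complex.Gamma (1 / 2 + y * I) := by
    refine Complex.differentiableAt_Gamma _ (fun m h => ?_)
    have := congrArg Complex.re h
    simp at this
    have hm : (0 : ℝ) ≤ m := Nat.cast_nonneg m
    linarith
  exact ContinuousAt.comp (f := fun y : ℝ => (1 / 2 + y * I : ℂ)) hd.continuousAt (by fun_prop)

theorem A10_exp_abs : Integrable (fun y : ℝ => Real.exp (-|y|)) := by
  refine (integrable_inv_one_add_sq.const_mul 2).mono' (by fun_prop) (Filter.Eventually.of_forall (fun y => ?_))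
  rw [Real.norm_of_nonneg (Real.exp_pos _).le, Real.exp_neg, ← div_eq_mul_inv,
    inv_eq_one_div, div_le_div_iff₀ (Real.exp_pos _) (by positivity)]
  have h := Real.quadratic_le_exp_of_nonneg (abs_nonneg y)
  rw [sq_abs] at h
  nlinarith [abs_nonneg y]

theorem gamma_half_int (j : ℕ) : Integrable (fun y : ℝ => (1 + |y|) ^ j * ‖Complex.Gamma (1 / 2 + y * I)‖) := by
  obtain ⟨C, hC⟩ : ∃ C : ℝ, ∀ y : ℝ, (1 + |y|) ^ j * Real.exp (-(1 / 2) * |y|) ≤ C := by
    refine ⟨(2 : ℝ) ^ j * (j.factorial : ℝ) * Real.exp (1 / 2), fun y => ?_⟩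
    have hx : 0 ≤ (1 + |y|) / 2 := by positivity
    have h1 := Real.pow_div_factorial_le_exp ((1 + |y|) / 2) hx j
    have hf : (0 : ℝ) < j.factorial := by exact_mod_cast j.factorial_pos
    rw [div_le_iff₀ hf, div_pow, div_le_iff₀ (by positivity)] at h1
    calc (1 + |y|) ^ j * Real.exp (-(1 / 2) * |y|)
        ≤ (Real.exp ((1 + |y|) / 2) * j.factorial * 2 ^ j) * Real.exp (-(1 / 2) * |y|) :=
          mul_le_mul_of_nonneg_right h1 (Real.exp_pos _).le
      _ = 2 ^ j * j.factorial * (Real.exp ((1 + |y|) / 2) * Real.exp (-(1 / 2) * |y|)) := by ring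
      _ = 2 ^ j * j.factorial * Real.exp (1 / 2) := by
          rw [← Real.exp_add]
          congr 2
          ring
  have hint : Integrable (fun y : ℝ => (C * Real.sqrt (2 * Real.pi)) * Real.exp (-|y|)) := by
    exact A10_exp_abs.const_mul _
  refine hint.mono' ?_ (Filter.Eventually.of_forall (fun y => ?_))
  · exact ((by fun_prop : Continuous (fun y : ℝ => (1 + |y|) ^ j)).mul A10_cont.norm).aestronglyMeasurable
  · rw [Real.norm_of_nonneg (by positivity)]
    have h1 := A10_norm_le y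
    have h2 : Real.exp (-(Real.pi / 2) * |y|) ≤ Real.exp (-(1 / 2) * |y|) * Real.exp (-|y|) := by
      rw [← Real.exp_add]
      refine Real.exp_le_exp.2 ?_
      have := Real.pi_gt_three
      nlinarith [abs_nonneg y]
    calc (1 + |y|) ^ j * ‖Complex.Gamma (1 / 2 + y * I)‖
        ≤ (1 + |y|) ^ j * (Real.sqrt (2 * Real.pi) * (Real.exp (-(1 / 2) * |y|) * Real.exp (-|y|))) := by
          refine mul_le_mul_of_nonneg_left (h1.trans ?_) (by positivity)
          exact mul_le_mul_of_nonneg_left h2 (Real.sqrt_nonneg _)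
      _ = ((1 + |y|) ^ j * Real.exp (-(1 / 2) * |y|)) * (Real.sqrt (2 * Real.pi) * Real.exp (-|y|)) := by ring
      _ ≤ C * (Real.sqrt (2 * Real.pi) * Real.exp (-|y|)) :=
          mul_le_mul_of_nonneg_right (hC y) (by positivity)
      _ = _ := by ring

theorem exp_mellin {u : ℝ} (hu : 0 < u) :
    (Real.exp (-u) : ℂ) = (1 / (2 * Real.pi) : ℂ) *
      ∫ y : ℝ, Complex.Gamma (1 / 2 + y * I) * (u : ℂ) ^ (-(1 / 2 + y * I)) := by
  set f : ℝ → ℂ := fun x => ((Real.exp (-x) : ℝ) : ℂ) with hf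
  have hm : ∀ s : ℂ, 0 < s.re → mellin f s = Complex.Gamma s := by
    intro s hs
    rw [Complex.Gamma_eq_integral hs, Complex.GammaIntegral_eq_mellin]
  have hconv : MellinConvergent f ((1 / 2 : ℝ) : ℂ) := by
    have := Complex.GammaIntegral_convergent (s := ((1 / 2 : ℝ) : ℂ)) (by simp)
    refine this.congr_fun (fun x _ => ?_) measurableSet_Ioi
    simp only [hf, smul_eq_mul]
    ring
  have hint0 := gamma_half_int 0
  have hvi : VerticalIntegrable (mellin f) (1 / 2) := by
    unfold VerticalIntegrable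
    have e : (fun y : ℝ => mellin f (((1 / 2 : ℝ) : ℂ) + y * I)) = fun y : ℝ => Complex.Gamma (1 / 2 + y * I) := by
      funext y
      rw [hm _ (by simp)]
      push_cast
      rfl
    rw [e]
    simp only [pow_zero, one_mul] at hint0
    exact (integrable_norm_iff A10_cont.aestronglyMeasurable).1 hint0
  have hc : ContinuousAt f u := by
    simp only [hf]
    fun_prop
  have key := mellinInv_mellin_eq (1 / 2) f hu hconv hvi hc
  have hfu : f u = (Real.exp (-u) : ℂ) := rfl
  rw [← hfu, ← key]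
  unfold mellinInv
  rw [Complex.real_smul]
  congr 1
  · push_cast
    ring
  · refine integral_congr_ae (Filter.Eventually.of_forall (fun y => ?_))
    simp only [smul_eq_mul]
    rw [hm _ (by simp)]
    push_cast
    ring
end U6
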