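import Pool.Agent.Lib.MP_39df77_nt.U6.Defs
open Complex MeasureTheory Set
namespace U6

private theorem a11_exp_sub {w : ℝ} (hw : 0 < w) : 0 < Real.exp w - 1 := by
  have := Real.add_one_lt_exp hw.ne'
  linarith

private theorem a11_deriv {h w : ℝ} (hw : 0 < w) :
    HasDerivAt (fun w : ℝ => h / (Real.exp w - 1)) (-(h * Real.exp w / (Real.exp w - 1) ^ 2)) w := by
  have h1 := a11_exp_sub hw
  have h2 : HasDerivAt (fun w : ℝ => Real.exp w - 1) (Real.exp w) w :=
    (Real.hasDerivAt_exp w).sub_const 1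
  have h3 := (hasDerivAt_const w h).div h2 h1.ne'
  refine h3.congr_deriv ?_
  field_simp
  ring

private theorem a11_image {h : ℝ} (hh : 0 < h) :
    (fun w : ℝ => h / (Real.exp w - 1)) '' Ioi 0 = Ioi 0 := by
  ext x
  constructor
  · rintro ⟨w, hw, rfl⟩
    exact div_pos hh (a11_exp_sub hw)
  · intro hx
    have hx : 0 < x := hx
    refine ⟨Real.log (1 + h / x), Real.log_pos (by have := div_pos hh hx; linarith), ?_⟩
    have : 0 < 1 + h / x := by positivity
    simp only
    rw [Real.exp_log this, add_sub_cancel_left, div_div_cancel₀ hh.ne']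

private theorem a11_inj {h : ℝ} (hh : 0 < h) :
    InjOn (fun w : ℝ => h / (Real.exp w - 1)) (Ioi 0) := by
  intro w hw v hv e
  have h1 := a11_exp_sub hw
  have h2 := a11_exp_sub hv
  simp only at e
  rw [div_eq_div_iff h1.ne' h2.ne'] at e
  have h3 : Real.exp v - 1 = Real.exp w - 1 := mul_left_cancel₀ hh.ne' e
  exact (Real.exp_injective (by linarith)).symm

theorem f_fourier {N G t : ℝ} (hN : 1 ≤ N) (hG : 4 ≤ G) (h : ℕ) (hh : 1 ≤ h) (m : ℤ) :
    ∫ x in Ioi (0 : ℝ), f N G t h x * cexp (2 * Real.pi * I * m * x) =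
      (-1) ^ (h * m) * II G t (h * m) ((h : ℝ) / N) := by
  have hh0 : (0 : ℝ) < h := by exact_mod_cast hh
  have hN0 : (0 : ℝ) < N := by linarith
  have key := integral_image_eq_integral_abs_deriv_smul (s := Ioi (0:ℝ)) measurableSet_Ioi
    (fun w hw => (a11_deriv (h := (h:ℝ)) hw).hasDerivWithinAt) (a11_inj hh0)
    (fun x : ℝ => f N G t h x * cexp (2 * Real.pi * I * m * x))
  rw [a11_image hh0] at key
  rw [key]
  unfold II
  rw [← integral_const_mul]
  refine setIntegral_congr_fun measurableSet_Ioi fun w hw => ?_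
  have hw : 0 < w := hw
  set S : ℝ := Real.sinh (w / 2) with hS
  set C : ℝ := Real.cosh (w / 2) with hC
  have hS0 : 0 < S := Real.sinh_pos_iff.2 (by positivity)
  set E : ℝ := Real.exp (w / 2) with hE
  have hE0 : 0 < E := Real.exp_pos _
  have eS : S = (E - E⁻¹) / 2 := by rw [hS, Real.sinh_eq, hE, Real.exp_neg]
  have eC : C = (E + E⁻¹) / 2 := by rw [hC, Real.cosh_eq, hE, Real.exp_neg]
  have eE : Real.exp w = E ^ 2 := by
    rw [hE, ← Real.exp_nat_mul]
    congr 1
    push_cast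
    ring
  have e1 : Real.exp w - 1 = 2 * E * S := by
    rw [eE, eS]
    field_simp
  have hx : (h : ℝ) / (Real.exp w - 1) = (h : ℝ) * (C / S) / 2 - h / 2 := by
    rw [e1]
    have : C = S + E⁻¹ := by rw [eS, eC]; ring
    rw [this]
    field_simp
    ring
  set x : ℝ := (h : ℝ) / (Real.exp w - 1) with hxd
  have hx0 : 0 < x := div_pos hh0 (a11_exp_sub hw)
  have hxh : x + h = h * E / (2 * S) := by
    rw [hxd, e1]
    have : E * E = 2 * E * S + 1 := by rw [eS]; field_simp; ring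
    field_simp
    nlinarith
  have hx' : x = h / (2 * E * S) := by rw [hxd, e1]
  have hlog : Real.log ((x + h) / x) = w := by
    have : (x + h) / x = Real.exp w := by
      rw [hxh, hx', eE]
      field_simp
    rw [this, Real.log_exp]
  have hsq : Real.sqrt (x * (x + h)) = h / (2 * S) := by
    have : x * (x + h) = (h / (2 * S)) ^ 2 := by
      rw [hxh, hx']
      field_simp
    rw [this, Real.sqrt_sq (by positivity)]
  have hder : |(-((h : ℝ) * Real.exp w / (Real.exp w - 1) ^ 2))| = h / (4 * S ^ 2) := by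
    rw [abs_neg, abs_of_pos (by have := a11_exp_sub hw; positivity), e1, eE]
    field_simp
    ring
  rw [hder]
  have hSc : Complex.sinh ((w : ℂ) / 2) = (S : ℂ) := by rw [hS]; push_cast; rfl
  have hCc : Complex.cosh ((w : ℂ) / 2) = (C : ℂ) := by rw [hC]; push_cast; rfl
  unfold f ker
  rw [hSc, hCc, hlog, hsq]
  have hS0' : (S : ℂ) ≠ 0 := by exact_mod_cast hS0.ne'
  have hh0' : ((h : ℝ) : ℂ) ≠ 0 := by exact_mod_cast hh0.ne'
  have hm1 : ((-1 : ℂ)) ^ ((h : ℤ) * m) = cexp (((h : ℤ) * m : ℤ) * (-(Real.pi * I))) := by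
    rw [Complex.exp_int_mul, Complex.exp_neg, Complex.exp_pi_mul_I]
    norm_num
  have hm2 : ((-1 : ℂ)) ^ ((h : ℤ) * m) = cexp (-(((h : ℤ) * m : ℤ) * (Real.pi * I))) := by
    rw [hm1]
    congr 1
    ring
  rw [hm2]
  have e2 : (2 * x + (h : ℝ)) / N = h * (C / S) / N := by rw [hx]; ring
  rw [e2, real_smul]
  have hxc : (x : ℂ) = (h : ℂ) * ((C : ℂ) / S) / 2 - h / 2 := by
    rw [hx]
    push_cast
    ring
  have hN' : (N : ℂ) ≠ 0 := by exact_mod_cast hN0.ne'
  have e3 : ((Real.exp (-(h * (C / S) / N)) : ℝ) : ℂ) * cexp ((t * I - G) * w) *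
      cexp (2 * Real.pi * I * m * x) = cexp (-(((h : ℤ) * m : ℤ) * (Real.pi * I))) *
      cexp (-((G - t * I) * w) + (Real.pi * I * ((h : ℤ) * m : ℤ) - ((h / N : ℝ) : ℂ)) * (C / S)) := by
    rw [ofReal_exp, ← Complex.exp_add, ← Complex.exp_add, ← Complex.exp_add]
    congr 1
    rw [hxc]
    push_cast
    field_simp
    ring
  have hh1 : (h : ℂ) ≠ 0 := by exact_mod_cast hh0.ne'
  rw [ofReal_mul]
  generalize ((Real.exp (-(h * (C / S) / N)) : ℝ) : ℂ) = A1 at e3 ⊢
  generalize cexp ((t * I - G) * w) = A2 at e3 ⊢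
  generalize cexp (2 * Real.pi * I * m * x) = A3 at e3 ⊢
  generalize cexp (-(((h : ℤ) * m : ℤ) * (Real.pi * I))) = B1 at e3 ⊢
  generalize cexp (-((G - t * I) * w) + (Real.pi * I * ((h : ℤ) * m : ℤ) - ((h / N : ℝ) : ℂ)) *
    (C / S)) = B2 at e3 ⊢
  calc _ = (A1 * A2 * A3) / (2 * (S : ℂ)) := by
        push_cast
        field_simp
        ring
    _ = _ := by
        rw [e3]
        ring

/-- exponent of `f` -/
private noncomputable def Ph (N G t h x : ℝ) : ℂ :=
  (G - t * I - 1 / 2) * (Real.log x : ℝ) - (G - t * I + 1 / 2) * (Real.log (x + h) : ℝ) -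
    (((2 * x + h) / N : ℝ) : ℂ)

private theorem f_eq {N G t h x : ℝ} (hh : 0 ≤ h) (hx : 0 < x) :
    f N G t h x = cexp (Ph N G t h x) := by
  have hxh : 0 < x + h := by linarith
  have e1 : (Real.sqrt (x * (x + h)))⁻¹ =
      Real.exp (-(1 / 2) * Real.log x - (1 / 2) * Real.log (x + h)) := by
    rw [Real.sqrt_eq_rpow, Real.rpow_def_of_pos (by positivity), ← Real.exp_neg,
      Real.log_mul hx.ne' hxh.ne']
    congr 1
    ring
  unfold f Ph
  rw [e1, ← Real.exp_add, Real.log_div hxh.ne' hx.ne', ofReal_exp, ← Complex.exp_add]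
  congr 1
  push_cast
  ring

private noncomputable def g1 (N G t h x : ℝ) : ℂ :=
  (G - t * I - 1 / 2) / x - (G - t * I + 1 / 2) / ((x + h : ℝ) : ℂ) - ((2 / N : ℝ) : ℂ)

private noncomputable def g2 (G t h x : ℝ) : ℂ :=
  -((G - t * I - 1 / 2) / (x : ℂ) ^ 2) + (G - t * I + 1 / 2) / ((x + h : ℝ) : ℂ) ^ 2

private theorem Ph_deriv {N G t h x : ℝ} (hh : 0 ≤ h) (hx : 0 < x) :
    HasDerivAt (Ph N G t h) (g1 N G t h x) x := by
  have hxh : 0 < x + h := by linarith
  have h1 : HasDerivAt (fun x : ℝ => ((Real.log x : ℝ) : ℂ)) ((x⁻¹ : ℝ) : ℂ) x :=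
    (Real.hasDerivAt_log hx.ne').ofReal_comp
  have h2 : HasDerivAt (fun x : ℝ => ((Real.log (x + h) : ℝ) : ℂ)) (((x + h)⁻¹ : ℝ) : ℂ) x := by
    have h3 : HasDerivAt (fun x : ℝ => Real.log (x + h)) (x + h)⁻¹ x := by
      have := ((hasDerivAt_id x).add_const h).log hxh.ne'
      simpa using this
    exact h3.ofReal_comp
  have h4 : HasDerivAt (fun x : ℝ => (((2 * x + h) / N : ℝ) : ℂ)) ((2 / N : ℝ) : ℂ) x := by
    have h3 : HasDerivAt (fun x : ℝ => (2 * x + h) / N) (2 / N) x := by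
      have := (((hasDerivAt_id x).const_mul 2).add_const h).div_const N
      simpa using this
    exact h3.ofReal_comp
  have h5 := ((h1.const_mul ((G : ℂ) - t * I - 1 / 2)).sub
    (h2.const_mul ((G : ℂ) - t * I + 1 / 2))).sub h4
  refine h5.congr_deriv ?_
  unfold g1
  push_cast
  ring

private theorem g1_deriv {N G t h x : ℝ} (hh : 0 ≤ h) (hx : 0 < x) :
    HasDerivAt (g1 N G t h) (g2 G t h x) x := by
  have hxh : 0 < x + h := by linarith
  have hx' : (x : ℂ) ≠ 0 := by exact_mod_cast hx.ne'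
  have hxh' : ((x + h : ℝ) : ℂ) ≠ 0 := by exact_mod_cast hxh.ne'
  have h1 : HasDerivAt (fun x : ℝ => (x : ℂ)) 1 x := (hasDerivAt_id x).ofReal_comp
  have h2 : HasDerivAt (fun x : ℝ => ((x + h : ℝ) : ℂ)) 1 x :=
    ((hasDerivAt_id x).add_const h).ofReal_comp
  have h3 := (((hasDerivAt_const x ((G : ℂ) - t * I - 1 / 2)).div h1 hx').sub
    ((hasDerivAt_const x ((G : ℂ) - t * I + 1 / 2)).div h2 hxh')).sub
    (hasDerivAt_const x ((2 / N : ℝ) : ℂ))
  refine h3.congr_deriv ?_
  unfold g2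
  ring

private noncomputable def F0 (N G t h x : ℝ) : ℂ := if 0 < x then cexp (Ph N G t h x) else 0
private noncomputable def F1 (N G t h x : ℝ) : ℂ :=
  if 0 < x then cexp (Ph N G t h x) * g1 N G t h x else 0
private noncomputable def F2 (N G t h x : ℝ) : ℂ :=
  if 0 < x then cexp (Ph N G t h x) * (g1 N G t h x ^ 2 + g2 G t h x) else 0

private theorem norm_F0 {N G t h x : ℝ} (hx : 0 < x) :
    ‖cexp (Ph N G t h x)‖ =
      Real.exp ((G - 1 / 2) * Real.log x - (G + 1 / 2) * Real.log (x + h) - (2 * x + h) / N) := by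
  rw [Complex.norm_exp]
  congr 1
  unfold Ph
  simp only [sub_re, mul_re, ofReal_re, ofReal_im, mul_zero, sub_zero, add_re]
  simp

private theorem bd0 {N G t h x : ℝ} (hN : 1 ≤ N) (hG : 4 ≤ G) (hh : 1 ≤ h) (hx : 0 < x) :
    (x ≤ 1 → ‖cexp (Ph N G t h x)‖ ≤ x ^ 3 * Real.exp (-(2 / N * x))) ∧
    (1 ≤ x → ‖cexp (Ph N G t h x)‖ ≤ Real.exp (-(2 / N * x))) := by
  rw [norm_F0 hx]
  have hxh : 1 ≤ x + h := by linarith
  have hl2 : 0 ≤ Real.log (x + h) := Real.log_nonneg hxh
  have hN0 : 0 < N := by linarith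
  have e1 : 2 / N * x ≤ (2 * x + h) / N := by
    rw [div_mul_eq_mul_div]
    gcongr
    linarith
  constructor
  · intro h1
    have hl1 : Real.log x ≤ 0 := Real.log_nonpos hx.le h1
    have e2 : x ^ 3 = Real.exp (3 * Real.log x) := by
      rw [mul_comm, Real.exp_mul, Real.exp_log hx]
      norm_num
    rw [e2, ← Real.exp_add]
    apply Real.exp_le_exp.2
    nlinarith
  · intro h1
    have hl1 : 0 ≤ Real.log x := Real.log_nonneg h1
    have hl3 : Real.log x ≤ Real.log (x + h) := Real.log_le_log hx (by linarith)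
    apply Real.exp_le_exp.2
    nlinarith

private theorem bd1 {N G t h x : ℝ} (hN : 1 ≤ N) (hG : 4 ≤ G) (hh : 1 ≤ h) (hx : 0 < x) :
    ‖cexp (Ph N G t h x)‖ * (1 + 1 / x) ^ 2 ≤ 4 * Real.exp (-(2 / N * x)) := by
  obtain ⟨h1, h2⟩ := bd0 (t := t) hN hG hh hx
  rcases le_total x 1 with h3 | h3
  · have e1 : 1 + 1 / x ≤ 2 / x := by
      rw [le_div_iff₀ hx]
      field_simp
      linarith
    calc ‖cexp (Ph N G t h x)‖ * (1 + 1 / x) ^ 2
        ≤ (x ^ 3 * Real.exp (-(2 / N * x))) * (2 / x) ^ 2 := by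
          gcongr
          exact h1 h3
      _ = 4 * (x * Real.exp (-(2 / N * x))) := by
          field_simp
          ring
      _ ≤ 4 * (1 * Real.exp (-(2 / N * x))) := by gcongr
      _ = _ := by ring
  · have e1 : 1 + 1 / x ≤ 2 := by
      have : 1 / x ≤ 1 := by
        rw [div_le_one hx]
        exact h3
      linarith
    calc ‖cexp (Ph N G t h x)‖ * (1 + 1 / x) ^ 2
        ≤ Real.exp (-(2 / N * x)) * 2 ^ 2 := by
          gcongr
          exact h2 h3
      _ = _ := by ring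

/-- constant -/
private noncomputable def cc (G t : ℝ) : ℝ := ‖(G : ℂ) - t * I - 1 / 2‖ + ‖(G : ℂ) - t * I + 1 / 2‖ + 2

private theorem bg1 {N G t h x : ℝ} (hN : 1 ≤ N) (hh : 1 ≤ h) (hx : 0 < x) :
    ‖g1 N G t h x‖ ≤ cc G t * (1 + 1 / x) := by
  have hxh : 1 ≤ x + h := by linarith
  have hN0 : 0 < N := by linarith
  have n1 := norm_nonneg ((G : ℂ) - t * I - 1 / 2)
  have n2 := norm_nonneg ((G : ℂ) - t * I + 1 / 2)
  have hx1 : 0 < 1 / x := by positivity
  unfold g1 cc
  calc _ ≤ ‖(G : ℂ) - t * I - 1 / 2‖ / x + ‖(G : ℂ) - t * I + 1 / 2‖ / (x + h) + 2 / N := by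
        refine (norm_sub_le _ _).trans (add_le_add ((norm_sub_le _ _).trans (add_le_add ?_ ?_)) ?_)
        · rw [norm_div, norm_real, Real.norm_of_nonneg hx.le]
        · rw [norm_div, norm_real, Real.norm_of_nonneg (by linarith)]
        · rw [norm_real, Real.norm_of_nonneg (by positivity)]
    _ ≤ ‖(G : ℂ) - t * I - 1 / 2‖ * (1 / x) + ‖(G : ℂ) - t * I + 1 / 2‖ + 2 := by
        refine add_le_add (add_le_add (le_of_eq (by ring)) ?_) ?_
        · exact div_le_self n2 hxh
        · exact div_le_self (by norm_num) hN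
    _ ≤ _ := by nlinarith

private theorem bg2 {G t h x : ℝ} (hh : 1 ≤ h) (hx : 0 < x) :
    ‖g2 G t h x‖ ≤ cc G t * (1 + 1 / x) ^ 2 := by
  have hxh : 1 ≤ x + h := by linarith
  have n1 := norm_nonneg ((G : ℂ) - t * I - 1 / 2)
  have n2 := norm_nonneg ((G : ℂ) - t * I + 1 / 2)
  have hx1 : 0 < 1 / x := by positivity
  unfold g2 cc
  calc _ ≤ ‖(G : ℂ) - t * I - 1 / 2‖ / x ^ 2 + ‖(G : ℂ) - t * I + 1 / 2‖ / (x + h) ^ 2 := by
        refine (norm_add_le _ _).trans (add_le_add ?_ ?_)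
        · rw [norm_neg, norm_div, norm_pow, norm_real, Real.norm_of_nonneg hx.le]
        · rw [norm_div, norm_pow, norm_real, Real.norm_of_nonneg (by linarith)]
    _ ≤ ‖(G : ℂ) - t * I - 1 / 2‖ * (1 / x) ^ 2 + ‖(G : ℂ) - t * I + 1 / 2‖ := by
        refine add_le_add (le_of_eq (by ring)) ?_
        exact div_le_self n2 (one_le_pow₀ hxh)
    _ ≤ _ := by nlinarith [mul_nonneg n1 hx1.le, mul_nonneg n2 hx1.le, mul_nonneg n2 (sq_nonneg (1 / x))]

private theorem cc_pos (G t : ℝ) : 2 ≤ cc G t := by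
  unfold cc
  have n1 := norm_nonneg ((G : ℂ) - t * I - 1 / 2)
  have n2 := norm_nonneg ((G : ℂ) - t * I + 1 / 2)
  linarith

private theorem bF0 {N G t h : ℝ} (hN : 1 ≤ N) (hG : 4 ≤ G) (hh : 1 ≤ h) (x : ℝ) :
    ‖F0 N G t h x‖ ≤ (Ioi (0 : ℝ)).indicator (fun x => 4 * Real.exp (-(2 / N * x))) x := by
  unfold F0
  by_cases hx : 0 < x
  · rw [if_pos hx, indicator_of_mem (show x ∈ Ioi 0 from hx)]
    have h1 := bd1 (t := t) hN hG hh hx
    have h0 : 0 < 1 / x := by positivity
    have h2 : (1 : ℝ) ≤ (1 + 1 / x) ^ 2 := one_le_pow₀ (by linarith)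
    have h3 := norm_nonneg (cexp (Ph N G t h x))
    nlinarith
  · rw [if_neg hx, indicator_of_notMem (show x ∉ Ioi 0 from hx), norm_zero]

private theorem bF1 {N G t h : ℝ} (hN : 1 ≤ N) (hG : 4 ≤ G) (hh : 1 ≤ h) (x : ℝ) :
    ‖F1 N G t h x‖ ≤ cc G t * (Ioi (0 : ℝ)).indicator (fun x => 4 * Real.exp (-(2 / N * x))) x := by
  unfold F1
  by_cases hx : 0 < x
  · rw [if_pos hx, indicator_of_mem (show x ∈ Ioi 0 from hx), norm_mul]
    have h1 := bd1 (t := t) hN hG hh hx
    have h4 := bg1 (G := G) (t := t) hN hh hx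
    have h5 : (1 : ℝ) ≤ 1 + 1 / x := by
      have : 0 < 1 / x := by positivity
      linarith
    have h6 := cc_pos G t
    calc ‖cexp (Ph N G t h x)‖ * ‖g1 N G t h x‖
        ≤ ‖cexp (Ph N G t h x)‖ * (cc G t * (1 + 1 / x)) := by gcongr
      _ ≤ ‖cexp (Ph N G t h x)‖ * (cc G t * (1 + 1 / x) ^ 2) := by
          gcongr
          nlinarith
      _ = cc G t * (‖cexp (Ph N G t h x)‖ * (1 + 1 / x) ^ 2) := by ring
      _ ≤ _ := by gcongr
  · rw [if_neg hx, indicator_of_notMem (show x ∉ Ioi 0 from hx), norm_zero, mul_zero]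

private theorem bF2 {N G t h : ℝ} (hN : 1 ≤ N) (hG : 4 ≤ G) (hh : 1 ≤ h) (x : ℝ) :
    ‖F2 N G t h x‖ ≤ (cc G t ^ 2 + cc G t) *
      (Ioi (0 : ℝ)).indicator (fun x => 4 * Real.exp (-(2 / N * x))) x := by
  unfold F2
  by_cases hx : 0 < x
  · rw [if_pos hx, indicator_of_mem (show x ∈ Ioi 0 from hx), norm_mul]
    have h1 := bd1 (t := t) hN hG hh hx
    have h4 := bg1 (G := G) (t := t) hN hh hx
    have h5 := bg2 (G := G) (t := t) hh hx
    have h6 := cc_pos G t
    have h7 : ‖g1 N G t h x ^ 2 + g2 G t h x‖ ≤ (cc G t ^ 2 + cc G t) * (1 + 1 / x) ^ 2 := by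
      refine (norm_add_le _ _).trans ?_
      rw [norm_pow]
      calc ‖g1 N G t h x‖ ^ 2 + ‖g2 G t h x‖
          ≤ (cc G t * (1 + 1 / x)) ^ 2 + cc G t * (1 + 1 / x) ^ 2 := by gcongr
        _ = _ := by ring
    calc ‖cexp (Ph N G t h x)‖ * ‖g1 N G t h x ^ 2 + g2 G t h x‖
        ≤ ‖cexp (Ph N G t h x)‖ * ((cc G t ^ 2 + cc G t) * (1 + 1 / x) ^ 2) := by gcongr
      _ = (cc G t ^ 2 + cc G t) * (‖cexp (Ph N G t h x)‖ * (1 + 1 / x) ^ 2) := by ring
      _ ≤ _ := by gcongr
  · rw [if_neg hx, indicator_of_notMem (show x ∉ Ioi 0 from hx), norm_zero, mul_zero]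

private theorem int_bd {N : ℝ} (hN : 1 ≤ N) :
    Integrable ((Ioi (0 : ℝ)).indicator (fun x => 4 * Real.exp (-(2 / N * x)))) := by
  rw [integrable_indicator_iff measurableSet_Ioi]
  have : 0 < 2 / N := by positivity
  refine Integrable.const_mul ?_ 4
  refine (exp_neg_integrableOn_Ioi 0 this).congr_fun (fun x _ => ?_) measurableSet_Ioi
  simp only
  congr 1
  ring

/-- differentiability at zero -/
private theorem zero_deriv {F : ℝ → ℂ} {K : ℝ} (h0 : F 0 = 0)
    (h : ∀ y : ℝ, |y| ≤ 1 → ‖F y‖ ≤ K * y ^ 2) : HasDerivAt F 0 0 := by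
  rw [hasDerivAt_iff_isLittleO_nhds_zero]
  simp only [zero_add, h0, smul_zero, sub_zero]
  have h1 : F =O[nhds 0] fun y : ℝ => y ^ 2 := by
    refine Asymptotics.IsBigO.of_bound K ?_
    have : Metric.ball (0:ℝ) 1 ∈ nhds (0:ℝ) := Metric.ball_mem_nhds 0 one_pos
    filter_upwards [this] with y hy
    rw [Metric.mem_ball, dist_zero_right, Real.norm_eq_abs] at hy
    rw [norm_pow, Real.norm_eq_abs, sq_abs]
    exact h y hy.le
  exact h1.trans_isLittleO (Asymptotics.isLittleO_pow_id one_lt_two)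

private theorem F0_deriv {N G t h : ℝ} (hN : 1 ≤ N) (hG : 4 ≤ G) (hh : 1 ≤ h) (x : ℝ) :
    HasDerivAt (F0 N G t h) (F1 N G t h x) x := by
  have hN0 : 0 < N := by linarith
  rcases lt_trichotomy x 0 with hx | hx | hx
  · have e : F1 N G t h x = 0 := by
      unfold F1
      rw [if_neg (by linarith)]
    rw [e]
    refine (hasDerivAt_const x (0 : ℂ)).congr_of_eventuallyEq ?_
    filter_upwards [Iio_mem_nhds hx] with y hy
    have hy : y < 0 := hy
    unfold F0
    rw [if_neg (by linarith)]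
  · subst hx
    have e : F1 N G t h 0 = 0 := by simp [F1]
    rw [e]
    refine zero_deriv (K := 1) (by simp [F0]) fun y hy => ?_
    unfold F0
    by_cases hy0 : 0 < y
    · rw [if_pos hy0]
      have hy1 : y ≤ 1 := (le_abs_self y).trans hy
      refine ((bd0 (t := t) hN hG hh hy0).1 hy1).trans ?_
      have : Real.exp (-(2 / N * y)) ≤ 1 := by
        rw [Real.exp_le_one_iff]
        have : 0 < 2 / N * y := by positivity
        linarith
      calc y ^ 3 * Real.exp (-(2 / N * y)) ≤ y ^ 3 * 1 := by gcongr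
        _ = y * y ^ 2 := by ring
        _ ≤ 1 * y ^ 2 := by gcongr
    · rw [if_neg hy0, norm_zero]
      positivity
  · have e : F1 N G t h x = cexp (Ph N G t h x) * g1 N G t h x := by
      unfold F1
      rw [if_pos hx]
    rw [e]
    refine ((Ph_deriv (by linarith) hx).cexp).congr_of_eventuallyEq ?_
    filter_upwards [Ioi_mem_nhds hx] with y hy
    have hy : 0 < y := hy
    unfold F0
    rw [if_pos hy]

private theorem F1_deriv {N G t h : ℝ} (hN : 1 ≤ N) (hG : 4 ≤ G) (hh : 1 ≤ h) (x : ℝ) :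
    HasDerivAt (F1 N G t h) (F2 N G t h x) x := by
  have hN0 : 0 < N := by linarith
  rcases lt_trichotomy x 0 with hx | hx | hx
  · have e : F2 N G t h x = 0 := by
      unfold F2
      rw [if_neg (by linarith)]
    rw [e]
    refine (hasDerivAt_const x (0 : ℂ)).congr_of_eventuallyEq ?_
    filter_upwards [Iio_mem_nhds hx] with y hy
    have hy : y < 0 := hy
    unfold F1
    rw [if_neg (by linarith)]
  · subst hx
    have e : F2 N G t h 0 = 0 := by simp [F2]
    rw [e]
    refine zero_deriv (K := 2 * cc G t) (by simp [F1]) fun y hy => ?_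
    have h6 := cc_pos G t
    unfold F1
    by_cases hy0 : 0 < y
    · rw [if_pos hy0, norm_mul]
      have hy1 : y ≤ 1 := (le_abs_self y).trans hy
      have h1 := (bd0 (t := t) hN hG hh hy0).1 hy1
      have h2 := bg1 (G := G) (t := t) hN hh hy0
      have h3 : Real.exp (-(2 / N * y)) ≤ 1 := by
        rw [Real.exp_le_one_iff]
        have : 0 < 2 / N * y := by positivity
        linarith
      have h4 : 1 + 1 / y ≤ 2 / y := by
        rw [le_div_iff₀ hy0]
        field_simp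
        linarith
      calc ‖cexp (Ph N G t h y)‖ * ‖g1 N G t h y‖
          ≤ (y ^ 3 * 1) * (cc G t * (2 / y)) := by
            gcongr
            · exact h1.trans (by gcongr)
            · exact h2.trans (by gcongr)
        _ = 2 * cc G t * y ^ 2 := by
            field_simp
    · rw [if_neg hy0, norm_zero]
      positivity
  · have e : F2 N G t h x = cexp (Ph N G t h x) * g1 N G t h x * g1 N G t h x +
        cexp (Ph N G t h x) * g2 G t h x := by
      unfold F2
      rw [if_pos hx]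
      ring
    rw [e]
    refine (((Ph_deriv (by linarith) hx).cexp).mul
      (g1_deriv (N := N) (G := G) (t := t) (by linarith) hx)).congr_of_eventuallyEq ?_
    filter_upwards [Ioi_mem_nhds hx] with y hy
    have hy : 0 < y := hy
    unfold F1
    rw [if_pos hy]
    rfl

open scoped FourierTransform

private theorem F0_cont {N G t h : ℝ} (hN : 1 ≤ N) (hG : 4 ≤ G) (hh : 1 ≤ h) :
    Continuous (F0 N G t h) :=
  continuous_iff_continuousAt.2 fun x => (F0_deriv hN hG hh x).continuousAt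

private theorem F0_int {N G t h : ℝ} (hN : 1 ≤ N) (hG : 4 ≤ G) (hh : 1 ≤ h) :
    Integrable (F0 N G t h) :=
  Integrable.mono' (int_bd hN) (F0_cont hN hG hh).aestronglyMeasurable
    (Filter.Eventually.of_forall (bF0 hN hG hh))

private theorem F1_int {N G t h : ℝ} (hN : 1 ≤ N) (hG : 4 ≤ G) (hh : 1 ≤ h) :
    Integrable (F1 N G t h) := by
  have hc : Continuous (F1 N G t h) :=
    continuous_iff_continuousAt.2 fun x => (F1_deriv hN hG hh x).continuousAt
  exact Integrable.mono' ((int_bd hN).const_mul (cc G t)) hc.aestronglyMeasurable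
    (Filter.Eventually.of_forall (bF1 hN hG hh))

private theorem F2_int {N G t h : ℝ} (hN : 1 ≤ N) (hG : 4 ≤ G) (hh : 1 ≤ h) :
    Integrable (F2 N G t h) := by
  have hm : AEStronglyMeasurable (F2 N G t h) volume := by
    have : F2 N G t h = deriv (F1 N G t h) := by
      ext x
      exact (F1_deriv hN hG hh x).deriv.symm
    rw [this]
    exact aestronglyMeasurable_deriv _ _
  exact Integrable.mono' ((int_bd hN).const_mul (cc G t ^ 2 + cc G t)) hm
    (Filter.Eventually.of_forall (bF2 hN hG hh))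

private theorem four_bd {N G t h : ℝ} (hN : 1 ≤ N) (hG : 4 ≤ G) (hh : 1 ≤ h) :
    ∃ K : ℝ, ∀ x : ℝ, x ≠ 0 → ‖𝓕 (F0 N G t h) x‖ ≤ K * (1 / x ^ 2) := by
  have d0 : deriv (F0 N G t h) = F1 N G t h := by
    ext x
    exact (F0_deriv hN hG hh x).deriv
  have d1 : deriv (F1 N G t h) = F2 N G t h := by
    ext x
    exact (F1_deriv hN hG hh x).deriv
  have e0 := Real.fourier_deriv (F0_int (t := t) hN hG hh)
    (fun x => (F0_deriv hN hG hh x).differentiableAt) (by rw [d0]; exact F1_int hN hG hh)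
  have e1 := Real.fourier_deriv (F1_int (t := t) hN hG hh)
    (fun x => (F1_deriv hN hG hh x).differentiableAt) (by rw [d1]; exact F2_int hN hG hh)
  rw [d0] at e0
  rw [d1, e0] at e1
  refine ⟨∫ x, ‖F2 N G t h x‖, fun x hx => ?_⟩
  have h1 : ‖𝓕 (F2 N G t h) x‖ ≤ ∫ x, ‖F2 N G t h x‖ := by
    exact VectorFourier.norm_fourierIntegral_le_integral_norm _ _ _ _ _
  have h2 := congrFun e1 x
  simp only at h2
  rw [h2, norm_smul, norm_smul] at h1
  have h3 : ‖(2 * Real.pi * I * x : ℂ)‖ = 2 * Real.pi * |x| := by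
    rw [norm_mul, norm_mul, norm_mul, norm_I, norm_real, norm_real, Real.norm_eq_abs,
      Real.norm_eq_abs, abs_of_pos Real.pi_pos]
    norm_num
  rw [h3] at h1
  have hx2 : 0 < x ^ 2 := by positivity
  have h4 : x ^ 2 ≤ (2 * Real.pi * |x|) * (2 * Real.pi * |x|) := by
    have h5 : 1 ≤ 2 * Real.pi := by
      have := Real.pi_gt_three
      linarith
    have h6 : (2 * Real.pi * |x|) * (2 * Real.pi * |x|) = (2 * Real.pi) ^ 2 * x ^ 2 := by
      rw [← sq_abs x]
      ring
    rw [h6]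
    nlinarith [one_le_pow₀ (n := 2) h5]
  rw [mul_one_div, le_div_iff₀ hx2]
  calc ‖𝓕 (F0 N G t h) x‖ * x ^ 2
      ≤ ‖𝓕 (F0 N G t h) x‖ * ((2 * Real.pi * |x|) * (2 * Real.pi * |x|)) := by gcongr
    _ = 2 * Real.pi * |x| * (2 * Real.pi * |x| * ‖𝓕 (F0 N G t h) x‖) := by ring
    _ ≤ _ := h1

private theorem four_sum {N G t h : ℝ} (hN : 1 ≤ N) (hG : 4 ≤ G) (hh : 1 ≤ h) :
    Summable (fun m : ℤ => ‖𝓕 (F0 N G t h) (m : ℝ)‖) := by
  obtain ⟨K, hK⟩ := four_bd (t := t) hN hG hh
  have h1 : Summable (fun m : ℤ => K * (1 / (m : ℝ) ^ 2)) :=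
    (Real.summable_one_div_int_pow.2 one_lt_two).mul_left K
  refine Summable.of_norm_bounded_eventually h1 ?_
  rw [Filter.eventually_cofinite]
  refine (Set.finite_singleton (0 : ℤ)).subset fun m hm => ?_
  by_contra hne
  refine hm ?_
  rw [norm_norm]
  exact hK m (by exact_mod_cast hne)

private theorem four_eq {N G t : ℝ} (hN : 1 ≤ N) (hG : 4 ≤ G) (h : ℕ) (hh : 1 ≤ h) (m : ℤ) :
    𝓕 (F0 N G t h) ((-m : ℤ) : ℝ) = (-1 : ℂ) ^ (h * m) * II G t (h * m) ((h : ℝ) / N) := by
  rw [← f_fourier hN hG h hh m, Real.fourier_real_eq_integral_exp_smul,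
    ← integral_indicator measurableSet_Ioi]
  congr 1
  ext x
  by_cases hx : 0 < x
  · rw [indicator_of_mem (show x ∈ Ioi 0 from hx), f_eq (by positivity) hx]
    unfold F0
    rw [if_pos hx, smul_eq_mul, mul_comm]
    congr 2
    push_cast
    ring
  · rw [indicator_of_notMem (show x ∉ Ioi 0 from hx)]
    unfold F0
    rw [if_neg hx, smul_zero]

theorem II_summable {N G t : ℝ} (hN : 1 ≤ N) (hG : 4 ≤ G) (h : ℕ) (hh : 1 ≤ h) :
    Summable (fun m : ℤ => ‖II G t (h * m) ((h : ℝ) / N)‖) := by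
  have hh' : (1 : ℝ) ≤ h := by exact_mod_cast hh
  have h1 := (Equiv.neg ℤ).summable_iff.2 (four_sum (t := t) hN hG hh')
  refine h1.congr fun m => ?_
  simp only [Function.comp_apply, Equiv.neg_apply]
  rw [four_eq hN hG h hh m, norm_mul, norm_zpow, norm_neg, norm_one, one_zpow, one_mul]

theorem poisson_h {N G t : ℝ} (hN : 1 ≤ N) (hG : 4 ≤ G) (h : ℕ) (hh : 1 ≤ h) :
    ∑' n : ℕ, f N G t h (n + 1) = ∑' m : ℤ, (-1 : ℂ) ^ (h * m) * II G t (h * m) ((h : ℝ) / N) := by
  have hh' : (1 : ℝ) ≤ h := by exact_mod_cast hh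
  have hN0 : 0 < N := by linarith
  have hO : (F0 N G t h) =O[Filter.cocompact ℝ] (fun x : ℝ => |x| ^ (-2 : ℝ)) := by
    refine Asymptotics.IsBigO.of_bound (2 * N ^ 2) (Filter.Eventually.of_forall fun x => ?_)
    rw [Real.norm_of_nonneg (by positivity)]
    by_cases hx : 0 < x
    · have h1 := bF0 (t := t) hN hG hh' x
      rw [indicator_of_mem (show x ∈ Ioi 0 from hx)] at h1
      refine h1.trans ?_
      rw [abs_of_pos hx, Real.rpow_neg hx.le, Real.rpow_two, Real.exp_neg]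
      set y : ℝ := 2 / N * x with hy
      have hy0 : 0 < y := by positivity
      have h2 : y ^ 2 / 2 ≤ Real.exp y := by
        have := Real.quadratic_le_exp_of_nonneg hy0.le
        linarith
      have h3 : (Real.exp y)⁻¹ ≤ (y ^ 2 / 2)⁻¹ := inv_anti₀ (by positivity) h2
      calc 4 * (Real.exp y)⁻¹ ≤ 4 * (y ^ 2 / 2)⁻¹ := by gcongr
        _ = 2 * N ^ 2 * (x ^ 2)⁻¹ := by
            rw [hy]
            field_simp
            ring
    · unfold F0
      rw [if_neg hx, norm_zero]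
      positivity
  have hP := Real.tsum_eq_tsum_fourier_of_rpow_decay_of_summable (F0_cont (t := t) hN hG hh')
    one_lt_two hO (four_sum hN hG hh').of_norm 0
  have e1 : ∑' n : ℤ, F0 N G t h (0 + (n : ℝ)) = ∑' n : ℕ, f N G t h (n + 1) := by
    have hinj : Function.Injective (fun n : ℕ => (n : ℤ) + 1) := by
      intro a b hab
      simpa using hab
    rw [← hinj.tsum_eq]
    · refine tsum_congr fun n => ?_
      have hn : (0 : ℝ) < (n : ℝ) + 1 := by positivity
      rw [f_eq (by positivity) hn]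
      unfold F0
      push_cast
      rw [zero_add, if_pos hn]
    · intro n hn
      rw [Function.mem_support] at hn
      have h1 : 0 < n := by
        by_contra hc
        apply hn
        unfold F0
        rw [zero_add, if_neg]
        push Not at hc ⊢
        exact_mod_cast hc
      exact ⟨(n - 1).toNat, by simp only; omega⟩
  rw [e1] at hP
  rw [hP, ← (Equiv.neg ℤ).tsum_eq]
  refine tsum_congr fun m => ?_
  rw [Equiv.neg_apply, four_eq hN hG h hh m]
  simp
end U6
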