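import Pool.Agent.Lib.MP_39df77_nt.U6.A02
/-! A14: continuity in `t` (dominated convergence, uniform absolute convergence). -/
open Complex MeasureTheory Set
namespace U6

private theorem A14_geo {N : ℝ} (hN : 0 < N) :
    Summable (fun n : ℕ => Real.exp (-((n + 1 : ℝ) / N))) := by
  have e : ∀ n : ℕ, Real.exp (-((n + 1 : ℝ) / N)) =
      Real.exp (-(1 / N)) * Real.exp (-(1 / N)) ^ n := by
    intro n
    rw [← Real.exp_nat_mul, ← Real.exp_add]
    congr 1
    ring
  simp_rw [e]
  refine (summable_geometric_of_lt_one (Real.exp_pos _).le ?_).mul_left _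
  rw [Real.exp_lt_one_iff]
  have : 0 < 1 / N := by positivity
  linarith

private theorem A14_term (N t : ℝ) (n : ℕ) :
    ‖((n + 1 : ℝ) : ℂ) ^ (-(1 / 2 + t * I)) * (Real.exp (-((n + 1 : ℝ) / N)) : ℂ)‖ ≤
      Real.exp (-((n + 1 : ℝ) / N)) := by
  have h0 : (0 : ℝ) < (n : ℝ) + 1 := by positivity
  have h1 : (0 : ℝ) ≤ n := Nat.cast_nonneg n
  rw [norm_mul, Complex.norm_cpow_eq_rpow_re_of_pos h0, Complex.norm_real, Real.norm_eq_abs,
    abs_of_pos (Real.exp_pos _)]
  refine mul_le_of_le_one_left (Real.exp_pos _).le ?_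
  refine Real.rpow_le_one_of_one_le_of_nonpos (by linarith) ?_
  simp

theorem D_cont {N : ℝ} (hN : 1 ≤ N) : Continuous (fun t : ℝ => D N t) := by
  have h0 : 0 < N := by linarith
  unfold D
  refine continuous_tsum (fun n => ?_) (A14_geo h0) (fun n t => A14_term N t n)
  have h1 : (((n : ℝ) + 1 : ℝ) : ℂ) ≠ 0 := by
    have : (0 : ℝ) < (n : ℝ) + 1 := by positivity
    exact_mod_cast this.ne'
  refine Continuous.mul ?_ continuous_const
  exact Continuous.const_cpow (by fun_prop) (Or.inl h1)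

private theorem A14_D_le {N : ℝ} (hN : 1 ≤ N) (t : ℝ) :
    ‖D N t‖ ≤ ∑' n : ℕ, Real.exp (-((n + 1 : ℝ) / N)) := by
  have h0 : 0 < N := by linarith
  unfold D
  exact tsum_of_norm_bounded (A14_geo h0).hasSum (fun n => A14_term N t n)

theorem B_cont {N G : ℝ} (hN : 1 ≤ N) (hG : 0 < G) : Continuous (fun t : ℝ => B N G t) := by
  unfold B
  have hD := D_cont hN
  have hP := P_integrable hG
  set S : ℝ := ∑' n : ℕ, Real.exp (-((n + 1 : ℝ) / N)) with hS
  refine continuous_of_dominated (bound := fun u => S ^ 2 * ‖P G u‖) ?_ ?_ ?_ ?_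
  · intro t
    refine AEStronglyMeasurable.mul ?_ hP.aestronglyMeasurable
    refine Continuous.aestronglyMeasurable ?_
    exact (hD.comp (by fun_prop : Continuous fun u : ℝ => t + u)).norm.pow 2
  · intro t
    refine Filter.Eventually.of_forall fun u => ?_
    rw [norm_mul]
    refine mul_le_mul_of_nonneg_right ?_ (norm_nonneg _)
    rw [Real.norm_eq_abs, abs_of_nonneg (by positivity)]
    exact pow_le_pow_left₀ (norm_nonneg _) (A14_D_le hN (t + u)) 2
  · exact hP.norm.const_mul _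
  · refine Filter.Eventually.of_forall fun u => ?_
    refine Continuous.mul ?_ continuous_const
    exact (hD.comp (by fun_prop : Continuous fun t : ℝ => t + u)).norm.pow 2

private theorem A14_coth {w : ℝ} :
    Complex.cosh ((w : ℂ) / 2) / Complex.sinh ((w : ℂ) / 2) =
      ((Real.cosh (w / 2) / Real.sinh (w / 2) : ℝ) : ℂ) := by
  push_cast
  rfl

private theorem A14_ker_norm (G t ρ w : ℝ) (hw : 0 < w) :
    ‖ker (G - t * I) (Real.pi * I * ((0 : ℤ) : ℂ) - ρ) w‖ =
      Real.exp (-(G * w)) * Real.exp (-(ρ * (Real.cosh (w / 2) / Real.sinh (w / 2)))) /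
        (2 * Real.sinh (w / 2)) := by
  have hs : 0 < Real.sinh (w / 2) := Real.sinh_pos_iff.mpr (by linarith)
  unfold ker
  rw [A14_coth, norm_div, norm_mul]
  have e1 : ‖Complex.sinh ((w : ℂ) / 2)‖ = Real.sinh (w / 2) := by
    have : Complex.sinh ((w : ℂ) / 2) = ((Real.sinh (w / 2) : ℝ) : ℂ) := by
      push_cast
      rfl
    rw [this, Complex.norm_real, Real.norm_eq_abs, abs_of_pos hs]
  have e2 : ‖(2 : ℂ)‖ = 2 := by simp
  rw [e1, e2, Complex.norm_exp, ← Real.exp_add]
  congr 2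
  generalize Real.cosh (w / 2) / Real.sinh (w / 2) = y
  simp only [Int.cast_zero, mul_zero, zero_sub]
  simp [Complex.mul_re]

private theorem A14_ker_le {G t ρ w : ℝ} (hρ : 0 < ρ) (hw : 0 < w) :
    ‖ker (G - t * I) (Real.pi * I * ((0 : ℤ) : ℂ) - ρ) w‖ ≤ Real.exp (-(G * w)) / ρ ^ 2 := by
  rw [A14_ker_norm G t ρ w hw]
  have hs : 0 < Real.sinh (w / 2) := Real.sinh_pos_iff.mpr (by linarith)
  have hc : 1 ≤ Real.cosh (w / 2) := Real.one_le_cosh _
  have hsc : Real.sinh (w / 2) < Real.cosh (w / 2) := by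
    have := Real.cosh_sub_sinh (w / 2)
    have := Real.exp_pos (-(w / 2))
    linarith
  set s := Real.sinh (w / 2)
  set c := Real.cosh (w / 2)
  set x := ρ * (c / s) with hx
  have hx0 : 0 < x := by positivity
  have e1 : Real.exp (-x) ≤ 2 / x ^ 2 := by
    rw [Real.exp_neg, inv_le_comm₀ (Real.exp_pos _) (by positivity), inv_div]
    have := Real.quadratic_le_exp_of_nonneg hx0.le
    linarith
  have e2 : Real.exp (-x) / (2 * s) ≤ 1 / ρ ^ 2 := by
    calc Real.exp (-x) / (2 * s) ≤ (2 / x ^ 2) / (2 * s) :=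
          div_le_div_of_nonneg_right e1 (by positivity)
      _ = s / c ^ 2 / ρ ^ 2 := by
          rw [hx]
          field_simp
      _ ≤ 1 / ρ ^ 2 := by
          refine div_le_div_of_nonneg_right ?_ (by positivity)
          rw [div_le_one (by positivity)]
          nlinarith
  calc Real.exp (-(G * w)) * Real.exp (-x) / (2 * s) = Real.exp (-(G * w)) * (Real.exp (-x) / (2 * s)) := by ring
    _ ≤ Real.exp (-(G * w)) * (1 / ρ ^ 2) := mul_le_mul_of_nonneg_left e2 (Real.exp_pos _).le
    _ = Real.exp (-(G * w)) / ρ ^ 2 := by ring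

private theorem A14_exp_int {G : ℝ} (hG : 1 ≤ G) :
    IntegrableOn (fun w : ℝ => Real.exp (-(G * w))) (Ioi 0) := by
  have := integrableOn_exp_mul_Ioi (a := -G) (by linarith) 0
  refine this.congr_fun (fun w _ => ?_) measurableSet_Ioi
  simp only
  congr 1
  ring

private theorem A14_ker_meas (α β : ℂ) : Measurable (fun w : ℝ => ker α β w) := by
  unfold ker
  fun_prop

private theorem A14_II_cont {G : ℝ} (hG : 1 ≤ G) {ρ : ℝ} (hρ : 0 < ρ) :
    Continuous (fun t : ℝ => II G t 0 ρ) := by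
  unfold II
  refine continuous_of_dominated (bound := fun w => Real.exp (-(G * w)) / ρ ^ 2) ?_ ?_ ?_ ?_
  · intro t
    exact (A14_ker_meas _ _).aestronglyMeasurable
  · intro t
    refine (ae_restrict_iff' measurableSet_Ioi).mpr (Filter.Eventually.of_forall fun w hw => ?_)
    exact A14_ker_le hρ hw
  · exact (A14_exp_int hG).div_const _
  · refine Filter.Eventually.of_forall fun w => ?_
    unfold ker
    fun_prop

private theorem A14_II_le {G t : ℝ} (hG : 1 ≤ G) {ρ : ℝ} (hρ : 0 < ρ) :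
    ‖II G t 0 ρ‖ ≤ (∫ w in Ioi (0 : ℝ), Real.exp (-(G * w))) / ρ ^ 2 := by
  unfold II
  rw [← integral_div]
  refine norm_integral_le_of_norm_le ((A14_exp_int hG).div_const _) ?_
  refine (ae_restrict_iff' measurableSet_Ioi).mpr (Filter.Eventually.of_forall fun w hw => ?_)
  exact A14_ker_le hρ hw

theorem M0_cont {N G : ℝ} (hN : 1 ≤ N) (hG : 1 ≤ G) : Continuous (fun t : ℝ => M0 N G t) := by
  have h0 : 0 < N := by linarith
  unfold M0
  refine continuous_const.mul (Complex.continuous_re.comp ?_)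
  set c : ℝ := ∫ w in Ioi (0 : ℝ), Real.exp (-(G * w)) with hc
  have hs : Summable (fun h : ℕ => c * N ^ 2 * (1 / ((h : ℝ) + 1) ^ 2)) := by
    refine Summable.mul_left _ ?_
    have := (summable_nat_add_iff 1).mpr (Real.summable_one_div_nat_pow.mpr (by norm_num : 1 < 2))
    refine this.congr fun h => ?_
    push_cast
    rfl
  refine continuous_tsum (fun h => A14_II_cont hG (ρ := ((h : ℝ) + 1) / N) (by positivity)) hs
    (fun h t => ?_)
  refine (A14_II_le hG (t := t) (ρ := ((h : ℝ) + 1) / N) (by positivity)).trans (le_of_eq ?_)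
  rw [← hc]
  field_simp

theorem Z_cont {N G : ℝ} (hN : 1 ≤ N) (hG : 1 ≤ G) : Continuous (fun t : ℝ => Z N G t) := by
  unfold Z
  exact ((B_cont hN (by linarith)).sub continuous_const).sub (M0_cont hN hG)
end U6
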