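import Pool.Agent.Lib.MP_39df77_nt.U6.A04
import Pool.Agent.Lib.MP_39df77_nt.U6.A05
/-! B01: `II` versus the Bessel type integral. `coth(w/2) = 2/w + w/6 + O(w³)`, `2 sinh(w/2) = w(1+O(w²))`.
On `0 < w ≤ w₁ = T^ε/G`: amplitude `A = (Bf(w) - 1) e^{-Gw-2ρ/w}/w`,
`Bf = exp((πik-ρ)(coth(w/2)-2/w) - πikw/6) · w/(2 sinh(w/2))`, `|Bf - 1| ≤ C(kw³+ρw+w²)`, `|Bf'| ≤ C(kw²+ρ+w)`,
phase `Φ = (t+πk/6) w + 2πk/w`, `Φ'' = 4πk/w³ ≥ 4πk/w₁³`; A04 gives `≤ C (w₁³/k)^{1/2} (k w₁² + ρ + w₁)`.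
`w > w₁`: trivial, `e^{-T^ε}`. -/
open Complex MeasureTheory Set
namespace U6
namespace B01h

theorem b01_sinh {x : ℝ} (h0 : 0 ≤ x) (h1 : x ≤ 1) : |Real.sinh x - x - x ^ 3 / 6| ≤ x ^ 5 / 100 := by
  have e1 := Real.exp_bound (x := x) (by rw [abs_of_nonneg h0]; exact h1) (n := 5) (by norm_num)
  have e2 := Real.exp_bound (x := -x) (by rw [abs_neg, abs_of_nonneg h0]; exact h1) (n := 5) (by norm_num)
  simp only [Finset.sum_range_succ, Finset.sum_range_zero, Nat.factorial, abs_neg, abs_of_nonneg h0] at e1 e2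
  norm_num at e1 e2
  rw [Real.sinh_eq]
  rw [abs_le] at *
  constructor <;> nlinarith [e1.1, e1.2, e2.1, e2.2]

theorem b01_cosh {x : ℝ} (h0 : 0 ≤ x) (h1 : x ≤ 1) : |Real.cosh x - 1 - x ^ 2 / 2| ≤ x ^ 4 / 19 := by
  have e1 := Real.exp_bound (x := x) (by rw [abs_of_nonneg h0]; exact h1) (n := 4) (by norm_num)
  have e2 := Real.exp_bound (x := -x) (by rw [abs_neg, abs_of_nonneg h0]; exact h1) (n := 4) (by norm_num)
  simp only [Finset.sum_range_succ, Finset.sum_range_zero, Nat.factorial, abs_neg, abs_of_nonneg h0] at e1 e2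
  norm_num at e1 e2
  have h4 : 0 ≤ x ^ 4 := by positivity
  rw [Real.cosh_eq]
  rw [abs_le] at *
  constructor <;> nlinarith [e1.1, e1.2, e2.1, e2.2]

/-- `c(w) = coth(w/2) - 2/w` -/
noncomputable def bc (w : ℝ) : ℝ := Real.cosh (w / 2) / Real.sinh (w / 2) - 2 / w
noncomputable def bc' (w : ℝ) : ℝ := 2 / w ^ 2 - 1 / (2 * Real.sinh (w / 2) ^ 2)
/-- `g(w) = w / (2 sinh (w/2))` -/
noncomputable def bg (w : ℝ) : ℝ := w / (2 * Real.sinh (w / 2))
noncomputable def bg' (w : ℝ) : ℝ :=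
  (2 * Real.sinh (w / 2) - w * Real.cosh (w / 2)) / (2 * Real.sinh (w / 2)) ^ 2

theorem bc_deriv {w : ℝ} (hw : 0 < w) : HasDerivAt bc (bc' w) w := by
  have hs : 0 < Real.sinh (w / 2) := Real.sinh_pos_iff.2 (by positivity)
  have hd : HasDerivAt (fun y : ℝ => y / 2) (1 / 2) w := by
    simpa using (hasDerivAt_id w).div_const 2
  have h1 := hd.sinh
  have h2 := hd.cosh
  have h3 := h2.div h1 hs.ne'
  have h4 : HasDerivAt (fun y : ℝ => 2 / y) (-2 / w ^ 2) w := by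
    have := (hasDerivAt_inv hw.ne').const_mul (2 : ℝ)
    refine HasDerivAt.congr_deriv (this.congr_of_eventuallyEq (Filter.Eventually.of_forall fun y => ?_)) ?_
    · simp [div_eq_mul_inv]
    · field_simp
  have h5 := h3.sub h4
  have h6 := Real.cosh_sq (w / 2)
  refine HasDerivAt.congr_deriv h5 ?_
  unfold bc'
  field_simp
  rw [h6]
  ring

theorem bg_deriv {w : ℝ} (hw : 0 < w) : HasDerivAt bg (bg' w) w := by
  have hs : 0 < Real.sinh (w / 2) := Real.sinh_pos_iff.2 (by positivity)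
  have hd : HasDerivAt (fun y : ℝ => y / 2) (1 / 2) w := by
    simpa using (hasDerivAt_id w).div_const 2
  have h1 := (hd.sinh).const_mul 2
  have h3 := (hasDerivAt_id w).div h1 (by positivity)
  refine HasDerivAt.congr_deriv h3 ?_
  unfold bg'
  simp only [id]
  ring

/-- all the bounds for `0 < w ≤ 1` -/
theorem b01_bounds {w : ℝ} (hw : 0 < w) (h1 : w ≤ 1) :
    |bc w - w / 6| ≤ w ^ 3 / 60 ∧ |bc' w - 1 / 6| ≤ w ^ 2 / 10 ∧ |bg w - 1| ≤ w ^ 2 / 20 ∧ |bg' w| ≤ w / 4 := by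
  obtain ⟨x, rfl⟩ : ∃ x, w = 2 * x := ⟨w / 2, by ring⟩
  have hx : 0 < x := by linarith
  have hx1 : x ≤ 1 / 2 := by linarith
  have hss := b01_sinh hx.le (by linarith)
  have hcc := b01_cosh hx.le (by linarith)
  have e : 2 * x / 2 = x := by ring
  have hsx : x ≤ Real.sinh x := (Real.self_le_sinh_iff).2 hx.le
  unfold bc bc' bg bg'
  rw [e]
  set s := Real.sinh x with hs
  set C := Real.cosh x with hC
  have hs0 : 0 < s := by linarith
  obtain ⟨a, ha⟩ : ∃ a, s = x + x ^ 3 / 6 + a := ⟨s - x - x ^ 3 / 6, by ring⟩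
  obtain ⟨b, hb⟩ : ∃ b, C = 1 + x ^ 2 / 2 + b := ⟨C - 1 - x ^ 2 / 2, by ring⟩
  have ha' : |a| ≤ x ^ 5 / 100 := by
    have : s - x - x ^ 3 / 6 = a := by rw [ha]; ring
    rwa [this] at hss
  have hb' : |b| ≤ x ^ 4 / 19 := by
    have : C - 1 - x ^ 2 / 2 = b := by rw [hb]; ring
    rwa [this] at hcc
  rw [abs_le] at ha' hb'
  have x2 : 0 < x ^ 2 := by positivity
  have x3 : 0 < x ^ 3 := by positivity
  have x4 : 0 < x ^ 4 := by positivity
  have x5 : 0 < x ^ 5 := by positivity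
  have x5' : x ^ 5 ≤ x ^ 3 / 4 := by nlinarith [mul_nonneg x3.le (show 0 ≤ 1 / 4 - x ^ 2 by nlinarith)]
  have hsu : s ≤ x + x ^ 3 / 5 := by rw [ha]; nlinarith
  refine ⟨?_, ?_, ?_, ?_⟩
  · have : C / s - 2 / (2 * x) - 2 * x / 6 = (3 * x * C - 3 * s - x ^ 2 * s) / (3 * x * s) := by
      field_simp
      ring
    rw [this, abs_div, abs_of_pos (show 0 < 3 * x * s by positivity), div_le_iff₀ (by positivity)]
    have h2 : |3 * x * C - 3 * s - x ^ 2 * s| ≤ 39 / 100 * x ^ 5 := by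
      have : 3 * x * C - 3 * s - x ^ 2 * s = 3 * (x * b) - 3 * a - x ^ 2 * (s - x) := by
        rw [ha, hb]; ring
      rw [this, abs_le]
      have q1 : x * b ≤ x * (x ^ 4 / 19) := mul_le_mul_of_nonneg_left hb'.2 hx.le
      have q2 : x * (-(x ^ 4 / 19)) ≤ x * b := mul_le_mul_of_nonneg_left hb'.1 hx.le
      have q3 : x ^ 2 * (s - x) ≤ x ^ 2 * (x ^ 3 / 5) := mul_le_mul_of_nonneg_left (by linarith) x2.le
      have q4 : 0 ≤ x ^ 2 * (s - x) := mul_nonneg x2.le (by linarith)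
      constructor <;> linarith
    refine h2.trans ?_
    have : x * x ≤ x * s := mul_le_mul_of_nonneg_left hsx hx.le
    nlinarith [mul_le_mul_of_nonneg_left this x3.le]
  · have : 2 / (2 * x) ^ 2 - 1 / (2 * s ^ 2) - 1 / 6 = (3 * s ^ 2 - 3 * x ^ 2 - x ^ 2 * s ^ 2) / (6 * x ^ 2 * s ^ 2) := by
      field_simp
      ring
    rw [this, abs_div, abs_of_pos (show 0 < 6 * x ^ 2 * s ^ 2 by positivity), div_le_iff₀ (by positivity)]
    have h2 : |3 * s ^ 2 - 3 * x ^ 2 - x ^ 2 * s ^ 2| ≤ x ^ 6 := by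
      obtain ⟨d, hd⟩ : ∃ d, s = x + d := ⟨s - x, by ring⟩
      have hd0 : 0 ≤ d := by linarith
      have hd1 : d ≤ x ^ 3 / 5 := by linarith
      have hda : d = x ^ 3 / 6 + a := by linarith
      have : 3 * s ^ 2 - 3 * x ^ 2 - x ^ 2 * s ^ 2 = 6 * (x * a) + 3 * d ^ 2 - x ^ 2 * (d * (2 * x + d)) := by
        have : a = d - x ^ 3 / 6 := by linarith
        rw [hd, this]; ring
      have q1 : x * a ≤ x * (x ^ 5 / 100) := mul_le_mul_of_nonneg_left ha'.2 hx.le
      have q2 : x * (-(x ^ 5 / 100)) ≤ x * a := mul_le_mul_of_nonneg_left ha'.1 hx.le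
      have q3 : d ^ 2 ≤ (x ^ 3 / 5) ^ 2 := by gcongr
      have q3' : 0 ≤ d ^ 2 := by positivity
      have q4 : d * (2 * x + d) ≤ (x ^ 3 / 5) * (3 * x) := by
        apply mul_le_mul hd1 _ (by positivity) (by positivity)
        nlinarith
      have q5 : 0 ≤ x ^ 2 * (d * (2 * x + d)) := by positivity
      have q6 : x ^ 2 * (d * (2 * x + d)) ≤ x ^ 2 * ((x ^ 3 / 5) * (3 * x)) := mul_le_mul_of_nonneg_left q4 x2.le
      have x6 : 0 < x ^ 6 := by positivity
      rw [this, abs_le]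
      constructor <;> linarith
    refine h2.trans ?_
    have : x ^ 2 ≤ s ^ 2 := by gcongr
    have q := mul_le_mul_of_nonneg_left this x4.le
    calc x ^ 6 = x ^ 4 * x ^ 2 := by ring
      _ ≤ x ^ 4 * s ^ 2 := q
      _ ≤ (2 * x) ^ 2 / 10 * (6 * x ^ 2 * s ^ 2) := by nlinarith [mul_nonneg x4.le (sq_nonneg s)]
  · have : 2 * x / (2 * s) - 1 = -((s - x) / s) := by field_simp; ring
    rw [this, abs_neg, abs_div, abs_of_pos hs0, abs_of_nonneg (by linarith), div_le_iff₀ hs0]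
    nlinarith [mul_le_mul_of_nonneg_left hsx x2.le]
  · rw [abs_div, abs_of_pos (show 0 < (2 * s) ^ 2 by positivity), div_le_iff₀ (by positivity)]
    have h2 : |2 * s - 2 * x * C| ≤ x ^ 3 := by
      have : 2 * s - 2 * x * C = -(2 / 3 * x ^ 3) + 2 * a - 2 * (x * b) := by rw [ha, hb]; ring
      have q1 : x * b ≤ x * (x ^ 4 / 19) := mul_le_mul_of_nonneg_left hb'.2 hx.le
      have q2 : x * (-(x ^ 4 / 19)) ≤ x * b := mul_le_mul_of_nonneg_left hb'.1 hx.le
      rw [this, abs_le]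
      constructor <;> linarith
    refine h2.trans ?_
    have : x ^ 2 ≤ s ^ 2 := by gcongr
    have q := mul_le_mul_of_nonneg_left this hx.le
    calc x ^ 3 = x * x ^ 2 := by ring
      _ ≤ x * s ^ 2 := q
      _ ≤ 2 * x / 4 * (2 * s) ^ 2 := by nlinarith [mul_nonneg hx.le (sq_nonneg s)]

noncomputable def bz (k : ℕ) (ρ w : ℝ) : ℂ :=
  ((-(ρ * bc w) : ℝ) : ℂ) + ((Real.pi * k * (bc w - w / 6) : ℝ) : ℂ) * I
noncomputable def bz' (k : ℕ) (ρ w : ℝ) : ℂ :=
  ((-(ρ * bc' w) : ℝ) : ℂ) + ((Real.pi * k * (bc' w - 1 / 6) : ℝ) : ℂ) * I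
noncomputable def bB (k : ℕ) (ρ w : ℝ) : ℂ := cexp (bz k ρ w) * (bg w : ℂ)
noncomputable def bB' (k : ℕ) (ρ w : ℝ) : ℂ :=
  cexp (bz k ρ w) * bz' k ρ w * (bg w : ℂ) + cexp (bz k ρ w) * (bg' w : ℂ)
noncomputable def bE (G ρ w : ℝ) : ℝ := Real.exp (-(G * w) - 2 * ρ / w) / w
noncomputable def bE' (G ρ w : ℝ) : ℝ := bE G ρ w * (-G + 2 * ρ / w ^ 2 - 1 / w)
noncomputable def bA (G ρ : ℝ) (k : ℕ) (w : ℝ) : ℂ := (bB k ρ w - 1) * (bE G ρ w : ℂ)
noncomputable def bA' (G ρ : ℝ) (k : ℕ) (w : ℝ) : ℂ :=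
  bB' k ρ w * (bE G ρ w : ℂ) + (bB k ρ w - 1) * (bE' G ρ w : ℂ)
noncomputable def bPhi (t : ℝ) (k : ℕ) (w : ℝ) : ℝ := (t + Real.pi * k / 6) * w + 2 * Real.pi * k / w

theorem bz_deriv (k : ℕ) (ρ : ℝ) {w : ℝ} (hw : 0 < w) : HasDerivAt (bz k ρ) (bz' k ρ w) w := by
  have h1 := bc_deriv hw
  have h2 : HasDerivAt (fun w => -(ρ * bc w)) (-(ρ * bc' w)) w := (h1.const_mul ρ).neg
  have h3 : HasDerivAt (fun w => Real.pi * k * (bc w - w / 6)) (Real.pi * k * (bc' w - 1 / 6)) w := by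
    refine (HasDerivAt.const_mul _ ?_)
    exact h1.sub (by simpa using (hasDerivAt_id w).div_const 6)
  exact h2.ofReal_comp.add (h3.ofReal_comp.mul_const I)

theorem bB_deriv (k : ℕ) (ρ : ℝ) {w : ℝ} (hw : 0 < w) : HasDerivAt (bB k ρ) (bB' k ρ w) w := by
  have h1 := (bz_deriv k ρ hw).cexp
  have h2 := (bg_deriv hw).ofReal_comp
  exact h1.mul h2

theorem bE_deriv (G ρ : ℝ) {w : ℝ} (hw : 0 < w) : HasDerivAt (bE G ρ) (bE' G ρ w) w := by
  have h4 : HasDerivAt (fun y : ℝ => 2 * ρ / y) (-(2 * ρ) / w ^ 2) w := by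
    have := (hasDerivAt_inv hw.ne').const_mul (2 * ρ)
    refine HasDerivAt.congr_deriv (this.congr_of_eventuallyEq (Filter.Eventually.of_forall fun y => ?_)) ?_
    · simp [div_eq_mul_inv]
    · field_simp
  have h5 : HasDerivAt (fun y : ℝ => -(G * y)) (-G) w := by
    refine HasDerivAt.congr_deriv ((hasDerivAt_id w).const_mul G).neg ?_
    simp
  have h6 := (h5.sub h4).exp.div (hasDerivAt_id w) hw.ne'
  refine HasDerivAt.congr_deriv h6 ?_
  unfold bE' bE
  simp only [id, Pi.sub_apply]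
  field_simp
  ring

theorem bA_deriv (G ρ : ℝ) (k : ℕ) {w : ℝ} (hw : 0 < w) : HasDerivAt (bA G ρ k) (bA' G ρ k w) w := by
  have h1 := (bB_deriv k ρ hw).sub_const 1
  have h2 := (bE_deriv G ρ hw).ofReal_comp
  exact h1.mul h2

theorem bA'_cont (G ρ : ℝ) (k : ℕ) {a b : ℝ} (ha : 0 < a) : ContinuousOn (bA' G ρ k) (Icc a b) := by
  have hp : ∀ w ∈ Icc a b, 0 < w := fun w hw => lt_of_lt_of_le ha hw.1
  have c1 : ContinuousOn bc (Icc a b) := fun w hw => (bc_deriv (hp w hw)).continuousAt.continuousWithinAt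
  have c2 : ContinuousOn bg (Icc a b) := fun w hw => (bg_deriv (hp w hw)).continuousAt.continuousWithinAt
  have c3 : ContinuousOn (bB k ρ) (Icc a b) := fun w hw => (bB_deriv k ρ (hp w hw)).continuousAt.continuousWithinAt
  have c4 : ContinuousOn (bE G ρ) (Icc a b) := fun w hw => (bE_deriv G ρ (hp w hw)).continuousAt.continuousWithinAt
  have c5 : ContinuousOn (bz k ρ) (Icc a b) := fun w hw => (bz_deriv k ρ (hp w hw)).continuousAt.continuousWithinAt
  have hs : ∀ w ∈ Icc a b, Real.sinh (w / 2) ≠ 0 := fun w hw =>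
    (Real.sinh_pos_iff.2 (by have := hp w hw; positivity)).ne'
  have hw0 : ∀ w ∈ Icc a b, w ≠ 0 := fun w hw => (hp w hw).ne'
  have cs : ContinuousOn (fun w : ℝ => Real.sinh (w / 2)) (Icc a b) := by fun_prop
  have cc : ContinuousOn (fun w : ℝ => Real.cosh (w / 2)) (Icc a b) := by fun_prop
  have c6 : ContinuousOn bc' (Icc a b) := by
    unfold bc'
    refine ContinuousOn.sub (ContinuousOn.div continuousOn_const (by fun_prop) ?_)
      (ContinuousOn.div continuousOn_const (by fun_prop) ?_)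
    · intro w hw; have := hw0 w hw; positivity
    · intro w hw; have := hs w hw; positivity
  have c7 : ContinuousOn bg' (Icc a b) := by
    unfold bg'
    refine ContinuousOn.div (by fun_prop) (by fun_prop) ?_
    intro w hw; have := hs w hw; positivity
  have c8 : ContinuousOn (bE' G ρ) (Icc a b) := by
    unfold bE'
    refine c4.mul (ContinuousOn.sub (ContinuousOn.add continuousOn_const (ContinuousOn.div continuousOn_const (by fun_prop) ?_))
      (ContinuousOn.div continuousOn_const (by fun_prop) ?_))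
    · intro w hw; have := hw0 w hw; positivity
    · intro w hw; exact hw0 w hw
  have co : ∀ {f : ℝ → ℝ}, ContinuousOn f (Icc a b) → ContinuousOn (fun w => ((f w : ℝ) : ℂ)) (Icc a b) :=
    fun hf => Complex.continuous_ofReal.comp_continuousOn hf
  have c9 : ContinuousOn (bz' k ρ) (Icc a b) := by
    unfold bz'
    refine ContinuousOn.add (co (by fun_prop)) (ContinuousOn.mul (co (by fun_prop)) continuousOn_const)
  have c10 : ContinuousOn (bB' k ρ) (Icc a b) := by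
    unfold bB'
    exact ((c5.cexp.mul c9).mul (co c2)).add (c5.cexp.mul (co c7))
  unfold bA'
  exact (c10.mul (co c4)).add ((c3.sub continuousOn_const).mul (co c8))

theorem bker_eq (G t ρ : ℝ) (k : ℕ) {w : ℝ} (hw : 0 < w) :
    ker (G - t * I) (Real.pi * I * (k : ℤ) - ρ) w -
      cexp (-(((G : ℝ) - (t + Real.pi * k / 6 : ℝ) * I) * w) - ((2 * ρ : ℝ) - 2 * Real.pi * I * k) / w) / w =
      bA G ρ k w * cexp (I * (bPhi t k w : ℝ)) := by
  have hs : 0 < Real.sinh (w / 2) := Real.sinh_pos_iff.2 (by positivity)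
  have hs' : Complex.sinh ((w : ℂ) / 2) = ((Real.sinh (w / 2) : ℝ) : ℂ) := by push_cast; rfl
  have hc' : Complex.cosh ((w : ℂ) / 2) = ((Real.cosh (w / 2) : ℝ) : ℂ) := by push_cast; rfl
  have hsne : ((Real.sinh (w / 2) : ℝ) : ℂ) ≠ 0 := by exact_mod_cast hs.ne'
  have hwne : (w : ℂ) ≠ 0 := by exact_mod_cast hw.ne'
  unfold ker bA bB
  rw [hs', hc']
  have hE : ((bE G ρ w : ℝ) : ℂ) = cexp (-(G * w) - 2 * ρ / w) / w := by
    unfold bE; push_cast; rfl
  have hr : ∀ a b c : ℂ, (a - 1) * b * c = a * b * c - b * c := fun a b c => by ring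
  rw [hE, hr]
  congr 1
  · have : cexp (bz k ρ w) * (bg w : ℂ) * (cexp (-(G * w) - 2 * ρ / w) / w) * cexp (I * (bPhi t k w : ℝ)) =
        (cexp (bz k ρ w) * cexp (-(G * w) - 2 * ρ / w) * cexp (I * (bPhi t k w : ℝ))) * ((bg w : ℂ) / w) := by ring
    rw [this, ← Complex.exp_add, ← Complex.exp_add, div_eq_mul_inv]
    congr 1
    · congr 1
      unfold bz bPhi bc
      push_cast
      field_simp
      ring
    · unfold bg
      push_cast
      rw [← Complex.ofReal_ofNat, ← Complex.ofReal_div, ← Complex.ofReal_sinh]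
      field_simp
  · rw [div_mul_eq_mul_div, ← Complex.exp_add]
    congr 2
    unfold bPhi
    push_cast
    field_simp
    ring

theorem b01_exp_aux {s : ℝ} (hs : 0 ≤ s) :
    (s + 1) * Real.exp (-s) ≤ 1 ∧ (s + 1) * (s + 3) * Real.exp (-s) ≤ 4 ∧ s * Real.exp (-s) ≤ 1 := by
  have h1 := Real.quadratic_le_exp_of_nonneg hs
  have h0 : 0 < Real.exp (-s) := Real.exp_pos _
  have he : Real.exp s * Real.exp (-s) = 1 := by rw [← Real.exp_add]; simp
  refine ⟨?_, ?_, ?_⟩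
  · calc (s + 1) * Real.exp (-s) ≤ Real.exp s * Real.exp (-s) := by
          apply mul_le_mul_of_nonneg_right _ h0.le; nlinarith
      _ = 1 := he
  · calc (s + 1) * (s + 3) * Real.exp (-s) ≤ (4 * Real.exp s) * Real.exp (-s) := by
          apply mul_le_mul_of_nonneg_right _ h0.le; nlinarith
      _ = 4 := by rw [mul_assoc, he, mul_one]
  · calc s * Real.exp (-s) ≤ Real.exp s * Real.exp (-s) := by
          apply mul_le_mul_of_nonneg_right _ h0.le; nlinarith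
      _ = 1 := he

theorem bB_bounds {ρ : ℝ} {k : ℕ} {w : ℝ} (hρ : 0 ≤ ρ) (hρ1 : ρ ≤ 1) (hw : 0 < w) (h1 : w ≤ 1)
    (hk : (k : ℝ) * w ^ 3 ≤ 1) :
    ‖bB k ρ w - 1‖ ≤ ρ * w + k * w ^ 3 + w ^ 2 ∧ ‖bB' k ρ w‖ ≤ 2 * (ρ + k * w ^ 2 + w) := by
  obtain ⟨b1, b2, b3, b4⟩ := b01_bounds hw h1
  have hkn : (0 : ℝ) ≤ k := Nat.cast_nonneg k
  have w2 : 0 < w ^ 2 := by positivity
  have w3 : 0 < w ^ 3 := by positivity
  have hw2 : w ^ 2 ≤ w := by nlinarith
  have hw3 : w ^ 3 ≤ w := by nlinarith [mul_le_mul_of_nonneg_left h1 w2.le]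
  have hkw : 0 ≤ (k : ℝ) * w ^ 3 := by positivity
  have hkw2 : 0 ≤ (k : ℝ) * w ^ 2 := by positivity
  have hρw : 0 ≤ ρ * w := by positivity
  have hpi := Real.pi_lt_d2
  have hpi0 := Real.pi_pos
  have c1 : |bc w| ≤ w / 5 := by
    have : bc w = (bc w - w / 6) + w / 6 := by ring
    rw [this]
    refine (abs_add_le _ _).trans ?_
    rw [abs_of_pos (show 0 < w / 6 by positivity)]
    linarith
  have c2 : |bc' w| ≤ 1 / 3 := by
    have : bc' w = (bc' w - 1 / 6) + 1 / 6 := by ring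
    rw [this]
    refine (abs_add_le _ _).trans ?_
    rw [abs_of_pos (show (0:ℝ) < 1 / 6 by positivity)]
    nlinarith
  have c3 : |bg w| ≤ 21 / 20 := by
    have : bg w = (bg w - 1) + 1 := by ring
    rw [this]
    refine (abs_add_le _ _).trans ?_
    rw [abs_one]
    nlinarith
  have hz : ‖bz k ρ w‖ ≤ ρ * w / 5 + k * w ^ 3 / 15 := by
    unfold bz
    refine (norm_add_le _ _).trans ?_
    rw [norm_mul, Complex.norm_I, mul_one, Complex.norm_real, Complex.norm_real, Real.norm_eq_abs,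
      Real.norm_eq_abs, abs_neg, abs_mul, abs_of_nonneg hρ, abs_mul, abs_of_nonneg (by positivity : 0 ≤ Real.pi * (k : ℝ))]
    have t1 : ρ * |bc w| ≤ ρ * (w / 5) := mul_le_mul_of_nonneg_left c1 hρ
    have t2 : Real.pi * k * |bc w - w / 6| ≤ Real.pi * k * (w ^ 3 / 60) := mul_le_mul_of_nonneg_left b1 (by positivity)
    have t3 : Real.pi * k * (w ^ 3 / 60) ≤ k * w ^ 3 / 15 := by nlinarith
    linarith
  have hz' : ‖bz' k ρ w‖ ≤ (ρ + k * w ^ 2) / 3 := by
    unfold bz'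
    refine (norm_add_le _ _).trans ?_
    rw [norm_mul, Complex.norm_I, mul_one, Complex.norm_real, Complex.norm_real, Real.norm_eq_abs,
      Real.norm_eq_abs, abs_neg, abs_mul, abs_of_nonneg hρ, abs_mul, abs_of_nonneg (by positivity : 0 ≤ Real.pi * (k : ℝ))]
    have t1 : ρ * |bc' w| ≤ ρ * (1 / 3) := mul_le_mul_of_nonneg_left c2 hρ
    have t2 : Real.pi * k * |bc' w - 1 / 6| ≤ Real.pi * k * (w ^ 2 / 10) := mul_le_mul_of_nonneg_left b2 (by positivity)
    have t3 : Real.pi * k * (w ^ 2 / 10) ≤ k * w ^ 2 / 3 := by nlinarith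
    linarith
  have hρw1 : ρ * w ≤ 1 := by nlinarith
  have hz1 : ‖bz k ρ w‖ ≤ 1 := by linarith
  have he1 := Complex.norm_exp_sub_one_le hz1
  have he2 : ‖cexp (bz k ρ w)‖ ≤ 8 / 5 := by
    have e : cexp (bz k ρ w) = (cexp (bz k ρ w) - 1) + 1 := by ring
    rw [e]
    refine (norm_add_le _ _).trans ?_
    rw [norm_one]
    linarith
  constructor
  · have : bB k ρ w - 1 = (cexp (bz k ρ w) - 1) * (bg w : ℂ) + ((bg w - 1 : ℝ) : ℂ) := by
      unfold bB; push_cast; ring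
    rw [this]
    refine (norm_add_le _ _).trans ?_
    rw [norm_mul, Complex.norm_real, Complex.norm_real, Real.norm_eq_abs, Real.norm_eq_abs]
    have t1 : ‖cexp (bz k ρ w) - 1‖ * |bg w| ≤ (2 * (ρ * w / 5 + k * w ^ 3 / 15)) * (21 / 20) :=
      mul_le_mul (he1.trans (by linarith)) c3 (abs_nonneg _) (by positivity)
    linarith
  · unfold bB'
    refine (norm_add_le _ _).trans ?_
    rw [norm_mul, norm_mul, norm_mul, Complex.norm_real, Complex.norm_real, Real.norm_eq_abs, Real.norm_eq_abs]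
    have t1 : ‖cexp (bz k ρ w)‖ * ‖bz' k ρ w‖ * |bg w| ≤ (8 / 5) * ((ρ + k * w ^ 2) / 3) * (21 / 20) :=
      mul_le_mul (mul_le_mul he2 hz' (norm_nonneg _) (by positivity)) c3 (abs_nonneg _) (by positivity)
    have t2 : ‖cexp (bz k ρ w)‖ * |bg' w| ≤ (8 / 5) * (w / 4) :=
      mul_le_mul he2 b4 (abs_nonneg _) (by positivity)
    linarith

theorem bA_bounds {G ρ : ℝ} {k : ℕ} {w : ℝ} (hG : 0 ≤ G) (hρ : 0 ≤ ρ) (hρ1 : ρ ≤ 1) (hw : 0 < w) (h1 : w ≤ 1)
    (hk : (k : ℝ) * w ^ 3 ≤ 1) :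
    ‖bA G ρ k w‖ ≤ 2 * w + k * w ^ 2 ∧ ‖bA' G ρ k w‖ ≤ 4 * 1 + 3 * (k * w) := by
  obtain ⟨hB, hB'⟩ := bB_bounds hρ hρ1 hw h1 hk
  have hkn : (0 : ℝ) ≤ k := Nat.cast_nonneg k
  set y := 2 * ρ / w with hy
  set u := G * w with hu
  have hy0 : 0 ≤ y := by positivity
  have hu0 : 0 ≤ u := by positivity
  have hρy : ρ = y * w / 2 := by rw [hy]; field_simp
  set E := Real.exp (-(u + y)) with hE
  have hE0 : 0 < E := Real.exp_pos _
  have hE1 : E ≤ 1 := Real.exp_le_one_iff.2 (by linarith)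
  obtain ⟨e1, e2, e3⟩ := b01_exp_aux (s := u + y) (by positivity)
  have hbE : bE G ρ w = E / w := by
    unfold bE
    rw [hE, hy, hu]
    congr 2; ring
  have hbE0 : 0 < E / w := by positivity
  have hbE' : bE' G ρ w = (E / w) * ((-u + y - 1) / w) := by
    unfold bE'
    rw [hbE]
    congr 1
    rw [hu, hy]
    field_simp
  have hbEabs : |bE' G ρ w| ≤ (E / w) * ((u + y + 1) / w) := by
    rw [hbE', abs_mul, abs_of_pos hbE0, abs_div, abs_of_pos hw]
    refine mul_le_mul_of_nonneg_left ?_ hbE0.le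
    refine div_le_div_of_nonneg_right ?_ hw.le
    rw [abs_le]; constructor <;> linarith
  have hyE : y * E ≤ 1 := by
    have : y * E ≤ (u + y) * E := mul_le_mul_of_nonneg_right (by linarith) hE0.le
    linarith
  constructor
  · unfold bA
    rw [norm_mul, Complex.norm_real, Real.norm_eq_abs, hbE, abs_of_pos hbE0]
    calc ‖bB k ρ w - 1‖ * (E / w) ≤ (ρ * w + k * w ^ 3 + w ^ 2) * (E / w) :=
          mul_le_mul_of_nonneg_right hB hbE0.le
      _ = w * (y * E) / 2 + k * w ^ 2 * E + w * E := by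
          rw [hρy]; field_simp
      _ ≤ w * 1 / 2 + k * w ^ 2 * 1 + w * 1 := by gcongr
      _ ≤ 2 * w + k * w ^ 2 := by linarith
  · unfold bA'
    refine (norm_add_le _ _).trans ?_
    rw [norm_mul, norm_mul, Complex.norm_real, Real.norm_eq_abs, Complex.norm_real, Real.norm_eq_abs, hbE,
      abs_of_pos hbE0]
    calc ‖bB' k ρ w‖ * (E / w) + ‖bB k ρ w - 1‖ * |bE' G ρ w|
        ≤ (2 * (ρ + k * w ^ 2 + w)) * (E / w) + (ρ * w + k * w ^ 3 + w ^ 2) * ((E / w) * ((u + y + 1) / w)) := by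
          gcongr
      _ = (y / 2 + k * w + 1) * (u + y + 3) * E := by
          rw [hρy]; field_simp; ring
      _ ≤ ((u + y + 1) + k * w) * (u + y + 3) * E := by
          refine mul_le_mul_of_nonneg_right (mul_le_mul_of_nonneg_right (by linarith) (by positivity)) hE0.le
      _ = (u + y + 1) * (u + y + 3) * E + k * w * ((u + y + 3) * E) := by ring
      _ ≤ 4 + k * w * 3 := by
          have h3 : (u + y + 3) * E ≤ 3 := by
            have : 0 ≤ (u + y) * E := by positivity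
            linarith [e1]
          exact add_le_add e2 (mul_le_mul_of_nonneg_left h3 (by positivity))
      _ = 4 * 1 + 3 * (k * w) := by ring

theorem b01_core (t : ℝ) {G ρ a b : ℝ} {k : ℕ} (hG : 0 ≤ G) (hρ : 0 ≤ ρ) (hρ1 : ρ ≤ 1) (ha : 0 < a)
    (hab : a ≤ b) (h1 : b ≤ 1) (hk1 : 1 ≤ k) (hk : (k : ℝ) * b ^ 3 ≤ 1) :
    ‖∫ w in a..b, bA G ρ k w * cexp (I * (bPhi t k w : ℝ))‖ ≤
      18 * (b + k * b ^ 2) * Real.sqrt (b ^ 3 / k) := by
  have hb : 0 < b := by linarith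
  have hk0 : (1 : ℝ) ≤ k := by exact_mod_cast hk1
  have hkp : (0 : ℝ) < k := by linarith
  have hp : ∀ w ∈ Icc a b, 0 < w := fun w hw => lt_of_lt_of_le ha hw.1
  have hkw : ∀ w ∈ Icc a b, (k : ℝ) * w ^ 3 ≤ 1 := fun w hw => by
    have h0 := hp w hw
    have : w ^ 3 ≤ b ^ 3 := by gcongr; exact hw.2
    nlinarith
  have hbd : ∀ w ∈ Icc a b, ‖bA' G ρ k w‖ ≤ 4 + 3 * (k * b) := fun w hw => by
    have := (bA_bounds hG hρ hρ1 (hp w hw) (hw.2.trans h1) (hkw w hw)).2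
    have h2 : (k : ℝ) * w ≤ k * b := mul_le_mul_of_nonneg_left hw.2 hkp.le
    linarith
  have hlam : 0 < 4 * Real.pi * k / b ^ 3 := by positivity
  have hv := vdc2 (a := a) (b := b) (lam := 4 * Real.pi * k / b ^ 3) hab hlam
    (Φ := bPhi t k) (Φ' := fun x => (t + Real.pi * k / 6) - 2 * Real.pi * k / x ^ 2)
    (Φ'' := fun x => 4 * Real.pi * k / x ^ 3)
    (fun x hx => by
      have hx0 := hp x hx
      have h1 := (hasDerivAt_id x).const_mul (t + Real.pi * k / 6)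
      have h2 := (hasDerivAt_inv hx0.ne').const_mul (2 * Real.pi * k)
      refine HasDerivAt.congr_deriv (h1.add h2) ?_
      field_simp
      ring)
    (fun x hx => by
      have hx0 := hp x hx
      have h2 := ((hasDerivAt_pow 2 x).inv (by positivity)).const_mul (2 * Real.pi * k)
      have h3 := h2.const_sub (t + Real.pi * k / 6)
      refine HasDerivAt.congr_deriv h3 ?_
      field_simp
      ring)
    (by
      refine ContinuousOn.div continuousOn_const (by fun_prop) ?_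
      intro x hx; have := hp x hx; positivity)
    (fun x hx => by
      have hx0 := hp x hx
      have : x ^ 3 ≤ b ^ 3 := by gcongr; exact hx.2
      gcongr)
    (A := bA G ρ k) (A' := bA' G ρ k) (fun x hx => bA_deriv G ρ k (hp x hx)) (bA'_cont G ρ k ha)
  refine hv.trans ?_
  have hAb := (bA_bounds hG hρ hρ1 hb h1 hk).1
  have hint : ∫ x in a..b, ‖bA' G ρ k x‖ ≤ (4 + 3 * (k * b)) * b := by
    refine (le_abs_self _).trans ?_
    rw [← Real.norm_eq_abs]
    refine (intervalIntegral.norm_integral_le_of_norm_le_const (C := 4 + 3 * (k * b)) ?_).trans ?_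
    · intro x hx
      rw [uIoc_of_le hab] at hx
      rw [norm_norm]
      exact hbd x ⟨hx.1.le, hx.2⟩
    · rw [abs_of_nonneg (by linarith)]
      exact mul_le_mul_of_nonneg_left (by linarith) (by positivity)
  have hs : 8 / Real.sqrt (4 * Real.pi * k / b ^ 3) ≤ 3 * Real.sqrt (b ^ 3 / k) := by
    rw [div_le_iff₀ (Real.sqrt_pos.2 hlam), mul_assoc, ← Real.sqrt_mul (by positivity)]
    have : b ^ 3 / k * (4 * Real.pi * k / b ^ 3) = 4 * Real.pi := by field_simp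
    rw [this]
    have : 3 ≤ Real.sqrt (4 * Real.pi) := by
      rw [Real.le_sqrt (by norm_num) (by positivity)]
      have := Real.pi_gt_three
      linarith
    linarith
  have hsq : 0 ≤ Real.sqrt (b ^ 3 / k) := Real.sqrt_nonneg _
  have hs0 : 0 ≤ 8 / Real.sqrt (4 * Real.pi * k / b ^ 3) := by positivity
  calc 8 / Real.sqrt (4 * Real.pi * k / b ^ 3) * (‖bA G ρ k b‖ + ∫ x in a..b, ‖bA' G ρ k x‖)
      ≤ 8 / Real.sqrt (4 * Real.pi * k / b ^ 3) * ((2 * b + k * b ^ 2) + (4 + 3 * (k * b)) * b) :=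
        mul_le_mul_of_nonneg_left (add_le_add hAb hint) hs0
    _ ≤ (3 * Real.sqrt (b ^ 3 / k)) * ((2 * b + k * b ^ 2) + (4 + 3 * (k * b)) * b) :=
        mul_le_mul_of_nonneg_right hs (by positivity)
    _ ≤ (3 * Real.sqrt (b ^ 3 / k)) * (6 * (b + k * b ^ 2)) := by
        refine mul_le_mul_of_nonneg_left ?_ (by positivity)
        have : 0 ≤ (k : ℝ) * b ^ 2 := by positivity
        nlinarith
    _ = 18 * (b + k * b ^ 2) * Real.sqrt (b ^ 3 / k) := by ring

/-- the Bessel type integrand -/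
noncomputable def bg2 (G t ρ : ℝ) (k : ℕ) (w : ℝ) : ℂ :=
  cexp (-(((G : ℝ) - (t + Real.pi * k / 6 : ℝ) * I) * w) - ((2 * ρ : ℝ) - 2 * Real.pi * I * k) / w) / w

theorem bg2_norm (G t ρ : ℝ) (k : ℕ) {w : ℝ} (hw : 0 < w) : ‖bg2 G t ρ k w‖ = bE G ρ w := by
  unfold bg2 bE
  have hwne : (w : ℂ) ≠ 0 := by exact_mod_cast hw.ne'
  have : -(((G : ℝ) - (t + Real.pi * k / 6 : ℝ) * I) * w) - ((2 * ρ : ℝ) - 2 * Real.pi * I * k) / w =
      ((-(G * w) - 2 * ρ / w : ℝ) : ℂ) + ((bPhi t k w : ℝ) : ℂ) * I := by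
    unfold bPhi
    push_cast
    field_simp
    ring
  rw [this, norm_div, Complex.norm_exp, Complex.norm_real, Real.norm_eq_abs, abs_of_pos hw]
  simp

theorem bg2_int {G t ρ : ℝ} (k : ℕ) (hG : 0 < G) (hρ : 0 < ρ) :
    IntegrableOn (bg2 G t ρ k) (Ioi 0) := by
  have h1 : IntegrableOn (fun w : ℝ => Real.exp (-G * w) * (1 / (2 * ρ))) (Ioi 0) :=
    (integrableOn_exp_mul_Ioi (a := -G) (by linarith) 0).mul_const _
  refine Integrable.mono' h1 ?_ ?_
  · refine ContinuousOn.aestronglyMeasurable ?_ measurableSet_Ioi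
    unfold bg2
    have hw0 : ∀ w ∈ Ioi (0:ℝ), (w : ℂ) ≠ 0 := fun w hw => by
      have : (0:ℝ) < w := hw
      exact_mod_cast this.ne'
    refine ContinuousOn.div (ContinuousOn.cexp (ContinuousOn.sub (by fun_prop) (ContinuousOn.div continuousOn_const (by fun_prop) hw0)))
      (by fun_prop) hw0
  · refine (ae_restrict_iff' measurableSet_Ioi).2 (Filter.Eventually.of_forall fun w hw => ?_)
    have hw : 0 < w := hw
    rw [bg2_norm G t ρ k hw]
    unfold bE
    have hy : 0 ≤ 2 * ρ / w := by positivity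
    have h3 := (b01_exp_aux hy).2.2
    have : Real.exp (-(G * w) - 2 * ρ / w) / w =
        Real.exp (-G * w) * (1 / (2 * ρ)) * (2 * ρ / w * Real.exp (-(2 * ρ / w))) := by
      have e : -(G * w) - 2 * ρ / w = -G * w + -(2 * ρ / w) := by ring
      rw [e, Real.exp_add]
      field_simp
    rw [this]
    exact mul_le_of_le_one_right (by positivity) h3

theorem bker_norm {G t ρ : ℝ} (k : ℕ) (hρ : 0 ≤ ρ) {w : ℝ} (hw : 0 < w) :
    ‖ker (G - t * I) (Real.pi * I * (k : ℤ) - ρ) w‖ ≤ Real.exp (-G * w) / w := by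
  have hs : 0 < Real.sinh (w / 2) := Real.sinh_pos_iff.2 (by positivity)
  have hs' : Complex.sinh ((w : ℂ) / 2) = ((Real.sinh (w / 2) : ℝ) : ℂ) := by push_cast; rfl
  have hc' : Complex.cosh ((w : ℂ) / 2) = ((Real.cosh (w / 2) : ℝ) : ℂ) := by push_cast; rfl
  have hsne : ((Real.sinh (w / 2) : ℝ) : ℂ) ≠ 0 := by exact_mod_cast hs.ne'
  have hsx : w / 2 ≤ Real.sinh (w / 2) := (Real.self_le_sinh_iff).2 (by positivity)
  unfold ker
  rw [hs', hc', norm_div, Complex.norm_exp]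
  have hre : (-((G - t * I) * w) + (Real.pi * I * (k : ℤ) - ρ) *
      (((Real.cosh (w / 2) : ℝ) : ℂ) / ((Real.sinh (w / 2) : ℝ) : ℂ))).re =
      -G * w - ρ * (Real.cosh (w / 2) / Real.sinh (w / 2)) := by
    rw [← Complex.ofReal_div]
    generalize Real.cosh (w / 2) / Real.sinh (w / 2) = c
    simp
    ring
  rw [hre]
  have h2 : ‖(2 : ℂ) * ((Real.sinh (w / 2) : ℝ) : ℂ)‖ = 2 * Real.sinh (w / 2) := by
    rw [norm_mul, Complex.norm_real, Real.norm_eq_abs, abs_of_pos hs]; simp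
  rw [h2]
  have hc : 0 < Real.cosh (w / 2) := Real.cosh_pos _
  refine div_le_div₀ (Real.exp_pos _).le (Real.exp_le_exp.2 ?_) hw (by linarith)
  have : 0 ≤ ρ * (Real.cosh (w / 2) / Real.sinh (w / 2)) := by positivity
  linarith

theorem b01_main {G t ρ b : ℝ} {k : ℕ} (hG : 0 < G) (hρ : 0 < ρ) (hρ1 : ρ ≤ 1) (hb : 0 < b)
    (h1 : b ≤ 1) (hk1 : 1 ≤ k) (hk : (k : ℝ) * b ^ 3 ≤ 1) :
    ‖II G t k ρ - ∫ w in Ioi (0 : ℝ), bg2 G t ρ k w‖ ≤
      18 * (b + k * b ^ 2) * Real.sqrt (b ^ 3 / k) + 2 / b * (Real.exp (-G * b) / G) := by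
  have hk0 : (1 : ℝ) ≤ k := by exact_mod_cast hk1
  have hkp : (0 : ℝ) < k := by linarith
  have hi1 := II_integrable (t := t) hG hρ (k : ℤ)
  have hi2 := bg2_int (t := t) k hG hρ
  have hi := hi1.sub hi2
  unfold II
  rw [← integral_sub hi1 hi2]
  set F : ℝ → ℂ := fun w => ker (G - t * I) (Real.pi * I * (k : ℤ) - ρ) w - bg2 G t ρ k w with hF
  have hFi : IntegrableOn F (Ioi 0) := hi
  have hFeq : ∀ w, 0 < w → F w = bA G ρ k w * cexp (I * (bPhi t k w : ℝ)) := fun w hw =>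
    bker_eq G t ρ k hw
  have hFn : ∀ w, 0 < w → w ≤ b → ‖F w‖ ≤ 2 + k := fun w hw hwb => by
    rw [hFeq w hw, norm_mul]
    have : ‖cexp (I * (bPhi t k w : ℝ))‖ = 1 := by rw [mul_comm]; exact Complex.norm_exp_ofReal_mul_I _
    rw [this, mul_one]
    have hkw : (k : ℝ) * w ^ 3 ≤ 1 := by
      have : w ^ 3 ≤ b ^ 3 := by gcongr
      nlinarith
    refine (bA_bounds hG.le hρ.le hρ1 hw (hwb.trans h1) hkw).1.trans ?_
    have hw1 : w ≤ 1 := hwb.trans h1
    have : w ^ 2 ≤ 1 := by nlinarith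
    nlinarith
  have hsplit : (Ioi (0:ℝ)) = Ioc 0 b ∪ Ioi b := (Ioc_union_Ioi_eq_Ioi hb.le).symm
  have e1 : ∫ w in Ioi (0:ℝ), F w = (∫ w in Ioc 0 b, F w) + ∫ w in Ioi b, F w := by
    rw [hsplit]
    refine setIntegral_union (Ioc_disjoint_Ioi le_rfl) measurableSet_Ioi
      (hFi.mono_set Ioc_subset_Ioi_self) (hFi.mono_set (Ioi_subset_Ioi hb.le))
  change ‖∫ w in Ioi (0:ℝ), F w‖ ≤ _
  rw [e1]
  refine (norm_add_le _ _).trans (add_le_add ?_ ?_)
  · refine le_of_forall_pos_le_add fun ε hε => ?_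
    obtain ⟨a, ha, hab, hae⟩ : ∃ a, 0 < a ∧ a ≤ b ∧ (2 + k) * a ≤ ε := by
      refine ⟨min b (ε / (2 + k)), lt_min hb (by positivity), min_le_left _ _, ?_⟩
      have : min b (ε / (2 + k)) ≤ ε / (2 + k) := min_le_right _ _
      calc (2 + (k:ℝ)) * min b (ε / (2 + k)) ≤ (2 + k) * (ε / (2 + k)) := mul_le_mul_of_nonneg_left this (by positivity)
        _ = ε := by field_simp
    have e2 : ∫ w in Ioc 0 b, F w = (∫ w in Ioc 0 a, F w) + ∫ w in Ioc a b, F w := by
      rw [← Ioc_union_Ioc_eq_Ioc ha.le hab]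
      refine setIntegral_union (Ioc_disjoint_Ioc_of_le le_rfl) measurableSet_Ioc
        (hFi.mono_set Ioc_subset_Ioi_self) (hFi.mono_set fun x hx => lt_trans ha hx.1)
    rw [e2]
    refine (norm_add_le _ _).trans ?_
    rw [add_comm]
    refine add_le_add ?_ ?_
    · rw [← intervalIntegral.integral_of_le hab]
      have : ∫ w in a..b, F w = ∫ w in a..b, bA G ρ k w * cexp (I * (bPhi t k w : ℝ)) := by
        refine intervalIntegral.integral_congr fun w hw => ?_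
        rw [uIcc_of_le hab] at hw
        exact hFeq w (lt_of_lt_of_le ha hw.1)
      rw [this]
      exact b01_core t hG.le hρ.le hρ1 ha hab h1 hk1 hk
    · refine le_trans ?_ hae
      have := norm_setIntegral_le_of_norm_le_const (μ := volume) (s := Ioc (0:ℝ) a) (f := F) (C := 2 + k)
        (by simp) (fun w hw => hFn w hw.1 (hw.2.trans hab))
      simpa [Real.volume_real_Ioc_of_le ha.le] using this
  · have hg : IntegrableOn (fun w : ℝ => 2 / b * Real.exp (-G * w)) (Ioi b) :=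
      (integrableOn_exp_mul_Ioi (a := -G) (by linarith) b).const_mul _
    have := norm_integral_le_of_norm_le (μ := volume.restrict (Ioi b)) (f := F) hg
      ((ae_restrict_iff' measurableSet_Ioi).2 (Filter.Eventually.of_forall fun w hw => by
        have hw : b < w := hw
        have hw0 : 0 < w := hb.trans hw
        refine (norm_sub_le _ _).trans ?_
        have n1 := bker_norm (G := G) (t := t) k hρ.le hw0
        have n2 : ‖bg2 G t ρ k w‖ ≤ Real.exp (-G * w) / w := by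
          rw [bg2_norm G t ρ k hw0]
          unfold bE
          refine div_le_div_of_nonneg_right (Real.exp_le_exp.2 ?_) hw0.le
          have : 0 ≤ 2 * ρ / w := by positivity
          linarith
        have n3 : Real.exp (-G * w) / w ≤ Real.exp (-G * w) / b :=
          div_le_div_of_nonneg_left (Real.exp_pos _).le hb hw.le
        calc _ ≤ Real.exp (-G * w) / b + Real.exp (-G * w) / b := add_le_add (n1.trans n3) (n2.trans n3)
          _ = 2 / b * Real.exp (-G * w) := by ring))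
    refine this.trans (le_of_eq ?_)
    rw [integral_const_mul, integral_exp_mul_Ioi (by linarith)]
    congr 1
    rw [div_neg, neg_div, neg_neg]

end B01h

open B01h in
theorem II_bes (η ε : ℝ) (hη : 0 < η) (hη1 : η ≤ 1 / 80) (hε : 0 < ε) (hε1 : ε ≤ η / 100) :
    ∃ T₀ : ℝ, ∀ T t ρ : ℝ, ∀ k : ℕ, T₀ ≤ T → T ^ (1 - ε) ≤ t → t ≤ T ^ (1 + ε) → 1 ≤ k → k < KK η ε T →
      0 < ρ → ρ ≤ k / NN T →
      ‖II (GG η T) t k ρ - ∫ w in Ioi (0 : ℝ),
          cexp (-(((GG η T : ℝ) - (t + Real.pi * k / 6 : ℝ) * I) * w) - ((2 * ρ : ℝ) - 2 * Real.pi * I * k) / w) / w‖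
        ≤ T ^ (-(5 / 8) + 6 * η) := by
  have ev1 : ∀ᶠ T : ℝ in Filter.atTop, (38 : ℝ) ≤ T ^ (1 * η) :=
    (tendsto_rpow_atTop (by positivity)).eventually_ge_atTop 38
  have ev2 : ∀ᶠ T : ℝ in Filter.atTop, Real.log T ≤ T ^ ε := by
    have := (isLittleO_log_rpow_atTop hε).bound (c := 1) one_pos
    filter_upwards [this, Filter.eventually_ge_atTop 1] with T hT h1
    rw [Real.norm_eq_abs, Real.norm_eq_abs, abs_of_nonneg (Real.rpow_nonneg (by linarith) _), one_mul] at hT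
    exact (le_abs_self _).trans hT
  obtain ⟨T₀, hT₀⟩ := Filter.eventually_atTop.1 (ev1.and (ev2.and (Filter.eventually_ge_atTop (1:ℝ))))
  refine ⟨T₀, fun T t ρ k hT _ _ hk1 hkK hρ hρN => ?_⟩
  obtain ⟨h38, hlog, hT1⟩ := hT₀ T hT
  have hT0 : 0 < T := by linarith
  have hk : (k : ℝ) ≤ T ^ (1 / 2 + 2 * η + 4 * ε) := (Nat.lt_ceil.1 hkK).le
  have hk1' : (1 : ℝ) ≤ k := by exact_mod_cast hk1
  have hkp : (0 : ℝ) < k := by linarith
  set G := GG η T with hG
  have hG' : G = T ^ (1 / 4 - η) := rfl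
  have hGp : 0 < G := by rw [hG']; positivity
  set b := T ^ (ε + η - 1 / 4) with hb
  have hbp : 0 < b := by positivity
  have hb1 : b ≤ 1 := Real.rpow_le_one_of_one_le_of_nonpos hT1 (by linarith)
  have hb3 : b ^ 3 = T ^ (3 * (ε + η - 1 / 4)) := by
    rw [hb, ← Real.rpow_natCast, ← Real.rpow_mul hT0.le]; congr 1; push_cast; ring
  have hb2 : b ^ 2 = T ^ (2 * (ε + η - 1 / 4)) := by
    rw [hb, ← Real.rpow_natCast, ← Real.rpow_mul hT0.le]; congr 1; push_cast; ring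
  have hkb : (k : ℝ) * b ^ 3 ≤ T ^ (-(1 / 4) + 5 * η + 7 * ε) := by
    rw [hb3]
    calc (k : ℝ) * T ^ (3 * (ε + η - 1 / 4)) ≤ T ^ (1 / 2 + 2 * η + 4 * ε) * T ^ (3 * (ε + η - 1 / 4)) := by gcongr
      _ = T ^ (-(1 / 4) + 5 * η + 7 * ε) := by rw [← Real.rpow_add hT0]; congr 1; ring
  have hkb1 : (k : ℝ) * b ^ 3 ≤ 1 := hkb.trans (Real.rpow_le_one_of_one_le_of_nonpos hT1 (by linarith))
  have hρ1 : ρ ≤ 1 := by
    refine hρN.trans ?_
    unfold NN
    rw [div_le_one (by positivity)]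
    exact hk.trans (Real.rpow_le_rpow_of_exponent_le hT1 (by linarith))
  have hmain := b01_main (G := G) (t := t) (ρ := ρ) (b := b) (k := k) hGp hρ hρ1 hbp hb1 hk1 hkb1
  refine hmain.trans ?_
  have hX0 : 0 < T ^ (-(5 / 8) + 5 * η) := by positivity
  have p1 : b * Real.sqrt (b ^ 3 / k) ≤ T ^ (-(5 / 8) + 5 * η) := by
    have : Real.sqrt (b ^ 3 / k) ≤ T ^ (3 / 2 * (ε + η - 1 / 4)) := by
      have e : (T ^ (3 / 2 * (ε + η - 1 / 4))) ^ 2 = b ^ 3 := by
        rw [hb3, ← Real.rpow_natCast, ← Real.rpow_mul hT0.le]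
        congr 1; push_cast; ring
      rw [Real.sqrt_le_left (by positivity), e]
      exact div_le_self (by positivity) hk1'
    calc b * Real.sqrt (b ^ 3 / k) ≤ T ^ (ε + η - 1 / 4) * T ^ (3 / 2 * (ε + η - 1 / 4)) := by
          rw [← hb]; gcongr
      _ = T ^ (5 / 2 * (ε + η - 1 / 4)) := by rw [← Real.rpow_add hT0]; congr 1; ring
      _ ≤ T ^ (-(5 / 8) + 5 * η) := Real.rpow_le_rpow_of_exponent_le hT1 (by linarith)
  have p2 : k * b ^ 2 * Real.sqrt (b ^ 3 / k) ≤ T ^ (-(5 / 8) + 5 * η) := by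
    have e1 : k * Real.sqrt (b ^ 3 / k) = Real.sqrt (k * b ^ 3) := by
      have : (k : ℝ) * b ^ 3 = k ^ 2 * (b ^ 3 / k) := by field_simp
      rw [this, Real.sqrt_mul (by positivity), Real.sqrt_sq hkp.le]
    have e2 : Real.sqrt (k * b ^ 3) ≤ T ^ ((-(1 / 4) + 5 * η + 7 * ε) / 2) := by
      have e : (T ^ ((-(1 / 4) + 5 * η + 7 * ε) / 2)) ^ 2 = T ^ (-(1 / 4) + 5 * η + 7 * ε) := by
        rw [← Real.rpow_natCast, ← Real.rpow_mul hT0.le]
        congr 1; push_cast; ring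
      rw [Real.sqrt_le_left (by positivity), e]
      exact hkb
    calc k * b ^ 2 * Real.sqrt (b ^ 3 / k) = b ^ 2 * (k * Real.sqrt (b ^ 3 / k)) := by ring
      _ = b ^ 2 * Real.sqrt (k * b ^ 3) := by rw [e1]
      _ ≤ T ^ (2 * (ε + η - 1 / 4)) * T ^ ((-(1 / 4) + 5 * η + 7 * ε) / 2) := by rw [← hb2]; gcongr
      _ = T ^ (-(5 / 8) + 9 / 2 * η + 11 / 2 * ε) := by rw [← Real.rpow_add hT0]; congr 1; ring
      _ ≤ T ^ (-(5 / 8) + 5 * η) := Real.rpow_le_rpow_of_exponent_le hT1 (by linarith)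
  have hGb : G * b = T ^ ε := by
    rw [hG', hb, ← Real.rpow_add hT0]; congr 1; ring
  have p3 : 2 / b * (Real.exp (-G * b) / G) ≤ 2 * T ^ (-(5 / 8) + 5 * η) := by
    have e1 : 2 / b * (Real.exp (-G * b) / G) = 2 * (Real.exp (-G * b) / (G * b)) := by field_simp
    rw [e1]
    have e2 : (1 : ℝ) ≤ G * b := by rw [hGb]; exact Real.one_le_rpow hT1 hε.le
    have e3 : Real.exp (-G * b) / (G * b) ≤ Real.exp (-G * b) := div_le_self (Real.exp_pos _).le e2
    have e4 : Real.exp (-G * b) ≤ T ^ (-(1:ℝ)) := by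
      have e5 : T ^ (-(1:ℝ)) = Real.exp (-Real.log T) := by
        rw [Real.rpow_def_of_pos hT0]; congr 1; ring
      rw [neg_mul, hGb, e5]
      apply Real.exp_le_exp.2
      linarith
    have e5 : T ^ (-(1:ℝ)) ≤ T ^ (-(5 / 8) + 5 * η) := Real.rpow_le_rpow_of_exponent_le hT1 (by linarith)
    linarith
  calc 18 * (b + k * b ^ 2) * Real.sqrt (b ^ 3 / k) + 2 / b * (Real.exp (-G * b) / G)
      = 18 * (b * Real.sqrt (b ^ 3 / k)) + 18 * (k * b ^ 2 * Real.sqrt (b ^ 3 / k)) +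
        2 / b * (Real.exp (-G * b) / G) := by ring
    _ ≤ 38 * T ^ (-(5 / 8) + 5 * η) := by linarith
    _ ≤ T ^ (1 * η) * T ^ (-(5 / 8) + 5 * η) := by gcongr
    _ = T ^ (-(5 / 8) + 6 * η) := by rw [← Real.rpow_add hT0]; congr 1; ring

end U6
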