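import Pool.Agent.Lib.MP_39df77_nt.U6.A04
/-! B02: replace the amplitude `1/w` by `(w₀ w)^{-1/2}`, `w₀ = √(2πk/t) = s²`. With `Φ = tw + 2πk/w`,
`Φ' = t (w-w₀)(w+w₀)/w²` and `1/w - (w₀w)^{-1/2} = (√w₀ - √w)/(w √w₀)`, so the amplitude divided by
`Φ'` is `h = - w / (t s (w+s²)(√w+s))`: one integration by parts. -/
open Complex MeasureTheory Set Filter Topology
namespace U6

/-- the exponential factor -/
private noncomputable def Ee (G t ρ s w : ℝ) : ℂ :=
  cexp (-(((G : ℝ) - t * I) * w) - ((2 * ρ : ℝ) - (t * s ^ 4 : ℝ) * I) / w)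

private theorem Ee_norm (G t ρ s w : ℝ) : ‖Ee G t ρ s w‖ = Real.exp (-(G * w) - 2 * ρ / w) := by
  unfold Ee
  rw [Complex.norm_exp]
  congr 1
  have e : -(((G : ℝ) - t * I) * w) - ((2 * ρ : ℝ) - (t * s ^ 4 : ℝ) * I) / w =
      ((-(G * w) - 2 * ρ / w : ℝ) : ℂ) + ((t * w + t * s ^ 4 / w : ℝ) : ℂ) * I := by
    push_cast
    ring
  rw [e, Complex.add_re, Complex.ofReal_re, Complex.re_ofReal_mul, I_re, mul_zero, add_zero]

private theorem Ee_deriv (G t ρ s : ℝ) {w : ℝ} (hw : 0 < w) :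
    HasDerivAt (fun w : ℝ => Ee G t ρ s w) (Ee G t ρ s w *
      (((-G + 2 * ρ / w ^ 2 : ℝ) : ℂ) + ((t - t * s ^ 4 / w ^ 2 : ℝ) : ℂ) * I)) w := by
  unfold Ee
  have hw' : (w : ℂ) ≠ 0 := by exact_mod_cast hw.ne'
  have h0 : HasDerivAt (fun w : ℝ => (w : ℂ)) 1 w := Complex.ofRealCLM.hasDerivAt
  have h1 := (h0.const_mul ((G : ℝ) - t * I)).neg
  have h2 := (h0.inv hw').const_mul ((2 * ρ : ℝ) - (t * s ^ 4 : ℝ) * I)
  have h3 := (h1.sub h2).cexp
  have e : (fun w : ℝ => cexp (-(((G : ℝ) - t * I) * w) - ((2 * ρ : ℝ) - (t * s ^ 4 : ℝ) * I) / w)) =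
      fun w : ℝ => cexp ((-fun w : ℝ => ((G : ℝ) - t * I) * w) w -
        ((2 * ρ : ℝ) - (t * s ^ 4 : ℝ) * I) * (w : ℂ)⁻¹) := by
    funext w
    simp only [Pi.neg_apply]
    rw [div_eq_mul_inv]
  rw [e]
  refine h3.congr_deriv ?_
  simp only [Pi.neg_apply, Pi.sub_apply]
  congr 1
  push_cast
  field_simp
  ring

private noncomputable def hh (t s w : ℝ) : ℝ := -(w / (t * s * (w + s ^ 2) * (Real.sqrt w + s)))

private noncomputable def hh' (t s w : ℝ) : ℝ :=
  -(s ^ 2 / (t * s * (w + s ^ 2) ^ 2 * (Real.sqrt w + s)) -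
    w / (t * s * (w + s ^ 2) * (2 * Real.sqrt w) * (Real.sqrt w + s) ^ 2))

private theorem hh_deriv {t s w : ℝ} (ht : 0 < t) (hs : 0 < s) (hw : 0 < w) :
    HasDerivAt (hh t s) (hh' t s w) w := by
  have hr : 0 < Real.sqrt w := Real.sqrt_pos.mpr hw
  have h0 : HasDerivAt (fun w : ℝ => Real.sqrt w) (1 / (2 * Real.sqrt w)) w :=
    Real.hasDerivAt_sqrt hw.ne'
  have hd : t * s * (w + s ^ 2) * (Real.sqrt w + s) ≠ 0 := by positivity
  have h1 : HasDerivAt (fun w : ℝ => t * s * (w + s ^ 2) * (Real.sqrt w + s))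
      (t * s * 1 * (Real.sqrt w + s) + t * s * (w + s ^ 2) * (1 / (2 * Real.sqrt w))) w :=
    (((hasDerivAt_id w).add_const (s ^ 2)).const_mul (t * s)).mul (h0.add_const s)
  have h2 := ((hasDerivAt_id w).div h1 hd).neg
  refine h2.congr_deriv ?_
  unfold hh'
  simp only [id]
  field_simp
  ring

private theorem hh_abs {t s w : ℝ} (ht : 0 < t) (hs : 0 < s) (hw : 0 < w) :
    |hh t s w| ≤ 1 / (t * s ^ 2) := by
  unfold hh
  have hr : 0 < Real.sqrt w := Real.sqrt_pos.mpr hw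
  rw [abs_neg, abs_of_pos (by positivity), div_le_div_iff₀ (by positivity) (by positivity)]
  have : w * s ≤ (w + s ^ 2) * (Real.sqrt w + s) := by
    nlinarith [mul_pos hw hr, pow_pos hs 2, mul_pos (pow_pos hs 2) hr, pow_pos hs 3]
  calc w * (t * s ^ 2) = t * s * (w * s) := by ring
    _ ≤ t * s * ((w + s ^ 2) * (Real.sqrt w + s)) := mul_le_mul_of_nonneg_left this (by positivity)
    _ = _ := by ring

private theorem hh'_abs {t s w : ℝ} (ht : 0 < t) (hs : 0 < s) (hw : 0 < w) :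
    |hh' t s w| ≤ 1 / (t * s ^ 2) * (s ^ 2 / (w + s ^ 2) ^ 2 +
      s / (2 * Real.sqrt w * (Real.sqrt w + s) ^ 2)) := by
  unfold hh'
  have hr : 0 < Real.sqrt w := Real.sqrt_pos.mpr hw
  rw [abs_neg]
  have tri : ∀ a b : ℝ, |a - b| ≤ |a| + |b| := fun a b => abs_sub a b
  refine (tri _ _).trans ?_
  have p1 : 0 < s ^ 2 / (t * s * (w + s ^ 2) ^ 2 * (Real.sqrt w + s)) := by positivity
  have p2 : 0 < w / (t * s * (w + s ^ 2) * (2 * Real.sqrt w) * (Real.sqrt w + s) ^ 2) := by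
    positivity
  rw [abs_of_pos p1, abs_of_pos p2, mul_add (1 / (t * s ^ 2))]
  refine add_le_add ?_ ?_
  · have e : 1 / (t * s ^ 2) * (s ^ 2 / (w + s ^ 2) ^ 2) =
        s ^ 2 / (t * s * (w + s ^ 2) ^ 2 * s) := by
      field_simp
    rw [e]
    apply div_le_div_of_nonneg_left (by positivity) (by positivity)
    refine mul_le_mul_of_nonneg_left ?_ (by positivity)
    linarith
  · have e : 1 / (t * s ^ 2) * (s / (2 * Real.sqrt w * (Real.sqrt w + s) ^ 2)) =
        w / (t * s * w * (2 * Real.sqrt w) * (Real.sqrt w + s) ^ 2) := by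
      field_simp
    rw [e]
    apply div_le_div_of_nonneg_left hw.le (by positivity)
    have : t * s * w ≤ t * s * (w + s ^ 2) := by
      refine mul_le_mul_of_nonneg_left ?_ (by positivity)
      have := pow_pos hs 2
      linarith
    gcongr

/-- majorant and its antiderivative -/
private noncomputable def psi' (G ρ s w : ℝ) : ℝ :=
  s ^ 2 / (w + s ^ 2) ^ 2 + s / (2 * Real.sqrt w * (Real.sqrt w + s) ^ 2) +
    (G * Real.exp (-(G * w)) + 2 * (2 * ρ / (w + 2 * ρ) ^ 2))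

private noncomputable def psi (G ρ s w : ℝ) : ℝ :=
  w / (w + s ^ 2) - s / (Real.sqrt w + s) + (-Real.exp (-(G * w)) + 2 * (w / (w + 2 * ρ)))

private theorem psi_deriv {G ρ s w : ℝ} (hρ : 0 < ρ) (hs : 0 < s) (hw : 0 < w) :
    HasDerivAt (psi G ρ s) (psi' G ρ s w) w := by
  have hr : 0 < Real.sqrt w := Real.sqrt_pos.mpr hw
  have h0 : HasDerivAt (fun w : ℝ => Real.sqrt w) (1 / (2 * Real.sqrt w)) w :=
    Real.hasDerivAt_sqrt hw.ne'
  have h1 := (hasDerivAt_id w).div ((hasDerivAt_id w).add_const (s ^ 2))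
    (by simp only [id]; positivity)
  have h2 := (hasDerivAt_const w s).div (h0.add_const s) (by positivity)
  have h3 := (((hasDerivAt_id w).const_mul G).neg.exp).neg
  have h4 := ((hasDerivAt_id w).div ((hasDerivAt_id w).add_const (2 * ρ))
    (by simp only [id]; positivity)).const_mul 2
  have h5 := (h1.sub h2).add (h3.add h4)
  refine h5.congr_deriv ?_
  unfold psi'
  simp only [id, Pi.neg_apply]
  field_simp
  ring

private theorem psi_cont {G ρ s : ℝ} (hρ : 0 < ρ) (hs : 0 < s) :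
    ContinuousWithinAt (psi G ρ s) (Ici 0) 0 := by
  apply ContinuousAt.continuousWithinAt
  unfold psi
  have h1 : (0:ℝ) + s ^ 2 ≠ 0 := by positivity
  have h2 : Real.sqrt 0 + s ≠ 0 := by rw [Real.sqrt_zero]; positivity
  have h3 : (0:ℝ) + 2 * ρ ≠ 0 := by positivity
  have c1 : ContinuousAt (fun w : ℝ => w / (w + s ^ 2)) 0 :=
    continuousAt_id.div (by fun_prop) h1
  have c2 : ContinuousAt (fun w : ℝ => s / (Real.sqrt w + s)) 0 :=
    continuousAt_const.div (by fun_prop) h2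
  have c3 : ContinuousAt (fun w : ℝ => w / (w + 2 * ρ)) 0 :=
    continuousAt_id.div (by fun_prop) h3
  have c4 : ContinuousAt (fun w : ℝ => -Real.exp (-(G * w))) 0 := by fun_prop
  exact (c1.sub c2).add (c4.add (c3.const_mul 2))

private theorem div_add_tendsto {c : ℝ} : Tendsto (fun w : ℝ => w / (w + c)) atTop (𝓝 1) := by
  have h1 : Tendsto (fun w : ℝ => c / (w + c)) atTop (𝓝 0) :=
    (tendsto_atTop_add_const_right _ _ tendsto_id).const_div_atTop c
  have h2 : Tendsto (fun w : ℝ => 1 - c / (w + c)) atTop (𝓝 (1 - 0)) := h1.const_sub 1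
  rw [sub_zero] at h2
  refine h2.congr' ?_
  filter_upwards [eventually_gt_atTop (max 0 (-c))] with w hw
  have : w + c ≠ 0 := by
    have := le_max_right 0 (-c)
    intro h
    linarith
  field_simp
  ring

private theorem psi_lim {G ρ s : ℝ} (hG : 0 < G) : Tendsto (psi G ρ s) atTop (𝓝 3) := by
  unfold psi
  have h1 : Tendsto (fun w : ℝ => w / (w + s ^ 2)) atTop (𝓝 1) := div_add_tendsto
  have h2 : Tendsto (fun w : ℝ => s / (Real.sqrt w + s)) atTop (𝓝 0) :=
    (tendsto_atTop_add_const_right _ _ Real.tendsto_sqrt_atTop).const_div_atTop s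
  have h3 : Tendsto (fun w : ℝ => w / (w + 2 * ρ)) atTop (𝓝 1) := div_add_tendsto
  have h4 : Tendsto (fun w : ℝ => Real.exp (-(G * w))) atTop (𝓝 0) := by
    have : Tendsto (fun w : ℝ => G * w) atTop atTop := tendsto_id.const_mul_atTop hG
    exact Real.tendsto_exp_neg_atTop_nhds_zero.comp this
  have h5 := (h1.sub h2).add (h4.neg.add (h3.const_mul 2))
  have e : (1 - 0 + (-0 + 2 * 1) : ℝ) = 3 := by norm_num
  rw [e] at h5
  exact h5

private theorem psi'_nonneg {G ρ s w : ℝ} (hG : 0 < G) (hρ : 0 < ρ) (hs : 0 < s) (hw : 0 < w) :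
    0 ≤ psi' G ρ s w := by
  unfold psi'
  have hr : 0 < Real.sqrt w := Real.sqrt_pos.mpr hw
  positivity

private theorem psi'_int {G ρ s : ℝ} (hG : 0 < G) (hρ : 0 < ρ) (hs : 0 < s) :
    IntegrableOn (psi' G ρ s) (Ioi 0) :=
  integrableOn_Ioi_deriv_of_nonneg (psi_cont hρ hs) (fun _ hx => psi_deriv hρ hs hx)
    (fun _ hx => psi'_nonneg hG hρ hs hx) (psi_lim hG)

private theorem psi'_val {G ρ s : ℝ} (hG : 0 < G) (hρ : 0 < ρ) (hs : 0 < s) :
    ∫ w in Ioi (0 : ℝ), psi' G ρ s w = 5 := by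
  rw [integral_Ioi_of_hasDerivAt_of_nonneg (psi_cont hρ hs) (fun _ hx => psi_deriv hρ hs hx)
    (fun _ hx => psi'_nonneg hG hρ hs hx) (psi_lim hG)]
  unfold psi
  rw [Real.sqrt_zero]
  have : s / (0 + s) = 1 := by rw [zero_add, div_self hs.ne']
  rw [this]
  simp
  norm_num

/-- `x (1+x)^2 e^{-x}`-type bound: `e^{-x} ≤ 2/(1+x)^2` -/
private theorem exp_le_two {x : ℝ} (hx : 0 ≤ x) : Real.exp (-x) ≤ 2 / (1 + x) ^ 2 := by
  rw [Real.exp_neg, ← one_div, div_le_div_iff₀ (Real.exp_pos x) (by positivity)]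
  have h1 := Real.quadratic_le_exp_of_nonneg hx
  nlinarith

private theorem err_le {G t ρ s w : ℝ} (hG : 0 < G) (ht : 0 < t) (hρ : 0 < ρ) (hs : 0 < s)
    (hw : 0 < w) :
    ‖Ee G t ρ s w * (((hh' t s w : ℝ) : ℂ) + ((hh t s w * (-G + 2 * ρ / w ^ 2) : ℝ) : ℂ))‖ ≤
      1 / (t * s ^ 2) * psi' G ρ s w := by
  rw [norm_mul, Ee_norm]
  have hx : 0 ≤ 2 * ρ / w := by positivity
  have e0 : Real.exp (-(G * w) - 2 * ρ / w) = Real.exp (-(G * w)) * Real.exp (-(2 * ρ / w)) := by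
    rw [← Real.exp_add]; congr 1
  have a1 : Real.exp (-(G * w)) ≤ 1 := by
    rw [Real.exp_le_one_iff]
    have : 0 < G * w := by positivity
    linarith
  have a2 : Real.exp (-(2 * ρ / w)) ≤ 1 := by
    rw [Real.exp_le_one_iff]; linarith
  have a3 := Real.exp_pos (-(G * w))
  have a4 := Real.exp_pos (-(2 * ρ / w))
  have n1 : ‖((hh' t s w : ℝ) : ℂ) + ((hh t s w * (-G + 2 * ρ / w ^ 2) : ℝ) : ℂ)‖ ≤
      |hh' t s w| + |hh t s w| * (G + 2 * ρ / w ^ 2) := by
    refine (norm_add_le _ _).trans ?_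
    rw [Complex.norm_real, Complex.norm_real, Real.norm_eq_abs, Real.norm_eq_abs, abs_mul]
    refine add_le_add le_rfl (mul_le_mul_of_nonneg_left ?_ (abs_nonneg _))
    refine (abs_add_le _ _).trans ?_
    rw [abs_neg, abs_of_pos hG, abs_of_pos (by positivity : 0 < 2 * ρ / w ^ 2)]
  have hE1 : Real.exp (-(G * w) - 2 * ρ / w) ≤ 1 := by
    rw [e0]; nlinarith
  have m1 : Real.exp (-(G * w) - 2 * ρ / w) * |hh' t s w| ≤ 1 / (t * s ^ 2) *
      (s ^ 2 / (w + s ^ 2) ^ 2 + s / (2 * Real.sqrt w * (Real.sqrt w + s) ^ 2)) := by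
    have := hh'_abs ht hs hw
    have h0 := abs_nonneg (hh' t s w)
    nlinarith [Real.exp_pos (-(G * w) - 2 * ρ / w)]
  have m2 : Real.exp (-(G * w) - 2 * ρ / w) * (G + 2 * ρ / w ^ 2) ≤
      G * Real.exp (-(G * w)) + 2 * (2 * ρ / (w + 2 * ρ) ^ 2) := by
    have b1 : Real.exp (-(G * w) - 2 * ρ / w) * G ≤ G * Real.exp (-(G * w)) := by
      rw [e0]
      have : Real.exp (-(G * w)) * Real.exp (-(2 * ρ / w)) ≤ Real.exp (-(G * w)) := by nlinarith
      nlinarith
    have b2 : Real.exp (-(G * w) - 2 * ρ / w) * (2 * ρ / w ^ 2) ≤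
        2 * (2 * ρ / (w + 2 * ρ) ^ 2) := by
      have c1 : Real.exp (-(G * w) - 2 * ρ / w) ≤ 2 / (1 + 2 * ρ / w) ^ 2 := by
        refine le_trans ?_ (exp_le_two hx)
        rw [e0]; nlinarith
      calc Real.exp (-(G * w) - 2 * ρ / w) * (2 * ρ / w ^ 2) ≤
            2 / (1 + 2 * ρ / w) ^ 2 * (2 * ρ / w ^ 2) :=
            mul_le_mul_of_nonneg_right c1 (by positivity)
        _ = 2 * (2 * ρ / (w + 2 * ρ) ^ 2) := by
            field_simp
    rw [mul_add]
    exact add_le_add b1 b2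
  have m3 : Real.exp (-(G * w) - 2 * ρ / w) * (|hh t s w| * (G + 2 * ρ / w ^ 2)) ≤
      1 / (t * s ^ 2) * (G * Real.exp (-(G * w)) + 2 * (2 * ρ / (w + 2 * ρ) ^ 2)) := by
    calc _ = |hh t s w| * (Real.exp (-(G * w) - 2 * ρ / w) * (G + 2 * ρ / w ^ 2)) := by ring
      _ ≤ _ := mul_le_mul (hh_abs ht hs hw) m2 (by positivity) (by positivity)
  calc _ ≤ Real.exp (-(G * w) - 2 * ρ / w) * (|hh' t s w| + |hh t s w| * (G + 2 * ρ / w ^ 2)) :=
        mul_le_mul_of_nonneg_left n1 (Real.exp_pos _).le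
    _ ≤ _ := by
        unfold psi'
        rw [mul_add, mul_add (1 / (t * s ^ 2))]
        exact add_le_add m1 m3

private theorem hh_zero (t s : ℝ) : hh t s 0 = 0 := by
  unfold hh; simp

/-- the antiderivative -/
private noncomputable def HH (G t ρ s w : ℝ) : ℂ := ((hh t s w : ℝ) : ℂ) * Ee G t ρ s w

private theorem HH_deriv {G t ρ s w : ℝ} (ht : 0 < t) (hs : 0 < s) (hw : 0 < w) :
    HasDerivAt (HH G t ρ s) (Ee G t ρ s w * (((hh' t s w : ℝ) : ℂ) +
      ((hh t s w * (-G + 2 * ρ / w ^ 2) : ℝ) : ℂ)) +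
        I * (((1 / w - 1 / (s * Real.sqrt w) : ℝ) : ℂ) * Ee G t ρ s w)) w := by
  have h1 := (hh_deriv ht hs hw).ofReal_comp.mul (Ee_deriv G t ρ s hw)
  refine h1.congr_deriv ?_
  have hr : 0 < Real.sqrt w := Real.sqrt_pos.mpr hw
  have key : hh t s w * (t - t * s ^ 4 / w ^ 2) = 1 / w - 1 / (s * Real.sqrt w) := by
    unfold hh
    have hrw : w = Real.sqrt w ^ 2 := (Real.sq_sqrt hw.le).symm
    set r := Real.sqrt w with hr'
    rw [hrw]
    have h2 : r ^ 2 + s ^ 2 ≠ 0 := by positivity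
    have h3 : r + s ≠ 0 := by positivity
    field_simp
    ring
  have key' : ((hh t s w : ℝ) : ℂ) * ((t - t * s ^ 4 / w ^ 2 : ℝ) : ℂ) =
      ((1 / w - 1 / (s * Real.sqrt w) : ℝ) : ℂ) := by
    rw [← Complex.ofReal_mul, key]
  rw [← key', Complex.ofReal_mul (hh t s w) (-G + 2 * ρ / w ^ 2)]
  ring

private theorem HH_norm {G t ρ s w : ℝ} (hG : 0 < G) (hρ : 0 < ρ) (hw : 0 ≤ w) :
    ‖HH G t ρ s w‖ ≤ |hh t s w| := by
  unfold HH
  rw [norm_mul, Ee_norm, Complex.norm_real, Real.norm_eq_abs]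
  have h : Real.exp (-(G * w) - 2 * ρ / w) ≤ 1 := by
    rw [Real.exp_le_one_iff]
    have h1 : 0 ≤ G * w := by positivity
    have h2 : 0 ≤ 2 * ρ / w := by positivity
    linarith
  nlinarith [abs_nonneg (hh t s w)]

private theorem HH_cont {G t ρ s : ℝ} (hG : 0 < G) (ht : 0 < t) (hρ : 0 < ρ) (hs : 0 < s) :
    ContinuousWithinAt (HH G t ρ s) (Ici 0) 0 := by
  have h0 : HH G t ρ s 0 = 0 := by unfold HH; rw [hh_zero]; simp
  unfold ContinuousWithinAt
  rw [h0]
  have hc : ContinuousAt (hh t s) 0 := by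
    unfold hh
    have h2 : t * s * (0 + s ^ 2) * (Real.sqrt 0 + s) ≠ 0 := by
      rw [Real.sqrt_zero]; positivity
    have h3 : ContinuousAt (fun w : ℝ => t * s * (w + s ^ 2) * (Real.sqrt w + s)) 0 := by fun_prop
    exact (continuousAt_id.div h3 h2).neg
  have hc' : Tendsto (fun w => |hh t s w|) (𝓝[Ici 0] 0) (𝓝 0) := by
    have h1 := (hc.tendsto.abs).mono_left (nhdsWithin_le_nhds (s := Ici (0:ℝ)))
    rw [hh_zero, abs_zero] at h1
    exact h1
  refine squeeze_zero_norm' ?_ hc'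
  filter_upwards [self_mem_nhdsWithin] with w hw
  exact HH_norm hG hρ hw

private theorem HH_lim {G t ρ s : ℝ} (hG : 0 < G) (ht : 0 < t) (hρ : 0 < ρ) (hs : 0 < s) :
    Tendsto (HH G t ρ s) atTop (𝓝 0) := by
  have h4 : Tendsto (fun w : ℝ => 1 / (t * s ^ 2) * Real.exp (-(G * w))) atTop (𝓝 0) := by
    have h1 : Tendsto (fun w : ℝ => G * w) atTop atTop := tendsto_id.const_mul_atTop hG
    have h2 := (Real.tendsto_exp_neg_atTop_nhds_zero.comp h1).const_mul (1 / (t * s ^ 2))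
    rw [mul_zero] at h2
    exact h2
  refine squeeze_zero_norm' ?_ h4
  filter_upwards [eventually_gt_atTop 0] with w hw
  unfold HH
  rw [norm_mul, Ee_norm, Complex.norm_real, Real.norm_eq_abs]
  refine mul_le_mul (hh_abs ht hs hw) (Real.exp_le_exp.2 ?_) (Real.exp_pos _).le (by positivity)
  have h2 : 0 ≤ 2 * ρ / w := by positivity
  linarith

private theorem Ee_cont (G t ρ s : ℝ) : ContinuousOn (fun w : ℝ => Ee G t ρ s w) (Ioi 0) :=
  fun _ hx => (Ee_deriv G t ρ s hx).continuousAt.continuousWithinAt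

/-- `e^{-2ρ/w}` kills the singularities at `0`. -/
private theorem int1 {G t ρ s : ℝ} (hG : 0 < G) (hρ : 0 < ρ) :
    IntegrableOn (fun w : ℝ => Ee G t ρ s w / w) (Ioi 0) := by
  have hg : IntegrableOn (fun w : ℝ => 1 / (2 * ρ) * Real.exp (-(G * w))) (Ioi 0) := by
    have h := (integrableOn_exp_mul_Ioi (show -G < 0 by linarith) 0).const_mul (1 / (2 * ρ))
    have e : (fun w : ℝ => 1 / (2 * ρ) * Real.exp (-(G * w))) =
        fun w : ℝ => 1 / (2 * ρ) * Real.exp (-G * w) := by funext w; rw [neg_mul]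
    rw [e]
    exact h
  refine hg.mono' ?_ ?_
  · refine ContinuousOn.aestronglyMeasurable ?_ measurableSet_Ioi
    refine (Ee_cont G t ρ s).div (by fun_prop) ?_
    intro w hw
    have : (0:ℝ) < w := hw
    exact_mod_cast this.ne'
  · refine (ae_restrict_iff' measurableSet_Ioi).2 (Eventually.of_forall fun w hw => ?_)
    have hw0 : (0:ℝ) < w := hw
    rw [norm_div, Ee_norm, Complex.norm_real, Real.norm_eq_abs, abs_of_pos hw0, div_le_iff₀ hw0]
    have e0 : Real.exp (-(G * w) - 2 * ρ / w) = Real.exp (-(G * w)) * Real.exp (-(2 * ρ / w)) := by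
      rw [← Real.exp_add]; congr 1
    have h1 : Real.exp (-(2 * ρ / w)) ≤ w / (2 * ρ) := by
      rw [Real.exp_neg, ← one_div, div_le_div_iff₀ (Real.exp_pos _) (by positivity)]
      have := Real.add_one_le_exp (2 * ρ / w)
      have h2 : 2 * ρ / w * w = 2 * ρ := by field_simp
      nlinarith
    rw [e0]
    calc _ ≤ Real.exp (-(G * w)) * (w / (2 * ρ)) :=
          mul_le_mul_of_nonneg_left h1 (Real.exp_pos _).le
      _ = _ := by ring

private theorem int2 {G t ρ s : ℝ} (hG : 0 < G) (hρ : 0 < ρ) :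
    IntegrableOn (fun w : ℝ => ((Real.sqrt w)⁻¹ : ℂ) * Ee G t ρ s w) (Ioi 0) := by
  have hg : IntegrableOn (fun w : ℝ => (1 + 1 / (2 * ρ)) * Real.exp (-(G * w))) (Ioi 0) := by
    have h := (integrableOn_exp_mul_Ioi (show -G < 0 by linarith) 0).const_mul (1 + 1 / (2 * ρ))
    have e : (fun w : ℝ => (1 + 1 / (2 * ρ)) * Real.exp (-(G * w))) =
        fun w : ℝ => (1 + 1 / (2 * ρ)) * Real.exp (-G * w) := by funext w; rw [neg_mul]
    rw [e]
    exact h
  refine hg.mono' ?_ ?_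
  · refine ContinuousOn.aestronglyMeasurable ?_ measurableSet_Ioi
    refine ContinuousOn.mul (ContinuousOn.inv₀ (by fun_prop) ?_) (Ee_cont G t ρ s)
    intro w hw
    have : (0:ℝ) < Real.sqrt w := Real.sqrt_pos.mpr hw
    exact_mod_cast this.ne'
  · refine (ae_restrict_iff' measurableSet_Ioi).2 (Eventually.of_forall fun w hw => ?_)
    have hw0 : (0:ℝ) < w := hw
    have hr : (0:ℝ) < Real.sqrt w := Real.sqrt_pos.mpr hw
    rw [norm_mul, Ee_norm, norm_inv, Complex.norm_real, Real.norm_eq_abs, abs_of_pos hr]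
    have e0 : Real.exp (-(G * w) - 2 * ρ / w) = Real.exp (-(G * w)) * Real.exp (-(2 * ρ / w)) := by
      rw [← Real.exp_add]; congr 1
    have h1 : Real.exp (-(2 * ρ / w)) ≤ w / (2 * ρ) := by
      rw [Real.exp_neg, ← one_div, div_le_div_iff₀ (Real.exp_pos _) (by positivity)]
      have := Real.add_one_le_exp (2 * ρ / w)
      have h2 : 2 * ρ / w * w = 2 * ρ := by field_simp
      nlinarith
    have h2 : Real.exp (-(2 * ρ / w)) ≤ 1 := by
      rw [Real.exp_le_one_iff]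
      have : 0 ≤ 2 * ρ / w := by positivity
      linarith
    have h3 : (Real.sqrt w)⁻¹ * Real.exp (-(2 * ρ / w)) ≤ 1 + 1 / (2 * ρ) := by
      rw [inv_mul_le_iff₀ hr]
      have hsw : Real.sqrt w * Real.sqrt w = w := Real.mul_self_sqrt hw0.le
      rcases le_total (Real.sqrt w) 1 with h | h
      · have h4 : w / (2 * ρ) ≤ Real.sqrt w * (1 / (2 * ρ)) := by
          have : 0 ≤ 1 / (2 * ρ) := by positivity
          calc w / (2 * ρ) = Real.sqrt w * Real.sqrt w / (2 * ρ) := by rw [hsw]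
            _ = Real.sqrt w * (1 / (2 * ρ)) * Real.sqrt w := by ring
            _ ≤ Real.sqrt w * (1 / (2 * ρ)) * 1 := mul_le_mul_of_nonneg_left h (by positivity)
            _ = _ := by ring
        nlinarith
      · have : 0 ≤ 1 / (2 * ρ) := by positivity
        nlinarith
    rw [e0]
    calc (Real.sqrt w)⁻¹ * (Real.exp (-(G * w)) * Real.exp (-(2 * ρ / w))) =
          ((Real.sqrt w)⁻¹ * Real.exp (-(2 * ρ / w))) * Real.exp (-(G * w)) := by ring
      _ ≤ _ := mul_le_mul_of_nonneg_right h3 (Real.exp_pos _).le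

private theorem core {G t ρ s : ℝ} (hG : 0 < G) (ht : 0 < t) (hρ : 0 < ρ) (hs : 0 < s) :
    ‖(∫ w in Ioi (0 : ℝ), Ee G t ρ s w / w) -
      ((1 / s : ℝ) : ℂ) * ∫ w in Ioi (0 : ℝ), ((Real.sqrt w)⁻¹ : ℂ) * Ee G t ρ s w‖ ≤
      5 / (t * s ^ 2) := by
  have i1 := int1 (t := t) (s := s) hG hρ
  have i2 := int2 (t := t) (s := s) hG hρ
  -- the difference as one integral
  have e1 : (∫ w in Ioi (0 : ℝ), Ee G t ρ s w / w) -
      ((1 / s : ℝ) : ℂ) * ∫ w in Ioi (0 : ℝ), ((Real.sqrt w)⁻¹ : ℂ) * Ee G t ρ s w =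
      ∫ w in Ioi (0 : ℝ), ((1 / w - 1 / (s * Real.sqrt w) : ℝ) : ℂ) * Ee G t ρ s w := by
    rw [← integral_const_mul, ← integral_sub i1 (i2.const_mul _)]
    refine setIntegral_congr_fun measurableSet_Ioi fun w _ => ?_
    push_cast
    rw [mul_comm (s : ℂ), ← div_div, one_div, one_div]
    ring
  have i3 : IntegrableOn (fun w : ℝ => ((1 / w - 1 / (s * Real.sqrt w) : ℝ) : ℂ) *
      Ee G t ρ s w) (Ioi 0) := by
    have := i1.sub (i2.const_mul ((1 / s : ℝ) : ℂ))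
    refine this.congr ?_
    refine Eventually.of_forall fun w => ?_
    simp only [Pi.sub_apply]
    push_cast
    rw [mul_comm (s : ℂ), ← div_div, one_div, one_div]
    ring
  -- the error term
  have hpsi := (psi'_int (G := G) hG hρ hs).const_mul (1 / (t * s ^ 2))
  have hmeas : AEStronglyMeasurable (fun w : ℝ => Ee G t ρ s w * (((hh' t s w : ℝ) : ℂ) +
      ((hh t s w * (-G + 2 * ρ / w ^ 2) : ℝ) : ℂ))) (volume.restrict (Ioi 0)) := by
    refine ContinuousOn.aestronglyMeasurable ?_ measurableSet_Ioi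
    refine (Ee_cont G t ρ s).mul ?_
    have c1 : ContinuousOn (hh t s) (Ioi 0) := fun w hw =>
      (hh_deriv ht hs hw).continuousAt.continuousWithinAt
    have c2 : ContinuousOn (hh' t s) (Ioi 0) := by
      unfold hh'
      have d1 : ∀ w ∈ Ioi (0:ℝ), t * s * (w + s ^ 2) ^ 2 * (Real.sqrt w + s) ≠ 0 := by
        intro w hw
        have : (0:ℝ) < w := hw
        have hr : (0:ℝ) < Real.sqrt w := Real.sqrt_pos.mpr hw
        positivity
      have d2 : ∀ w ∈ Ioi (0:ℝ), t * s * (w + s ^ 2) * (2 * Real.sqrt w) *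
          (Real.sqrt w + s) ^ 2 ≠ 0 := by
        intro w hw
        have : (0:ℝ) < w := hw
        have hr : (0:ℝ) < Real.sqrt w := Real.sqrt_pos.mpr hw
        positivity
      exact ((ContinuousOn.div (by fun_prop) (by fun_prop) d1).sub
        (ContinuousOn.div (by fun_prop) (by fun_prop) d2)).neg
    have c3 : ContinuousOn (fun w : ℝ => -G + 2 * ρ / w ^ 2) (Ioi 0) := by
      refine ContinuousOn.add (by fun_prop) (ContinuousOn.div (by fun_prop) (by fun_prop) ?_)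
      intro w hw
      have : (0:ℝ) < w := hw
      positivity
    exact (Complex.continuous_ofReal.comp_continuousOn c2).add
      (Complex.continuous_ofReal.comp_continuousOn (c1.mul c3))
  have i4 : IntegrableOn (fun w : ℝ => Ee G t ρ s w * (((hh' t s w : ℝ) : ℂ) +
      ((hh t s w * (-G + 2 * ρ / w ^ 2) : ℝ) : ℂ))) (Ioi 0) := by
    refine hpsi.mono' hmeas ?_
    exact (ae_restrict_iff' measurableSet_Ioi).2
      (Eventually.of_forall fun w hw => err_le hG ht hρ hs hw)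
  have h1 := integral_Ioi_of_hasDerivAt_of_tendsto (HH_cont (t := t) hG ht hρ hs)
    (fun w hw => HH_deriv (G := G) (ρ := ρ) ht hs hw) (i4.add (i3.const_mul I)) (HH_lim hG ht hρ hs)
  have h0 : HH G t ρ s 0 = 0 := by unfold HH; rw [hh_zero]; simp
  have h2 : (∫ w in Ioi (0 : ℝ), (Ee G t ρ s w * (((hh' t s w : ℝ) : ℂ) +
      ((hh t s w * (-G + 2 * ρ / w ^ 2) : ℝ) : ℂ)) +
        I * (((1 / w - 1 / (s * Real.sqrt w) : ℝ) : ℂ) * Ee G t ρ s w))) =
      (∫ w in Ioi (0 : ℝ), Ee G t ρ s w * (((hh' t s w : ℝ) : ℂ) +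
      ((hh t s w * (-G + 2 * ρ / w ^ 2) : ℝ) : ℂ))) +
        I * ∫ w in Ioi (0 : ℝ), ((1 / w - 1 / (s * Real.sqrt w) : ℝ) : ℂ) * Ee G t ρ s w := by
    rw [integral_add i4 (i3.const_mul I), integral_const_mul]
  rw [h2, h0, sub_zero] at h1
  have h3 : ∫ w in Ioi (0 : ℝ), ((1 / w - 1 / (s * Real.sqrt w) : ℝ) : ℂ) * Ee G t ρ s w =
      I * ∫ w in Ioi (0 : ℝ), Ee G t ρ s w * (((hh' t s w : ℝ) : ℂ) +
      ((hh t s w * (-G + 2 * ρ / w ^ 2) : ℝ) : ℂ)) := by
    set A := ∫ w in Ioi (0 : ℝ), Ee G t ρ s w * (((hh' t s w : ℝ) : ℂ) +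
      ((hh t s w * (-G + 2 * ρ / w ^ 2) : ℝ) : ℂ))
    set Bb := ∫ w in Ioi (0 : ℝ), ((1 / w - 1 / (s * Real.sqrt w) : ℝ) : ℂ) * Ee G t ρ s w
    have : A = -(I * Bb) := by linear_combination h1
    rw [this]
    linear_combination Bb * I_mul_I
  rw [e1, h3, norm_mul, norm_I, one_mul]
  calc _ ≤ ∫ w in Ioi (0 : ℝ), 1 / (t * s ^ 2) * psi' G ρ s w := by
        refine norm_integral_le_of_norm_le hpsi ?_
        exact (ae_restrict_iff' measurableSet_Ioi).2
          (Eventually.of_forall fun w hw => err_le hG ht hρ hs hw)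
    _ = 5 / (t * s ^ 2) := by
        rw [integral_const_mul, psi'_val hG hρ hs]
        ring

theorem bes_half : ∃ C : ℝ, 0 < C ∧ ∀ G t ρ k : ℝ, 0 < G → 0 < t → 0 < ρ → 0 < k →
    ‖(∫ w in Ioi (0 : ℝ), cexp (-(((G : ℝ) - t * I) * w) - ((2 * ρ : ℝ) - 2 * Real.pi * I * k) / w) / w) -
      ((2 * Real.pi * k / t) ^ (-(1 / 4) : ℝ) : ℝ) *
        ∫ w in Ioi (0 : ℝ), ((Real.sqrt w)⁻¹ : ℂ) *
          cexp (-(((G : ℝ) - t * I) * w) - ((2 * ρ : ℝ) - 2 * Real.pi * I * k) / w)‖ ≤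
      C / Real.sqrt (k * t) := by
  refine ⟨5, by norm_num, ?_⟩
  intro G t ρ k hG ht hρ hk
  set c : ℝ := 2 * Real.pi * k / t with hc
  have hc0 : 0 < c := by have := Real.pi_pos; positivity
  set s : ℝ := c ^ (1 / 4 : ℝ) with hs
  have hs0 : 0 < s := Real.rpow_pos_of_pos hc0 _
  have hs4 : s ^ 4 = c := by
    rw [hs, ← Real.rpow_natCast, ← Real.rpow_mul hc0.le]
    norm_num
  have hs2 : s ^ 2 = Real.sqrt c := by
    rw [hs, ← Real.rpow_natCast, ← Real.rpow_mul hc0.le, Real.sqrt_eq_rpow]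
    norm_num
  have hsi : c ^ (-(1 / 4) : ℝ) = 1 / s := by
    rw [hs, Real.rpow_neg hc0.le]
    exact (one_div _).symm
  have hts : t * s ^ 4 = 2 * Real.pi * k := by
    rw [hs4, hc]; field_simp
  have h := core (t := t) hG ht hρ hs0
  have eE : ∀ w : ℝ, Ee G t ρ s w =
      cexp (-(((G : ℝ) - t * I) * w) - ((2 * ρ : ℝ) - 2 * Real.pi * I * k) / w) := by
    intro w
    unfold Ee
    rw [hts]
    congr 2
    push_cast
    ring
  simp only [eE] at h
  rw [hsi]
  refine h.trans ?_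
  have hden : Real.sqrt (k * t) ≤ t * s ^ 2 := by
    rw [hs2]
    have : t * Real.sqrt c = Real.sqrt (t ^ 2 * c) := by
      rw [Real.sqrt_mul (by positivity), Real.sqrt_sq ht.le]
    rw [this]
    apply Real.sqrt_le_sqrt
    rw [hc]
    have : t ^ 2 * (2 * Real.pi * k / t) = 2 * Real.pi * (k * t) := by field_simp
    rw [this]
    have := Real.pi_gt_three
    have : 0 < k * t := by positivity
    nlinarith
  exact div_le_div_of_nonneg_left (by norm_num) (Real.sqrt_pos.mpr (by positivity)) hden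

end U6
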