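import Pool.Agent.Lib.MP_39df77_nt.U6.A01
open Complex MeasureTheory Set
namespace U6

theorem B03_sqrt {z : ℂ} {y : ℝ} (hre : 0 < z.re) (hy : 0 < y) (hz : z.im = -y) :
    ∃ u : ℂ, z ^ (1 / 2 : ℂ) = (Real.sqrt y : ℂ) * cexp (-((Real.pi / 4 : ℝ) * I)) * u ∧
      u ^ 2 = 1 + I * ((z.re / y : ℝ) : ℂ) ∧ 0 < u.re := by
  have hz0 : z ≠ 0 := by
    intro h; rw [h] at hre; simp at hre
  obtain ⟨a, ha⟩ : ∃ a : ℂ, a = z ^ (1 / 2 : ℂ) := ⟨_, rfl⟩
  have ha2 : a ^ 2 = z := by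
    rw [ha, ← Complex.cpow_nat_mul]; norm_num
  have hare : 0 < a.re := by
    have harg : |z.arg| < Real.pi / 2 := by
      rw [Complex.abs_arg_lt_pi_div_two_iff]; left; exact hre
    rw [abs_lt] at harg
    rw [ha, Complex.cpow_def_of_ne_zero hz0, Complex.exp_re]
    refine mul_pos (Real.exp_pos _) (Real.cos_pos_of_mem_Ioo ?_)
    have : (log z * (1 / 2 : ℂ)).im = z.arg / 2 := by
      rw [show (1 / 2 : ℂ) = ((1 / 2 : ℝ) : ℂ) by push_cast; rfl, Complex.im_mul_ofReal, Complex.log_im]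
      ring
    rw [this]
    constructor <;> linarith [Real.pi_pos]
  have haim : a.im < 0 := by
    have h1 : (a ^ 2).im = z.im := by rw [ha2]
    rw [sq, Complex.mul_im] at h1
    rw [hz] at h1
    by_contra hc
    push Not at hc
    nlinarith [mul_nonneg hare.le hc]
  have hsy : (0 : ℝ) < Real.sqrt y := Real.sqrt_pos.mpr hy
  have hsy' : (Real.sqrt y : ℂ) ≠ 0 := by exact_mod_cast hsy.ne'
  refine ⟨a * cexp ((Real.pi / 4 : ℝ) * I) / (Real.sqrt y : ℂ), ?_, ?_, ?_⟩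
  · rw [← ha]
    have h1 : cexp (-((Real.pi / 4 : ℝ) * I)) * cexp ((Real.pi / 4 : ℝ) * I) = 1 := by
      rw [← Complex.exp_add]; simp
    field_simp
    linear_combination (-a) * h1
  · have h2 : cexp ((Real.pi / 4 : ℝ) * I) ^ 2 = I := by
      rw [← Complex.exp_nat_mul]
      rw [show ((2 : ℕ) : ℂ) * ((Real.pi / 4 : ℝ) * I) = Real.pi / 2 * I by push_cast; ring]
      exact Complex.exp_pi_div_two_mul_I
    have h3 : (Real.sqrt y : ℂ) ^ 2 = y := by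
      rw [← Complex.ofReal_pow, Real.sq_sqrt hy.le]
    rw [div_pow, mul_pow, h2, h3, ha2]
    have hyc : (y : ℂ) ≠ 0 := by exact_mod_cast hy.ne'
    have h4 : z = z.re - y * I := by
      apply Complex.ext <;> simp [hz]
    rw [div_eq_iff hyc]
    push_cast
    rw [add_mul, mul_assoc, div_mul_cancel₀ _ hyc]
    nth_rewrite 1 [h4]
    linear_combination (-(y : ℂ)) * Complex.I_sq
  · rw [Complex.div_ofReal_re, Complex.mul_re, Complex.exp_ofReal_mul_I_re, Complex.exp_ofReal_mul_I_im,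
      Real.cos_pi_div_four, Real.sin_pi_div_four]
    apply div_pos _ hsy
    have : 0 < Real.sqrt 2 / 2 := by positivity
    nlinarith

theorem B03_u {u δ : ℂ} (h : u ^ 2 = 1 + δ) (hre : 0 < u.re) :
    ‖u - 1‖ ≤ ‖δ‖ ∧ ‖u - 1 - δ / 2‖ ≤ ‖δ‖ ^ 2 / 2 := by
  have h1 : (u - 1) * (u + 1) = δ := by linear_combination h
  have h2 : 1 ≤ ‖u + 1‖ := by
    have := Complex.re_le_norm (u + 1)
    simp at this
    linarith
  have h3 : ‖u - 1‖ ≤ ‖δ‖ := by
    rw [← h1, norm_mul]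
    exact le_mul_of_one_le_right (norm_nonneg _) h2
  refine ⟨h3, ?_⟩
  have h4 : u - 1 - δ / 2 = -((u - 1) ^ 2 / 2) := by
    linear_combination (1 / 2) * h
  rw [h4, norm_neg, norm_div, norm_pow]
  simp only [Complex.norm_ofNat]
  gcongr

theorem B03_norm {u : ℂ} {y : ℝ} (h : u ^ 2 = 1 + I * (y : ℂ)) : 1 ≤ ‖u‖ := by
  have h1 : ‖u‖ ^ 2 = ‖1 + I * (y : ℂ)‖ := by rw [← norm_pow, h]
  have h2 : (1 : ℝ) ≤ ‖1 + I * (y : ℂ)‖ := by
    have := Complex.re_le_norm (1 + I * (y : ℂ))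
    simpa using this
  nlinarith [norm_nonneg u]

/-- factor in front -/
theorem B03_pre {k s : ℝ} (hk : 0 < k) (hs : 0 < s) :
    (2 * Real.pi * k / s) ^ (-(1 / 4) : ℝ) * (Real.sqrt Real.pi / Real.sqrt s) =
      (Real.pi / 2) ^ (1 / 4 : ℝ) * (k * s) ^ (-(1 / 4) : ℝ) := by
  have hpi := Real.pi_pos
  rw [Real.sqrt_eq_rpow, Real.sqrt_eq_rpow]
  rw [Real.div_rpow (by positivity) hs.le, Real.div_rpow hpi.le (by norm_num),
    Real.mul_rpow (by positivity) hk.le, Real.mul_rpow (by norm_num) hpi.le,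
    Real.mul_rpow hk.le hs.le]
  have e1 : Real.pi ^ (1 / 2 : ℝ) = Real.pi ^ (1 / 4 : ℝ) * Real.pi ^ (1 / 4 : ℝ) := by
    rw [← Real.rpow_add hpi]; norm_num
  have e2 : s ^ (1 / 2 : ℝ) = s ^ (1 / 4 : ℝ) * s ^ (1 / 4 : ℝ) := by
    rw [← Real.rpow_add hs]; norm_num
  rw [e1, e2, Real.rpow_neg (by norm_num), Real.rpow_neg hpi.le, Real.rpow_neg hs.le, Real.rpow_neg hk.le]
  have p1 : (0 : ℝ) < Real.pi ^ (1 / 4 : ℝ) := by positivity
  have p2 : (0 : ℝ) < s ^ (1 / 4 : ℝ) := by positivity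
  have p3 : (0 : ℝ) < k ^ (1 / 4 : ℝ) := by positivity
  have p4 : (0 : ℝ) < (2 : ℝ) ^ (1 / 4 : ℝ) := by positivity
  field_simp


theorem B03_SR {k t : ℝ} (hk : 0 < k) (ht : 0 < t) :
    0 ≤ Real.sqrt (t + Real.pi * k / 6) - Real.sqrt t ∧
      Real.sqrt (t + Real.pi * k / 6) - Real.sqrt t ≤ Real.pi * k / 12 / Real.sqrt t := by
  have hpi := Real.pi_pos
  have hs : 0 < t + Real.pi * k / 6 := by positivity
  have h1 : Real.sqrt t ≤ Real.sqrt (t + Real.pi * k / 6) := by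
    apply Real.sqrt_le_sqrt; have : 0 < Real.pi * k / 6 := by positivity
    linarith
  have hR : 0 < Real.sqrt t := Real.sqrt_pos.mpr ht
  refine ⟨by linarith, ?_⟩
  rw [le_div_iff₀ hR]
  have e1 := Real.sq_sqrt hs.le
  have e2 := Real.sq_sqrt ht.le
  nlinarith

theorem B03_c1 : Real.sqrt (2 * Real.pi) ≤ 2.6 := by
  rw [Real.sqrt_le_left (by norm_num)]
  nlinarith [Real.pi_lt_d2]

theorem B03_phase {k t : ℝ} (hk : 0 < k) (ht : 0 < t) :
    |2 * (Real.sqrt (t + Real.pi * k / 6) * Real.sqrt (2 * Real.pi * k)) - ph k t| ≤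
      k ^ 2 * Real.sqrt k / (t * Real.sqrt t) := by
  have hpi := Real.pi_pos
  obtain ⟨h0, h1⟩ := B03_SR hk ht
  have hs : 0 < t + Real.pi * k / 6 := by positivity
  have e1 := Real.sq_sqrt hs.le
  have e2 := Real.sq_sqrt ht.le
  have hR : 0 < Real.sqrt t := Real.sqrt_pos.mpr ht
  unfold ph
  have a1 : Real.sqrt (2 * Real.pi * k) = Real.sqrt 2 * Real.sqrt (Real.pi * k) := by
    rw [mul_assoc, Real.sqrt_mul (by norm_num)]
  have a2 : Real.sqrt (2 * Real.pi * k * t) = Real.sqrt (2 * Real.pi * k) * Real.sqrt t := by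
    rw [Real.sqrt_mul (by positivity)]
  have a3 : Real.sqrt (2 * Real.pi * k) = Real.sqrt (2 * Real.pi) * Real.sqrt k := by
    rw [Real.sqrt_mul (by positivity)]
  set S := Real.sqrt (t + Real.pi * k / 6) with hS
  set R := Real.sqrt t with hRdef
  set Q := Real.sqrt (Real.pi * k) with hQ
  have key : 2 * (S * Real.sqrt (2 * Real.pi * k)) - (2 * Real.sqrt (2 * Real.pi * k * t) +
      Real.sqrt 2 / 6 * (Real.pi * k * Q) / R) = -(Real.sqrt (2 * Real.pi * k) * (S - R) ^ 2 / R) := by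
    rw [a2, a1]
    field_simp
    have : Real.pi * k = 6 * (S ^ 2 - R ^ 2) := by rw [e1, e2]; ring
    rw [this]; ring
  rw [key, abs_neg, abs_of_nonneg (by positivity), a3]
  have h2 : (S - R) ^ 2 ≤ (Real.pi * k / 12 / R) ^ 2 := by gcongr
  have h3 : t * R = R ^ 3 := by rw [← e2]; ring
  rw [h3]
  calc Real.sqrt (2 * Real.pi) * Real.sqrt k * (S - R) ^ 2 / R
      ≤ 2.6 * Real.sqrt k * (Real.pi * k / 12 / R) ^ 2 / R := by
        gcongr; exact B03_c1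
    _ = (2.6 * Real.pi ^ 2 / 144) * (k ^ 2 * Real.sqrt k / R ^ 3) := by
        field_simp; ring
    _ ≤ 1 * (k ^ 2 * Real.sqrt k / R ^ 3) := by
        gcongr
        nlinarith [Real.pi_lt_d2, Real.pi_pos]
    _ = _ := one_mul _

theorem B03_G {k t G : ℝ} (hk : 0 < k) (ht : 0 < t) (hG : 0 ≤ G) :
    |G * Real.sqrt (2 * Real.pi * k / t) -
        Real.sqrt (t + Real.pi * k / 6) * Real.sqrt (2 * Real.pi * k) * (G / (t + Real.pi * k / 6))| ≤
      G * k * Real.sqrt k / (t * Real.sqrt t) := by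
  have hpi := Real.pi_pos
  obtain ⟨h0, h1⟩ := B03_SR hk ht
  have hs : 0 < t + Real.pi * k / 6 := by positivity
  have e1 := Real.sq_sqrt hs.le
  have e2 := Real.sq_sqrt ht.le
  have hR : 0 < Real.sqrt t := Real.sqrt_pos.mpr ht
  have a3 : Real.sqrt (2 * Real.pi * k) = Real.sqrt (2 * Real.pi) * Real.sqrt k := by
    rw [Real.sqrt_mul (by positivity)]
  have a4 : Real.sqrt (2 * Real.pi * k / t) = Real.sqrt (2 * Real.pi * k) / Real.sqrt t := by
    rw [Real.sqrt_div (by positivity)]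
  have hSp : 0 < Real.sqrt (t + Real.pi * k / 6) := Real.sqrt_pos.mpr hs
  rw [a4, a3]
  set S := Real.sqrt (t + Real.pi * k / 6) with hS
  set R := Real.sqrt t with hRdef
  have h3 : t * R = R ^ 3 := by rw [← e2]; ring
  have key : G * (Real.sqrt (2 * Real.pi) * Real.sqrt k / R) -
      S * (Real.sqrt (2 * Real.pi) * Real.sqrt k) * (G / (t + Real.pi * k / 6)) =
      G * Real.sqrt (2 * Real.pi) * Real.sqrt k * (S - R) / (R * S) := by
    rw [← e1]; field_simp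
  rw [key, h3, abs_of_nonneg (by positivity)]
  have hSR : R ≤ S := by linarith
  calc G * Real.sqrt (2 * Real.pi) * Real.sqrt k * (S - R) / (R * S)
      ≤ G * 2.6 * Real.sqrt k * (Real.pi * k / 12 / R) / (R * R) := by
        gcongr; exact B03_c1
    _ = (2.6 * Real.pi / 12) * (G * k * Real.sqrt k / R ^ 3) := by
        field_simp
    _ ≤ 1 * (G * k * Real.sqrt k / R ^ 3) := by
        gcongr
        nlinarith [Real.pi_lt_d2, Real.pi_pos]
    _ = _ := one_mul _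

theorem B03_P {k t : ℝ} (hk : 0 < k) (ht : 0 < t) :
    (k * (t + Real.pi * k / 6)) ^ (-(1 / 4) : ℝ) ≤ (k * t) ^ (-(1 / 4) : ℝ) ∧
    (k * t) ^ (-(1 / 4) : ℝ) - (k * (t + Real.pi * k / 6)) ^ (-(1 / 4) : ℝ) ≤
      (k * t) ^ (-(1 / 4) : ℝ) * (k / t) := by
  have hpi := Real.pi_pos
  have hd : 0 < Real.pi * k / 6 := by positivity
  have hs : 0 < t + Real.pi * k / 6 := by positivity
  have hx : 1 ≤ (t + Real.pi * k / 6) / t := by
    rw [le_div_iff₀ ht]; linarith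
  have e : k * (t + Real.pi * k / 6) = (k * t) * ((t + Real.pi * k / 6) / t) := by
    field_simp
  rw [e, Real.mul_rpow (by positivity) (by positivity)]
  have hP : 0 < (k * t) ^ (-(1 / 4) : ℝ) := by positivity
  constructor
  · apply mul_le_of_le_one_right hP.le
    exact Real.rpow_le_one_of_one_le_of_nonpos hx (by norm_num)
  · have h1 : ((t + Real.pi * k / 6) / t) ^ (-1 : ℝ) ≤ ((t + Real.pi * k / 6) / t) ^ (-(1 / 4) : ℝ) :=
      Real.rpow_le_rpow_of_exponent_le hx (by norm_num)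
    rw [Real.rpow_neg_one, inv_div] at h1
    have h2 : 1 - t / (t + Real.pi * k / 6) ≤ k / t := by
      have : 1 - t / (t + Real.pi * k / 6) = (Real.pi * k / 6) / (t + Real.pi * k / 6) := by
        field_simp; ring
      rw [this]
      have h5 : Real.pi * k / 6 ≤ k := by nlinarith [Real.pi_lt_d2]
      exact div_le_div₀ hk.le h5 ht (by linarith)
    nlinarith [mul_le_mul_of_nonneg_left h1 hP.le, mul_le_mul_of_nonneg_left h2 hP.le]

theorem B03_M {k t : ℝ} (hk : 0 < k) (ht : 0 < t) (hkt : k ≤ t) :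
    Real.sqrt (t + Real.pi * k / 6) * Real.sqrt (2 * Real.pi * k) ≤ 4 * Real.sqrt (k * t) := by
  have hpi := Real.pi_pos
  rw [← Real.sqrt_mul (by positivity), show (4 : ℝ) = Real.sqrt 16 by
    rw [show (16 : ℝ) = 4 ^ 2 by norm_num, Real.sqrt_sq (by norm_num)], ← Real.sqrt_mul (by norm_num)]
  apply Real.sqrt_le_sqrt
  have h1 : t + Real.pi * k / 6 ≤ 2 * t := by nlinarith [Real.pi_lt_d2]
  have h2 : 2 * Real.pi * k ≤ 8 * k := by nlinarith [Real.pi_lt_d2]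
  calc (t + Real.pi * k / 6) * (2 * Real.pi * k) ≤ (2 * t) * (8 * k) := by gcongr
    _ = 16 * (k * t) := by ring


theorem B03_main {G t ρ E : ℝ} {k : ℕ} (hG : 0 < G) (hGt : G ≤ t) (hρ : 0 < ρ) (hk : 1 ≤ k)
    (hkt : (k : ℝ) ≤ t)
    (hE : 4 * Real.sqrt (k * t) * (G / t) ^ 2 + 6 * Real.sqrt (k * t) * (ρ / k) +
      (k : ℝ) ^ 2 * Real.sqrt k / (t * Real.sqrt t) + G * k * Real.sqrt k / (t * Real.sqrt t) ≤ E)
    (hE1 : E ≤ 1) :
    ‖((2 * Real.pi * k / (t + Real.pi * k / 6)) ^ (-(1 / 4) : ℝ) : ℝ) *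
        (Real.sqrt Real.pi / ((G : ℝ) - (t + Real.pi * k / 6 : ℝ) * I : ℂ) ^ (1 / 2 : ℂ) *
          cexp (-(2 * (((G : ℝ) - (t + Real.pi * k / 6 : ℝ) * I : ℂ) ^ (1 / 2 : ℂ) *
            ((2 * ρ : ℝ) - 2 * Real.pi * I * k : ℂ) ^ (1 / 2 : ℂ))))) - J0 G t k‖ ≤
      (Real.pi / 2) ^ (1 / 4 : ℝ) * ((k : ℝ) * t) ^ (-(1 / 4) : ℝ) *
        (3 * (G / t) + 3 * (k / t) + 2 * E) := by
  have hpi := Real.pi_pos
  have hk0 : (0 : ℝ) < k := by exact_mod_cast hk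
  have ht : 0 < t := lt_of_lt_of_le hk0 hkt
  obtain ⟨s, hsdef⟩ : ∃ s : ℝ, s = t + Real.pi * k / 6 := ⟨_, rfl⟩
  have hst : t ≤ s := by rw [hsdef]; have : 0 < Real.pi * k / 6 := by positivity
                         linarith
  have hs : 0 < s := by linarith
  have hph := B03_phase hk0 ht
  have hGG := B03_G hk0 ht hG.le
  obtain ⟨hP1, hP2⟩ := B03_P hk0 ht
  have hM := B03_M hk0 ht hkt
  have hpre := B03_pre hk0 hs
  rw [← hsdef] at hph hGG hP1 hP2 hM ⊢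
  obtain ⟨u, hu1, hu2, hu3⟩ := B03_sqrt (z := (G : ℝ) - (s : ℝ) * I) (y := s)
    (by simpa using hG) hs (by simp)
  have hy2 : 0 < 2 * Real.pi * k := by positivity
  obtain ⟨v, hv1, hv2, hv3⟩ := B03_sqrt (z := (2 * ρ : ℝ) - 2 * Real.pi * I * k)
    (y := 2 * Real.pi * k) (by simpa using hρ) hy2 (by simp)
  have r1 : ((G : ℝ) - (s : ℝ) * I : ℂ).re = G := by simp
  have r2 : ((2 * ρ : ℝ) - 2 * Real.pi * I * k : ℂ).re = 2 * ρ := by simp
  rw [r1] at hu2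
  rw [r2] at hv2
  have hu4 := B03_norm hu2
  obtain ⟨hu5, hu6⟩ := B03_u hu2 hu3
  obtain ⟨hv5, -⟩ := B03_u hv2 hv3
  have hδ : ‖I * ((G / s : ℝ) : ℂ)‖ = G / s := by
    rw [norm_mul, Complex.norm_I, one_mul, Complex.norm_real, Real.norm_of_nonneg (by positivity)]
  have hδ2 : ‖I * ((2 * ρ / (2 * Real.pi * k) : ℝ) : ℂ)‖ = ρ / (Real.pi * k) := by
    rw [norm_mul, Complex.norm_I, one_mul, Complex.norm_real, Real.norm_of_nonneg (by positivity)]
    field_simp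
  rw [hδ] at hu5 hu6
  rw [hδ2] at hv5
  -- names
  obtain ⟨M, hMdef⟩ : ∃ M : ℝ, M = Real.sqrt s * Real.sqrt (2 * Real.pi * k) := ⟨_, rfl⟩
  have hM0 : 0 ≤ M := by rw [hMdef]; positivity
  rw [← hMdef] at hM hph hGG
  have hGs : G / s ≤ G / t := by gcongr
  have hGs1 : G / s ≤ 1 := by
    rw [div_le_one hs]; linarith
  have hun : ‖u‖ ≤ 2 := by
    calc ‖u‖ = ‖(u - 1) + 1‖ := by ring_nf
      _ ≤ ‖u - 1‖ + ‖(1 : ℂ)‖ := norm_add_le _ _
      _ ≤ 1 + 1 := by simp only [norm_one]; linarith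
      _ = 2 := by norm_num
  set Ps := (Real.pi / 2) ^ (1 / 4 : ℝ) * ((k : ℝ) * s) ^ (-(1 / 4) : ℝ) with hPs
  set Pt := (Real.pi / 2) ^ (1 / 4 : ℝ) * ((k : ℝ) * t) ^ (-(1 / 4) : ℝ) with hPt
  have hPs0 : 0 < Ps := by positivity
  have hPt0 : 0 < Pt := by positivity
  have hc : 0 < (Real.pi / 2) ^ (1 / 4 : ℝ) := by positivity
  have hPst : Ps ≤ Pt := by rw [hPs, hPt]; gcongr
  have hPst2 : Pt - Ps ≤ Pt * (k / t) := by
    rw [hPs, hPt]
    have := mul_le_mul_of_nonneg_left hP2 hc.le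
    linarith
  obtain ⟨E1, hE1def⟩ : ∃ E1 : ℂ, E1 = 2 * I * M * (u * v) := ⟨_, rfl⟩
  obtain ⟨E2, hE2def⟩ : ∃ E2 : ℂ, E2 = ((-(G * Real.sqrt (2 * Real.pi * k / t)) : ℝ) : ℂ) + I * (ph k t : ℝ) := ⟨_, rfl⟩
  have hC : cexp (-((Real.pi / 4 : ℝ) * I)) * cexp (-((Real.pi / 4 : ℝ) * I)) = -I := by
    rw [← Complex.exp_add]
    rw [show -(((Real.pi / 4 : ℝ) : ℂ) * I) + -((Real.pi / 4 : ℝ) * I) = -(Real.pi / 2 * I) by
      push_cast; ring]
    rw [Complex.exp_neg, Complex.exp_pi_div_two_mul_I, Complex.inv_I]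
  have hC1 : cexp (-((Real.pi / 4 : ℝ) * I)) * cexp ((Real.pi / 4 : ℝ) * I) = 1 := by
    rw [← Complex.exp_add]; simp
  have hu0 : u ≠ 0 := by intro h; rw [h] at hu4; norm_num at hu4
  have hLHS : (((2 * Real.pi * k / s) ^ (-(1 / 4) : ℝ) : ℝ) : ℂ) *
        (Real.sqrt Real.pi / ((G : ℝ) - (s : ℝ) * I : ℂ) ^ (1 / 2 : ℂ) *
          cexp (-(2 * (((G : ℝ) - (s : ℝ) * I : ℂ) ^ (1 / 2 : ℂ) *
            ((2 * ρ : ℝ) - 2 * Real.pi * I * k : ℂ) ^ (1 / 2 : ℂ))))) =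
      cexp ((Real.pi / 4 : ℝ) * I) * (Ps * u⁻¹ * cexp E1) := by
    rw [hu1, hv1]
    have h1 : -(2 * ((Real.sqrt s : ℂ) * cexp (-((Real.pi / 4 : ℝ) * I)) * u *
        ((Real.sqrt (2 * Real.pi * k) : ℂ) * cexp (-((Real.pi / 4 : ℝ) * I)) * v))) = E1 := by
      rw [hE1def, hMdef]
      push_cast
      push_cast at hC
      linear_combination (-(2 * (Real.sqrt s : ℂ) * (Real.sqrt (2 * Real.pi * k) : ℂ) * u * v)) * hC
    rw [h1]
    have h2 : (Ps : ℂ) = (((2 * Real.pi * k / s) ^ (-(1 / 4) : ℝ) : ℝ) : ℂ) *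
        ((Real.sqrt Real.pi : ℂ) / (Real.sqrt s : ℂ)) := by
      rw [← hpre]; push_cast; rfl
    rw [h2]
    have hc0 : cexp (-((Real.pi / 4 : ℝ) * I)) ≠ 0 := Complex.exp_ne_zero _
    have hss : (Real.sqrt s : ℂ) ≠ 0 := by
      have := Real.sqrt_pos.mpr hs
      exact_mod_cast this.ne'
    have h3 : (cexp (-((Real.pi / 4 : ℝ) * I)))⁻¹ = cexp ((Real.pi / 4 : ℝ) * I) := by
      rw [← Complex.exp_neg, neg_neg]
    rw [← h3]
    field_simp
  have hJ : J0 G t k = cexp ((Real.pi / 4 : ℝ) * I) * (Pt * cexp E2) := by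
    unfold J0
    rw [hE2def, Complex.exp_add, hPt]
    rw [show (I * ((ph k t + Real.pi / 4 : ℝ) : ℂ)) = (Real.pi / 4 : ℝ) * I + I * (ph k t : ℝ) by
      push_cast; ring, Complex.exp_add]
    push_cast
    ring
  rw [hLHS, hJ, ← mul_sub, norm_mul]
  rw [show ‖cexp ((Real.pi / 4 : ℝ) * I)‖ = 1 from Complex.norm_exp_ofReal_mul_I _, one_mul]
  -- difference of the exponents
  have hdiff : ‖E1 - E2‖ ≤ E := by
    have e0 : E1 - E2 = I * ((2 * M - ph k t : ℝ) : ℂ) +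
        ((G * Real.sqrt (2 * Real.pi * k / t) - M * (G / s) : ℝ) : ℂ) +
        2 * I * M * (u - 1 - I * ((G / s : ℝ) : ℂ) / 2) + 2 * I * M * u * (v - 1) := by
      rw [hE1def, hE2def]
      push_cast
      linear_combination ((M : ℂ) * ((G : ℂ) / (s : ℂ))) * Complex.I_sq
    rw [e0]
    have n1 : ‖I * ((2 * M - ph k t : ℝ) : ℂ)‖ ≤ (k : ℝ) ^ 2 * Real.sqrt k / (t * Real.sqrt t) := by
      rw [norm_mul, Complex.norm_I, one_mul, Complex.norm_real]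
      exact hph
    have n2 : ‖((G * Real.sqrt (2 * Real.pi * k / t) - M * (G / s) : ℝ) : ℂ)‖ ≤
        G * k * Real.sqrt k / (t * Real.sqrt t) := by
      rw [Complex.norm_real]; exact hGG
    have n3 : ‖2 * I * M * (u - 1 - I * ((G / s : ℝ) : ℂ) / 2)‖ ≤
        4 * Real.sqrt (k * t) * (G / t) ^ 2 := by
      rw [norm_mul, norm_mul, norm_mul, Complex.norm_I, Complex.norm_real, Real.norm_of_nonneg hM0]
      simp only [Complex.norm_ofNat, mul_one]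
      calc 2 * M * ‖u - 1 - I * ((G / s : ℝ) : ℂ) / 2‖ ≤ 2 * M * ((G / s) ^ 2 / 2) := by gcongr
        _ = M * (G / s) ^ 2 := by ring
        _ ≤ 4 * Real.sqrt (k * t) * (G / t) ^ 2 := by gcongr
    have n4 : ‖2 * I * M * u * (v - 1)‖ ≤ 6 * Real.sqrt (k * t) * (ρ / k) := by
      rw [norm_mul, norm_mul, norm_mul, norm_mul, Complex.norm_I, Complex.norm_real,
        Real.norm_of_nonneg hM0]
      simp only [Complex.norm_ofNat, mul_one]
      calc 2 * M * ‖u‖ * ‖v - 1‖ ≤ 2 * (4 * Real.sqrt (k * t)) * 2 * (ρ / (Real.pi * k)) := by gcongr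
        _ = (16 / Real.pi) * Real.sqrt (k * t) * (ρ / k) := by field_simp; ring
        _ ≤ 6 * Real.sqrt (k * t) * (ρ / k) := by
          gcongr
          rw [div_le_iff₀ hpi]; nlinarith [Real.pi_gt_three]
    calc _ ≤ ‖I * ((2 * M - ph k t : ℝ) : ℂ)‖ +
        ‖((G * Real.sqrt (2 * Real.pi * k / t) - M * (G / s) : ℝ) : ℂ)‖ +
        ‖2 * I * M * (u - 1 - I * ((G / s : ℝ) : ℂ) / 2)‖ + ‖2 * I * M * u * (v - 1)‖ := by
          refine (norm_add_le _ _).trans ?_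
          gcongr
          refine (norm_add_le _ _).trans ?_
          gcongr
          exact norm_add_le _ _
      _ ≤ _ := by linarith
  have hE20 : ‖cexp E2‖ ≤ 1 := by
    rw [Complex.norm_exp, hE2def]
    rw [Real.exp_le_one_iff]
    have : 0 ≤ G * Real.sqrt (2 * Real.pi * k / t) := by positivity
    simp only [add_re, ofReal_re, mul_re, I_re, ofReal_im, I_im, zero_mul, mul_zero, sub_zero, add_zero]
    linarith
  have hsub : cexp E1 - cexp E2 = cexp E2 * (cexp (E1 - E2) - 1) := by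
    rw [mul_sub, ← Complex.exp_add]; ring_nf
  have hsubn : ‖cexp E1 - cexp E2‖ ≤ 2 * E := by
    rw [hsub, norm_mul]
    calc ‖cexp E2‖ * ‖cexp (E1 - E2) - 1‖ ≤ 1 * (2 * ‖E1 - E2‖) := by
          gcongr
          exact Complex.norm_exp_sub_one_le (hdiff.trans hE1)
      _ ≤ 2 * E := by linarith
  have hE1n : ‖cexp E1‖ ≤ 3 := by
    calc ‖cexp E1‖ = ‖(cexp E1 - cexp E2) + cexp E2‖ := by ring_nf
      _ ≤ ‖cexp E1 - cexp E2‖ + ‖cexp E2‖ := norm_add_le _ _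
      _ ≤ 3 := by linarith
  have huinv : ‖u⁻¹ - 1‖ ≤ G / t := by
    have : u⁻¹ - 1 = -(u - 1) * u⁻¹ := by field_simp; ring
    rw [this, norm_mul, norm_neg, norm_inv]
    calc ‖u - 1‖ * ‖u‖⁻¹ ≤ (G / s) * 1 := by
          gcongr
          exact inv_le_one_of_one_le₀ hu4
      _ ≤ G / t := by linarith
  have e5 : (Ps : ℂ) * u⁻¹ * cexp E1 - Pt * cexp E2 = Ps * (u⁻¹ - 1) * cexp E1 -
      ((Pt - Ps : ℝ) : ℂ) * cexp E1 + Pt * (cexp E1 - cexp E2) := by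
    push_cast; ring
  rw [e5]
  calc _ ≤ ‖(Ps : ℂ) * (u⁻¹ - 1) * cexp E1‖ + ‖((Pt - Ps : ℝ) : ℂ) * cexp E1‖ +
        ‖(Pt : ℂ) * (cexp E1 - cexp E2)‖ := by
        refine (norm_add_le _ _).trans ?_
        gcongr
        exact norm_sub_le _ _
    _ ≤ Pt * (G / t) * 3 + Pt * (k / t) * 3 + Pt * (2 * E) := by
        rw [norm_mul, norm_mul, norm_mul, norm_mul, Complex.norm_real, Complex.norm_real,
          Complex.norm_real, Real.norm_of_nonneg hPs0.le, Real.norm_of_nonneg hPt0.le,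
          Real.norm_of_nonneg (by linarith : (0 : ℝ) ≤ Pt - Ps)]
        gcongr
    _ = _ := by ring


theorem B03_mul {T x y α β γ : ℝ} (hT : 1 ≤ T) (hx : x ≤ T ^ α) (hy0 : 0 ≤ y) (hy : y ≤ T ^ β)
    (h : α + β ≤ γ) : x * y ≤ T ^ γ := by
  have hT0 : 0 < T := by linarith
  calc x * y ≤ T ^ α * T ^ β := mul_le_mul hx hy hy0 (by positivity)
    _ = T ^ (α + β) := (Real.rpow_add hT0 _ _).symm
    _ ≤ T ^ γ := Real.rpow_le_rpow_of_exponent_le hT h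

theorem half_J0 (η ε : ℝ) (hη : 0 < η) (hη1 : η ≤ 1 / 80) (hε : 0 < ε) (hε1 : ε ≤ η / 100) :
    ∃ T₀ : ℝ, ∀ T t ρ : ℝ, ∀ k : ℕ, T₀ ≤ T → T ^ (1 - ε) ≤ t → t ≤ T ^ (1 + ε) → 1 ≤ k → k < KK η ε T →
      0 < ρ → ρ ≤ k / NN T →
      ‖((2 * Real.pi * k / (t + Real.pi * k / 6)) ^ (-(1 / 4) : ℝ) : ℝ) *
        (Real.sqrt Real.pi / ((GG η T : ℝ) - (t + Real.pi * k / 6 : ℝ) * I : ℂ) ^ (1 / 2 : ℂ) *
          cexp (-(2 * (((GG η T : ℝ) - (t + Real.pi * k / 6 : ℝ) * I : ℂ) ^ (1 / 2 : ℂ) *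
            ((2 * ρ : ℝ) - 2 * Real.pi * I * k : ℂ) ^ (1 / 2 : ℂ))))) - J0 (GG η T) t k‖
        ≤ T ^ (-(5 / 8) + 6 * η) := by
  refine ⟨(60 : ℝ) ^ (1 / (1 * η)), ?_⟩
  intro T t ρ k hT0 ht1 ht2 hk1 hkK hρ0 hρ1
  have h60 : (1 : ℝ) ≤ (60 : ℝ) ^ (1 / (1 * η)) := Real.one_le_rpow (by norm_num) (by positivity)
  have hT : 1 ≤ T := h60.trans hT0
  have hTp : 0 < T := by linarith
  have hT60 : (60 : ℝ) ≤ T ^ (1 * η) := by
    have := Real.rpow_le_rpow (by positivity) hT0 (by positivity : (0 : ℝ) ≤ 1 * η)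
    rw [← Real.rpow_mul (by norm_num)] at this
    rw [one_div_mul_cancel (by positivity), Real.rpow_one] at this
    exact this
  have hmono : ∀ x y : ℝ, x ≤ y → T ^ x ≤ T ^ y := fun x y h => Real.rpow_le_rpow_of_exponent_le hT h
  have hk : (k : ℝ) ≤ T ^ (1 / 2 + 21 / 10 * η) := by
    unfold KK at hkK
    have := (Nat.lt_ceil.mp hkK).le
    exact this.trans (hmono _ _ (by linarith))
  have hk0 : (0 : ℝ) < k := by exact_mod_cast hk1
  have hk1' : (1 : ℝ) ≤ k := by exact_mod_cast hk1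
  have ht3 : T ^ (1 - η / 100) ≤ t := (hmono _ _ (by linarith)).trans ht1
  have ht4 : t ≤ T ^ (1 + η / 100) := ht2.trans (hmono _ _ (by linarith))
  have ht : 0 < t := lt_of_lt_of_le (by positivity) ht3
  have hkt : (k : ℝ) ≤ t := hk.trans ((hmono _ _ (by linarith)).trans ht3)
  have hGt : GG η T ≤ t := by
    unfold GG
    exact (hmono _ _ (by linarith)).trans ht3
  have hG : 0 < GG η T := by unfold GG; positivity
  have hka : ∀ c : ℝ, 0 ≤ c → (k : ℝ) ^ c ≤ T ^ ((1 / 2 + 21 / 10 * η) * c) := by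
    intro c hc
    rw [Real.rpow_mul hTp.le]
    exact Real.rpow_le_rpow hk0.le hk hc
  have hta : ∀ c : ℝ, 0 ≤ c → t ^ (-c) ≤ T ^ (-((1 - η / 100) * c)) := by
    intro c hc
    rw [show -((1 - η / 100) * c) = (1 - η / 100) * (-c) by ring, Real.rpow_mul hTp.le]
    exact Real.rpow_le_rpow_of_nonpos (by positivity) ht3 (by linarith)
  have htb : ∀ c : ℝ, 0 ≤ c → t ^ c ≤ T ^ ((1 + η / 100) * c) := by
    intro c hc
    rw [Real.rpow_mul hTp.le]
    exact Real.rpow_le_rpow ht.le ht4 hc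
  set F := ((k : ℝ) * t) ^ (-(1 / 4) : ℝ) with hFdef
  have hF0 : 0 < F := by positivity
  have hF : F ≤ T ^ (-(1 / 4) + η) := by
    rw [hFdef, Real.mul_rpow hk0.le ht.le]
    have h1 : (k : ℝ) ^ (-(1 / 4) : ℝ) ≤ 1 := Real.rpow_le_one_of_one_le_of_nonpos hk1' (by norm_num)
    have h2 := hta (1 / 4) (by norm_num)
    calc (k : ℝ) ^ (-(1 / 4) : ℝ) * t ^ (-(1 / 4) : ℝ) ≤ 1 * T ^ (-((1 - η / 100) * (1 / 4))) := by
          gcongr
      _ ≤ T ^ (-(1 / 4) + η) := by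
          rw [one_mul]; exact hmono _ _ (by linarith)
  have hGt2 : GG η T / t ≤ T ^ (-(3 / 4) : ℝ) := by
    rw [div_eq_mul_inv, ← Real.rpow_neg_one t]
    exact B03_mul hT (le_of_eq rfl : GG η T ≤ T ^ (1 / 4 - η)) (by positivity) (hta 1 (by norm_num))
      (by linarith)
  have hkt2 : (k : ℝ) / t ≤ T ^ (-(1 / 2) + 3 * η) := by
    rw [div_eq_mul_inv, ← Real.rpow_neg_one t]
    exact B03_mul hT hk (by positivity) (hta 1 (by norm_num)) (by linarith)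
  have hsq : Real.sqrt (k * t) ≤ T ^ (3 / 4 + 2 * η) := by
    rw [Real.sqrt_eq_rpow, Real.mul_rpow hk0.le ht.le]
    exact B03_mul hT (hka (1 / 2) (by norm_num)) (by positivity) (htb (1 / 2) (by norm_num))
      (by linarith)
  have hρk : ρ / k ≤ T ^ (-(3 / 2) : ℝ) := by
    rw [div_le_iff₀ hk0]
    refine hρ1.trans (le_of_eq ?_)
    unfold NN
    rw [Real.rpow_neg hTp.le]; field_simp
  -- powers
  have hk52 : (k : ℝ) ^ 2 * Real.sqrt k = (k : ℝ) ^ (5 / 2 : ℝ) := by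
    rw [Real.sqrt_eq_rpow, ← Real.rpow_natCast, ← Real.rpow_add hk0]; norm_num
  have hk32 : (k : ℝ) * Real.sqrt k = (k : ℝ) ^ (3 / 2 : ℝ) := by
    rw [Real.sqrt_eq_rpow]
    nth_rewrite 1 [← Real.rpow_one (k : ℝ)]
    rw [← Real.rpow_add hk0]; norm_num
  have ht32 : (t * Real.sqrt t)⁻¹ = t ^ (-(3 / 2) : ℝ) := by
    rw [Real.sqrt_eq_rpow, Real.rpow_neg ht.le]
    nth_rewrite 1 [← Real.rpow_one t]
    rw [← Real.rpow_add ht]; norm_num
  obtain ⟨E, hEdef⟩ : ∃ E : ℝ, E = 4 * Real.sqrt (k * t) * (GG η T / t) ^ 2 +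
      6 * Real.sqrt (k * t) * (ρ / k) +
      (k : ℝ) ^ 2 * Real.sqrt k / (t * Real.sqrt t) + GG η T * k * Real.sqrt k / (t * Real.sqrt t) :=
    ⟨_, rfl⟩
  have hA : Real.sqrt (k * t) * (GG η T / t) ^ 2 ≤ T ^ (-(3 / 4) + 2 * η) := by
    refine B03_mul hT hsq (by positivity) (?_ : (GG η T / t) ^ 2 ≤ T ^ (-(3 / 2) : ℝ)) (by linarith)
    rw [sq]
    exact B03_mul hT hGt2 (by positivity) hGt2 (by norm_num)
  have hB : Real.sqrt (k * t) * (ρ / k) ≤ T ^ (-(3 / 4) + 2 * η) :=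
    B03_mul hT hsq (by positivity) hρk (by linarith)
  have hC : (k : ℝ) ^ 2 * Real.sqrt k / (t * Real.sqrt t) ≤ T ^ (-(1 / 4) + 6 * η) := by
    rw [div_eq_mul_inv, ht32, hk52]
    exact B03_mul hT (hka (5 / 2) (by norm_num)) (by positivity) (hta (3 / 2) (by norm_num))
      (by linarith)
  have hD : GG η T * k * Real.sqrt k / (t * Real.sqrt t) ≤ T ^ (-(1 / 2) + 4 * η) := by
    rw [div_eq_mul_inv, ht32, mul_assoc (GG η T), hk32]
    refine B03_mul hT (?_ : GG η T * (k : ℝ) ^ (3 / 2 : ℝ) ≤ T ^ (1 + 3 * η)) (by positivity)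
      (hta (3 / 2) (by norm_num)) (by linarith)
    exact B03_mul hT (le_of_eq rfl : GG η T ≤ T ^ (1 / 4 - η)) (by positivity)
      (hka (3 / 2) (by norm_num)) (by linarith)
  have hE1 : E ≤ 1 := by
    have a1 := hmono (-(3 / 4) + 2 * η) (-(1 / 8)) (by linarith)
    have a2 := hmono (-(1 / 4) + 6 * η) (-(1 / 8)) (by linarith)
    have a3 := hmono (-(1 / 2) + 4 * η) (-(1 / 8)) (by linarith)
    have a4 : T ^ (-(1 / 8) : ℝ) ≤ 1 / 60 := by
      rw [Real.rpow_neg hTp.le, inv_eq_one_div]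
      apply one_div_le_one_div_of_le (by norm_num)
      exact hT60.trans (hmono _ _ (by linarith))
    rw [hEdef]
    have e1 : 4 * Real.sqrt (k * t) * (GG η T / t) ^ 2 = 4 * (Real.sqrt (k * t) * (GG η T / t) ^ 2) := by
      ring
    have e2 : 6 * Real.sqrt (k * t) * (ρ / k) = 6 * (Real.sqrt (k * t) * (ρ / k)) := by ring
    rw [e1, e2]
    linarith
  have hmain := B03_main (E := E) hG hGt hρ0 hk1 hkt (le_of_eq hEdef.symm) hE1
  refine hmain.trans ?_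
  rw [← hFdef]
  have hpi4 : (Real.pi / 2) ^ (1 / 4 : ℝ) ≤ 2 := by
    have h1 : Real.pi / 2 ≤ 2 := by linarith [Real.pi_lt_d2]
    calc (Real.pi / 2) ^ (1 / 4 : ℝ) ≤ 2 ^ (1 / 4 : ℝ) :=
          Real.rpow_le_rpow (by positivity) h1 (by norm_num)
      _ ≤ 2 ^ (1 : ℝ) := Real.rpow_le_rpow_of_exponent_le (by norm_num) (by norm_num)
      _ = 2 := Real.rpow_one 2
  set Q := T ^ (-(5 / 8) + 5 * η) with hQ
  have b1 : F * (GG η T / t) ≤ Q := B03_mul hT hF (by positivity) hGt2 (by linarith)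
  have b2 : F * (k / t) ≤ Q := B03_mul hT hF (by positivity) hkt2 (by linarith)
  have b3 : F * (Real.sqrt (k * t) * (GG η T / t) ^ 2) ≤ Q :=
    B03_mul hT hF (by positivity) hA (by linarith)
  have b4 : F * (Real.sqrt (k * t) * (ρ / k)) ≤ Q :=
    B03_mul hT hF (by positivity) hB (by linarith)
  have b5 : F * ((k : ℝ) ^ 2 * Real.sqrt k / (t * Real.sqrt t)) ≤ Q := by
    rw [div_eq_mul_inv, ht32, hk52, hFdef, Real.mul_rpow hk0.le ht.le]
    have e1 : (k : ℝ) ^ (-(1 / 4) : ℝ) * t ^ (-(1 / 4) : ℝ) * ((k : ℝ) ^ (5 / 2 : ℝ) * t ^ (-(3 / 2) : ℝ))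
        = (k : ℝ) ^ (9 / 4 : ℝ) * t ^ (-(7 / 4) : ℝ) := by
      have i1 : (k : ℝ) ^ (9 / 4 : ℝ) = (k : ℝ) ^ (-(1 / 4) : ℝ) * (k : ℝ) ^ (5 / 2 : ℝ) := by
        rw [← Real.rpow_add hk0]; norm_num
      have i2 : t ^ (-(7 / 4) : ℝ) = t ^ (-(1 / 4) : ℝ) * t ^ (-(3 / 2) : ℝ) := by
        rw [← Real.rpow_add ht]; norm_num
      rw [i1, i2]; ring
    rw [e1]
    exact B03_mul hT (hka (9 / 4) (by norm_num)) (by positivity) (hta (7 / 4) (by norm_num))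
      (by linarith)
  have b6 : F * (GG η T * k * Real.sqrt k / (t * Real.sqrt t)) ≤ Q :=
    B03_mul hT hF (by positivity) hD (by linarith)
  have hsum : F * (3 * (GG η T / t) + 3 * (k / t) + 2 * E) ≤ 30 * Q := by
    rw [hEdef]
    linarith
  have hX0 : 0 ≤ F * (3 * (GG η T / t) + 3 * (k / t) + 2 * E) := by
    have : 0 ≤ E := by rw [hEdef]; positivity
    positivity
  calc (Real.pi / 2) ^ (1 / 4 : ℝ) * F * (3 * (GG η T / t) + 3 * (k / t) + 2 * E)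
      = (Real.pi / 2) ^ (1 / 4 : ℝ) * (F * (3 * (GG η T / t) + 3 * (k / t) + 2 * E)) := by ring
    _ ≤ 2 * (30 * Q) := by gcongr
    _ = Q * 60 := by ring
    _ ≤ Q * T ^ (1 * η) := by gcongr
    _ = T ^ (-(5 / 8) + 6 * η) := by
        rw [hQ, ← Real.rpow_add hTp]; ring_nf

end U6
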