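import Pool.Agent.Lib.MP_39df77_nt.U6.B01
import Pool.Agent.Lib.MP_39df77_nt.U6.B02
import Pool.Agent.Lib.MP_39df77_nt.U6.B03
/-! B04: assembly of B01, A01, B02, B03. -/
open Complex MeasureTheory Set
namespace U6

theorem B04_key (G t' ρ : ℝ) (k : ℕ) (hG : 0 < G) (ht : 0 < t') (hρ : 0 < ρ) (hk : 1 ≤ k) {C : ℝ}
    (hC : ∀ G t ρ k : ℝ, 0 < G → 0 < t → 0 < ρ → 0 < k →
    ‖(∫ w in Ioi (0 : ℝ), cexp (-(((G : ℝ) - t * I) * w) - ((2 * ρ : ℝ) - 2 * Real.pi * I * k) / w) / w) -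
      ((2 * Real.pi * k / t) ^ (-(1 / 4) : ℝ) : ℝ) *
        ∫ w in Ioi (0 : ℝ), ((Real.sqrt w)⁻¹ : ℂ) *
          cexp (-(((G : ℝ) - t * I) * w) - ((2 * ρ : ℝ) - 2 * Real.pi * I * k) / w)‖ ≤
      C / Real.sqrt (k * t)) :
    ‖(∫ w in Ioi (0 : ℝ),
          cexp (-(((G : ℝ) - (t' : ℝ) * I) * w) - ((2 * ρ : ℝ) - 2 * Real.pi * I * k) / w) / w) -
      ((2 * Real.pi * k / t') ^ (-(1 / 4) : ℝ) : ℝ) *
        (Real.sqrt Real.pi / ((G : ℝ) - (t' : ℝ) * I : ℂ) ^ (1 / 2 : ℂ) *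
          cexp (-(2 * (((G : ℝ) - (t' : ℝ) * I : ℂ) ^ (1 / 2 : ℂ) *
            ((2 * ρ : ℝ) - 2 * Real.pi * I * k : ℂ) ^ (1 / 2 : ℂ)))))‖ ≤ C / Real.sqrt (k * t') := by
  have hk0 : (0 : ℝ) < (k : ℝ) := by exact_mod_cast hk
  have h1 := hC G t' ρ (k : ℝ) hG ht hρ hk0
  have ha : 0 < (((G : ℝ) : ℂ) - (t' : ℝ) * I).re := by simp [hG]
  have hb : 0 < (((2 * ρ : ℝ) : ℂ) - 2 * Real.pi * I * (k : ℂ)).re := by
    have e : (((2 * ρ : ℝ) : ℂ) - 2 * Real.pi * I * (k : ℂ)).re = 2 * ρ := by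
      simp
    rw [e]; positivity
  have h2 := int_exp_half ha hb
  rw [ofReal_natCast] at h1
  rw [h2] at h1
  exact h1

theorem II_pos (η ε : ℝ) (hη : 0 < η) (hη1 : η ≤ 1 / 80) (hε : 0 < ε) (hε1 : ε ≤ η / 100) :
    ∃ T₀ : ℝ, ∀ T t ρ : ℝ, ∀ k : ℕ, T₀ ≤ T → T ^ (1 - ε) ≤ t → t ≤ T ^ (1 + ε) → 1 ≤ k → k < KK η ε T →
      0 < ρ → ρ ≤ k / NN T →
      ‖II (GG η T) t k ρ - J0 (GG η T) t k‖ ≤ T ^ (7 * η) * ((k * T) ^ (-(1 / 2) : ℝ) + T ^ (-(5 / 8) : ℝ)) := by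
  obtain ⟨T1, h1⟩ := II_bes η ε hη hη1 hε hε1
  obtain ⟨T3, h3⟩ := half_J0 η ε hη hη1 hε hε1
  obtain ⟨C, hC0, h2⟩ := bes_half
  refine ⟨max (max T1 T3) (max 1 (max (C ^ (1 / (6 * η))) (2 ^ (1 / η)))), ?_⟩
  intro T t ρ k hT htl htu hk hkK hρ hρk
  have hT1 : T1 ≤ T := le_trans (le_trans (le_max_left _ _) (le_max_left _ _)) hT
  have hT3 : T3 ≤ T := le_trans (le_trans (le_max_right _ _) (le_max_left _ _)) hT
  have hTm : max 1 (max (C ^ (1 / (6 * η))) (2 ^ (1 / η))) ≤ T := le_trans (le_max_right _ _) hT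
  have hT0 : (1 : ℝ) ≤ T := le_trans (le_max_left _ _) hTm
  have hTC : C ^ (1 / (6 * η)) ≤ T :=
    le_trans (le_trans (le_max_left _ _) (le_max_right _ _)) hTm
  have hT2 : (2 : ℝ) ^ (1 / η) ≤ T :=
    le_trans (le_trans (le_max_right _ _) (le_max_right _ _)) hTm
  have hTpos : (0 : ℝ) < T := lt_of_lt_of_le one_pos hT0
  have hC9 : C ≤ T ^ (6 * η) := by
    have h := Real.rpow_le_rpow (Real.rpow_nonneg hC0.le _) hTC (by positivity : (0 : ℝ) ≤ 6 * η)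
    rwa [← Real.rpow_mul hC0.le, one_div_mul_cancel (by positivity), Real.rpow_one] at h
  have h2η : (2 : ℝ) ≤ T ^ η := by
    have h := Real.rpow_le_rpow (Real.rpow_nonneg (by norm_num : (0 : ℝ) ≤ 2) _) hT2 hη.le
    rwa [← Real.rpow_mul (by norm_num : (0 : ℝ) ≤ 2), one_div_mul_cancel hη.ne', Real.rpow_one] at h
  have hk0 : (0 : ℝ) < (k : ℝ) := by exact_mod_cast hk
  have htpos : 0 < t := lt_of_lt_of_le (Real.rpow_pos_of_pos hTpos _) htl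
  have hG : 0 < GG η T := Real.rpow_pos_of_pos hTpos _
  set t' : ℝ := t + Real.pi * k / 6 with ht'
  have ht't : t ≤ t' := by rw [ht']; have := Real.pi_pos; nlinarith [mul_pos this hk0]
  have ht'pos : 0 < t' := lt_of_lt_of_le htpos ht't
  have b1 := h1 T t ρ k hT1 htl htu hk hkK hρ hρk
  have b2 := B04_key (GG η T) t' ρ k hG ht'pos hρ hk h2
  have b3 := h3 T t ρ k hT3 htl htu hk hkK hρ hρk
  rw [← ht'] at b1 b3
  have b4 : C / Real.sqrt (k * t') ≤ T ^ (7 * η) * ((k : ℝ) * T) ^ (-(1 / 2) : ℝ) := by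
    have e1 : T ^ (1 - ε) * k ≤ k * t' := by nlinarith
    have e2 : Real.sqrt (T ^ (1 - ε) * k) ≤ Real.sqrt (k * t') := Real.sqrt_le_sqrt e1
    have e3 : 0 < T ^ (1 - ε) * k := mul_pos (Real.rpow_pos_of_pos hTpos _) hk0
    have e4 : 0 < Real.sqrt (T ^ (1 - ε) * k) := Real.sqrt_pos.mpr e3
    calc C / Real.sqrt (k * t') ≤ C / Real.sqrt (T ^ (1 - ε) * k) :=
          div_le_div_of_nonneg_left hC0.le e4 e2
      _ = C * (T ^ (1 - ε) * k) ^ (-(1 / 2) : ℝ) := by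
          rw [Real.sqrt_eq_rpow, div_eq_mul_inv, ← Real.rpow_neg e3.le]
      _ = C * (T ^ (ε / 2) * ((k : ℝ) * T) ^ (-(1 / 2) : ℝ)) := by
          congr 1
          rw [Real.mul_rpow (Real.rpow_nonneg hTpos.le _) hk0.le,
            Real.mul_rpow hk0.le hTpos.le, ← Real.rpow_mul hTpos.le,
            mul_comm ((k : ℝ) ^ (-(1 / 2) : ℝ)), ← mul_assoc, ← Real.rpow_add hTpos]
          congr 2
          ring
      _ ≤ T ^ (6 * η) * (T ^ (ε / 2) * ((k : ℝ) * T) ^ (-(1 / 2) : ℝ)) := by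
          refine mul_le_mul_of_nonneg_right hC9 (by positivity)
      _ = T ^ (6 * η + ε / 2) * ((k : ℝ) * T) ^ (-(1 / 2) : ℝ) := by
          rw [← mul_assoc, ← Real.rpow_add hTpos]
      _ ≤ T ^ (7 * η) * ((k : ℝ) * T) ^ (-(1 / 2) : ℝ) := by
          refine mul_le_mul_of_nonneg_right
            (Real.rpow_le_rpow_of_exponent_le hT0 (by linarith)) (by positivity)
  have b5 : T ^ (-(5 / 8) + 6 * η) + T ^ (-(5 / 8) + 6 * η) ≤ T ^ (7 * η) * T ^ (-(5 / 8) : ℝ) := by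
    have e1 : T ^ (-(5 / 8) + 6 * η) ≤ T ^ (-(5 / 8) + 6 * η) :=
      Real.rpow_le_rpow_of_exponent_le hT0 (by linarith)
    calc T ^ (-(5 / 8) + 6 * η) + T ^ (-(5 / 8) + 6 * η) ≤ 2 * T ^ (-(5 / 8) + 6 * η) := by linarith
      _ ≤ T ^ η * T ^ (-(5 / 8) + 6 * η) :=
          mul_le_mul_of_nonneg_right h2η (Real.rpow_nonneg hTpos.le _)
      _ = T ^ (7 * η) * T ^ (-(5 / 8) : ℝ) := by
          rw [← Real.rpow_add hTpos, ← Real.rpow_add hTpos]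
          congr 1; ring
  calc ‖II (GG η T) t k ρ - J0 (GG η T) t k‖ ≤ T ^ (-(5 / 8) + 6 * η) +
        C / Real.sqrt (k * t') + T ^ (-(5 / 8) + 6 * η) := by
        refine le_trans ?_ (add_le_add (add_le_add b1 b2) b3)
        refine le_trans (le_of_eq ?_) (norm_add₃_le)
        congr 1
        ring
    _ ≤ T ^ (7 * η) * ((k * T) ^ (-(1 / 2) : ℝ) + T ^ (-(5 / 8) : ℝ)) := by
        refine le_trans (le_of_eq ?_) (le_trans (add_le_add b4 b5) (le_of_eq ?_))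
        · ring
        · ring
end U6
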