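import Pool.Agent.Lib.MP_39df77_nt.U6.B04
import Pool.Agent.Lib.MP_39df77_nt.U6.A09
import Pool.Agent.Lib.MP_39df77_nt.U6.A11
import Pool.Agent.Lib.MP_39df77_nt.U6.A12
import Pool.Agent.Lib.MP_39df77_nt.U6.A13
/-! B05: `Z = 2 Re Y + O(T^{-1/200})` on the window `T^{1-ε} ≤ t ≤ T^{1+ε}`.
`B - mN = 2 Re ∑_h ∑_{m ∈ ℤ} (-1)^{hm} II(hm, h/N)` (A12, A11); `m = 0` is `M0`; `m < 0`: II_neg; `m > 0`, `hm ≥ K`: II_inf with
`R = T^ε` (`R³ t ≤ K G²`, `4R+2 ≤ G ≤ t`), `∑ d(k)/k² < ∞`; `hm < K`: II_pos and `∑_{hm<K} F(hm) = ∑_{k<K} d(k) F(k)`; error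
`∑_{k<K} d(k) T^{7η} ((kT)^{-1/2} + T^{-5/8}) ≤ T^{-1/100}`. -/
open Complex MeasureTheory Set
namespace U6

/-- the pairs with `(h+1)(m+1) < K` -/
def SK (K : ℕ) : Finset (ℕ × ℕ) :=
  (Finset.range K ×ˢ Finset.range K).filter fun p => (p.1 + 1) * (p.2 + 1) < K

theorem mem_SK {K : ℕ} {p : ℕ × ℕ} : p ∈ SK K ↔ (p.1 + 1) * (p.2 + 1) < K := by
  rw [SK, Finset.mem_filter, Finset.mem_product, Finset.mem_range, Finset.mem_range]
  refine ⟨fun h => h.2, fun h => ⟨⟨?_, ?_⟩, h⟩⟩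
  · nlinarith
  · nlinarith

theorem sum_SK {M : Type*} [AddCommMonoid M] (K : ℕ) (g : ℕ → M) :
    ∑ p ∈ SK K, g ((p.1 + 1) * (p.2 + 1)) = ∑ k ∈ Finset.Ico 1 K, dv k • g k := by
  classical
  have h1 : ∀ p ∈ SK K, (p.1 + 1) * (p.2 + 1) ∈ Finset.Ico 1 K := by
    intro p hp
    rw [mem_SK] at hp
    rw [Finset.mem_Ico]
    refine ⟨?_, hp⟩
    exact Nat.one_le_iff_ne_zero.2 (by positivity)
  rw [← Finset.sum_fiberwise_of_maps_to h1]
  refine Finset.sum_congr rfl fun k hk => ?_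
  rw [Finset.mem_Ico] at hk
  have h2 : ∀ p ∈ (SK K).filter (fun p => (p.1 + 1) * (p.2 + 1) = k),
      g ((p.1 + 1) * (p.2 + 1)) = g k := by
    intro p hp
    rw [(Finset.mem_filter.1 hp).2]
  rw [Finset.sum_congr rfl h2, Finset.sum_const]
  congr 1
  rw [dv]
  refine Finset.card_bij (fun p _ => p.1 + 1) ?_ ?_ ?_
  · intro p hp
    rw [Nat.mem_divisors]
    exact ⟨⟨p.2 + 1, (Finset.mem_filter.1 hp).2.symm⟩, by omega⟩
  · intro p hp p' hp' h
    have e1 := (Finset.mem_filter.1 hp).2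
    have e2 := (Finset.mem_filter.1 hp').2
    have e3 : p.1 = p'.1 := by omega
    refine Prod.ext e3 ?_
    rw [e3, ← e2] at e1
    have := Nat.eq_of_mul_eq_mul_left (Nat.succ_pos _) e1
    omega
  · intro d hd
    rw [Nat.mem_divisors] at hd
    obtain ⟨⟨c, hc⟩, h0⟩ := hd
    have hd0 : d ≠ 0 := by
      rintro rfl
      rw [zero_mul] at hc
      exact h0 hc
    have hc0 : c ≠ 0 := by
      rintro rfl
      rw [mul_zero] at hc
      exact h0 hc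
    have e1 : d - 1 + 1 = d := Nat.succ_pred_eq_of_ne_zero hd0
    have e2 : c - 1 + 1 = c := Nat.succ_pred_eq_of_ne_zero hc0
    refine ⟨(d - 1, c - 1), ?_, e1⟩
    rw [Finset.mem_filter, mem_SK]
    dsimp only
    rw [e1, e2, ← hc]
    exact ⟨hk.2, rfl⟩

theorem sum_inv_sqrt (K : ℕ) :
    ∑ k ∈ Finset.Ico 1 (K + 1), (k : ℝ) ^ (-(1 / 2) : ℝ) ≤ 2 * Real.sqrt K := by
  induction K with
  | zero => simp
  | succ K ih =>
    rw [Finset.sum_Ico_succ_top (by omega)]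
    have h0 : (0 : ℝ) ≤ K := Nat.cast_nonneg K
    have h1 : ((K + 1 : ℕ) : ℝ) ^ (-(1 / 2) : ℝ) = (Real.sqrt ((K + 1 : ℕ) : ℝ))⁻¹ := by
      rw [Real.rpow_neg (by positivity), Real.sqrt_eq_rpow]
    rw [h1]
    set a := Real.sqrt (K : ℝ) with ha
    set b := Real.sqrt ((K + 1 : ℕ) : ℝ) with hb
    have hb0 : 0 < b := Real.sqrt_pos.2 (by positivity)
    have ha0 : 0 ≤ a := Real.sqrt_nonneg _
    have e1 : b ^ 2 = a ^ 2 + 1 := by
      rw [hb, ha, Real.sq_sqrt (by positivity), Real.sq_sqrt h0]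
      push_cast
      ring
    have h2 : b⁻¹ ≤ 2 * b - 2 * a := by
      rw [inv_le_iff_one_le_mul₀ hb0]
      nlinarith [sq_nonneg (b - a)]
    linarith

theorem Z_Y (η ε : ℝ) (hη : 0 < η) (hη1 : η ≤ 1 / 80) (hε : 0 < ε) (hε1 : ε ≤ η / 100) :
    ∃ T₀ : ℝ, ∀ T t : ℝ, T₀ ≤ T → T ^ (1 - ε) ≤ t → t ≤ T ^ (1 + ε) →
      |Z (NN T) (GG η T) t - 2 * (Y (GG η T) t (KK η ε T)).re| ≤ T ^ (-(1 / 200) : ℝ) := by
  obtain ⟨Tp, hTp⟩ := II_pos η ε hη hη1 hε hε1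
  obtain ⟨C1, hC1, hneg⟩ := II_neg
  obtain ⟨C2, hC2, hinf⟩ := II_inf
  obtain ⟨C3, hC3, hdv⟩ := dv_le (1 / 1000) (by norm_num)
  -- the constant `∑ 1/((h+1)(m+1))²`
  have hs1 : Summable (fun n : ℕ => 1 / ((n : ℝ) + 1) ^ 2) := by
    have := (summable_nat_add_iff 1).2 (Real.summable_one_div_nat_pow.2 (le_refl 2))
    simpa using this
  have hs2 : Summable (fun p : ℕ × ℕ => 1 / (((p.1 + 1) * (p.2 + 1) : ℕ) : ℝ) ^ 2) := by
    have := hs1.mul_of_nonneg hs1 (fun n => by positivity) (fun n => by positivity)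
    refine this.congr fun p => ?_
    push_cast
    rw [mul_pow, one_div_mul_one_div]
  set S0 : ℝ := ∑' p : ℕ × ℕ, 1 / (((p.1 + 1) * (p.2 + 1) : ℕ) : ℝ) ^ 2 with hS0
  have hS0n : 0 ≤ S0 := tsum_nonneg fun p => by positivity
  -- conditions on `T`
  have hev1 : ∀ᶠ T : ℝ in Filter.atTop, 8 ≤ T ^ ε :=
    (tendsto_rpow_atTop hε).eventually_ge_atTop 8
  have hev2 : ∀ᶠ T : ℝ in Filter.atTop, 6 ≤ T ^ (1 / 4 - η - ε) :=
    (tendsto_rpow_atTop (by linarith)).eventually_ge_atTop 6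
  have hev3 : ∀ᶠ T : ℝ in Filter.atTop, 2 * S0 * C2 * (T ^ (7 : ℝ) * Real.exp (-(T ^ ε))) ≤ 1 / 4 := by
    have h1 := (tendsto_rpow_mul_exp_neg_mul_atTop_nhds_zero (7 / ε) 1 one_pos).comp
      (tendsto_rpow_atTop hε)
    have h1' := h1.const_mul (2 * S0 * C2)
    rw [mul_zero] at h1'
    have h2 := h1'.eventually_le_const (show (0 : ℝ) < 1 / 4 by norm_num)
    filter_upwards [h2, Filter.eventually_gt_atTop 0] with T h3 hT
    have e1 : (T ^ ε) ^ (7 / ε) = T ^ (7 : ℝ) := by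
      rw [← Real.rpow_mul hT.le]
      congr 1
      field_simp
    simp only [Function.comp_apply, e1, neg_mul, one_mul] at h3
    exact h3
  have hev4 : ∀ᶠ T : ℝ in Filter.atTop,
      2 * S0 * C1 * (T ^ (1 : ℝ) * Real.exp (-(T ^ (1 / 4 : ℝ)))) ≤ 1 / 4 := by
    have h1 := (tendsto_rpow_mul_exp_neg_mul_atTop_nhds_zero 4 1 one_pos).comp
      (tendsto_rpow_atTop (y := 1 / 4) (by norm_num))
    have h1' := h1.const_mul (2 * S0 * C1)
    rw [mul_zero] at h1'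
    have h2 := h1'.eventually_le_const (show (0 : ℝ) < 1 / 4 by norm_num)
    filter_upwards [h2, Filter.eventually_gt_atTop 0] with T h3 hT
    have e1 : (T ^ (1 / 4 : ℝ)) ^ (4 : ℝ) = T ^ (1 : ℝ) := by
      rw [← Real.rpow_mul hT.le]
      norm_num
    simp only [Function.comp_apply, e1, neg_mul, one_mul] at h3
    exact h3
  have hev5 : ∀ᶠ T : ℝ in Filter.atTop, 48 * C3 ≤ T ^ (1 / 100 - 1 / 200 : ℝ) :=
    (tendsto_rpow_atTop (by norm_num)).eventually_ge_atTop (48 * C3)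
  obtain ⟨T₀, hT₀⟩ := Filter.eventually_atTop.1
    (((hev1.and hev2).and (hev3.and hev4)).and (hev5.and
      ((Filter.eventually_ge_atTop (1 : ℝ)).and (Filter.eventually_ge_atTop Tp))))
  refine ⟨T₀, fun T t hT ht1 ht2 => ?_⟩
  obtain ⟨⟨⟨c1, c2⟩, c3, c4⟩, c5, hT1, hTTp⟩ := hT₀ T hT
  have hT0 : 0 < T := by linarith
  have hεs : ε ≤ 1 / 8000 := by linarith
  set N := NN T with hN
  set G := GG η T with hG
  set K := KK η ε T with hK
  have hN1 : 1 ≤ N := Real.one_le_rpow hT1 (by norm_num)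
  have hN0 : 0 < N := by linarith
  have hG1 : 4 * T ^ ε + 2 ≤ G := by
    have e1 : G = T ^ ε * T ^ (1 / 4 - η - ε) := by
      rw [hG, GG, ← Real.rpow_add hT0]
      congr 1
      ring
    rw [e1]
    nlinarith
  have hG4 : 4 ≤ G := by linarith
  have ht0 : 1 ≤ t := (Real.one_le_rpow hT1 (by linarith)).trans ht1
  have ht0' : 0 < t := by linarith
  have hRt : T ^ ε ≤ t := (Real.rpow_le_rpow_of_exponent_le hT1 (by linarith)).trans ht1
  have hGt : G ≤ t := (Real.rpow_le_rpow_of_exponent_le hT1 (by linarith)).trans ht1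
  have htT : t ^ 3 ≤ T ^ (6 : ℝ) := by
    calc t ^ 3 ≤ (T ^ (1 + ε)) ^ 3 := pow_le_pow_left₀ ht0'.le ht2 3
      _ = T ^ ((1 + ε) * 3) := by
          rw [← Real.rpow_natCast, ← Real.rpow_mul hT0.le]
          norm_num
      _ ≤ T ^ (6 : ℝ) := Real.rpow_le_rpow_of_exponent_le hT1 (by linarith)
  -- the double series
  let F : ℕ → ℤ → ℂ := fun h m => (-1 : ℂ) ^ ((h : ℤ) * m) * II G t (h * m) ((h : ℝ) / N)
  have hFn : ∀ h m, ‖F h m‖ = ‖II G t (h * m) ((h : ℝ) / N)‖ := by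
    intro h m
    change ‖(-1 : ℂ) ^ ((h : ℤ) * m) * _‖ = _
    rw [norm_mul, norm_zpow, norm_neg, norm_one, one_zpow, one_mul]
  have hFs : ∀ h : ℕ, Summable (F (h + 1)) := by
    intro h
    apply Summable.of_norm
    refine (II_summable (t := t) hN1 hG4 (h + 1) (by omega)).congr fun m => ?_
    rw [hFn]
  let v : ℕ × ℕ → ℂ := fun p => F (p.1 + 1) (p.2 + 1) + F (p.1 + 1) (-(p.2 + 1))
  have hA : ∀ h : ℕ, ∑' n : ℕ, f N G t (h + 1) (n + 1) =
      II G t 0 ((h + 1 : ℝ) / N) + ∑' m : ℕ, v (h, m) := by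
    intro h
    have h1 := poisson_h (t := t) hN1 hG4 (h + 1) (by omega)
    push_cast at h1
    have h2 : ∑' m : ℤ, (-1 : ℂ) ^ (((h : ℤ) + 1) * m) * II G t ((h + 1) * m) (((h : ℝ) + 1) / N) =
        ∑' m : ℤ, F (h + 1) m := by
      refine tsum_congr fun m => ?_
      change _ = (-1 : ℂ) ^ (((h + 1 : ℕ) : ℤ) * m) * II G t ((h + 1 : ℕ) * m) (((h + 1 : ℕ) : ℝ) / N)
      push_cast
      rfl
    rw [h1, h2]
    have hs := hFs h
    have hp : Summable (fun n : ℕ => F (h + 1) (n : ℤ)) :=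
      hs.comp_injective Nat.cast_injective
    have hp' : Summable (fun n : ℕ => F (h + 1) ((n : ℤ) + 1)) := by
      have := (summable_nat_add_iff 1).2 hp
      simpa using this
    have hn : Summable (fun n : ℕ => F (h + 1) (-((n : ℤ) + 1))) := by
      refine hs.comp_injective (i := fun n : ℕ => -((n : ℤ) + 1)) fun a b hab => ?_
      dsimp only at hab
      omega
    rw [tsum_of_nat_of_neg_add_one hp hn, hp.tsum_eq_zero_add, add_assoc]
    congr 1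
    · change (-1 : ℂ) ^ (((h + 1 : ℕ) : ℤ) * ((0 : ℕ) : ℤ)) * II G t ((h + 1 : ℕ) * ((0 : ℕ) : ℤ))
        (((h + 1 : ℕ) : ℝ) / N) = _
      simp
    · have e0 : ∀ b : ℕ, F (h + 1) ((b + 1 : ℕ) : ℤ) = F (h + 1) ((b : ℤ) + 1) := fun b => by
        rw [Nat.cast_add_one]
      rw [tsum_congr e0, ← hp'.tsum_add hn]
  -- bounds
  let j : ℕ → ℂ := fun k => if k < K then (-1) ^ k * J0 G t k else 0
  let F1 : ℕ → ℝ := fun k => T ^ (7 * η) * ((k * T) ^ (-(1 / 2) : ℝ) + T ^ (-(5 / 8) : ℝ))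
  let F2 : ℕ → ℝ := fun k => if k < K then F1 k else 0
  set c0 : ℝ := C2 * t ^ 3 * Real.exp (-(T ^ ε)) + C1 * Real.exp (-Real.sqrt t) with hc0
  have hF1 : ∀ k, 0 ≤ F1 k := fun k => by
    change 0 ≤ T ^ (7 * η) * ((k * T) ^ (-(1 / 2) : ℝ) + T ^ (-(5 / 8) : ℝ))
    positivity
  have hu : ∀ p : ℕ × ℕ, ‖v p - j ((p.1 + 1) * (p.2 + 1))‖ ≤
      F2 ((p.1 + 1) * (p.2 + 1)) + c0 * (1 / (((p.1 + 1) * (p.2 + 1) : ℕ) : ℝ) ^ 2) := by
    rintro ⟨h, m⟩
    dsimp only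
    set k : ℕ := (h + 1) * (m + 1) with hk
    have hk1 : 1 ≤ k := Nat.one_le_iff_ne_zero.2 (by rw [hk]; positivity)
    have hk0 : (0 : ℝ) < (k : ℝ) ^ 2 := by positivity
    have hhk : h + 1 ≤ k := by rw [hk]; nlinarith
    have hρ : 0 < ((h + 1 : ℕ) : ℝ) / N := by positivity
    have eP : F (h + 1) (m + 1) = (-1) ^ k * II G t (k : ℤ) (((h + 1 : ℕ) : ℝ) / N) := by
      have e1 : ((h + 1 : ℕ) : ℤ) * ((m : ℤ) + 1) = ((k : ℕ) : ℤ) := by
        rw [hk]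
        push_cast
        ring
      change (-1 : ℂ) ^ (((h + 1 : ℕ) : ℤ) * ((m : ℤ) + 1)) *
        II G t (((h + 1 : ℕ) : ℤ) * ((m : ℤ) + 1)) (((h + 1 : ℕ) : ℝ) / N) = _
      rw [e1, zpow_natCast]
    have eM : ‖F (h + 1) (-(m + 1))‖ = ‖II G t (-(k : ℤ)) (((h + 1 : ℕ) : ℝ) / N)‖ := by
      have e1 : ((h + 1 : ℕ) : ℤ) * (-((m : ℤ) + 1)) = -((k : ℕ) : ℤ) := by
        rw [hk]
        push_cast
        ring
      rw [hFn, e1]
    have bM : ‖F (h + 1) (-(m + 1))‖ ≤ C1 * Real.exp (-Real.sqrt t) * (1 / (k : ℝ) ^ 2) := by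
      rw [eM]
      refine (hneg G t _ k (by linarith) ht0 hρ hk1).trans (le_of_eq ?_)
      ring
    have hexp2 : 0 ≤ C2 * t ^ 3 * Real.exp (-(T ^ ε)) * (1 / (k : ℝ) ^ 2) := by positivity
    have esum : c0 * (1 / (k : ℝ) ^ 2) = C2 * t ^ 3 * Real.exp (-(T ^ ε)) * (1 / (k : ℝ) ^ 2) +
        C1 * Real.exp (-Real.sqrt t) * (1 / (k : ℝ) ^ 2) := by
      rw [hc0]
      ring
    by_cases hkK : k < K
    · have e2 : j k = (-1) ^ k * J0 G t k := if_pos hkK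
      have e3 : F2 k = F1 k := if_pos hkK
      have e4 : v (h, m) - j k = (-1) ^ k * (II G t (k : ℤ) (((h + 1 : ℕ) : ℝ) / N) - J0 G t k) +
          F (h + 1) (-(m + 1)) := by
        change F (h + 1) (m + 1) + F (h + 1) (-(m + 1)) - j k = _
        rw [eP, e2]
        ring
      have b1 := hTp T t (((h + 1 : ℕ) : ℝ) / N) k hTTp ht1 ht2 hk1 hkK hρ (by
        apply div_le_div_of_nonneg_right _ hN0.le
        exact_mod_cast hhk)
      rw [e4, e3, esum]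
      refine (norm_add_le _ _).trans ?_
      rw [norm_mul, norm_pow, norm_neg, norm_one, one_pow, one_mul]
      have b2 : ‖II G t (k : ℤ) (((h + 1 : ℕ) : ℝ) / N) - J0 G t k‖ ≤ F1 k := b1
      linarith
    · have e2 : j k = 0 := if_neg hkK
      have e3 : F2 k = 0 := if_neg hkK
      have b1 := hinf G t (((h + 1 : ℕ) : ℝ) / N) (T ^ ε) k hρ hk1 c1 hRt hGt hG1 (by
        have h1 : T ^ (1 / 2 + 2 * η + 4 * ε) ≤ k := by
          refine (Nat.le_ceil _).trans ?_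
          have : K ≤ k := not_lt.1 hkK
          exact_mod_cast this
        have h2 : G ^ 2 = T ^ (1 / 2 - 2 * η) := by
          rw [hG, GG, ← Real.rpow_natCast, ← Real.rpow_mul hT0.le]
          congr 1
          push_cast
          ring
        have h3 : (T ^ ε) ^ 3 * t ≤ T ^ (1 + 4 * ε) := by
          calc (T ^ ε) ^ 3 * t ≤ (T ^ ε) ^ 3 * T ^ (1 + ε) :=
                mul_le_mul_of_nonneg_left ht2 (by positivity)
            _ = T ^ (1 + 4 * ε) := by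
                rw [← Real.rpow_natCast, ← Real.rpow_mul hT0.le, ← Real.rpow_add hT0]
                congr 1
                push_cast
                ring
        refine h3.trans ?_
        rw [h2]
        calc T ^ (1 + 4 * ε) = T ^ (1 / 2 + 2 * η + 4 * ε) * T ^ (1 / 2 - 2 * η) := by
              rw [← Real.rpow_add hT0]
              congr 1
              ring
          _ ≤ k * T ^ (1 / 2 - 2 * η) := mul_le_mul_of_nonneg_right h1 (by positivity))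
      have e4 : v (h, m) - j k = (-1) ^ k * II G t (k : ℤ) (((h + 1 : ℕ) : ℝ) / N) +
          F (h + 1) (-(m + 1)) := by
        change F (h + 1) (m + 1) + F (h + 1) (-(m + 1)) - j k = _
        rw [eP, e2, sub_zero]
      rw [e4, e3, esum, zero_add]
      refine (norm_add_le _ _).trans ?_
      rw [norm_mul, norm_pow, norm_neg, norm_one, one_pow, one_mul]
      have b2 : ‖II G t (k : ℤ) (((h + 1 : ℕ) : ℝ) / N)‖ ≤
          C2 * t ^ 3 * Real.exp (-(T ^ ε)) * (1 / (k : ℝ) ^ 2) :=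
        b1.trans (le_of_eq (by ring))
      linarith
  -- summability
  have hsupp : ∀ p : ℕ × ℕ, p ∉ SK K → ¬ (p.1 + 1) * (p.2 + 1) < K := fun p hp h => hp (mem_SK.2 h)
  have hjs : HasSum (fun p : ℕ × ℕ => j ((p.1 + 1) * (p.2 + 1)))
      (∑ p ∈ SK K, j ((p.1 + 1) * (p.2 + 1))) :=
    hasSum_sum_of_ne_finset_zero fun p hp => if_neg (hsupp p hp)
  have hF2s : HasSum (fun p : ℕ × ℕ => F2 ((p.1 + 1) * (p.2 + 1)))
      (∑ p ∈ SK K, F2 ((p.1 + 1) * (p.2 + 1))) :=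
    hasSum_sum_of_ne_finset_zero fun p hp => if_neg (hsupp p hp)
  have hβ : HasSum (fun p : ℕ × ℕ => F2 ((p.1 + 1) * (p.2 + 1)) +
      c0 * (1 / (((p.1 + 1) * (p.2 + 1) : ℕ) : ℝ) ^ 2))
      (∑ p ∈ SK K, F2 ((p.1 + 1) * (p.2 + 1)) + c0 * S0) :=
    hF2s.add (hs2.hasSum.mul_left c0)
  have hus : Summable (fun p : ℕ × ℕ => v p - j ((p.1 + 1) * (p.2 + 1))) :=
    Summable.of_norm_bounded hβ.summable hu
  have hvs : Summable v := by
    have := hus.add hjs.summable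
    refine this.congr fun p => ?_
    ring
  have hnorm : ‖∑' p, v p - ∑ p ∈ SK K, j ((p.1 + 1) * (p.2 + 1))‖ ≤
      ∑ p ∈ SK K, F2 ((p.1 + 1) * (p.2 + 1)) + c0 * S0 := by
    rw [← hjs.tsum_eq, ← hvs.tsum_sub hjs.summable]
    exact tsum_of_norm_bounded hβ hu
  -- `Y`
  have hY : Y G t K = ∑ p ∈ SK K, j ((p.1 + 1) * (p.2 + 1)) := by
    rw [sum_SK, Y]
    refine Finset.sum_congr rfl fun k hk => ?_
    rw [Finset.mem_Ico] at hk
    have e2 : j k = (-1) ^ k * J0 G t k := if_pos hk.2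
    rw [e2, nsmul_eq_mul]
    ring
  -- `Z`
  have hfs : Summable (fun h : ℕ => ∑' n : ℕ, f N G t (h + 1) (n + 1)) := by
    have h1 : Summable (fun p : ℕ × ℕ => f N G t (p.1 + 1) (p.2 + 1)) :=
      (f_summable (t := t) hN1 (by linarith : (0 : ℝ) ≤ G)).of_norm
    exact h1.prod
  have hIIs : Summable (fun h : ℕ => II G t 0 ((h + 1 : ℝ) / N)) :=
    (II_zero_summable (t := t) hN1 (by linarith : (1 : ℝ) ≤ G)).of_norm
  have hZ : Z N G t = 2 * (∑' p, v p).re := by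
    rw [Z, B_series hN1 (by linarith : (0 : ℝ) < G), M0]
    have h1 : ∑' p, v p = ∑' h : ℕ, ∑' m : ℕ, v (h, m) := hvs.tsum_prod
    have h2 : ∑' h : ℕ, ∑' n : ℕ, f N G t (h + 1) (n + 1) -
        ∑' h : ℕ, II G t 0 ((h + 1 : ℝ) / N) = ∑' p, v p := by
      rw [← hfs.tsum_sub hIIs, h1]
      refine tsum_congr fun h => ?_
      rw [hA]
      ring
    rw [← h2, Complex.sub_re]
    ring
  -- the final estimate
  have hsum : ∑ p ∈ SK K, F2 ((p.1 + 1) * (p.2 + 1)) ≤ 12 * C3 * T ^ (-(1 / 100) : ℝ) := by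
    rw [sum_SK]
    have hKc : (K : ℝ) ≤ 2 * T ^ (1 / 2 + 2 * η + 4 * ε) := by
      have h1 : 1 ≤ T ^ (1 / 2 + 2 * η + 4 * ε) := Real.one_le_rpow hT1 (by linarith)
      have h2 : (K : ℝ) < T ^ (1 / 2 + 2 * η + 4 * ε) + 1 := Nat.ceil_lt_add_one (by positivity)
      linarith
    have hK0 : 1 ≤ K := by
      have h1 : 1 ≤ T ^ (1 / 2 + 2 * η + 4 * ε) := Real.one_le_rpow hT1 (by linarith)
      have : (1 : ℝ) ≤ K := h1.trans (Nat.le_ceil _)
      exact_mod_cast this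
    have hKe : (K : ℝ) ^ (1 / 1000 : ℝ) ≤ 2 * T ^ (1 / 1000 : ℝ) := by
      have h1 : (K : ℝ) ≤ 2 * T := by
        refine hKc.trans ?_
        have : T ^ (1 / 2 + 2 * η + 4 * ε) ≤ T ^ (1 : ℝ) :=
          Real.rpow_le_rpow_of_exponent_le hT1 (by linarith)
        rw [Real.rpow_one] at this
        linarith
      calc (K : ℝ) ^ (1 / 1000 : ℝ) ≤ (2 * T) ^ (1 / 1000 : ℝ) :=
            Real.rpow_le_rpow (Nat.cast_nonneg K) h1 (by norm_num)
        _ = (2 : ℝ) ^ (1 / 1000 : ℝ) * T ^ (1 / 1000 : ℝ) := Real.mul_rpow (by norm_num) hT0.le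
        _ ≤ 2 * T ^ (1 / 1000 : ℝ) := by
            apply mul_le_mul_of_nonneg_right _ (by positivity)
            calc (2 : ℝ) ^ (1 / 1000 : ℝ) ≤ (2 : ℝ) ^ (1 : ℝ) :=
                  Real.rpow_le_rpow_of_exponent_le (by norm_num) (by norm_num)
              _ = 2 := Real.rpow_one 2
    have hterm : ∀ k ∈ Finset.Ico 1 K, dv k • F2 k ≤ C3 * (2 * T ^ (1 / 1000 : ℝ)) *
        T ^ (7 * η) * ((k : ℝ) ^ (-(1 / 2) : ℝ) * T ^ (-(1 / 2) : ℝ) + T ^ (-(5 / 8) : ℝ)) := by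
      intro k hk
      rw [Finset.mem_Ico] at hk
      have e3 : F2 k = F1 k := if_pos hk.2
      have e4 : F1 k = T ^ (7 * η) * ((k : ℝ) ^ (-(1 / 2) : ℝ) * T ^ (-(1 / 2) : ℝ) +
          T ^ (-(5 / 8) : ℝ)) := by
        change T ^ (7 * η) * (((k : ℝ) * T) ^ (-(1 / 2) : ℝ) + T ^ (-(5 / 8) : ℝ)) = _
        rw [Real.mul_rpow (Nat.cast_nonneg k) hT0.le]
      rw [nsmul_eq_mul, e3, e4, mul_assoc (C3 * (2 * T ^ (1 / 1000 : ℝ)))]
      apply mul_le_mul_of_nonneg_right _ (by positivity)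
      refine (hdv k hk.1).trans (mul_le_mul_of_nonneg_left ?_ hC3.le)
      refine le_trans ?_ hKe
      apply Real.rpow_le_rpow (Nat.cast_nonneg k) _ (by norm_num)
      exact_mod_cast hk.2.le
    refine (Finset.sum_le_sum hterm).trans ?_
    rw [← Finset.mul_sum, Finset.sum_add_distrib, ← Finset.sum_mul, Finset.sum_const,
      Nat.card_Ico, nsmul_eq_mul]
    have hq1 : ∑ k ∈ Finset.Ico 1 K, (k : ℝ) ^ (-(1 / 2) : ℝ) ≤ 4 * T ^ (1 / 4 + η + 2 * ε) := by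
      have h1 := sum_inv_sqrt (K - 1)
      rw [Nat.sub_add_cancel hK0] at h1
      refine h1.trans ?_
      have h2 : Real.sqrt ((K - 1 : ℕ) : ℝ) ≤ Real.sqrt (4 * T ^ (1 / 2 + 2 * η + 4 * ε)) := by
        apply Real.sqrt_le_sqrt
        have h3 : ((K - 1 : ℕ) : ℝ) ≤ K := by exact_mod_cast Nat.sub_le K 1
        have h4 : 0 ≤ T ^ (1 / 2 + 2 * η + 4 * ε) := by positivity
        linarith
      have h3 : Real.sqrt (4 * T ^ (1 / 2 + 2 * η + 4 * ε)) = 2 * T ^ (1 / 4 + η + 2 * ε) := by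
        rw [Real.sqrt_eq_iff_mul_self_eq (by positivity) (by positivity)]
        have : T ^ (1 / 2 + 2 * η + 4 * ε) = T ^ (1 / 4 + η + 2 * ε) * T ^ (1 / 4 + η + 2 * ε) := by
          rw [← Real.rpow_add hT0]
          congr 1
          ring
        rw [this]
        ring
      rw [h3] at h2
      linarith
    have hq2 : ((K - 1 : ℕ) : ℝ) ≤ 2 * T ^ (1 / 2 + 2 * η + 4 * ε) := by
      have h3 : ((K - 1 : ℕ) : ℝ) ≤ K := by exact_mod_cast Nat.sub_le K 1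
      linarith
    have hb1 : T ^ (1 / 1000 : ℝ) * T ^ (7 * η) * (T ^ (1 / 4 + η + 2 * ε) * T ^ (-(1 / 2) : ℝ)) ≤
        T ^ (-(1 / 100) : ℝ) := by
      rw [← Real.rpow_add hT0, ← Real.rpow_add hT0, ← Real.rpow_add hT0]
      exact Real.rpow_le_rpow_of_exponent_le hT1 (by linarith)
    have hb2 : T ^ (1 / 1000 : ℝ) * T ^ (7 * η) * (T ^ (1 / 2 + 2 * η + 4 * ε) *
        T ^ (-(5 / 8) : ℝ)) ≤ T ^ (-(1 / 100) : ℝ) := by
      rw [← Real.rpow_add hT0, ← Real.rpow_add hT0, ← Real.rpow_add hT0]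
      exact Real.rpow_le_rpow_of_exponent_le hT1 (by linarith)
    calc C3 * (2 * T ^ (1 / 1000 : ℝ)) * T ^ (7 * η) *
          ((∑ k ∈ Finset.Ico 1 K, (k : ℝ) ^ (-(1 / 2) : ℝ)) * T ^ (-(1 / 2) : ℝ) +
            ((K - 1 : ℕ) : ℝ) * T ^ (-(5 / 8) : ℝ))
        ≤ C3 * (2 * T ^ (1 / 1000 : ℝ)) * T ^ (7 * η) *
          (4 * T ^ (1 / 4 + η + 2 * ε) * T ^ (-(1 / 2) : ℝ) +
            2 * T ^ (1 / 2 + 2 * η + 4 * ε) * T ^ (-(5 / 8) : ℝ)) := by
          apply mul_le_mul_of_nonneg_left _ (by positivity)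
          exact add_le_add (mul_le_mul_of_nonneg_right hq1 (by positivity))
            (mul_le_mul_of_nonneg_right hq2 (by positivity))
      _ = C3 * (8 * (T ^ (1 / 1000 : ℝ) * T ^ (7 * η) *
            (T ^ (1 / 4 + η + 2 * ε) * T ^ (-(1 / 2) : ℝ))) +
            4 * (T ^ (1 / 1000 : ℝ) * T ^ (7 * η) * (T ^ (1 / 2 + 2 * η + 4 * ε) *
              T ^ (-(5 / 8) : ℝ)))) := by ring
      _ ≤ C3 * (8 * T ^ (-(1 / 100) : ℝ) + 4 * T ^ (-(1 / 100) : ℝ)) := by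
          apply mul_le_mul_of_nonneg_left _ hC3.le
          linarith
      _ = 12 * C3 * T ^ (-(1 / 100) : ℝ) := by ring
  have hT12 : 0 < T ^ (-(1 / 200) : ℝ) := by positivity
  have hf1 : 2 * (12 * C3 * T ^ (-(1 / 100) : ℝ)) ≤ T ^ (-(1 / 200) : ℝ) / 2 := by
    have e1 : T ^ (-(1 / 200) : ℝ) = T ^ (1 / 100 - 1 / 200 : ℝ) * T ^ (-(1 / 100) : ℝ) := by
      rw [← Real.rpow_add hT0]
      norm_num
    rw [e1]
    have := mul_le_mul_of_nonneg_right c5 (by positivity : 0 ≤ T ^ (-(1 / 100) : ℝ))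
    linarith
  have hT1' : T⁻¹ ≤ T ^ (-(1 / 200) : ℝ) := by
    rw [← Real.rpow_neg_one]
    exact Real.rpow_le_rpow_of_exponent_le hT1 (by norm_num)
  have hf2 : 2 * (C2 * t ^ 3 * Real.exp (-(T ^ ε)) * S0) ≤ T ^ (-(1 / 200) : ℝ) / 4 := by
    have e1 : T ^ (7 : ℝ) = T ^ (6 : ℝ) * T := by
      rw [show (7 : ℝ) = 6 + 1 by norm_num, Real.rpow_add hT0, Real.rpow_one]
    have h1 : 2 * (C2 * t ^ 3 * Real.exp (-(T ^ ε)) * S0) ≤
        2 * S0 * C2 * (T ^ (6 : ℝ) * Real.exp (-(T ^ ε))) := by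
      have h2 : t ^ 3 * Real.exp (-(T ^ ε)) ≤ T ^ (6 : ℝ) * Real.exp (-(T ^ ε)) :=
        mul_le_mul_of_nonneg_right htT (by positivity)
      have h3 := mul_le_mul_of_nonneg_left h2 (by positivity : 0 ≤ 2 * S0 * C2)
      linarith
    refine h1.trans ?_
    have h2 : 2 * S0 * C2 * (T ^ (6 : ℝ) * Real.exp (-(T ^ ε))) =
        2 * S0 * C2 * (T ^ (7 : ℝ) * Real.exp (-(T ^ ε))) * T⁻¹ := by
      rw [e1]
      field_simp
    rw [h2]
    calc 2 * S0 * C2 * (T ^ (7 : ℝ) * Real.exp (-(T ^ ε))) * T⁻¹ ≤ 1 / 4 * T⁻¹ :=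
          mul_le_mul_of_nonneg_right c3 (by positivity)
      _ ≤ T ^ (-(1 / 200) : ℝ) / 4 := by linarith
  have hf3 : 2 * (C1 * Real.exp (-Real.sqrt t) * S0) ≤ T ^ (-(1 / 200) : ℝ) / 4 := by
    have h0 : T ^ (1 / 4 : ℝ) ≤ Real.sqrt t := by
      apply Real.le_sqrt_of_sq_le
      have e1 : (T ^ (1 / 4 : ℝ)) ^ 2 = T ^ (1 / 2 : ℝ) := by
        rw [← Real.rpow_natCast, ← Real.rpow_mul hT0.le]
        norm_num
      rw [e1]
      exact (Real.rpow_le_rpow_of_exponent_le hT1 (by linarith)).trans ht1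
    have h1 : Real.exp (-Real.sqrt t) ≤ Real.exp (-(T ^ (1 / 4 : ℝ))) :=
      Real.exp_le_exp.2 (neg_le_neg h0)
    have h2 : 2 * (C1 * Real.exp (-Real.sqrt t) * S0) ≤
        2 * S0 * C1 * (T ^ (1 : ℝ) * Real.exp (-(T ^ (1 / 4 : ℝ)))) * T⁻¹ := by
      rw [Real.rpow_one]
      have e1 : 2 * S0 * C1 * (T * Real.exp (-(T ^ (1 / 4 : ℝ)))) * T⁻¹ =
          2 * S0 * C1 * Real.exp (-(T ^ (1 / 4 : ℝ))) := by
        field_simp
      rw [e1]
      have h3 := mul_le_mul_of_nonneg_left h1 (by positivity : 0 ≤ 2 * S0 * C1)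
      linarith
    refine h2.trans ?_
    calc 2 * S0 * C1 * (T ^ (1 : ℝ) * Real.exp (-(T ^ (1 / 4 : ℝ)))) * T⁻¹ ≤ 1 / 4 * T⁻¹ :=
          mul_le_mul_of_nonneg_right c4 (by positivity)
      _ ≤ T ^ (-(1 / 200) : ℝ) / 4 := by linarith
  rw [hZ, hY, ← mul_sub, ← Complex.sub_re, abs_mul, abs_two]
  calc 2 * |(∑' p, v p - ∑ p ∈ SK K, j ((p.1 + 1) * (p.2 + 1))).re|
      ≤ 2 * ‖∑' p, v p - ∑ p ∈ SK K, j ((p.1 + 1) * (p.2 + 1))‖ :=
        mul_le_mul_of_nonneg_left (Complex.abs_re_le_norm _) (by norm_num)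
    _ ≤ 2 * (∑ p ∈ SK K, F2 ((p.1 + 1) * (p.2 + 1)) + c0 * S0) :=
        mul_le_mul_of_nonneg_left hnorm (by norm_num)
    _ ≤ T ^ (-(1 / 200) : ℝ) := by
        have e1 : c0 * S0 = C2 * t ^ 3 * Real.exp (-(T ^ ε)) * S0 +
            C1 * Real.exp (-Real.sqrt t) * S0 := by
          rw [hc0]
          ring
        rw [e1]
        linarith

end U6
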