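import Pool.Agent.Lib.MP_39df77_nt.U6.A01
import Pool.Agent.Lib.MP_39df77_nt.U6.A08
import Pool.Agent.Lib.MP_39df77_nt.U6.A09
/-! B06: second moment. With `x = √t`, `X = √T`, `u = x/X`: `W = e^{-u-1/u} ≤ C u^{-1/2} e^{-(u+1/u)/2}` and
`t^{-1/2} u^{-1/2} dt = 2 X^{1/2} x^{-1/2} dx`; expand `|Y|²`; the term `(k,l)` is A01 with `a = 1/(2X) - i e₁`,
`b = X/2 + γ - i e₃`, `e₁ = 2√(2π)(√k-√l)`, `e₃ = (√2/6)π^{3/2}(k^{3/2}-l^{3/2})`; for `k ≠ l` A08 gives `exp(-T^{1/20})`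
(`s₁ ≥ c T^{1/4-2η}`, `|v|/|u| ≤ C K/T`, `g ≤ C T^{2ε}`); diagonal `≤ C T^{1/2} ∑_{k<K} d(k)² k^{-1/2}`. -/
open Complex MeasureTheory Set
namespace U6

/-- `q_k = (π/2)^{1/4} k^{-1/4}` -/
noncomputable def B06_q (k : ℕ) : ℝ := (Real.pi / 2) ^ (1 / 4 : ℝ) * (k : ℝ) ^ (-(1 / 4) : ℝ)
/-- `√(2πk)` -/
noncomputable def B06_s (k : ℕ) : ℝ := Real.sqrt (2 * Real.pi * k)
/-- `(√2/6)(πk)^{3/2}` -/
noncomputable def B06_b (k : ℕ) : ℝ := Real.sqrt 2 / 6 * (Real.pi * k * Real.sqrt (Real.pi * k))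

theorem B06_q_nonneg (k : ℕ) : 0 ≤ B06_q k := by unfold B06_q; positivity

theorem B06_J0 (G : ℝ) (k : ℕ) {x : ℝ} (hx : 0 < x) :
    J0 G (x ^ 2) k = ((B06_q k : ℝ) : ℂ) * ((Real.sqrt x)⁻¹ : ℂ) *
      cexp (-((G * B06_s k - I * B06_b k) / x) + I * (2 * B06_s k) * x + I * (Real.pi / 4)) := by
  unfold J0 ph
  have h1 : ((k : ℝ) * x ^ 2) ^ (-(1 / 4) : ℝ) = (k : ℝ) ^ (-(1 / 4) : ℝ) * (Real.sqrt x)⁻¹ := by
    rw [Real.mul_rpow (by positivity) (by positivity), ← Real.rpow_natCast x 2,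
      ← Real.rpow_mul hx.le, Real.sqrt_eq_rpow, ← Real.rpow_neg hx.le]
    norm_num
  have h2 : Real.sqrt (2 * Real.pi * k / x ^ 2) = B06_s k / x := by
    rw [Real.sqrt_div' _ (by positivity), Real.sqrt_sq hx.le, B06_s]
  have h3 : Real.sqrt (2 * Real.pi * k * x ^ 2) = B06_s k * x := by
    rw [Real.sqrt_mul' _ (by positivity), Real.sqrt_sq hx.le, B06_s]
  have h4 : Real.sqrt (x ^ 2) = x := Real.sqrt_sq hx.le
  rw [h1, h2, h3, h4]
  have hx' : (x : ℂ) ≠ 0 := by exact_mod_cast hx.ne'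
  have h5 : (Real.pi / 2) ^ (1 / 4 : ℝ) * ((k : ℝ) ^ (-(1 / 4) : ℝ) * (Real.sqrt x)⁻¹) *
      Real.exp (-(G * (B06_s k / x))) = B06_q k * (Real.sqrt x)⁻¹ * Real.exp (-(G * (B06_s k / x))) := by
    unfold B06_q; ring
  rw [h5, Complex.ofReal_mul, Complex.ofReal_mul, Complex.ofReal_inv, Complex.ofReal_exp, mul_assoc,
    ← Complex.exp_add]
  congr 2
  have h6 : (B06_b k : ℂ) = ((Real.sqrt 2 / 6 * (Real.pi * k * Real.sqrt (Real.pi * k)) : ℝ) : ℂ) := rfl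
  rw [h6]
  push_cast
  field_simp
  ring

/-- `a` -/
noncomputable def B06_a (T : ℝ) (k l : ℕ) : ℂ :=
  ((1 / (2 * Real.sqrt T) : ℝ) : ℂ) - I * (2 * (B06_s k - B06_s l) : ℝ)
/-- `b` -/
noncomputable def B06_bb (T G : ℝ) (k l : ℕ) : ℂ :=
  ((Real.sqrt T / 2 + G * (B06_s k + B06_s l) : ℝ) : ℂ) - I * (B06_b k - B06_b l : ℝ)

/-- majorant of the weight -/
noncomputable def B06_M (T t : ℝ) : ℝ :=
  (t / T) ^ (-(1 / 4) : ℝ) * Real.exp (-((Real.sqrt (t / T) + Real.sqrt (T / t)) / 2))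

theorem B06_W_le {T t : ℝ} (hT : 0 < T) (ht : 0 < t) : W T t ≤ B06_M T t := by
  unfold W B06_M
  set u := Real.sqrt (t / T) with hu
  have hu0 : 0 < u := Real.sqrt_pos.mpr (by positivity)
  have h1 : Real.sqrt (T / t) = u⁻¹ := by
    rw [hu, ← Real.sqrt_inv]; congr 1; field_simp
  have h2 : (t / T) ^ (-(1 / 4) : ℝ) = (Real.sqrt u)⁻¹ := by
    rw [hu, Real.sqrt_eq_rpow, Real.sqrt_eq_rpow, ← Real.rpow_mul (by positivity),
      ← Real.rpow_neg (by positivity)]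
    norm_num
  rw [h1, h2]
  have h3 : Real.exp (-u - u⁻¹) = Real.exp (-((u + u⁻¹) / 2)) * Real.exp (-((u + u⁻¹) / 2)) := by
    rw [← Real.exp_add]; ring_nf
  rw [h3]
  apply mul_le_mul_of_nonneg_right _ (Real.exp_nonneg _)
  have hs : 0 < Real.sqrt u := Real.sqrt_pos.mpr hu0
  rw [Real.exp_neg]
  apply inv_anti₀ hs
  rw [Real.sqrt_le_iff]
  refine ⟨Real.exp_nonneg _, ?_⟩
  rw [← Real.exp_nat_mul]
  have h4 : u ≤ Real.exp u := by linarith [Real.add_one_le_exp u]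
  refine h4.trans (Real.exp_le_exp.mpr ?_)
  have : 0 < u⁻¹ := by positivity
  push_cast
  linarith

theorem B06_sq (T G : ℝ) (K : ℕ) {x : ℝ} (hT : 0 < T) (hx : 0 < x) :
    ((2 * x ^ ((2 : ℝ) - 1) * (B06_M T (x ^ 2) * ‖Y G (x ^ 2) K‖ ^ 2) : ℝ) : ℂ) =
      ∑ k ∈ Finset.Ico 1 K, ∑ l ∈ Finset.Ico 1 K,
        ((-1) ^ k * (dv k : ℂ) * ((-1) ^ l * (dv l : ℂ)) * ((B06_q k * B06_q l : ℝ) : ℂ) *
          ((2 * Real.sqrt (Real.sqrt T) : ℝ) : ℂ)) *
        (((Real.sqrt x)⁻¹ : ℂ) * cexp (-(B06_a T k l * x) - B06_bb T G k l / x)) := by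
  have hsT : 0 < Real.sqrt T := Real.sqrt_pos.mpr hT
  have hM : B06_M T (x ^ 2) = Real.sqrt (Real.sqrt T) * (Real.sqrt x)⁻¹ *
      Real.exp (-((x / Real.sqrt T + Real.sqrt T / x) / 2)) := by
    unfold B06_M
    have h1 : Real.sqrt (x ^ 2 / T) = x / Real.sqrt T := by
      rw [Real.sqrt_div' _ hT.le, Real.sqrt_sq hx.le]
    have h2 : Real.sqrt (T / x ^ 2) = Real.sqrt T / x := by
      rw [Real.sqrt_div' _ (by positivity), Real.sqrt_sq hx.le]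
    have h3 : (x ^ 2 / T) ^ (-(1 / 4) : ℝ) = Real.sqrt (Real.sqrt T) * (Real.sqrt x)⁻¹ := by
      rw [Real.div_rpow (by positivity) hT.le, ← Real.rpow_natCast x 2, ← Real.rpow_mul hx.le,
        Real.sqrt_eq_rpow, Real.sqrt_eq_rpow, Real.sqrt_eq_rpow, ← Real.rpow_mul hT.le,
        Real.rpow_neg hT.le, ← Real.rpow_neg hx.le, div_inv_eq_mul, mul_comm]
      norm_num
    rw [h1, h2, h3]
  have hx1 : x ^ ((2 : ℝ) - 1) = x := by norm_num
  have hnorm : ((‖Y G (x ^ 2) K‖ ^ 2 : ℝ) : ℂ) = ∑ k ∈ Finset.Ico 1 K, ∑ l ∈ Finset.Ico 1 K,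
      ((-1) ^ k * (dv k : ℂ) * J0 G (x ^ 2) k) *
        (starRingEnd ℂ) ((-1) ^ l * (dv l : ℂ) * J0 G (x ^ 2) l) := by
    rw [← Finset.sum_mul_sum, ← map_sum]
    have : ∑ k ∈ Finset.Ico 1 K, ((-1) ^ k * (dv k : ℂ) * J0 G (x ^ 2) k) = Y G (x ^ 2) K := rfl
    rw [this, Complex.mul_conj']
    push_cast
    rfl
  rw [hM, hx1, ← mul_assoc (2 * x), Complex.ofReal_mul, hnorm, Finset.mul_sum]
  refine Finset.sum_congr rfl fun k _ => ?_
  rw [Finset.mul_sum]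
  refine Finset.sum_congr rfl fun l _ => ?_
  rw [B06_J0 G k hx, B06_J0 G l hx]
  have hxC : (x : ℂ) ≠ 0 := by exact_mod_cast hx.ne'
  have hsx : ((Real.sqrt x : ℝ) : ℂ) ≠ 0 := by exact_mod_cast (Real.sqrt_pos.mpr hx).ne'
  have hsx2 : ((Real.sqrt x : ℝ) : ℂ) * ((Real.sqrt x : ℝ) : ℂ) = x := by
    exact_mod_cast congrArg Complex.ofReal (Real.mul_self_sqrt hx.le)
  have hsTC : ((Real.sqrt T : ℝ) : ℂ) ≠ 0 := by exact_mod_cast hsT.ne'
  have hE : cexp (-(B06_a T k l * x) - B06_bb T G k l / x) =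
      ((Real.exp (-((x / Real.sqrt T + Real.sqrt T / x) / 2)) : ℝ) : ℂ) *
      (cexp (-((G * B06_s k - I * B06_b k) / x) + I * (2 * B06_s k) * x + I * (Real.pi / 4)) *
      cexp ((starRingEnd ℂ) (-((G * B06_s l - I * B06_b l) / x) + I * (2 * B06_s l) * x + I * (Real.pi / 4)))) := by
    rw [Complex.ofReal_exp, ← Complex.exp_add, ← Complex.exp_add]
    congr 1
    unfold B06_a B06_bb
    simp only [map_add, map_neg, map_mul, map_div₀, map_sub, Complex.conj_I, Complex.conj_ofReal,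
      Complex.conj_ofNat]
    push_cast
    field_simp
    ring
  rw [hE]
  simp only [map_mul, map_pow, map_neg, map_one, Complex.conj_ofReal, Complex.conj_natCast,
    ← Complex.exp_conj, map_inv₀]
  have h7 : (x : ℂ) * ((Real.sqrt x : ℝ) : ℂ)⁻¹ * ((Real.sqrt x : ℝ) : ℂ)⁻¹ * ((Real.sqrt x : ℝ) : ℂ)⁻¹ =
      ((Real.sqrt x : ℝ) : ℂ)⁻¹ := by
    rw [← hsx2]; field_simp
  push_cast
  linear_combination (2 * ((Real.sqrt (Real.sqrt T) : ℝ) : ℂ) * (-1) ^ k * (dv k : ℂ) * (-1) ^ l *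
    (dv l : ℂ) * (B06_q k : ℂ) * (B06_q l : ℂ) *
    (Complex.exp (-((↑x / ((Real.sqrt T : ℝ) : ℂ) + ((Real.sqrt T : ℝ) : ℂ) / ↑x) / 2)) *
      (cexp (-((G * B06_s k - I * B06_b k) / x) + I * (2 * B06_s k) * x + I * (Real.pi / 4)) *
      cexp ((starRingEnd ℂ) (-((G * B06_s l - I * B06_b l) / x) + I * (2 * B06_s l) * x + I * (Real.pi / 4)))))) * h7

theorem B06_s_nonneg (k : ℕ) : 0 ≤ B06_s k := Real.sqrt_nonneg _

theorem B06_re_a {T : ℝ} (_hT : 0 < T) (k l : ℕ) : (B06_a T k l).re = 1 / (2 * Real.sqrt T) := by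
  simp [B06_a]

theorem B06_re_b {T G : ℝ} (k l : ℕ) :
    (B06_bb T G k l).re = Real.sqrt T / 2 + G * (B06_s k + B06_s l) := by
  simp [B06_bb]

theorem B06_a_pos {T : ℝ} (hT : 0 < T) (k l : ℕ) : 0 < (B06_a T k l).re := by
  rw [B06_re_a hT]
  have := Real.sqrt_pos.mpr hT
  positivity

theorem B06_b_pos {T G : ℝ} (hT : 0 < T) (hG : 0 ≤ G) (k l : ℕ) : 0 < (B06_bb T G k l).re := by
  rw [B06_re_b]
  have := Real.sqrt_pos.mpr hT
  have := B06_s_nonneg k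
  have := B06_s_nonneg l
  positivity

/-- the term integral -/
noncomputable def B06_I (T G : ℝ) (k l : ℕ) : ℂ :=
  ∫ x in Ioi (0 : ℝ), ((Real.sqrt x)⁻¹ : ℂ) * cexp (-(B06_a T k l * x) - B06_bb T G k l / x)

theorem B06_int {T G : ℝ} (hT : 0 < T) (hG : 0 ≤ G) (K : ℕ) :
    ∫ t in Ioi (0 : ℝ), W T t * ‖Y G t K‖ ^ 2 ≤
      ∑ k ∈ Finset.Ico 1 K, ∑ l ∈ Finset.Ico 1 K,
        ((dv k : ℝ) * dv l * (B06_q k * B06_q l) * (2 * Real.sqrt (Real.sqrt T))) * ‖B06_I T G k l‖ := by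
  set H : ℝ → ℂ := fun x => ∑ k ∈ Finset.Ico 1 K, ∑ l ∈ Finset.Ico 1 K,
        ((-1) ^ k * (dv k : ℂ) * ((-1) ^ l * (dv l : ℂ)) * ((B06_q k * B06_q l : ℝ) : ℂ) *
          ((2 * Real.sqrt (Real.sqrt T) : ℝ) : ℂ)) *
        (((Real.sqrt x)⁻¹ : ℂ) * cexp (-(B06_a T k l * x) - B06_bb T G k l / x)) with hH
  have hterm : ∀ k l : ℕ, IntegrableOn (fun x : ℝ =>
      ((Real.sqrt x)⁻¹ : ℂ) * cexp (-(B06_a T k l * x) - B06_bb T G k l / x)) (Ioi 0) :=
    fun k l => int_exp_half_integrable (B06_a_pos hT k l) (B06_b_pos hT hG k l)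
  have hHint : IntegrableOn H (Ioi 0) := by
    apply integrable_finsetSum
    intro k _
    apply integrable_finsetSum
    intro l _
    exact (hterm k l).const_mul _
  set h : ℝ → ℝ := fun x => 2 * x ^ ((2 : ℝ) - 1) * (B06_M T (x ^ 2) * ‖Y G (x ^ 2) K‖ ^ 2) with hh
  have hhH : ∀ x ∈ Ioi (0 : ℝ), ((h x : ℝ) : ℂ) = H x := fun x hx => B06_sq T G K hT hx
  have hhint : IntegrableOn h (Ioi 0) := by
    have h1 : IntegrableOn (fun x => (H x).re) (Ioi 0) := hHint.re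
    refine h1.congr_fun (fun x hx => ?_) measurableSet_Ioi
    show (H x).re = h x
    rw [← hhH x hx, Complex.ofReal_re]
  have hfun : ∀ x ∈ Ioi (0 : ℝ), (fun x : ℝ => (|(2 : ℝ)| * x ^ ((2 : ℝ) - 1)) •
      (fun t => B06_M T t * ‖Y G t K‖ ^ 2) (x ^ (2 : ℝ))) x = h x := by
    intro x hx
    have : x ^ (2 : ℝ) = x ^ 2 := by exact_mod_cast Real.rpow_natCast x 2
    simp only [hh, this, smul_eq_mul, abs_of_pos (show (0 : ℝ) < 2 by norm_num)]
  have hMint : IntegrableOn (fun t => B06_M T t * ‖Y G t K‖ ^ 2) (Ioi 0) := by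
    rw [← integrableOn_Ioi_comp_rpow_iff _ (show (2 : ℝ) ≠ 0 by norm_num)]
    exact hhint.congr_fun (fun x hx => (hfun x hx).symm) measurableSet_Ioi
  have hMeq : ∫ t in Ioi (0 : ℝ), B06_M T t * ‖Y G t K‖ ^ 2 = ∫ x in Ioi (0 : ℝ), h x := by
    rw [← integral_comp_rpow_Ioi_of_pos (g := fun t => B06_M T t * ‖Y G t K‖ ^ 2)
      (show (0 : ℝ) < 2 by norm_num)]
    refine setIntegral_congr_fun measurableSet_Ioi (fun x hx => ?_)
    rw [← hfun x hx, abs_of_pos (show (0 : ℝ) < 2 by norm_num)]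
  have hle : ∫ t in Ioi (0 : ℝ), W T t * ‖Y G t K‖ ^ 2 ≤
      ∫ t in Ioi (0 : ℝ), B06_M T t * ‖Y G t K‖ ^ 2 := by
    refine integral_mono_of_nonneg ?_ hMint ?_
    · exact ae_restrict_of_forall_mem measurableSet_Ioi
        (fun t _ => mul_nonneg (Real.exp_nonneg _) (by positivity))
    · exact ae_restrict_of_forall_mem measurableSet_Ioi
        (fun t ht => mul_le_mul_of_nonneg_right (B06_W_le hT ht) (by positivity))
  refine hle.trans ?_
  rw [hMeq]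
  have hc : ((∫ x in Ioi (0 : ℝ), h x : ℝ) : ℂ) = ∫ x in Ioi (0 : ℝ), H x := by
    refine Eq.trans (integral_ofReal (𝕜 := ℂ) (μ := volume.restrict (Ioi (0 : ℝ))) (f := h)).symm ?_
    exact setIntegral_congr_fun measurableSet_Ioi (fun x hx => hhH x hx)
  have hs : ∫ x in Ioi (0 : ℝ), H x = ∑ k ∈ Finset.Ico 1 K, ∑ l ∈ Finset.Ico 1 K,
        ((-1) ^ k * (dv k : ℂ) * ((-1) ^ l * (dv l : ℂ)) * ((B06_q k * B06_q l : ℝ) : ℂ) *
          ((2 * Real.sqrt (Real.sqrt T) : ℝ) : ℂ)) * B06_I T G k l := by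
    rw [hH, integral_finsetSum _ (fun k _ => integrable_finsetSum _ fun l _ => (hterm k l).const_mul _)]
    refine Finset.sum_congr rfl fun k _ => ?_
    rw [integral_finsetSum _ (fun l _ => (hterm k l).const_mul _)]
    refine Finset.sum_congr rfl fun l _ => ?_
    rw [integral_const_mul]
    rfl
  calc ∫ x in Ioi (0 : ℝ), h x ≤ |∫ x in Ioi (0 : ℝ), h x| := le_abs_self _
    _ = ‖((∫ x in Ioi (0 : ℝ), h x : ℝ) : ℂ)‖ := by rw [Complex.norm_real, Real.norm_eq_abs]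
    _ = ‖∑ k ∈ Finset.Ico 1 K, ∑ l ∈ Finset.Ico 1 K,
        ((-1) ^ k * (dv k : ℂ) * ((-1) ^ l * (dv l : ℂ)) * ((B06_q k * B06_q l : ℝ) : ℂ) *
          ((2 * Real.sqrt (Real.sqrt T) : ℝ) : ℂ)) * B06_I T G k l‖ := by rw [hc, hs]
    _ ≤ _ := by
        refine (norm_sum_le _ _).trans (Finset.sum_le_sum fun k _ => ?_)
        refine (norm_sum_le _ _).trans (Finset.sum_le_sum fun l _ => ?_)
        have hq := mul_nonneg (B06_q_nonneg k) (B06_q_nonneg l)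
        have hsq : 0 ≤ 2 * Real.sqrt (Real.sqrt T) := by positivity
        rw [norm_mul, norm_mul, norm_mul, norm_mul, norm_mul, norm_mul, norm_pow, norm_pow, norm_neg,
          norm_one, one_pow, one_pow, one_mul, one_mul, Complex.norm_natCast, Complex.norm_natCast,
          Complex.norm_real, Complex.norm_real, Real.norm_of_nonneg hq, Real.norm_of_nonneg hsq]

/-- the bound for one term -/
theorem B06_I_le {T G : ℝ} (hT : 0 < T) (hG : 0 ≤ G) (k l : ℕ) :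
    ‖B06_I T G k l‖ ≤ Real.sqrt Real.pi * Real.sqrt (2 * Real.sqrt T) *
      Real.exp (-(2 * ((B06_a T k l) ^ (1 / 2 : ℂ) * (B06_bb T G k l) ^ (1 / 2 : ℂ))).re) := by
  have ha := B06_a_pos hT k l
  have hsT : 0 < Real.sqrt T := Real.sqrt_pos.mpr hT
  unfold B06_I
  rw [int_exp_half ha (B06_b_pos hT hG k l), norm_mul, norm_div, Complex.norm_exp,
    Complex.neg_re]
  apply mul_le_mul_of_nonneg_right _ (Real.exp_nonneg _)
  rw [Complex.norm_real, Real.norm_of_nonneg (Real.sqrt_nonneg _), div_eq_mul_inv]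
  apply mul_le_mul_of_nonneg_left _ (Real.sqrt_nonneg _)
  have h1 : ‖(B06_a T k l) ^ (1 / 2 : ℂ)‖ = Real.sqrt ‖B06_a T k l‖ := by
    have := Complex.norm_cpow_real (B06_a T k l) (1 / 2)
    rw [Real.sqrt_eq_rpow]
    push_cast at this
    exact this
  rw [h1, ← Real.sqrt_inv]
  apply Real.sqrt_le_sqrt
  have h2 : 1 / (2 * Real.sqrt T) ≤ ‖B06_a T k l‖ := by
    rw [← B06_re_a hT k l]
    exact (le_abs_self _).trans (Complex.abs_re_le_norm _)
  calc ‖B06_a T k l‖⁻¹ ≤ (1 / (2 * Real.sqrt T))⁻¹ := inv_anti₀ (by positivity) h2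
    _ = 2 * Real.sqrt T := by rw [one_div, inv_inv]

theorem B06_prod {T G : ℝ} (hT : 0 < T) (hG : 0 ≤ G) (k l : ℕ) :
    2 * ((B06_a T k l) ^ (1 / 2 : ℂ) * (B06_bb T G k l) ^ (1 / 2 : ℂ)) =
      ((1 : ℂ) + I * ((-(4 * Real.sqrt T * (B06_s k - B06_s l)) : ℝ) : ℂ)) ^ (1 / 2 : ℂ) *
      (((1 + 2 * G * (B06_s k + B06_s l) / Real.sqrt T : ℝ) : ℂ) +
        I * ((-(2 * (B06_b k - B06_b l) / Real.sqrt T) : ℝ) : ℂ)) ^ (1 / 2 : ℂ) := by
  have hsT : 0 < Real.sqrt T := Real.sqrt_pos.mpr hT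
  have hsTC : ((Real.sqrt T : ℝ) : ℂ) ≠ 0 := by exact_mod_cast hsT.ne'
  have hsk := B06_s_nonneg k
  have hsl := B06_s_nonneg l
  set z : ℂ := (1 : ℂ) + I * ((-(4 * Real.sqrt T * (B06_s k - B06_s l)) : ℝ) : ℂ) with hz
  set w : ℂ := ((1 + 2 * G * (B06_s k + B06_s l) / Real.sqrt T : ℝ) : ℂ) +
        I * ((-(2 * (B06_b k - B06_b l) / Real.sqrt T) : ℝ) : ℂ) with hw
  have hzre : z.re = 1 := by simp [hz]
  have hwre : w.re = 1 + 2 * G * (B06_s k + B06_s l) / Real.sqrt T := by simp [hw]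
  have hwpos : 0 < w.re := by rw [hwre]; positivity
  have ha : B06_a T k l = z / ((2 * Real.sqrt T : ℝ) : ℂ) := by
    unfold B06_a
    rw [hz]
    push_cast
    field_simp
    ring
  have hb : B06_bb T G k l = ((2 * Real.sqrt T : ℝ) : ℂ) * (w / 4) := by
    unfold B06_bb
    rw [hw]
    push_cast
    field_simp
    ring
  have h4re : (w / 4).re = w.re / 4 := by
    have : w / 4 = w / ((4 : ℝ) : ℂ) := by norm_num
    rw [this, Complex.div_ofReal_re]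
  have h1 := cpow_half_scale (X := 2 * Real.sqrt T) (by positivity) (z := z) (w := w / 4)
    (by rw [hzre]; norm_num) (by rw [h4re]; positivity)
  have h2 := cpow_half_scale (X := 4) (by norm_num) (z := 1) (w := w / 4)
    (by simp) (by rw [h4re]; positivity)
  rw [ha, hb, h1]
  have h3 : ((1 : ℂ) / ((4 : ℝ) : ℂ)) ^ (1 / 2 : ℂ) = 1 / 2 := by
    have e1 : ((1 : ℂ) / ((4 : ℝ) : ℂ)) = (((1 / 4 : ℝ)) : ℂ) := by push_cast; rfl
    have e2 : (1 / 2 : ℂ) = ((1 / 2 : ℝ) : ℂ) := by push_cast; rfl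
    rw [e1]
    nth_rewrite 1 [e2]
    rw [← Complex.ofReal_cpow (by norm_num), ← Real.sqrt_eq_rpow]
    have : Real.sqrt (1 / 4) = 1 / 2 := by
      rw [Real.sqrt_eq_iff_mul_self_eq (by norm_num) (by norm_num)]; norm_num
    rw [this]; push_cast; rfl
  have h5 : ((4 : ℝ) : ℂ) * (w / 4) = w := by push_cast; ring
  rw [h3, h5, Complex.one_cpow, one_mul] at h2
  rw [← h2]
  ring

theorem B06_re_nonneg {T G : ℝ} (hT : 0 < T) (hG : 0 ≤ G) (k l : ℕ) :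
    0 ≤ (2 * ((B06_a T k l) ^ (1 / 2 : ℂ) * (B06_bb T G k l) ^ (1 / 2 : ℂ))).re := by
  rw [B06_prod hT hG]
  have hsT : 0 < Real.sqrt T := Real.sqrt_pos.mpr hT
  have hsk := B06_s_nonneg k
  have hsl := B06_s_nonneg l
  refine le_trans ?_ (re_sqrt_mul (u := -(4 * Real.sqrt T * (B06_s k - B06_s l)))
    (v := -(2 * (B06_b k - B06_b l) / Real.sqrt T))
    (g := 1 + 2 * G * (B06_s k + B06_s l) / Real.sqrt T) ?_)
  · positivity
  · have : 0 ≤ 2 * G * (B06_s k + B06_s l) / Real.sqrt T := by positivity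
    linarith

set_option maxHeartbeats 4000000 in
theorem B06_re_ge {T G P : ℝ} {K : ℕ} (hT : 0 < T) (hG : 0 ≤ G) (hP : 0 < P)
    (H1 : 32 * P * (1 + 12 * G * Real.sqrt K / Real.sqrt T) ≤ 4 * Real.sqrt T / Real.sqrt K)
    (H2 : 48 * P * K ≤ T) {k l : ℕ} (hk : 1 ≤ k) (hkK : k < K) (hlK : l < K) (hkl : k ≠ l) :
    Real.sqrt P ≤ (2 * ((B06_a T k l) ^ (1 / 2 : ℂ) * (B06_bb T G k l) ^ (1 / 2 : ℂ))).re := by
  rw [B06_prod hT hG]
  have hsT : 0 < Real.sqrt T := Real.sqrt_pos.mpr hT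
  have hsk := B06_s_nonneg k
  have hsl := B06_s_nonneg l
  set X := Real.sqrt T with hX
  have hXX : X * X = T := Real.mul_self_sqrt hT.le
  set rk := Real.sqrt k with hrk
  set rl := Real.sqrt l with hrl
  set R := Real.sqrt K with hR
  have hrk0 : 0 ≤ rk := Real.sqrt_nonneg _
  have hrl0 : 0 ≤ rl := Real.sqrt_nonneg _
  have hK0 : (0 : ℝ) < K := by exact_mod_cast (by omega : 0 < K)
  have hR0 : 0 < R := Real.sqrt_pos.mpr hK0
  have hRR : R * R = K := Real.mul_self_sqrt hK0.le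
  have hkk : rk * rk = k := Real.mul_self_sqrt (by positivity)
  have hll : rl * rl = l := Real.mul_self_sqrt (by positivity)
  have hkR : rk ≤ R := Real.sqrt_le_sqrt (by exact_mod_cast hkK.le)
  have hlR : rl ≤ R := Real.sqrt_le_sqrt (by exact_mod_cast hlK.le)
  have hp1 : (3.1415 : ℝ) < Real.pi := Real.pi_gt_d4.trans_le le_rfl |>.trans_le' (by norm_num)
  have hp2 : Real.pi < 3.1416 := Real.pi_lt_d4
  set c := Real.sqrt (2 * Real.pi) with hc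
  have hc1 : 2 ≤ c := Real.le_sqrt_of_sq_le (by nlinarith)
  have hc2 : c ≤ 3 := Real.sqrt_le_iff.mpr ⟨by norm_num, by nlinarith⟩
  have hsk' : B06_s k = c * rk := by
    unfold B06_s; rw [Real.sqrt_mul (by positivity)]
  have hsl' : B06_s l = c * rl := by
    unfold B06_s; rw [Real.sqrt_mul (by positivity)]
  set c3 := Real.sqrt 2 / 6 * (Real.pi * Real.sqrt Real.pi) with hc3
  have hc30 : 0 ≤ c3 := by positivity
  have hc32 : c3 ≤ 2 := by
    have a1 : Real.sqrt 2 ≤ 3 / 2 := Real.sqrt_le_iff.mpr ⟨by norm_num, by norm_num⟩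
    have a2 : Real.sqrt Real.pi ≤ 2 := Real.sqrt_le_iff.mpr ⟨by norm_num, by nlinarith⟩
    have a3 : 0 ≤ Real.sqrt 2 := Real.sqrt_nonneg _
    have a4 : 0 ≤ Real.sqrt Real.pi := Real.sqrt_nonneg _
    have a5 : Real.pi * Real.sqrt Real.pi ≤ 4 * 2 := by
      apply mul_le_mul (by linarith) a2 a4 (by norm_num)
    calc c3 ≤ (3 / 2) / 6 * (4 * 2) := by
          rw [hc3]; gcongr
      _ = 2 := by norm_num
  have hbk : B06_b k = c3 * (rk * rk * rk) := by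
    unfold B06_b
    rw [Real.sqrt_mul (by positivity), ← hrk, hc3, hkk]; ring
  have hbl : B06_b l = c3 * (rl * rl * rl) := by
    unfold B06_b
    rw [Real.sqrt_mul (by positivity), ← hrl, hc3, hll]; ring
  set D := |rk - rl| with hD
  have hD0 : 0 ≤ D := abs_nonneg _
  have hD1 : 1 ≤ D * (2 * R) := by
    have h1 : (1 : ℝ) ≤ |(k : ℝ) - l| := by
      have : (1 : ℤ) ≤ |(k : ℤ) - l| := Int.one_le_abs (by omega)
      exact_mod_cast this
    have h2 : |(k : ℝ) - l| = D * (rk + rl) := by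
      have e1 : (k : ℝ) - l = (rk - rl) * (rk + rl) := by rw [← hkk, ← hll]; ring
      rw [e1, abs_mul, abs_of_nonneg (add_nonneg hrk0 hrl0)]
    rw [h2] at h1
    refine h1.trans (mul_le_mul_of_nonneg_left (by linarith) hD0)
  set u := -(4 * X * (B06_s k - B06_s l)) with hu
  set v := -(2 * (B06_b k - B06_b l) / X) with hv
  set g := 1 + 2 * G * (B06_s k + B06_s l) / X with hg
  have hg1 : 1 ≤ g := by
    have : 0 ≤ 2 * G * (B06_s k + B06_s l) / X := by positivity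
    linarith
  have hgle : g ≤ 1 + 12 * G * R / X := by
    rw [hg, hsk', hsl']
    have h1 : c * rk ≤ 3 * R := mul_le_mul hc2 hkR hrk0 (by norm_num)
    have h2 : c * rl ≤ 3 * R := mul_le_mul hc2 hlR hrl0 (by norm_num)
    have h3 : c * rk + c * rl ≤ 6 * R := by linarith
    have h4 : 2 * G * (c * rk + c * rl) ≤ 12 * G * R := by
      have h5 : 2 * G * (c * rk + c * rl) ≤ 2 * G * (6 * R) :=
        mul_le_mul_of_nonneg_left h3 (by positivity)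
      linarith
    have h6 := div_le_div_of_nonneg_right h4 hsT.le
    linarith
  have hu1 : 8 * X * D ≤ |u| := by
    rw [hu, hsk', hsl']
    have : -(4 * X * (c * rk - c * rl)) = -(4 * X * c * (rk - rl)) := by ring
    rw [this, abs_neg, abs_mul, abs_of_nonneg (by positivity : 0 ≤ 4 * X * c)]
    have : 8 * X ≤ 4 * X * c := by nlinarith
    exact mul_le_mul_of_nonneg_right this hD0
  have hv1 : |v| ≤ 12 * K * D / X := by
    rw [hv, hbk, hbl, abs_neg, abs_div, abs_of_pos hsT]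
    apply div_le_div_of_nonneg_right _ hsT.le
    have : 2 * (c3 * (rk * rk * rk) - c3 * (rl * rl * rl)) =
        2 * c3 * ((rk - rl) * (rk * rk + rk * rl + rl * rl)) := by ring
    have q0 : 0 ≤ rk * rk + rk * rl + rl * rl := by positivity
    rw [this, abs_mul (2 * c3), abs_mul (rk - rl), abs_of_nonneg (by positivity : 0 ≤ 2 * c3),
      abs_of_nonneg q0]
    have h3 : rk * rk + rk * rl + rl * rl ≤ 3 * K := by
      have a1 : rk * rk ≤ R * R := mul_le_mul hkR hkR hrk0 hR0.le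
      have a2 : rk * rl ≤ R * R := mul_le_mul hkR hlR hrl0 hR0.le
      have a3 : rl * rl ≤ R * R := mul_le_mul hlR hlR hrl0 hR0.le
      rw [← hRR]; linarith
    calc 2 * c3 * (D * (rk * rk + rk * rl + rl * rl)) ≤ 2 * 2 * (D * (3 * K)) := by gcongr
      _ = 12 * K * D := by ring
  have hA : 32 * P * g ≤ |u| := by
    have h1 : 32 * P * g ≤ 32 * P * (1 + 12 * G * R / X) := by gcongr
    have h2 : 4 * X / R ≤ 8 * X * D := by
      rw [div_le_iff₀ hR0]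
      have := mul_le_mul_of_nonneg_left hD1 (by positivity : 0 ≤ 4 * X)
      linarith
    linarith
  have hB : 32 * P * |v| ≤ |u| := by
    have h1 : 32 * P * |v| ≤ 32 * P * (12 * K * D / X) := by gcongr
    have h2 : 32 * P * (12 * K * D / X) ≤ 8 * X * D := by
      have e : 32 * P * (12 * K * D / X) = (8 * (48 * P * K)) * D / X := by ring
      rw [e, div_le_iff₀ hsT]
      have : 8 * X * D * X = 8 * T * D := by rw [← hXX]; ring
      rw [this]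
      gcongr
    linarith
  have hs1 : |u| ≤ Real.sqrt (1 + u ^ 2) := Real.abs_le_sqrt (by linarith)
  have hs2 : Real.sqrt (g ^ 2 + v ^ 2) ≤ g + |v| := by
    rw [Real.sqrt_le_iff]
    refine ⟨by positivity, ?_⟩
    have : v ^ 2 = |v| ^ 2 := (sq_abs v).symm
    rw [this]
    nlinarith [abs_nonneg v]
  have hs20 : 0 < Real.sqrt (g ^ 2 + v ^ 2) := Real.sqrt_pos.mpr (by positivity)
  have hq : 16 * P ≤ Real.sqrt (1 + u ^ 2) / Real.sqrt (g ^ 2 + v ^ 2) := by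
    rw [le_div_iff₀ hs20]
    calc 16 * P * Real.sqrt (g ^ 2 + v ^ 2) ≤ 16 * P * (g + |v|) := by gcongr
      _ ≤ |u| := by linarith
      _ ≤ _ := hs1
  have hq2 : 4 * Real.sqrt P ≤ Real.sqrt (Real.sqrt (1 + u ^ 2) / Real.sqrt (g ^ 2 + v ^ 2)) := by
    have : 4 * Real.sqrt P = Real.sqrt (16 * P) := by
      rw [Real.sqrt_mul (by norm_num)]
      congr 1
      rw [show (16 : ℝ) = 4 ^ 2 by norm_num, Real.sqrt_sq (by norm_num)]
    rw [this]
    exact Real.sqrt_le_sqrt hq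
  have hfin := re_sqrt_mul (u := u) (v := v) (g := g) hg1
  have hn : 0 ≤ Real.sqrt (Real.sqrt (g ^ 2 + v ^ 2) / Real.sqrt (1 + u ^ 2)) := Real.sqrt_nonneg _
  linarith


theorem B06_const {T : ℝ} :
    (2 * Real.sqrt (Real.sqrt T)) * (Real.sqrt Real.pi * Real.sqrt (2 * Real.sqrt T)) ≤
      6 * Real.sqrt T := by
  have hsT : 0 ≤ Real.sqrt T := Real.sqrt_nonneg _
  have hp2 : Real.pi < 3.1416 := Real.pi_lt_d4
  have hp0 : 0 < Real.pi := Real.pi_pos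
  have hc2 : Real.sqrt (2 * Real.pi) ≤ 3 := Real.sqrt_le_iff.mpr ⟨by norm_num, by nlinarith⟩
  have e1 : Real.sqrt (2 * Real.sqrt T) = Real.sqrt 2 * Real.sqrt (Real.sqrt T) :=
    Real.sqrt_mul (by norm_num) _
  have e2 : Real.sqrt (2 * Real.pi) = Real.sqrt 2 * Real.sqrt Real.pi :=
    Real.sqrt_mul (by norm_num) _
  have h : Real.sqrt (Real.sqrt T) * Real.sqrt (Real.sqrt T) = Real.sqrt T := Real.mul_self_sqrt hsT
  have e : (2 * Real.sqrt (Real.sqrt T)) * (Real.sqrt Real.pi * Real.sqrt (2 * Real.sqrt T)) =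
      2 * Real.sqrt (2 * Real.pi) * Real.sqrt T := by
    rw [e1, e2]
    calc _ = 2 * (Real.sqrt 2 * Real.sqrt Real.pi) *
          (Real.sqrt (Real.sqrt T) * Real.sqrt (Real.sqrt T)) := by ring
      _ = _ := by rw [h]
  rw [e]
  nlinarith

theorem B06_q_le (k : ℕ) : B06_q k ≤ 2 * (k : ℝ) ^ (-(1 / 4) : ℝ) := by
  unfold B06_q
  apply mul_le_mul_of_nonneg_right _ (by positivity)
  calc (Real.pi / 2) ^ (1 / 4 : ℝ) ≤ (Real.pi / 2) ^ (1 : ℝ) :=
        Real.rpow_le_rpow_of_exponent_le (by linarith [Real.pi_gt_three]) (by norm_num)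
    _ ≤ 2 := by rw [Real.rpow_one]; linarith [Real.pi_lt_d2]

theorem B06_sum_sqrt' (n : ℕ) :
    ∑ k ∈ Finset.Ico 1 (n + 1), (k : ℝ) ^ (-(1 / 2) : ℝ) ≤ 2 * Real.sqrt n := by
  induction n with
  | zero => simp
  | succ n ih =>
    rw [Finset.sum_Ico_succ_top (by omega)]
    have hn : (0 : ℝ) ≤ n := by positivity
    have h1 : ((n + 1 : ℕ) : ℝ) ^ (-(1 / 2) : ℝ) = 1 / Real.sqrt ((n + 1 : ℕ) : ℝ) := by
      rw [Real.rpow_neg (by positivity), Real.sqrt_eq_rpow]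
      exact (one_div _).symm
    rw [h1]
    set a := Real.sqrt (n : ℝ) with ha
    set b := Real.sqrt ((n + 1 : ℕ) : ℝ) with hb
    have haa : a * a = n := Real.mul_self_sqrt hn
    have hbb : b * b = n + 1 := by
      rw [hb, Real.mul_self_sqrt (by positivity)]; push_cast; ring
    have hb0 : 0 < b := Real.sqrt_pos.mpr (by positivity)
    have ha0 : 0 ≤ a := Real.sqrt_nonneg _
    have h2 : 2 * a + 1 / b ≤ 2 * b := by
      have : 2 * a * b + 1 ≤ 2 * b * b := by nlinarith [sq_nonneg (a - b)]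
      have h3 : (2 * a + 1 / b) * b ≤ 2 * b * b := by
        have : (2 * a + 1 / b) * b = 2 * a * b + 1 := by field_simp
        linarith
      exact le_of_mul_le_mul_right h3 hb0
    linarith

theorem B06_sum_sqrt (K : ℕ) :
    ∑ k ∈ Finset.Ico 1 K, (k : ℝ) ^ (-(1 / 2) : ℝ) ≤ 2 * Real.sqrt K := by
  rcases Nat.eq_zero_or_pos K with h | h
  · subst h; simp
  · obtain ⟨n, rfl⟩ : ∃ n, K = n + 1 := ⟨K - 1, by omega⟩
    refine (B06_sum_sqrt' n).trans ?_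
    have : Real.sqrt (n : ℝ) ≤ Real.sqrt ((n + 1 : ℕ) : ℝ) :=
      Real.sqrt_le_sqrt (by push_cast; linarith)
    linarith

theorem B06_term {T G P C e : ℝ} {K : ℕ} (hT : 0 < T) (hG : 0 ≤ G) (hP : 0 < P) (hC : 0 < C)
    (he : 0 < e) (hdv : ∀ k : ℕ, 1 ≤ k → (dv k : ℝ) ≤ C * (k : ℝ) ^ e)
    (H1 : 32 * P * (1 + 12 * G * Real.sqrt K / Real.sqrt T) ≤ 4 * Real.sqrt T / Real.sqrt K)
    (H2 : 48 * P * K ≤ T) {k l : ℕ} (hk : 1 ≤ k) (hl : 1 ≤ l) (hkK : k < K) (hlK : l < K) :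
    ((dv k : ℝ) * dv l * (B06_q k * B06_q l) * (2 * Real.sqrt (Real.sqrt T))) * ‖B06_I T G k l‖ ≤
      24 * C ^ 2 * Real.sqrt T * (K : ℝ) ^ (2 * e) *
        (if k = l then (k : ℝ) ^ (-(1 / 2) : ℝ) else Real.exp (-Real.sqrt P)) := by
  have hK0 : (0 : ℝ) < K := by exact_mod_cast (by omega : 0 < K)
  have hk0 : (0 : ℝ) < k := by exact_mod_cast hk
  have hl0 : (0 : ℝ) < l := by exact_mod_cast hl
  have dk : (dv k : ℝ) ≤ C * (K : ℝ) ^ e := (hdv k hk).trans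
    (mul_le_mul_of_nonneg_left (Real.rpow_le_rpow hk0.le (by exact_mod_cast hkK.le) he.le) hC.le)
  have dl : (dv l : ℝ) ≤ C * (K : ℝ) ^ e := (hdv l hl).trans
    (mul_le_mul_of_nonneg_left (Real.rpow_le_rpow hl0.le (by exact_mod_cast hlK.le) he.le) hC.le)
  have hKe : (K : ℝ) ^ e * (K : ℝ) ^ e = (K : ℝ) ^ (2 * e) := by
    rw [← Real.rpow_add hK0]; ring_nf
  have hdd : (dv k : ℝ) * dv l ≤ C ^ 2 * (K : ℝ) ^ (2 * e) := by
    calc (dv k : ℝ) * dv l ≤ (C * (K : ℝ) ^ e) * (C * (K : ℝ) ^ e) :=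
          mul_le_mul dk dl (by positivity) (by positivity)
      _ = C ^ 2 * ((K : ℝ) ^ e * (K : ℝ) ^ e) := by ring
      _ = _ := by rw [hKe]
  have hqk := B06_q_nonneg k
  have hql := B06_q_nonneg l
  have hI := B06_I_le hT hG k l
  set E := Real.exp (-(2 * ((B06_a T k l) ^ (1 / 2 : ℂ) * (B06_bb T G k l) ^ (1 / 2 : ℂ))).re) with hE
  have hE0 : 0 < E := Real.exp_pos _
  have hqE : B06_q k * B06_q l * E ≤
      4 * (if k = l then (k : ℝ) ^ (-(1 / 2) : ℝ) else Real.exp (-Real.sqrt P)) := by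
    split_ifs with h
    · subst h
      have hE1 : E ≤ 1 := by
        rw [hE]; apply Real.exp_le_one_iff.mpr
        have := B06_re_nonneg hT hG k k
        linarith
      have h1 : B06_q k * B06_q k ≤ (2 * (k : ℝ) ^ (-(1 / 4) : ℝ)) * (2 * (k : ℝ) ^ (-(1 / 4) : ℝ)) :=
        mul_le_mul (B06_q_le k) (B06_q_le k) hqk (by positivity)
      have h2 : (k : ℝ) ^ (-(1 / 4) : ℝ) * (k : ℝ) ^ (-(1 / 4) : ℝ) = (k : ℝ) ^ (-(1 / 2) : ℝ) := by
        rw [← Real.rpow_add hk0]; norm_num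
      calc B06_q k * B06_q k * E ≤ B06_q k * B06_q k * 1 :=
            mul_le_mul_of_nonneg_left hE1 (by positivity)
        _ ≤ 4 * ((k : ℝ) ^ (-(1 / 4) : ℝ) * (k : ℝ) ^ (-(1 / 4) : ℝ)) := by linarith
        _ = _ := by rw [h2]
    · have hre := B06_re_ge hT hG hP H1 H2 hk hkK hlK h
      have hE1 : E ≤ Real.exp (-Real.sqrt P) := by
        rw [hE]; exact Real.exp_le_exp.mpr (by linarith)
      have ak : B06_q k ≤ 2 := (B06_q_le k).trans (by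
        have : (k : ℝ) ^ (-(1 / 4) : ℝ) ≤ 1 :=
          Real.rpow_le_one_of_one_le_of_nonpos (by exact_mod_cast hk) (by norm_num)
        linarith)
      have al : B06_q l ≤ 2 := (B06_q_le l).trans (by
        have : (l : ℝ) ^ (-(1 / 4) : ℝ) ≤ 1 :=
          Real.rpow_le_one_of_one_le_of_nonpos (by exact_mod_cast hl) (by norm_num)
        linarith)
      have h1 : B06_q k * B06_q l ≤ 2 * 2 := mul_le_mul ak al hql (by norm_num)
      calc B06_q k * B06_q l * E ≤ (2 * 2) * Real.exp (-Real.sqrt P) :=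
            mul_le_mul h1 hE1 hE0.le (by norm_num)
        _ = _ := by ring
  set Q := (if k = l then (k : ℝ) ^ (-(1 / 2) : ℝ) else Real.exp (-Real.sqrt P)) with hQ
  have hQ0 : 0 ≤ Q := by rw [hQ]; split_ifs <;> positivity
  have hsT : 0 ≤ Real.sqrt T := Real.sqrt_nonneg _
  calc ((dv k : ℝ) * dv l * (B06_q k * B06_q l) * (2 * Real.sqrt (Real.sqrt T))) * ‖B06_I T G k l‖
      ≤ ((dv k : ℝ) * dv l * (B06_q k * B06_q l) * (2 * Real.sqrt (Real.sqrt T))) *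
          (Real.sqrt Real.pi * Real.sqrt (2 * Real.sqrt T) * E) :=
        mul_le_mul_of_nonneg_left hI (by positivity)
    _ = ((dv k : ℝ) * dv l) * ((B06_q k * B06_q l * E) *
          ((2 * Real.sqrt (Real.sqrt T)) * (Real.sqrt Real.pi * Real.sqrt (2 * Real.sqrt T)))) := by
        ring
    _ ≤ (C ^ 2 * (K : ℝ) ^ (2 * e)) * ((4 * Q) * (6 * Real.sqrt T)) := by
        apply mul_le_mul hdd _ (by positivity) (by positivity)
        exact mul_le_mul hqE B06_const (by positivity) (by positivity)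
    _ = _ := by ring

theorem B06_total {T G P C e : ℝ} {K : ℕ} (hT : 0 < T) (hG : 0 ≤ G) (hP : 0 < P) (hC : 0 < C)
    (he : 0 < e) (hdv : ∀ k : ℕ, 1 ≤ k → (dv k : ℝ) ≤ C * (k : ℝ) ^ e)
    (H1 : 32 * P * (1 + 12 * G * Real.sqrt K / Real.sqrt T) ≤ 4 * Real.sqrt T / Real.sqrt K)
    (H2 : 48 * P * K ≤ T) :
    ∫ t in Ioi (0 : ℝ), W T t * ‖Y G t K‖ ^ 2 ≤
      24 * C ^ 2 * Real.sqrt T * (K : ℝ) ^ (2 * e) *
        (2 * Real.sqrt K + (K : ℝ) ^ 2 * Real.exp (-Real.sqrt P)) := by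
  refine (B06_int hT hG K).trans ?_
  have hA : 0 ≤ 24 * C ^ 2 * Real.sqrt T * (K : ℝ) ^ (2 * e) := by positivity
  set E := Real.exp (-Real.sqrt P) with hE
  have hE0 : 0 ≤ E := (Real.exp_pos _).le
  calc _ ≤ ∑ k ∈ Finset.Ico 1 K, ∑ l ∈ Finset.Ico 1 K,
        24 * C ^ 2 * Real.sqrt T * (K : ℝ) ^ (2 * e) *
        (if k = l then (k : ℝ) ^ (-(1 / 2) : ℝ) else E) := by
        apply Finset.sum_le_sum; intro k hk
        apply Finset.sum_le_sum; intro l hl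
        rw [Finset.mem_Ico] at hk hl
        exact B06_term hT hG hP hC he hdv H1 H2 hk.1 hl.1 hk.2 hl.2
    _ = 24 * C ^ 2 * Real.sqrt T * (K : ℝ) ^ (2 * e) *
        ∑ k ∈ Finset.Ico 1 K, ∑ l ∈ Finset.Ico 1 K,
          (if k = l then (k : ℝ) ^ (-(1 / 2) : ℝ) else E) := by
        rw [Finset.mul_sum]; apply Finset.sum_congr rfl; intro k _
        rw [Finset.mul_sum]
    _ ≤ 24 * C ^ 2 * Real.sqrt T * (K : ℝ) ^ (2 * e) *
        ∑ k ∈ Finset.Ico 1 K, ((k : ℝ) ^ (-(1 / 2) : ℝ) + K * E) := by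
        apply mul_le_mul_of_nonneg_left _ hA
        apply Finset.sum_le_sum; intro k hk
        calc ∑ l ∈ Finset.Ico 1 K, (if k = l then (k : ℝ) ^ (-(1 / 2) : ℝ) else E)
            ≤ ∑ l ∈ Finset.Ico 1 K, ((if k = l then (k : ℝ) ^ (-(1 / 2) : ℝ) else 0) + E) := by
              apply Finset.sum_le_sum; intro l _
              split_ifs <;> linarith
          _ = (k : ℝ) ^ (-(1 / 2) : ℝ) + (Finset.Ico 1 K).card * E := by
              rw [Finset.sum_add_distrib, Finset.sum_ite_eq, if_pos hk, Finset.sum_const,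
                nsmul_eq_mul]
          _ ≤ _ := by
              have : ((Finset.Ico 1 K).card : ℝ) ≤ K := by
                rw [Nat.card_Ico]; exact_mod_cast Nat.sub_le K 1
              have := mul_le_mul_of_nonneg_right this hE0
              linarith
    _ ≤ _ := by
        apply mul_le_mul_of_nonneg_left _ hA
        rw [Finset.sum_add_distrib, Finset.sum_const, nsmul_eq_mul]
        have h1 := B06_sum_sqrt K
        have h2 : ((Finset.Ico 1 K).card : ℝ) ≤ K := by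
          rw [Nat.card_Ico]; exact_mod_cast Nat.sub_le K 1
        have h3 := mul_le_mul_of_nonneg_right h2 (by positivity : 0 ≤ (K : ℝ) * E)
        have h4 : (K : ℝ) * (K * E) = K ^ 2 * E := by ring
        linarith

theorem B06_ev (C ε : ℝ) (hε : 0 < ε) (hC : 0 < C) : ∃ T₀ : ℝ, ∀ T : ℝ, T₀ ≤ T →
    1 ≤ T ∧ 96 + 8 * C ≤ T ^ (1 / 3 : ℝ) ∧ 400 ≤ T ^ (1 / 10 : ℝ) ∧
    96 * C ^ 2 + 1 ≤ T ^ (6 * ε) ∧
    24 * C ^ 2 * (T ^ 4 * Real.exp (-(T ^ (1 / 20 : ℝ)))) ≤ 1 := by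
  have h1 : ∀ᶠ T : ℝ in Filter.atTop, 1 ≤ T := Filter.eventually_ge_atTop 1
  have h2 : ∀ᶠ T : ℝ in Filter.atTop, 96 + 8 * C ≤ T ^ (1 / 3 : ℝ) :=
    (tendsto_rpow_atTop (by norm_num)).eventually_ge_atTop _
  have h3 : ∀ᶠ T : ℝ in Filter.atTop, 400 ≤ T ^ (1 / 10 : ℝ) :=
    (tendsto_rpow_atTop (by norm_num)).eventually_ge_atTop _
  have h4 : ∀ᶠ T : ℝ in Filter.atTop, 96 * C ^ 2 + 1 ≤ T ^ (6 * ε) :=
    (tendsto_rpow_atTop (by positivity)).eventually_ge_atTop _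
  have h5 : ∀ᶠ T : ℝ in Filter.atTop,
      24 * C ^ 2 * (T ^ 4 * Real.exp (-(T ^ (1 / 20 : ℝ)))) ≤ 1 := by
    have hlim := (Real.tendsto_pow_mul_exp_neg_atTop_nhds_zero 80).comp
      (tendsto_rpow_atTop (by norm_num : (0 : ℝ) < 1 / 20))
    have hev := hlim.eventually (gt_mem_nhds (by positivity : (0 : ℝ) < 1 / (24 * C ^ 2)))
    filter_upwards [hev, h1] with T hT h1T
    simp only [Function.comp] at hT
    have h80 : (T ^ (1 / 20 : ℝ)) ^ 80 = T ^ 4 := by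
      rw [← Real.rpow_natCast, ← Real.rpow_mul (by linarith), ← Real.rpow_natCast]
      norm_num
    rw [h80, lt_div_iff₀ (by positivity)] at hT
    linarith
  obtain ⟨T₀, h⟩ := Filter.eventually_atTop.mp (h1.and (h2.and (h3.and (h4.and h5))))
  exact ⟨T₀, h⟩



theorem B06_K_le {T κ : ℝ} (hT : 1 ≤ T) (hκ : 0 ≤ κ) : ((⌈T ^ κ⌉₊ : ℕ) : ℝ) ≤ 2 * T ^ κ := by
  have h1 : (1 : ℝ) ≤ T ^ κ := Real.one_le_rpow hT hκ
  have h2 := Nat.ceil_lt_add_one (by linarith : (0 : ℝ) ≤ T ^ κ)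
  linarith

theorem B06_K_one {T κ : ℝ} (hT : 1 ≤ T) (hκ : 0 ≤ κ) : (1 : ℝ) ≤ ((⌈T ^ κ⌉₊ : ℕ) : ℝ) := by
  have h1 : (1 : ℝ) ≤ T ^ κ := Real.one_le_rpow hT hκ
  exact h1.trans (Nat.le_ceil _)

theorem second_moment (η ε : ℝ) (hη : 0 < η) (hη1 : η ≤ 1 / 80) (hε : 0 < ε) (hε1 : ε ≤ η / 100) :
    ∃ T₀ : ℝ, ∀ T : ℝ, T₀ ≤ T →
      ∫ t in Ioi (0 : ℝ), W T t * ‖Y (GG η T) t (KK η ε T)‖ ^ 2 ≤ T ^ (3 / 4 + η + 10 * ε) := by
  obtain ⟨C, hC, hdv⟩ := dv_le ε hε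
  obtain ⟨T₀, hT₀⟩ := B06_ev C ε hε hC
  refine ⟨T₀, fun T hT => ?_⟩
  obtain ⟨h1T, c2, c3, c4, c5⟩ := hT₀ T hT
  have hT0 : 0 < T := by linarith
  set κ : ℝ := 1 / 2 + 2 * η + 4 * ε with hκ
  have hκ0 : 0 ≤ κ := by rw [hκ]; positivity
  have hK2 : ((KK η ε T : ℕ) : ℝ) ≤ 2 * T ^ κ := B06_K_le h1T hκ0
  have hK1 : (1 : ℝ) ≤ ((KK η ε T : ℕ) : ℝ) := B06_K_one h1T hκ0
  set K := KK η ε T with hKdef
  have hK0 : (0 : ℝ) < K := by linarith
  have hG0 : 0 ≤ GG η T := by unfold GG; positivity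
  have hX : Real.sqrt T = T ^ (1 / 2 : ℝ) := Real.sqrt_eq_rpow T
  have hTp : ∀ x : ℝ, 0 < T ^ x := fun x => Real.rpow_pos_of_pos hT0 x
  have hmul : ∀ x y : ℝ, T ^ x * T ^ y = T ^ (x + y) := fun x y => (Real.rpow_add hT0 x y).symm
  have hmono : ∀ x y : ℝ, x ≤ y → T ^ x ≤ T ^ y := fun x y h =>
    Real.rpow_le_rpow_of_exponent_le h1T h
  -- sqrt K
  have hsK : Real.sqrt K ≤ 2 * T ^ (κ / 2) := by
    rw [Real.sqrt_le_iff]
    refine ⟨by positivity, hK2.trans ?_⟩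
    have : (2 * T ^ (κ / 2)) ^ 2 = 4 * T ^ κ := by
      rw [mul_pow, ← Real.rpow_natCast (T ^ (κ / 2)), ← Real.rpow_mul hT0.le]
      norm_num
    rw [this]; linarith [hTp κ]
  have hsK0 : 0 < Real.sqrt K := Real.sqrt_pos.mpr hK0
  -- K ≤ T
  have hKT : (K : ℝ) ≤ T := by
    calc (K : ℝ) ≤ 2 * T ^ κ := hK2
      _ ≤ T ^ (1 / 3 : ℝ) * T ^ κ := mul_le_mul_of_nonneg_right (by linarith) (hTp κ).le
      _ = T ^ (1 / 3 + κ) := hmul _ _
      _ ≤ T ^ (1 : ℝ) := hmono _ _ (by rw [hκ]; linarith)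
      _ = T := Real.rpow_one T
  have hP : 0 < T ^ (1 / 10 : ℝ) := hTp _
  have hsP : Real.sqrt (T ^ (1 / 10 : ℝ)) = T ^ (1 / 20 : ℝ) := by
    rw [Real.sqrt_eq_rpow, ← Real.rpow_mul hT0.le]; norm_num
  have H2 : 48 * T ^ (1 / 10 : ℝ) * K ≤ T := by
    calc 48 * T ^ (1 / 10 : ℝ) * K ≤ 48 * T ^ (1 / 10 : ℝ) * (2 * T ^ κ) :=
          mul_le_mul_of_nonneg_left hK2 (by positivity)
      _ = 96 * (T ^ (1 / 10 : ℝ) * T ^ κ) := by ring
      _ ≤ T ^ (1 / 3 : ℝ) * (T ^ (1 / 10 : ℝ) * T ^ κ) :=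
          mul_le_mul_of_nonneg_right (by linarith) (by positivity)
      _ = T ^ (1 / 3 + (1 / 10 + κ)) := by rw [hmul, hmul]
      _ ≤ T ^ (1 : ℝ) := hmono _ _ (by rw [hκ]; linarith)
      _ = T := Real.rpow_one T
  have H1 : 32 * T ^ (1 / 10 : ℝ) * (1 + 12 * GG η T * Real.sqrt K / Real.sqrt T) ≤
      4 * Real.sqrt T / Real.sqrt K := by
    have a1 : GG η T * Real.sqrt K / Real.sqrt T ≤ 2 * T ^ (2 * ε) := by
      rw [div_le_iff₀ (Real.sqrt_pos.mpr hT0), hX]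
      unfold GG
      calc T ^ (1 / 4 - η) * Real.sqrt K ≤ T ^ (1 / 4 - η) * (2 * T ^ (κ / 2)) :=
            mul_le_mul_of_nonneg_left hsK (by positivity)
        _ = 2 * (T ^ (1 / 4 - η) * T ^ (κ / 2)) := by ring
        _ = 2 * T ^ (1 / 4 - η + κ / 2) := by rw [hmul]
        _ = 2 * T ^ (2 * ε + 1 / 2) := by rw [hκ]; ring_nf
        _ = 2 * (T ^ (2 * ε) * T ^ (1 / 2 : ℝ)) := by rw [hmul]
        _ = _ := by ring
    have a2 : 1 + 12 * GG η T * Real.sqrt K / Real.sqrt T ≤ 25 * T ^ (2 * ε) := by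
      have e : 12 * GG η T * Real.sqrt K / Real.sqrt T = 12 * (GG η T * Real.sqrt K / Real.sqrt T) := by
        ring
      have : (1 : ℝ) ≤ T ^ (2 * ε) := Real.one_le_rpow h1T (by positivity)
      rw [e]; linarith
    rw [le_div_iff₀ hsK0]
    calc 32 * T ^ (1 / 10 : ℝ) * (1 + 12 * GG η T * Real.sqrt K / Real.sqrt T) * Real.sqrt K
        ≤ 32 * T ^ (1 / 10 : ℝ) * (25 * T ^ (2 * ε)) * (2 * T ^ (κ / 2)) := by
          apply mul_le_mul _ hsK hsK0.le (by positivity)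
          exact mul_le_mul_of_nonneg_left a2 (by positivity)
      _ = 4 * (400 * (T ^ (1 / 10 : ℝ) * (T ^ (2 * ε) * T ^ (κ / 2)))) := by ring
      _ ≤ 4 * (T ^ (1 / 10 : ℝ) * (T ^ (1 / 10 : ℝ) * (T ^ (2 * ε) * T ^ (κ / 2)))) := by
          apply mul_le_mul_of_nonneg_left _ (by norm_num)
          exact mul_le_mul_of_nonneg_right c3 (by positivity)
      _ = 4 * T ^ (1 / 10 + (1 / 10 + (2 * ε + κ / 2))) := by rw [hmul, hmul, hmul]
      _ ≤ 4 * T ^ (1 / 2 : ℝ) := by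
          apply mul_le_mul_of_nonneg_left _ (by norm_num)
          exact hmono _ _ (by rw [hκ]; linarith)
      _ = _ := by rw [hX]
  refine (B06_total hT0 hG0 hP hC hε hdv H1 H2).trans ?_
  rw [hsP, hX]
  set E := Real.exp (-T ^ (1 / 20 : ℝ)) with hE
  have hE0 : 0 < E := Real.exp_pos _
  have d1 : 24 * C ^ 2 * T ^ (1 / 2 : ℝ) * (K : ℝ) ^ (2 * ε) * (2 * Real.sqrt K) ≤
      96 * C ^ 2 * T ^ (3 / 4 + η + 4 * ε) := by
    have b1 : (K : ℝ) ^ (2 * ε) * Real.sqrt K = (K : ℝ) ^ (2 * ε + 1 / 2) := by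
      rw [Real.sqrt_eq_rpow, ← Real.rpow_add hK0]
    have b2 : (K : ℝ) ^ (2 * ε + 1 / 2) ≤ 2 * T ^ (κ * (2 * ε + 1 / 2)) := by
      calc (K : ℝ) ^ (2 * ε + 1 / 2) ≤ (2 * T ^ κ) ^ (2 * ε + 1 / 2) :=
            Real.rpow_le_rpow hK0.le hK2 (by positivity)
        _ = 2 ^ (2 * ε + 1 / 2) * T ^ (κ * (2 * ε + 1 / 2)) := by
            rw [Real.mul_rpow (by norm_num) (by positivity), ← Real.rpow_mul hT0.le]
        _ ≤ 2 * T ^ (κ * (2 * ε + 1 / 2)) := by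
            apply mul_le_mul_of_nonneg_right _ (by positivity)
            calc (2 : ℝ) ^ (2 * ε + 1 / 2) ≤ 2 ^ (1 : ℝ) :=
                  Real.rpow_le_rpow_of_exponent_le (by norm_num) (by linarith)
              _ = 2 := Real.rpow_one 2
    calc 24 * C ^ 2 * T ^ (1 / 2 : ℝ) * (K : ℝ) ^ (2 * ε) * (2 * Real.sqrt K)
        = 48 * C ^ 2 * T ^ (1 / 2 : ℝ) * ((K : ℝ) ^ (2 * ε) * Real.sqrt K) := by ring
      _ = 48 * C ^ 2 * T ^ (1 / 2 : ℝ) * (K : ℝ) ^ (2 * ε + 1 / 2) := by rw [b1]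
      _ ≤ 48 * C ^ 2 * T ^ (1 / 2 : ℝ) * (2 * T ^ (κ * (2 * ε + 1 / 2))) :=
          mul_le_mul_of_nonneg_left b2 (by positivity)
      _ = 96 * C ^ 2 * (T ^ (1 / 2 : ℝ) * T ^ (κ * (2 * ε + 1 / 2))) := by ring
      _ = 96 * C ^ 2 * T ^ (1 / 2 + κ * (2 * ε + 1 / 2)) := by rw [hmul]
      _ ≤ _ := by
          apply mul_le_mul_of_nonneg_left _ (by positivity)
          apply hmono
          rw [hκ]
          nlinarith
  have d2 : 24 * C ^ 2 * T ^ (1 / 2 : ℝ) * (K : ℝ) ^ (2 * ε) * ((K : ℝ) ^ 2 * E) ≤ 1 := by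
    refine le_trans ?_ c5
    have b1 : (K : ℝ) ^ (2 * ε) ≤ T ^ (2 * ε) := Real.rpow_le_rpow hK0.le hKT (by positivity)
    have b2 : (K : ℝ) ^ 2 ≤ T ^ 2 := pow_le_pow_left₀ hK0.le hKT 2
    have b3 : T ^ (1 / 2 : ℝ) * T ^ (2 * ε) ≤ T ^ 2 := by
      rw [hmul, ← Real.rpow_natCast]
      apply hmono; push_cast; linarith
    calc 24 * C ^ 2 * T ^ (1 / 2 : ℝ) * (K : ℝ) ^ (2 * ε) * ((K : ℝ) ^ 2 * E)
        ≤ 24 * C ^ 2 * T ^ (1 / 2 : ℝ) * T ^ (2 * ε) * (T ^ 2 * E) := by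
          apply mul_le_mul _ _ (by positivity) (by positivity)
          · exact mul_le_mul_of_nonneg_left b1 (by positivity)
          · exact mul_le_mul_of_nonneg_right b2 hE0.le
      _ = 24 * C ^ 2 * ((T ^ (1 / 2 : ℝ) * T ^ (2 * ε)) * (T ^ 2 * E)) := by ring
      _ ≤ 24 * C ^ 2 * (T ^ 2 * (T ^ 2 * E)) := by
          apply mul_le_mul_of_nonneg_left _ (by positivity)
          exact mul_le_mul_of_nonneg_right b3 (by positivity)
      _ = _ := by ring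
  have d3 : (1 : ℝ) ≤ T ^ (3 / 4 + η + 4 * ε) := Real.one_le_rpow h1T (by positivity)
  calc 24 * C ^ 2 * T ^ (1 / 2 : ℝ) * (K : ℝ) ^ (2 * ε) * (2 * Real.sqrt K + (K : ℝ) ^ 2 * E)
      = 24 * C ^ 2 * T ^ (1 / 2 : ℝ) * (K : ℝ) ^ (2 * ε) * (2 * Real.sqrt K) +
        24 * C ^ 2 * T ^ (1 / 2 : ℝ) * (K : ℝ) ^ (2 * ε) * ((K : ℝ) ^ 2 * E) := by ring
    _ ≤ (96 * C ^ 2 + 1) * T ^ (3 / 4 + η + 4 * ε) := by linarith
    _ ≤ T ^ (6 * ε) * T ^ (3 / 4 + η + 4 * ε) := mul_le_mul_of_nonneg_right c4 (by positivity)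
    _ = T ^ (3 / 4 + η + 10 * ε) := by rw [hmul]; ring_nf

/-- crude bound and integrability facts -/
theorem Y_le (η ε : ℝ) (hη : 0 < η) (hη1 : η ≤ 1 / 80) (hε : 0 < ε) (hε1 : ε ≤ η / 100) :
    ∃ T₀ : ℝ, ∀ T t : ℝ, T₀ ≤ T → 0 < t → ‖Y (GG η T) t (KK η ε T)‖ ≤ T * t ^ (-(1 / 4) : ℝ) := by
  obtain ⟨C, hC, hdv⟩ := dv_le ε hε
  obtain ⟨T₀, hT₀⟩ := B06_ev C ε hε hC
  refine ⟨T₀, fun T t hT ht => ?_⟩
  obtain ⟨h1T, c2, c3, c4, c5⟩ := hT₀ T hT
  have hT0 : 0 < T := by linarith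
  set κ : ℝ := 1 / 2 + 2 * η + 4 * ε with hκ
  have hκ0 : 0 ≤ κ := by rw [hκ]; positivity
  have hK2 : ((KK η ε T : ℕ) : ℝ) ≤ 2 * T ^ κ := B06_K_le h1T hκ0
  have hK1 : (1 : ℝ) ≤ ((KK η ε T : ℕ) : ℝ) := B06_K_one h1T hκ0
  set K := KK η ε T with hKdef
  have hK0 : (0 : ℝ) < K := by linarith
  have hG0 : 0 ≤ GG η T := by unfold GG; positivity
  have hTp : ∀ x : ℝ, 0 < T ^ x := fun x => Real.rpow_pos_of_pos hT0 x
  have hmul : ∀ x y : ℝ, T ^ x * T ^ y = T ^ (x + y) := fun x y => (Real.rpow_add hT0 x y).symm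
  have hmono : ∀ x y : ℝ, x ≤ y → T ^ x ≤ T ^ y := fun x y h =>
    Real.rpow_le_rpow_of_exponent_le h1T h
  have htq : 0 < t ^ (-(1 / 4) : ℝ) := Real.rpow_pos_of_pos ht _
  have hJ : ∀ k ∈ Finset.Ico 1 K, ‖((-1) ^ k * (dv k : ℂ)) * J0 (GG η T) t k‖ ≤
      C * (K : ℝ) ^ ε * (2 * t ^ (-(1 / 4) : ℝ)) := by
    intro k hk
    rw [Finset.mem_Ico] at hk
    have hk0 : (0 : ℝ) < k := by exact_mod_cast hk.1
    have dk : (dv k : ℝ) ≤ C * (K : ℝ) ^ ε := (hdv k hk.1).trans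
      (mul_le_mul_of_nonneg_left (Real.rpow_le_rpow hk0.le (by exact_mod_cast hk.2.le) hε.le) hC.le)
    rw [norm_mul, norm_mul, norm_pow, norm_neg, norm_one, one_pow, one_mul, Complex.norm_natCast]
    apply mul_le_mul dk _ (norm_nonneg _) (by positivity)
    unfold J0
    rw [norm_mul, mul_comm I, Complex.norm_exp_ofReal_mul_I, mul_one, Complex.norm_real,
      Real.norm_of_nonneg (by positivity)]
    have e1 : Real.exp (-(GG η T * Real.sqrt (2 * Real.pi * k / t))) ≤ 1 :=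
      Real.exp_le_one_iff.mpr (by
        have : 0 ≤ GG η T * Real.sqrt (2 * Real.pi * k / t) := by positivity
        linarith)
    have e2 : (Real.pi / 2) ^ (1 / 4 : ℝ) ≤ 2 := by
      calc (Real.pi / 2) ^ (1 / 4 : ℝ) ≤ (Real.pi / 2) ^ (1 : ℝ) :=
            Real.rpow_le_rpow_of_exponent_le (by linarith [Real.pi_gt_three]) (by norm_num)
        _ ≤ 2 := by rw [Real.rpow_one]; linarith [Real.pi_lt_d2]
    have e3 : ((k : ℝ) * t) ^ (-(1 / 4) : ℝ) ≤ t ^ (-(1 / 4) : ℝ) := by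
      rw [Real.mul_rpow hk0.le ht.le]
      have : (k : ℝ) ^ (-(1 / 4) : ℝ) ≤ 1 :=
        Real.rpow_le_one_of_one_le_of_nonpos (by exact_mod_cast hk.1) (by norm_num)
      calc (k : ℝ) ^ (-(1 / 4) : ℝ) * t ^ (-(1 / 4) : ℝ) ≤ 1 * t ^ (-(1 / 4) : ℝ) :=
            mul_le_mul_of_nonneg_right this htq.le
        _ = _ := one_mul _
    calc _ ≤ (Real.pi / 2) ^ (1 / 4 : ℝ) * ((k : ℝ) * t) ^ (-(1 / 4) : ℝ) * 1 :=
          mul_le_mul_of_nonneg_left e1 (by positivity)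
      _ ≤ 2 * t ^ (-(1 / 4) : ℝ) * 1 := by
          apply mul_le_mul_of_nonneg_right _ (by norm_num)
          exact mul_le_mul e2 e3 (by positivity) (by norm_num)
      _ = _ := mul_one _
  unfold Y
  refine (norm_sum_le _ _).trans ((Finset.sum_le_sum hJ).trans ?_)
  rw [Finset.sum_const, nsmul_eq_mul]
  have h2 : ((Finset.Ico 1 K).card : ℝ) ≤ K := by
    rw [Nat.card_Ico]; exact_mod_cast Nat.sub_le K 1
  have hKe : (K : ℝ) ^ ε ≤ 2 * T ^ (κ * ε) := by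
    calc (K : ℝ) ^ ε ≤ (2 * T ^ κ) ^ ε := Real.rpow_le_rpow hK0.le hK2 hε.le
      _ = 2 ^ ε * T ^ (κ * ε) := by
          rw [Real.mul_rpow (by norm_num) (by positivity), ← Real.rpow_mul hT0.le]
      _ ≤ 2 * T ^ (κ * ε) := by
          apply mul_le_mul_of_nonneg_right _ (by positivity)
          calc (2 : ℝ) ^ ε ≤ 2 ^ (1 : ℝ) :=
                Real.rpow_le_rpow_of_exponent_le (by norm_num) (by linarith)
            _ = 2 := Real.rpow_one 2
  have h3 : (K : ℝ) * (C * (K : ℝ) ^ ε * 2) ≤ T := by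
    calc (K : ℝ) * (C * (K : ℝ) ^ ε * 2) ≤ (2 * T ^ κ) * (C * (2 * T ^ (κ * ε)) * 2) := by
          apply mul_le_mul hK2 _ (by positivity) (by positivity)
          apply mul_le_mul_of_nonneg_right _ (by norm_num)
          exact mul_le_mul_of_nonneg_left hKe hC.le
      _ = (8 * C) * (T ^ κ * T ^ (κ * ε)) := by ring
      _ ≤ T ^ (1 / 3 : ℝ) * (T ^ κ * T ^ (κ * ε)) :=
          mul_le_mul_of_nonneg_right (by linarith) (by positivity)
      _ = T ^ (1 / 3 + (κ + κ * ε)) := by rw [hmul, hmul]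
      _ ≤ T ^ (1 : ℝ) := hmono _ _ (by
          have : κ * ε ≤ 1 / 100 := by rw [hκ]; nlinarith
          rw [hκ] at this ⊢; linarith)
      _ = T := Real.rpow_one T
  calc ((Finset.Ico 1 K).card : ℝ) * (C * (K : ℝ) ^ ε * (2 * t ^ (-(1 / 4) : ℝ)))
      ≤ (K : ℝ) * (C * (K : ℝ) ^ ε * (2 * t ^ (-(1 / 4) : ℝ))) :=
        mul_le_mul_of_nonneg_right h2 (by positivity)
    _ = ((K : ℝ) * (C * (K : ℝ) ^ ε * 2)) * t ^ (-(1 / 4) : ℝ) := by ring
    _ ≤ T * t ^ (-(1 / 4) : ℝ) := mul_le_mul_of_nonneg_right h3 htq.le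

theorem Y_cont {G : ℝ} {K : ℕ} : ContinuousOn (fun t => Y G t K) (Ioi 0) := by
  unfold Y
  apply continuousOn_finsetSum
  intro k hk
  rw [Finset.mem_Ico] at hk
  have hk0 : (0 : ℝ) < k := by exact_mod_cast hk.1
  apply ContinuousOn.mul continuousOn_const
  unfold J0 ph
  have hpow : ContinuousOn (fun t : ℝ => ((k : ℝ) * t) ^ (-(1 / 4) : ℝ)) (Ioi 0) := by
    apply ContinuousOn.rpow_const (by fun_prop)
    intro t ht
    left
    exact (mul_pos hk0 ht).ne'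
  have hdiv : ContinuousOn (fun t : ℝ => 2 * Real.pi * k / t) (Ioi 0) := by
    apply ContinuousOn.div continuousOn_const continuousOn_id
    intro t ht; exact (ne_of_gt ht)
  have hsq : ContinuousOn (fun t : ℝ => Real.sqrt (2 * Real.pi * k / t)) (Ioi 0) := hdiv.sqrt
  have hexp : ContinuousOn (fun t : ℝ => Real.exp (-(G * Real.sqrt (2 * Real.pi * k / t)))) (Ioi 0) :=
    (continuousOn_const.mul hsq).neg.rexp
  have hr : ContinuousOn (fun t : ℝ => (Real.pi / 2) ^ (1 / 4 : ℝ) * ((k : ℝ) * t) ^ (-(1 / 4) : ℝ) *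
    Real.exp (-(G * Real.sqrt (2 * Real.pi * k / t)))) (Ioi 0) :=
    (continuousOn_const.mul hpow).mul hexp
  have hph : ContinuousOn (fun t : ℝ => 2 * Real.sqrt (2 * Real.pi * k * t) +
    Real.sqrt 2 / 6 * (Real.pi * k * Real.sqrt (Real.pi * k)) / Real.sqrt t + Real.pi / 4) (Ioi 0) := by
    apply ContinuousOn.add _ continuousOn_const
    apply ContinuousOn.add
    · exact (by fun_prop : Continuous (fun t : ℝ => 2 * Real.sqrt (2 * Real.pi * k * t))).continuousOn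
    · apply ContinuousOn.div continuousOn_const Real.continuous_sqrt.continuousOn
      intro t ht
      exact (Real.sqrt_pos.mpr ht).ne'
  apply ContinuousOn.mul
  · exact Complex.continuous_ofReal.comp_continuousOn hr
  · apply ContinuousOn.cexp
    apply ContinuousOn.mul continuousOn_const
    exact Complex.continuous_ofReal.comp_continuousOn hph

end U6
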