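import Pool.Agent.Lib.MP_39df77_nt.U6.A01
/-! B07: third moment, exact. `x = √t`, `t^{-3/4} dt = 2 x^{-1/2} dx`, A01 for each triple. -/
open Complex MeasureTheory Set
namespace U6

theorem B07_rpow {k : ℕ} {x : ℝ} (hx : 0 < x) :
    ((k : ℝ) * x ^ 2) ^ (-(1 / 4) : ℝ) = (k : ℝ) ^ (-(1 / 4) : ℝ) * (Real.sqrt x)⁻¹ := by
  rw [Real.mul_rpow (Nat.cast_nonneg k) (by positivity), ← Real.rpow_natCast x 2,
    ← Real.rpow_mul hx.le, Real.sqrt_eq_rpow, ← Real.rpow_neg hx.le]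
  norm_num

/-- common form of `J0` and its conjugate -/
theorem B07_J {G x : ℝ} (hx : 0 < x) (k : ℕ) :
    J0 G (x ^ 2) k = (((Real.pi / 2) ^ (1 / 4 : ℝ) * (k : ℝ) ^ (-(1 / 4) : ℝ) * (Real.sqrt x)⁻¹ : ℝ) : ℂ) *
      cexp (-((G * Real.sqrt (2 * Real.pi) * Real.sqrt k / x : ℝ) : ℂ)
        + ((2 * Real.sqrt (2 * Real.pi) * Real.sqrt k * x : ℝ) : ℂ) * I
        + ((Real.sqrt 2 / 6 * (Real.pi * Real.sqrt Real.pi) * (k * Real.sqrt k) / x : ℝ) : ℂ) * I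
        + ((Real.pi / 4 : ℝ) : ℂ) * I) := by
  have hpi := Real.pi_pos
  have h1 : Real.sqrt (2 * Real.pi * k / x ^ 2) = Real.sqrt (2 * Real.pi) * Real.sqrt k / x := by
    rw [Real.sqrt_div (by positivity), Real.sqrt_sq hx.le, Real.sqrt_mul (by positivity)]
  have h2 : ph k (x ^ 2) = 2 * Real.sqrt (2 * Real.pi) * Real.sqrt k * x +
      Real.sqrt 2 / 6 * (Real.pi * Real.sqrt Real.pi) * (k * Real.sqrt k) / x := by
    unfold ph
    rw [Real.sqrt_mul (by positivity) (x ^ 2), Real.sqrt_sq hx.le, Real.sqrt_mul (by positivity) (k : ℝ),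
      Real.sqrt_mul hpi.le]
    ring
  unfold J0
  rw [B07_rpow hx, h1, h2]
  have e : (((Real.pi / 2) ^ (1 / 4 : ℝ) * ((k : ℝ) ^ (-(1 / 4) : ℝ) * (Real.sqrt x)⁻¹) *
      Real.exp (-(G * (Real.sqrt (2 * Real.pi) * Real.sqrt k / x))) : ℝ) : ℂ) =
      (((Real.pi / 2) ^ (1 / 4 : ℝ) * (k : ℝ) ^ (-(1 / 4) : ℝ) * (Real.sqrt x)⁻¹ : ℝ) : ℂ) *
      cexp (-((G * Real.sqrt (2 * Real.pi) * Real.sqrt k / x : ℝ) : ℂ)) := by
    rw [← ofReal_neg, ← ofReal_exp, ← ofReal_mul]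
    congr 1
    rw [show G * (Real.sqrt (2 * Real.pi) * Real.sqrt k / x) = G * Real.sqrt (2 * Real.pi) * Real.sqrt k / x by ring]
    ring
  rw [e, mul_assoc, ← Complex.exp_add]
  congr 2
  push_cast
  ring

theorem B07_Jc {G x : ℝ} (hx : 0 < x) (k : ℕ) :
    (starRingEnd ℂ) (J0 G (x ^ 2) k) = (((Real.pi / 2) ^ (1 / 4 : ℝ) * (k : ℝ) ^ (-(1 / 4) : ℝ) * (Real.sqrt x)⁻¹ : ℝ) : ℂ) *
      cexp (-((G * Real.sqrt (2 * Real.pi) * Real.sqrt k / x : ℝ) : ℂ)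
        - ((2 * Real.sqrt (2 * Real.pi) * Real.sqrt k * x : ℝ) : ℂ) * I
        - ((Real.sqrt 2 / 6 * (Real.pi * Real.sqrt Real.pi) * (k * Real.sqrt k) / x : ℝ) : ℂ) * I
        - ((Real.pi / 4 : ℝ) : ℂ) * I) := by
  rw [B07_J hx k, map_mul, Complex.conj_ofReal, ← Complex.exp_conj]
  congr 2
  simp only [map_add, map_neg, map_mul, Complex.conj_ofReal, Complex.conj_I]
  ring

theorem B07_W {T x : ℝ} (hT : 0 < T) (hx : 0 < x) :
    ((W T (x ^ 2) : ℝ) : ℂ) = cexp (-((x / Real.sqrt T : ℝ) : ℂ) - ((Real.sqrt T / x : ℝ) : ℂ)) := by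
  unfold W
  rw [Real.sqrt_div (by positivity), Real.sqrt_sq hx.le, Real.sqrt_div hT.le, Real.sqrt_sq hx.le]
  push_cast
  rfl

/-- the triple term, `s = 1` or `s = -1` -/
noncomputable def B07_trip (T G s : ℝ) (k : ℕ × ℕ × ℕ) (t : ℝ) : ℂ :=
  ((W T t : ℝ) : ℂ) * (J0 G t k.1 * J0 G t k.2.1 *
    (if s = 1 then J0 G t k.2.2 else (starRingEnd ℂ) (J0 G t k.2.2)))

theorem B07_key {T G s x : ℝ} (hs : s = 1 ∨ s = -1) (hT : 0 < T) (hx : 0 < x) (k : ℕ × ℕ × ℕ) :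
    ((2 * x ^ ((2 : ℝ) - 1) : ℝ)) • B07_trip T G s k (x ^ (2 : ℝ)) =
      (((2 * (Real.pi / 2) ^ (3 / 4 : ℝ) : ℝ) : ℂ) * cexp ((2 + s) * Real.pi * I / 4) *
        (((k.1 * k.2.1 * k.2.2 : ℝ) ^ (-(1 / 4) : ℝ) : ℝ) : ℂ)) *
      (((Real.sqrt x)⁻¹ : ℂ) * cexp (-((((1 / Real.sqrt T : ℝ) : ℂ) - I * (e1 s k : ℝ)) * x) -
        (((Real.sqrt T + ga G k : ℝ) : ℂ) - I * (e3 s k : ℝ)) / x)) := by
  have hpi := Real.pi_pos
  have hsx : 0 < Real.sqrt x := Real.sqrt_pos.mpr hx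
  have hxx : (Real.sqrt x) ^ 2 = x := Real.sq_sqrt hx.le
  have hp : ((Real.pi / 2) ^ (3 / 4 : ℝ)) = (Real.pi / 2) ^ (1 / 4 : ℝ) * (Real.pi / 2) ^ (1 / 4 : ℝ) * (Real.pi / 2) ^ (1 / 4 : ℝ) := by
    rw [← Real.rpow_add (by positivity), ← Real.rpow_add (by positivity)]
    norm_num
  have hk : ((k.1 * k.2.1 * k.2.2 : ℝ) ^ (-(1 / 4) : ℝ)) = (k.1 : ℝ) ^ (-(1 / 4) : ℝ) * (k.2.1 : ℝ) ^ (-(1 / 4) : ℝ) * (k.2.2 : ℝ) ^ (-(1 / 4) : ℝ) := by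
    rw [Real.mul_rpow (by positivity) (by positivity), Real.mul_rpow (by positivity) (by positivity)]
  have h2 : x ^ (2 : ℝ) = x ^ 2 := by norm_cast
  have h1 : x ^ ((2 : ℝ) - 1) = x := by norm_num
  rw [h2, h1, hp, hk]
  unfold B07_trip
  rw [B07_W hT hx, B07_J hx k.1, B07_J hx k.2.1]
  have hJ3 : (if s = 1 then J0 G (x ^ 2) k.2.2 else (starRingEnd ℂ) (J0 G (x ^ 2) k.2.2)) =
      (((Real.pi / 2) ^ (1 / 4 : ℝ) * (k.2.2 : ℝ) ^ (-(1 / 4) : ℝ) * (Real.sqrt x)⁻¹ : ℝ) : ℂ) *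
      cexp (-((G * Real.sqrt (2 * Real.pi) * Real.sqrt k.2.2 / x : ℝ) : ℂ)
        + s * ((2 * Real.sqrt (2 * Real.pi) * Real.sqrt k.2.2 * x : ℝ) : ℂ) * I
        + s * ((Real.sqrt 2 / 6 * (Real.pi * Real.sqrt Real.pi) * (k.2.2 * Real.sqrt k.2.2) / x : ℝ) : ℂ) * I
        + s * ((Real.pi / 4 : ℝ) : ℂ) * I) := by
    rcases hs with h | h
    · rw [if_pos h, B07_J hx, h]
      push_cast
      ring_nf
    · rw [if_neg (by rw [h]; norm_num), B07_Jc hx, h]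
      push_cast
      ring_nf
  rw [hJ3]
  rw [Complex.real_smul]
  set A := (Real.pi / 2) ^ (1 / 4 : ℝ)
  set B1 := (k.1 : ℝ) ^ (-(1 / 4) : ℝ)
  set B2 := (k.2.1 : ℝ) ^ (-(1 / 4) : ℝ)
  set B3 := (k.2.2 : ℝ) ^ (-(1 / 4) : ℝ)
  have hE : ∀ a b c d e f : ℂ, a + b + c + d = e + f → cexp a * (cexp b * (cexp c * cexp d)) = cexp e * cexp f := by
    intro a b c d e f h
    rw [← Complex.exp_add, ← Complex.exp_add, ← Complex.exp_add, ← Complex.exp_add]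
    congr 1
    rw [← h]; ring
  have hcoef : ((2 * x : ℝ) : ℂ) * ((A * B1 * (Real.sqrt x)⁻¹ : ℝ) : ℂ) * ((A * B2 * (Real.sqrt x)⁻¹ : ℝ) : ℂ) *
      ((A * B3 * (Real.sqrt x)⁻¹ : ℝ) : ℂ) = ((2 * (A * A * A) : ℝ) : ℂ) * ((B1 * B2 * B3 : ℝ) : ℂ) * ((Real.sqrt x)⁻¹ : ℂ) := by
    rw [← ofReal_mul, ← ofReal_mul, ← ofReal_mul, ← ofReal_mul, ← ofReal_inv, ← ofReal_mul]
    congr 1
    field_simp
    rw [hxx]
    try ring
  have hxC : (x : ℂ) ≠ 0 := by exact_mod_cast hx.ne'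
  have hTC : ((Real.sqrt T : ℝ) : ℂ) ≠ 0 := by exact_mod_cast (Real.sqrt_pos.mpr hT).ne'
  have hexp := hE (-((x / Real.sqrt T : ℝ) : ℂ) - ((Real.sqrt T / x : ℝ) : ℂ))
    (-((G * Real.sqrt (2 * Real.pi) * Real.sqrt k.1 / x : ℝ) : ℂ)
        + ((2 * Real.sqrt (2 * Real.pi) * Real.sqrt k.1 * x : ℝ) : ℂ) * I
        + ((Real.sqrt 2 / 6 * (Real.pi * Real.sqrt Real.pi) * (k.1 * Real.sqrt k.1) / x : ℝ) : ℂ) * I
        + ((Real.pi / 4 : ℝ) : ℂ) * I)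
    (-((G * Real.sqrt (2 * Real.pi) * Real.sqrt k.2.1 / x : ℝ) : ℂ)
        + ((2 * Real.sqrt (2 * Real.pi) * Real.sqrt k.2.1 * x : ℝ) : ℂ) * I
        + ((Real.sqrt 2 / 6 * (Real.pi * Real.sqrt Real.pi) * (k.2.1 * Real.sqrt k.2.1) / x : ℝ) : ℂ) * I
        + ((Real.pi / 4 : ℝ) : ℂ) * I)
    (-((G * Real.sqrt (2 * Real.pi) * Real.sqrt k.2.2 / x : ℝ) : ℂ)
        + s * ((2 * Real.sqrt (2 * Real.pi) * Real.sqrt k.2.2 * x : ℝ) : ℂ) * I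
        + s * ((Real.sqrt 2 / 6 * (Real.pi * Real.sqrt Real.pi) * (k.2.2 * Real.sqrt k.2.2) / x : ℝ) : ℂ) * I
        + s * ((Real.pi / 4 : ℝ) : ℂ) * I)
    ((2 + s) * Real.pi * I / 4)
    (-((((1 / Real.sqrt T : ℝ) : ℂ) - I * (e1 s k : ℝ)) * x) -
        (((Real.sqrt T + ga G k : ℝ) : ℂ) - I * (e3 s k : ℝ)) / x) (by
      unfold e1 e3 ga
      push_cast
      field_simp
      ring)
  calc _ = (((2 * x : ℝ) : ℂ) * ((A * B1 * (Real.sqrt x)⁻¹ : ℝ) : ℂ) * ((A * B2 * (Real.sqrt x)⁻¹ : ℝ) : ℂ) *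
      ((A * B3 * (Real.sqrt x)⁻¹ : ℝ) : ℂ)) * _ := by
        rw [show ∀ a b c d e f g h : ℂ, a * (b * ((c * d) * (e * f) * (g * h))) = (a * c * e * g) * (b * (d * (f * h))) by intros; ring]
    _ = _ := by
        rw [hcoef, hexp]
        ring

theorem B07_re {T G s : ℝ} (hT : 0 < T) (hG : 0 < G) (k : ℕ × ℕ × ℕ) :
    0 < (((1 / Real.sqrt T : ℝ) : ℂ) - I * (e1 s k : ℝ)).re ∧
    0 < (((Real.sqrt T + ga G k : ℝ) : ℂ) - I * (e3 s k : ℝ)).re := by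
  have h := Real.sqrt_pos.mpr hT
  have hga : 0 ≤ ga G k := by unfold ga; positivity
  constructor
  · simp only [sub_re, ofReal_re, mul_re, I_re, I_im, ofReal_im]
    have : 0 < 1 / Real.sqrt T := by positivity
    linarith
  · simp only [sub_re, ofReal_re, mul_re, I_re, I_im, ofReal_im]
    linarith

theorem B07_trip_int {T G s : ℝ} (hs : s = 1 ∨ s = -1) (hT : 0 < T) (hG : 0 < G) (k : ℕ × ℕ × ℕ) :
    IntegrableOn (B07_trip T G s k) (Ioi 0) := by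
  rw [← integrableOn_Ioi_comp_rpow_iff (B07_trip T G s k) (two_ne_zero : (2 : ℝ) ≠ 0)]
  obtain ⟨ha, hb⟩ := B07_re (s := s) hT hG k
  have h := (int_exp_half_integrable ha hb).const_mul
    (((2 * (Real.pi / 2) ^ (3 / 4 : ℝ) : ℝ) : ℂ) * cexp ((2 + s) * Real.pi * I / 4) *
        (((k.1 * k.2.1 * k.2.2 : ℝ) ^ (-(1 / 4) : ℝ) : ℝ) : ℂ))
  refine h.congr ?_
  filter_upwards [ae_restrict_mem measurableSet_Ioi] with x hx
  rw [abs_of_pos (by norm_num : (0 : ℝ) < 2)]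
  exact (B07_key hs hT hx k).symm

theorem B07_trip_val {T G s : ℝ} (hs : s = 1 ∨ s = -1) (hT : 0 < T) (hG : 0 < G) (k : ℕ × ℕ × ℕ) :
    ∫ t in Ioi (0 : ℝ), B07_trip T G s k t =
      (((2 * (Real.pi / 2) ^ (3 / 4 : ℝ) : ℝ) : ℂ) * cexp ((2 + s) * Real.pi * I / 4) *
        (((k.1 * k.2.1 * k.2.2 : ℝ) ^ (-(1 / 4) : ℝ) : ℝ) : ℂ)) * E3 T G s k := by
  obtain ⟨ha, hb⟩ := B07_re (s := s) hT hG k
  rw [← integral_comp_rpow_Ioi_of_pos (g := B07_trip T G s k) (two_pos : (0 : ℝ) < 2)]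
  rw [setIntegral_congr_fun measurableSet_Ioi (fun x hx => B07_key hs hT hx k)]
  rw [integral_const_mul, int_exp_half ha hb]
  rfl

theorem B07_expand {T G s : ℝ} (hs : s = 1 ∨ s = -1) (K : ℕ) (t : ℝ) :
    ((W T t : ℝ) : ℂ) * (Y G t K * Y G t K * (if s = 1 then Y G t K else (starRingEnd ℂ) (Y G t K))) =
      ∑ k ∈ box K, ((-1) ^ (k.1 + k.2.1 + k.2.2) * ((dv k.1 * dv k.2.1 * dv k.2.2 : ℕ) : ℂ)) * B07_trip T G s k t := by
  have hY : (if s = 1 then Y G t K else (starRingEnd ℂ) (Y G t K)) =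
      ∑ k ∈ Finset.Ico 1 K, ((-1) ^ k * (dv k : ℂ)) *
        (if s = 1 then J0 G t k else (starRingEnd ℂ) (J0 G t k)) := by
    rcases hs with h | h
    · simp only [if_pos h]
      rfl
    · have h1 : ¬ s = 1 := by rw [h]; norm_num
      simp only [if_neg h1]
      unfold Y
      rw [map_sum]
      refine Finset.sum_congr rfl fun k _ => ?_
      rw [map_mul]
      congr 1
      rw [map_mul, map_pow, map_neg, map_one, Complex.conj_natCast]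
  rw [hY]
  unfold box
  rw [Finset.sum_product]
  simp only [Finset.sum_product]
  unfold Y
  rw [Finset.sum_mul_sum, Finset.sum_mul, Finset.mul_sum]
  refine Finset.sum_congr rfl fun a _ => ?_
  rw [Finset.sum_mul, Finset.mul_sum]
  refine Finset.sum_congr rfl fun b _ => ?_
  rw [Finset.mul_sum, Finset.mul_sum]
  refine Finset.sum_congr rfl fun c _ => ?_
  unfold B07_trip
  push_cast
  rw [pow_add, pow_add]
  ring

theorem B07_main {T G s : ℝ} (hs : s = 1 ∨ s = -1) (hT : 0 < T) (hG : 0 < G) (K : ℕ) :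
    ∫ t in Ioi (0 : ℝ), ((W T t : ℝ) : ℂ) *
        (Y G t K * Y G t K * (if s = 1 then Y G t K else (starRingEnd ℂ) (Y G t K))) =
      ((2 * (Real.pi / 2) ^ (3 / 4 : ℝ) : ℝ) : ℂ) * cexp ((2 + s) * Real.pi * I / 4) *
        ∑ k ∈ box K, cf k * E3 T G s k := by
  simp only [B07_expand hs]
  rw [integral_finset_sum _ (fun k _ => (B07_trip_int hs hT hG k).const_mul _)]
  rw [Finset.mul_sum]
  refine Finset.sum_congr rfl fun k _ => ?_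
  rw [integral_const_mul, B07_trip_val hs hT hG k]
  unfold cf
  ring

theorem third_pos {T G : ℝ} (hT : 0 < T) (hG : 0 < G) (K : ℕ) :
    ∫ t in Ioi (0 : ℝ), ((W T t : ℝ) : ℂ) * (Y G t K * Y G t K * Y G t K) =
      ((2 * (Real.pi / 2) ^ (3 / 4 : ℝ) : ℝ) : ℂ) * cexp (3 * Real.pi * I / 4) * ∑ k ∈ box K, cf k * E3 T G 1 k := by
  have h := B07_main (s := 1) (Or.inl rfl) hT hG K
  simp only [if_true] at h
  rw [h]
  congr 3
  push_cast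
  ring
theorem third_neg {T G : ℝ} (hT : 0 < T) (hG : 0 < G) (K : ℕ) :
    ∫ t in Ioi (0 : ℝ), ((W T t : ℝ) : ℂ) * (Y G t K * Y G t K * (starRingEnd ℂ) (Y G t K)) =
      ((2 * (Real.pi / 2) ^ (3 / 4 : ℝ) : ℝ) : ℂ) * cexp (Real.pi * I / 4) * ∑ k ∈ box K, cf k * E3 T G (-1) k := by
  have h := B07_main (s := -1) (Or.inr rfl) hT hG K
  have h1 : ¬ (-1 : ℝ) = 1 := by norm_num
  simp only [if_neg h1] at h
  rw [h]
  congr 3
  push_cast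
  ring
theorem third_int {T G : ℝ} (hT : 0 < T) (hG : 0 < G) (K : ℕ) :
    IntegrableOn (fun t => W T t * ‖Y G t K‖ ^ 3) (Ioi 0) := by
  have h : IntegrableOn (fun t => ∑ k ∈ box K, ((-1) ^ (k.1 + k.2.1 + k.2.2) *
      ((dv k.1 * dv k.2.1 * dv k.2.2 : ℕ) : ℂ)) * B07_trip T G 1 k t) (Ioi 0) :=
    integrable_finset_sum _ (fun k _ => (B07_trip_int (Or.inl rfl) hT hG k).const_mul _)
  have h2 := h.norm
  refine h2.congr (Filter.Eventually.of_forall fun t => ?_)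
  have h3 := B07_expand (T := T) (G := G) (s := 1) (Or.inl rfl) K t
  simp only [if_true] at h3
  show ‖_‖ = _
  rw [← h3, norm_mul, norm_mul, norm_mul, Complex.norm_real, Real.norm_of_nonneg (by unfold W; positivity)]
  ring
end U6
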