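import Pool.Agent.Lib.MP_39df77_nt.U6.A08
/-! B08: non-resonant triples: trivial bound, the sum of all three roots, and the non-resonant case. -/
open Complex MeasureTheory Set Filter Topology
namespace U6

/-! ### algebra of the three square roots -/

private theorem B08_q (x y z : ℝ) : (z ^ 2 - x ^ 2 - y ^ 2) ^ 2 - 4 * x ^ 2 * y ^ 2 =
    -((x + y + z) * (x + y - z) * (x - y + z) * (-x + y + z)) := by ring

private theorem B08_q_le {x y z R : ℝ} (hx : 0 ≤ x) (hy : 0 ≤ y) (hz : 0 ≤ z) (hxR : x ≤ R) (hyR : y ≤ R)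
    (hzR : z ≤ R) : |(z ^ 2 - x ^ 2 - y ^ 2) ^ 2 - 4 * x ^ 2 * y ^ 2| ≤ 12 * R ^ 3 * |x + y - z| := by
  have hR : 0 ≤ R := hx.trans hxR
  rw [B08_q, abs_neg, abs_mul, abs_mul, abs_mul]
  have h1 : |x + y + z| ≤ 3 * R := by
    rw [abs_of_nonneg (by positivity)]
    linarith
  have h2 : |x - y + z| ≤ 2 * R := by
    rw [abs_le]
    constructor <;> linarith
  have h3 : |-x + y + z| ≤ 2 * R := by
    rw [abs_le]
    constructor <;> linarith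
  calc |x + y + z| * |x + y - z| * |x - y + z| * |-x + y + z|
      ≤ (3 * R) * |x + y - z| * (2 * R) * (2 * R) := by gcongr
    _ = 12 * R ^ 3 * |x + y - z| := by ring

/-- both positive -/
private theorem B08_pos_aux {x y z κ : ℝ} (hx : 0 < x) (hy : 0 < y) (hz : 0 < z) (hxy : x ≤ y) (hyκ : y ^ 2 ≤ κ)
    (hzκ : z ^ 2 ≤ κ) (h1 : 0 < x + y - z) (h3 : 0 < x ^ 3 + y ^ 3 - z ^ 3) :
    x ^ 3 + y ^ 3 - z ^ 3 ≤ 3 * κ * (x + y - z) := by
  have hxκ : x ^ 2 ≤ κ := le_trans (by gcongr) hyκ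
  rcases le_total z y with h | h
  · have e : x ^ 3 + y ^ 3 - z ^ 3 = (y - z) * (y ^ 2 + y * z + z ^ 2) + x ^ 2 * x := by ring
    rw [e]
    have h2 : y * z ≤ κ := by nlinarith [sq_nonneg (y - z)]
    have h4 : (y - z) * (y ^ 2 + y * z + z ^ 2) ≤ (y - z) * (3 * κ) :=
      mul_le_mul_of_nonneg_left (by linarith) (by linarith)
    have h5 : x ^ 2 * x ≤ κ * x := mul_le_mul_of_nonneg_right hxκ hx.le
    have h6 : 0 ≤ κ * x := by nlinarith [sq_nonneg x]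
    nlinarith
  · -- z >= y >= x
    have h2 : x ^ 3 + y ^ 3 - z ^ 3 ≤ x ^ 3 := by
      have : y ^ 3 ≤ z ^ 3 := by gcongr
      linarith
    have h4 : z ≤ y + x / 3 := by
      by_contra hcon
      rw [not_le] at hcon
      have h5 : (y + x / 3) ^ 3 < z ^ 3 := by gcongr
      have h6 : x ^ 3 + y ^ 3 ≤ (y + x / 3) ^ 3 := by
        have e : (y + x / 3) ^ 3 = y ^ 3 + y ^ 2 * x + y * x ^ 2 / 3 + x ^ 3 / 27 := by ring
        rw [e]
        have h7 : x ^ 3 ≤ y ^ 2 * x := by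
          have : x ^ 2 ≤ y ^ 2 := by gcongr
          nlinarith
        have h8 : 0 ≤ y * x ^ 2 / 3 + x ^ 3 / 27 := by positivity
        linarith
      linarith
    have h5 : x ^ 3 ≤ κ * x := by nlinarith
    have h6 : 2 / 3 * x ≤ x + y - z := by linarith
    have hκ : 0 ≤ κ := (sq_nonneg x).trans hxκ
    have h7 : 3 * κ * (2 / 3 * x) ≤ 3 * κ * (x + y - z) := by gcongr
    have h8 : 0 ≤ κ * x := by positivity
    linarith

private theorem B08_pos {x y z κ : ℝ} (hx : 0 < x) (hy : 0 < y) (hz : 0 < z) (hxκ : x ^ 2 ≤ κ) (hyκ : y ^ 2 ≤ κ)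
    (hzκ : z ^ 2 ≤ κ) (h1 : 0 < x + y - z) (h3 : 0 < x ^ 3 + y ^ 3 - z ^ 3) :
    x ^ 3 + y ^ 3 - z ^ 3 ≤ 3 * κ * (x + y - z) := by
  rcases le_total x y with h | h
  · exact B08_pos_aux hx hy hz h hyκ hzκ h1 h3
  · have := B08_pos_aux hy hx hz h hxκ hzκ (by linarith) (by linarith)
    linarith

/-- the polynomial q for z > x + y -/
private theorem B08_qd {x y z d : ℝ} (hz : z = x + y + d) : (z ^ 2 - x ^ 2 - y ^ 2) ^ 2 - 4 * x ^ 2 * y ^ 2 =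
    d * (2 * (x + y) + d) * (2 * y + d) * (2 * x + d) := by
  rw [hz]
  ring

private theorem B08_r3 {x y z d : ℝ} (hz : z = x + y + d) : z ^ 3 - x ^ 3 - y ^ 3 =
    d * (z ^ 2 + z * (x + y) + (x + y) ^ 2) + 3 * (x * y * (x + y)) := by
  rw [hz]
  ring

/-- t0 <= 4 r for z <= 2 (x + y) -/
private theorem B08_n2 {x y z d : ℝ} (hx : 0 < x) (hy : 0 < y) (hd : 0 < d) (hz : z = x + y + d)
    (h2 : z ≤ 2 * (x + y)) :
    2 * Real.pi * (x ^ 2 * y ^ 2 * z ^ 2) / (d * (2 * (x + y) + d) * (2 * y + d) * (2 * x + d)) ≤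
      4 * (Real.pi / 12 * (z ^ 3 - x ^ 3 - y ^ 3) / d) := by
  have hpi := Real.pi_pos
  have h3 : 3 * (x * y * (x + y)) ≤ z ^ 3 - x ^ 3 - y ^ 3 := by
    rw [B08_r3 hz]
    have hz0 : 0 < z := by linarith
    have : 0 ≤ d * (z ^ 2 + z * (x + y) + (x + y) ^ 2) := by positivity
    linarith
  have h4 : 4 * (Real.pi / 12 * (3 * (x * y * (x + y))) / d) ≤ 4 * (Real.pi / 12 * (z ^ 3 - x ^ 3 - y ^ 3) / d) := by
    gcongr
  refine le_trans ?_ h4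
  have hz0 : 0 < z := by linarith
  have h5 : d * (2 * (x + y)) * (2 * y) * (2 * x) ≤ d * (2 * (x + y) + d) * (2 * y + d) * (2 * x + d) := by
    gcongr <;> linarith
  calc 2 * Real.pi * (x ^ 2 * y ^ 2 * z ^ 2) / (d * (2 * (x + y) + d) * (2 * y + d) * (2 * x + d))
      ≤ 2 * Real.pi * (x ^ 2 * y ^ 2 * (2 * (x + y)) ^ 2) / (d * (2 * (x + y)) * (2 * y) * (2 * x)) := by
        gcongr
    _ = 4 * (Real.pi / 12 * (3 * (x * y * (x + y))) / d) := by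
        field_simp
        ring

/-- t0 is small for z > 2 (x + y) -/
private theorem B08_n3 {x y z d κ : ℝ} (hx : 0 < x) (hy : 0 < y) (hd : 0 < d) (hz : z = x + y + d)
    (h2 : 2 * (x + y) < z) (hxκ : x ^ 2 ≤ κ) (hyκ : y ^ 2 ≤ κ) :
    2 * Real.pi * (x ^ 2 * y ^ 2 * z ^ 2) / (d * (2 * (x + y) + d) * (2 * y + d) * (2 * x + d)) ≤ 7 * κ := by
  have hpi := Real.pi_pos
  have hpi4 : Real.pi ≤ 3.15 := Real.pi_lt_d2.le
  have hds : x + y < d := by linarith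
  have hz0 : 0 < z := by linarith
  have h5 : d * d * d * d ≤ d * (2 * (x + y) + d) * (2 * y + d) * (2 * x + d) := by
    gcongr <;> linarith
  have h6 : z ≤ 2 * d := by linarith
  have h7 : 4 * (x * y) ≤ d ^ 2 := by nlinarith [sq_nonneg (x - y)]
  have h8 : x * y ≤ κ := by nlinarith [sq_nonneg (x - y)]
  have hxy : 0 < x * y := by positivity
  have hκ : 0 ≤ κ := (sq_nonneg x).trans hxκ
  calc 2 * Real.pi * (x ^ 2 * y ^ 2 * z ^ 2) / (d * (2 * (x + y) + d) * (2 * y + d) * (2 * x + d))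
      ≤ 2 * Real.pi * (x ^ 2 * y ^ 2 * (2 * d) ^ 2) / (d * d * d * d) := by gcongr
    _ = 2 * Real.pi * (x * y) * (4 * (x * y) / d ^ 2) := by
        field_simp
        ring
    _ ≤ 2 * Real.pi * κ * 1 := by
        have h9 : 4 * (x * y) / d ^ 2 ≤ 1 := by
          rw [div_le_one (by positivity)]
          exact h7
        gcongr
    _ ≤ 7 * κ := by nlinarith

/-- r <= 2 kappa + 6 t0 -/
private theorem B08_n4 {x y z d κ : ℝ} (hx : 0 < x) (hy : 0 < y) (hd : 0 < d) (hz : z = x + y + d)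
    (hzκ : z ^ 2 ≤ κ) (hxy : x ≤ y) :
    Real.pi / 12 * (z ^ 3 - x ^ 3 - y ^ 3) / d ≤ 2 * κ +
      6 * (2 * Real.pi * (x ^ 2 * y ^ 2 * z ^ 2) / (d * (2 * (x + y) + d) * (2 * y + d) * (2 * x + d))) := by
  have hpi := Real.pi_pos
  have hpi4 : Real.pi ≤ 3.15 := Real.pi_lt_d2.le
  have hz0 : 0 < z := by linarith
  have hsz : x + y ≤ z := by linarith
  have e1 : Real.pi / 12 * (z ^ 3 - x ^ 3 - y ^ 3) / d =
      Real.pi / 12 * (z ^ 2 + z * (x + y) + (x + y) ^ 2) + Real.pi / 4 * (x * y * (x + y) / d) := by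
    rw [B08_r3 hz]
    field_simp
    ring
  have h1 : z ^ 2 + z * (x + y) + (x + y) ^ 2 ≤ 3 * κ := by nlinarith
  have hκ : 0 ≤ κ := (sq_nonneg z).trans hzκ
  have h2 : Real.pi / 12 * (z ^ 2 + z * (x + y) + (x + y) ^ 2) ≤ κ := by
    calc Real.pi / 12 * (z ^ 2 + z * (x + y) + (x + y) ^ 2) ≤ 3.15 / 12 * (3 * κ) := by gcongr
      _ ≤ κ := by nlinarith
  rw [e1]
  rcases le_total d (2 * x) with h | h
  · -- t0 >= (pi/24) x y s / d
    have h3 : d * (2 * (x + y) + d) * (2 * y + d) * (2 * x + d) ≤ d * (3 * (x + y)) * (4 * y) * (4 * x) := by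
      gcongr <;> linarith
    have h4 : x * y * (x + y) / d ≤ 24 / Real.pi *
        (2 * Real.pi * (x ^ 2 * y ^ 2 * z ^ 2) / (d * (2 * (x + y) + d) * (2 * y + d) * (2 * x + d))) := by
      calc x * y * (x + y) / d = 24 / Real.pi * (2 * Real.pi * (x ^ 2 * y ^ 2 * (x + y) ^ 2) /
            (d * (3 * (x + y)) * (4 * y) * (4 * x))) := by
            field_simp
            ring
        _ ≤ _ := by gcongr
    have h5 : Real.pi / 4 * (x * y * (x + y) / d) ≤ 6 *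
        (2 * Real.pi * (x ^ 2 * y ^ 2 * z ^ 2) / (d * (2 * (x + y) + d) * (2 * y + d) * (2 * x + d))) := by
      calc Real.pi / 4 * (x * y * (x + y) / d) ≤ Real.pi / 4 * (24 / Real.pi *
        (2 * Real.pi * (x ^ 2 * y ^ 2 * z ^ 2) / (d * (2 * (x + y) + d) * (2 * y + d) * (2 * x + d)))) := by gcongr
        _ = _ := by
          field_simp
          norm_num
    linarith
  · have h3 : x * y * (x + y) / d ≤ κ := by
      rw [div_le_iff₀ hd]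
      have h4 : y * (x + y) ≤ κ := by nlinarith
      have h5 : x ≤ d := by linarith
      calc x * y * (x + y) = (y * (x + y)) * x := by ring
        _ ≤ κ * d := by gcongr
    have h4 : Real.pi / 4 * (x * y * (x + y) / d) ≤ κ := by
      calc Real.pi / 4 * (x * y * (x + y) / d) ≤ 3.15 / 4 * κ := by gcongr
        _ ≤ κ := by nlinarith
    have h5 : 0 ≤ 6 * (2 * Real.pi * (x ^ 2 * y ^ 2 * z ^ 2) / (d * (2 * (x + y) + d) * (2 * y + d) * (2 * x + d))) := by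
      positivity
    linarith

/-! ### the exponential factor -/

private theorem B08_cpow_norm (z : ℂ) : ‖z ^ (1 / 2 : ℂ)‖ = √‖z‖ := by
  have h : (1 / 2 : ℂ) = ((1 / 2 : ℝ) : ℂ) := by push_cast; ring
  rw [h, norm_cpow_real, Real.sqrt_eq_rpow]

private theorem B08_ga {G : ℝ} (hG : 0 ≤ G) (k : ℕ × ℕ × ℕ) : 0 ≤ ga G k := by
  unfold ga
  positivity

/-- a and b in scaled form -/
private theorem B08_scale {T G σ : ℝ} (hT : 0 < T) (k : ℕ × ℕ × ℕ) :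
    (((1 / Real.sqrt T : ℝ) : ℂ) - I * (e1 σ k : ℝ) = ((1 : ℂ) + I * ((-(√T * e1 σ k) : ℝ) : ℂ)) / ((√T : ℝ) : ℂ)) ∧
    (((Real.sqrt T + ga G k : ℝ) : ℂ) - I * (e3 σ k : ℝ) =
      ((√T : ℝ) : ℂ) * ((((1 + ga G k / √T : ℝ)) : ℂ) + I * ((-(e3 σ k / √T) : ℝ) : ℂ))) := by
  have h0 : 0 < √T := Real.sqrt_pos.2 hT
  have h1 : ((√T : ℝ) : ℂ) ≠ 0 := by exact_mod_cast h0.ne'
  constructor
  · push_cast
    field_simp
    ring
  · push_cast
    field_simp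
    ring

private theorem B08_norm {T G σ : ℝ} (hT : 0 < T) (hG : 0 ≤ G) (k : ℕ × ℕ × ℕ) {m : ℝ}
    (hm : m ≤ (((1 : ℂ) + I * ((-(√T * e1 σ k) : ℝ) : ℂ)) ^ (1 / 2 : ℂ) *
      ((((1 + ga G k / √T : ℝ)) : ℂ) + I * ((-(e3 σ k / √T) : ℝ) : ℂ)) ^ (1 / 2 : ℂ)).re) :
    ‖E3 T G σ k‖ ≤ 2 * T ^ (1 / 4 : ℝ) * Real.exp (-(2 * m)) := by
  have h0 : 0 < √T := Real.sqrt_pos.2 hT
  obtain ⟨ea, eb⟩ := B08_scale (G := G) (σ := σ) hT k
  have hga := B08_ga hG k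
  have hg : 0 ≤ ga G k / √T := by positivity
  unfold E3
  simp only
  rw [norm_mul, norm_div, B08_cpow_norm, norm_exp]
  have hπ : ‖((√Real.pi : ℝ) : ℂ)‖ ≤ 2 := by
    rw [norm_real, Real.norm_eq_abs, abs_of_nonneg (Real.sqrt_nonneg _)]
    rw [Real.sqrt_le_left (by norm_num)]
    have := Real.pi_lt_d2
    linarith
  have h1 : 1 / √(‖((1 / Real.sqrt T : ℝ) : ℂ) - I * (e1 σ k : ℝ)‖) ≤ T ^ (1 / 4 : ℝ) := by
    have h2 : 1 / √T ≤ ‖((1 / Real.sqrt T : ℝ) : ℂ) - I * (e1 σ k : ℝ)‖ := by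
      refine le_trans ?_ (le_trans (le_abs_self _) (abs_re_le_norm _))
      simp
    have h3 : √(1 / √T) ≤ √(‖((1 / Real.sqrt T : ℝ) : ℂ) - I * (e1 σ k : ℝ)‖) := Real.sqrt_le_sqrt h2
    have h4 : 0 < √(1 / √T) := Real.sqrt_pos.2 (by positivity)
    have h5 : T ^ (1 / 4 : ℝ) = √(√T) := by
      rw [Real.sqrt_eq_rpow, Real.sqrt_eq_rpow, ← Real.rpow_mul hT.le]
      norm_num
    have h6 : 1 / √(1 / √T) = √(√T) := by
      rw [Real.sqrt_div (by norm_num), Real.sqrt_one]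
      field_simp
    rw [h5, ← h6]
    exact one_div_le_one_div_of_le h4 h3
  have h2 : (-(2 * ((((1 / Real.sqrt T : ℝ) : ℂ) - I * (e1 σ k : ℝ)) ^ (1 / 2 : ℂ) *
      (((Real.sqrt T + ga G k : ℝ) : ℂ) - I * (e3 σ k : ℝ)) ^ (1 / 2 : ℂ)))).re ≤ -(2 * m) := by
    rw [ea, eb, cpow_half_scale h0 (by simp) (by simp; linarith)]
    rw [neg_re]
    have h3 : ∀ w : ℂ, (2 * w).re = 2 * w.re := fun w => by simp
    rw [h3]
    linarith
  have h3 : ‖((√Real.pi : ℝ) : ℂ)‖ / √(‖((1 / Real.sqrt T : ℝ) : ℂ) - I * (e1 σ k : ℝ)‖) ≤ 2 * T ^ (1 / 4 : ℝ) := by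
    rw [div_eq_mul_one_div]
    exact mul_le_mul hπ h1 (by positivity) (by norm_num)
  exact mul_le_mul h3 (Real.exp_le_exp.2 h2) (Real.exp_pos _).le (by positivity)

theorem E3_le {T G σ : ℝ} (hT : 0 < T) (hG : 0 ≤ G) (k : ℕ × ℕ × ℕ) : ‖E3 T G σ k‖ ≤ 2 * T ^ (1 / 4 : ℝ) := by
  have hga := B08_ga hG k
  have h := B08_norm (σ := σ) hT hG k (m := 0) (by
    have h1 := re_sqrt_mul (u := -(√T * e1 σ k)) (v := -(e3 σ k / √T)) (g := 1 + ga G k / √T)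
      (by have : 0 ≤ ga G k / √T := by positivity
          linarith)
    refine le_trans ?_ h1
    positivity)
  simpa using h

/-- large ratio -/
private theorem B08_ratio {T G σ M : ℝ} (hT : 0 < T) (hG : 0 ≤ G) (k : ℕ × ℕ × ℕ) (hM : 0 ≤ M)
    (h : M ≤ √(√(1 + (√T * e1 σ k) ^ 2) / √((1 + ga G k / √T) ^ 2 + (e3 σ k / √T) ^ 2)) ∨
      M ≤ √(√((1 + ga G k / √T) ^ 2 + (e3 σ k / √T) ^ 2) / √(1 + (√T * e1 σ k) ^ 2))) :
    ‖E3 T G σ k‖ ≤ 2 * T ^ (1 / 4 : ℝ) * Real.exp (-(M / 2)) := by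
  have hga := B08_ga hG k
  have h1 := re_sqrt_mul (u := -(√T * e1 σ k)) (v := -(e3 σ k / √T)) (g := 1 + ga G k / √T)
      (by have : 0 ≤ ga G k / √T := by positivity
          linarith)
  rw [neg_sq, neg_sq] at h1
  have h2 := B08_norm (σ := σ) hT hG k (m := M / 4) (by
    refine le_trans ?_ h1
    have h3 := Real.sqrt_nonneg (√(1 + (√T * e1 σ k) ^ 2) / √((1 + ga G k / √T) ^ 2 + (e3 σ k / √T) ^ 2))
    have h4 := Real.sqrt_nonneg (√((1 + ga G k / √T) ^ 2 + (e3 σ k / √T) ^ 2) / √(1 + (√T * e1 σ k) ^ 2))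
    rcases h with h | h <;> linarith)
  have e : -(2 * (M / 4)) = -(M / 2) := by ring
  rwa [e] at h2

/-- opposite signs -/
private theorem B08_opp {T G σ M : ℝ} (hT : 0 < T) (hG : 0 ≤ G) (k : ℕ × ℕ × ℕ) (hs : e1 σ k * e3 σ k ≤ 0)
    (hM : 0 ≤ M) (h : M ^ 2 ≤ √T * |e1 σ k|) :
    ‖E3 T G σ k‖ ≤ 2 * T ^ (1 / 4 : ℝ) * Real.exp (-(M / 2)) := by
  have hga := B08_ga hG k
  have h0 : 0 < √T := Real.sqrt_pos.2 hT
  have hg : 0 ≤ ga G k / √T := by positivity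
  have h1 := re_sqrt_mul_opp (u := -(√T * e1 σ k)) (v := -(e3 σ k / √T)) (g := 1 + ga G k / √T)
      (by linarith) (by
        have e : -(√T * e1 σ k) * -(e3 σ k / √T) = e1 σ k * e3 σ k := by field_simp
        rw [e]
        exact hs)
  rw [neg_sq, neg_sq] at h1
  have h3 : M ≤ √(√(1 + (√T * e1 σ k) ^ 2) * √((1 + ga G k / √T) ^ 2 + (e3 σ k / √T) ^ 2)) := by
    apply Real.le_sqrt_of_sq_le
    have h4 : √T * |e1 σ k| ≤ √(1 + (√T * e1 σ k) ^ 2) := by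
      apply Real.le_sqrt_of_sq_le
      rw [mul_pow, mul_pow, sq_abs]
      linarith
    have h5 : 1 ≤ √((1 + ga G k / √T) ^ 2 + (e3 σ k / √T) ^ 2) := by
      apply Real.le_sqrt_of_sq_le
      nlinarith [sq_nonneg (e3 σ k / √T)]
    calc M ^ 2 ≤ √T * |e1 σ k| := h
      _ ≤ √(1 + (√T * e1 σ k) ^ 2) := h4
      _ = √(1 + (√T * e1 σ k) ^ 2) * 1 := (mul_one _).symm
      _ ≤ _ := by gcongr
  have h2 := B08_norm (σ := σ) hT hG k (m := M / 4) (by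
    refine le_trans ?_ h1
    linarith)
  have e : -(2 * (M / 4)) = -(M / 2) := by ring
  rwa [e] at h2

/-- comparison of the two moduli: A large -/
private theorem B08_A {u v g M : ℝ} (hM : 0 < M) (hg : 0 < g) (h1 : 2 * (g * M ^ 2) ≤ |u|) (h2 : 2 * (|v| * M ^ 2) ≤ |u|) :
    M ≤ √(√(1 + u ^ 2) / √(g ^ 2 + v ^ 2)) := by
  apply Real.le_sqrt_of_sq_le
  have h3 : √(g ^ 2 + v ^ 2) ≤ g + |v| := by
    apply Real.sqrt_le_iff.2
    refine ⟨by positivity, ?_⟩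
    have : (g + |v|) ^ 2 = g ^ 2 + v ^ 2 + 2 * g * |v| := by
      rw [add_sq, sq_abs]
      ring
    rw [this]
    have : 0 ≤ 2 * g * |v| := by positivity
    linarith
  have h4 : |u| ≤ √(1 + u ^ 2) := by
    apply Real.le_sqrt_of_sq_le
    rw [sq_abs]
    linarith
  have h5 : 0 < √(g ^ 2 + v ^ 2) := Real.sqrt_pos.2 (by positivity)
  rw [le_div_iff₀ h5]
  have h6 : M ^ 2 * √(g ^ 2 + v ^ 2) ≤ M ^ 2 * (g + |v|) := by gcongr
  nlinarith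

/-- comparison of the two moduli: B large -/
private theorem B08_B {u v g M : ℝ} (hM : 0 < M) (hu : 1 ≤ |u|) (h2 : 2 * (|u| * M ^ 2) ≤ |v|) :
    M ≤ √(√(g ^ 2 + v ^ 2) / √(1 + u ^ 2)) := by
  apply Real.le_sqrt_of_sq_le
  have h3 : √(1 + u ^ 2) ≤ 2 * |u| := by
    apply Real.sqrt_le_iff.2
    refine ⟨by positivity, ?_⟩
    rw [mul_pow, sq_abs]
    have : 1 ≤ u ^ 2 := by
      rw [← sq_abs]
      nlinarith
    linarith
  have h4 : |v| ≤ √(g ^ 2 + v ^ 2) := by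
    apply Real.le_sqrt_of_sq_le
    rw [sq_abs]
    nlinarith [sq_nonneg g]
  have h5 : 0 < √(1 + u ^ 2) := Real.sqrt_pos.2 (by positivity)
  rw [le_div_iff₀ h5]
  have h6 : M ^ 2 * √(1 + u ^ 2) ≤ M ^ 2 * (2 * |u|) := by gcongr
  nlinarith

/-! ### large T -/

private theorem B08_ev (C : ℝ) {a b : ℝ} (hab : a < b) : ∀ᶠ T : ℝ in atTop, C * T ^ a ≤ T ^ b := by
  have h1 := (tendsto_rpow_atTop (sub_pos.2 hab)).eventually_ge_atTop C
  filter_upwards [h1, eventually_gt_atTop 0] with T h2 h3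
  have h4 : T ^ b = T ^ (b - a) * T ^ a := by
    rw [← Real.rpow_add h3]
    congr 1
    ring
  rw [h4]
  exact mul_le_mul_of_nonneg_right h2 (Real.rpow_nonneg h3.le _)

private theorem B08_fin {ε : ℝ} (hε : 0 < ε) :
    ∀ᶠ T : ℝ in atTop, 2 * T ^ (1 / 4 : ℝ) * Real.exp (-(T ^ (2 * ε) / 2)) ≤ Real.exp (-(T ^ ε)) := by
  have h1 := B08_ev 8 (show ε < 2 * ε by linarith)
  have h2 := (tendsto_rpow_atTop (show 0 < 2 * ε by linarith)).eventually_ge_atTop (8 * Real.log 2)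
  have h3 : ∀ᶠ T : ℝ in atTop, Real.log T ≤ T ^ (2 * ε) / 1 := by
    have h4 := (isLittleO_log_rpow_atTop (show 0 < 2 * ε by linarith)).bound (c := 1) one_pos
    filter_upwards [h4, eventually_ge_atTop 1] with T h5 h6
    rw [Real.norm_eq_abs, Real.norm_eq_abs, one_mul, abs_of_nonneg (Real.log_nonneg h6),
      abs_of_nonneg (Real.rpow_nonneg (by linarith) _)] at h5
    rwa [div_one]
  have h4 := B08_ev 1 (show ε < 2 * ε by linarith)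
  filter_upwards [h1, h2, h3, eventually_ge_atTop 1] with T h1 h2 h3 h5
  have hT : 0 < T := by linarith
  have e1 : 2 * T ^ (1 / 4 : ℝ) = Real.exp (Real.log 2 + 1 / 4 * Real.log T) := by
    rw [Real.exp_add, Real.exp_log (by norm_num), Real.rpow_def_of_pos hT]
    ring_nf
  rw [e1, ← Real.exp_add]
  apply Real.exp_le_exp.2
  rw [div_one] at h3
  have h6 : 0 ≤ T ^ (2 * ε) := Real.rpow_nonneg hT.le _
  linarith

private theorem B08_n4' {x y z d κ : ℝ} (hx : 0 < x) (hy : 0 < y) (hd : 0 < d) (hz : z = x + y + d)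
    (hzκ : z ^ 2 ≤ κ) :
    Real.pi / 12 * (z ^ 3 - x ^ 3 - y ^ 3) / d ≤ 2 * κ +
      6 * (2 * Real.pi * (x ^ 2 * y ^ 2 * z ^ 2) / (d * (2 * (x + y) + d) * (2 * y + d) * (2 * x + d))) := by
  rcases le_total x y with h | h
  · exact B08_n4 hx hy hd hz hzκ h
  · have h1 := B08_n4 hy hx hd (by linarith) hzκ h
    have e1 : z ^ 3 - y ^ 3 - x ^ 3 = z ^ 3 - x ^ 3 - y ^ 3 := by ring
    have e2 : y ^ 2 * x ^ 2 * z ^ 2 = x ^ 2 * y ^ 2 * z ^ 2 := by ring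
    have e3 : d * (2 * (y + x) + d) * (2 * x + d) * (2 * y + d) = d * (2 * (x + y) + d) * (2 * y + d) * (2 * x + d) := by
      ring
    rwa [e1, e2, e3] at h1

private theorem B08_c : 5 ≤ 2 * √(2 * Real.pi) ∧ 2 * √(2 * Real.pi) ≤ 6 := by
  have h1 := Real.pi_gt_d2
  have h2 := Real.pi_lt_d2
  constructor
  · have h3 : 2.5 ≤ √(2 * Real.pi) := Real.le_sqrt_of_sq_le (by norm_num; linarith)
    linarith
  · have h3 : √(2 * Real.pi) ≤ 3 := by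
      rw [Real.sqrt_le_left (by norm_num)]
      linarith
    linarith

private theorem B08_const : √2 / 6 * (Real.pi * √Real.pi) = Real.pi / 12 * (2 * √(2 * Real.pi)) := by
  rw [Real.sqrt_mul (by norm_num)]
  ring

private theorem B08_e3 (σ : ℝ) (k : ℕ × ℕ × ℕ) : e3 σ k = Real.pi / 12 * (2 * √(2 * Real.pi)) *
    (√(k.1 : ℝ) ^ 3 + √(k.2.1 : ℝ) ^ 3 + σ * √(k.2.2 : ℝ) ^ 3) := by
  unfold e3
  rw [B08_const]
  have h : ∀ n : ℕ, (n : ℝ) * √(n : ℝ) = √(n : ℝ) ^ 3 := by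
    intro n
    have h1 : √(n : ℝ) ^ 2 = n := Real.sq_sqrt (Nat.cast_nonneg n)
    calc (n : ℝ) * √(n : ℝ) = √(n : ℝ) ^ 2 * √(n : ℝ) := by rw [h1]
      _ = _ := by ring
  rw [h, h, h]

private theorem B08_coord {η ε T : ℝ} (hT : 1 ≤ T) {n : ℕ} (hn : n ∈ Finset.Ico 1 (KK η ε T)) :
    1 ≤ √(n : ℝ) ∧ √(n : ℝ) ≤ T ^ (1 / 4 + η + 2 * ε) := by
  rw [Finset.mem_Ico] at hn
  have hT0 : 0 < T := by linarith
  constructor
  · rw [Real.one_le_sqrt]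
    exact_mod_cast hn.1
  · have h1 : (n : ℝ) < T ^ (1 / 2 + 2 * η + 4 * ε) := by
      have := hn.2
      unfold KK at this
      exact Nat.lt_ceil.1 this
    rw [Real.sqrt_le_left (Real.rpow_nonneg hT0.le _)]
    refine h1.le.trans (le_of_eq ?_)
    rw [← Real.rpow_natCast, ← Real.rpow_mul hT0.le]
    congr 1
    push_cast
    ring

private theorem B08_box {η ε T : ℝ} {k : ℕ × ℕ × ℕ} (hk : k ∈ box (KK η ε T)) :
    k.1 ∈ Finset.Ico 1 (KK η ε T) ∧ k.2.1 ∈ Finset.Ico 1 (KK η ε T) ∧ k.2.2 ∈ Finset.Ico 1 (KK η ε T) := by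
  unfold box at hk
  rw [Finset.mem_product, Finset.mem_product] at hk
  exact hk

/-- g <= 10 T^(2 eps) -/
private theorem B08_g {η ε T : ℝ} (hε : 0 < ε) (hT : 1 ≤ T) {k : ℕ × ℕ × ℕ} (hk : k ∈ box (KK η ε T)) :
    1 + ga (GG η T) k / √T ≤ 10 * T ^ (2 * ε) := by
  have hT0 : 0 < T := by linarith
  obtain ⟨h1, h2, h3⟩ := B08_box hk
  have b1 := (B08_coord hT h1).2
  have b2 := (B08_coord hT h2).2
  have b3 := (B08_coord hT h3).2
  have hc := B08_c.2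
  have h4 : ga (GG η T) k ≤ 9 * (T ^ (1 / 4 - η) * T ^ (1 / 4 + η + 2 * ε)) := by
    unfold ga GG
    have h5 : √(2 * Real.pi) ≤ 3 := by linarith
    have h6 : √(k.1 : ℝ) + √(k.2.1 : ℝ) + √(k.2.2 : ℝ) ≤ 3 * T ^ (1 / 4 + η + 2 * ε) := by linarith
    calc T ^ (1 / 4 - η) * √(2 * Real.pi) * (√(k.1 : ℝ) + √(k.2.1 : ℝ) + √(k.2.2 : ℝ))
        ≤ T ^ (1 / 4 - η) * 3 * (3 * T ^ (1 / 4 + η + 2 * ε)) := by gcongr
      _ = _ := by ring
  have e1 : T ^ (1 / 4 - η) * T ^ (1 / 4 + η + 2 * ε) = √T * T ^ (2 * ε) := by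
    rw [Real.sqrt_eq_rpow, ← Real.rpow_add hT0, ← Real.rpow_add hT0]
    congr 1
    ring
  rw [e1] at h4
  have h0 : 0 < √T := Real.sqrt_pos.2 hT0
  have h5 : ga (GG η T) k / √T ≤ 9 * T ^ (2 * ε) := by
    rw [div_le_iff₀ h0]
    linarith
  have h6 : 1 ≤ T ^ (2 * ε) := Real.one_le_rpow hT (by linarith)
  linarith

private theorem B08_GG {η T : ℝ} (hT : 0 < T) : 0 ≤ GG η T := by
  unfold GG
  exact Real.rpow_nonneg hT.le _

private theorem B08_sq {ε T : ℝ} (hT : 0 < T) : (T ^ (2 * ε)) ^ 2 = T ^ (4 * ε) := by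
  rw [← Real.rpow_natCast, ← Real.rpow_mul hT.le]
  congr 1
  push_cast
  ring

theorem E3_pos (η ε : ℝ) (hη : 0 < η) (hη1 : η ≤ 1 / 80) (hε : 0 < ε) (hε1 : ε ≤ η / 100) :
    ∃ T₀ : ℝ, ∀ T : ℝ, T₀ ≤ T → ∀ k ∈ box (KK η ε T), ‖E3 T (GG η T) 1 k‖ ≤ Real.exp (-(T ^ ε)) := by
  have v1 := B08_ev 2 (show 6 * ε < 1 / 2 by linarith)
  have v2 := B08_ev 1 (show 3 / 4 + 3 * η + 10 * ε < 1 by linarith)
  obtain ⟨T₀, hT₀⟩ := eventually_atTop.1 ((B08_fin hε).and (v1.and (v2.and (eventually_ge_atTop 1))))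
  refine ⟨T₀, fun T hT k hk => ?_⟩
  obtain ⟨hf, v1, v2, hT1⟩ := hT₀ T hT
  have hT0 : 0 < T := by linarith
  have h0 : 0 < √T := Real.sqrt_pos.2 hT0
  obtain ⟨m1, m2, m3⟩ := B08_box hk
  obtain ⟨a1, b1⟩ := B08_coord hT1 m1
  obtain ⟨a2, b2⟩ := B08_coord hT1 m2
  obtain ⟨a3, b3⟩ := B08_coord hT1 m3
  have hg := B08_g hε hT1 hk
  have hga := B08_ga (B08_GG (η := η) hT0) k
  have hgp : 0 ≤ ga (GG η T) k / √T := by positivity
  obtain ⟨c1, c2⟩ := B08_c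
  have hpi := Real.pi_pos
  have hpi4 := Real.pi_lt_d2
  set x := √(k.1 : ℝ) with hx
  set y := √(k.2.1 : ℝ) with hy
  set z := √(k.2.2 : ℝ) with hz
  set R := T ^ (1 / 4 + η + 2 * ε) with hR
  have hR0 : 0 < R := Real.rpow_pos_of_pos hT0 _
  have he1 : e1 1 k = 2 * √(2 * Real.pi) * (x + y + z) := by
    unfold e1
    rw [one_mul]
  have he3 : e3 1 k = Real.pi / 12 * (2 * √(2 * Real.pi)) * (x ^ 3 + y ^ 3 + z ^ 3) := by
    rw [B08_e3, one_mul]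
  have hu : 15 * √T ≤ |√T * e1 1 k| := by
    rw [he1, abs_of_nonneg (by positivity)]
    have : 5 * 3 ≤ 2 * √(2 * Real.pi) * (x + y + z) := by
      have h3 : 3 ≤ x + y + z := by linarith
      gcongr
    nlinarith
  have hv : |e3 1 k / √T| ≤ 5 * R ^ 3 / √T := by
    rw [he3, abs_of_nonneg (by positivity)]
    apply div_le_div_of_nonneg_right _ h0.le
    have h3 : x ^ 3 + y ^ 3 + z ^ 3 ≤ 3 * R ^ 3 := by
      have g1 : x ^ 3 ≤ R ^ 3 := by gcongr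
      have g2 : y ^ 3 ≤ R ^ 3 := by gcongr
      have g3 : z ^ 3 ≤ R ^ 3 := by gcongr
      linarith
    calc Real.pi / 12 * (2 * √(2 * Real.pi)) * (x ^ 3 + y ^ 3 + z ^ 3) ≤ 3.15 / 12 * 6 * (3 * R ^ 3) := by gcongr
      _ ≤ 5 * R ^ 3 := by
        have : 0 < R ^ 3 := by positivity
        nlinarith
  have hM0 : 0 < T ^ (2 * ε) := Real.rpow_pos_of_pos hT0 _
  have hMM := B08_sq (ε := ε) hT0
  have eTT : √T * √T = T := Real.mul_self_sqrt hT0.le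
  have hmain : T ^ (2 * ε) ≤ √(√(1 + (√T * e1 1 k) ^ 2) / √((1 + ga (GG η T) k / √T) ^ 2 + (e3 1 k / √T) ^ 2)) := by
    refine B08_A hM0 (by linarith) ?_ ?_
    · refine le_trans ?_ hu
      have e2 : T ^ (2 * ε) * T ^ (4 * ε) = T ^ (6 * ε) := by
        rw [← Real.rpow_add hT0]
        congr 1
        ring
      rw [hMM]
      rw [← Real.sqrt_eq_rpow] at v1
      have h5 : (1 + ga (GG η T) k / √T) * T ^ (4 * ε) ≤ 10 * T ^ (2 * ε) * T ^ (4 * ε) := by gcongr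
      rw [mul_assoc, e2] at h5
      linarith
    · refine le_trans ?_ hu
      rw [hMM]
      have e3' : R ^ 3 * T ^ (4 * ε) = T ^ (3 / 4 + 3 * η + 10 * ε) := by
        rw [hR, ← Real.rpow_natCast, ← Real.rpow_mul hT0.le, ← Real.rpow_add hT0]
        congr 1
        push_cast
        ring
      rw [← e3', Real.rpow_one, one_mul] at v2
      have h5 : 2 * (5 * R ^ 3 / √T * T ^ (4 * ε)) ≤ 15 * √T := by
        have e4 : 2 * (5 * R ^ 3 / √T * T ^ (4 * ε)) = 10 * (R ^ 3 * T ^ (4 * ε)) / √T := by ring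
        rw [e4, div_le_iff₀ h0, mul_assoc, eTT]
        linarith
      refine le_trans ?_ h5
      gcongr
  exact (B08_ratio hT0 (B08_GG hT0) k hM0.le (Or.inl hmain)).trans hf

/-- the case of both signs negative -/
private theorem B08_both {T κ u v x y z d t ε : ℝ} (hT : 1 ≤ T) (hx : 0 < x) (hy : 0 < y) (hd : 0 < d)
    (hz : z = x + y + d) (hxκ : x ^ 2 ≤ κ) (hyκ : y ^ 2 ≤ κ) (hzκ : z ^ 2 ≤ κ)
    (ht : t = 2 * Real.pi * (x ^ 2 * y ^ 2 * z ^ 2) / (d * (2 * (x + y) + d) * (2 * y + d) * (2 * x + d)))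
    (hv : |v| * T = Real.pi / 12 * (z ^ 3 - x ^ 3 - y ^ 3) / d * |u|) (hu : 1 ≤ |u|)
    (f1 : 7 * κ ≤ T ^ (1 + 20 * ε)) (f2 : 8 * T ^ (4 * ε) ≤ T ^ (20 * ε)) (f3 : 8 * (κ * T ^ (4 * ε)) ≤ T)
    (f4 : 24 * T ^ (1 - 16 * ε) ≤ T)
    (hres : t < T ^ (1 - 20 * ε) ∨ T ^ (1 + 20 * ε) < t) :
    2 * (|v| * T ^ (4 * ε)) ≤ |u| ∨ 2 * (|u| * T ^ (4 * ε)) ≤ |v| := by
  have hT0 : 0 < T := by linarith
  set r := Real.pi / 12 * (z ^ 3 - x ^ 3 - y ^ 3) / d with hr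
  have hM : 0 < T ^ (4 * ε) := Real.rpow_pos_of_pos hT0 _
  rcases hres with h | h
  · left
    have h1 := B08_n4' hx hy hd hz hzκ
    rw [← ht, ← hr] at h1
    have e1 : T ^ (1 - 20 * ε) * T ^ (4 * ε) = T ^ (1 - 16 * ε) := by
      rw [← Real.rpow_add hT0]
      congr 1
      ring
    have h2 : 2 * (r * T ^ (4 * ε)) ≤ T := by
      have h3 : r * T ^ (4 * ε) ≤ (2 * κ + 6 * T ^ (1 - 20 * ε)) * T ^ (4 * ε) := by
        apply mul_le_mul_of_nonneg_right _ hM.le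
        linarith
      have h4 : (2 * κ + 6 * T ^ (1 - 20 * ε)) * T ^ (4 * ε) = 2 * (κ * T ^ (4 * ε)) +
          6 * (T ^ (1 - 20 * ε) * T ^ (4 * ε)) := by ring
      rw [h4, e1] at h3
      linarith
    have h3 : 2 * (|v| * T ^ (4 * ε)) * T ≤ |u| * T := by
      calc 2 * (|v| * T ^ (4 * ε)) * T = 2 * (|v| * T) * T ^ (4 * ε) := by ring
        _ = 2 * (r * |u|) * T ^ (4 * ε) := by rw [hv]
        _ = |u| * (2 * (r * T ^ (4 * ε))) := by ring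
        _ ≤ |u| * T := by gcongr
    exact le_of_mul_le_mul_right h3 hT0
  · right
    rcases le_or_gt z (2 * (x + y)) with h2 | h2
    · have h1 := B08_n2 hx hy hd hz h2
      rw [← ht, ← hr] at h1
      have e1 : T ^ (1 + 20 * ε) = T * T ^ (20 * ε) := by
        rw [Real.rpow_add hT0, Real.rpow_one]
      have h3 : 2 * (|u| * T ^ (4 * ε)) * T ≤ |v| * T := by
        rw [hv]
        have h4 : 2 * T ^ (4 * ε) * T ≤ r := by
          rw [e1] at h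
          have h5 : T * (8 * T ^ (4 * ε)) ≤ T * T ^ (20 * ε) := by gcongr
          linarith
        calc 2 * (|u| * T ^ (4 * ε)) * T = (2 * T ^ (4 * ε) * T) * |u| := by ring
          _ ≤ r * |u| := by gcongr
      exact le_of_mul_le_mul_right h3 hT0
    · have h1 := B08_n3 hx hy hd hz h2 hxκ hyκ
      rw [← ht] at h1
      linarith

private theorem B08_cube {x y z : ℝ} (hx : 0 < x) (hy : 0 < y) (h : x + y < z) : x ^ 3 + y ^ 3 - z ^ 3 < 0 := by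
  have h1 : (x + y) ^ 3 < z ^ 3 := by gcongr
  have h2 : (x + y) ^ 3 = x ^ 3 + y ^ 3 + 3 * (x * y * (x + y)) := by ring
  have h3 : 0 < 3 * (x * y * (x + y)) := by positivity
  linarith

private theorem B08_negv {T X c x y z : ℝ} (hX : 0 < X) (hc : 0 < c) (hXT : X * X = T) (h1 : x + y - z < 0)
    (h3 : x ^ 3 + y ^ 3 - z ^ 3 < 0) :
    |Real.pi / 12 * c * (x ^ 3 + y ^ 3 - z ^ 3) / X| * T =
      Real.pi / 12 * (z ^ 3 - x ^ 3 - y ^ 3) / (z - (x + y)) * |X * (c * (x + y - z))| := by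
  have hpi := Real.pi_pos
  have hcc : 0 < Real.pi / 12 * c := by positivity
  rw [abs_div, abs_mul, abs_mul X, abs_mul c, abs_of_pos hcc, abs_of_pos hX, abs_of_pos hc, abs_of_neg h3,
    abs_of_neg h1, ← hXT]
  have hne : z - (x + y) ≠ 0 := by
    have : 0 < z - (x + y) := by linarith
    exact this.ne'
  have h6 : -(x + y - z) = z - (x + y) := by ring
  have h7 : -(x ^ 3 + y ^ 3 - z ^ 3) = z ^ 3 - x ^ 3 - y ^ 3 := by ring
  rw [h6, h7]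
  field_simp

private theorem B08_posv {T X c x y z κ M : ℝ} (hX : 0 < X) (hc : 0 < c) (hXT : X * X = T) (h1 : 0 < x + y - z)
    (h3 : 0 < x ^ 3 + y ^ 3 - z ^ 3) (h4 : x ^ 3 + y ^ 3 - z ^ 3 ≤ 3 * κ * (x + y - z)) (hM : 0 < M) (hκ : 0 ≤ κ)
    (h5 : 8 * (κ * M) ≤ T) :
    2 * (|Real.pi / 12 * c * (x ^ 3 + y ^ 3 - z ^ 3) / X| * M) ≤ |X * (c * (x + y - z))| := by
  have hpi := Real.pi_pos
  have hpi4 := Real.pi_lt_d2
  have hcc : 0 < Real.pi / 12 * c := by positivity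
  rw [abs_div, abs_mul, abs_mul X, abs_mul c, abs_of_pos hcc, abs_of_pos hX, abs_of_pos hc, abs_of_pos h3,
    abs_of_pos h1]
  have h6 : 2 * (Real.pi / 12 * c * (x ^ 3 + y ^ 3 - z ^ 3) / X * M) * X ≤ X * (c * (x + y - z)) * X := by
    have h7 : X * (c * (x + y - z)) * X = c * ((x + y - z) * T) := by
      rw [← hXT]
      ring
    have h8 : 2 * (Real.pi / 12 * c * (x ^ 3 + y ^ 3 - z ^ 3) / X * M) * X =
        c * (Real.pi / 6 * (x ^ 3 + y ^ 3 - z ^ 3) * M) := by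
      field_simp
      ring
    rw [h7, h8]
    apply mul_le_mul_of_nonneg_left _ hc.le
    calc Real.pi / 6 * (x ^ 3 + y ^ 3 - z ^ 3) * M ≤ 3.15 / 6 * (3 * κ * (x + y - z)) * M := by gcongr
      _ = (x + y - z) * (1.575 * (κ * M)) := by ring
      _ ≤ (x + y - z) * T := by
        apply mul_le_mul_of_nonneg_left _ h1.le
        have : 0 ≤ κ * M := by positivity
        linarith
  exact le_of_mul_le_mul_right h6 hX

private theorem B08_q2 (k : ℕ × ℕ × ℕ) : (q k : ℝ) = (√(k.2.2 : ℝ) ^ 2 - √(k.1 : ℝ) ^ 2 - √(k.2.1 : ℝ) ^ 2) ^ 2 -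
      4 * √(k.1 : ℝ) ^ 2 * √(k.2.1 : ℝ) ^ 2 := by
  rw [Real.sq_sqrt (Nat.cast_nonneg _), Real.sq_sqrt (Nat.cast_nonneg _), Real.sq_sqrt (Nat.cast_nonneg _)]
  unfold q
  push_cast
  ring

private theorem B08_t0 (k : ℕ × ℕ × ℕ) :
    t0 k = 2 * Real.pi * (√(k.1 : ℝ) ^ 2 * √(k.2.1 : ℝ) ^ 2 * √(k.2.2 : ℝ) ^ 2) / (q k : ℝ) := by
  rw [Real.sq_sqrt (Nat.cast_nonneg _), Real.sq_sqrt (Nat.cast_nonneg _), Real.sq_sqrt (Nat.cast_nonneg _)]
  rfl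

private theorem B08_sum {k : ℕ × ℕ × ℕ} (h1 : 0 < √(k.1 : ℝ)) (h2 : 0 < √(k.2.1 : ℝ))
    (h : √(k.1 : ℝ) + √(k.2.1 : ℝ) < √(k.2.2 : ℝ)) : k.1 + k.2.1 < k.2.2 := by
  have h4 : √(k.1 : ℝ) ^ 2 + √(k.2.1 : ℝ) ^ 2 < √(k.2.2 : ℝ) ^ 2 := by
    have h5 : (√(k.1 : ℝ) + √(k.2.1 : ℝ)) ^ 2 < √(k.2.2 : ℝ) ^ 2 := by gcongr
    have h6 : 0 < √(k.1 : ℝ) * √(k.2.1 : ℝ) := mul_pos h1 h2
    have h7 : (√(k.1 : ℝ) + √(k.2.1 : ℝ)) ^ 2 =
        √(k.1 : ℝ) ^ 2 + √(k.2.1 : ℝ) ^ 2 + 2 * (√(k.1 : ℝ) * √(k.2.1 : ℝ)) := by ring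
    linarith
  rw [Real.sq_sqrt (Nat.cast_nonneg _), Real.sq_sqrt (Nat.cast_nonneg _), Real.sq_sqrt (Nat.cast_nonneg _)] at h4
  exact_mod_cast h4

/-- lower bound for |u| -/
private theorem B08_hu {T X c R3 ρ Q : ℝ} (hT : 0 < T) (hX : X = √T) (hc : 5 ≤ c) (hR : 0 < R3)
    (hq : T ^ (3 / 10 : ℝ) < Q) (hqR : Q ≤ 12 * R3 * |ρ|) (h2 : 12 * (T ^ (1 / 1000 : ℝ) * R3) ≤ T ^ (4 / 5 : ℝ)) :
    T ^ (1 / 1000 : ℝ) ≤ |X * (c * ρ)| := by
  have h0 : 0 < X := by rw [hX]; exact Real.sqrt_pos.2 hT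
  rw [abs_mul, abs_mul, abs_of_pos h0, abs_of_pos (by linarith : 0 < c)]
  have h1 : T ^ (3 / 10 : ℝ) ≤ 12 * R3 * |ρ| := hq.le.trans hqR
  have h3 : T ^ (4 / 5 : ℝ) = X * T ^ (3 / 10 : ℝ) := by
    rw [hX, Real.sqrt_eq_rpow, ← Real.rpow_add hT]
    norm_num
  have h4 : T ^ (1 / 1000 : ℝ) * (12 * R3) ≤ (X * (c * |ρ|)) * (12 * R3) := by
    have h5 : X * T ^ (3 / 10 : ℝ) ≤ X * (12 * R3 * |ρ|) := by gcongr
    have h6 : X * (12 * R3 * |ρ|) * 1 ≤ X * (12 * R3 * |ρ|) * c := by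
      apply mul_le_mul_of_nonneg_left (by linarith) (by positivity)
    calc T ^ (1 / 1000 : ℝ) * (12 * R3) = 12 * (T ^ (1 / 1000 : ℝ) * R3) := by ring
      _ ≤ X * (12 * R3 * |ρ|) * c := by linarith
      _ = _ := by ring
  exact le_of_mul_le_mul_right h4 (by positivity)

private theorem B08_gM {T ε g u : ℝ} (hT : 1 ≤ T) (hε : 0 < ε) (hg : g ≤ 10 * T ^ (2 * ε)) (hg1 : 1 ≤ g)
    (v2 : 20 * T ^ (6 * ε) ≤ T ^ (1 / 1000 : ℝ)) (hu : T ^ (1 / 1000 : ℝ) ≤ u) :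
    2 * (g * (T ^ (2 * ε)) ^ 2) ≤ u ∧ T ^ (4 * ε) ≤ u := by
  have hT0 : 0 < T := by linarith
  have e2 : T ^ (2 * ε) * T ^ (4 * ε) = T ^ (6 * ε) := by
    rw [← Real.rpow_add hT0]
    congr 1
    ring
  rw [B08_sq hT0]
  have hp : 0 ≤ T ^ (4 * ε) := Real.rpow_nonneg hT0.le _
  have h5 : g * T ^ (4 * ε) ≤ 10 * T ^ (2 * ε) * T ^ (4 * ε) := by gcongr
  rw [mul_assoc, e2] at h5
  have h6 : 1 * T ^ (4 * ε) ≤ g * T ^ (4 * ε) := by gcongr
  constructor <;> linarith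

/-- the ratio of the moduli in all cases with equal signs -/
private theorem B08_core {T ε X c x y z R κ t Q : ℝ} (hT : 1 ≤ T) (hX : 0 < X) (hc : 0 < c) (hXT : X * X = T)
    (hx : 0 < x) (hy : 0 < y) (hz : 0 < z) (hxκ : x ^ 2 ≤ κ) (hyκ : y ^ 2 ≤ κ) (hzκ : z ^ 2 ≤ κ)
    (hR : R = T ^ (4 * ε)) (hu : 1 ≤ |X * (c * (x + y - z))|)
    (hs : 0 < (c * (x + y - z)) * (Real.pi / 12 * c * (x ^ 3 + y ^ 3 - z ^ 3)))
    (hQ : Q = (z ^ 2 - x ^ 2 - y ^ 2) ^ 2 - 4 * x ^ 2 * y ^ 2)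
    (ht : t = 2 * Real.pi * (x ^ 2 * y ^ 2 * z ^ 2) / Q)
    (f1 : 7 * κ ≤ T ^ (1 + 20 * ε)) (f2 : 8 * T ^ (4 * ε) ≤ T ^ (20 * ε)) (f3 : 8 * (κ * T ^ (4 * ε)) ≤ T)
    (f4 : 24 * T ^ (1 - 16 * ε) ≤ T)
    (hres : x + y < z → 0 < Q → t < T ^ (1 - 20 * ε) ∨ T ^ (1 + 20 * ε) < t) :
    2 * (|Real.pi / 12 * c * (x ^ 3 + y ^ 3 - z ^ 3) / X| * R) ≤ |X * (c * (x + y - z))| ∨
      2 * (|X * (c * (x + y - z))| * R) ≤ |Real.pi / 12 * c * (x ^ 3 + y ^ 3 - z ^ 3) / X| := by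
  have hT0 : 0 < T := by linarith
  have hpi := Real.pi_pos
  have hprod : 0 < (x + y - z) * (x ^ 3 + y ^ 3 - z ^ 3) := by
    have e : (c * (x + y - z)) * (Real.pi / 12 * c * (x ^ 3 + y ^ 3 - z ^ 3)) =
        (c * (Real.pi / 12 * c)) * ((x + y - z) * (x ^ 3 + y ^ 3 - z ^ 3)) := by ring
    rw [e] at hs
    exact (pos_iff_pos_of_mul_pos hs).1 (by positivity)
  rw [hR]
  rcases lt_trichotomy (x + y - z) 0 with h1 | h1 | h1
  · have h3 : x ^ 3 + y ^ 3 - z ^ 3 < 0 := B08_cube hx hy (by linarith)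
    have hd : 0 < z - (x + y) := by linarith
    have hzd : z = x + y + (z - (x + y)) := by ring
    have hqd := B08_qd hzd
    have hqpos : 0 < Q := by
      rw [hQ, hqd]
      positivity
    have hr2 := hres (by linarith) hqpos
    rw [hQ, hqd] at ht
    exact B08_both hT hx hy hd hzd hxκ hyκ hzκ ht (B08_negv hX hc hXT h1 h3) hu f1 f2 f3 f4 hr2
  · rw [h1, zero_mul] at hprod
    exact absurd hprod (lt_irrefl _)
  · have h3 : 0 < x ^ 3 + y ^ 3 - z ^ 3 := (pos_iff_pos_of_mul_pos hprod).1 h1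
    left
    exact B08_posv hX hc hXT h1 h3 (B08_pos hx hy hz hxκ hyκ hzκ h1 h3) (Real.rpow_pos_of_pos hT0 _)
      ((sq_nonneg x).trans hxκ) f3

theorem E3_nonres (η ε : ℝ) (hη : 0 < η) (hη1 : η ≤ 1 / 80) (hε : 0 < ε) (hε1 : ε ≤ η / 100) :
    ∃ T₀ : ℝ, ∀ T : ℝ, T₀ ≤ T → ∀ k ∈ box (KK η ε T), T ^ (3 / 10 : ℝ) < |(q k : ℝ)| → ¬ Res T ε k →
      ‖E3 T (GG η T) (-1) k‖ ≤ Real.exp (-(T ^ ε)) := by
  have v1 := B08_ev 12 (show 1 / 1000 + (3 / 4 + 3 * η + 6 * ε) < 4 / 5 by linarith)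
  have v2 := B08_ev 20 (show 6 * ε < 1 / 1000 by linarith)
  have v3 := B08_ev 8 (show 1 / 2 + 2 * η + 8 * ε < 1 by linarith)
  have v4 := B08_ev 7 (show 1 / 2 + 2 * η + 4 * ε < 1 + 20 * ε by linarith)
  have v5 := B08_ev 8 (show 4 * ε < 20 * ε by linarith)
  have v6 := B08_ev 24 (show 1 - 16 * ε < 1 by linarith)
  obtain ⟨T₀, hT₀⟩ := eventually_atTop.1 ((B08_fin hε).and (v1.and (v2.and (v3.and (v4.and (v5.and (v6.and
    (eventually_ge_atTop 1))))))))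
  refine ⟨T₀, fun T hT k hk hq hres => ?_⟩
  obtain ⟨hf, v1, v2, v3, v4, v5, v6, hT1⟩ := hT₀ T hT
  have hT0 : 0 < T := by linarith
  have h0 : 0 < √T := Real.sqrt_pos.2 hT0
  obtain ⟨m1, m2, m3⟩ := B08_box hk
  obtain ⟨a1, b1⟩ := B08_coord hT1 m1
  obtain ⟨a2, b2⟩ := B08_coord hT1 m2
  obtain ⟨a3, b3⟩ := B08_coord hT1 m3
  have hg := B08_g hε hT1 hk
  have hga := B08_ga (B08_GG (η := η) hT0) k
  have hgp : 0 ≤ ga (GG η T) k / √T := div_nonneg hga h0.le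
  obtain ⟨c1, c2⟩ := B08_c
  have hq2 := B08_q2 k
  have ht0 := B08_t0 k
  have hsum := B08_sum (k := k) (by linarith) (by linarith)
  have he1 : e1 (-1) k = 2 * √(2 * Real.pi) * (√(k.1 : ℝ) + √(k.2.1 : ℝ) - √(k.2.2 : ℝ)) := by
    unfold e1
    ring
  have he3 : e3 (-1) k = Real.pi / 12 * (2 * √(2 * Real.pi)) *
      (√(k.1 : ℝ) ^ 3 + √(k.2.1 : ℝ) ^ 3 - √(k.2.2 : ℝ) ^ 3) := by
    rw [B08_e3]
    ring
  have hR0 : 0 < T ^ (1 / 4 + η + 2 * ε) := Real.rpow_pos_of_pos hT0 _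
  have hR2 : (T ^ (1 / 4 + η + 2 * ε)) ^ 2 = T ^ (1 / 2 + 2 * η + 4 * ε) := by
    rw [← Real.rpow_natCast, ← Real.rpow_mul hT0.le]
    congr 1
    push_cast
    ring
  have hR3 : (T ^ (1 / 4 + η + 2 * ε)) ^ 3 = T ^ (3 / 4 + 3 * η + 6 * ε) := by
    rw [← Real.rpow_natCast, ← Real.rpow_mul hT0.le]
    congr 1
    push_cast
    ring
  have hqR := B08_q_le (by linarith : 0 ≤ √(k.1 : ℝ)) (by linarith : 0 ≤ √(k.2.1 : ℝ))
    (by linarith : 0 ≤ √(k.2.2 : ℝ)) b1 b2 b3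
  rw [← hq2, hR3] at hqR
  rw [Real.rpow_one] at v3 v6
  have hu := B08_hu hT0 rfl c1 (Real.rpow_pos_of_pos hT0 _) hq hqR (by rw [← Real.rpow_add hT0]; exact v1)
  rw [← he1] at hu
  have hu1 : 1 ≤ |√T * e1 (-1) k| := le_trans (Real.one_le_rpow hT1 (by norm_num)) hu
  obtain ⟨hgM, hMu⟩ := B08_gM hT1 hε hg (by linarith) v2 hu
  have hM0 : 0 < T ^ (2 * ε) := Real.rpow_pos_of_pos hT0 _
  have hMM := B08_sq (ε := ε) hT0
  rcases le_or_gt (e1 (-1) k * e3 (-1) k) 0 with hs | hs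
  · -- opposite signs
    refine (B08_opp (M := T ^ (2 * ε)) hT0 (B08_GG hT0) k hs hM0.le ?_).trans hf
    rw [hMM]
    have h7 : |√T * e1 (-1) k| = √T * |e1 (-1) k| := by rw [abs_mul, abs_of_pos h0]
    rwa [h7] at hMu
  · have hx2 : √(k.1 : ℝ) ^ 2 ≤ (T ^ (1 / 4 + η + 2 * ε)) ^ 2 := pow_le_pow_left₀ (by linarith) b1 2
    have hy2 : √(k.2.1 : ℝ) ^ 2 ≤ (T ^ (1 / 4 + η + 2 * ε)) ^ 2 := pow_le_pow_left₀ (by linarith) b2 2
    have hz2 : √(k.2.2 : ℝ) ^ 2 ≤ (T ^ (1 / 4 + η + 2 * ε)) ^ 2 := pow_le_pow_left₀ (by linarith) b3 2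
    rw [hR2] at hx2 hy2 hz2
    rw [he1, he3] at hs
    rw [he1] at hu1
    have hfinal := B08_core (ε := ε) (R := T ^ (4 * ε)) (X := √T) hT1 h0 (by linarith) (Real.mul_self_sqrt hT0.le)
      (by linarith : 0 < √(k.1 : ℝ)) (by linarith : 0 < √(k.2.1 : ℝ)) (by linarith : 0 < √(k.2.2 : ℝ))
      hx2 hy2 hz2 rfl hu1 hs hq2 ht0 v4 v5 (by
        rw [← Real.rpow_add hT0]
        have e : 1 / 2 + 2 * η + 4 * ε + 4 * ε = 1 / 2 + 2 * η + 8 * ε := by ring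
        rw [e]
        exact v3) v6 (by
        intro hxyz hqp
        by_contra hcon
        rw [not_or, not_lt, not_lt] at hcon
        exact hres ⟨by exact_mod_cast hqp, hsum hxyz, hcon.1, hcon.2⟩)
    rw [← he1, ← he3] at hfinal
    rcases hfinal with h | h
    · have hmain := B08_A (v := e3 (-1) k / √T) hM0 (by linarith) hgM (by rw [hMM]; exact h)
      exact (B08_ratio hT0 (B08_GG hT0) k hM0.le (Or.inl hmain)).trans hf
    · rw [← he1] at hu1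
      have hmain := B08_B (g := 1 + ga (GG η T) k / √T) (v := e3 (-1) k / √T) hM0 hu1 (by rw [hMM]; exact h)
      exact (B08_ratio hT0 (B08_GG hT0) k hM0.le (Or.inr hmain)).trans hf

end U6
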