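import Pool.Agent.Lib.MP_39df77_nt.U6.A08
/-! B09: resonant triples. `u₁ = X|e₁|`, `u₃ = |e₃|/X`, `a = (1+iu₁)/X`, `b = X(g+iu₃)`, `|e₁e₃| = (2/3)π²|ρ₁ρ₃|`,
`√((1+iu₁)(g+iu₃)) = i√(u₁u₃) + (g + i(u₁g+u₃))/(√(..)+i√(u₁u₃)) = i√(u₁u₃) + (g√(u₁/u₃)+√(u₃/u₁))/2 + O(T^{60ε}/√(u₁u₃))`.
With `z = x+y+δ`: `|ρ₁ρ₃| = (3/8) q + O(δ²(x+y)²)`, so `2√(u₁u₃) = π√q + O(T^{-1/4+8η})`; `u₃/u₁ = (x₀/X)²`,
`x₀² = |e₃|/|e₁| = t0 (1 + O(T^{-1/2+4η}))`. Amplitude `√π a^{-1/2} = √(π/(i|e₁|)) (1+O(1/u₁))`, `|e₁| = √(|e₁e₃|)/x₀`. -/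
open Complex MeasureTheory Set
namespace U6

private lemma B09_cone {z : ℂ} (h1 : 0 < z.re) (h2 : 0 ≤ z.im) :
    (z ^ (1 / 2 : ℂ)) ^ 2 = z ∧ 0 < (z ^ (1 / 2 : ℂ)).re ∧ 0 ≤ (z ^ (1 / 2 : ℂ)).im ∧
      (z ^ (1 / 2 : ℂ)).im ≤ (z ^ (1 / 2 : ℂ)).re := by
  have hz : z ≠ 0 := by rintro rfl; simp at h1
  have hsq : (z ^ (1 / 2 : ℂ)) ^ 2 = z := by
    have h : (1 / 2 : ℂ) = ((2 : ℕ) : ℂ)⁻¹ := by norm_num
    rw [h]; exact Complex.cpow_nat_inv_pow z two_ne_zero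
  have hre : 0 < (z ^ (1 / 2 : ℂ)).re := by
    rw [Complex.cpow_def_of_ne_zero hz, Complex.exp_re]
    apply mul_pos (Real.exp_pos _)
    have him : (Complex.log z * (1 / 2 : ℂ)).im = z.arg / 2 := by
      have : (Complex.log z * (1 / 2 : ℂ)).im = (Complex.log z).im / 2 := by
        simp [Complex.mul_im]; ring
      rw [this, Complex.log_im]
    rw [him]
    have ha : |z.arg| < Real.pi / 2 := by
      rw [Complex.abs_arg_lt_pi_div_two_iff]; exact Or.inl h1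
    rw [abs_lt] at ha
    apply Real.cos_pos_of_mem_Ioo
    constructor <;> linarith [Real.pi_pos, ha.1, ha.2]
  set p := z ^ (1 / 2 : ℂ) with hp
  have e1 : p.re * p.re - p.im * p.im = z.re := by
    rw [← hsq]; simp [pow_two]
  have e2 : 2 * (p.re * p.im) = z.im := by
    rw [← hsq]; simp [pow_two]; ring
  have him : 0 ≤ p.im := by
    by_contra hneg
    push Not at hneg
    have : p.re * p.im < 0 := mul_neg_of_pos_of_neg hre hneg
    linarith
  refine ⟨hsq, hre, him, ?_⟩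
  nlinarith

private lemma B09_exp {α β : ℂ} (hα : 0 ≤ α.re) (hβ : 0 ≤ β.re) :
    ‖cexp (-α) - cexp (-β)‖ ≤ ‖α - β‖ := by
  have hconv : Convex ℝ {z : ℂ | z.re ≤ 0} := convex_halfSpace_re_le 0
  have h := hconv.norm_image_sub_le_of_norm_hasDerivWithin_le (f := cexp) (f' := cexp) (C := 1)
    (fun x _ => (Complex.hasDerivAt_exp x).hasDerivWithinAt)
    (fun x hx => by
      rw [Complex.norm_exp]
      exact Real.exp_le_one_iff.mpr hx)
    (x := -β) (y := -α) (by simpa using hβ) (by simpa using hα)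
  have e : ‖-α - -β‖ = ‖α - β‖ := by
    rw [show -α - -β = -(α - β) by ring, norm_neg]
  rw [one_mul, e] at h
  exact h

/-- product of the square roots -/
private lemma B09_prod {X γ E F : ℝ} (hX : 0 < X) (hγ : 0 ≤ γ) (hE : 0 < E) (hF : 0 < F) :
    let w : ℂ := (((1 / X : ℝ) : ℂ) + I * (E : ℝ)) ^ (1 / 2 : ℂ) *
      (((X + γ : ℝ) : ℂ) + I * (F : ℝ)) ^ (1 / 2 : ℂ)
    0 ≤ w.re ∧ ‖w - (I * (Real.sqrt (E * F) : ℝ) +
        (((E * (X + γ) + F / X) / Real.sqrt (E * F) / 2 : ℝ) : ℂ))‖ ≤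
      ((1 + γ / X) + ((E * (X + γ) + F / X) / Real.sqrt (E * F)) ^ 2 / 4) / Real.sqrt (E * F) := by
  intro w
  set a : ℂ := ((1 / X : ℝ) : ℂ) + I * (E : ℝ) with ha
  set b : ℂ := ((X + γ : ℝ) : ℂ) + I * (F : ℝ) with hb
  have are : a.re = 1 / X := by simp [ha]
  have aim : a.im = E := by simp [ha]
  have bre : b.re = X + γ := by simp [hb]
  have bim : b.im = F := by simp [hb]
  obtain ⟨a1, a2, a3, a4⟩ := B09_cone (z := a) (by rw [are]; positivity) (by rw [aim]; exact hE.le)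
  obtain ⟨b1, b2, b3, b4⟩ := B09_cone (z := b) (by rw [bre]; positivity) (by rw [bim]; exact hF.le)
  set p := a ^ (1 / 2 : ℂ) with hp
  set r := b ^ (1 / 2 : ℂ) with hr
  have hw : w = p * r := rfl
  have wre : 0 ≤ w.re := by
    rw [hw, Complex.mul_re]
    nlinarith [mul_nonneg (sub_nonneg.mpr a4) b2.le, mul_nonneg a3 (sub_nonneg.mpr b4)]
  have wim : 0 ≤ w.im := by
    rw [hw, Complex.mul_im]
    positivity
  refine ⟨wre, ?_⟩
  set c := Real.sqrt (E * F) with hc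
  have hc0 : 0 < c := Real.sqrt_pos.mpr (mul_pos hE hF)
  have hcc : c * c = E * F := Real.mul_self_sqrt (mul_pos hE hF).le
  set s := (E * (X + γ) + F / X) / c with hs
  have hsc : s * c = E * (X + γ) + F / X := by rw [hs]; field_simp
  have hs0 : 0 ≤ s := by positivity
  set v : ℂ := I * (c : ℝ) + ((s / 2 : ℝ) : ℂ) with hv
  have hw2 : w ^ 2 = a * b := by rw [hw, mul_pow, a1, b1]
  have key : (w - v) * (w + v) = (((1 + γ / X) - s ^ 2 / 4 : ℝ) : ℂ) := by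
    have h1 : (w - v) * (w + v) = w ^ 2 - v ^ 2 := by ring
    rw [h1, hw2]
    apply Complex.ext
    · simp only [Complex.sub_re, Complex.mul_re, are, aim, bre, bim, Complex.ofReal_re]
      have : (v ^ 2).re = (s / 2) * (s / 2) - c * c := by
        rw [pow_two, Complex.mul_re]; simp [hv]
      rw [this, hcc]
      field_simp
      ring
    · simp only [Complex.sub_im, Complex.mul_im, are, aim, bre, bim, Complex.ofReal_im]
      have : (v ^ 2).im = s * c := by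
        rw [pow_two, Complex.mul_im]; simp [hv]; ring
      rw [this, hsc]
      field_simp
      ring
  have hn : ‖w - v‖ * ‖w + v‖ = |(1 + γ / X) - s ^ 2 / 4| := by
    rw [← norm_mul, key, Complex.norm_real, Real.norm_eq_abs]
  have hge : c ≤ ‖w + v‖ := by
    have h1 : c ≤ (w + v).im := by
      rw [Complex.add_im]
      have : v.im = c := by simp [hv]
      rw [this]; linarith
    exact h1.trans ((le_abs_self _).trans (Complex.abs_im_le_norm _))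
  rw [le_div_iff₀ hc0]
  calc ‖w - v‖ * c ≤ ‖w - v‖ * ‖w + v‖ := mul_le_mul_of_nonneg_left hge (norm_nonneg _)
    _ = |(1 + γ / X) - s ^ 2 / 4| := hn
    _ ≤ (1 + γ / X) + s ^ 2 / 4 := by
        rw [abs_le]
        have h1 : 0 ≤ γ / X := by positivity
        have h2 : 0 ≤ s ^ 2 / 4 := by positivity
        constructor <;> linarith

/-- amplitude -/
private lemma B09_amp {X E : ℝ} (hX : 0 < X) (hE : 0 < E) :
    ‖1 / (((1 / X : ℝ) : ℂ) + I * (E : ℝ)) ^ (1 / 2 : ℂ) -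
      ((1 / Real.sqrt E : ℝ) : ℂ) * cexp (-(I * ((Real.pi / 4 : ℝ) : ℂ)))‖ ≤
      1 / Real.sqrt E * (1 / (X * E)) := by
  set a : ℂ := ((1 / X : ℝ) : ℂ) + I * (E : ℝ) with ha
  have are : a.re = 1 / X := by simp [ha]
  have aim : a.im = E := by simp [ha]
  obtain ⟨a1, a2, a3, a4⟩ := B09_cone (z := a) (by rw [are]; positivity) (by rw [aim]; exact hE.le)
  set p := a ^ (1 / 2 : ℂ) with hp
  set r := Real.sqrt E with hr
  have hr0 : 0 < r := Real.sqrt_pos.mpr hE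
  have hrr : r * r = E := Real.mul_self_sqrt hE.le
  set u : ℂ := cexp (I * ((Real.pi / 4 : ℝ) : ℂ)) with hu
  have hu1 : cexp (-(I * ((Real.pi / 4 : ℝ) : ℂ))) * u = 1 := by
    rw [hu, ← Complex.exp_add]; simp
  have hun : ‖u‖ = 1 := by
    rw [hu, mul_comm]; exact Complex.norm_exp_ofReal_mul_I _
  have hu0 : u ≠ 0 := by rw [hu]; exact Complex.exp_ne_zero _
  have huu : u * u = I := by
    rw [hu, ← Complex.exp_add]
    have : I * ((Real.pi / 4 : ℝ) : ℂ) + I * ((Real.pi / 4 : ℝ) : ℂ) = (Real.pi : ℂ) / 2 * I := by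
      push_cast; ring
    rw [this, Complex.exp_pi_div_two_mul_I]
  have hure : u.re = Real.sqrt 2 / 2 := by
    rw [hu, mul_comm, Complex.exp_ofReal_mul_I_re, Real.cos_pi_div_four]
  have huim : u.im = Real.sqrt 2 / 2 := by
    rw [hu, mul_comm, Complex.exp_ofReal_mul_I_im, Real.sin_pi_div_four]
  have hp0 : p ≠ 0 := by
    intro h0; rw [h0] at a2; simp at a2
  have hpn : r ≤ ‖p‖ := by
    have h1 : ‖p‖ ^ 2 = ‖a‖ := by rw [← norm_pow, a1]
    have h2 : E ≤ ‖a‖ := by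
      have := Complex.abs_im_le_norm a
      rw [aim, abs_of_pos hE] at this
      exact this
    have h3 : r ^ 2 ≤ ‖p‖ ^ 2 := by rw [h1, pow_two, hrr]; exact h2
    exact le_of_sq_le_sq h3 (norm_nonneg _)
  set v : ℂ := (r : ℂ) * u with hv
  have hv2 : v ^ 2 = I * (E : ℝ) := by
    rw [hv, mul_pow, pow_two u, huu, ← hrr]; push_cast; ring
  have hvn : ‖v‖ = r := by
    rw [hv, norm_mul, hun, Complex.norm_real, Real.norm_eq_abs, abs_of_pos hr0, mul_one]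
  have hv0 : v ≠ 0 := by
    intro h0; rw [h0] at hvn; simp at hvn; linarith
  have key : (p - v) * (p + v) = ((1 / X : ℝ) : ℂ) := by
    have h1 : (p - v) * (p + v) = p ^ 2 - v ^ 2 := by ring
    rw [h1, a1, hv2, ha]; ring
  have hs2 : 0 < Real.sqrt 2 := by positivity
  have hge : r ≤ ‖p + v‖ := by
    have h1 : r ^ 2 ≤ ‖p + v‖ ^ 2 := by
      rw [← Complex.normSq_eq_norm_sq, Complex.normSq_apply]
      have vre : v.re = r * (Real.sqrt 2 / 2) := by rw [hv]; simp [hure]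
      have vim : v.im = r * (Real.sqrt 2 / 2) := by rw [hv]; simp [huim]
      rw [Complex.add_re, Complex.add_im, vre, vim]
      have h22 : Real.sqrt 2 * Real.sqrt 2 = 2 := Real.mul_self_sqrt (by norm_num)
      have e1 : 0 ≤ p.re * (r * (Real.sqrt 2 / 2)) := by positivity
      have e2 : 0 ≤ p.im * (r * (Real.sqrt 2 / 2)) := by positivity
      have e3 : (r * (Real.sqrt 2 / 2)) * (r * (Real.sqrt 2 / 2)) = r ^ 2 / 2 := by
        have : (r * (Real.sqrt 2 / 2)) * (r * (Real.sqrt 2 / 2)) =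
          r ^ 2 * (Real.sqrt 2 * Real.sqrt 2) / 4 := by ring
        rw [this, h22]; ring
      nlinarith [mul_self_nonneg p.re, mul_self_nonneg p.im]
    exact le_of_sq_le_sq h1 (norm_nonneg _)
  have hd : ‖p - v‖ ≤ 1 / X / r := by
    rw [le_div_iff₀ hr0]
    calc ‖p - v‖ * r ≤ ‖p - v‖ * ‖p + v‖ := mul_le_mul_of_nonneg_left hge (norm_nonneg _)
      _ = 1 / X := by
          rw [← norm_mul, key, Complex.norm_real, Real.norm_eq_abs, abs_of_pos (by positivity)]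
  have e4 : 1 / p - ((1 / r : ℝ) : ℂ) * cexp (-(I * ((Real.pi / 4 : ℝ) : ℂ))) = (v - p) / (p * v) := by
    have h5 : ((1 / r : ℝ) : ℂ) * cexp (-(I * ((Real.pi / 4 : ℝ) : ℂ))) = 1 / v := by
      rw [eq_div_iff hv0, hv]
      have hrc : (r : ℂ) ≠ 0 := by exact_mod_cast hr0.ne'
      calc ((1 / r : ℝ) : ℂ) * cexp (-(I * ((Real.pi / 4 : ℝ) : ℂ))) * ((r : ℂ) * u)
          = (((1 / r : ℝ) : ℂ) * (r : ℂ)) * (cexp (-(I * ((Real.pi / 4 : ℝ) : ℂ))) * u) := by ring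
        _ = 1 := by rw [hu1]; push_cast; field_simp
    rw [h5]
    field_simp
  rw [e4, norm_div, norm_mul, hvn, norm_sub_rev]
  rw [div_le_iff₀ (by positivity)]
  calc ‖p - v‖ ≤ 1 / X / r := hd
    _ = 1 / r * (1 / (X * E)) * (r * r) := by
        rw [← hrr]; field_simp
    _ ≤ 1 / r * (1 / (X * E)) * (‖p‖ * r) := by
        apply mul_le_mul_of_nonneg_left _ (by positivity)
        exact mul_le_mul_of_nonneg_right hpn hr0.le

/-- real algebra with `z = x + y + d` -/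
private lemma B09_real {x y d κ : ℝ} (hx : 0 < x) (hy : 0 < y) (hd : 0 < d)
    (hκ : (x + y + d) * d ≤ κ * (x * y)) :
    0 ≤ κ ∧
    8 * (x * y * (x + y + d) * d) * (1 - κ / 8) ≤
      d * (2 * (x + y) + d) * ((2 * x + d) * (2 * y + d)) ∧
    d * (2 * (x + y) + d) * ((2 * x + d) * (2 * y + d)) ≤
      8 * (x * y * (x + y + d) * d) * (1 + κ / 2) ∧
    3 * (x * y * (x + y + d)) ≤ (x + y + d) ^ 3 - x ^ 3 - y ^ 3 ∧
    (x + y + d) ^ 3 - x ^ 3 - y ^ 3 ≤ 3 * (x * y * (x + y + d)) * (1 + κ) := by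
  have hxy : 0 < x * y := mul_pos hx hy
  have hz : 0 < x + y + d := by linarith
  have hκ0 : 0 ≤ κ := by
    by_contra h
    push Not at h
    have h1 : κ * (x * y) < 0 := mul_neg_of_neg_of_pos h hxy
    have h2 : 0 < (x + y + d) * d := mul_pos hz hd
    linarith
  have h4 : 4 * (x * y) ≤ (x + y + d) ^ 2 := by nlinarith [sq_nonneg (x - y), mul_pos hx hd, mul_pos hy hd]
  have h4d : 4 * d ≤ κ * (x + y + d) := by
    have h1 : (4 * d) * (x + y + d) ≤ (κ * (x + y + d)) * (x + y + d) := by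
      calc (4 * d) * (x + y + d) = 4 * ((x + y + d) * d) := by ring
        _ ≤ 4 * (κ * (x * y)) := by linarith
        _ = κ * (4 * (x * y)) := by ring
        _ ≤ κ * (x + y + d) ^ 2 := mul_le_mul_of_nonneg_left h4 hκ0
        _ = _ := by ring
    exact le_of_mul_le_mul_right h1 hz
  refine ⟨hκ0, ?_, ?_, ?_, ?_⟩
  · have h5 : 4 * (x * y) ≤ (2 * x + d) * (2 * y + d) := by
      nlinarith [mul_pos hx hd, mul_pos hy hd, mul_pos hd hd]
    have h6 : 0 ≤ d * (2 * (x + y) + d) := by positivity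
    calc 8 * (x * y * (x + y + d) * d) * (1 - κ / 8)
        = (x * y * d) * (8 * (x + y + d) - κ * (x + y + d)) := by ring
      _ ≤ (x * y * d) * (8 * (x + y + d) - 4 * d) := by
          apply mul_le_mul_of_nonneg_left _ (by positivity)
          linarith
      _ = d * (2 * (x + y) + d) * (4 * (x * y)) := by ring
      _ ≤ _ := mul_le_mul_of_nonneg_left h5 h6
  · have h5 : (2 * x + d) * (2 * y + d) ≤ x * y * (4 + 2 * κ) := by
      nlinarith [mul_pos hx hd, mul_pos hy hd, mul_pos hd hd]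
    have h6 : d * (2 * (x + y) + d) ≤ 2 * (x + y + d) * d := by nlinarith [mul_pos hd hd]
    calc d * (2 * (x + y) + d) * ((2 * x + d) * (2 * y + d))
        ≤ (2 * (x + y + d) * d) * (x * y * (4 + 2 * κ)) :=
          mul_le_mul h6 h5 (by positivity) (by positivity)
      _ = _ := by ring
  · have h5 : (x + y + d) ^ 3 - x ^ 3 - y ^ 3 - 3 * (x * y * (x + y + d)) =
        3 * (x * x + x * y + y * y) * d + 3 * (x + y) * (d * d) + d * d * d := by ring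
    have h6 : 0 ≤ 3 * (x * x + x * y + y * y) * d + 3 * (x + y) * (d * d) + d * d * d := by
      positivity
    linarith
  · have h5 : (x + y + d) ^ 3 - x ^ 3 - y ^ 3 ≤
        3 * (x * y * (x + y + d)) + 3 * (x + y + d) ^ 2 * d := by
      have h7 : 3 * (x * y * (x + y + d)) + 3 * (x + y + d) ^ 2 * d -
          ((x + y + d) ^ 3 - x ^ 3 - y ^ 3) =
          3 * (x * y) * d + 3 * (x + y) * (d * d) + 2 * (d * d * d) := by ring
      have h8 : 0 ≤ 3 * (x * y) * d + 3 * (x + y) * (d * d) + 2 * (d * d * d) := by positivity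
      linarith
    have h6 : 3 * (x + y + d) ^ 2 * d ≤ 3 * (x * y * (x + y + d)) * κ := by
      calc 3 * (x + y + d) ^ 2 * d = 3 * (x + y + d) * ((x + y + d) * d) := by ring
        _ ≤ 3 * (x + y + d) * (κ * (x * y)) := mul_le_mul_of_nonneg_left hκ (by positivity)
        _ = _ := by ring
    linarith

private lemma B09_const1 : (2 * Real.sqrt (2 * Real.pi)) *
    (Real.sqrt 2 / 6 * (Real.pi * Real.sqrt Real.pi)) = 2 / 3 * Real.pi ^ 2 := by
  rw [Real.sqrt_mul (by norm_num : (0:ℝ) ≤ 2)]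
  have h2 : Real.sqrt 2 * Real.sqrt 2 = 2 := Real.mul_self_sqrt (by norm_num)
  have hp : Real.sqrt Real.pi * Real.sqrt Real.pi = Real.pi := Real.mul_self_sqrt Real.pi_pos.le
  calc 2 * (Real.sqrt 2 * Real.sqrt Real.pi) * (Real.sqrt 2 / 6 * (Real.pi * Real.sqrt Real.pi))
      = (Real.sqrt 2 * Real.sqrt 2) * (Real.sqrt Real.pi * Real.sqrt Real.pi) * Real.pi / 3 := by ring
    _ = _ := by rw [h2, hp]; ring

private lemma B09_const2 : (Real.sqrt 2 / 6 * (Real.pi * Real.sqrt Real.pi)) =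
    Real.pi / 12 * (2 * Real.sqrt (2 * Real.pi)) := by
  rw [Real.sqrt_mul (by norm_num : (0:ℝ) ≤ 2)]; ring

/-- comparison `|√r - 1| ≤ |r - 1|` -/
private lemma B09_sqrt_sub_one {r : ℝ} (hr : 0 ≤ r) : |Real.sqrt r - 1| ≤ |r - 1| := by
  have h1 : r - 1 = (Real.sqrt r - 1) * (Real.sqrt r + 1) := by
    have := Real.mul_self_sqrt hr
    nlinarith
  rw [h1, abs_mul]
  have h2 : 1 ≤ |Real.sqrt r + 1| := by
    rw [abs_of_nonneg (by positivity)]; linarith [Real.sqrt_nonneg r]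
  exact le_mul_of_one_le_right (abs_nonneg _) h2

/-- all real comparisons -/
private lemma B09_cmp {x y d κ : ℝ} (hx : 0 < x) (hy : 0 < y) (hd : 0 < d)
    (hκ : (x + y + d) * d ≤ κ * (x * y)) (hκ1 : κ ≤ 1 / 4) {E F Q t : ℝ}
    (hE : E = 2 * Real.sqrt (2 * Real.pi) * d)
    (hF : F = Real.sqrt 2 / 6 * (Real.pi * Real.sqrt Real.pi) *
      ((x + y + d) ^ 3 - x ^ 3 - y ^ 3))
    (hQ : Q = d * (2 * (x + y) + d) * ((2 * x + d) * (2 * y + d)))
    (ht : t * Q = 2 * Real.pi * (x * y * (x + y + d)) ^ 2) :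
    0 < E ∧ 0 < F ∧ 0 < Q ∧ 0 < t ∧
    (∃ ρ : ℝ, Real.sqrt (F / E) = ρ * Real.sqrt t ∧ |ρ - 1| ≤ 2 * κ) ∧
    |2 * Real.sqrt (E * F) - Real.pi * Real.sqrt Q| ≤ 7 * κ * Real.sqrt Q ∧
    Real.sqrt Q ≤ Real.sqrt (E * F) ∧
    (∃ R : ℝ, 1 - κ / 8 ≤ R ∧ R ≤ 1 + κ / 2 ∧
      Real.pi / E * Real.sqrt (2 * Real.pi) * (x * y * (x + y + d)) = 2 * t * R) := by
  obtain ⟨hκ0, r1, r2, r3, r4⟩ := B09_real hx hy hd hκ
  set z := x + y + d with hz
  have hz0 : 0 < z := by rw [hz]; linarith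
  have hpi := Real.pi_pos
  have hpi3 := Real.pi_gt_three
  have hpi4 := Real.pi_lt_d2
  have hM0 : 0 < 8 * (x * y * z * d) := by positivity
  set M := 8 * (x * y * z * d) with hM
  have hE0 : 0 < E := by rw [hE]; positivity
  have hQ0 : 0 < Q := by
    rw [hQ]; positivity
  have hF0 : 0 < F := by
    rw [hF]
    apply mul_pos (by positivity)
    have : 0 < 3 * (x * y * z) := by positivity
    linarith
  have ht0 : 0 < t := by
    by_contra h
    push Not at h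
    have h1 : t * Q ≤ 0 := mul_nonpos_of_nonpos_of_nonneg h hQ0.le
    have h2 : 0 < 2 * Real.pi * (x * y * z) ^ 2 := by positivity
    linarith
  -- R and a
  set R := Q / M with hR
  have hQR : Q = M * R := by rw [hR]; field_simp
  have hR1 : 1 - κ / 8 ≤ R := by
    rw [hR, le_div_iff₀ hM0, hQ]; linarith
  have hR2 : R ≤ 1 + κ / 2 := by
    rw [hR, div_le_iff₀ hM0, hQ]; linarith
  have hR0 : 0 < R := by linarith
  set a := (z ^ 3 - x ^ 3 - y ^ 3) / (3 * (x * y * z)) - 1 with ha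
  have h3 : 0 < 3 * (x * y * z) := by positivity
  have hza : z ^ 3 - x ^ 3 - y ^ 3 = 3 * (x * y * z) * (1 + a) := by
    rw [ha]; field_simp; ring
  have ha0 : 0 ≤ a := by
    rw [ha, sub_nonneg, one_le_div h3]; exact r3
  have ha1 : a ≤ κ := by
    have : 3 * (x * y * z) * (1 + a) ≤ 3 * (x * y * z) * (1 + κ) := by rw [← hza]; exact r4
    have := le_of_mul_le_mul_left this h3
    linarith
  -- EF, F/E, t
  have hEF : E * F = Real.pi ^ 2 / 4 * M * (1 + a) := by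
    rw [hE, hF, hza, hM]
    calc 2 * Real.sqrt (2 * Real.pi) * d * (Real.sqrt 2 / 6 * (Real.pi * Real.sqrt Real.pi) *
          (3 * (x * y * z) * (1 + a)))
        = (2 * Real.sqrt (2 * Real.pi)) * (Real.sqrt 2 / 6 * (Real.pi * Real.sqrt Real.pi)) *
          (3 * (x * y * z * d) * (1 + a)) := by ring
      _ = _ := by rw [B09_const1]; ring
  have hFE : F / E = Real.pi / 4 * (x * y * z / d) * (1 + a) := by
    rw [div_eq_iff hE0.ne', hF, hE, hza, B09_const2]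
    field_simp
    ring
  have htR : t = Real.pi / 4 * (x * y * z / d) / R := by
    rw [eq_div_iff hR0.ne']
    have h5 : t * (M * R) = 2 * Real.pi * (x * y * z) ^ 2 := by rw [← hQR]; exact ht
    have h6 : t * R = 2 * Real.pi * (x * y * z) ^ 2 / M := by
      rw [eq_div_iff hM0.ne']; linarith
    rw [h6, hM]
    field_simp
    ring
  refine ⟨hE0, hF0, hQ0, ht0, ⟨Real.sqrt (R * (1 + a)), ?_, ?_⟩, ?_, ?_, ⟨R, hR1, hR2, ?_⟩⟩
  · rw [← Real.sqrt_mul (by positivity)]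
    congr 1
    rw [hFE, htR]
    field_simp
  · refine (B09_sqrt_sub_one (by positivity)).trans ?_
    rw [abs_le]
    constructor
    · have h := mul_nonneg hR0.le ha0
      have e : R * (1 + a) = R + R * a := by ring
      linarith
    · have : R * (1 + a) ≤ (1 + κ / 2) * (1 + κ) :=
        mul_le_mul hR2 (by linarith) (by linarith) (by linarith)
      have h := mul_le_mul_of_nonneg_right hκ1 hκ0
      have e : (1 + κ / 2) * (1 + κ) = 1 + 3 / 2 * κ + 1 / 2 * (κ * κ) := by ring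
      linarith
  · have h5 : 2 * Real.sqrt (E * F) = Real.pi * Real.sqrt Q * Real.sqrt ((1 + a) / R) := by
      have h6 : E * F = (Real.pi / 2) ^ 2 * (Q * ((1 + a) / R)) := by
        rw [hEF, hQR]; field_simp; ring
      rw [h6, Real.sqrt_mul (by positivity), Real.sqrt_sq (by positivity), Real.sqrt_mul hQ0.le]
      ring
    have h7 : 2 * Real.sqrt (E * F) - Real.pi * Real.sqrt Q =
        Real.pi * Real.sqrt Q * (Real.sqrt ((1 + a) / R) - 1) := by rw [h5]; ring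
    rw [h7, abs_mul, abs_of_nonneg (by positivity)]
    have h8 : |Real.sqrt ((1 + a) / R) - 1| ≤ 2 * κ := by
      refine (B09_sqrt_sub_one (by positivity)).trans ?_
      have h9 : (1 + a) / R - 1 = (1 + a - R) / R := by field_simp
      rw [h9, abs_div, abs_of_pos hR0, div_le_iff₀ hR0, abs_le]
      constructor
      · have h := mul_le_mul_of_nonneg_left (show (15 / 16 : ℝ) ≤ R by linarith) hκ0
        linarith
      · have h := mul_le_mul_of_nonneg_left (show (15 / 16 : ℝ) ≤ R by linarith) hκ0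
        linarith
    calc Real.pi * Real.sqrt Q * |Real.sqrt ((1 + a) / R) - 1|
        ≤ Real.pi * Real.sqrt Q * (2 * κ) := mul_le_mul_of_nonneg_left h8 (by positivity)
      _ = (2 * Real.pi) * (κ * Real.sqrt Q) := by ring
      _ ≤ 7 * (κ * Real.sqrt Q) := by
          apply mul_le_mul_of_nonneg_right _ (by positivity)
          linarith
      _ = _ := by ring
  · apply Real.sqrt_le_sqrt
    rw [hEF, hQR]
    have h5 : M * R ≤ M * (9 / 8) := mul_le_mul_of_nonneg_left (by linarith) hM0.le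
    have h6 : M * (9 / 8) ≤ Real.pi ^ 2 / 4 * M * (1 + a) := by
      have h7 : 9 / 8 ≤ Real.pi ^ 2 / 4 := by
        have h := mul_le_mul hpi3.le hpi3.le (by norm_num) hpi.le
        rw [pow_two]; linarith
      have h8 : 9 / 8 ≤ Real.pi ^ 2 / 4 * (1 + a) := by
        have h := mul_nonneg (show 0 ≤ Real.pi ^ 2 / 4 by positivity) ha0
        have e : Real.pi ^ 2 / 4 * (1 + a) = Real.pi ^ 2 / 4 + Real.pi ^ 2 / 4 * a := by ring
        rw [e]; linarith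
      calc M * (9 / 8) ≤ M * (Real.pi ^ 2 / 4 * (1 + a)) := mul_le_mul_of_nonneg_left h8 hM0.le
        _ = _ := by ring
    linarith
  · rw [htR, hE]
    field_simp
    ring

/-- the comparison with explicit error -/
private lemma B09_core {T G κ : ℝ} (hT : 0 < T) (hG : 0 ≤ G) (k : ℕ × ℕ × ℕ) (k1 : 0 < k.1)
    (k2 : 0 < k.2.1) (hq : 0 < q k) (hk : k.1 + k.2.1 < k.2.2)
    (hκ : Real.sqrt k.2.2 * (Real.sqrt k.2.2 - Real.sqrt k.1 - Real.sqrt k.2.1) ≤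
      κ * (Real.sqrt k.1 * Real.sqrt k.2.1)) (hκ1 : κ ≤ 1 / 4) :
    ‖E3 T G (-1) k - E3main T G k‖ ≤
      (Real.sqrt 2 * (2 * Real.pi) ^ (-(1 / 4) : ℝ) *
        ((k.1 * k.2.1 * k.2.2 : ℝ)) ^ (-(1 / 4) : ℝ) * Real.sqrt (t0 k)) *
      (3 * Real.sqrt (t0 k) / (Real.sqrt T * Real.sqrt (q k : ℝ)) + κ / 2 +
        2 * ((1 + ga G k / Real.sqrt T + (Real.sqrt (t0 k / T) + Real.sqrt (T / t0 k) +
          ga G k / Real.sqrt (t0 k)) ^ 2) / Real.sqrt (q k : ℝ)) +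
        7 * κ * Real.sqrt (q k : ℝ) + 4 * κ * (Real.sqrt (t0 k / T) + Real.sqrt (T / t0 k) +
          ga G k / Real.sqrt (t0 k))) := by
  have k3 : 0 < k.2.2 := by omega
  have hx : 0 < Real.sqrt (k.1 : ℝ) := Real.sqrt_pos.mpr (by exact_mod_cast k1)
  have hy : 0 < Real.sqrt (k.2.1 : ℝ) := Real.sqrt_pos.mpr (by exact_mod_cast k2)
  have hz : 0 < Real.sqrt (k.2.2 : ℝ) := Real.sqrt_pos.mpr (by exact_mod_cast k3)
  have hxx : Real.sqrt (k.1 : ℝ) * Real.sqrt (k.1 : ℝ) = k.1 := Real.mul_self_sqrt (by positivity)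
  have hyy : Real.sqrt (k.2.1 : ℝ) * Real.sqrt (k.2.1 : ℝ) = k.2.1 :=
    Real.mul_self_sqrt (by positivity)
  have hzz : Real.sqrt (k.2.2 : ℝ) * Real.sqrt (k.2.2 : ℝ) = k.2.2 :=
    Real.mul_self_sqrt (by positivity)
  set x := Real.sqrt (k.1 : ℝ) with hxdef
  set y := Real.sqrt (k.2.1 : ℝ) with hydef
  set z := Real.sqrt (k.2.2 : ℝ) with hzdef
  set d := z - x - y with hd
  have hzd : z = x + y + d := by rw [hd]; ring
  have hQeq : ((q k : ℤ) : ℝ) = ((z * z - x * x - y * y) ^ 2 - 4 * (x * x) * (y * y)) := by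
    unfold q; push_cast; rw [hxx, hyy, hzz]
  have hQ0' : (0 : ℝ) < ((q k : ℤ) : ℝ) := by exact_mod_cast hq
  have hkR : x * x + y * y < z * z := by rw [hxx, hyy, hzz]; exact_mod_cast hk
  have hd0 : 0 < d := by
    have h1 : (2 * (x * y)) ^ 2 < (z * z - x * x - y * y) ^ 2 := by
      rw [hQeq] at hQ0'
      have e : (z * z - x * x - y * y) ^ 2 - 4 * (x * x) * (y * y) =
          (z * z - x * x - y * y) ^ 2 - (2 * (x * y)) ^ 2 := by ring
      rw [e] at hQ0'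
      exact sub_pos.mp hQ0'
    have h2 : 2 * (x * y) < z * z - x * x - y * y :=
      lt_of_pow_lt_pow_left₀ 2 (by linarith) h1
    have h3 : (x + y) ^ 2 < z ^ 2 := by
      have e1 : (x + y) ^ 2 = x * x + y * y + 2 * (x * y) := by ring
      rw [e1, pow_two]; linarith
    have h4 : x + y < z := lt_of_pow_lt_pow_left₀ 2 hz.le h3
    rw [hd]; linarith
  have hγ : 0 ≤ ga G k := by
    unfold ga; rw [← hxdef, ← hydef, ← hzdef]; positivity
  set γ := ga G k with hγdef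
  set Q := ((q k : ℤ) : ℝ) with hQdef
  have hQf : Q = d * (2 * (x + y) + d) * ((2 * x + d) * (2 * y + d)) := by
    rw [hQeq, hzd]; ring
  have htQ : t0 k * Q = 2 * Real.pi * (x * y * (x + y + d)) ^ 2 := by
    unfold t0
    rw [← hQdef, div_mul_cancel₀ _ hQ0'.ne', ← hzd, ← hxx, ← hyy, ← hzz]
    ring
  set E := 2 * Real.sqrt (2 * Real.pi) * d with hEdef
  set F := Real.sqrt 2 / 6 * (Real.pi * Real.sqrt Real.pi) *
      ((x + y + d) ^ 3 - x ^ 3 - y ^ 3) with hFdef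
  rw [hzd] at hκ
  obtain ⟨hE0, hF0, hQ0, ht0, ⟨ρ, hρ1, hρ2⟩, hc1, hc2, ⟨R, hR1, hR2, hR3⟩⟩ :=
    B09_cmp hx hy hd0 hκ hκ1 hEdef hFdef hQf htQ
  obtain ⟨hκ0, -⟩ := B09_real hx hy hd0 hκ
  set X := Real.sqrt T with hXdef
  have hX : 0 < X := Real.sqrt_pos.mpr hT
  set t := t0 k with htdef
  set y0 := Real.sqrt t with hy0def
  have hy0 : 0 < y0 := Real.sqrt_pos.mpr ht0
  have hsq0 : 0 < Real.sqrt Q := Real.sqrt_pos.mpr hQ0
  -- s
  have hs1 : Real.sqrt (t / T) = y0 / X := Real.sqrt_div ht0.le T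
  have hs2 : Real.sqrt (T / t) = X / y0 := Real.sqrt_div hT.le t
  rw [hs1, hs2]
  set s := y0 / X + X / y0 + γ / y0 with hsdef
  have hs0 : 0 ≤ s := by positivity
  -- E3
  have hE3 : E3 T G (-1) k = ((Real.sqrt Real.pi : ℝ) : ℂ) *
      (1 / (((1 / X : ℝ) : ℂ) + I * (E : ℝ)) ^ (1 / 2 : ℂ)) *
      cexp (-(2 * ((((1 / X : ℝ) : ℂ) + I * (E : ℝ)) ^ (1 / 2 : ℂ) *
        (((X + γ : ℝ) : ℂ) + I * (F : ℝ)) ^ (1 / 2 : ℂ)))) := by
    have he1 : e1 (-1) k = -E := by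
      unfold e1; rw [← hxdef, ← hydef, ← hzdef, hEdef, hd]; ring
    have he3 : e3 (-1) k = -F := by
      unfold e3
      rw [← hxdef, ← hydef, ← hzdef, hFdef, ← hzd, ← hxx, ← hyy, ← hzz]; ring
    have ha : ((1 / Real.sqrt T : ℝ) : ℂ) - I * (e1 (-1) k : ℝ) =
        ((1 / X : ℝ) : ℂ) + I * (E : ℝ) := by
      rw [he1, ← hXdef]; push_cast; ring
    have hb : ((Real.sqrt T + ga G k : ℝ) : ℂ) - I * (e3 (-1) k : ℝ) =
        ((X + γ : ℝ) : ℂ) + I * (F : ℝ) := by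
      rw [he3, ← hXdef, ← hγdef]; push_cast; ring
    unfold E3
    simp only [ha, hb]
    rw [div_eq_mul_one_div]
  obtain ⟨hw0, hw1⟩ := B09_prod hX hγ hE0 hF0
  have hamp := B09_amp hX hE0
  set w : ℂ := (((1 / X : ℝ) : ℂ) + I * (E : ℝ)) ^ (1 / 2 : ℂ) *
      (((X + γ : ℝ) : ℂ) + I * (F : ℝ)) ^ (1 / 2 : ℂ) with hwdef
  set p : ℂ := (((1 / X : ℝ) : ℂ) + I * (E : ℝ)) ^ (1 / 2 : ℂ) with hpdef
  set c := Real.sqrt (E * F) with hcdef
  have hc0 : 0 < c := Real.sqrt_pos.mpr (mul_pos hE0 hF0)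
  set x0 := Real.sqrt (F / E) with hx0def
  have hx00 : 0 < x0 := Real.sqrt_pos.mpr (div_pos hF0 hE0)
  have hxc : x0 * c = F := by
    rw [hx0def, hcdef, ← Real.sqrt_mul (by positivity)]
    have : F / E * (E * F) = F * F := by field_simp
    rw [this, Real.sqrt_mul_self hF0.le]
  have hxE : x0 * E = c := by
    have h1 : x0 * x0 = F / E := Real.mul_self_sqrt (by positivity)
    have h2 : x0 * (x0 * E) = x0 * c := by
      rw [hxc, ← mul_assoc, h1]; field_simp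
    exact mul_left_cancel₀ hx00.ne' h2
  set s0 := (E * (X + γ) + F / X) / c with hs0def
  have hs0eq : s0 = (X + γ) / x0 + x0 / X := by
    rw [hs0def, ← hxE, ← hxc, ← hxE]; field_simp
  have hρlo : 1 / 2 ≤ ρ := by
    have := (abs_le.mp hρ2).1; linarith
  have hρhi : ρ ≤ 3 / 2 := by
    have := (abs_le.mp hρ2).2; linarith
  have hρ0 : 0 < ρ := by linarith
  have hs0s : |s0 - s| ≤ 4 * κ * s := by
    have h1 : s0 - s = ((X + γ) / y0) * ((1 - ρ) / ρ) + (y0 / X) * (ρ - 1) := by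
      rw [hs0eq, hsdef, hρ1]; field_simp; ring
    rw [h1]
    refine (abs_add_le _ _).trans ?_
    rw [abs_mul, abs_mul, abs_of_nonneg (show 0 ≤ (X + γ) / y0 by positivity),
      abs_of_nonneg (show 0 ≤ y0 / X by positivity), abs_div, abs_of_pos hρ0, abs_sub_comm 1 ρ]
    have h2 : |ρ - 1| / ρ ≤ 4 * κ := by
      rw [div_le_iff₀ hρ0]
      have h := mul_le_mul_of_nonneg_left hρlo hκ0
      linarith
    have h3 : (X + γ) / y0 * (|ρ - 1| / ρ) ≤ (X + γ) / y0 * (4 * κ) :=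
      mul_le_mul_of_nonneg_left h2 (by positivity)
    have h4 : y0 / X * |ρ - 1| ≤ y0 / X * (4 * κ) :=
      mul_le_mul_of_nonneg_left (by linarith) (by positivity)
    calc (X + γ) / y0 * (|ρ - 1| / ρ) + y0 / X * |ρ - 1|
        ≤ (X + γ) / y0 * (4 * κ) + y0 / X * (4 * κ) := add_le_add h3 h4
      _ = 4 * κ * s := by rw [hsdef]; field_simp; ring
  have hs00 : 0 ≤ s0 := by rw [hs0def]; positivity
  have hs02 : s0 ≤ 2 * s := by
    have := (abs_le.mp hs0s).2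
    have h := mul_le_mul_of_nonneg_right hκ1 hs0
    linarith
  have hs0sq : s0 ^ 2 / 4 ≤ s ^ 2 := by
    have : s0 ^ 2 ≤ (2 * s) ^ 2 := pow_le_pow_left₀ hs00 hs02 2
    linarith [this, mul_pow 2 s 2]
  -- amplitudes
  set A := Real.sqrt 2 * (2 * Real.pi) ^ (-(1 / 4) : ℝ) *
        ((k.1 * k.2.1 * k.2.2 : ℝ)) ^ (-(1 / 4) : ℝ) * y0 with hAdef
  have hkpos : (0 : ℝ) < (k.1 : ℝ) * k.2.1 * k.2.2 := by
    have h1 : (0 : ℝ) < k.1 := by exact_mod_cast k1
    have h2 : (0 : ℝ) < k.2.1 := by exact_mod_cast k2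
    have h3 : (0 : ℝ) < k.2.2 := by exact_mod_cast k3
    positivity
  have hA0 : 0 ≤ A := by positivity
  have hquart : ∀ u : ℝ, 0 < u → (u ^ (-(1 / 4) : ℝ)) ^ 2 = 1 / Real.sqrt u := by
    intro u hu
    rw [← Real.rpow_natCast, ← Real.rpow_mul hu.le, Real.sqrt_eq_rpow,
      one_div (u ^ (1 / 2 : ℝ)), ← Real.rpow_neg hu.le]
    congr 1; norm_num
  have hA2 : A ^ 2 = 2 * t / (Real.sqrt (2 * Real.pi) * (x * y * z)) := by
    have h1 : Real.sqrt ((k.1 : ℝ) * k.2.1 * k.2.2) = x * y * z := by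
      rw [← hxx, ← hyy, ← hzz]
      rw [show x * x * (y * y) * (z * z) = (x * y * z) * (x * y * z) by ring]
      exact Real.sqrt_mul_self (by positivity)
    rw [hAdef, mul_pow, mul_pow, mul_pow, hquart _ (by positivity), hquart _ hkpos, h1,
      Real.sq_sqrt (by norm_num), hy0def, Real.sq_sqrt ht0.le]
    field_simp
  set B1 := Real.sqrt Real.pi * (1 / Real.sqrt E) with hB1def
  have hR0 : 0 < R := by linarith
  have hB1 : B1 = A * Real.sqrt R := by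
    have h1 : B1 ^ 2 = (A * Real.sqrt R) ^ 2 := by
      rw [hB1def, mul_pow, mul_pow, hA2, Real.sq_sqrt Real.pi_pos.le, div_pow, Real.sq_sqrt hE0.le,
        Real.sq_sqrt hR0.le]
      have h2 : Real.pi / E * Real.sqrt (2 * Real.pi) * (x * y * z) = 2 * t * R := by
        rw [hzd]; exact hR3
      have h3 : 0 < Real.sqrt (2 * Real.pi) * (x * y * z) := by positivity
      rw [one_pow, mul_one_div, div_mul_eq_mul_div, eq_div_iff h3.ne']
      linarith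
    have h2 : 0 ≤ B1 := by rw [hB1def]; positivity
    exact (pow_left_inj₀ h2 (by positivity) two_ne_zero).mp h1
  have hB1A : |B1 - A| ≤ κ / 2 * A := by
    rw [hB1, show A * Real.sqrt R - A = A * (Real.sqrt R - 1) by ring, abs_mul, abs_of_nonneg hA0]
    have h1 : |Real.sqrt R - 1| ≤ κ / 2 := by
      refine (B09_sqrt_sub_one hR0.le).trans ?_
      rw [abs_le]; constructor <;> linarith
    calc A * |Real.sqrt R - 1| ≤ A * (κ / 2) := mul_le_mul_of_nonneg_left h1 hA0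
      _ = _ := by ring
  have hB12 : B1 ≤ 2 * A := by
    have := (abs_le.mp hB1A).2
    have h := mul_le_mul_of_nonneg_right hκ1 hA0
    linarith
  have hB10 : 0 ≤ B1 := by rw [hB1def]; positivity
  set u4 : ℂ := cexp (-(I * ((Real.pi / 4 : ℝ) : ℂ))) with hu4
  have hu4n : ‖u4‖ = 1 := by
    rw [hu4, show -(I * ((Real.pi / 4 : ℝ) : ℂ)) = ((-(Real.pi / 4) : ℝ) : ℂ) * I by push_cast; ring]
    exact Complex.norm_exp_ofReal_mul_I _
  -- main term
  have hmain : E3main T G k = ((A : ℝ) : ℂ) * u4 *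
      cexp (-(((s : ℝ) : ℂ) + I * ((Real.pi * Real.sqrt Q : ℝ) : ℂ))) := by
    unfold E3main
    rw [← htdef, ← hy0def, ← hγdef, ← hQdef, hs1, hs2, ← hAdef]
    rw [show -(y0 / X) - X / y0 - γ / y0 = -s by rw [hsdef]; ring]
    rw [hu4, Complex.ofReal_mul A (Real.exp (-s)), Complex.ofReal_exp,
      mul_assoc (A : ℂ), mul_assoc (A : ℂ), ← Complex.exp_add, ← Complex.exp_add]
    congr 2
    push_cast; ring
  have hexp1 : ‖cexp (-(2 * w))‖ ≤ 1 := by
    rw [Complex.norm_exp, Real.exp_le_one_iff]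
    have : (-(2 * w)).re = -(2 * w.re) := by simp
    rw [this]; linarith
  have hP1 : ‖((Real.sqrt Real.pi : ℝ) : ℂ) * (1 / p) - ((B1 : ℝ) : ℂ) * u4‖ ≤
      A * (3 * y0 / (X * Real.sqrt Q)) := by
    have h1 : ((Real.sqrt Real.pi : ℝ) : ℂ) * (1 / p) - ((B1 : ℝ) : ℂ) * u4 =
        ((Real.sqrt Real.pi : ℝ) : ℂ) * (1 / p - ((1 / Real.sqrt E : ℝ) : ℂ) * u4) := by
      rw [hB1def, Complex.ofReal_mul]; ring
    rw [h1, norm_mul, Complex.norm_real, Real.norm_eq_abs, abs_of_nonneg (Real.sqrt_nonneg _)]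
    calc Real.sqrt Real.pi * ‖1 / p - ((1 / Real.sqrt E : ℝ) : ℂ) * u4‖
        ≤ Real.sqrt Real.pi * (1 / Real.sqrt E * (1 / (X * E))) :=
          mul_le_mul_of_nonneg_left hamp (Real.sqrt_nonneg _)
      _ = B1 * (1 / (X * E)) := by rw [hB1def]; ring
      _ = B1 * (x0 / (X * c)) := by
          rw [← hxE]; field_simp
      _ ≤ (2 * A) * ((3 / 2 * y0) / (X * Real.sqrt Q)) := by
          apply mul_le_mul hB12 _ (by positivity) (by positivity)
          apply div_le_div₀ (by positivity) _ (by positivity) _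
          · rw [hρ1]; exact mul_le_mul_of_nonneg_right hρhi hy0.le
          · exact mul_le_mul_of_nonneg_left hc2 hX.le
      _ = _ := by ring
  have hP2 : ‖((B1 : ℝ) : ℂ) * u4 - ((A : ℝ) : ℂ) * u4‖ ≤ A * (κ / 2) := by
    rw [← sub_mul, norm_mul, hu4n, mul_one, ← Complex.ofReal_sub, Complex.norm_real,
      Real.norm_eq_abs]
    linarith
  have hphase : ‖cexp (-(2 * w)) -
      cexp (-(((s : ℝ) : ℂ) + I * ((Real.pi * Real.sqrt Q : ℝ) : ℂ)))‖ ≤
      2 * ((1 + γ / X + s ^ 2) / Real.sqrt Q) + 7 * κ * Real.sqrt Q + 4 * κ * s := by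
    refine (B09_exp (by simpa using hw0) (by simpa using hs0)).trans ?_
    have h1 : 2 * w - (((s : ℝ) : ℂ) + I * ((Real.pi * Real.sqrt Q : ℝ) : ℂ)) =
        2 * (w - (I * ((c : ℝ) : ℂ) + ((s0 / 2 : ℝ) : ℂ))) +
          I * ((2 * c - Real.pi * Real.sqrt Q : ℝ) : ℂ) + ((s0 - s : ℝ) : ℂ) := by
      push_cast; ring
    rw [h1]
    refine (norm_add_le _ _).trans ?_
    have h2 := norm_add_le (2 * (w - (I * ((c : ℝ) : ℂ) + ((s0 / 2 : ℝ) : ℂ))))
      (I * ((2 * c - Real.pi * Real.sqrt Q : ℝ) : ℂ))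
    have h3 : ‖2 * (w - (I * ((c : ℝ) : ℂ) + ((s0 / 2 : ℝ) : ℂ)))‖ ≤
        2 * ((1 + γ / X + s ^ 2) / Real.sqrt Q) := by
      rw [norm_mul]
      have h4 : ‖(2 : ℂ)‖ = 2 := by simp
      rw [h4]
      apply mul_le_mul_of_nonneg_left _ (by norm_num)
      refine hw1.trans ?_
      apply div_le_div₀ (by positivity) _ hsq0 hc2
      linarith
    have h5 : ‖I * ((2 * c - Real.pi * Real.sqrt Q : ℝ) : ℂ)‖ ≤ 7 * κ * Real.sqrt Q := by
      rw [norm_mul, Complex.norm_I, one_mul, Complex.norm_real, Real.norm_eq_abs]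
      exact hc1
    have h6 : ‖((s0 - s : ℝ) : ℂ)‖ ≤ 4 * κ * s := by
      rw [Complex.norm_real, Real.norm_eq_abs]; exact hs0s
    linarith
  rw [hE3, hmain]
  have hsplit : ((Real.sqrt Real.pi : ℝ) : ℂ) * (1 / p) * cexp (-(2 * w)) -
      ((A : ℝ) : ℂ) * u4 * cexp (-(((s : ℝ) : ℂ) + I * ((Real.pi * Real.sqrt Q : ℝ) : ℂ))) =
      (((Real.sqrt Real.pi : ℝ) : ℂ) * (1 / p) - ((B1 : ℝ) : ℂ) * u4) * cexp (-(2 * w)) +
      (((B1 : ℝ) : ℂ) * u4 - ((A : ℝ) : ℂ) * u4) * cexp (-(2 * w)) +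
      ((A : ℝ) : ℂ) * u4 * (cexp (-(2 * w)) -
        cexp (-(((s : ℝ) : ℂ) + I * ((Real.pi * Real.sqrt Q : ℝ) : ℂ)))) := by ring
  rw [hsplit]
  refine (norm_add_le _ _).trans ?_
  have n1 := norm_add_le
    ((((Real.sqrt Real.pi : ℝ) : ℂ) * (1 / p) - ((B1 : ℝ) : ℂ) * u4) * cexp (-(2 * w)))
    ((((B1 : ℝ) : ℂ) * u4 - ((A : ℝ) : ℂ) * u4) * cexp (-(2 * w)))
  have n2 : ‖(((Real.sqrt Real.pi : ℝ) : ℂ) * (1 / p) - ((B1 : ℝ) : ℂ) * u4) * cexp (-(2 * w))‖ ≤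
      A * (3 * y0 / (X * Real.sqrt Q)) := by
    rw [norm_mul]
    calc _ ≤ (A * (3 * y0 / (X * Real.sqrt Q))) * 1 :=
          mul_le_mul hP1 hexp1 (norm_nonneg _) (by positivity)
      _ = _ := mul_one _
  have n3 : ‖(((B1 : ℝ) : ℂ) * u4 - ((A : ℝ) : ℂ) * u4) * cexp (-(2 * w))‖ ≤ A * (κ / 2) := by
    rw [norm_mul]
    calc _ ≤ (A * (κ / 2)) * 1 :=
          mul_le_mul hP2 hexp1 (norm_nonneg _) (by positivity)
      _ = _ := mul_one _
  have n4 : ‖((A : ℝ) : ℂ) * u4 * (cexp (-(2 * w)) -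
        cexp (-(((s : ℝ) : ℂ) + I * ((Real.pi * Real.sqrt Q : ℝ) : ℂ))))‖ ≤
      A * (2 * ((1 + γ / X + s ^ 2) / Real.sqrt Q) + 7 * κ * Real.sqrt Q + 4 * κ * s) := by
    rw [norm_mul, norm_mul, hu4n, mul_one, Complex.norm_real, Real.norm_eq_abs, abs_of_nonneg hA0]
    exact mul_le_mul_of_nonneg_left hphase hA0
  calc _ ≤ A * (3 * y0 / (X * Real.sqrt Q)) + A * (κ / 2) +
      A * (2 * ((1 + γ / X + s ^ 2) / Real.sqrt Q) + 7 * κ * Real.sqrt Q + 4 * κ * s) := by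
        linarith
    _ = _ := by ring

theorem E3_main (η ε : ℝ) (hη : 0 < η) (hη1 : η ≤ 1 / 80) (hε : 0 < ε) (hε1 : ε ≤ η / 100) :
    ∃ T₀ : ℝ, ∀ T : ℝ, T₀ ≤ T → ∀ k ∈ box (KK η ε T), T ^ (3 / 10 : ℝ) < |(q k : ℝ)| → Res T ε k →
      ‖E3 T (GG η T) (-1) k - E3main T (GG η T) k‖ ≤
        T ^ (1 / 2 - 1 / 10 : ℝ) * (k.1 * k.2.1 * k.2.2 : ℝ) ^ (-(1 / 4) : ℝ) := by
  obtain ⟨T1, hT1⟩ := Filter.eventually_atTop.mp
    ((tendsto_rpow_atTop (show (0 : ℝ) < 0.02025 by norm_num)).eventually_ge_atTop 227)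
  refine ⟨max T1 1, fun T hT k hk hqk hres => ?_⟩
  have hTone : 1 ≤ T := le_trans (le_max_right _ _) hT
  have hTbig : 227 ≤ T ^ (0.02025 : ℝ) := hT1 T (le_trans (le_max_left _ _) hT)
  have hT0 : 0 < T := by linarith
  have pw : ∀ a b : ℝ, T ^ a * T ^ b = T ^ (a + b) := fun a b => (Real.rpow_add hT0 a b).symm
  have mono : ∀ a b : ℝ, a ≤ b → T ^ a ≤ T ^ b := fun a b h =>
    Real.rpow_le_rpow_of_exponent_le hTone h
  have pos : ∀ a : ℝ, 0 < T ^ a := fun a => Real.rpow_pos_of_pos hT0 a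
  obtain ⟨hq0, hk12, ht1, ht2⟩ := hres
  -- membership
  simp only [box, Finset.mem_product, Finset.mem_Ico] at hk
  obtain ⟨⟨k1, -⟩, ⟨k2, -⟩, ⟨k3, k3K⟩⟩ := hk
  have hk3 : (k.2.2 : ℝ) ≤ T ^ (0.526 : ℝ) := by
    unfold KK at k3K
    have h1 : (k.2.2 : ℝ) < T ^ (1 / 2 + 2 * η + 4 * ε) := Nat.lt_ceil.mp k3K
    exact h1.le.trans (mono _ _ (by linarith))
  have hx : 0 < Real.sqrt (k.1 : ℝ) := Real.sqrt_pos.mpr (by exact_mod_cast k1)
  have hy : 0 < Real.sqrt (k.2.1 : ℝ) := Real.sqrt_pos.mpr (by exact_mod_cast k2)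
  have hz : 0 < Real.sqrt (k.2.2 : ℝ) := Real.sqrt_pos.mpr (by exact_mod_cast k3)
  have hxx : Real.sqrt (k.1 : ℝ) * Real.sqrt (k.1 : ℝ) = k.1 := Real.mul_self_sqrt (by positivity)
  have hyy : Real.sqrt (k.2.1 : ℝ) * Real.sqrt (k.2.1 : ℝ) = k.2.1 :=
    Real.mul_self_sqrt (by positivity)
  have hzz : Real.sqrt (k.2.2 : ℝ) * Real.sqrt (k.2.2 : ℝ) = k.2.2 :=
    Real.mul_self_sqrt (by positivity)
  have hQ0 : (0 : ℝ) < ((q k : ℤ) : ℝ) := by exact_mod_cast hq0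
  have hqk' : T ^ (3 / 10 : ℝ) < ((q k : ℤ) : ℝ) := by
    rwa [abs_of_pos hQ0] at hqk
  have hQeq : ((q k : ℤ) : ℝ) = ((Real.sqrt k.2.2 * Real.sqrt k.2.2 -
      Real.sqrt k.1 * Real.sqrt k.1 - Real.sqrt k.2.1 * Real.sqrt k.2.1) ^ 2 -
      4 * (Real.sqrt k.1 * Real.sqrt k.1) * (Real.sqrt k.2.1 * Real.sqrt k.2.1)) := by
    unfold q; push_cast; rw [hxx, hyy, hzz]
  have htdef : t0 k * ((q k : ℤ) : ℝ) =
      2 * Real.pi * (Real.sqrt k.1 * Real.sqrt k.2.1 * Real.sqrt k.2.2) ^ 2 := by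
    unfold t0
    rw [div_mul_cancel₀ _ hQ0.ne', mul_pow, mul_pow, pow_two, pow_two, pow_two, hxx, hyy, hzz]
  have hlt : (k.1 : ℝ) + k.2.1 < k.2.2 := by exact_mod_cast hk12
  have hk1z : (k.1 : ℝ) ≤ k.2.2 := by
    have : (0 : ℝ) ≤ k.2.1 := by positivity
    linarith
  have hk2z : (k.2.1 : ℝ) ≤ k.2.2 := by
    have : (0 : ℝ) ≤ k.1 := by positivity
    linarith
  set x := Real.sqrt (k.1 : ℝ) with hxdef
  set y := Real.sqrt (k.2.1 : ℝ) with hydef
  set z := Real.sqrt (k.2.2 : ℝ) with hzdef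
  set Q := ((q k : ℤ) : ℝ) with hQdef
  have hxz : x ≤ z := Real.sqrt_le_sqrt hk1z
  have hyz : y ≤ z := Real.sqrt_le_sqrt hk2z
  -- d
  have hkR : x * x + y * y < z * z := by rw [hxx, hyy, hzz]; exact hlt
  have hd0 : 0 < z - x - y := by
    have h1 : (2 * (x * y)) ^ 2 < (z * z - x * x - y * y) ^ 2 := by
      rw [hQeq] at hQ0
      have e : (z * z - x * x - y * y) ^ 2 - 4 * (x * x) * (y * y) =
          (z * z - x * x - y * y) ^ 2 - (2 * (x * y)) ^ 2 := by ring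
      rw [e] at hQ0
      exact sub_pos.mp hQ0
    have h2 : 2 * (x * y) < z * z - x * x - y * y :=
      lt_of_pow_lt_pow_left₀ 2 (by linarith) h1
    have h3 : (x + y) ^ 2 < z ^ 2 := by
      have e1 : (x + y) ^ 2 = x * x + y * y + 2 * (x * y) := by ring
      rw [e1, pow_two]; linarith
    have h4 : x + y < z := lt_of_pow_lt_pow_left₀ 2 hz.le h3
    linarith
  have hQlow : 4 * (x * y * z) * (z - x - y) ≤ Q := by
    obtain ⟨d, hd⟩ : ∃ d, d = z - x - y := ⟨_, rfl⟩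
    have hzd : z = x + y + d := by rw [hd]; ring
    rw [← hd] at hd0 ⊢
    have h1 : Q = d * (2 * (x + y) + d) * ((2 * x + d) * (2 * y + d)) := by
      rw [hQeq, hzd]; ring
    have h2 : 4 * (x * y) ≤ (2 * x + d) * (2 * y + d) := by
      have e : (2 * x + d) * (2 * y + d) = 4 * (x * y) + 2 * (x * d) + 2 * (y * d) + d * d := by
        ring
      rw [e]
      linarith [mul_pos hx hd0, mul_pos hy hd0, mul_pos hd0 hd0]
    have h3 : d * z ≤ d * (2 * (x + y) + d) := by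
      apply mul_le_mul_of_nonneg_left _ hd0.le
      rw [hzd]; linarith
    calc 4 * (x * y * z) * d = (d * z) * (4 * (x * y)) := by ring
      _ ≤ (d * (2 * (x + y) + d)) * ((2 * x + d) * (2 * y + d)) :=
        mul_le_mul h3 h2 (by positivity) (by positivity)
      _ = Q := h1.symm
  have hxyz : 0 < x * y * z := by positivity
  have ht0 : 0 < t0 k := lt_of_lt_of_le (pos _) ht1
  have ht1' : T ^ (0.9975 : ℝ) ≤ t0 k := (mono _ _ (by linarith)).trans ht1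
  have ht2' : t0 k ≤ T ^ (1.0025 : ℝ) := ht2.trans (mono _ _ (by linarith))
  set t := t0 k with htt
  have hpi := Real.pi_pos
  have hpi3 := Real.pi_gt_three
  have hpi4 : Real.pi < 3.15 := Real.pi_lt_d2
  -- kappa
  obtain ⟨κ, hκdef⟩ : ∃ κ, κ = Real.pi / 2 * (z * z) / t := ⟨_, rfl⟩
  have hκ : z * (z - x - y) ≤ κ * (x * y) := by
    have h1 : 4 * (x * y * z) * (z - x - y) * t ≤ 2 * Real.pi * (x * y * z) ^ 2 := by
      rw [← htdef, mul_comm t]
      exact mul_le_mul_of_nonneg_right hQlow ht0.le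
    have h2 : (z - x - y) * t ≤ Real.pi / 2 * (x * y * z) := by
      have h3 : (4 * (x * y * z)) * ((z - x - y) * t) ≤
          (4 * (x * y * z)) * (Real.pi / 2 * (x * y * z)) := by
        calc (4 * (x * y * z)) * ((z - x - y) * t) = 4 * (x * y * z) * (z - x - y) * t := by ring
          _ ≤ 2 * Real.pi * (x * y * z) ^ 2 := h1
          _ = _ := by ring
      exact le_of_mul_le_mul_left h3 (by positivity)
    rw [hκdef, div_mul_eq_mul_div, le_div_iff₀ ht0]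
    calc z * (z - x - y) * t = z * ((z - x - y) * t) := by ring
      _ ≤ z * (Real.pi / 2 * (x * y * z)) := mul_le_mul_of_nonneg_left h2 hz.le
      _ = _ := by ring
  have hκ0 : 0 ≤ κ := by rw [hκdef]; positivity
  have hκT : κ ≤ 1.6 * T ^ (-0.4715 : ℝ) := by
    rw [hκdef, div_le_iff₀ ht0]
    have h1 : Real.pi / 2 * (z * z) ≤ 1.6 * T ^ (0.526 : ℝ) := by
      rw [hzz]
      exact mul_le_mul (by linarith) hk3 (by positivity) (by norm_num)
    have h2 : 1.6 * T ^ (0.526 : ℝ) = 1.6 * T ^ (-0.4715 : ℝ) * T ^ (0.9975 : ℝ) := by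
      rw [mul_assoc, pw]; norm_num
    calc Real.pi / 2 * (z * z) ≤ 1.6 * T ^ (0.526 : ℝ) := h1
      _ = 1.6 * T ^ (-0.4715 : ℝ) * T ^ (0.9975 : ℝ) := h2
      _ ≤ 1.6 * T ^ (-0.4715 : ℝ) * t := mul_le_mul_of_nonneg_left ht1' (by positivity)
  have hκ1 : κ ≤ 1 / 4 := by
    have h1 : T ^ (-0.4715 : ℝ) * T ^ (0.4715 : ℝ) = 1 := by rw [pw]; norm_num
    have h2 : 227 ≤ T ^ (0.4715 : ℝ) := hTbig.trans (mono _ _ (by norm_num))
    have h3 : T ^ (-0.4715 : ℝ) * 227 ≤ 1 := by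
      rw [← h1]; exact mul_le_mul_of_nonneg_left h2 (pos _).le
    linarith
  have hcore := B09_core hT0 (show 0 ≤ GG η T by unfold GG; positivity) k k1 k2 hq0 hk12 hκ hκ1
  rw [← htt, ← hQdef] at hcore
  -- sizes
  have hX : Real.sqrt T = T ^ (0.5 : ℝ) := by rw [Real.sqrt_eq_rpow]; norm_num
  have hy0hi : Real.sqrt t ≤ T ^ (0.50125 : ℝ) := by
    rw [Real.sqrt_le_left (pos _).le, pow_two, pw]
    exact ht2'.trans (mono _ _ (by norm_num))
  have hy0lo : T ^ (0.49875 : ℝ) ≤ Real.sqrt t := by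
    apply Real.le_sqrt_of_sq_le
    rw [pow_two, pw]
    exact (mono _ _ (by norm_num)).trans ht1'
  have hy00 : 0 < Real.sqrt t := Real.sqrt_pos.mpr ht0
  have hsQ : T ^ (0.15 : ℝ) ≤ Real.sqrt Q := by
    apply Real.le_sqrt_of_sq_le
    rw [pow_two, pw]
    exact (mono _ _ (by norm_num)).trans hqk'.le
  have hsQ0 : 0 < Real.sqrt Q := Real.sqrt_pos.mpr hQ0
  have hzT : z ≤ T ^ (0.263 : ℝ) := by
    rw [hzdef, Real.sqrt_le_left (pos _).le, pow_two, pw]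
    exact hk3.trans (mono _ _ (by norm_num))
  have hγ : ga (GG η T) k ≤ 6 * T ^ (0.513 : ℝ) := by
    unfold ga
    rw [← hxdef, ← hydef, ← hzdef]
    have h1 : GG η T ≤ T ^ (0.25 : ℝ) := by
      unfold GG; exact mono _ _ (by linarith)
    have h2 : Real.sqrt (2 * Real.pi) ≤ 3 := by
      rw [Real.sqrt_le_left (by norm_num)]; linarith
    have h3 : x + y + z ≤ 2 * T ^ (0.263 : ℝ) := by linarith
    calc GG η T * Real.sqrt (2 * Real.pi) * (x + y + z)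
        ≤ (T ^ (0.25 : ℝ) * 3) * (2 * T ^ (0.263 : ℝ)) := by
          apply mul_le_mul _ h3 (by positivity) (by positivity)
          exact mul_le_mul h1 h2 (by positivity) (by positivity)
      _ = 6 * (T ^ (0.25 : ℝ) * T ^ (0.263 : ℝ)) := by ring
      _ = _ := by rw [pw]; norm_num
  have hγ0 : 0 ≤ ga (GG η T) k := by
    unfold ga GG
    positivity
  set γ := ga (GG η T) k with hγdef
  have hX0 : 0 < Real.sqrt T := Real.sqrt_pos.mpr hT0
  have one_le : ∀ a : ℝ, 0 ≤ a → 1 ≤ T ^ a := fun a ha => Real.one_le_rpow hTone ha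
  have hγX : γ / Real.sqrt T ≤ 6 * T ^ (0.013 : ℝ) := by
    rw [div_le_iff₀ hX0, hX, mul_assoc, pw]
    refine hγ.trans (le_of_eq ?_); norm_num
  have hγy : γ / Real.sqrt t ≤ 6 * T ^ (0.01425 : ℝ) := by
    rw [div_le_iff₀ hy00]
    calc γ ≤ 6 * T ^ (0.513 : ℝ) := hγ
      _ = 6 * T ^ (0.01425 : ℝ) * T ^ (0.49875 : ℝ) := by rw [mul_assoc, pw]; norm_num
      _ ≤ _ := mul_le_mul_of_nonneg_left hy0lo (by positivity)
  have hs1 : Real.sqrt (t / T) ≤ T ^ (0.01425 : ℝ) := by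
    rw [Real.sqrt_div ht0.le, div_le_iff₀ hX0, hX, pw]
    exact hy0hi.trans (mono _ _ (by norm_num))
  have hs2 : Real.sqrt (T / t) ≤ T ^ (0.01425 : ℝ) := by
    rw [Real.sqrt_div hT0.le, div_le_iff₀ hy00, hX]
    calc T ^ (0.5 : ℝ) ≤ T ^ (0.01425 : ℝ) * T ^ (0.49875 : ℝ) := by
          rw [pw]; exact mono _ _ (by norm_num)
      _ ≤ _ := mul_le_mul_of_nonneg_left hy0lo (pos _).le
  obtain ⟨s, hs⟩ : ∃ s, s = Real.sqrt (t / T) + Real.sqrt (T / t) + γ / Real.sqrt t := ⟨_, rfl⟩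
  rw [← hs] at hcore
  have hs0 : 0 ≤ s := by rw [hs]; positivity
  have hsT : s ≤ 8 * T ^ (0.01425 : ℝ) := by rw [hs]; linarith
  have hss : s ^ 2 ≤ 64 * T ^ (0.0285 : ℝ) := by
    calc s ^ 2 ≤ (8 * T ^ (0.01425 : ℝ)) ^ 2 := pow_le_pow_left₀ hs0 hsT 2
      _ = 64 * (T ^ (0.01425 : ℝ) * T ^ (0.01425 : ℝ)) := by ring
      _ = _ := by rw [pw]; norm_num
  have hnum : 1 + γ / Real.sqrt T + s ^ 2 ≤ 71 * T ^ (0.0285 : ℝ) := by
    have h1 := one_le 0.0285 (by norm_num)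
    have h2 := mono 0.013 0.0285 (by norm_num)
    linarith
  have b1 : 3 * Real.sqrt t / (Real.sqrt T * Real.sqrt Q) ≤ 3 * T ^ (-0.1215 : ℝ) := by
    rw [div_le_iff₀ (mul_pos hX0 hsQ0)]
    calc 3 * Real.sqrt t ≤ 3 * T ^ (0.50125 : ℝ) := mul_le_mul_of_nonneg_left hy0hi (by norm_num)
      _ ≤ 3 * (T ^ (-0.1215 : ℝ) * (T ^ (0.5 : ℝ) * T ^ (0.15 : ℝ))) := by
          rw [pw, pw]; exact mul_le_mul_of_nonneg_left (mono _ _ (by norm_num)) (by norm_num)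
      _ ≤ 3 * (T ^ (-0.1215 : ℝ) * (T ^ (0.5 : ℝ) * Real.sqrt Q)) := by
          apply mul_le_mul_of_nonneg_left _ (by norm_num)
          apply mul_le_mul_of_nonneg_left _ (pos _).le
          exact mul_le_mul_of_nonneg_left hsQ (pos _).le
      _ = _ := by rw [hX]; ring
  have b2 : κ / 2 ≤ 0.8 * T ^ (-0.1215 : ℝ) := by
    have := mono (-0.4715) (-0.1215) (by norm_num)
    linarith
  have b3 : 2 * ((1 + γ / Real.sqrt T + s ^ 2) / Real.sqrt Q) ≤ 142 * T ^ (-0.1215 : ℝ) := by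
    have h1 : (1 + γ / Real.sqrt T + s ^ 2) / Real.sqrt Q ≤ 71 * T ^ (-0.1215 : ℝ) := by
      rw [div_le_iff₀ hsQ0]
      calc 1 + γ / Real.sqrt T + s ^ 2 ≤ 71 * T ^ (0.0285 : ℝ) := hnum
        _ = 71 * T ^ (-0.1215 : ℝ) * T ^ (0.15 : ℝ) := by rw [mul_assoc, pw]; norm_num
        _ ≤ _ := mul_le_mul_of_nonneg_left hsQ (by positivity)
    linarith
  have hQT : Real.sqrt Q ≤ 3 * T ^ (0.29025 : ℝ) := by
    rw [Real.sqrt_le_left (by positivity)]
    have h1 : t * Q ≤ T ^ (0.9975 : ℝ) * (9 * T ^ (0.5805 : ℝ)) := by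
      rw [htdef]
      have h2 : (x * y * z) ^ 2 ≤ T ^ (0.263 : ℝ) * T ^ (0.263 : ℝ) * T ^ (0.263 : ℝ) *
          (T ^ (0.263 : ℝ) * T ^ (0.263 : ℝ) * T ^ (0.263 : ℝ)) := by
        have h3 : x * y * z ≤ T ^ (0.263 : ℝ) * T ^ (0.263 : ℝ) * T ^ (0.263 : ℝ) := by
          apply mul_le_mul _ hzT hz.le (by positivity)
          exact mul_le_mul (hxz.trans hzT) (hyz.trans hzT) hy.le (pos _).le
        rw [pow_two]
        exact mul_le_mul h3 h3 hxyz.le (by positivity)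
      calc 2 * Real.pi * (x * y * z) ^ 2 ≤ 9 * (T ^ (0.263 : ℝ) * T ^ (0.263 : ℝ) *
            T ^ (0.263 : ℝ) * (T ^ (0.263 : ℝ) * T ^ (0.263 : ℝ) * T ^ (0.263 : ℝ))) :=
            mul_le_mul (by linarith) h2 (by positivity) (by norm_num)
        _ = _ := by
          simp only [pw]
          rw [mul_left_comm, pw]; norm_num
    have h4 : T ^ (0.9975 : ℝ) * Q ≤ T ^ (0.9975 : ℝ) * (9 * T ^ (0.5805 : ℝ)) :=
      (mul_le_mul_of_nonneg_right ht1' hQ0.le).trans h1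
    have h5 := le_of_mul_le_mul_left h4 (pos _)
    refine h5.trans (le_of_eq ?_)
    rw [mul_pow, pow_two (T ^ (0.29025 : ℝ)), pw]; norm_num
  have b4 : 7 * κ * Real.sqrt Q ≤ 34 * T ^ (-0.1215 : ℝ) := by
    calc 7 * κ * Real.sqrt Q ≤ 7 * (1.6 * T ^ (-0.4715 : ℝ)) * (3 * T ^ (0.29025 : ℝ)) := by
          apply mul_le_mul _ hQT hsQ0.le (by positivity)
          exact mul_le_mul_of_nonneg_left hκT (by norm_num)
      _ = 33.6 * (T ^ (-0.4715 : ℝ) * T ^ (0.29025 : ℝ)) := by ring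
      _ ≤ 33.6 * T ^ (-0.1215 : ℝ) := by
          rw [pw]; exact mul_le_mul_of_nonneg_left (mono _ _ (by norm_num)) (by norm_num)
      _ ≤ _ := by
          have := pos (-0.1215)
          linarith
  have b5 : 4 * κ * s ≤ 52 * T ^ (-0.1215 : ℝ) := by
    calc 4 * κ * s ≤ 4 * (1.6 * T ^ (-0.4715 : ℝ)) * (8 * T ^ (0.01425 : ℝ)) := by
          apply mul_le_mul _ hsT hs0 (by positivity)
          exact mul_le_mul_of_nonneg_left hκT (by norm_num)
      _ = 51.2 * (T ^ (-0.4715 : ℝ) * T ^ (0.01425 : ℝ)) := by ring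
      _ ≤ 51.2 * T ^ (-0.1215 : ℝ) := by
          rw [pw]; exact mul_le_mul_of_nonneg_left (mono _ _ (by norm_num)) (by norm_num)
      _ ≤ _ := by
          have := pos (-0.1215)
          linarith
  have hm0 : 0 ≤ ((k.1 : ℝ) * k.2.1 * k.2.2) ^ (-(1 / 4) : ℝ) := Real.rpow_nonneg (by positivity) _
  have hconst : Real.sqrt 2 * (2 * Real.pi) ^ (-(1 / 4) : ℝ) ≤ 0.95 := by
    have h1 : 0 ≤ Real.sqrt 2 * (2 * Real.pi) ^ (-(1 / 4) : ℝ) := by positivity
    have h2 : (Real.sqrt 2 * (2 * Real.pi) ^ (-(1 / 4) : ℝ)) ^ 4 = 4 / (2 * Real.pi) := by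
      rw [mul_pow, ← Real.rpow_natCast ((2 * Real.pi) ^ (-(1 / 4) : ℝ)) 4,
        ← Real.rpow_mul (by positivity)]
      have h3 : (Real.sqrt 2) ^ 4 = 4 := by
        have : (Real.sqrt 2) ^ 4 = ((Real.sqrt 2) ^ 2) ^ 2 := by ring
        rw [this, Real.sq_sqrt (by norm_num)]; norm_num
      rw [h3]
      have h4 : (-(1 / 4) : ℝ) * ((4 : ℕ) : ℝ) = -1 := by norm_num
      rw [h4, Real.rpow_neg_one]; ring
    have h5 : (Real.sqrt 2 * (2 * Real.pi) ^ (-(1 / 4) : ℝ)) ^ 4 ≤ 0.95 ^ 4 := by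
      rw [h2, div_le_iff₀ (by positivity)]
      have e : (0.95 : ℝ) ^ 4 = 0.81450625 := by norm_num
      rw [e]; linarith
    exact le_of_pow_le_pow_left₀ (by norm_num) (by norm_num) h5
  refine hcore.trans ?_
  have hsum : 3 * Real.sqrt t / (Real.sqrt T * Real.sqrt Q) + κ / 2 +
      2 * ((1 + γ / Real.sqrt T + s ^ 2) / Real.sqrt Q) + 7 * κ * Real.sqrt Q + 4 * κ * s ≤
      232 * T ^ (-0.1215 : ℝ) := by
    have := pos (-0.1215)
    linarith
  have hA : Real.sqrt 2 * (2 * Real.pi) ^ (-(1 / 4) : ℝ) *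
      ((k.1 : ℝ) * k.2.1 * k.2.2) ^ (-(1 / 4) : ℝ) * Real.sqrt t ≤
      0.95 * ((k.1 : ℝ) * k.2.1 * k.2.2) ^ (-(1 / 4) : ℝ) * T ^ (0.50125 : ℝ) := by
    apply mul_le_mul _ hy0hi (Real.sqrt_nonneg _) (by positivity)
    exact mul_le_mul_of_nonneg_right hconst hm0
  calc _ ≤ (0.95 * ((k.1 : ℝ) * k.2.1 * k.2.2) ^ (-(1 / 4) : ℝ) * T ^ (0.50125 : ℝ)) *
      (232 * T ^ (-0.1215 : ℝ)) := by
        apply mul_le_mul hA hsum (by positivity) (by positivity)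
    _ = (220.4 * (T ^ (0.50125 : ℝ) * T ^ (-0.1215 : ℝ))) *
        ((k.1 : ℝ) * k.2.1 * k.2.2) ^ (-(1 / 4) : ℝ) := by ring
    _ ≤ T ^ (1 / 2 - 1 / 10 : ℝ) * ((k.1 : ℝ) * k.2.1 * k.2.2) ^ (-(1 / 4) : ℝ) := by
        apply mul_le_mul_of_nonneg_right _ hm0
        rw [pw]
        calc 220.4 * T ^ (0.50125 + -0.1215 : ℝ) ≤ T ^ (0.02025 : ℝ) * T ^ (0.50125 + -0.1215 : ℝ) :=
              mul_le_mul_of_nonneg_right (by linarith) (pos _).le
          _ = _ := by rw [pw]; norm_num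

theorem E3main_le {T G : ℝ} (hT : 0 < T) (hG : 0 ≤ G) (k : ℕ × ℕ × ℕ) (hq : 0 < q k) :
    ‖E3main T G k‖ ≤ 2 * T ^ (1 / 2 : ℝ) * (k.1 * k.2.1 * k.2.2 : ℝ) ^ (-(1 / 4) : ℝ) := by
  have hQ0 : (0 : ℝ) < ((q k : ℤ) : ℝ) := by exact_mod_cast hq
  have ht0 : 0 ≤ t0 k := by unfold t0; positivity
  have hm0 : 0 ≤ ((k.1 : ℝ) * k.2.1 * k.2.2) ^ (-(1 / 4) : ℝ) := Real.rpow_nonneg (by positivity) _
  have hγ0 : 0 ≤ ga G k := by unfold ga; positivity
  unfold E3main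
  rw [norm_mul]
  have h1 : ‖cexp (-(I * ((Real.pi / 4 + Real.pi * Real.sqrt (q k : ℝ) : ℝ) : ℂ)))‖ = 1 := by
    rw [show -(I * ((Real.pi / 4 + Real.pi * Real.sqrt (q k : ℝ) : ℝ) : ℂ)) =
      ((-(Real.pi / 4 + Real.pi * Real.sqrt (q k : ℝ)) : ℝ) : ℂ) * I by push_cast; ring]
    exact Complex.norm_exp_ofReal_mul_I _
  rw [h1, mul_one, Complex.norm_real, Real.norm_eq_abs, abs_of_nonneg (by positivity)]
  have hc : Real.sqrt 2 * (2 * Real.pi) ^ (-(1 / 4) : ℝ) ≤ 2 := by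
    have h2 : Real.sqrt 2 ≤ 2 := by
      rw [Real.sqrt_le_left (by norm_num)]; norm_num
    have h3 : (2 * Real.pi) ^ (-(1 / 4) : ℝ) ≤ 1 := by
      apply Real.rpow_le_one_of_one_le_of_nonpos
      · linarith [Real.pi_gt_three]
      · norm_num
    calc Real.sqrt 2 * (2 * Real.pi) ^ (-(1 / 4) : ℝ) ≤ 2 * 1 :=
          mul_le_mul h2 h3 (by positivity) (by norm_num)
      _ = 2 := by norm_num
  have he : Real.sqrt (t0 k) * Real.exp (-(Real.sqrt (t0 k / T)) - Real.sqrt (T / t0 k) -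
      ga G k / Real.sqrt (t0 k)) ≤ T ^ (1 / 2 : ℝ) := by
    have h2 : Real.exp (-(Real.sqrt (t0 k / T)) - Real.sqrt (T / t0 k) -
      ga G k / Real.sqrt (t0 k)) ≤ Real.exp (-(Real.sqrt (t0 k / T))) := by
      apply Real.exp_le_exp.mpr
      have h3 : 0 ≤ Real.sqrt (T / t0 k) := Real.sqrt_nonneg _
      have h4 : 0 ≤ ga G k / Real.sqrt (t0 k) := by positivity
      linarith
    have h5 : Real.sqrt (t0 k) = Real.sqrt (t0 k / T) * T ^ (1 / 2 : ℝ) := by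
      rw [← Real.sqrt_eq_rpow, ← Real.sqrt_mul (by positivity)]
      congr 1; field_simp
    have h6 : Real.sqrt (t0 k / T) * Real.exp (-(Real.sqrt (t0 k / T))) ≤ 1 := by
      rw [Real.exp_neg, mul_inv_le_iff₀ (Real.exp_pos _), one_mul]
      linarith [Real.add_one_le_exp (Real.sqrt (t0 k / T))]
    calc _ ≤ Real.sqrt (t0 k) * Real.exp (-(Real.sqrt (t0 k / T))) :=
          mul_le_mul_of_nonneg_left h2 (Real.sqrt_nonneg _)
      _ = (Real.sqrt (t0 k / T) * Real.exp (-(Real.sqrt (t0 k / T)))) * T ^ (1 / 2 : ℝ) := by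
          nth_rw 1 [h5]; ring
      _ ≤ 1 * T ^ (1 / 2 : ℝ) := mul_le_mul_of_nonneg_right h6 (by positivity)
      _ = _ := one_mul _
  calc _ = (Real.sqrt 2 * (2 * Real.pi) ^ (-(1 / 4) : ℝ)) *
        (((k.1 : ℝ) * k.2.1 * k.2.2) ^ (-(1 / 4) : ℝ) *
        (Real.sqrt (t0 k) * Real.exp (-(Real.sqrt (t0 k / T)) - Real.sqrt (T / t0 k) -
      ga G k / Real.sqrt (t0 k)))) := by ring
    _ ≤ 2 * (((k.1 : ℝ) * k.2.1 * k.2.2) ^ (-(1 / 4) : ℝ) * T ^ (1 / 2 : ℝ)) := by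
        apply mul_le_mul hc _ (by positivity) (by norm_num)
        exact mul_le_mul_of_nonneg_left he hm0
    _ = _ := by ring

end U6
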