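import Pool.Agent.Lib.MP_39df77_nt.U6.B06
import Pool.Agent.Lib.MP_39df77_nt.U6.B07
import Pool.Agent.Lib.MP_39df77_nt.U6.B08
import Pool.Agent.Lib.MP_39df77_nt.U6.B09
import Pool.Agent.Lib.MP_39df77_nt.U6.B10
/-! B12: third moment of `2 Re Y`: `(2 Re Y)³ = 2 Re (Y³ + 3 Y² conj Y)`, B07; small `|q|`: E3_le + cnt_small; non-resonant: B08;
resonant: E3_main + cnt_res, and the sum of the main terms over all resonant triples (`MainAt`); `d(k) ≤ C k^{ε/3}`. -/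
open Complex MeasureTheory Set
namespace U6

/-- product of the three variables -/
noncomputable def B12_pr (k : ℕ × ℕ × ℕ) : ℝ := (k.1 * k.2.1 * k.2.2 : ℝ)

lemma B12_pr_ge {K : ℕ} {k : ℕ × ℕ × ℕ} (hk : k ∈ box K) : 1 ≤ B12_pr k := by
  simp only [box, Finset.mem_product, Finset.mem_Ico] at hk
  obtain ⟨⟨h1, _⟩, ⟨h2, _⟩, ⟨h3, _⟩⟩ := hk
  have h1' : (1 : ℝ) ≤ k.1 := by exact_mod_cast h1
  have h2' : (1 : ℝ) ≤ k.2.1 := by exact_mod_cast h2
  have h3' : (1 : ℝ) ≤ k.2.2 := by exact_mod_cast h3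
  unfold B12_pr
  have : (1 : ℝ) ≤ k.1 * k.2.1 := by nlinarith
  nlinarith

lemma B12_cf_le {K : ℕ} {C e : ℝ} (he : 0 ≤ e) (hC : 0 < C)
    (hd : ∀ k : ℕ, 1 ≤ k → (dv k : ℝ) ≤ C * (k : ℝ) ^ e) {k : ℕ × ℕ × ℕ} (hk : k ∈ box K) :
    ‖cf k‖ ≤ (C * (K : ℝ) ^ e) ^ 3 * B12_pr k ^ (-(1 / 4) : ℝ) := by
  have hk' := hk
  simp only [box, Finset.mem_product, Finset.mem_Ico] at hk
  obtain ⟨⟨h1, h1'⟩, ⟨h2, h2'⟩, ⟨h3, h3'⟩⟩ := hk
  have hb : ∀ j : ℕ, 1 ≤ j → j < K → (dv j : ℝ) ≤ C * (K : ℝ) ^ e := by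
    intro j hj hjK
    refine (hd j hj).trans ?_
    apply mul_le_mul_of_nonneg_left _ hC.le
    exact Real.rpow_le_rpow (by positivity) (by exact_mod_cast hjK.le) he
  have hpos : 0 ≤ B12_pr k ^ (-(1 / 4) : ℝ) := Real.rpow_nonneg (by linarith [B12_pr_ge hk']) _
  have hn : ‖cf k‖ = (dv k.1 : ℝ) * dv k.2.1 * dv k.2.2 * B12_pr k ^ (-(1 / 4) : ℝ) := by
    have hpos' : 0 ≤ ((k.1 : ℝ) * k.2.1 * k.2.2) ^ (-(1 / 4) : ℝ) := hpos
    unfold cf
    rw [norm_mul, norm_mul, norm_pow, norm_neg, norm_one, one_pow, one_mul, Complex.norm_natCast,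
      Complex.norm_real, Real.norm_of_nonneg hpos']
    push_cast
    rfl
  rw [hn]
  apply mul_le_mul_of_nonneg_right _ hpos
  have a1 := hb _ h1 h1'
  have a2 := hb _ h2 h2'
  have a3 := hb _ h3 h3'
  have hK : 0 ≤ C * (K : ℝ) ^ e := by positivity
  calc (dv k.1 : ℝ) * dv k.2.1 * dv k.2.2 ≤ (C * (K : ℝ) ^ e) * (C * (K : ℝ) ^ e) * (C * (K : ℝ) ^ e) := by
        gcongr
    _ = _ := by ring

lemma B12_KK_le (η ε : ℝ) (hη1 : η ≤ 1 / 80) (hε : 0 < ε) (hε1 : ε ≤ η / 100) :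
    ∀ᶠ T : ℝ in Filter.atTop, (KK η ε T : ℝ) ≤ T := by
  have h1 : ∀ᶠ T : ℝ in Filter.atTop, T ^ (2 / 3 : ℝ) + 1 ≤ T := by
    have h2 : ∀ᶠ T : ℝ in Filter.atTop, (8 : ℝ) ≤ T ∧ (8:ℝ) ≤ T ^ (1 / 3 : ℝ) :=
      (Filter.eventually_ge_atTop 8).and ((tendsto_rpow_atTop (by norm_num : (0:ℝ) < 1/3)).eventually_ge_atTop 8)
    filter_upwards [h2] with T hT
    have h3 : T ^ (2 / 3 : ℝ) * T ^ (1 / 3 : ℝ) = T := by
      rw [← Real.rpow_add (by linarith)]; norm_num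
    have h4 : 0 ≤ T ^ (2 / 3 : ℝ) := Real.rpow_nonneg (by linarith) _
    nlinarith [hT.1, hT.2]
  filter_upwards [h1, Filter.eventually_ge_atTop 1] with T hT hT1
  have h2 : T ^ (1 / 2 + 2 * η + 4 * ε) ≤ T ^ (2 / 3 : ℝ) :=
    Real.rpow_le_rpow_of_exponent_le hT1 (by linarith)
  have h3 : (KK η ε T : ℝ) < T ^ (1 / 2 + 2 * η + 4 * ε) + 1 := Nat.ceil_lt_add_one (Real.rpow_nonneg (by linarith) _)
  linarith

lemma B12_exp (ε : ℝ) (hε : 0 < ε) : ∀ᶠ T : ℝ in Filter.atTop, T ^ (10 : ℕ) * Real.exp (-(T ^ ε)) ≤ 1 := by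
  have h1 := (isLittleO_log_rpow_atTop hε)
  have h2 : ∀ᶠ T : ℝ in Filter.atTop, ‖Real.log T‖ ≤ (1 / 10) * ‖T ^ ε‖ := h1.bound (by norm_num)
  filter_upwards [h2, Filter.eventually_ge_atTop 1] with T hT hT1
  have h3 : 0 ≤ Real.log T := Real.log_nonneg hT1
  have h4 : 0 ≤ T ^ ε := Real.rpow_nonneg (by linarith) _
  rw [Real.norm_of_nonneg h3, Real.norm_of_nonneg h4] at hT
  have h5 : T ^ (10 : ℕ) = Real.exp (10 * Real.log T) := by
    rw [show (10 : ℝ) * Real.log T = Real.log (T ^ 10) by rw [Real.log_pow]; norm_num,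
      Real.exp_log (by positivity)]
  rw [h5, ← Real.exp_add]
  apply Real.exp_le_one_iff.2
  linarith

lemma B12_card_box (K : ℕ) : ((box K).card : ℝ) ≤ (K : ℝ) ^ 3 := by
  unfold box
  rw [Finset.card_product, Finset.card_product, Nat.card_Ico]
  push_cast
  have : ((K - 1 : ℕ) : ℝ) ≤ K := by exact_mod_cast Nat.sub_le K 1
  have h0 : (0 : ℝ) ≤ ((K - 1 : ℕ) : ℝ) := by positivity
  calc ((K - 1 : ℕ) : ℝ) * (((K - 1 : ℕ) : ℝ) * ((K - 1 : ℕ) : ℝ)) ≤ (K : ℝ) * (K * K) := by gcongr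
    _ = _ := by ring

lemma B12_dv_le (k : ℕ) : (dv k : ℝ) ≤ k := by
  unfold dv
  exact_mod_cast Nat.card_divisors_le_self k

/-- crude bound for sums against a tiny factor -/
lemma B12_tiny {K : ℕ} {T ε : ℝ} (hT : 1 ≤ T) (hK : (K : ℝ) ≤ T) (s : Finset (ℕ × ℕ × ℕ)) (hs : s ⊆ box K)
    {E : ℕ × ℕ × ℕ → ℂ} (hE : ∀ k ∈ s, ‖E k‖ ≤ Real.exp (-(T ^ ε)))
    (hx : T ^ (10 : ℕ) * Real.exp (-(T ^ ε)) ≤ 1) : ‖∑ k ∈ s, cf k * E k‖ ≤ 1 := by
  have h1 : ∀ k ∈ s, ‖cf k * E k‖ ≤ T ^ 3 * Real.exp (-(T ^ ε)) := by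
    intro k hk
    rw [norm_mul]
    have h2 := B12_cf_le (K := K) (C := 1) (e := 1) (by norm_num) (by norm_num)
      (fun j _ => by rw [one_mul, Real.rpow_one]; exact B12_dv_le j) (hs hk)
    have h3 : B12_pr k ^ (-(1 / 4) : ℝ) ≤ 1 := Real.rpow_le_one_of_one_le_of_nonpos (B12_pr_ge (hs hk)) (by norm_num)
    have h4 : ‖cf k‖ ≤ T ^ 3 := by
      refine h2.trans ?_
      rw [one_mul, Real.rpow_one]
      have h5 : (K : ℝ) ^ 3 ≤ T ^ 3 := by gcongr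
      have h6 : 0 ≤ (K : ℝ) ^ 3 := by positivity
      calc (K : ℝ) ^ 3 * B12_pr k ^ (-(1 / 4) : ℝ) ≤ (K : ℝ) ^ 3 * 1 := mul_le_mul_of_nonneg_left h3 h6
        _ ≤ T ^ 3 := by rw [mul_one]; exact h5
    exact mul_le_mul h4 (hE k hk) (norm_nonneg _) (by positivity)
  calc ‖∑ k ∈ s, cf k * E k‖ ≤ ∑ k ∈ s, ‖cf k * E k‖ := norm_sum_le _ _
    _ ≤ ∑ k ∈ s, T ^ 3 * Real.exp (-(T ^ ε)) := Finset.sum_le_sum h1
    _ = s.card * (T ^ 3 * Real.exp (-(T ^ ε))) := by rw [Finset.sum_const, nsmul_eq_mul]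
    _ ≤ T ^ 3 * (T ^ 3 * Real.exp (-(T ^ ε))) := by
        apply mul_le_mul_of_nonneg_right _ (by positivity)
        calc (s.card : ℝ) ≤ (box K).card := by exact_mod_cast Finset.card_le_card hs
          _ ≤ (K : ℝ) ^ 3 := B12_card_box K
          _ ≤ T ^ 3 := by gcongr
    _ = T ^ 6 * Real.exp (-(T ^ ε)) := by ring
    _ ≤ T ^ 10 * Real.exp (-(T ^ ε)) := by
        apply mul_le_mul_of_nonneg_right _ (Real.exp_pos _).le
        exact pow_le_pow_right₀ hT (by norm_num)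
    _ ≤ 1 := hx

/-- sum against a bound proportional to a power of the product -/
lemma B12_sum {K : ℕ} {L M : ℝ} {α : ℝ} (s : Finset (ℕ × ℕ × ℕ)) (hs : s ⊆ box K)
    (hcf : ∀ k ∈ s, ‖cf k‖ ≤ L * B12_pr k ^ (-(1 / 4) : ℝ)) (hL : 0 ≤ L)
    {E : ℕ × ℕ × ℕ → ℂ} (hE : ∀ k ∈ s, ‖E k‖ ≤ M * B12_pr k ^ (-α)) :
    ‖∑ k ∈ s, cf k * E k‖ ≤ L * M * ∑ k ∈ s, B12_pr k ^ (-(1 / 4) - α) := by
  calc ‖∑ k ∈ s, cf k * E k‖ ≤ ∑ k ∈ s, ‖cf k * E k‖ := norm_sum_le _ _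
    _ ≤ ∑ k ∈ s, L * M * B12_pr k ^ (-(1 / 4) - α) := by
        apply Finset.sum_le_sum
        intro k hk
        have hp : 0 < B12_pr k := by linarith [B12_pr_ge (hs hk)]
        rw [norm_mul, sub_eq_add_neg, Real.rpow_add hp]
        have h1 : 0 ≤ B12_pr k ^ (-(1 / 4) : ℝ) := Real.rpow_nonneg hp.le _
        calc ‖cf k‖ * ‖E k‖ ≤ (L * B12_pr k ^ (-(1 / 4) : ℝ)) * (M * B12_pr k ^ (-α)) :=
              mul_le_mul (hcf k hk) (hE k hk) (norm_nonneg _) (by positivity)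
          _ = _ := by ring
    _ = _ := by rw [Finset.mul_sum]

lemma B12_sum_nonneg {K : ℕ} {s : Finset (ℕ × ℕ × ℕ)} (hs : s ⊆ box K) (α : ℝ) :
    0 ≤ ∑ k ∈ s, B12_pr k ^ α :=
  Finset.sum_nonneg (fun _ hk => Real.rpow_nonneg (by linarith [B12_pr_ge (hs hk)]) _)

lemma B12_const : (2 * (Real.pi / 2) ^ (3 / 4 : ℝ) : ℝ) ≤ 4 := by
  have h1 : (Real.pi / 2) ^ (3 / 4 : ℝ) ≤ (2 : ℝ) ^ (3 / 4 : ℝ) :=
    Real.rpow_le_rpow (by positivity) (by linarith [Real.pi_le_four]) (by norm_num)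
  have h2 : (2 : ℝ) ^ (3 / 4 : ℝ) ≤ 2 ^ (1 : ℝ) := Real.rpow_le_rpow_of_exponent_le (by norm_num) (by norm_num)
  rw [Real.rpow_one] at h2
  linarith

lemma B12_cube (z : ℂ) : ((2 * z.re) ^ 3 : ℝ) = 2 * (z * z * z).re + 6 * (z * z * (starRingEnd ℂ) z).re := by
  simp only [Complex.mul_re, Complex.mul_im, Complex.conj_re, Complex.conj_im]
  ring

lemma B12_absorb (a : ℝ) {η : ℝ} (hη : 0 < η) : ∀ᶠ T : ℝ in Filter.atTop, a ≤ T ^ η :=
  (tendsto_rpow_atTop hη).eventually_ge_atTop a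

open Classical in
/-- bound for the sum of the main terms over all resonant triples -/
def MainAt (η ε : ℝ) : Prop := ∃ T₀ : ℝ, ∀ T : ℝ, T₀ ≤ T →
    ‖∑ k ∈ (box (KK η ε T)).filter (fun k => Res T ε k), cf k * E3main T (GG η T) k‖ ≤
      T ^ (3 / 4 + η + 200 * ε)

/-- resonant triples have a large product -/
lemma B12_pr_res {T ε : ℝ} (hT : 1 ≤ T) {k : ℕ × ℕ × ℕ} (hk : Res T ε k) :
    B12_pr k ^ (-(1 / 4) : ℝ) ≤ 2 * T ^ (-(1 / 4) + 5 * ε) := by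
  obtain ⟨hq, _, ht, _⟩ := hk
  have hT0 : 0 < T := by linarith
  have hq1 : (1 : ℝ) ≤ (q k : ℝ) := by exact_mod_cast hq
  have hS0 : 0 < T ^ (1 - 20 * ε) := Real.rpow_pos_of_pos hT0 _
  have h1 : T ^ (1 - 20 * ε) / 16 ≤ B12_pr k := by
    unfold t0 at ht
    rw [le_div_iff₀ (by linarith)] at ht
    have h2 : T ^ (1 - 20 * ε) * 1 ≤ T ^ (1 - 20 * ε) * (q k : ℝ) := mul_le_mul_of_nonneg_left hq1 hS0.le
    have h3 : (k.1 : ℝ) * k.2.1 * k.2.2 = B12_pr k := rfl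
    rw [h3] at ht
    have h4 : 0 < B12_pr k := by
      by_contra h
      push Not at h
      nlinarith [Real.pi_pos]
    have h5 : 2 * Real.pi * B12_pr k ≤ 16 * B12_pr k := by
      apply mul_le_mul_of_nonneg_right _ h4.le
      linarith [Real.pi_lt_four]
    linarith
  have h2 : B12_pr k ^ (-(1 / 4) : ℝ) ≤ (T ^ (1 - 20 * ε) / 16) ^ (-(1 / 4) : ℝ) :=
    Real.rpow_le_rpow_of_nonpos (by positivity) h1 (by norm_num)
  refine h2.trans (le_of_eq ?_)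
  rw [Real.div_rpow hS0.le (by norm_num), ← Real.rpow_mul hT0.le]
  have h3 : (16 : ℝ) ^ (-(1 / 4) : ℝ) = 1 / 2 := by
    rw [show (16 : ℝ) = 2 ^ (4 : ℝ) by norm_num, ← Real.rpow_mul (by norm_num)]
    norm_num
  rw [h3, show (1 - 20 * ε) * (-(1 / 4) : ℝ) = -(1 / 4) + 5 * ε by ring]
  ring

/-- the sum over all triples -/
lemma B12_total (η ε : ℝ) (hη : 0 < η) (hη4 : η ≤ 1 / 80)
    (hε : 0 < ε) (hε1 : ε ≤ η / 10000) (hmain : MainAt η ε) :
    ∃ A : ℝ, ∀ᶠ T : ℝ in Filter.atTop,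
      ‖∑ k ∈ box (KK η ε T), cf k * E3 T (GG η T) (-1) k‖ ≤ A * T ^ (3 / 4 + η + 200 * ε) := by
  classical
  have hε2 : ε ≤ η / 100 := by linarith
  obtain ⟨C, hC, hd⟩ := dv_le (η / 48) (by positivity)
  obtain ⟨T2, h2⟩ := E3_nonres η ε hη hη4 hε hε2
  obtain ⟨T3, h3⟩ := E3_main η ε hη hη4 hε hε2
  obtain ⟨T4, h4⟩ := cnt_small η ε hη hη4 hε hε2
  obtain ⟨T5, h5⟩ := cnt_res η ε hη hη4 hε hε2
  obtain ⟨T7, h7⟩ := hmain
  refine ⟨7 * C ^ 3 + 2, ?_⟩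
  filter_upwards [Filter.eventually_ge_atTop T2, Filter.eventually_ge_atTop T3, Filter.eventually_ge_atTop T4,
    Filter.eventually_ge_atTop T5, Filter.eventually_ge_atTop T7,
    B12_KK_le η ε hη4 hε hε2, B12_exp ε hε, Filter.eventually_ge_atTop 1] with T hT2 hT3 hT4 hT5 hT7 hK hexp hT1
  have h2 := h2 T hT2
  have h3 := h3 T hT3
  have h4 := h4 T hT4
  have h5 := h5 T hT5
  have h7 := h7 T hT7
  have hT0 : 0 < T := by linarith
  set K := KK η ε T with hKdef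
  set G := GG η T with hGdef
  have hG : 0 ≤ G := Real.rpow_nonneg hT0.le _
  set L : ℝ := (C * (K : ℝ) ^ (η / 48)) ^ 3 with hL
  have hL0 : 0 ≤ L := by positivity
  have hL1 : L ≤ C ^ 3 * T ^ (η / 16) := by
    have e1 : (K : ℝ) ^ (η / 48) ≤ T ^ (η / 48) := Real.rpow_le_rpow (by positivity) hK (by positivity)
    calc L ≤ (C * T ^ (η / 48)) ^ 3 := by rw [hL]; gcongr
      _ = C ^ 3 * (T ^ (η / 48)) ^ 3 := by ring
      _ = C ^ 3 * T ^ (η / 16) := by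
        rw [← Real.rpow_natCast (T ^ (η / 48)) 3, ← Real.rpow_mul hT0.le]
        congr 2
        push_cast
        ring
  have hcf : ∀ s : Finset (ℕ × ℕ × ℕ), s ⊆ box K → ∀ k ∈ s, ‖cf k‖ ≤ L * B12_pr k ^ (-(1 / 4) : ℝ) := by
    intro s hs k hk
    exact B12_cf_le (by positivity) hC hd (hs hk)
  -- the three pieces
  set P1 : (ℕ × ℕ × ℕ) → Prop := fun k => |(q k : ℝ)| ≤ T ^ (3 / 10 : ℝ)
  have hsplit : ∑ k ∈ box K, cf k * E3 T G (-1) k =
      ∑ k ∈ (box K).filter P1, cf k * E3 T G (-1) k +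
      ∑ k ∈ ((box K).filter (fun k => ¬ P1 k)).filter (fun k => ¬ Res T ε k), cf k * E3 T G (-1) k +
      ∑ k ∈ ((box K).filter (fun k => ¬ P1 k)).filter (fun k => Res T ε k), cf k * E3 T G (-1) k := by
    rw [← Finset.sum_filter_add_sum_filter_not (box K) P1, 
      ← Finset.sum_filter_add_sum_filter_not ((box K).filter (fun k => ¬ P1 k)) (fun k => Res T ε k)]
    ring
  have hs1 : ‖∑ k ∈ (box K).filter P1, cf k * E3 T G (-1) k‖ ≤ 2 * C ^ 3 * T ^ (3 / 4 : ℝ) := by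
    have e1 := B12_sum (K := K) (L := L) (M := 2 * T ^ (1 / 4 : ℝ)) (α := 0) ((box K).filter P1) (Finset.filter_subset _ _)
      (hcf _ (Finset.filter_subset _ _)) hL0 (E := fun k => E3 T G (-1) k)
      (by
        intro k hk
        rw [neg_zero, Real.rpow_zero, mul_one]
        exact E3_le hT0 hG k)
    rw [sub_zero] at e1
    refine e1.trans ?_
    have e2 : ∑ k ∈ (box K).filter P1, B12_pr k ^ (-(1 / 4) : ℝ) ≤ T ^ (46 / 100 : ℝ) := h4
    calc L * (2 * T ^ (1 / 4 : ℝ)) * ∑ k ∈ (box K).filter P1, B12_pr k ^ (-(1 / 4) : ℝ)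
        ≤ (C ^ 3 * T ^ (η / 16)) * (2 * T ^ (1 / 4 : ℝ)) * T ^ (46 / 100 : ℝ) := by
          have e0 := B12_sum_nonneg (K := K) (s := (box K).filter P1) (Finset.filter_subset _ _) (-(1 / 4))
          gcongr
      _ = 2 * C ^ 3 * (T ^ (η / 16) * T ^ (1 / 4 : ℝ) * T ^ (46 / 100 : ℝ)) := by ring
      _ = 2 * C ^ 3 * T ^ (η / 16 + 1 / 4 + 46 / 100) := by
          rw [← Real.rpow_add hT0, ← Real.rpow_add hT0]
      _ ≤ 2 * C ^ 3 * T ^ (3 / 4 : ℝ) := by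
          apply mul_le_mul_of_nonneg_left _ (by positivity)
          exact Real.rpow_le_rpow_of_exponent_le hT1 (by linarith)
  have hs2 : ‖∑ k ∈ ((box K).filter (fun k => ¬ P1 k)).filter (fun k => ¬ Res T ε k), cf k * E3 T G (-1) k‖ ≤ 1 := by
    apply B12_tiny hT1 hK _ ((Finset.filter_subset _ _).trans (Finset.filter_subset _ _)) _ hexp
    intro k hk
    rw [Finset.mem_filter, Finset.mem_filter] at hk
    exact h2 k hk.1.1 (lt_of_not_ge hk.1.2) hk.2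
  set R : Finset (ℕ × ℕ × ℕ) := ((box K).filter (fun k => ¬ P1 k)).filter (fun k => Res T ε k) with hR
  have hRbox : R ⊆ box K := (Finset.filter_subset _ _).trans (Finset.filter_subset _ _)
  have hRres : R ⊆ (box K).filter (fun k => Res T ε k) := by
    intro k hk
    rw [hR, Finset.mem_filter, Finset.mem_filter] at hk
    rw [Finset.mem_filter]
    exact ⟨hk.1.1, hk.2⟩
  have hs3 : ‖∑ k ∈ R, cf k * (E3 T G (-1) k - E3main T G k)‖ ≤ C ^ 3 * T ^ (3 / 4 : ℝ) := by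
    have e1 := B12_sum (K := K) (L := L) (M := T ^ (1 / 2 - 1 / 10 : ℝ)) (α := 1 / 4) R hRbox
      (hcf _ hRbox) hL0 (E := fun k => E3 T G (-1) k - E3main T G k)
      (by
        intro k hk
        rw [hR, Finset.mem_filter, Finset.mem_filter] at hk
        exact h3 k hk.1.1 (lt_of_not_ge hk.1.2) hk.2)
    refine e1.trans ?_
    have e2 : ∑ k ∈ R, B12_pr k ^ (-(1 / 4) - 1 / 4 : ℝ) ≤ T ^ (1 / 4 + 6 * η) := by
      rw [show (-(1 / 4) - 1 / 4 : ℝ) = -(1 / 2) by norm_num]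
      refine le_trans ?_ h5
      apply Finset.sum_le_sum_of_subset_of_nonneg hRres
      intro k hk _
      exact Real.rpow_nonneg (by linarith [B12_pr_ge (Finset.filter_subset _ _ hk)]) _
    calc L * T ^ (1 / 2 - 1 / 10 : ℝ) * ∑ k ∈ R, B12_pr k ^ (-(1 / 4) - 1 / 4 : ℝ)
        ≤ (C ^ 3 * T ^ (η / 16)) * T ^ (1 / 2 - 1 / 10 : ℝ) * T ^ (1 / 4 + 6 * η) := by
          have e0 := B12_sum_nonneg (K := K) (s := R) hRbox (-(1 / 4) - 1 / 4)
          gcongr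
      _ = C ^ 3 * (T ^ (η / 16) * T ^ (1 / 2 - 1 / 10 : ℝ) * T ^ (1 / 4 + 6 * η)) := by ring
      _ = C ^ 3 * T ^ (η / 16 + (1 / 2 - 1 / 10) + (1 / 4 + 6 * η)) := by
          rw [← Real.rpow_add hT0, ← Real.rpow_add hT0]
      _ ≤ C ^ 3 * T ^ (3 / 4 : ℝ) := by
          apply mul_le_mul_of_nonneg_left _ (by positivity)
          exact Real.rpow_le_rpow_of_exponent_le hT1 (by linarith)
  -- the main terms
  set R1 : Finset (ℕ × ℕ × ℕ) := ((box K).filter (fun k => Res T ε k)).filter P1 with hR1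
  have hR1box : R1 ⊆ box K := (Finset.filter_subset _ _).trans (Finset.filter_subset _ _)
  have hRR : R = ((box K).filter (fun k => Res T ε k)).filter (fun k => ¬ P1 k) := by
    rw [hR, Finset.filter_filter, Finset.filter_filter]
    apply Finset.filter_congr
    intro k _
    exact and_comm
  have hs5 : ‖∑ k ∈ R1, cf k * E3main T G k‖ ≤ 4 * C ^ 3 * T ^ (3 / 4 : ℝ) := by
    have e1 := B12_sum (K := K) (L := L) (M := 2 * T ^ (1 / 2 : ℝ)) (α := 1 / 4) R1 hR1box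
      (hcf _ hR1box) hL0 (E := fun k => E3main T G k)
      (by
        intro k hk
        rw [hR1, Finset.mem_filter, Finset.mem_filter] at hk
        exact E3main_le hT0 hG k hk.1.2.1)
    refine e1.trans ?_
    have e2 : ∑ k ∈ R1, B12_pr k ^ (-(1 / 4) - 1 / 4 : ℝ) ≤ 2 * T ^ (-(1 / 4) + 5 * ε) * T ^ (46 / 100 : ℝ) := by
      have e3 : ∑ k ∈ R1, B12_pr k ^ (-(1 / 4) - 1 / 4 : ℝ) ≤
          ∑ k ∈ R1, 2 * T ^ (-(1 / 4) + 5 * ε) * B12_pr k ^ (-(1 / 4) : ℝ) := by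
        apply Finset.sum_le_sum
        intro k hk
        have hp : 0 < B12_pr k := by linarith [B12_pr_ge (hR1box hk)]
        rw [sub_eq_add_neg, Real.rpow_add hp]
        apply mul_le_mul_of_nonneg_right _ (Real.rpow_nonneg hp.le _)
        rw [hR1, Finset.mem_filter, Finset.mem_filter] at hk
        exact B12_pr_res hT1 hk.1.2
      refine e3.trans ?_
      rw [← Finset.mul_sum]
      apply mul_le_mul_of_nonneg_left _ (by positivity)
      refine le_trans ?_ h4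
      apply Finset.sum_le_sum_of_subset_of_nonneg
      · intro k hk
        rw [hR1, Finset.mem_filter, Finset.mem_filter] at hk
        rw [Finset.mem_filter]
        exact ⟨hk.1.1, hk.2⟩
      · intro k hk _
        exact Real.rpow_nonneg (by linarith [B12_pr_ge (Finset.filter_subset _ _ hk)]) _
    calc L * (2 * T ^ (1 / 2 : ℝ)) * ∑ k ∈ R1, B12_pr k ^ (-(1 / 4) - 1 / 4 : ℝ)
        ≤ (C ^ 3 * T ^ (η / 16)) * (2 * T ^ (1 / 2 : ℝ)) * (2 * T ^ (-(1 / 4) + 5 * ε) * T ^ (46 / 100 : ℝ)) := by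
          have e0 := B12_sum_nonneg (K := K) (s := R1) hR1box (-(1 / 4) - 1 / 4)
          gcongr
      _ = 4 * C ^ 3 * (T ^ (η / 16) * T ^ (1 / 2 : ℝ) * T ^ (-(1 / 4) + 5 * ε) * T ^ (46 / 100 : ℝ)) := by ring
      _ = 4 * C ^ 3 * T ^ (η / 16 + 1 / 2 + (-(1 / 4) + 5 * ε) + 46 / 100) := by
          rw [← Real.rpow_add hT0, ← Real.rpow_add hT0, ← Real.rpow_add hT0]
      _ ≤ 4 * C ^ 3 * T ^ (3 / 4 : ℝ) := by
          apply mul_le_mul_of_nonneg_left _ (by positivity)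
          exact Real.rpow_le_rpow_of_exponent_le hT1 (by linarith)
  have hRsum : ∑ k ∈ R, cf k * E3 T G (-1) k = ∑ k ∈ R, cf k * (E3 T G (-1) k - E3main T G k) +
      (∑ k ∈ (box K).filter (fun k => Res T ε k), cf k * E3main T G k - ∑ k ∈ R1, cf k * E3main T G k) := by
    have e1 : ∑ k ∈ (box K).filter (fun k => Res T ε k), cf k * E3main T G k - ∑ k ∈ R1, cf k * E3main T G k =
        ∑ k ∈ R, cf k * E3main T G k := by
      rw [hRR, hR1, ← Finset.sum_filter_add_sum_filter_not ((box K).filter (fun k => Res T ε k)) P1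
        (fun k => cf k * E3main T G k)]
      ring
    rw [e1, ← Finset.sum_add_distrib]
    apply Finset.sum_congr rfl
    intro k _
    ring
  have hT34 : 1 ≤ T ^ (3 / 4 : ℝ) := Real.one_le_rpow hT1 (by norm_num)
  have hT35 : T ^ (3 / 4 : ℝ) ≤ T ^ (3 / 4 + η + 200 * ε) :=
    Real.rpow_le_rpow_of_exponent_le hT1 (by linarith)
  rw [hsplit, hRsum]
  calc _ ≤ ‖∑ k ∈ (box K).filter P1, cf k * E3 T G (-1) k‖ +
        ‖∑ k ∈ ((box K).filter (fun k => ¬ P1 k)).filter (fun k => ¬ Res T ε k), cf k * E3 T G (-1) k‖ +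
        (‖∑ k ∈ R, cf k * (E3 T G (-1) k - E3main T G k)‖ +
          (‖∑ k ∈ (box K).filter (fun k => Res T ε k), cf k * E3main T G k‖ + ‖∑ k ∈ R1, cf k * E3main T G k‖)) := by
        refine (norm_add_le _ _).trans (add_le_add (norm_add_le _ _) ((norm_add_le _ _).trans (add_le_add le_rfl (norm_sub_le _ _))))
    _ ≤ 2 * C ^ 3 * T ^ (3 / 4 : ℝ) + 1 + (C ^ 3 * T ^ (3 / 4 : ℝ) + (T ^ (3 / 4 + η + 200 * ε) + 4 * C ^ 3 * T ^ (3 / 4 : ℝ))) := by
        gcongr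
    _ = 7 * C ^ 3 * T ^ (3 / 4 : ℝ) + 1 + T ^ (3 / 4 + η + 200 * ε) := by ring
    _ ≤ 7 * C ^ 3 * T ^ (3 / 4 + η + 200 * ε) + T ^ (3 / 4 + η + 200 * ε) + T ^ (3 / 4 + η + 200 * ε) := by
        gcongr
        linarith
    _ = (7 * C ^ 3 + 2) * T ^ (3 / 4 + η + 200 * ε) := by ring

theorem third_moment (η ε : ℝ) (hη : 0 < η)
    (hη4 : η ≤ 1 / 80) (hε : 0 < ε) (hε1 : ε ≤ η / 10000) (hmain : MainAt η ε) :
    ∃ T₀ : ℝ, ∀ T : ℝ, T₀ ≤ T →
      ∫ t in Ioi (0 : ℝ), W T t * (2 * (Y (GG η T) t (KK η ε T)).re) ^ 3 ≤ T ^ (3 / 4 + η + 201 * ε) := by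
  have hε2 : ε ≤ η / 100 := by linarith
  obtain ⟨A, hA⟩ := B12_total η ε hη hη4 hε hε1 hmain
  obtain ⟨T1, h1⟩ := E3_pos η ε hη hη4 hε hε2
  suffices hev : ∀ᶠ T : ℝ in Filter.atTop,
      ∫ t in Ioi (0 : ℝ), W T t * (2 * (Y (GG η T) t (KK η ε T)).re) ^ 3 ≤ T ^ (3 / 4 + η + 201 * ε) by
    obtain ⟨T₀, hT₀⟩ := Filter.eventually_atTop.1 hev
    exact ⟨T₀, hT₀⟩
  filter_upwards [hA, Filter.eventually_ge_atTop T1, B12_KK_le η ε hη4 hε hε2, B12_exp ε hε,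
    Filter.eventually_ge_atTop 1, B12_absorb (24 * |A| + 8) hε] with T hA hT1' hK hexp hT1 habs
  have h1 := h1 T hT1'
  have hT0 : 0 < T := by linarith
  set K := KK η ε T with hKdef
  set G := GG η T with hGdef
  have hG : 0 < G := Real.rpow_pos_of_pos hT0 _
  have hcont : ContinuousOn (fun t => Y G t K) (Ioi 0) := Y_cont
  have hWc : ContinuousOn (fun t => W T t) (Ioi 0) := by
    unfold W
    intro t ht
    have ht' : (0 : ℝ) < t := ht
    apply ContinuousAt.continuousWithinAt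
    have : ContinuousAt (fun t : ℝ => T / t) t := ContinuousAt.div continuousAt_const continuousAt_id ht'.ne'
    fun_prop
  have hint3 : IntegrableOn (fun t => W T t * ‖Y G t K‖ ^ 3) (Ioi 0) := third_int hT0 hG K
  have hmeas : ∀ g : ℂ → ℂ, Continuous g → (∀ z, ‖g z‖ ≤ ‖z‖ ^ 3) →
      IntegrableOn (fun t => ((W T t : ℝ) : ℂ) * g (Y G t K)) (Ioi 0) := by
    intro g hg hgn
    refine Integrable.mono' hint3 ?_ ?_
    · apply ContinuousOn.aestronglyMeasurable _ measurableSet_Ioi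
      exact (Complex.continuous_ofReal.comp_continuousOn hWc).mul (hg.comp_continuousOn hcont)
    · filter_upwards with t
      rw [norm_mul, Complex.norm_real, Real.norm_of_nonneg (show 0 ≤ W T t from (Real.exp_pos _).le)]
      exact mul_le_mul_of_nonneg_left (hgn _) (Real.exp_pos _).le
  have hi1 := hmeas (fun z => z * z * z) (by fun_prop) (fun z => by rw [norm_mul, norm_mul]; exact le_of_eq (by ring))
  have hi2 := hmeas (fun z => z * z * (starRingEnd ℂ) z)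
    (by exact (continuous_id.mul continuous_id).mul Complex.continuous_conj)
    (fun z => by rw [norm_mul, norm_mul, RCLike.norm_conj]; exact le_of_eq (by ring))
  have heq : ∫ t in Ioi (0 : ℝ), W T t * (2 * (Y G t K).re) ^ 3 =
      2 * (∫ t in Ioi (0 : ℝ), ((W T t : ℝ) : ℂ) * (Y G t K * Y G t K * Y G t K)).re +
      6 * (∫ t in Ioi (0 : ℝ), ((W T t : ℝ) : ℂ) * (Y G t K * Y G t K * (starRingEnd ℂ) (Y G t K))).re := by
    have r1 := integral_re (𝕜 := ℂ) hi1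
    have r2 := integral_re (𝕜 := ℂ) hi2
    simp only [RCLike.re_to_complex] at r1 r2
    rw [← r1, ← r2, ← integral_const_mul, ← integral_const_mul, ← integral_add]
    · apply integral_congr_ae
      filter_upwards with t
      rw [B12_cube, Complex.re_ofReal_mul, Complex.re_ofReal_mul]
      ring
    · exact (hi1.re).const_mul 2
    · exact (hi2.re).const_mul 6
  rw [heq]
  have hc4 := B12_const
  have hc0 : 0 ≤ (2 * (Real.pi / 2) ^ (3 / 4 : ℝ) : ℝ) := by positivity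
  have hpos : ‖∫ t in Ioi (0 : ℝ), ((W T t : ℝ) : ℂ) * (Y G t K * Y G t K * Y G t K)‖ ≤ 4 := by
    rw [third_pos hT0 hG K, norm_mul, norm_mul]
    have e1 : ‖∑ k ∈ box K, cf k * E3 T G 1 k‖ ≤ 1 := B12_tiny hT1 hK _ (Finset.Subset.refl _) (fun k hk => h1 k hk) hexp
    have e2 : ‖cexp (3 * Real.pi * I / 4)‖ = 1 := by
      rw [show (3 * Real.pi * I / 4 : ℂ) = ((3 * Real.pi / 4 : ℝ) : ℂ) * I by push_cast; ring]
      exact Complex.norm_exp_ofReal_mul_I _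
    rw [e2, mul_one, Complex.norm_real, Real.norm_of_nonneg hc0]
    calc _ ≤ 4 * 1 := mul_le_mul hc4 e1 (norm_nonneg _) (by norm_num)
      _ = 4 := by norm_num
  have hneg : ‖∫ t in Ioi (0 : ℝ), ((W T t : ℝ) : ℂ) * (Y G t K * Y G t K * (starRingEnd ℂ) (Y G t K))‖ ≤
      4 * (|A| * T ^ (3 / 4 + η + 200 * ε)) := by
    rw [third_neg hT0 hG K, norm_mul, norm_mul]
    have e1 : ‖∑ k ∈ box K, cf k * E3 T G (-1) k‖ ≤ |A| * T ^ (3 / 4 + η + 200 * ε) := by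
      refine hA.trans ?_
      exact mul_le_mul_of_nonneg_right (le_abs_self A) (Real.rpow_nonneg hT0.le _)
    have e2 : ‖cexp (Real.pi * I / 4)‖ = 1 := by
      rw [show (Real.pi * I / 4 : ℂ) = ((Real.pi / 4 : ℝ) : ℂ) * I by push_cast; ring]
      exact Complex.norm_exp_ofReal_mul_I _
    rw [e2, mul_one, Complex.norm_real, Real.norm_of_nonneg hc0]
    exact mul_le_mul hc4 e1 (norm_nonneg _) (by norm_num)
  have hT34 : 1 ≤ T ^ (3 / 4 + η + 200 * ε) := Real.one_le_rpow hT1 (by linarith)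
  have f1 := (Complex.re_le_norm (∫ t in Ioi (0 : ℝ), ((W T t : ℝ) : ℂ) * (Y G t K * Y G t K * Y G t K))).trans hpos
  have f2 := (Complex.re_le_norm (∫ t in Ioi (0 : ℝ), ((W T t : ℝ) : ℂ) *
    (Y G t K * Y G t K * (starRingEnd ℂ) (Y G t K)))).trans hneg
  calc _ ≤ 2 * 4 + 6 * (4 * (|A| * T ^ (3 / 4 + η + 200 * ε))) := by linarith
    _ ≤ (24 * |A| + 8) * T ^ (3 / 4 + η + 200 * ε) := by linarith
    _ ≤ T ^ ε * T ^ (3 / 4 + η + 200 * ε) := mul_le_mul_of_nonneg_right habs (by linarith)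
    _ = T ^ (3 / 4 + η + 201 * ε) := by rw [← Real.rpow_add hT0]; congr 1; ring

end U6
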