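import Pool.Agent.Lib.MP_39df77_nt.U6.B05
import Pool.Agent.Lib.MP_39df77_nt.U6.B12
import Pool.Agent.Lib.MP_39df77_nt.U6.A14
/-! B13: positivity. On the window `Z = B - mN - M0 ≥ -L`, `L = O(log T)` (B ≥ 0), `|Z - y| ≤ δ = T^{-1/200} ≤ 1/2`,
`y = 2 Re Y`, so `(Z-1)₊³ ≤ 8 (y³ + (L + δ) y²)`: if `Z > 1` then `y ≥ Z/2`. Outside the window `W ≤ e^{-T^{ε/2}}` and
`Y_le`. -/
open Complex MeasureTheory Set
namespace U6

private theorem B13_pt {Z y L δ : ℝ} (hδ : 0 ≤ δ) (hδ2 : δ ≤ 1 / 2) (hL : 0 ≤ L) (h1 : |Z - y| ≤ δ)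
    (h2 : -L ≤ Z) :
    (max (Z - 1) 0) ^ 3 ≤ 8 * y ^ 3 + 8 * (L + δ) * y ^ 2 := by
  have h3 := abs_le.1 h1
  have h4 : 0 ≤ y ^ 2 * (y + L + δ) := mul_nonneg (sq_nonneg _) (by linarith [h3.2])
  have h6 : 8 * y ^ 3 + 8 * (L + δ) * y ^ 2 = 8 * (y ^ 2 * (y + L + δ)) := by ring
  rcases le_total (Z - 1) 0 with hz | hz
  · rw [max_eq_right hz]
    norm_num
    linarith
  · rw [max_eq_left hz]
    have h7 : (Z - 1) ^ 3 ≤ (2 * y) ^ 3 := pow_le_pow_left₀ hz (by linarith [h3.2]) 3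
    have h8 : 0 ≤ (L + δ) * y ^ 2 := mul_nonneg (by linarith) (sq_nonneg _)
    nlinarith

private theorem B13_W0 (T t : ℝ) : 0 ≤ W T t := (Real.exp_pos _).le

private theorem B13_W1 (T t : ℝ) : W T t ≤ 1 := by
  unfold W
  rw [Real.exp_le_one_iff]
  linarith [Real.sqrt_nonneg (t / T), Real.sqrt_nonneg (T / t)]

private theorem B13_Wc {T : ℝ} (hT : 0 < T) : ContinuousOn (fun t => W T t) (Ioi 0) := by
  unfold W
  refine Real.continuous_exp.comp_continuousOn (ContinuousOn.sub ?_ ?_)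
  · exact (Real.continuous_sqrt.comp (continuous_id.div_const T)).neg.continuousOn
  · exact Real.continuous_sqrt.comp_continuousOn
      (continuousOn_const.div continuousOn_id fun t ht => ne_of_gt ht)

/-- `e^{-x} ≤ 24 / x^4` -/
private theorem B13_exp {x : ℝ} (hx : 0 < x) : Real.exp (-x) ≤ 24 / x ^ 4 := by
  have h := Real.pow_div_factorial_le_exp x hx.le 4
  rw [Real.exp_neg, inv_eq_one_div, div_le_div_iff₀ (Real.exp_pos x) (by positivity)]
  have h2 : (Nat.factorial 4 : ℝ) = 24 := by norm_num [Nat.factorial]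
  rw [h2, div_le_iff₀ (by norm_num)] at h
  linarith

/-- decay of the weight, far out -/
private theorem B13_far {T t A : ℝ} (hT : 0 < T) (ht : 0 < t) (hA : 0 ≤ A) (h : A ^ 2 ≤ t / T) :
    W T t ≤ Real.exp (-(A / 2)) * (384 * T ^ 2 / t ^ 2) := by
  have h1 : A ≤ Real.sqrt (t / T) := Real.le_sqrt_of_sq_le h
  have hp : 0 < t / T := div_pos ht hT
  have hs : 0 < Real.sqrt (t / T) := Real.sqrt_pos.2 hp
  have h2 := B13_exp (x := Real.sqrt (t / T) / 2) (by positivity)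
  have h3 : (Real.sqrt (t / T) / 2) ^ 4 = (t / T) ^ 2 / 16 := by
    rw [div_pow, show (4 : ℕ) = 2 * 2 from rfl, pow_mul, Real.sq_sqrt hp.le]
    norm_num
  have h4 : 24 / (Real.sqrt (t / T) / 2) ^ 4 = 384 * T ^ 2 / t ^ 2 := by
    rw [h3]
    field_simp
    norm_num
  rw [h4] at h2
  calc W T t ≤ Real.exp (-(A / 2) + -(Real.sqrt (t / T) / 2)) := by
        unfold W
        apply Real.exp_le_exp.2
        linarith [Real.sqrt_nonneg (T / t)]
    _ = Real.exp (-(A / 2)) * Real.exp (-(Real.sqrt (t / T) / 2)) := Real.exp_add _ _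
    _ ≤ _ := mul_le_mul_of_nonneg_left h2 (Real.exp_pos _).le

private theorem B13_swap (T t : ℝ) : W T t = W t T := by
  unfold W
  congr 1
  ring

/-- decay of the weight, near `0` -/
private theorem B13_near {T t A : ℝ} (hT : 0 < T) (ht : 0 < t) (hA : 0 ≤ A) (h : A ^ 2 ≤ T / t) :
    W T t ≤ Real.exp (-(A / 2)) * (384 * t ^ 2 / T ^ 2) := by
  rw [B13_swap]
  exact B13_far ht hT hA h

private theorem B13_yle {y : ℂ} : |2 * y.re| ≤ 2 * ‖y‖ := by
  rw [abs_mul, abs_of_pos (by norm_num : (0 : ℝ) < 2)]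
  exact mul_le_mul_of_nonneg_left (Complex.abs_re_le_norm y) (by norm_num)

/-- integrability -/
private theorem B13_int3 {T G : ℝ} (hT : 0 < T) (hG : 0 < G) (K : ℕ) :
    IntegrableOn (fun t => W T t * (2 * (Y G t K).re) ^ 3) (Ioi 0) := by
  have h := (third_int hT hG K).const_mul 8
  refine Integrable.mono' h ?_ ?_
  · have hc : ContinuousOn (fun t => W T t * (2 * (Y G t K).re) ^ 3) (Ioi 0) :=
      (B13_Wc hT).mul ((continuousOn_const.mul (Complex.continuous_re.comp_continuousOn Y_cont)).pow 3)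
    exact hc.aestronglyMeasurable measurableSet_Ioi
  · refine Filter.Eventually.of_forall fun t => ?_
    rw [Real.norm_eq_abs, abs_mul, abs_of_nonneg (B13_W0 T t), abs_pow]
    have h1 := pow_le_pow_left₀ (abs_nonneg _) (B13_yle (y := Y G t K)) 3
    have h2 : (2 * ‖Y G t K‖) ^ 3 = 8 * ‖Y G t K‖ ^ 3 := by ring
    rw [h2] at h1
    calc W T t * |2 * (Y G t K).re| ^ 3 ≤ W T t * (8 * ‖Y G t K‖ ^ 3) :=
          mul_le_mul_of_nonneg_left h1 (B13_W0 T t)
      _ = 8 * (W T t * ‖Y G t K‖ ^ 3) := by ring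

private theorem B13_rpow_int {b : ℝ} (hb : 0 < b) : IntegrableOn (fun t : ℝ => t ^ (-2 : ℝ)) (Ioi b) :=
  integrableOn_Ioi_rpow_of_lt (by norm_num) hb

private theorem B13_rpow {t : ℝ} (ht : 0 < t) : t ^ (-2 : ℝ) = 1 / t ^ 2 := by
  rw [Real.rpow_neg ht.le, one_div]
  norm_cast

private theorem B13_Wint {T : ℝ} (hT : 0 < T) : IntegrableOn (fun t => W T t) (Ioi 0) := by
  have hu : Ioi (0 : ℝ) = Ioc 0 T ∪ Ioi T := (Ioc_union_Ioi_eq_Ioi hT.le).symm
  have hm : AEStronglyMeasurable (fun t => W T t) (volume.restrict (Ioi 0)) :=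
    (B13_Wc hT).aestronglyMeasurable measurableSet_Ioi
  rw [hu]
  refine IntegrableOn.union ?_ ?_
  · refine Integrable.mono' (g := fun _ => (1 : ℝ)) (integrableOn_const (by simp)) ?_ ?_
    · exact hm.mono_set (fun t ht => ht.1)
    · refine Filter.Eventually.of_forall fun t => ?_
      rw [Real.norm_eq_abs, abs_of_nonneg (B13_W0 T t)]
      exact B13_W1 T t
  · refine Integrable.mono' ((B13_rpow_int hT).const_mul (384 * T ^ 2)) ?_ ?_
    · exact hm.mono_set (fun t ht => lt_trans hT ht)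
    · refine (ae_restrict_iff' measurableSet_Ioi).2 (Filter.Eventually.of_forall fun t ht => ?_)
      have ht0 : 0 < t := lt_trans hT ht
      rw [Real.norm_eq_abs, abs_of_nonneg (B13_W0 T t), B13_rpow ht0]
      have h5 : W T t ≤ 384 * T ^ 2 / t ^ 2 := by
        have h6 := B13_far (T := T) (t := t) (A := 0) hT ht0 le_rfl (by
          have : 0 < t / T := div_pos ht0 hT
          norm_num
          exact this.le)
        simpa using h6
      rw [mul_one_div]
      exact h5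

private theorem B13_int2 {T G : ℝ} (hT : 0 < T) (hG : 0 < G) (K : ℕ) :
    IntegrableOn (fun t => W T t * ‖Y G t K‖ ^ 2) (Ioi 0) := by
  have h := (third_int hT hG K).add (B13_Wint hT)
  refine Integrable.mono' h ?_ ?_
  · have hc : ContinuousOn (fun t => W T t * ‖Y G t K‖ ^ 2) (Ioi 0) :=
      (B13_Wc hT).mul (Y_cont.norm.pow 2)
    exact hc.aestronglyMeasurable measurableSet_Ioi
  · refine Filter.Eventually.of_forall fun t => ?_
    rw [Real.norm_eq_abs, abs_of_nonneg (mul_nonneg (B13_W0 T t) (by positivity))]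
    have h1 : ‖Y G t K‖ ^ 2 ≤ ‖Y G t K‖ ^ 3 + 1 := by
      have h0 := norm_nonneg (Y G t K)
      nlinarith [sq_nonneg (‖Y G t K‖ - 1), mul_nonneg h0 (sq_nonneg (‖Y G t K‖ - 1))]
    calc W T t * ‖Y G t K‖ ^ 2 ≤ W T t * (‖Y G t K‖ ^ 3 + 1) :=
          mul_le_mul_of_nonneg_left h1 (B13_W0 T t)
      _ = W T t * ‖Y G t K‖ ^ 3 + W T t := by ring

/-- the window integral of a function is at most the full integral plus the tails -/
private theorem B13_win {h : ℝ → ℝ} {a b U V : ℝ} (ha : 0 < a) (hab : a ≤ b)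
    (hi : IntegrableOn h (Ioi 0)) (hU : ∀ t, 0 < t → t ≤ a → |h t| ≤ U)
    (hV : ∀ t, b < t → |h t| ≤ V * t ^ (-2 : ℝ)) (hV0 : 0 ≤ V) :
    ∫ t in a..b, h t ≤ (∫ t in Ioi 0, h t) + U * a + V / b := by
  have hb : 0 < b := lt_of_lt_of_le ha hab
  have e1 : Ioi (0 : ℝ) = Ioc 0 a ∪ Ioi a := (Ioc_union_Ioi_eq_Ioi ha.le).symm
  have e2 : Ioi a = Ioc a b ∪ Ioi b := (Ioc_union_Ioi_eq_Ioi hab).symm
  have i1 : IntegrableOn h (Ioc 0 a) := hi.mono_set (fun t ht => ht.1)
  have i2 : IntegrableOn h (Ioi a) := hi.mono_set (fun t ht => lt_trans ha ht)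
  have i3 : IntegrableOn h (Ioc a b) := i2.mono_set (fun t ht => ht.1)
  have i4 : IntegrableOn h (Ioi b) := i2.mono_set (fun t ht => lt_of_le_of_lt hab ht)
  have d1 : Disjoint (Ioc (0 : ℝ) a) (Ioi a) := by
    rw [Set.disjoint_left]
    intro t ht ht'
    exact absurd ht.2 (not_le.2 ht')
  have d2 : Disjoint (Ioc a b) (Ioi b) := by
    rw [Set.disjoint_left]
    intro t ht ht'
    exact absurd ht.2 (not_le.2 ht')
  have s1 : ∫ t in Ioi 0, h t = (∫ t in Ioc 0 a, h t) + ∫ t in Ioi a, h t := by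
    rw [e1]
    exact setIntegral_union d1 measurableSet_Ioi i1 i2
  have s2 : ∫ t in Ioi a, h t = (∫ t in Ioc a b, h t) + ∫ t in Ioi b, h t := by
    rw [e2]
    exact setIntegral_union d2 measurableSet_Ioi i3 i4
  have s3 : |∫ t in Ioc 0 a, h t| ≤ U * a := by
    have h5 := norm_setIntegral_le_of_norm_le_const (μ := volume) (s := Ioc (0 : ℝ) a) (C := U) (f := h)
      (by simp) (fun t ht => by
        rw [Real.norm_eq_abs]
        exact hU t ht.1 ht.2)
    rw [Real.norm_eq_abs] at h5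
    simpa [Measure.real, ha.le] using h5
  have s4 : |∫ t in Ioi b, h t| ≤ V / b := by
    have h5 : ‖∫ t in Ioi b, h t‖ ≤ ∫ t in Ioi b, V * t ^ (-2 : ℝ) := by
      refine norm_integral_le_of_norm_le ((B13_rpow_int hb).const_mul V) ?_
      refine (ae_restrict_iff' measurableSet_Ioi).2 (Filter.Eventually.of_forall fun t ht => ?_)
      rw [Real.norm_eq_abs]
      exact hV t ht
    rw [integral_const_mul, integral_Ioi_rpow_of_lt (by norm_num) hb] at h5
    have h6 : V * (-b ^ ((-2 : ℝ) + 1) / (-2 + 1)) = V / b := by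
      have : (-2 : ℝ) + 1 = -1 := by norm_num
      rw [this, Real.rpow_neg hb.le, Real.rpow_one]
      field_simp
    rw [h6, Real.norm_eq_abs] at h5
    exact h5
  rw [intervalIntegral.integral_of_le hab]
  have := abs_le.1 s3
  have := abs_le.1 s4
  linarith

private theorem B13_large (C1 C2 : ℝ) {ε : ℝ} (hε : 0 < ε) : ∃ T₀ : ℝ, ∀ T : ℝ, T₀ ≤ T →
    3072 * T ^ 5 * Real.exp (-(T ^ (ε / 2) / 2)) ≤ 1 ∧
    64 + 32 * ((C1 + C2) * (3 / 2 * Real.log T) + C2) ≤ T ^ (10 * ε) := by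
  have h1 : Filter.Tendsto (fun T : ℝ => (T ^ (ε / 2)) ^ (10 / ε) * Real.exp (-(1 / 2) * (T ^ (ε / 2))))
      Filter.atTop (nhds 0) :=
    (tendsto_rpow_mul_exp_neg_mul_atTop_nhds_zero (10 / ε) (1 / 2) (by norm_num)).comp
      (tendsto_rpow_atTop (by positivity))
  have h2 : ∀ᶠ T : ℝ in Filter.atTop, (T ^ (ε / 2)) ^ (10 / ε) * Real.exp (-(1 / 2) * (T ^ (ε / 2))) ≤
      1 / 3072 := by
    refine (h1.eventually (gt_mem_nhds (show (0 : ℝ) < 1 / 3072 by norm_num))).mono fun T h => h.le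
  have h3 : ∀ᶠ T : ℝ in Filter.atTop, |Real.log T| ≤ 1 / (1 + 96 * |C1 + C2|) * |T ^ (10 * ε)| := by
    have := (isLittleO_log_rpow_atTop (show 0 < 10 * ε by positivity)).bound
      (show (0 : ℝ) < 1 / (1 + 96 * |C1 + C2|) by positivity)
    simpa [Real.norm_eq_abs] using this
  have h4 : ∀ᶠ T : ℝ in Filter.atTop, 2 * (64 + 32 * |C2|) ≤ T ^ (10 * ε) :=
    (tendsto_rpow_atTop (show 0 < 10 * ε by positivity)).eventually_ge_atTop _
  obtain ⟨T₀, hT₀⟩ := Filter.eventually_atTop.1 (h2.and (h3.and (h4.and (Filter.eventually_ge_atTop 1))))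
  refine ⟨T₀, fun T hT => ?_⟩
  obtain ⟨a1, a2, a3, a4⟩ := hT₀ T hT
  have hT0 : (0 : ℝ) < T := by linarith
  constructor
  · have e1 : (T ^ (ε / 2)) ^ (10 / ε) = T ^ 5 := by
      rw [← Real.rpow_mul hT0.le, show ε / 2 * (10 / ε) = (5 : ℕ) by field_simp; norm_num,
        Real.rpow_natCast]
    rw [e1, show -(1 / 2) * T ^ (ε / 2) = -(T ^ (ε / 2) / 2) by ring] at a1
    have : 3072 * T ^ 5 * Real.exp (-(T ^ (ε / 2) / 2)) = 3072 * (T ^ 5 * Real.exp (-(T ^ (ε / 2) / 2))) := by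
      ring
    rw [this]
    linarith
  · have hl : 0 ≤ Real.log T := Real.log_nonneg a4
    have hp : 0 < T ^ (10 * ε) := Real.rpow_pos_of_pos hT0 _
    rw [abs_of_nonneg hl, abs_of_pos hp] at a2
    have b1 : (1 + 96 * |C1 + C2|) * Real.log T ≤ T ^ (10 * ε) := by
      have h5 : (0 : ℝ) < 1 + 96 * |C1 + C2| := by positivity
      rw [one_div, inv_mul_eq_div, le_div_iff₀ h5] at a2
      linarith
    have b2 : (C1 + C2) * Real.log T ≤ |C1 + C2| * Real.log T :=
      mul_le_mul_of_nonneg_right (le_abs_self _) hl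
    have b3 : 48 * ((C1 + C2) * Real.log T) ≤ T ^ (10 * ε) / 2 := by
      have : 96 * (|C1 + C2| * Real.log T) ≤ T ^ (10 * ε) := by nlinarith
      linarith
    have b4 : C2 ≤ |C2| := le_abs_self _
    nlinarith

theorem Zplus (η ε : ℝ) (hη : 0 < η)
    (hη2 : η ≤ 1 / 80) (hε : 0 < ε) (hε1 : ε ≤ η / 10000) (hmain : MainAt η ε) :
    ∃ T₀ : ℝ, ∀ T : ℝ, T₀ ≤ T →
      ∫ t in (T ^ (1 - ε))..(T ^ (1 + ε)), W T t * (max (Z (NN T) (GG η T) t - 1) 0) ^ 3 ≤ T ^ (3 / 4 + η + 211 * ε) := by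
  have hε2 : ε ≤ η / 100 := by linarith
  obtain ⟨T1, t1⟩ := third_moment η ε hη hη2 hε hε1 hmain
  obtain ⟨T2, t2⟩ := second_moment η ε hη hη2 hε hε2
  obtain ⟨T3, t3⟩ := Y_le η ε hη hη2 hε hε2
  obtain ⟨T4, t4⟩ := Z_Y η ε hη hη2 hε hε2
  obtain ⟨C1, hC1, m1⟩ := mN_le
  obtain ⟨C2, hC2, m2⟩ := M0_le
  obtain ⟨T5, t5⟩ := B13_large C1 C2 hε
  refine ⟨max (max (max T1 T2) (max T3 T4)) (max T5 (2 ^ (200 : ℝ))), fun T hT => ?_⟩
  have g1 : T1 ≤ T := le_trans (le_trans (le_max_left _ _) (le_trans (le_max_left _ _) (le_max_left _ _))) hT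
  have g2 : T2 ≤ T := le_trans (le_trans (le_max_right _ _) (le_trans (le_max_left _ _) (le_max_left _ _))) hT
  have g3 : T3 ≤ T := le_trans (le_trans (le_max_left _ _) (le_trans (le_max_right _ _) (le_max_left _ _))) hT
  have g4 : T4 ≤ T := le_trans (le_trans (le_max_right _ _) (le_trans (le_max_right _ _) (le_max_left _ _))) hT
  have g5 : T5 ≤ T := le_trans (le_trans (le_max_left _ _) (le_max_right _ _)) hT
  have g7 : (2 : ℝ) ^ (200 : ℝ) ≤ T := le_trans (le_trans (le_max_right _ _) (le_max_right _ _)) hT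
  have g6 : 2 ≤ T := by
    refine le_trans ?_ g7
    calc (2 : ℝ) = 2 ^ (1 : ℝ) := by norm_num
      _ ≤ 2 ^ (200 : ℝ) := Real.rpow_le_rpow_of_exponent_le (by norm_num) (by norm_num)
  have hT1 : 1 ≤ T := by linarith
  have hT0 : 0 < T := by linarith
  obtain ⟨q1, q2⟩ := t5 T g5
  have r3 := t1 T g1
  have r2 := t2 T g2
  have r1 := t3 T
  have hεs : ε ≤ 1 / 8000 := by linarith
  set a : ℝ := T ^ (1 - ε) with ha
  set b : ℝ := T ^ (1 + ε) with hb
  set N : ℝ := NN T with hN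
  set G : ℝ := GG η T with hG
  set K : ℕ := KK η ε T with hK
  set δ : ℝ := T ^ (-(1 / 200) : ℝ) with hδ
  set E : ℝ := Real.exp (-(T ^ (ε / 2) / 2)) with hE
  have ha0 : 0 < a := Real.rpow_pos_of_pos hT0 _
  have haT : a ≤ T := by
    rw [ha]
    calc T ^ (1 - ε) ≤ T ^ (1 : ℝ) := Real.rpow_le_rpow_of_exponent_le hT1 (by linarith)
      _ = T := Real.rpow_one T
  have hTb : T ≤ b := by
    rw [hb]
    calc T = T ^ (1 : ℝ) := (Real.rpow_one T).symm
      _ ≤ T ^ (1 + ε) := Real.rpow_le_rpow_of_exponent_le hT1 (by linarith)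
  have hab : a ≤ b := haT.trans hTb
  have ha1 : 1 ≤ a := Real.one_le_rpow hT1 (by linarith)
  have hG1 : 1 ≤ G := by
    rw [hG]
    exact Real.one_le_rpow hT1 (by linarith)
  have hG0 : 0 < G := by linarith
  have hN2 : 2 ≤ N := by
    rw [hN]
    unfold NN
    calc (2 : ℝ) ≤ T := g6
      _ = T ^ (1 : ℝ) := (Real.rpow_one T).symm
      _ ≤ T ^ (3 / 2 : ℝ) := Real.rpow_le_rpow_of_exponent_le hT1 (by norm_num)
  have hN1 : 1 ≤ N := by linarith
  have hlogN : Real.log N = 3 / 2 * Real.log T := by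
    rw [hN]
    unfold NN
    rw [Real.log_rpow hT0]
  have hlT : 0 ≤ Real.log T := Real.log_nonneg hT1
  have hδ0 : 0 < δ := Real.rpow_pos_of_pos hT0 _
  have hδ2 : δ ≤ 1 / 2 := by
    have v1 := Real.rpow_le_rpow (by positivity) g7 (by norm_num : (0 : ℝ) ≤ 1 / 200)
    rw [← Real.rpow_mul (by norm_num)] at v1
    norm_num at v1
    rw [hδ, Real.rpow_neg hT0.le, inv_eq_one_div]
    apply one_div_le_one_div_of_le (by norm_num)
    norm_num
    exact v1
  have hδ1 : δ ≤ 1 := by linarith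
  have hE0 : 0 < E := Real.exp_pos _
  set L : ℝ := (C1 + C2) * (3 / 2 * Real.log T) + C2 with hL
  have hL0 : 0 ≤ L := by
    rw [hL]
    positivity
  -- lower bound for `Z`
  have low : ∀ t, a ≤ t → -L ≤ Z N G t := by
    intro t ht
    have ht0 : 0 < t := lt_of_lt_of_le ha0 ht
    have u1 := B_nonneg (N := N) (t := t) hG0
    have u2 := m1 N hN2
    have u3 := m2 N G t hN2 hG1 (ha1.trans ht)
    have u4 : N * G / t ^ 2 ≤ 1 := by
      rw [div_le_one (by positivity)]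
      have v1 : N * G ≤ T ^ (7 / 4 : ℝ) := by
        rw [hN, hG]
        unfold NN GG
        rw [← Real.rpow_add hT0]
        exact Real.rpow_le_rpow_of_exponent_le hT1 (by linarith)
      have v2 : T ^ (7 / 4 : ℝ) ≤ a ^ 2 := by
        rw [ha, ← Real.rpow_natCast (T ^ (1 - ε)) 2, ← Real.rpow_mul hT0.le]
        exact Real.rpow_le_rpow_of_exponent_le hT1 (by push_cast; linarith)
      have v3 : a ^ 2 ≤ t ^ 2 := pow_le_pow_left₀ ha0.le ht 2
      linarith
    have u5 := (abs_le.1 u3).2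
    have u6 : C2 * (Real.log N + N * G / t ^ 2) ≤ C2 * (3 / 2 * Real.log T + 1) := by
      rw [hlogN]
      exact mul_le_mul_of_nonneg_left (by linarith) hC2.le
    rw [hlogN] at u2
    unfold Z
    rw [hL]
    nlinarith
  -- pointwise bound
  have pt : ∀ t ∈ Icc a b, W T t * (max (Z N G t - 1) 0) ^ 3 ≤
      8 * (W T t * (2 * (Y G t K).re) ^ 3) + 8 * (L + δ) * (W T t * (2 * (Y G t K).re) ^ 2) := by
    intro t ht
    have v := B13_pt hδ0.le hδ2 hL0 (t4 T t g4 ht.1 ht.2) (low t ht.1)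
    have v2 := mul_le_mul_of_nonneg_left v (B13_W0 T t)
    calc _ ≤ _ := v2
      _ = _ := by ring
  -- continuity
  have sub : Icc a b ⊆ Ioi 0 := fun t ht => lt_of_lt_of_le ha0 ht.1
  have cW : ContinuousOn (fun t => W T t) (Icc a b) := (B13_Wc hT0).mono sub
  have cY : ContinuousOn (fun t => 2 * (Y G t K).re) (Icc a b) :=
    (continuousOn_const.mul (Complex.continuous_re.comp_continuousOn Y_cont)).mono sub
  have cZ : ContinuousOn (fun t => W T t * (max (Z N G t - 1) 0) ^ 3) (Icc a b) :=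
    cW.mul ((((Z_cont hN1 hG1).sub continuous_const).max continuous_const).pow 3).continuousOn
  have c3 : ContinuousOn (fun t => W T t * (2 * (Y G t K).re) ^ 3) (Icc a b) := cW.mul (cY.pow 3)
  have c2 : ContinuousOn (fun t => W T t * (2 * (Y G t K).re) ^ 2) (Icc a b) := cW.mul (cY.pow 2)
  have iZ : IntervalIntegrable (fun t => W T t * (max (Z N G t - 1) 0) ^ 3) volume a b :=
    ContinuousOn.intervalIntegrable_of_Icc hab cZ
  have i3 : IntervalIntegrable (fun t => W T t * (2 * (Y G t K).re) ^ 3) volume a b :=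
    ContinuousOn.intervalIntegrable_of_Icc hab c3
  have i2 : IntervalIntegrable (fun t => W T t * (2 * (Y G t K).re) ^ 2) volume a b :=
    ContinuousOn.intervalIntegrable_of_Icc hab c2
  have step1 : ∫ t in a..b, W T t * (max (Z N G t - 1) 0) ^ 3 ≤
      8 * (∫ t in a..b, W T t * (2 * (Y G t K).re) ^ 3) +
        8 * (L + δ) * (∫ t in a..b, W T t * (2 * (Y G t K).re) ^ 2) := by
    refine (intervalIntegral.integral_mono_on hab iZ
      ((i3.const_mul 8).add (i2.const_mul (8 * (L + δ)))) pt).trans (le_of_eq ?_)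
    rw [intervalIntegral.integral_add (i3.const_mul 8) (i2.const_mul (8 * (L + δ))),
      intervalIntegral.integral_const_mul, intervalIntegral.integral_const_mul]
  -- third moment
  have A2 : (T ^ (ε / 2)) ^ 2 = T ^ ε := by
    rw [← Real.rpow_natCast (T ^ (ε / 2)) 2, ← Real.rpow_mul hT0.le]
    congr 1
    push_cast
    ring
  have y3 : ∀ t, 0 < t → |W T t * (2 * (Y G t K).re) ^ 3| ≤
      W T t * (8 * (T ^ 3 * (t ^ (-(1 / 4) : ℝ)) ^ 3)) := by
    intro t ht
    have v1 := t3 T t g3 ht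
    rw [abs_mul, abs_of_nonneg (B13_W0 T t), abs_pow]
    refine mul_le_mul_of_nonneg_left ?_ (B13_W0 T t)
    calc |2 * (Y G t K).re| ^ 3 ≤ (2 * (T * t ^ (-(1 / 4) : ℝ))) ^ 3 :=
          pow_le_pow_left₀ (abs_nonneg _) (B13_yle.trans (by linarith)) 3
      _ = _ := by ring
  have step3 : ∫ t in a..b, W T t * (2 * (Y G t K).re) ^ 3 ≤ T ^ (3 / 4 + η + 201 * ε) + 2 := by
    have w := B13_win (h := fun t => W T t * (2 * (Y G t K).re) ^ 3) (U := 3072 * T ^ 4 * E)
      (V := 3072 * T ^ 5 * E) ha0 hab (B13_int3 hT0 hG0 K) ?_ ?_ (by positivity)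
    · have w1 : 3072 * T ^ 4 * E * a ≤ 1 := by
        have : 3072 * T ^ 4 * E * a ≤ 3072 * T ^ 4 * E * T :=
          mul_le_mul_of_nonneg_left haT (by positivity)
        have e : 3072 * T ^ 4 * E * T = 3072 * T ^ 5 * E := by ring
        linarith
      have w2 : 3072 * T ^ 5 * E / b ≤ 1 := by
        rw [div_le_one (by linarith)]
        linarith
      linarith
    · intro t ht hta
      refine (y3 t ht).trans ?_
      have v1 := B13_near hT0 ht (Real.rpow_pos_of_pos hT0 (ε / 2)).le (by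
        rw [A2, le_div_iff₀ ht]
        calc T ^ ε * t ≤ T ^ ε * T ^ (1 - ε) := mul_le_mul_of_nonneg_left hta (Real.rpow_nonneg hT0.le _)
          _ = T := by
            rw [← Real.rpow_add hT0]
            norm_num)
      have htT : t ≤ T := hta.trans haT
      have v2 : t ^ 2 * (t ^ (-(1 / 4) : ℝ)) ^ 3 ≤ T ^ 2 := by
        have e1 : t ^ 2 * (t ^ (-(1 / 4) : ℝ)) ^ 3 = t ^ (5 / 4 : ℝ) := by
          rw [← Real.rpow_natCast (t ^ (-(1 / 4) : ℝ)) 3, ← Real.rpow_mul ht.le,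
            ← Real.rpow_natCast t 2, ← Real.rpow_add ht]
          norm_num
        rw [e1]
        calc t ^ (5 / 4 : ℝ) ≤ T ^ (5 / 4 : ℝ) := Real.rpow_le_rpow ht.le htT (by norm_num)
          _ ≤ T ^ (2 : ℝ) := Real.rpow_le_rpow_of_exponent_le hT1 (by norm_num)
          _ = T ^ 2 := by norm_cast
      have hs : 0 < t ^ (-(1 / 4) : ℝ) := Real.rpow_pos_of_pos ht _
      calc W T t * (8 * (T ^ 3 * (t ^ (-(1 / 4) : ℝ)) ^ 3)) ≤
            E * (384 * t ^ 2 / T ^ 2) * (8 * (T ^ 3 * (t ^ (-(1 / 4) : ℝ)) ^ 3)) :=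
            mul_le_mul_of_nonneg_right v1 (by positivity)
        _ = 3072 * E * T * (t ^ 2 * (t ^ (-(1 / 4) : ℝ)) ^ 3) := by
            field_simp
            ring
        _ ≤ 3072 * E * T * T ^ 2 := mul_le_mul_of_nonneg_left v2 (by positivity)
        _ = 3072 * T ^ 3 * E := by ring
        _ ≤ 3072 * T ^ 4 * E := by
            have : T ^ 3 ≤ T ^ 4 := pow_le_pow_right₀ hT1 (by norm_num)
            nlinarith
    · intro t ht
      have ht0 : 0 < t := by linarith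
      have ht1 : 1 ≤ t := by linarith
      refine (y3 t ht0).trans ?_
      have v1 := B13_far hT0 ht0 (Real.rpow_pos_of_pos hT0 (ε / 2)).le (by
        rw [A2, le_div_iff₀ hT0]
        calc T ^ ε * T = T ^ ε * T ^ (1 : ℝ) := by rw [Real.rpow_one]
          _ = b := by
            rw [← Real.rpow_add hT0, hb]
            congr 1
            ring
          _ ≤ t := ht.le)
      have v2 : t ^ (-(1 / 4) : ℝ) ≤ 1 := Real.rpow_le_one_of_one_le_of_nonpos ht1 (by norm_num)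
      have hs : 0 < t ^ (-(1 / 4) : ℝ) := Real.rpow_pos_of_pos ht0 _
      have v3 : (t ^ (-(1 / 4) : ℝ)) ^ 3 ≤ 1 := pow_le_one₀ hs.le v2
      rw [B13_rpow ht0]
      calc W T t * (8 * (T ^ 3 * (t ^ (-(1 / 4) : ℝ)) ^ 3)) ≤
            E * (384 * T ^ 2 / t ^ 2) * (8 * (T ^ 3 * (t ^ (-(1 / 4) : ℝ)) ^ 3)) :=
            mul_le_mul_of_nonneg_right v1 (by positivity)
        _ = 3072 * E * T ^ 5 / t ^ 2 * (t ^ (-(1 / 4) : ℝ)) ^ 3 := by
            field_simp
            ring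
        _ ≤ 3072 * E * T ^ 5 / t ^ 2 * 1 := mul_le_mul_of_nonneg_left v3 (by positivity)
        _ = 3072 * T ^ 5 * E * (1 / t ^ 2) := by
            field_simp
  -- second moment
  have step2 : ∫ t in a..b, W T t * (2 * (Y G t K).re) ^ 2 ≤ 4 * T ^ (3 / 4 + η + 10 * ε) := by
    have j := B13_int2 hT0 hG0 K
    have j2 : IntegrableOn (fun t => 4 * (W T t * ‖Y G t K‖ ^ 2)) (Ioi 0) := j.const_mul 4
    have sub2 : Ioc a b ⊆ Ioi 0 := fun t ht => lt_trans ha0 ht.1
    rw [intervalIntegral.integral_of_le hab]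
    calc ∫ t in Ioc a b, W T t * (2 * (Y G t K).re) ^ 2 ≤
          ∫ t in Ioc a b, 4 * (W T t * ‖Y G t K‖ ^ 2) := by
          refine setIntegral_mono_on ((intervalIntegrable_iff_integrableOn_Ioc_of_le hab).1 i2)
            (j2.mono_set sub2) measurableSet_Ioc fun t _ => ?_
          have v := pow_le_pow_left₀ (abs_nonneg _) (B13_yle (y := Y G t K)) 2
          rw [sq_abs] at v
          have := mul_le_mul_of_nonneg_left v (B13_W0 T t)
          calc _ ≤ _ := this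
            _ = _ := by ring
      _ ≤ ∫ t in Ioi 0, 4 * (W T t * ‖Y G t K‖ ^ 2) := by
          refine setIntegral_mono_set j2 ?_ (Filter.Eventually.of_forall sub2)
          exact Filter.Eventually.of_forall fun t =>
            mul_nonneg (by norm_num) (mul_nonneg (B13_W0 T t) (by positivity))
      _ = 4 * ∫ t in Ioi 0, W T t * ‖Y G t K‖ ^ 2 := integral_const_mul _ _
      _ ≤ _ := by linarith
  -- conclusion
  set Q : ℝ := T ^ (3 / 4 + η + 201 * ε) with hQ
  have hQ1 : 1 ≤ Q := Real.one_le_rpow hT1 (by linarith)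
  have p1 : T ^ (3 / 4 + η + 10 * ε) ≤ Q := Real.rpow_le_rpow_of_exponent_le hT1 (by linarith)
  have p3 : Q * T ^ (10 * ε) = T ^ (3 / 4 + η + 211 * ε) := by
    rw [hQ, ← Real.rpow_add hT0]
    congr 1
    ring
  have s2 : 8 * (L + δ) * (∫ t in a..b, W T t * (2 * (Y G t K).re) ^ 2) ≤ 32 * (L + 1) * Q := by
    have h5 : 8 * (L + δ) * (∫ t in a..b, W T t * (2 * (Y G t K).re) ^ 2) ≤ 8 * (L + δ) * (4 * Q) :=
      mul_le_mul_of_nonneg_left (step2.trans (mul_le_mul_of_nonneg_left p1 (by norm_num))) (by positivity)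
    have h6 : 8 * (L + δ) * (4 * Q) ≤ 8 * (L + 1) * (4 * Q) :=
      mul_le_mul_of_nonneg_right (by linarith) (by linarith)
    linarith
  have s4 : Q * (64 + 32 * L) ≤ Q * T ^ (10 * ε) := mul_le_mul_of_nonneg_left q2 (by linarith)
  rw [← p3]
  nlinarith [step1, step3, s2, s4, hQ1]

end U6
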