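import Pool.Agent.Lib.MP_39df77_nt.U6.A03
import Pool.Agent.Lib.MP_39df77_nt.U6.A06
import Pool.Agent.Lib.MP_39df77_nt.U6.A07
import Pool.Agent.Lib.MP_39df77_nt.U6.A12
import Pool.Agent.Lib.MP_39df77_nt.U6.A13
import Pool.Agent.Lib.MP_39df77_nt.U6.A14
/-! B14: reduction. `|ζ| ≤ |D| + C`. `{|D|² ≤ G T^{2ε}}`: `∫ |D|⁶ ≤ G T^{2ε} ∫ |D|⁴`, A06. Otherwise cut `[T,2T]` into intervals `I` of length
`G`; if some `t ∈ I` has `|D|² > G T^{2ε}` then (A03) `B(t') ≥ T^ε ≥ 2(mN + |M0|)` for all `t' ∈ I`, so `Z(t') ≥ B(t')/2`, and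
`∫_I |D|⁶ ≤ sup|D|⁴ ∫_I |D|² ≤ C log²T G³ (min_I B)³ ≤ C log²T G² ∫_I (Z-1)₊³`. -/
open Complex MeasureTheory Set
namespace U6

/-- one block -/
theorem B14_block {a b G lam C C7 L : ℝ} {z d B Z : ℝ → ℝ} (hab : a < b) (hG : 1 ≤ G) (h1 : G / 2 ≤ b - a)
    (h2 : b - a ≤ G)
    (hz : Continuous z) (hd : Continuous d) (hZ : Continuous Z)
    (hz0 : ∀ t ∈ Icc a b, 0 ≤ z t) (hd0 : ∀ t ∈ Icc a b, 0 ≤ d t) (hzd : ∀ t ∈ Icc a b, z t ≤ d t + C7)
    (hC7 : 0 ≤ C7) (hC : 0 < C) (hL : 1 ≤ L) (hCL : 1 ≤ C * L) (hlam : C7 ^ 2 ≤ lam)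
    (hsup : ∀ t ∈ Icc a b, ∀ t' ∈ Icc a b, d t ^ 2 ≤ C * L * (G * B t' + 1))
    (hmean : ∀ t' ∈ Icc a b, ∫ t in a..b, d t ^ 2 ≤ C * (G * B t'))
    (hZ0 : ∀ t ∈ Icc a b, 0 ≤ Z t)
    (hBZ : ∀ t' ∈ Icc a b, lam < C * L * (G * B t' + 1) → B t' ≤ 2 * Z t' ∧ 1 ≤ B t') :
    ∫ t in a..b, z t ^ 6 ≤ 4 * lam * (∫ t in a..b, z t ^ 4) +
      512 * (4 * C ^ 3 * L ^ 2 + C7 ^ 6) * G ^ 2 * ∫ t in a..b, Z t ^ 3 := by
  have hle : a ≤ b := hab.le
  have hlam0 : 0 ≤ lam := le_trans (sq_nonneg _) hlam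
  have hI3 : 0 ≤ ∫ t in a..b, Z t ^ 3 :=
    intervalIntegral.integral_nonneg hle (fun t ht => pow_nonneg (hZ0 t ht) 3)
  have hK0 : 0 ≤ 512 * (4 * C ^ 3 * L ^ 2 + C7 ^ 6) * G ^ 2 := by positivity
  by_cases hcase : ∀ t ∈ Icc a b, d t ^ 2 ≤ lam
  · have hpt : ∀ t ∈ Icc a b, z t ^ 6 ≤ 4 * lam * z t ^ 4 := by
      intro t ht
      have h3 : z t ^ 2 ≤ 4 * lam := by
        have h4 : z t ^ 2 ≤ (d t + C7) ^ 2 := pow_le_pow_left₀ (hz0 t ht) (hzd t ht) 2
        nlinarith [sq_nonneg (d t - C7), hcase t ht]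
      calc z t ^ 6 = z t ^ 2 * z t ^ 4 := by ring
        _ ≤ 4 * lam * z t ^ 4 := by
          apply mul_le_mul_of_nonneg_right h3 (by positivity)
    have h5 : ∫ t in a..b, z t ^ 6 ≤ ∫ t in a..b, 4 * lam * z t ^ 4 := by
      apply intervalIntegral.integral_mono_on hle
      · exact (hz.pow 6).intervalIntegrable _ _
      · exact (continuous_const.mul (hz.pow 4)).intervalIntegrable _ _
      · exact hpt
    rw [intervalIntegral.integral_const_mul] at h5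
    have := mul_nonneg hK0 hI3
    linarith
  · push Not at hcase
    obtain ⟨t₀, ht₀, hd₀⟩ := hcase
    have hlt : ∀ t' ∈ Icc a b, lam < C * L * (G * B t' + 1) := fun t' ht' =>
      lt_of_lt_of_le hd₀ (hsup t₀ ht₀ t' ht')
    have hmain : ∀ t' ∈ Icc a b, ∫ t in a..b, z t ^ 6 ≤ 256 * (4 * C ^ 3 * L ^ 2 + C7 ^ 6) * G ^ 3 * Z t' ^ 3 := by
      intro t' ht'
      obtain ⟨hb1, hb2⟩ := hBZ t' ht' (hlt t' ht')
      have hGB : 1 ≤ G * B t' := by nlinarith
      have hd2 : ∀ t ∈ Icc a b, d t ^ 2 ≤ 2 * (C * L) * (G * B t') := by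
        intro t ht
        have := hsup t ht t' ht'
        have h6 : C * L * (G * B t' + 1) ≤ C * L * (2 * (G * B t')) :=
          mul_le_mul_of_nonneg_left (by linarith) (by positivity)
        linarith
      have hB0 : 0 ≤ B t' := by linarith
      have hpt : ∀ t ∈ Icc a b, z t ^ 6 ≤ 32 * ((2 * (C * L) * (G * B t')) ^ 2 * d t ^ 2) + 32 * C7 ^ 6 := by
        intro t ht
        have h4 : z t ^ 6 ≤ (d t + C7) ^ 6 := pow_le_pow_left₀ (hz0 t ht) (hzd t ht) 6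
        have h5 : (d t + C7) ^ 6 ≤ 32 * (d t ^ 6 + C7 ^ 6) := by
          have := add_pow_le (hd0 t ht) hC7 6
          norm_num at this
          exact this
        have h6 : d t ^ 6 ≤ (2 * (C * L) * (G * B t')) ^ 2 * d t ^ 2 := by
          have h7 : d t ^ 4 ≤ (2 * (C * L) * (G * B t')) ^ 2 := by
            have := pow_le_pow_left₀ (sq_nonneg (d t)) (hd2 t ht) 2
            calc d t ^ 4 = (d t ^ 2) ^ 2 := by ring
              _ ≤ _ := this
          calc d t ^ 6 = d t ^ 4 * d t ^ 2 := by ring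
            _ ≤ _ := mul_le_mul_of_nonneg_right h7 (by positivity)
        linarith
      have h8 : ∫ t in a..b, z t ^ 6 ≤
          ∫ t in a..b, (32 * ((2 * (C * L) * (G * B t')) ^ 2 * d t ^ 2) + 32 * C7 ^ 6) := by
        apply intervalIntegral.integral_mono_on hle
        · exact (hz.pow 6).intervalIntegrable _ _
        · exact Continuous.intervalIntegrable (by fun_prop) _ _
        · exact hpt
      have h9 : ∫ t in a..b, (32 * ((2 * (C * L) * (G * B t')) ^ 2 * d t ^ 2) + 32 * C7 ^ 6) =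
          32 * ((2 * (C * L) * (G * B t')) ^ 2 * ∫ t in a..b, d t ^ 2) + (b - a) * (32 * C7 ^ 6) := by
        rw [intervalIntegral.integral_add, intervalIntegral.integral_const_mul,
          intervalIntegral.integral_const_mul, intervalIntegral.integral_const, smul_eq_mul]
        · exact Continuous.intervalIntegrable (by fun_prop) _ _
        · exact Continuous.intervalIntegrable (by fun_prop) _ _
      have h10 := hmean t' ht'
      have h11 : (2 * (C * L) * (G * B t')) ^ 2 * ∫ t in a..b, d t ^ 2 ≤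
          (2 * (C * L) * (G * B t')) ^ 2 * (C * (G * B t')) :=
        mul_le_mul_of_nonneg_left h10 (by positivity)
      have h12 : (b - a) * (32 * C7 ^ 6) ≤ G ^ 3 * B t' ^ 3 * (32 * C7 ^ 6) := by
        apply mul_le_mul_of_nonneg_right _ (by positivity)
        have h13 : G ≤ G ^ 3 := by
          calc G = G ^ 1 := (pow_one G).symm
            _ ≤ G ^ 3 := pow_le_pow_right₀ hG (by norm_num)
        have h14 : 1 ≤ B t' ^ 3 := one_le_pow₀ hb2
        have h15 : G ^ 3 * 1 ≤ G ^ 3 * B t' ^ 3 := mul_le_mul_of_nonneg_left h14 (by positivity)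
        linarith
      have h16 : B t' ^ 3 ≤ 8 * Z t' ^ 3 := by
        have := pow_le_pow_left₀ hB0 hb1 3
        calc B t' ^ 3 ≤ (2 * Z t') ^ 3 := this
          _ = 8 * Z t' ^ 3 := by ring
      calc ∫ t in a..b, z t ^ 6 ≤ 32 * ((2 * (C * L) * (G * B t')) ^ 2 * (C * (G * B t'))) +
            G ^ 3 * B t' ^ 3 * (32 * C7 ^ 6) := by linarith
        _ = 32 * (4 * C ^ 3 * L ^ 2 + C7 ^ 6) * G ^ 3 * B t' ^ 3 := by ring
        _ ≤ 32 * (4 * C ^ 3 * L ^ 2 + C7 ^ 6) * G ^ 3 * (8 * Z t' ^ 3) :=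
          mul_le_mul_of_nonneg_left h16 (by positivity)
        _ = 256 * (4 * C ^ 3 * L ^ 2 + C7 ^ 6) * G ^ 3 * Z t' ^ 3 := by ring
    have h20 : ∫ _t' in a..b, (∫ t in a..b, z t ^ 6) ≤
        ∫ t' in a..b, 256 * (4 * C ^ 3 * L ^ 2 + C7 ^ 6) * G ^ 3 * Z t' ^ 3 := by
      apply intervalIntegral.integral_mono_on hle
      · exact Continuous.intervalIntegrable (by fun_prop) _ _
      · exact Continuous.intervalIntegrable (by fun_prop) _ _
      · exact hmain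
    rw [intervalIntegral.integral_const, smul_eq_mul, intervalIntegral.integral_const_mul] at h20
    have h60 : 0 ≤ ∫ t in a..b, z t ^ 6 :=
      intervalIntegral.integral_nonneg hle (fun t ht => pow_nonneg (hz0 t ht) 6)
    have h40 : 0 ≤ ∫ t in a..b, z t ^ 4 :=
      intervalIntegral.integral_nonneg hle (fun t ht => pow_nonneg (hz0 t ht) 4)
    have h21 : G / 2 * ∫ t in a..b, z t ^ 6 ≤ (b - a) * ∫ t in a..b, z t ^ 6 :=
      mul_le_mul_of_nonneg_right h1 h60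
    have h22 : G / 2 * ∫ t in a..b, z t ^ 6 ≤
        G / 2 * (512 * (4 * C ^ 3 * L ^ 2 + C7 ^ 6) * G ^ 2 * ∫ t in a..b, Z t ^ 3) := by
      calc G / 2 * ∫ t in a..b, z t ^ 6 ≤
          256 * (4 * C ^ 3 * L ^ 2 + C7 ^ 6) * G ^ 3 * ∫ t in a..b, Z t ^ 3 := le_trans h21 h20
        _ = _ := by ring
    have h23 : ∫ t in a..b, z t ^ 6 ≤ 512 * (4 * C ^ 3 * L ^ 2 + C7 ^ 6) * G ^ 2 * ∫ t in a..b, Z t ^ 3 :=
      le_of_mul_le_mul_left h22 (by linarith)
    have := mul_nonneg (mul_nonneg (by norm_num : (0:ℝ) ≤ 4) hlam0) h40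
    linarith

/-- the sum over the blocks -/
theorem B14_blocks {T G lam C C7 L : ℝ} {z d B Z : ℝ → ℝ} (hT : 0 < T) (hG : 1 ≤ G) (hGT : G ≤ T)
    (hz : Continuous z) (hd : Continuous d) (hZ : Continuous Z)
    (hz0 : ∀ t ∈ Icc T (2 * T), 0 ≤ z t) (hd0 : ∀ t ∈ Icc T (2 * T), 0 ≤ d t)
    (hzd : ∀ t ∈ Icc T (2 * T), z t ≤ d t + C7)
    (hC7 : 0 ≤ C7) (hC : 0 < C) (hL : 1 ≤ L) (hCL : 1 ≤ C * L) (hlam : C7 ^ 2 ≤ lam)
    (hsup : ∀ t t' : ℝ, |t - t'| ≤ G → d t ^ 2 ≤ C * L * (G * B t' + 1))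
    (hmean : ∀ t t' : ℝ, |t - t'| ≤ G → ∫ u in t..(t + G), d u ^ 2 ≤ C * (G * B t'))
    (hZ0 : ∀ t ∈ Icc T (2 * T), 0 ≤ Z t)
    (hBZ : ∀ t' ∈ Icc T (2 * T), lam < C * L * (G * B t' + 1) → B t' ≤ 2 * Z t' ∧ 1 ≤ B t') :
    ∫ t in T..(2 * T), z t ^ 6 ≤ 4 * lam * (∫ t in T..(2 * T), z t ^ 4) +
      512 * (4 * C ^ 3 * L ^ 2 + C7 ^ 6) * G ^ 2 * ∫ t in T..(2 * T), Z t ^ 3 := by
  have hG0 : 0 < G := by linarith
  set J : ℕ := ⌈T / G⌉₊ with hJ
  have hTG : 1 ≤ T / G := by rw [le_div_iff₀ hG0]; linarith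
  have hJ1 : T / G ≤ J := Nat.le_ceil _
  have hJ2 : (J : ℝ) < T / G + 1 := Nat.ceil_lt_add_one (by linarith)
  have hJ0 : (0 : ℝ) < J := by linarith
  set g : ℝ := T / J with hg
  have hg0 : 0 < g := by positivity
  have hgJ : g * J = T := by rw [hg]; field_simp
  have hgG : g ≤ G := by
    rw [hg, div_le_iff₀ hJ0]
    rw [div_le_iff₀ hG0] at hJ1
    linarith
  have hgG2 : G / 2 ≤ g := by
    rw [hg, le_div_iff₀ hJ0]
    have h3 : (J : ℝ) ≤ 2 * (T / G) := by linarith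
    have h4 : G / 2 * (2 * (T / G)) = T := by field_simp
    have h5 : G / 2 * J ≤ G / 2 * (2 * (T / G)) := mul_le_mul_of_nonneg_left h3 (by positivity)
    linarith
  set p : ℕ → ℝ := fun j => T + g * j with hp
  have hp0 : p 0 = T := by simp [hp]
  have hpJ : p J = 2 * T := by simp only [hp]; linarith
  have hps : ∀ j, p (j + 1) = p j + g := by intro j; simp only [hp]; push_cast; ring
  have key : ∀ F : ℝ → ℝ, Continuous F → ∑ j ∈ Finset.range J, ∫ t in (p j)..(p (j + 1)), F t =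
      ∫ t in T..(2 * T), F t := by
    intro F hF
    rw [intervalIntegral.sum_integral_adjacent_intervals (fun k _ => hF.intervalIntegrable _ _), hp0, hpJ]
  have hblock : ∀ j ∈ Finset.range J, ∫ t in (p j)..(p (j + 1)), z t ^ 6 ≤
      4 * lam * (∫ t in (p j)..(p (j + 1)), z t ^ 4) +
      512 * (4 * C ^ 3 * L ^ 2 + C7 ^ 6) * G ^ 2 * ∫ t in (p j)..(p (j + 1)), Z t ^ 3 := by
    intro j hj
    have hj' : (j : ℝ) + 1 ≤ J := by exact_mod_cast Finset.mem_range.1 hj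
    have hlo : T ≤ p j := by
      simp only [hp]
      have : 0 ≤ g * j := by positivity
      linarith
    have hhi : p (j + 1) ≤ 2 * T := by
      simp only [hp]
      push_cast
      have : g * ((j : ℝ) + 1) ≤ g * J := mul_le_mul_of_nonneg_left hj' hg0.le
      linarith
    have hsub : ∀ t, t ∈ Icc (p j) (p (j + 1)) → t ∈ Icc T (2 * T) := fun t ht =>
      ⟨le_trans hlo ht.1, le_trans ht.2 hhi⟩
    have hpp := hps j
    have hdist : ∀ t ∈ Icc (p j) (p (j + 1)), ∀ t' ∈ Icc (p j) (p (j + 1)), |t - t'| ≤ G := by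
      intro t ht t' ht'
      rw [abs_le]
      constructor <;> linarith [ht.1, ht.2, ht'.1, ht'.2]
    apply B14_block (B := B) (d := d) (lam := lam) (by linarith) hG (by linarith) (by linarith) hz hd hZ
      (fun t ht => hz0 t (hsub t ht)) (fun t ht => hd0 t (hsub t ht)) (fun t ht => hzd t (hsub t ht))
      hC7 hC hL hCL hlam
    · intro t ht t' ht'
      exact hsup t t' (hdist t ht t' ht')
    · intro t' ht'
      have h6 := hmean (p j) t' (hdist _ ⟨le_refl _, by linarith⟩ t' ht')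
      refine le_trans ?_ h6
      apply intervalIntegral.integral_mono_interval (le_refl _) (by linarith) (by linarith)
      · exact Filter.Eventually.of_forall (fun t => sq_nonneg _)
      · exact (hd.pow 2).intervalIntegrable _ _
    · exact fun t ht => hZ0 t (hsub t ht)
    · exact fun t ht => hBZ t (hsub t ht)
  have hsum := Finset.sum_le_sum hblock
  rw [Finset.sum_add_distrib, ← Finset.mul_sum, ← Finset.mul_sum] at hsum
  rw [key (fun t => z t ^ 6) (hz.pow 6), key (fun t => z t ^ 4) (hz.pow 4), key (fun t => Z t ^ 3) (hZ.pow 3)] at hsum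
  exact hsum

theorem B14_log (ε M : ℝ) (hε : 0 < ε) : ∃ T₀ : ℝ, ∀ T : ℝ, T₀ ≤ T → M * (1 + Real.log T) ≤ T ^ ε := by
  have h1 : (fun T : ℝ => Real.log T) =o[Filter.atTop] fun T : ℝ => T ^ ε := isLittleO_log_rpow_atTop hε
  have h2 : (fun _ : ℝ => (1 : ℝ)) =o[Filter.atTop] fun T : ℝ => T ^ ε := by
    rw [Asymptotics.isLittleO_const_left]
    right
    have := tendsto_rpow_atTop hε
    exact Filter.tendsto_atTop_mono (fun x => le_abs_self _) this
  have h3 := ((h2.add h1).const_mul_left M).def (c := 1) (by norm_num)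
  have h4 := h3.and (Filter.eventually_ge_atTop (0 : ℝ))
  obtain ⟨T₀, hT₀⟩ := Filter.eventually_atTop.1 h4
  refine ⟨T₀, fun T hT => ?_⟩
  obtain ⟨h5, h6⟩ := hT₀ T hT
  rw [one_mul] at h5
  have h7 : ‖T ^ ε‖ = T ^ ε := by
    rw [Real.norm_eq_abs, abs_of_nonneg (Real.rpow_nonneg h6 _)]
  rw [h7] at h5
  exact le_trans (le_abs_self _) h5

theorem B14_zeta_cont : Continuous (fun t : ℝ => ‖riemannZeta (1 / 2 + t * I)‖) := by
  apply Continuous.norm
  rw [continuous_iff_continuousAt]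
  intro t
  have h1 : (1 / 2 + (t : ℂ) * I) ≠ 1 := by
    intro h
    have := congrArg Complex.re h
    simp at this
  have h2 := (differentiableAt_riemannZeta h1).continuousAt
  exact ContinuousAt.comp (f := fun t : ℝ => (1 / 2 + (t : ℂ) * I)) h2 (by fun_prop)

/-- numerical consequences of `M (1 + log T) ≤ X` -/
theorem B14_consts {C C7 C6 C12 C13 E ℓ X L : ℝ} (hC : 1 ≤ C) (hC7 : 0 < C7) (hC12 : 0 < C12) (hC13 : 0 < C13)
    (hE : 0 < E) (hℓ : 1 ≤ ℓ) (hL : L = 3 / 2 * ℓ)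
    (hX : (8 * C + 8 * (C12 + C13) + C7 ^ 2 + C7 ^ 6 + 8 * |C6| + 2048 * E * (C + 1) + 4) * (1 + ℓ) ≤ X) :
    C7 ^ 2 ≤ X ∧ C7 ^ 6 ≤ X ∧ 8 * |C6| ≤ X ∧ 2048 * E * (C + 1) ≤ X ∧ 8 ≤ X ∧ 8 * C13 ≤ X ∧
      4 * (C * L) ≤ X ∧ 8 * ((C12 + C13) * L) ≤ 3 / 2 * X := by
  have e0 : 0 ≤ 8 * (C12 + C13) := by positivity
  have e1 : 0 ≤ C7 ^ 2 := by positivity
  have e2 : 0 ≤ C7 ^ 6 := by positivity
  have e3 : 0 ≤ 8 * |C6| := by positivity
  have e4 : 0 ≤ 2048 * E * (C + 1) := by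
    have : 0 < C := by linarith
    positivity
  have e5 : 0 ≤ 8 * C := by linarith
  obtain ⟨A, hA⟩ : ∃ A, A = 8 * C + 8 * (C12 + C13) + C7 ^ 2 + C7 ^ 6 + 8 * |C6| + 2048 * E * (C + 1) + 4 := ⟨_, rfl⟩
  rw [← hA] at hX
  have hA0 : 0 ≤ A := by linarith
  have h1 : A * 1 ≤ A * (1 + ℓ) := mul_le_mul_of_nonneg_left (by linarith) hA0
  have h2 : (8 * C) * ℓ ≤ A * (1 + ℓ) :=
    mul_le_mul (by linarith) (by linarith) (by linarith) hA0
  have h3 : (8 * (C12 + C13)) * ℓ ≤ A * (1 + ℓ) :=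
    mul_le_mul (by linarith) (by linarith) (by linarith) hA0
  refine ⟨by linarith, by linarith, by linarith, by linarith, by linarith, by linarith, ?_, ?_⟩
  · rw [hL]; linarith
  · rw [hL]; linarith

/-- the threshold step -/
theorem B14_thr {C C12 C13 X L G b m Mo z Q : ℝ} (hG : 1 ≤ G) (hX1 : 1 ≤ X) (hCL0 : 0 ≤ C * L)
    (hCL4 : 4 * (C * L) ≤ X) (hx13 : 8 * C13 ≤ X) (hC1213 : 8 * ((C12 + C13) * L) ≤ 3 / 2 * X) (hC13 : 0 < C13)
    (hlt : G * X ^ 2 < C * L * (G * b + 1)) (hm : m ≤ C12 * L) (hM : |Mo| ≤ C13 * (L + Q)) (hQ : Q ≤ 1)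
    (hz : z = b - m - Mo) (hX8 : 8 ≤ X) : b ≤ 2 * max (z - 1) 0 ∧ 1 ≤ b := by
  have hBX : X ≤ b := by
    by_contra hcon
    push Not at hcon
    have h13 : C * L * (G * b + 1) ≤ C * L * (2 * (G * X)) := by
      apply mul_le_mul_of_nonneg_left _ hCL0
      have h14 : G * b ≤ G * X := mul_le_mul_of_nonneg_left hcon.le (by linarith)
      have h15 : 1 ≤ G * X := one_le_mul_of_one_le_of_one_le hG hX1
      linarith
    have h16 : C * L * (2 * (G * X)) ≤ G * X ^ 2 := by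
      have h17 : 0 ≤ G * X := by positivity
      have h18 : (2 * (C * L)) * (G * X) ≤ X * (G * X) :=
        mul_le_mul_of_nonneg_right (by linarith) h17
      calc C * L * (2 * (G * X)) = (2 * (C * L)) * (G * X) := by ring
        _ ≤ X * (G * X) := h18
        _ = G * X ^ 2 := by ring
    linarith
  have h24 : |Mo| ≤ C13 * (L + 1) := by
    refine le_trans hM ?_
    apply mul_le_mul_of_nonneg_left _ hC13.le
    linarith
  have h25 : Mo ≤ C13 * (L + 1) := le_trans (le_abs_self _) h24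
  have h27 : b / 2 ≤ z - 1 := by
    rw [hz]
    have h28 : C12 * L + C13 * (L + 1) = (C12 + C13) * L + C13 := by ring
    linarith
  have h29 : z - 1 ≤ max (z - 1) 0 := le_max_left _ _
  constructor <;> linarith

/-- final bookkeeping -/
theorem B14_fin {C C7 C6 X L G T η ε Rr I4 I3 V : ℝ} (hT : 1 ≤ T) (hε : 0 < ε) (hC : 1 ≤ C) (hL : 1 ≤ L)
    (hGe : G = T ^ (1 / 4 - η)) (hXdef : X = T ^ ε) (hX1 : 1 ≤ X)
    (hCL4 : 4 * (C * L) ≤ X) (hx6 : C7 ^ 6 ≤ X) (hxC6 : 8 * |C6| ≤ X) (hxe : 2048 * Real.exp 3 * (C + 1) ≤ X)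
    (h4m : I4 ≤ C6 * T ^ (1 + ε)) (hI3 : 0 ≤ I3) (h3a : I3 ≤ Real.exp 3 * T ^ (3 / 4 + η + 211 * ε))
    (hV : V = T ^ (5 / 4 - η + 220 * ε))
    (hmain : Rr ≤ 4 * (G * X ^ 2) * I4 + 512 * (4 * C ^ 3 * L ^ 2 + C7 ^ 6) * G ^ 2 * I3) : Rr ≤ V := by
  have hT0 : 0 < T := by linarith
  have hG0 : 0 < G := by rw [hGe]; exact Real.rpow_pos_of_pos hT0 _
  have hX0 : 0 < X := by linarith
  have hXX : T ^ (2 * ε) = X ^ 2 := by
    rw [hXdef, ← Real.rpow_natCast, ← Real.rpow_mul hT0.le]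
    congr 1
    push_cast
    ring
  have h4a : 4 * (G * X ^ 2) * I4 ≤ V / 2 := by
    have h30 : 4 * (G * X ^ 2) * I4 ≤ 4 * (G * X ^ 2) * (C6 * T ^ (1 + ε)) :=
      mul_le_mul_of_nonneg_left h4m (by positivity)
    have h31 : 4 * (G * X ^ 2) * (C6 * T ^ (1 + ε)) ≤ 4 * (G * X ^ 2) * (X / 8 * T ^ (1 + ε)) := by
      apply mul_le_mul_of_nonneg_left _ (by positivity)
      apply mul_le_mul_of_nonneg_right _ (by positivity)
      linarith [le_abs_self C6]
    have h32 : 4 * (G * X ^ 2) * (X / 8 * T ^ (1 + ε)) = T ^ (5 / 4 - η + 4 * ε) / 2 := by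
      have h33 : T ^ (5 / 4 - η + 4 * ε) = G * X ^ 2 * X * T ^ (1 + ε) := by
        rw [hGe, ← hXX, hXdef, ← Real.rpow_add hT0, ← Real.rpow_add hT0, ← Real.rpow_add hT0]
        congr 1
        ring
      rw [h33]
      ring
    have h34 : T ^ (5 / 4 - η + 4 * ε) ≤ T ^ (5 / 4 - η + 220 * ε) :=
      Real.rpow_le_rpow_of_exponent_le hT (by linarith)
    rw [hV]
    linarith
  have h3b : 512 * (4 * C ^ 3 * L ^ 2 + C7 ^ 6) * G ^ 2 * I3 ≤ V / 2 := by
    have h50 : 4 * C ^ 3 * L ^ 2 + C7 ^ 6 ≤ (C + 1) * X ^ 2 := by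
      have h51 : (4 * (C * L)) ^ 2 ≤ X ^ 2 := pow_le_pow_left₀ (by positivity) hCL4 2
      have h52 : 4 * C ^ 3 * L ^ 2 = C / 4 * (4 * (C * L)) ^ 2 := by ring
      have h53 : C / 4 * (4 * (C * L)) ^ 2 ≤ C / 4 * X ^ 2 := mul_le_mul_of_nonneg_left h51 (by linarith)
      have h54 : X ≤ X ^ 2 := by nlinarith
      have h55 : 0 ≤ C * X ^ 2 := by positivity
      rw [h52, add_mul, one_mul]
      linarith
    have h56 : 512 * (4 * C ^ 3 * L ^ 2 + C7 ^ 6) * G ^ 2 ≤ 512 * ((C + 1) * X ^ 2) * G ^ 2 := by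
      apply mul_le_mul_of_nonneg_right _ (by positivity)
      linarith
    have h57 : 512 * (4 * C ^ 3 * L ^ 2 + C7 ^ 6) * G ^ 2 * I3 ≤
        512 * ((C + 1) * X ^ 2) * G ^ 2 * (Real.exp 3 * T ^ (3 / 4 + η + 211 * ε)) :=
      mul_le_mul h56 h3a hI3 (by positivity)
    have h58 : 512 * ((C + 1) * X ^ 2) * G ^ 2 * (Real.exp 3 * T ^ (3 / 4 + η + 211 * ε)) =
        (512 * Real.exp 3 * (C + 1)) * (X ^ 2 * G ^ 2 * T ^ (3 / 4 + η + 211 * ε)) := by ring
    have h59 : (512 * Real.exp 3 * (C + 1)) * (X ^ 2 * G ^ 2 * T ^ (3 / 4 + η + 211 * ε)) ≤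
        X / 2 * (X ^ 2 * G ^ 2 * T ^ (3 / 4 + η + 211 * ε)) := by
      apply mul_le_mul_of_nonneg_right _ (by positivity)
      have : 0 ≤ Real.exp 3 * (C + 1) := by positivity
      linarith
    have hGG : G ^ 2 = T ^ (1 / 2 - 2 * η) := by
      rw [hGe, ← Real.rpow_natCast, ← Real.rpow_mul hT0.le]
      congr 1
      push_cast
      ring
    have h60 : X / 2 * (X ^ 2 * G ^ 2 * T ^ (3 / 4 + η + 211 * ε)) = T ^ (5 / 4 - η + 214 * ε) / 2 := by
      have h61 : T ^ (5 / 4 - η + 214 * ε) = X * (X ^ 2 * G ^ 2 * T ^ (3 / 4 + η + 211 * ε)) := by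
        rw [hGG, ← hXX, hXdef, ← Real.rpow_add hT0, ← Real.rpow_add hT0, ← Real.rpow_add hT0]
        congr 1
        ring
      rw [h61]
      ring
    have h62 : T ^ (5 / 4 - η + 214 * ε) ≤ T ^ (5 / 4 - η + 220 * ε) :=
      Real.rpow_le_rpow_of_exponent_le hT (by linarith)
    rw [hV]
    linarith
  linarith

/-- from the weighted integral over the window to the integral over `[T, 2T]` -/
theorem B14_weight {T ε V : ℝ} {F : ℝ → ℝ} (hT : 1 ≤ T) (hε : 0 < ε) (hX : 2 ≤ T ^ ε) (hF : Continuous F)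
    (hF0 : ∀ t, 0 ≤ F t) (h : ∫ t in (T ^ (1 - ε))..(T ^ (1 + ε)), W T t * F t ≤ V) :
    ∫ t in T..(2 * T), F t ≤ Real.exp 3 * V := by
  have hT0 : 0 < T := by linarith
  have hTlo : T ^ (1 - ε) ≤ T := by
    calc T ^ (1 - ε) ≤ T ^ (1 : ℝ) := Real.rpow_le_rpow_of_exponent_le hT (by linarith)
      _ = T := Real.rpow_one T
  have hThi : 2 * T ≤ T ^ (1 + ε) := by
    rw [Real.rpow_add hT0, Real.rpow_one, mul_comm]
    exact mul_le_mul_of_nonneg_left hX hT0.le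
  have hTlo0 : 0 < T ^ (1 - ε) := Real.rpow_pos_of_pos hT0 _
  have hWc : ContinuousOn (fun t => W T t * F t) (Icc (T ^ (1 - ε)) (T ^ (1 + ε))) := by
    apply ContinuousOn.mul
    · unfold W
      apply Continuous.comp_continuousOn Real.continuous_exp
      apply ContinuousOn.sub
      · apply ContinuousOn.neg
        exact Continuous.continuousOn (by fun_prop)
      · apply Continuous.comp_continuousOn Real.continuous_sqrt
        apply ContinuousOn.div continuousOn_const continuousOn_id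
        intro t ht
        have : 0 < t := lt_of_lt_of_le hTlo0 ht.1
        exact this.ne'
    · exact hF.continuousOn
  have h40 : ∫ t in T..(2 * T), F t ≤ ∫ t in T..(2 * T), Real.exp 3 * (W T t * F t) := by
    apply intervalIntegral.integral_mono_on (by linarith)
    · exact hF.intervalIntegrable _ _
    · apply ContinuousOn.intervalIntegrable
      rw [uIcc_of_le (by linarith)]
      apply ContinuousOn.mul continuousOn_const
      apply hWc.mono
      intro t ht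
      exact ⟨le_trans hTlo ht.1, le_trans ht.2 hThi⟩
    · intro t ht
      have h41 : 1 ≤ Real.exp 3 * W T t := by
        unfold W
        rw [← Real.exp_add]
        apply Real.one_le_exp
        have h42 : Real.sqrt (t / T) ≤ 2 := by
          rw [Real.sqrt_le_left (by norm_num)]
          rw [div_le_iff₀ hT0]
          linarith [ht.2]
        have h43 : Real.sqrt (T / t) ≤ 1 := by
          rw [Real.sqrt_le_left (by norm_num)]
          rw [div_le_iff₀ (lt_of_lt_of_le hT0 ht.1)]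
          linarith [ht.1]
        linarith
      calc F t = 1 * F t := (one_mul _).symm
        _ ≤ (Real.exp 3 * W T t) * F t := mul_le_mul_of_nonneg_right h41 (hF0 t)
        _ = _ := by ring
  rw [intervalIntegral.integral_const_mul] at h40
  refine le_trans h40 ?_
  apply mul_le_mul_of_nonneg_left _ (Real.exp_pos 3).le
  refine le_trans ?_ h
  apply intervalIntegral.integral_mono_interval hTlo (by linarith) hThi
  · apply Filter.Eventually.of_forall
    intro t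
    exact mul_nonneg (Real.exp_pos _).le (hF0 t)
  · apply ContinuousOn.intervalIntegrable
    rw [uIcc_of_le (by linarith)]
    exact hWc

theorem B14_NG {T η t : ℝ} (hη : 0 < η) (hT : 1 ≤ T) (ht : T ≤ t) : NN T * GG η T / t ^ 2 ≤ 1 := by
  have hT0 : 0 < T := by linarith
  have ht0 : 0 < t := by linarith
  rw [div_le_one (by positivity)]
  have h22 : NN T * GG η T ≤ T ^ 2 := by
    unfold NN GG
    rw [← Real.rpow_add hT0]
    calc T ^ ((3 / 2 : ℝ) + (1 / 4 - η)) ≤ T ^ (2 : ℝ) :=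
          Real.rpow_le_rpow_of_exponent_le hT (by linarith)
      _ = T ^ 2 := by norm_cast
  have h23 : T ^ 2 ≤ t ^ 2 := pow_le_pow_left₀ hT0.le ht 2
  linarith

theorem reduce (η ε : ℝ) (hη : 0 < η) (hη1 : η ≤ 1 / 80) (hε : 0 < ε) (hε1 : ε ≤ η / 100)
    (h : ∃ T₀ : ℝ, ∀ T : ℝ, T₀ ≤ T →
      ∫ t in (T ^ (1 - ε))..(T ^ (1 + ε)), W T t * (max (Z (NN T) (GG η T) t - 1) 0) ^ 3 ≤ T ^ (3 / 4 + η + 211 * ε)) :
    ∃ T₀ : ℝ, ∀ T : ℝ, T₀ ≤ T →
      ∫ t in T..(2 * T), ‖riemannZeta (1 / 2 + t * I)‖ ^ 6 ≤ T ^ (5 / 4 - η + 220 * ε) := by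
  obtain ⟨T1, hT1⟩ := h
  obtain ⟨C3, hC3, hsup⟩ := local_sup_strong
  obtain ⟨C3', hC3', hmean⟩ := local_mean
  obtain ⟨C6, hC6⟩ := fourth_moment ε hε
  obtain ⟨C7, hC7, hzD⟩ := zeta_le_D
  obtain ⟨C12, hC12, hmN⟩ := mN_le
  obtain ⟨C13, hC13, hM0⟩ := M0_le
  -- common constants
  obtain ⟨C, hC⟩ : ∃ C, C = C3 + C3' + 1 := ⟨_, rfl⟩
  have hC1 : 1 ≤ C := by linarith
  obtain ⟨T2, hT2⟩ := B14_log ε
    (8 * C + 8 * (C12 + C13) + C7 ^ 2 + C7 ^ 6 + 8 * |C6| + 2048 * Real.exp 3 * (C + 1) + 4) hε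
  refine ⟨max 3 (max T1 T2), fun T hT => ?_⟩
  have hT3 : 3 ≤ T := le_trans (le_max_left _ _) hT
  have hTT1 : T1 ≤ T := le_trans (le_trans (le_max_left _ _) (le_max_right _ _)) hT
  have hTT2 : T2 ≤ T := le_trans (le_trans (le_max_right _ _) (le_max_right _ _)) hT
  have hT0 : 0 < T := by linarith
  have hT1' : 1 ≤ T := by linarith
  have hlog1 : 1 ≤ Real.log T := by
    rw [Real.le_log_iff_exp_le hT0]
    have := Real.exp_one_lt_d9
    linarith
  have hG1 : 1 ≤ GG η T := Real.one_le_rpow hT1' (by linarith)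
  have hGT : GG η T ≤ T := by
    unfold GG
    calc T ^ (1 / 4 - η) ≤ T ^ (1 : ℝ) := Real.rpow_le_rpow_of_exponent_le hT1' (by linarith)
      _ = T := Real.rpow_one T
  have hN2 : 2 ≤ NN T := by
    unfold NN
    calc (2 : ℝ) ≤ T := by linarith
      _ = T ^ (1 : ℝ) := (Real.rpow_one T).symm
      _ ≤ T ^ (3 / 2 : ℝ) := Real.rpow_le_rpow_of_exponent_le hT1' (by norm_num)
  have hlogN : Real.log (NN T) = 3 / 2 * Real.log T := by unfold NN; rw [Real.log_rpow hT0]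
  obtain ⟨hx2, hx6, hxC6, hxe, hx4, hxC13, hCL4, hC1213⟩ :=
    B14_consts hC1 hC7 hC12 hC13 (Real.exp_pos 3) hlog1 hlogN (hT2 T hTT2)
  have hL1 : 1 ≤ Real.log (NN T) := by rw [hlogN]; linarith
  have hW := B14_weight (F := fun t => (max (Z (NN T) (GG η T) t - 1) 0) ^ 3) hT1' hε (by linarith)
    ((((Z_cont (by linarith) hG1).sub continuous_const).max continuous_const).pow 3) (fun t => pow_nonneg (le_max_right _ _) 3) (hT1 T hTT1)
  have hNG : ∀ t ∈ Icc T (2 * T), NN T * GG η T / t ^ 2 ≤ 1 := fun t ht => B14_NG hη hT1' ht.1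
  have hzD' : ∀ t ∈ Icc T (2 * T), ‖riemannZeta (1 / 2 + t * I)‖ ≤ ‖D (NN T) t‖ + C7 := by
    intro t ht
    have h7 := hzD T t (by linarith) ht.1 ht.2
    have h8 := norm_sub_norm_le (riemannZeta (1 / 2 + t * I)) (D (NN T) t)
    linarith
  have hGe : GG η T = T ^ (1 / 4 - η) := rfl
  have hCLp : 1 ≤ C * Real.log (NN T) := one_le_mul_of_one_le_of_one_le hC1 hL1
  have hG1' : (0 : ℝ) < GG η T := by linarith
  have hDc : Continuous (fun t : ℝ => D (NN T) t) := D_cont (by linarith)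
  have hZc : Continuous (fun t : ℝ => Z (NN T) (GG η T) t) := Z_cont (by linarith) hG1
  obtain ⟨X, hXdef⟩ : ∃ X, X = T ^ ε := ⟨_, rfl⟩
  rw [← hXdef] at hx2 hx6 hxC6 hxe hx4 hxC13 hCL4 hC1213
  have h4m := hC6 T hT1'
  clear hT1 hT2 hC6 hzD hlogN hlog1 hTT1 hTT2 hT hT3
  generalize GG η T = G at *
  generalize NN T = N at *
  refine B14_fin (C := C) (C7 := C7) (C6 := C6) (X := X) (L := Real.log N) (G := G) (ε := ε)
    hT1' hε hC1 hL1 hGe hXdef (by linarith) hCL4 hx6 hxC6 hxe h4m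
    (intervalIntegral.integral_nonneg (by linarith) (fun t _ => pow_nonneg (le_max_right _ _) 3)) hW rfl ?_
  have hX1 : 1 ≤ X := by linarith
  refine B14_blocks (T := T) (G := G) (lam := G * X ^ 2) (C := C) (C7 := C7) (L := Real.log N)
    (z := fun t => ‖riemannZeta (1 / 2 + t * I)‖) (d := fun t => ‖D N t‖) (B := fun t => B N G t)
    (Z := fun t => max (Z N G t - 1) 0) hT0 hG1 hGT B14_zeta_cont hDc.norm
    ((hZc.sub continuous_const).max continuous_const)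
    (fun t _ => norm_nonneg _) (fun t _ => norm_nonneg _) hzD' hC7.le (by linarith) hL1 hCLp ?_ ?_ ?_
    (fun t _ => le_max_right _ _) ?_
  · have h9 : X * 1 ≤ X * X := mul_le_mul_of_nonneg_left hX1 (by linarith)
    have h10 : 1 * X ^ 2 ≤ G * X ^ 2 := mul_le_mul_of_nonneg_right hG1 (sq_nonneg X)
    linarith
  · intro t t' htt
    refine le_trans (hsup N G t t' hN2 hG1 htt) ?_
    have h12 : 0 ≤ G * B N G t' + 1 := by
      have := mul_nonneg hG1'.le (B_nonneg (N := N) (t := t') hG1')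
      linarith
    apply mul_le_mul_of_nonneg_right _ h12
    exact mul_le_mul_of_nonneg_right (by linarith) (by linarith)
  · intro t t' htt
    refine le_trans (hmean N G t t' hN2 hG1 htt) ?_
    apply mul_le_mul_of_nonneg_right (by linarith)
    exact mul_nonneg hG1'.le (B_nonneg hG1')
  · intro t ht hlt
    exact B14_thr hG1 hX1 (by linarith) hCL4 hxC13 hC1213 hC13 hlt (hmN N hN2)
      (hM0 N G t hN2 hG1 (le_trans hT1' ht.1)) (hNG t ht) rfl hx4
end U6
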