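import Pool.Agent.Lib.MP_39df77_nt.U6.B13
import Pool.Agent.Lib.MP_39df77_nt.U6.B14
/-! B15: final assembly (helper10). -/
open Complex MeasureTheory Set
namespace U6

lemma B15_zeta_cont : Continuous (fun t : ℝ => ‖riemannZeta (1 / 2 + t * I)‖ ^ 6) := by
  have h : Continuous (fun t : ℝ => riemannZeta (1 / 2 + t * I)) := by
    rw [continuous_iff_continuousAt]
    intro t
    have h1 : (1 / 2 + (t : ℂ) * I) ≠ 1 := by
      intro h
      have := congrArg Complex.re h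
      norm_num at this
    have h2 : ContinuousAt riemannZeta (1 / 2 + (t : ℂ) * I) := (differentiableAt_riemannZeta h1).continuousAt
    have h3 : ContinuousAt (fun t : ℝ => (1 / 2 + (t : ℂ) * I)) t := by fun_prop
    exact ContinuousAt.comp (f := fun t : ℝ => (1 / 2 + (t : ℂ) * I)) (g := riemannZeta) h2 h3
  fun_prop

lemma B15_dyadic {f : ℝ → ℝ} (hf : ∀ t, 0 ≤ f t) (hc : Continuous f) {β T₀ : ℝ} (hβ : 1 ≤ β)
    (h : ∀ T, T₀ ≤ T → ∫ t in T..(2 * T), f t ≤ T ^ β) :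
    ∃ C : ℝ, ∀ T : ℝ, 1 ≤ T → ∫ t in (0 : ℝ)..T, f t ≤ C * T ^ β := by
  set T1 : ℝ := max T₀ 1 with hT1
  have hT1a : 1 ≤ T1 := le_max_right _ _
  have hT1b : T₀ ≤ T1 := le_max_left _ _
  set A : ℝ := ∫ t in (0 : ℝ)..(2 * T1), f t with hA
  have hA0 : 0 ≤ A := intervalIntegral.integral_nonneg (by linarith) (fun t _ => hf t)
  have hint : ∀ a b : ℝ, IntervalIntegrable f volume a b := fun a b => hc.intervalIntegrable a b
  have hsmall : ∀ T, 1 ≤ T → T ≤ 2 * T1 → ∫ t in (0 : ℝ)..T, f t ≤ (A + 1) * T ^ β := by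
    intro T hT hT2
    have h1 : ∫ t in (0 : ℝ)..T, f t ≤ A := by
      have := intervalIntegral.integral_add_adjacent_intervals (hint 0 T) (hint T (2 * T1))
      have h2 : 0 ≤ ∫ t in T..(2 * T1), f t := intervalIntegral.integral_nonneg hT2 (fun t _ => hf t)
      linarith
    have h3 : 1 ≤ T ^ β := Real.one_le_rpow hT (by linarith)
    nlinarith
  have key : ∀ n : ℕ, ∀ T : ℝ, 1 ≤ T → T ≤ 2 ^ n * T1 → ∫ t in (0 : ℝ)..T, f t ≤ (A + 1) * T ^ β := by
    intro n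
    induction n with
    | zero =>
      intro T hT hT2
      apply hsmall T hT
      simp at hT2
      linarith
    | succ n ih =>
      intro T hT hT2
      by_cases hs : T ≤ 2 * T1
      · exact hsmall T hT hs
      · push Not at hs
        have hh1 : 1 ≤ T / 2 := by linarith
        have hh2 : T / 2 ≤ 2 ^ n * T1 := by rw [pow_succ] at hT2; linarith
        have h1 := ih (T / 2) hh1 hh2
        have h2 := h (T / 2) (by linarith)
        rw [show 2 * (T / 2) = T by ring] at h2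
        have h3 := intervalIntegral.integral_add_adjacent_intervals (hint 0 (T / 2)) (hint (T / 2) T)
        have h4 : (T : ℝ) ^ β = 2 ^ β * (T / 2) ^ β := by
          rw [← Real.mul_rpow (by norm_num) (by linarith)]
          congr 1
          ring
        have h5 : (2 : ℝ) ≤ 2 ^ β := by
          calc (2 : ℝ) = 2 ^ (1 : ℝ) := by norm_num
            _ ≤ 2 ^ β := Real.rpow_le_rpow_of_exponent_le (by norm_num) hβ
        have h6 : 0 ≤ (T / 2) ^ β := Real.rpow_nonneg (by linarith) _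
        rw [← h3, h4]
        have h7 : (A + 2) * (T / 2) ^ β ≤ (A + 1) * (2 ^ β * (T / 2) ^ β) := by
          have : (A + 2) ≤ (A + 1) * 2 ^ β := by nlinarith
          calc (A + 2) * (T / 2) ^ β ≤ ((A + 1) * 2 ^ β) * (T / 2) ^ β := mul_le_mul_of_nonneg_right this h6
            _ = _ := by ring
        linarith
  refine ⟨A + 1, fun T hT => ?_⟩
  obtain ⟨n, hn⟩ := pow_unbounded_of_one_lt T (by norm_num : (1 : ℝ) < 2)
  exact key n T hT (by nlinarith)

/-- the sixth moment from the estimate of the sum of the main terms -/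
theorem sixth_of_main {η δ : ℝ} (h0 : 0 < η) (h1 : η ≤ 1 / 80)
    (hmain : ∃ ε₁ : ℝ, 0 < ε₁ ∧ ∀ ε : ℝ, 0 < ε → ε ≤ ε₁ → MainAt η ε) (hδ : δ < η) :
    ∃ C : ℝ, ∀ T : ℝ, 1 ≤ T →
      ∫ t in (0 : ℝ)..T, ‖riemannZeta (1 / 2 + t * I)‖ ^ 6 ≤ C * T ^ (5 / 4 - δ) := by
  obtain ⟨ε₁, hε₁, hmain⟩ := hmain
  obtain ⟨ε, hε, hε0, hε1, hε2⟩ : ∃ ε : ℝ, 0 < ε ∧ ε ≤ ε₁ ∧ ε ≤ η / 10000 ∧ 220 * ε ≤ η - δ :=
    ⟨min ε₁ (min (η / 10000) ((η - δ) / 220)), lt_min hε₁ (lt_min (by positivity) (by linarith)),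
      min_le_left _ _, (min_le_right _ _).trans (min_le_left _ _), by
      have := (min_le_right ε₁ (min (η / 10000) ((η - δ) / 220))).trans (min_le_right _ _)
      linarith⟩
  obtain ⟨T₀, hT₀⟩ := reduce η ε h0 h1 hε (by linarith) (Zplus η ε h0 h1 hε hε1 (hmain ε hε hε0))
  obtain ⟨C, hC⟩ := B15_dyadic (β := 5 / 4 - η + 220 * ε) (T₀ := T₀)
    (f := fun t : ℝ => ‖riemannZeta (1 / 2 + t * I)‖ ^ 6) (fun t => by positivity)
    B15_zeta_cont (by linarith) (fun T hT => hT₀ T hT)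
  refine ⟨max C 0, fun T hT => (hC T hT).trans ?_⟩
  have e1 : T ^ (5 / 4 - η + 220 * ε) ≤ T ^ (5 / 4 - δ) :=
    Real.rpow_le_rpow_of_exponent_le hT (by linarith)
  have e2 : 0 ≤ T ^ (5 / 4 - η + 220 * ε) := Real.rpow_nonneg (by linarith) _
  calc C * T ^ (5 / 4 - η + 220 * ε) ≤ max C 0 * T ^ (5 / 4 - η + 220 * ε) :=
        mul_le_mul_of_nonneg_right (le_max_left _ _) e2
    _ ≤ max C 0 * T ^ (5 / 4 - δ) := mul_le_mul_of_nonneg_left e1 (le_max_right _ _)
end U6
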