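import Pool.Agent.Lib.MP_39df77_nt.U6.B15
import Pool.Agent.Lib.MP_39df77_nt.TS.App4
/-! The sixth moment: every exponent greater than `5/4 - 1/84`. -/
open Complex MeasureTheory Set
namespace U6

theorem mainAt_of {η : ℝ} (h0 : 0 < η) (h1 : η < 1 / 84) :
    ∃ ε₁ : ℝ, 0 < ε₁ ∧ ∀ ε : ℝ, 0 < ε → ε ≤ ε₁ → MainAt η ε := by
  refine ⟨(1 / 84 - η) / 100, by linarith, fun ε hε hε1 => ?_⟩
  obtain ⟨T₀, h⟩ := TS.main_all η ε h0 h1 hε hε1
  refine ⟨max T₀ 1, fun T hT => (h T ((le_max_left _ _).trans hT)).trans ?_⟩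
  exact Real.rpow_le_rpow_of_exponent_le ((le_max_right _ _).trans hT) (by linarith)

/-- The sixth moment: every exponent `5/4 - δ` with `δ < 1/84`. -/
theorem sixth_moment_x {δ : ℝ} (hδ : δ < 1 / 84) : ∃ C : ℝ, ∀ T : ℝ, 1 ≤ T →
    ∫ t in (0 : ℝ)..T, ‖riemannZeta (1 / 2 + t * I)‖ ^ 6 ≤ C * T ^ (5 / 4 - δ) := by
  obtain ⟨η, h1, h2⟩ : ∃ η : ℝ, max δ 0 < η ∧ η < 1 / 84 :=
    exists_between (max_lt hδ (by norm_num))
  have h0 : 0 < η := lt_of_le_of_lt (le_max_right _ _) h1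
  exact sixth_of_main h0 (by linarith) (mainAt_of h0 h2) (lt_of_le_of_lt (le_max_left _ _) h1)

end U6
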